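import Mathlib
import Pool.Agent.H71.DC.Defs

/-!
Definitions for total colourings of large dense graphs: the bipartite versions of the definitions of `DR` and `DX`.
In all of them `P` is one side of the bipartition, the other side is the complement of `P`, and both sides have the same
number of elements.
-/

set_option autoImplicit false

namespace Pool.Agent.H71.TD

open Finset Classical
open Pool.Agent.H71.DN Pool.Agent.H71.DX Pool.Agent.H71.DR Pool.Agent.H71.HL Pool.Agent.H71.DC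

/-- All edges of `F` have exactly one end in `P`. -/
def Bip {V : Type} (F : SimpleGraph V) (P : Finset V) : Prop :=
  ∀ a b, F.Adj a b → (a ∈ P ↔ b ∉ P)

/-- `A` and `Y` are on different sides of the bipartition. -/
def Opp {V : Type} (P A Y : Finset V) : Prop :=
  (A ⊆ P ∧ Disjoint Y P) ∨ (Disjoint A P ∧ Y ⊆ P)

/-- Two uncovered vertices on different sides can be covered by an alternating path with edges from `F`. -/
def ConB {V : Type} [Fintype V] (F : SimpleGraph V) (P : Finset V) (ζ β N : ℕ) : Prop :=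
  ∀ π : V → V, Inv π → (∀ v, π v ≠ v → (v ∈ P ↔ π v ∉ P)) → ∀ Bl : Finset V, Bl.card ≤ β →
    (univ.filter fun v => π v = v ∧ v ∉ Bl).card ≤ ζ →
    ∀ w1 w2 : V, w1 ∈ P → w2 ∉ P → π w1 = w1 → π w2 = w2 →
    ∃ π' : V → V, Inv π' ∧ (∀ v, π v ≠ v → π' v ≠ v) ∧ π' w1 ≠ w1 ∧ π' w2 ≠ w2 ∧
      (∀ v, π' v = π v ∨ F.Adj v (π' v)) ∧ (∀ v ∈ Bl, v ≠ w1 → v ≠ w2 → π' v = π v) ∧
      (univ.filter fun v => π' v ≠ π v).card ≤ N

/-- Expansion in many small steps, bipartite version (`h` is the number of elements of `P`). -/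
structure ExkB {V : Type} [Fintype V] (F : SimpleGraph V) (P : Finset V) (D m k : ℕ)
    (b : ℕ → ℕ) (q ζ : ℕ) : Prop where
  d1 : ∀ v, D ≤ dg F v
  p0 : ∀ A Y : Finset V, Opp P A Y → m ≤ A.card →
    ee F A Y ≤ (4 * k + 12) * Fintype.card V → Y.card + b 0 ≤ P.card
  ps : ∀ i < k, ∀ A Y : Finset V, Opp P A Y → b i ≤ A.card + q →
    ee F A Y ≤ (4 * k + 12) * Fintype.card V → Y.card + b (i + 1) ≤ P.card
  pz : ∀ A Y : Finset V, Opp P A Y → b k ≤ A.card + q → ζ ≤ Y.card →
    Fintype.card V < ee F A Y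

/-- Minimum degree and expansion, as needed for the reserve, bipartite version. -/
structure XcB {V : Type} [Fintype V] (G : SimpleGraph V) (P : Finset V) (α ν lam : ℝ) :
    Prop where
  deg : ∀ v, α * P.card ≤ (dg G v : ℝ)
  gro : ∀ A Y : Finset V, Opp P A Y → α / 4 * P.card ≤ (A.card : ℝ) →
    (A.card : ℝ) ≤ (1 - α / 8) * P.card → (ee G A Y : ℝ) ≤ lam * (P.card : ℝ) ^ 2 →
    (A.card : ℝ) + Y.card + ν * P.card ≤ P.card

/-- Expansion from `P` to `Q`. -/
def XPQ {V : Type} [Fintype V] (G : SimpleGraph V) (P Q : Finset V) (τ ν lam : ℝ) : Prop :=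
  ∀ A Y : Finset V, A ⊆ P → Y ⊆ Q → τ * P.card ≤ (A.card : ℝ) →
    (A.card : ℝ) ≤ (1 - τ) * P.card → (ee G A Y : ℝ) ≤ lam * (P.card : ℝ) ^ 2 →
    (A.card : ℝ) + Y.card + ν * P.card ≤ Q.card

/-- `X` samples the sets `{a ∈ P : at most i of the b j are adjacent to a}`, `b j ∈ Q`, with density `x`. -/
def SmPQ {V : Type} [Fintype V] (G : SimpleGraph V) (P Q X : Finset V) (x η : ℝ) (K : ℕ) : Prop :=
  ∀ b : Fin K → V, (∀ j, b j ∈ Q) → ∀ i : ℕ,
    |((X.filter fun a => (univ.filter fun j => G.Adj (b j) a).card ≤ i).card : ℝ) -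
      x * ((P.filter fun a => (univ.filter fun j => G.Adj (b j) a).card ≤ i).card : ℝ)| ≤
      η * P.card

end Pool.Agent.H71.TD
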