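import Mathlib
import Pool.Agent.H71.TD.Defs

/-!
The four quarters of the vertex set of a part.
-/

set_option autoImplicit false

namespace Pool.Agent.H71.TD

open Finset Classical
open Pool.Agent.H71.DN Pool.Agent.H71.DX Pool.Agent.H71.DR Pool.Agent.H71.HL Pool.Agent.H71.DC

/-- The quarters `XA, XB, YA, YB` are a partition of the vertex set, `#XA = #XB` and `#YA = #YB`. -/
structure Qtr {V : Type} [Fintype V] (XA XB YA YB : Finset V) : Prop where
  d1 : Disjoint XA XB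
  d2 : Disjoint XA YA
  d3 : Disjoint XA YB
  d4 : Disjoint XB YA
  d5 : Disjoint XB YB
  d6 : Disjoint YA YB
  cov : ∀ v, v ∈ XA ∨ v ∈ XB ∨ v ∈ YA ∨ v ∈ YB
  cX : XA.card = XB.card
  cY : YA.card = YB.card

/-- Small matchings `σ ℓ`, `ℓ < K`, of a sparse graph `D`, which contain all the edges of `D` and avoid the sets `U ℓ`. -/
structure Dst {V : Type} [Fintype V] (D : SimpleGraph V) (K : ℕ) (U : ℕ → Finset V) (cap : ℕ)
    (σ : ℕ → V → V) : Prop where
  inv : ∀ ℓ < K, Inv (σ ℓ)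
  adj : ∀ ℓ < K, ∀ v, σ ℓ v ≠ v → D.Adj v (σ ℓ v)
  dis : ∀ i < K, ∀ j < K, i ≠ j → ∀ v, σ i v ≠ v → σ i v ≠ σ j v
  cov : ∀ a b, D.Adj a b → ∃ ℓ < K, σ ℓ a = b
  fix : ∀ ℓ < K, ∀ v ∈ U ℓ, σ ℓ v = v
  cap : ∀ ℓ < K, (univ.filter fun v => σ ℓ v ≠ v).card ≤ cap

/-- The number of vertices of `Z` that are not in `U` and not moved by `σ`. -/
noncomputable def lef {V : Type} [Fintype V] (Z U : Finset V) (σ : V → V) : ℕ :=
  (Z.filter fun v => v ∉ U ∧ σ v = v).card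

end Pool.Agent.H71.TD
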