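import Mathlib
import Pool.Agent.H71.TD.Defs2

/-!
Classes of edges, and the conclusion for one part of the vertex set.
-/

set_option autoImplicit false

namespace Pool.Agent.H71.TD

open Finset Classical
open Pool.Agent.H71.DN Pool.Agent.H71.DX Pool.Agent.H71.DR Pool.Agent.H71.HL Pool.Agent.H71.DC

/-- The edges of the class `j`. -/
def cg {V : Type} (H : SimpleGraph V) (cl : Sym2 V → ℕ) (j : ℕ) : SimpleGraph V where
  Adj a b := H.Adj a b ∧ cl s(a, b) = j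
  symm := ⟨fun a b h => ⟨h.1.symm, by rw [Sym2.eq_swap]; exact h.2⟩⟩
  loopless := ⟨fun a h => H.irrefl h.1⟩

/-- The edges of `S` between `P` and `Q`. -/
def bt {V : Type} (S : SimpleGraph V) (P Q : Finset V) : SimpleGraph V where
  Adj a b := S.Adj a b ∧ ((a ∈ P ∧ b ∈ Q) ∨ (a ∈ Q ∧ b ∈ P))
  symm := ⟨fun a b h => ⟨h.1.symm, by
    rcases h.2 with h2 | h2
    · exact Or.inr ⟨h2.2, h2.1⟩
    · exact Or.inl ⟨h2.2, h2.1⟩⟩⟩
  loopless := ⟨fun a h => S.irrefl h.1⟩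

/-- The edges of `S0` and `SR` between `P` and `Q` can be decomposed into exactly perfect matchings of the `P ∪ Q \ U ℓ`,
`ℓ < K`, and `t1` perfect matchings of `P ∪ Q`, for all small sets `U ℓ` with the right degrees. -/
def PtOk {V : Type} [Fintype V] (S0 SR : SimpleGraph V) (P Q : Finset V) (K t1 u s : ℕ) : Prop :=
  ∀ U : ℕ → Finset V, (∀ ℓ < K, (U ℓ ∩ (P ∪ Q)).card ≤ u) → (∀ v ∈ P ∪ Q, mul K U v ≤ s) →
    (∀ ℓ < K, (P \ U ℓ).card = (Q \ U ℓ).card) →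
    (∀ v ∈ P ∪ Q, dg (bt S0 P Q) v + dg (bt SR P Q) v + mul K U v = K + t1) →
    ∃ mm : ℕ → V → V,
      PM (bt S0 P Q ⊔ bt SR P Q) (K + t1)
        (fun ℓ => (univ \ (P ∪ Q)) ∪ (if ℓ < K then U ℓ else ∅)) mm ∧
      ∀ ℓ < K + t1, ∀ v ∈ P ∪ Q, (ℓ < K → v ∉ U ℓ) → mm ℓ v ≠ v

/-- Exactly perfect matchings of the complements of the `U ℓ`, `ℓ < L`. -/
def Full {V : Type} [Fintype V] (H : SimpleGraph V) (L : ℕ) (U : ℕ → Finset V) : Prop :=
  ∃ mm : ℕ → V → V, PM H L U mm ∧ ∀ ℓ < L, ∀ v, v ∉ U ℓ → mm ℓ v ≠ v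

end Pool.Agent.H71.TD
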