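import Mathlib
import Pool.Agent.H71.TD.Defs3
import Pool.Agent.H71.DC.Defs2

/-!
The structure of a `Δ`-regular dense graph, the splitting into quarters, the colouring of the defect edges, and the
choice of the colours and holes of the vertices: definitions of the interfaces.

`nd : V → ℕ` gives the pieces: part `i < k` consists of the pieces `2 i` and `2 i + 1`; the piece `2 k` is the exceptional
set. If `ty i` then the part `i` is the piece `2 i` (an expander), otherwise the part `i` is nearly bipartite with the sides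
`2 i`, `2 i + 1`. The labels are `0, ..., Δ + 1`.
-/

set_option autoImplicit false

namespace Pool.Agent.H71.TD

open Finset Classical
open Pool.Agent.H71.DN Pool.Agent.H71.DX Pool.Agent.H71.DR Pool.Agent.H71.HL Pool.Agent.H71.DC

/-- The regular edges: inside an expanding part, or between the two sides of a nearly bipartite part. -/
def Hg {V : Type} (G : SimpleGraph V) (k : ℕ) (ty : ℕ → Prop) (nd : V → ℕ) : SimpleGraph V where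
  Adj a b := G.Adj a b ∧ nd a < 2 * k ∧ nd b < 2 * k ∧ nd a / 2 = nd b / 2 ∧
    (ty (nd a / 2) ∨ nd a ≠ nd b)
  symm := ⟨fun a b h => ⟨h.1.symm, h.2.2.1, h.2.1, h.2.2.2.1.symm, by
    rcases h.2.2.2.2 with h2 | h2
    · exact Or.inl (h.2.2.2.1 ▸ h2)
    · exact Or.inr h2.symm⟩⟩
  loopless := ⟨fun a h => G.irrefl h.1⟩

/-- The defect edges. -/
def Fg {V : Type} (G : SimpleGraph V) (k : ℕ) (ty : ℕ → Prop) (nd : V → ℕ) : SimpleGraph V where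
  Adj a b := G.Adj a b ∧ ¬ (Hg G k ty nd).Adj a b
  symm := ⟨fun _ _ h => ⟨h.1.symm, fun h' => h.2 h'.symm⟩⟩
  loopless := ⟨fun _ h => G.irrefl h.1⟩

/-- The structure of a `Δ`-regular dense graph. -/
structure Str {V : Type} [Fintype V] (G : SimpleGraph V) (Δ : ℕ) (c x ξ ζ f : ℝ) (k : ℕ)
    (ty : ℕ → Prop) (nd : V → ℕ) (sf : ℕ → Finset V) : Prop where
  reg : ∀ v, dg G v = Δ
  le : ∀ v, nd v ≤ 2 * k
  kc : (k : ℝ) * c ≤ 2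
  big : ∀ i < k, (Δ : ℝ) ≤ (pt nd (2 * i)).card + ξ * Fintype.card V
  lo : ((pt nd (2 * k)).card : ℝ) ≤ f * Fintype.card V
  e1 : ∀ i < k, ty i → pt nd (2 * i + 1) = ∅ ∧ Even (pt nd (2 * i)).card
  e2 : ∀ i < k, ty i → ∀ v ∈ pt nd (2 * i),
    (Δ : ℝ) ≤ dgi G (pt nd (2 * i)) v + ξ * Fintype.card V
  e3 : ∀ i < k, ty i → XPc G (pt nd (2 * i)) (c / 128) x x
  b1 : ∀ i < k, ¬ ty i → (pt nd (2 * i)).card = (pt nd (2 * i + 1)).card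
  b2 : ∀ i < k, ¬ ty i → ∀ v ∈ pt nd (2 * i),
    (Δ : ℝ) ≤ dgi G (pt nd (2 * i + 1)) v + ξ * Fintype.card V
  b3 : ∀ i < k, ¬ ty i → ∀ v ∈ pt nd (2 * i + 1),
    (Δ : ℝ) ≤ dgi G (pt nd (2 * i)) v + ξ * Fintype.card V
  b4 : ∀ i < k, ¬ ty i → XPQ G (pt nd (2 * i)) (pt nd (2 * i + 1)) (c / 128) x x
  b5 : ∀ i < k, ¬ ty i → XPQ G (pt nd (2 * i + 1)) (pt nd (2 * i)) (c / 128) x x
  sm : ((∑ v ∈ univ.filter fun v => nd v < 2 * k, dg (Fg G k ty nd) v : ℕ) : ℝ) ≤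
    f * (Fintype.card V : ℝ) ^ 2
  s1 : ∀ i, sf i ⊆ pt nd (2 * k)
  s2 : ∀ i < k, ty i → (sf i).card ≤ 1
  s3 : ∀ i < k, ∀ w ∈ pt nd (2 * k), w ∉ sf i →
    ζ * Fintype.card V ≤ (((pt nd (2 * i)).filter fun v => ¬ G.Adj w v).card : ℝ) ∧
    (¬ ty i → ζ * Fintype.card V ≤
      (((pt nd (2 * i + 1)).filter fun v => ¬ G.Adj w v).card : ℝ))
  s4 : ∀ i < k, ¬ ty i →
    (∀ w ∈ sf i, ζ * Fintype.card V ≤
      (((pt nd (2 * i)).filter fun v => ¬ G.Adj w v).card : ℝ)) ∨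
    (∀ w ∈ sf i, ζ * Fintype.card V ≤
      (((pt nd (2 * i + 1)).filter fun v => ¬ G.Adj w v).card : ℝ))

/-- The quarter `j` (`0, 1, 2, 3` = `XA, XB, YA, YB`) of the part `i`. -/
noncomputable def qs {V : Type} [Fintype V] (nd qt : V → ℕ) (i j : ℕ) : Finset V :=
  univ.filter fun v => nd v / 2 = i ∧ qt v = j

/-- A good splitting of the parts into quarters. -/
structure Spl {V : Type} [Fintype V] (G : SimpleGraph V) (k : ℕ) (ty : ℕ → Prop)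
    (nd qt : V → ℕ) (η : ℝ) (KE KB : ℕ) (f1 : ℝ) : Prop where
  lt : ∀ v, qt v < 4
  eq : ∀ i < k, (qs nd qt i 0).card = (qs nd qt i 1).card ∧
    (qs nd qt i 2).card = (qs nd qt i 3).card
  bs : ∀ i < k, ¬ ty i → (∀ v, nd v = 2 * i → qt v = 0 ∨ qt v = 2) ∧
    (∀ v, nd v = 2 * i + 1 → qt v = 1 ∨ qt v = 3)
  smE : ∀ i < k, ty i → ∀ j < 4,
    SmPQ G (pt nd (2 * i)) (pt nd (2 * i)) (qs nd qt i j) (1 / 4) η KE
  smA : ∀ i < k, ¬ ty i → ∀ j, (j = 0 ∨ j = 2) →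
    SmPQ G (pt nd (2 * i)) (pt nd (2 * i + 1)) (qs nd qt i j) (1 / 2) η KB
  smB : ∀ i < k, ¬ ty i → ∀ j, (j = 1 ∨ j = 3) →
    SmPQ G (pt nd (2 * i + 1)) (pt nd (2 * i)) (qs nd qt i j) (1 / 2) η KB
  gs1 : ((∑ w ∈ pt nd (2 * k), ∑ j ∈ range (2 * k),
    ((dgi G (pt nd j) w - 8 * dgi G ((pt nd j).filter fun v => qt v < 2) w) +
      (dgi G (pt nd j) w - 8 * dgi G ((pt nd j).filter fun v => 2 ≤ qt v) w)) : ℕ) : ℝ) ≤
    f1 * Fintype.card V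
  gs2 : ∀ i < 2 * k, ∀ j < 2 * k,
    (ee (Fg G k ty nd) (pt nd i) (pt nd j) : ℝ) ≤
      16 * ee (Fg G k ty nd) ((pt nd i).filter fun v => qt v < 2)
        ((pt nd j).filter fun v => qt v < 2) + f1 * Fintype.card V ∧
    (ee (Fg G k ty nd) (pt nd i) (pt nd j) : ℝ) ≤
      16 * ee (Fg G k ty nd) ((pt nd i).filter fun v => 2 ≤ qt v)
        ((pt nd j).filter fun v => 2 ≤ qt v) + f1 * Fintype.card V

/-- The imbalance caused by `φ` in the nearly bipartite part `i`. -/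
noncomputable def uu {V : Type} [Fintype V] (nd : V → ℕ) (φ : V → V) (i : ℕ) : ℤ :=
  (((pt nd (2 * i)).filter fun v => φ v ≠ v).card : ℤ) -
    ((pt nd (2 * i + 1)).filter fun v => φ v ≠ v).card

/-- A proper colouring `φ` of the defect edges with the labels `0, ..., Δ + 1`; `c0` are the colours of the exceptional
vertices. At the labels `< t` nothing happens in the quarters `0, 1`, at the labels `t ≤ ℓ < 2 t` nothing happens in the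
quarters `2, 3`. -/
structure FcOut {V : Type} [Fintype V] (G : SimpleGraph V) (Δ k : ℕ) (ty : ℕ → Prop)
    (nd qt : V → ℕ) (t : ℕ) (δ : ℝ) (φ : ℕ → V → V) (c0 : V → ℕ) : Prop where
  inv : ∀ ℓ < Δ + 2, Inv (φ ℓ)
  adj : ∀ ℓ < Δ + 2, ∀ v, φ ℓ v ≠ v → (Fg G k ty nd).Adj v (φ ℓ v)
  dis : ∀ i < Δ + 2, ∀ j < Δ + 2, i ≠ j → ∀ v, φ i v ≠ v → φ i v ≠ φ j v
  cov : ∀ a b, (Fg G k ty nd).Adj a b → ∃ ℓ < Δ + 2, φ ℓ a = b
  t1 : ∀ ℓ < t, ∀ v, nd v < 2 * k → qt v < 2 → φ ℓ v = v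
  t2 : ∀ ℓ, t ≤ ℓ → ℓ < 2 * t → ∀ v, nd v < 2 * k → 2 ≤ qt v → φ ℓ v = v
  c1 : ∀ w ∈ pt nd (2 * k), 2 * t ≤ c0 w ∧ c0 w < Δ + 2 ∧ φ (c0 w) w = w
  c2 : ∀ w ∈ pt nd (2 * k), ∀ w' ∈ pt nd (2 * k), c0 w = c0 w' → w = w'
  sm : ∀ ℓ < Δ + 2, ((univ.filter fun v => nd v < 2 * k ∧ φ ℓ v ≠ v).card : ℝ) ≤
    δ * Fintype.card V
  ub : ∀ i < k, ¬ ty i → ∀ ℓ < Δ + 2, |uu nd (φ ℓ) i| ≤ 3
  us : ∀ i < k, ¬ ty i → 5 * ∑ ℓ ∈ range (Δ + 2), max 0 (-uu nd (φ ℓ) i) ≤ 4 * Δ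

/-- Colours `c` and holes `h` of the vertices that fit to `φ`. -/
structure GaOut {V : Type} [Fintype V] (G : SimpleGraph V) (Δ k : ℕ) (ty : ℕ → Prop)
    (nd qt : V → ℕ) (t : ℕ) (κ : ℝ) (φ : ℕ → V → V) (c h : V → ℕ) : Prop where
  lt : ∀ v, c v < Δ + 2 ∧ h v < Δ + 2 ∧ c v ≠ h v
  fr : ∀ v, φ (c v) v = v ∧ φ (h v) v = v
  pr : ∀ a b, G.Adj a b → c a ≠ c b
  t1 : ∀ v, nd v < 2 * k → qt v < 2 → t ≤ c v ∧ t ≤ h v
  t2 : ∀ v, nd v < 2 * k → 2 ≤ qt v → (c v < t ∨ 2 * t ≤ c v) ∧ (h v < t ∨ 2 * t ≤ h v)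
  ev : ∀ i < k, ty i → ∀ ℓ < Δ + 2,
    Even ((pt nd (2 * i)).filter fun v => ¬ (φ ℓ v ≠ v ∨ c v = ℓ ∨ h v = ℓ)).card
  ba : ∀ i < k, ¬ ty i → ∀ ℓ < Δ + 2,
    ((pt nd (2 * i)).filter fun v => ¬ (φ ℓ v ≠ v ∨ c v = ℓ ∨ h v = ℓ)).card =
      ((pt nd (2 * i + 1)).filter fun v => ¬ (φ ℓ v ≠ v ∨ c v = ℓ ∨ h v = ℓ)).card
  sm : ∀ ℓ < Δ + 2, ((univ.filter fun v => nd v < 2 * k ∧ (φ ℓ v ≠ v ∨ c v = ℓ ∨ h v = ℓ)).card :
    ℝ) ≤ κ * Fintype.card V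

end Pool.Agent.H71.TD
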