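import Mathlib
import Pool.Agent.H71.TD.Defs
import Pool.Agent.H71.DN.Alt

/-!
GAD: the edges of two vertex-disjoint sparse graphs `Dp`, `Dm` are distributed to the labels `< K` (as small matchings that avoid the sets `U ℓ`) such that the number of edges of `Dp` minus the number of edges of `Dm` at the label `ℓ`
is the prescribed integer `α ℓ`. (`ee Dp univ univ` is twice the number of edges.) Compare `sas` (`DX/Sas.lean`, proved), a simpler greedy distribution.

Proof.  Step 1: for the labels `ℓ < K` one after the other choose a matching `M ℓ` of `|α ℓ|` edges of `Dp` (if `α ℓ ≥ 0`) or `Dm` (if `α ℓ < 0`), not used for the earlier labels, with no vertex in `U ℓ`. This is possible greedily: fewer than `K a` edges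
are already used, and at most `(u + 2 a) d` edges meet `U ℓ` or an edge chosen before for `ℓ`; and `K a + (u + 2 a) d` is less than the number of edges of `Dp` and of `Dm` (`hbig`).
Step 2: the number of unused edges of `Dp` is the number of unused edges of `Dm` by `hsum`; so the unused edges can be arranged in pairs (`e` in `Dp`, `f` in `Dm`; they have no common vertex by `hdis`). Put the pairs one after the other into labels `ℓ ∈ T3`
(both edges of the pair into the same label), keeping matchings that avoid `U ℓ` with at most `cap` covered vertices. For a pair with the four vertices `a, b, c, e` a label of `T3` is forbidden if one of them is in `U ℓ` (at most `4 s` labels) or already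
covered at `ℓ` (at most `4 d` labels, since a vertex has at most `d` edges), or if more than `cap - 4` vertices are covered at `ℓ`: since the number of all (covered vertex, label) pairs is at most `card V * d`, there are at most `card V * d / (cap - 3)` such labels.
By `hK` some label remains. After Step 1 at most `2 a ≤ cap` vertices are covered at each label.
(As in `DX/Sas.lean` one can describe the state by the set of the edges already treated and the involutions `σ ℓ`.)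
-/

set_option autoImplicit false

namespace Pool.Agent.H71.TD

open Finset Classical
open Pool.Agent.H71.DN Pool.Agent.H71.DX Pool.Agent.H71.DR Pool.Agent.H71.HL Pool.Agent.H71.DC

/-- The edges in `T` have been treated. -/
structure GI {V : Type} (K : ℕ) (U : ℕ → Finset V)
    (T : Finset (Sym2 V)) (σ : ℕ → V → V) : Prop where
  p1 : ∀ j < K, Inv (σ j)
  p2 : ∀ j < K, ∀ v, σ j v ≠ v → s(v, σ j v) ∈ T
  p3 : ∀ i < K, ∀ j < K, i ≠ j → ∀ v, σ i v ≠ v → σ i v ≠ σ j v
  p4 : ∀ a b, s(a, b) ∈ T → ∃ j < K, σ j a = b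
  p5 : ∀ j < K, ∀ v ∈ U j, σ j v = v

theorem gi_add {V : Type} {K : ℕ} {U : ℕ → Finset V} {T : Finset (Sym2 V)}
    (hT : ∀ x y, s(x, y) ∈ T → x ≠ y) {σ : ℕ → V → V} (I : GI K U T σ) {j : ℕ} (hjK : j < K)
    {a b : V} (hne : a ≠ b) (hn : s(a, b) ∉ T) (ha : a ∉ U j) (hb : b ∉ U j)
    (ha2 : σ j a = a) (hb2 : σ j b = b) :
    ∃ σ' : ℕ → V → V, GI K U (insert s(a, b) T) σ' ∧ (∀ i, i ≠ j → σ' i = σ i) ∧
      σ' j a = b ∧ σ' j b = a ∧ ∀ v, v ≠ a → v ≠ b → σ' j v = σ j v := by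
  obtain ⟨π, q1, q2, q3, q4⟩ := join (σ j) (I.p1 j hjK) a b hne ha2 hb2
  have upd : ∀ i, i ≠ j → Function.update σ j π i = σ i := fun i hi =>
    Function.update_of_ne hi _ _
  have upds : Function.update σ j π j = π := Function.update_self _ _ _
  have hx : ∀ i < K, ∀ v w, s(v, w) = s(a, b) → v ≠ w → σ i v ≠ w := by
    intro i hi v w hvw hvw2 h
    refine hn ?_
    rw [← hvw, ← h]
    exact I.p2 i hi v (by rw [h]; exact hvw2.symm)
  refine ⟨Function.update σ j π, ⟨?_, ?_, ?_, ?_, ?_⟩, upd, ?_, ?_, ?_⟩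
  · intro i hi
    by_cases h : i = j
    · subst h
      rw [upds]
      exact q1
    · rw [upd i h]
      exact I.p1 i hi
  · intro i hi v hv
    rw [mem_insert]
    by_cases h : i = j
    · subst h
      rw [upds] at hv ⊢
      by_cases hva : v = a
      · subst hva
        left
        rw [q2]
      · by_cases hvb : v = b
        · subst hvb
          left
          rw [q3]
          exact Sym2.eq_swap
        · right
          rw [q4 v hva hvb] at hv ⊢
          exact I.p2 i hi v hv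
    · rw [upd i h] at hv ⊢
      exact Or.inr (I.p2 i hi v hv)
  · intro i hi i' hi' hii v hv
    by_cases h : i = j
    · have h' : i' ≠ j := fun h2 => hii (h.trans h2.symm)
      subst h
      rw [upds] at hv ⊢
      rw [upd i' h']
      by_cases hva : v = a
      · subst hva
        rw [q2]
        exact (hx i' hi' v b rfl hne).symm
      · by_cases hvb : v = b
        · subst hvb
          rw [q3]
          exact (hx i' hi' v a Sym2.eq_swap hne.symm).symm
        · rw [q4 v hva hvb] at hv ⊢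
          exact I.p3 i hi i' hi' hii v hv
    · rw [upd i h] at hv ⊢
      by_cases h' : i' = j
      · subst h'
        rw [upds]
        by_cases hva : v = a
        · subst hva
          rw [q2]
          exact hx i hi v b rfl hne
        · by_cases hvb : v = b
          · subst hvb
            rw [q3]
            exact hx i hi v a Sym2.eq_swap hne.symm
          · rw [q4 v hva hvb]
            exact I.p3 i hi i' hi' hii v hv
      · rw [upd i' h']
        exact I.p3 i hi i' hi' hii v hv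
  · intro x y hxy
    rw [mem_insert] at hxy
    rcases hxy with hxy | hxy
    · refine ⟨j, hjK, ?_⟩
      rw [upds]
      rw [Sym2.eq_iff] at hxy
      rcases hxy with ⟨rfl, rfl⟩ | ⟨rfl, rfl⟩
      · exact q2
      · exact q3
    · obtain ⟨i, hi, h2⟩ := I.p4 x y hxy
      refine ⟨i, hi, ?_⟩
      by_cases h : i = j
      · subst h
        rw [upds]
        have hxy3 : x ≠ y := hT _ _ hxy
        have hxa : x ≠ a := fun h4 => by
          rw [h4, ha2] at h2
          exact hxy3 (h4.trans h2)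
        have hxb : x ≠ b := fun h4 => by
          rw [h4, hb2] at h2
          exact hxy3 (h4.trans h2)
        rw [q4 x hxa hxb]
        exact h2
      · rw [upd i h]
        exact h2
  · intro i hi v hv
    by_cases h : i = j
    · subst h
      rw [upds, q4 v (fun h2 => ha (h2 ▸ hv)) (fun h2 => hb (h2 ▸ hv))]
      exact I.p5 i hi v hv
    · rw [upd i h]
      exact I.p5 i hi v hv
  · rw [upds]
    exact q2
  · rw [upds]
    exact q3
  · intro v h1 h2
    rw [upds]
    exact q4 v h1 h2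

/-- Number of vertices whose partner is a `D`-neighbour. -/
noncomputable def np {V : Type} [Fintype V] (D : SimpleGraph V) (π : V → V) : ℕ :=
  (univ.filter fun v => D.Adj v (π v)).card

/-- Number of moved vertices. -/
noncomputable def mv {V : Type} [Fintype V] (π : V → V) : ℕ :=
  (univ.filter fun v => π v ≠ v).card

/-- Number of treated ordered pairs of `D`. -/
noncomputable def cT {V : Type} [Fintype V] (D : SimpleGraph V) (T : Finset (Sym2 V)) : ℕ :=
  (univ.filter fun p : V × V => D.Adj p.1 p.2 ∧ s(p.1, p.2) ∈ T).card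

theorem np_le_mv {V : Type} [Fintype V] (D : SimpleGraph V) (π : V → V) : np D π ≤ mv π := by
  refine card_le_card fun v hv => ?_
  rw [mem_filter] at hv ⊢
  exact ⟨hv.1, hv.2.ne.symm⟩

theorem card_add2 {V : Type} [Fintype V] {a b : V} (hne : a ≠ b) {p q : V → Prop}
    [DecidablePred p] [DecidablePred q] (hpa : ¬ p a) (hpb : ¬ p b) (hqa : q a) (hqb : q b)
    (h : ∀ v, v ≠ a → v ≠ b → (q v ↔ p v)) :
    (univ.filter fun v => q v).card = (univ.filter fun v => p v).card + 2 := by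
  have h1 : (univ.filter fun v => q v) = insert a (insert b (univ.filter fun v => p v)) := by
    ext v
    rw [mem_insert, mem_insert, mem_filter, mem_filter]
    by_cases hva : v = a
    · subst hva
      exact ⟨fun _ => Or.inl rfl, fun _ => ⟨mem_univ _, hqa⟩⟩
    · by_cases hvb : v = b
      · subst hvb
        exact ⟨fun _ => Or.inr (Or.inl rfl), fun _ => ⟨mem_univ _, hqb⟩⟩
      · rw [h v hva hvb]
        exact ⟨fun h => Or.inr (Or.inr h), fun h3 => by
          rcases h3 with h3 | h3 | h3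
          · exact absurd h3 hva
          · exact absurd h3 hvb
          · exact h3⟩
  have hb' : b ∉ (univ.filter fun v => p v) := fun h => hpb (mem_filter.1 h).2
  have ha' : a ∉ insert b (univ.filter fun v => p v) := by
    rw [mem_insert, not_or]
    exact ⟨hne, fun h => hpa (mem_filter.1 h).2⟩
  rw [h1, card_insert_of_notMem ha', card_insert_of_notMem hb']

theorem mv_add {V : Type} [Fintype V] {π π' : V → V} {a b : V} (hne : a ≠ b) (ha : π a = a)
    (hb : π b = b) (ha' : π' a = b) (hb' : π' b = a)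
    (h : ∀ v, v ≠ a → v ≠ b → π' v = π v) : mv π' = mv π + 2 := by
  unfold mv
  refine card_add2 (p := fun v => π v ≠ v) (q := fun v => π' v ≠ v) hne (fun h => h ha)
    (fun h => h hb) ?_ ?_ ?_
  · rw [ha']
    exact hne.symm
  · rw [hb']
    exact hne
  · intro v h1 h2
    rw [h v h1 h2]

theorem np_add {V : Type} [Fintype V] (D : SimpleGraph V) {π π' : V → V} {a b : V}
    (hab : D.Adj a b) (ha : π a = a)
    (hb : π b = b) (ha' : π' a = b) (hb' : π' b = a)
    (h : ∀ v, v ≠ a → v ≠ b → π' v = π v) : np D π' = np D π + 2 := by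
  unfold np
  refine card_add2 (p := fun v => D.Adj v (π v)) (q := fun v => D.Adj v (π' v)) hab.ne
    ?_ ?_ ?_ ?_ ?_
  · rw [ha]
    exact D.loopless.irrefl a
  · rw [hb]
    exact D.loopless.irrefl b
  · rw [ha']
    exact hab
  · rw [hb']
    exact hab.symm
  · intro v h1 h2
    rw [h v h1 h2]

theorem np_same {V : Type} [Fintype V] (D : SimpleGraph V) {π π' : V → V} {a b : V}
    (hab : ¬ D.Adj a b) (ha : π a = a)
    (hb : π b = b) (ha' : π' a = b) (hb' : π' b = a)
    (h : ∀ v, v ≠ a → v ≠ b → π' v = π v) : np D π' = np D π := by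
  unfold np
  congr 1
  ext v
  rw [mem_filter, mem_filter]
  by_cases hva : v = a
  · subst hva
    rw [ha, ha']
    exact ⟨fun h => absurd h.2 hab, fun h => absurd h.2 (D.loopless.irrefl v)⟩
  · by_cases hvb : v = b
    · subst hvb
      rw [hb, hb']
      exact ⟨fun h => absurd h.2.symm hab, fun h => absurd h.2 (D.loopless.irrefl v)⟩
    · rw [h v hva hvb]

theorem sum_np {V : Type} [Fintype V] (D : SimpleGraph V) {K : ℕ} {U : ℕ → Finset V}
    {T : Finset (Sym2 V)} {σ : ℕ → V → V} (I : GI K U T σ) :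
    ∑ ℓ ∈ range K, np D (σ ℓ) = cT D T := by
  unfold np cT
  rw [← card_sigma]
  refine card_bij (fun x _ => (x.2, σ x.1 x.2)) ?_ ?_ ?_
  · intro x hx
    rw [mem_sigma, mem_range, mem_filter] at hx
    rw [mem_filter]
    exact ⟨mem_univ _, hx.2.2, I.p2 _ hx.1 _ hx.2.2.ne.symm⟩
  · intro x hx y hy hxy
    rw [mem_sigma, mem_range, mem_filter] at hx hy
    obtain ⟨i, v⟩ := x
    obtain ⟨j, w⟩ := y
    rw [Prod.mk.injEq] at hxy
    obtain ⟨h1, h2⟩ := hxy
    dsimp only at h1 h2 hx hy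
    subst h1
    by_cases hij : i = j
    · rw [hij]
    · exact absurd h2 (I.p3 i hx.1 j hy.1 hij v hx.2.2.ne.symm)
  · intro p hp
    rw [mem_filter] at hp
    obtain ⟨j, hj, h⟩ := I.p4 p.1 p.2 hp.2.2
    refine ⟨⟨j, p.1⟩, ?_, ?_⟩
    · rw [mem_sigma, mem_range, mem_filter]
      refine ⟨hj, mem_univ _, ?_⟩
      dsimp only
      rw [h]
      exact hp.2.1
    · dsimp only
      rw [h]

theorem ee_card {V : Type} [Fintype V] (D : SimpleGraph V) :
    ee D univ univ = (univ.filter fun p : V × V => D.Adj p.1 p.2).card := by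
  unfold ee
  rw [univ_product_univ]

/-- Select an unused edge which avoids the set `W`. -/
theorem sel_edge {V : Type} [Fintype V] (D : SimpleGraph V) (T : Finset (Sym2 V))
    (W : Finset V) (d : ℕ) (hd : ∀ v, dg D v ≤ d)
    (h : cT D T + 2 * (W.card * d) < ee D univ univ) :
    ∃ x y, D.Adj x y ∧ s(x, y) ∉ T ∧ x ∉ W ∧ y ∉ W := by
  by_contra hc
  push Not at hc
  have hsub : (univ.filter fun p : V × V => D.Adj p.1 p.2) ⊆
      (univ.filter fun p : V × V => D.Adj p.1 p.2 ∧ s(p.1, p.2) ∈ T) ∪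
      (W.biUnion fun x => (univ.filter fun y => D.Adj x y).image fun y => (x, y)) ∪
      (W.biUnion fun y => (univ.filter fun x => D.Adj y x).image fun x => (x, y)) := by
    intro p hp
    rw [mem_filter] at hp
    rw [mem_union, mem_union, mem_filter, mem_biUnion, mem_biUnion]
    by_cases h1 : s(p.1, p.2) ∈ T
    · exact Or.inl (Or.inl ⟨mem_univ _, hp.2, h1⟩)
    · by_cases h2 : p.1 ∈ W
      · refine Or.inl (Or.inr ⟨p.1, h2, mem_image.2 ⟨p.2, mem_filter.2 ⟨mem_univ _, hp.2⟩, rfl⟩⟩)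
      · exact Or.inr ⟨p.2, hc p.1 p.2 hp.2 h1 h2, mem_image.2 ⟨p.1,
          mem_filter.2 ⟨mem_univ _, hp.2.symm⟩, rfl⟩⟩
  have h1 := card_le_card hsub
  have h2 := card_union_le ((univ.filter fun p : V × V => D.Adj p.1 p.2 ∧ s(p.1, p.2) ∈ T) ∪
      (W.biUnion fun x => (univ.filter fun y => D.Adj x y).image fun y => (x, y)))
      (W.biUnion fun y => (univ.filter fun x => D.Adj y x).image fun x => (x, y))
  have h3 := card_union_le (univ.filter fun p : V × V => D.Adj p.1 p.2 ∧ s(p.1, p.2) ∈ T)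
      (W.biUnion fun x => (univ.filter fun y => D.Adj x y).image fun y => (x, y))
  have h4 : (W.biUnion fun x => (univ.filter fun y => D.Adj x y).image fun y => (x, y)).card ≤
      W.card * d := card_biUnion_le_card_mul _ _ _ fun x _ => card_image_le.trans (hd x)
  have h5 : (W.biUnion fun y => (univ.filter fun x => D.Adj y x).image fun x => (x, y)).card ≤
      W.card * d := card_biUnion_le_card_mul _ _ _ fun x _ => card_image_le.trans (hd x)
  rw [ee_card] at h
  unfold cT at h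
  omega

/-- Put `n` further edges of `D` into the label `k`. -/
theorem inner {V : Type} [Fintype V] (D D' : SimpleGraph V)
    (hdis : ∀ v b c, D.Adj v b → ¬ D'.Adj v c) {K : ℕ} {U : ℕ → Finset V} {a d u : ℕ}
    (hd : ∀ v, dg D v ≤ d) {k : ℕ} (hk : k < K) (hu : (U k).card ≤ u)
    (hbig : 2 * (K * a + (u + 2 * a) * d) < ee D univ univ) (n : ℕ) :
    ∀ (T : Finset (Sym2 V)) (σ : ℕ → V → V), GI K U T σ →
      (∀ x y, s(x, y) ∈ T → D.Adj x y ∨ D'.Adj x y) → mv (σ k) + 2 * n ≤ 2 * a →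
      (∑ ℓ ∈ range K, mv (σ ℓ)) + 2 * n ≤ 2 * (K * a) →
      ∃ (T' : Finset (Sym2 V)) (σ' : ℕ → V → V), GI K U T' σ' ∧
        (∀ x y, s(x, y) ∈ T' → D.Adj x y ∨ D'.Adj x y) ∧ (∀ i, i ≠ k → σ' i = σ i) ∧
        mv (σ' k) = mv (σ k) + 2 * n ∧ np D (σ' k) = np D (σ k) + 2 * n ∧
        np D' (σ' k) = np D' (σ k) := by
  induction n with
  | zero =>
    intro T σ I HT _ _
    exact ⟨T, σ, I, HT, fun _ _ => rfl, rfl, rfl, rfl⟩
  | succ n ih =>
    intro T σ I HT hmk hms
    have hHT : ∀ x y, s(x, y) ∈ T → x ≠ y := fun x y h => by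
      rcases HT x y h with h | h
      · exact h.ne
      · exact h.ne
    obtain ⟨W, hW⟩ : ∃ W, W = U k ∪ univ.filter fun v => σ k v ≠ v := ⟨_, rfl⟩
    have hWc : W.card ≤ u + 2 * a := by
      rw [hW]
      refine (card_union_le _ _).trans ?_
      have : (univ.filter fun v => σ k v ≠ v).card = mv (σ k) := rfl
      omega
    have hcT : cT D T ≤ 2 * (K * a) := by
      rw [← sum_np D I]
      refine (sum_le_sum fun ℓ _ => np_le_mv D (σ ℓ)).trans ?_
      omega
    have hWd : W.card * d ≤ (u + 2 * a) * d := Nat.mul_le_mul_right _ hWc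
    obtain ⟨x, y, hxy, hnT, hxW, hyW⟩ := sel_edge D T W d hd (by omega)
    rw [hW, mem_union, not_or, mem_filter] at hxW hyW
    have hx2 : σ k x = x := by
      by_contra h
      exact hxW.2 ⟨mem_univ _, h⟩
    have hy2 : σ k y = y := by
      by_contra h
      exact hyW.2 ⟨mem_univ _, h⟩
    obtain ⟨σ₁, I₁, g1, g2, g3, g4⟩ := gi_add hHT I hk hxy.ne hnT hxW.1 hyW.1 hx2 hy2
    have m1 := mv_add hxy.ne hx2 hy2 g2 g3 g4
    have m2 := np_add D hxy hx2 hy2 g2 g3 g4
    have m3 := np_same D' (hdis x y y hxy) hx2 hy2 g2 g3 g4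
    have msum : ∑ ℓ ∈ range K, mv (σ₁ ℓ) = (∑ ℓ ∈ range K, mv (σ ℓ)) + 2 := by
      rw [← sum_erase_add _ _ (mem_range.2 hk), ← sum_erase_add _ (fun ℓ => mv (σ ℓ))
        (mem_range.2 hk), m1]
      have : ∑ ℓ ∈ (range K).erase k, mv (σ₁ ℓ) = ∑ ℓ ∈ (range K).erase k, mv (σ ℓ) :=
        sum_congr rfl fun ℓ hℓ => by rw [g1 ℓ (ne_of_mem_erase hℓ)]
      rw [this]
      ring
    obtain ⟨T', σ', I', HT', e1, e2, e3, e4⟩ := ih (insert s(x, y) T) σ₁ I₁ (fun x' y' h => by
      rw [mem_insert] at h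
      rcases h with h | h
      · rw [Sym2.eq_iff] at h
        rcases h with ⟨rfl, rfl⟩ | ⟨rfl, rfl⟩
        · exact Or.inl hxy
        · exact Or.inl hxy.symm
      · exact HT x' y' h) (by omega) (by omega)
    refine ⟨T', σ', I', HT', fun i hi => by rw [e1 i hi, g1 i hi], ?_, ?_, ?_⟩
    · omega
    · omega
    · omega

/-- Step 1. -/
theorem step1 {V : Type} [Fintype V] (Dp Dm : SimpleGraph V) (K : ℕ)
    (U : ℕ → Finset V) (α : ℕ → ℤ) (a d u : ℕ)
    (hdis : ∀ v b c, Dp.Adj v b → ¬ Dm.Adj v c)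
    (ha : ∀ ℓ < K, |α ℓ| ≤ a) (hd : ∀ v, dg Dp v ≤ d ∧ dg Dm v ≤ d)
    (hu : ∀ ℓ < K, (U ℓ).card ≤ u)
    (hbig : 2 * (K * a + (u + 2 * a) * d) < ee Dp univ univ ∧
      2 * (K * a + (u + 2 * a) * d) < ee Dm univ univ) (k : ℕ) (hk : k ≤ K) :
    ∃ (T : Finset (Sym2 V)) (σ : ℕ → V → V), GI K U T σ ∧
      (∀ x y, s(x, y) ∈ T → Dp.Adj x y ∨ Dm.Adj x y) ∧
      (∀ ℓ < k, mv (σ ℓ) = 2 * (α ℓ).natAbs ∧
        (np Dp (σ ℓ) : ℤ) = np Dm (σ ℓ) + 2 * α ℓ) ∧
      ∀ ℓ, k ≤ ℓ → ∀ v, σ ℓ v = v := by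
  induction k with
  | zero =>
    refine ⟨∅, fun _ v => v, ⟨?_, ?_, ?_, ?_, ?_⟩, ?_, ?_, ?_⟩
    · exact fun _ _ _ => rfl
    · exact fun _ _ v hv => absurd rfl hv
    · exact fun _ _ _ _ _ v hv => absurd rfl hv
    · intro a b hab
      simp at hab
    · exact fun _ _ _ _ => rfl
    · intro x y h
      simp at h
    · intro ℓ hℓ
      exact absurd hℓ (Nat.not_lt_zero _)
    · exact fun _ _ _ => rfl
  | succ k ih =>
    obtain ⟨T, σ, I, HT, h1, h2⟩ := ih (by omega)
    have hkK : k < K := hk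
    have hmvk : ∀ ℓ, k ≤ ℓ → mv (σ ℓ) = 0 := by
      intro ℓ hℓ
      unfold mv
      rw [card_eq_zero, filter_eq_empty_iff]
      intro v _ h
      exact h (h2 ℓ hℓ v)
    have hnpk : ∀ D : SimpleGraph V, np D (σ k) = 0 := fun D => by
      have := np_le_mv D (σ k)
      rw [hmvk k le_rfl] at this
      omega
    have hna : ∀ ℓ < K, (α ℓ).natAbs ≤ a := by
      intro ℓ hℓ
      have := ha ℓ hℓ
      rw [Int.abs_eq_natAbs] at this
      exact_mod_cast this
    have hsum : ∑ ℓ ∈ range K, mv (σ ℓ) ≤ 2 * (k * a) := by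
      have e1 : ∑ ℓ ∈ range K, mv (σ ℓ) = ∑ ℓ ∈ range k, mv (σ ℓ) := by
        symm
        refine sum_subset (range_mono hkK.le) fun ℓ _ hℓ => hmvk ℓ ?_
        rw [mem_range] at hℓ
        omega
      rw [e1]
      have e2 : ∑ ℓ ∈ range k, mv (σ ℓ) ≤ ∑ ℓ ∈ range k, 2 * a := by
        refine sum_le_sum fun ℓ hℓ => ?_
        rw [mem_range] at hℓ
        rw [(h1 ℓ hℓ).1]
        have := hna ℓ (by omega)
        omega
      refine e2.trans ?_
      rw [sum_const, card_range, smul_eq_mul]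
      exact le_of_eq (by ring)
    have hn := hna k hkK
    have htot : (∑ ℓ ∈ range K, mv (σ ℓ)) + 2 * (α k).natAbs ≤ 2 * (K * a) := by
      have e3 : (k + 1) * a ≤ K * a := Nat.mul_le_mul_right _ hkK
      have e4 : (k + 1) * a = k * a + a := by ring
      omega
    have hmk := hmvk k le_rfl
    have fin : ∀ (T' : Finset (Sym2 V)) (σ' : ℕ → V → V), GI K U T' σ' →
        (∀ x y, s(x, y) ∈ T' → Dp.Adj x y ∨ Dm.Adj x y) → (∀ i, i ≠ k → σ' i = σ i) →
        mv (σ' k) = 2 * (α k).natAbs → (np Dp (σ' k) : ℤ) = np Dm (σ' k) + 2 * α k →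
        ∃ (T : Finset (Sym2 V)) (σ : ℕ → V → V), GI K U T σ ∧
          (∀ x y, s(x, y) ∈ T → Dp.Adj x y ∨ Dm.Adj x y) ∧
          (∀ ℓ < k + 1, mv (σ ℓ) = 2 * (α ℓ).natAbs ∧
            (np Dp (σ ℓ) : ℤ) = np Dm (σ ℓ) + 2 * α ℓ) ∧
          ∀ ℓ, k + 1 ≤ ℓ → ∀ v, σ ℓ v = v := by
      intro T' σ' I' HT' e1 e2 e3
      refine ⟨T', σ', I', HT', fun ℓ hℓ => ?_, fun ℓ hℓ v => ?_⟩
      · by_cases h : ℓ = k
        · rw [h]
          exact ⟨e2, e3⟩
        · rw [e1 ℓ h]
          exact h1 ℓ (by omega)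
      · rw [e1 ℓ (by omega)]
        exact h2 ℓ (by omega) v
    by_cases hα : 0 ≤ α k
    · obtain ⟨T', σ', I', HT', e1, e2, e3, e4⟩ := inner Dp Dm hdis (fun v => (hd v).1) hkK
        (hu k hkK) hbig.1 (α k).natAbs T σ I HT (by omega) htot
      rw [hnpk Dp] at e3
      rw [hnpk Dm] at e4
      refine fin T' σ' I' HT' e1 (by omega) ?_
      rw [e3, e4]
      omega
    · obtain ⟨T', σ', I', HT', e1, e2, e3, e4⟩ := inner Dm Dp (fun v b c h1 h2 =>
        hdis v c b h2 h1) (fun v => (hd v).2) hkK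
        (hu k hkK) hbig.2 (α k).natAbs T σ I (fun x y h => (HT x y h).symm) (by omega) htot
      rw [hnpk Dm] at e3
      rw [hnpk Dp] at e4
      refine fin T' σ' I' (fun x y h => (HT' x y h).symm) e1 (by omega) ?_
      rw [e3, e4]
      omega

theorem cT_le {V : Type} [Fintype V] (D : SimpleGraph V) (T : Finset (Sym2 V)) :
    cT D T ≤ ee D univ univ := by
  rw [ee_card]
  refine card_le_card fun p hp => ?_
  rw [mem_filter] at hp ⊢
  exact ⟨hp.1, hp.2.1⟩

theorem cT_insert {V : Type} [Fintype V] (D : SimpleGraph V) (T : Finset (Sym2 V)) {a b : V}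
    (hab : D.Adj a b) (hn : s(a, b) ∉ T) : cT D (insert s(a, b) T) = cT D T + 2 := by
  unfold cT
  have h1 : (univ.filter fun p : V × V => D.Adj p.1 p.2 ∧ s(p.1, p.2) ∈ insert s(a, b) T) =
      insert (a, b) (insert (b, a)
        (univ.filter fun p : V × V => D.Adj p.1 p.2 ∧ s(p.1, p.2) ∈ T)) := by
    ext p
    rw [mem_insert, mem_insert, mem_filter, mem_filter, mem_insert, Sym2.eq_iff]
    constructor
    · rintro ⟨h0, h2, (⟨h3, h4⟩ | ⟨h3, h4⟩) | h3⟩
      · exact Or.inl (Prod.ext h3 h4)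
      · exact Or.inr (Or.inl (Prod.ext h3 h4))
      · exact Or.inr (Or.inr ⟨h0, h2, h3⟩)
    · rintro (h3 | h3 | h3)
      · rw [h3]
        exact ⟨mem_univ _, hab, Or.inl (Or.inl ⟨rfl, rfl⟩)⟩
      · rw [h3]
        exact ⟨mem_univ _, hab.symm, Or.inl (Or.inr ⟨rfl, rfl⟩)⟩
      · exact ⟨h3.1, h3.2.1, Or.inr h3.2.2⟩
  have h2 : (b, a) ∉ (univ.filter fun p : V × V => D.Adj p.1 p.2 ∧ s(p.1, p.2) ∈ T) := by
    intro h
    rw [mem_filter] at h
    apply hn
    rw [Sym2.eq_swap]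
    exact h.2.2
  have h3 : (a, b) ∉ insert (b, a)
      (univ.filter fun p : V × V => D.Adj p.1 p.2 ∧ s(p.1, p.2) ∈ T) := by
    rw [mem_insert, not_or]
    refine ⟨fun h => hab.ne (congrArg Prod.fst h), fun h => ?_⟩
    rw [mem_filter] at h
    exact hn h.2.2
  rw [h1, card_insert_of_notMem h3, card_insert_of_notMem h2]

theorem cT_same {V : Type} [Fintype V] (D : SimpleGraph V) (T : Finset (Sym2 V)) {a b : V}
    (hab : ¬ D.Adj a b) : cT D (insert s(a, b) T) = cT D T := by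
  unfold cT
  congr 1
  ext p
  rw [mem_filter, mem_filter, mem_insert, Sym2.eq_iff]
  constructor
  · rintro ⟨h0, h2, (⟨h3, h4⟩ | ⟨h3, h4⟩) | h3⟩
    · rw [h3, h4] at h2
      exact absurd h2 hab
    · rw [h3, h4] at h2
      exact absurd h2.symm hab
    · exact ⟨h0, h2, h3⟩
  · rintro ⟨h0, h2, h3⟩
    exact ⟨h0, h2, Or.inr h3⟩

theorem exists_unused {V : Type} [Fintype V] (D : SimpleGraph V) (T : Finset (Sym2 V))
    (h : cT D T < ee D univ univ) : ∃ x y, D.Adj x y ∧ s(x, y) ∉ T := by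
  by_contra hc
  push Not at hc
  have : ee D univ univ ≤ cT D T := by
    rw [ee_card]
    refine card_le_card fun p hp => ?_
    rw [mem_filter] at hp ⊢
    exact ⟨hp.1, hp.2, hc _ _ hp.2⟩
  omega

theorem deg_le {V : Type} [Fintype V] {Dp Dm : SimpleGraph V} {K : ℕ} {U : ℕ → Finset V}
    {d : ℕ} (hdis : ∀ v b c, Dp.Adj v b → ¬ Dm.Adj v c)
    (hd : ∀ v, dg Dp v ≤ d ∧ dg Dm v ≤ d) {T : Finset (Sym2 V)} {σ : ℕ → V → V}
    (I : GI K U T σ) (HT : ∀ x y, s(x, y) ∈ T → Dp.Adj x y ∨ Dm.Adj x y) (v : V) :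
    ((range K).filter fun j => σ j v ≠ v).card ≤ d := by
  have key : ∀ D : SimpleGraph V, (∀ j < K, σ j v ≠ v → D.Adj v (σ j v)) →
      ((range K).filter fun j => σ j v ≠ v).card ≤ dg D v := by
    intro D hD
    unfold dg
    refine card_le_card_of_injOn (fun j => σ j v) ?_ ?_
    · intro j hj
      rw [mem_coe, mem_filter, mem_range] at hj
      rw [mem_coe, mem_filter]
      exact ⟨mem_univ _, hD j hj.1 hj.2⟩
    · intro i hi j hj hij
      rw [mem_coe, mem_filter, mem_range] at hi hj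
      by_contra hne
      exact I.p3 i hi.1 j hj.1 hne v hi.2 hij
  by_cases h : ∃ b, Dp.Adj v b
  · obtain ⟨b, hb⟩ := h
    refine (key Dp fun j hj hjv => ?_).trans (hd v).1
    rcases HT _ _ (I.p2 j hj v hjv) with h1 | h1
    · exact h1
    · exact absurd h1 (hdis v b _ hb)
  · refine (key Dm fun j hj hjv => ?_).trans (hd v).2
    rcases HT _ _ (I.p2 j hj v hjv) with h1 | h1
    · exact absurd ⟨_, h1⟩ h
    · exact h1

/-- Choice of a label for four vertices. -/
theorem sel_label {V : Type} [Fintype V] {K : ℕ} {T3 : Finset ℕ} (hT3 : T3 ⊆ range K)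
    {U : ℕ → Finset V} {d s cap : ℕ} {σ : ℕ → V → V}
    (hdeg : ∀ v, ((range K).filter fun j => σ j v ≠ v).card ≤ d)
    (hs : ∀ v, mul K U v ≤ s) (hcap : 4 ≤ cap)
    (hK : 4 * s + 4 * d + Fintype.card V * d / (cap - 3) < T3.card) (F : Finset V)
    (hF : F.card ≤ 4) :
    ∃ j ∈ T3, (∀ v ∈ F, v ∉ U j ∧ σ j v = v) ∧ mv (σ j) + 4 ≤ cap := by
  obtain ⟨B5, hB5⟩ : ∃ B5 : Finset ℕ, B5 = (range K).filter (fun j =>
    cap - 3 ≤ mv (σ j)) := ⟨_, rfl⟩
  have c5 : B5.card ≤ Fintype.card V * d / (cap - 3) := by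
    rw [Nat.le_div_iff_mul_le (by omega)]
    have h1 : B5.card * (cap - 3) ≤ ∑ j ∈ B5, mv (σ j) := by
      rw [← smul_eq_mul]
      refine card_nsmul_le_sum _ _ _ fun j hj => ?_
      rw [hB5, mem_filter] at hj
      exact hj.2
    have h2 : ∑ j ∈ B5, mv (σ j) ≤ ∑ j ∈ range K, mv (σ j) := by
      refine sum_le_sum_of_subset ?_
      rw [hB5]
      exact filter_subset _ _
    have h3 : ∑ j ∈ range K, mv (σ j) =
        ∑ v : V, ((range K).filter fun j => σ j v ≠ v).card := by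
      unfold mv
      simp only [card_filter]
      exact sum_comm
    have h4 : ∑ v : V, ((range K).filter fun j => σ j v ≠ v).card ≤ Fintype.card V * d := by
      refine (sum_le_sum fun v _ => hdeg v).trans ?_
      rw [sum_const, smul_eq_mul, card_univ]
    omega
  have hc1 : (F.biUnion fun v => (range K).filter fun j => v ∈ U j).card ≤ 4 * s := by
    refine (card_biUnion_le_card_mul _ _ s fun v _ => hs v).trans ?_
    exact Nat.mul_le_mul_right _ hF
  have hc2 : (F.biUnion fun v => (range K).filter fun j => σ j v ≠ v).card ≤ 4 * d := by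
    refine (card_biUnion_le_card_mul _ _ d fun v _ => hdeg v).trans ?_
    exact Nat.mul_le_mul_right _ hF
  obtain ⟨j, hj, hjB⟩ : ∃ j ∈ T3, j ∉ (F.biUnion fun v => (range K).filter fun j => v ∈ U j) ∪
      (F.biUnion fun v => (range K).filter fun j => σ j v ≠ v) ∪ B5 := by
    by_contra hc
    push Not at hc
    have h1 := card_le_card (fun j hj => hc j hj)
    have e1 := card_union_le ((F.biUnion fun v => (range K).filter fun j => v ∈ U j) ∪
      (F.biUnion fun v => (range K).filter fun j => σ j v ≠ v)) B5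
    have e2 := card_union_le (F.biUnion fun v => (range K).filter fun j => v ∈ U j)
      (F.biUnion fun v => (range K).filter fun j => σ j v ≠ v)
    omega
  simp only [mem_union, not_or] at hjB
  obtain ⟨⟨n1, n2⟩, n3⟩ := hjB
  refine ⟨j, hj, fun v hv => ⟨fun h => ?_, ?_⟩, ?_⟩
  · exact n1 (mem_biUnion.2 ⟨v, hv, mem_filter.2 ⟨hT3 hj, h⟩⟩)
  · by_contra h
    exact n2 (mem_biUnion.2 ⟨v, hv, mem_filter.2 ⟨hT3 hj, h⟩⟩)
  · by_contra h
    exact n3 (by rw [hB5]; exact mem_filter.2 ⟨hT3 hj, by omega⟩)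

/-- Step 2. -/
theorem step2 {V : Type} [Fintype V] (Dp Dm : SimpleGraph V) (K : ℕ) (T3 : Finset ℕ)
    (hT3 : T3 ⊆ range K) (U : ℕ → Finset V) (α : ℕ → ℤ) (d s cap : ℕ)
    (hdis : ∀ v b c, Dp.Adj v b → ¬ Dm.Adj v c)
    (hd : ∀ v, dg Dp v ≤ d ∧ dg Dm v ≤ d)
    (hs : ∀ v, mul K U v ≤ s) (hcap : 4 ≤ cap)
    (hK : 4 * s + 4 * d + Fintype.card V * d / (cap - 3) < T3.card) (n : ℕ) :
    ∀ (T : Finset (Sym2 V)) (σ : ℕ → V → V), GI K U T σ →
      (∀ x y, s(x, y) ∈ T → Dp.Adj x y ∨ Dm.Adj x y) →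
      (∀ ℓ < K, mv (σ ℓ) ≤ cap) →
      (∀ ℓ < K, (np Dp (σ ℓ) : ℤ) = np Dm (σ ℓ) + 2 * α ℓ) →
      (∀ ℓ < K, ℓ ∉ T3 → α ℓ = 0 → ∀ v, σ ℓ v = v) →
      cT Dp T + 2 * n = ee Dp univ univ → cT Dm T + 2 * n = ee Dm univ univ →
      ∃ (T : Finset (Sym2 V)) (σ : ℕ → V → V), GI K U T σ ∧
        (∀ x y, s(x, y) ∈ T → Dp.Adj x y ∨ Dm.Adj x y) ∧
        (∀ ℓ < K, mv (σ ℓ) ≤ cap) ∧
        (∀ ℓ < K, (np Dp (σ ℓ) : ℤ) = np Dm (σ ℓ) + 2 * α ℓ) ∧
        (∀ ℓ < K, ℓ ∉ T3 → α ℓ = 0 → ∀ v, σ ℓ v = v) ∧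
        cT Dp T = ee Dp univ univ ∧ cT Dm T = ee Dm univ univ := by
  induction n with
  | zero =>
    intro T σ I HT h1 h2 h3 h4 h5
    exact ⟨T, σ, I, HT, h1, h2, h3, h4, h5⟩
  | succ n ih =>
    intro T σ I HT h1 h2 h3 h4 h5
    obtain ⟨x, y, hxy, hxyT⟩ := exists_unused Dp T (by omega)
    obtain ⟨z, w, hzw, hzwT⟩ := exists_unused Dm T (by omega)
    have hHT : ∀ x y, s(x, y) ∈ T → x ≠ y := fun x y h => by
      rcases HT x y h with h | h
      · exact h.ne
      · exact h.ne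
    have hxz : x ≠ z := fun h => hdis x y w hxy (by rw [h]; exact hzw)
    have hxw : x ≠ w := fun h => hdis x y z hxy (by rw [h]; exact hzw.symm)
    have hyz : y ≠ z := fun h => hdis y x w hxy.symm (by rw [h]; exact hzw)
    have hyw : y ≠ w := fun h => hdis y x z hxy.symm (by rw [h]; exact hzw.symm)
    obtain ⟨j, hj, hjF, hjc⟩ := sel_label hT3 (deg_le hdis hd I HT) hs hcap hK {x, y, z, w}
      card_le_four
    have hjK : j < K := mem_range.1 (hT3 hj)
    have fx := hjF x (by simp)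
    have fy := hjF y (by simp)
    have fz := hjF z (by simp)
    have fw := hjF w (by simp)
    obtain ⟨σ₁, I₁, g1, g2, g3, g4⟩ := gi_add hHT I hjK hxy.ne hxyT fx.1 fy.1 fx.2 fy.2
    have m1 := mv_add hxy.ne fx.2 fy.2 g2 g3 g4
    have m2 := np_add Dp hxy fx.2 fy.2 g2 g3 g4
    have m3 := np_same Dm (hdis x y y hxy) fx.2 fy.2 g2 g3 g4
    have HT₁ : ∀ x' y', s(x', y') ∈ insert s(x, y) T → Dp.Adj x' y' ∨ Dm.Adj x' y' := by
      intro x' y' h
      rw [mem_insert] at h
      rcases h with h | h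
      · rw [Sym2.eq_iff] at h
        rcases h with ⟨rfl, rfl⟩ | ⟨rfl, rfl⟩
        · exact Or.inl hxy
        · exact Or.inl hxy.symm
      · exact HT x' y' h
    have hHT₁ : ∀ x' y', s(x', y') ∈ insert s(x, y) T → x' ≠ y' := fun x' y' h => by
      rcases HT₁ x' y' h with h | h
      · exact h.ne
      · exact h.ne
    have hzwT₁ : s(z, w) ∉ insert s(x, y) T := by
      rw [mem_insert, not_or, Sym2.eq_iff]
      refine ⟨?_, hzwT⟩
      rintro (⟨h, -⟩ | ⟨h, -⟩)
      · exact hxz h.symm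
      · exact hyz h.symm
    have fz' : σ₁ j z = z := by rw [g4 z hxz.symm hyz.symm, fz.2]
    have fw' : σ₁ j w = w := by rw [g4 w hxw.symm hyw.symm, fw.2]
    obtain ⟨σ₂, I₂, k1, k2, k3, k4⟩ := gi_add hHT₁ I₁ hjK hzw.ne hzwT₁ fz.1 fw.1 fz' fw'
    have l1 := mv_add hzw.ne fz' fw' k2 k3 k4
    have l2 := np_add Dm hzw fz' fw' k2 k3 k4
    have hnzw : ¬ Dp.Adj z w := fun h => hdis z w w h hzw
    have l3 := np_same Dp hnzw fz' fw' k2 k3 k4
    have c1 := cT_insert Dp T hxy hxyT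
    have c2 := cT_same Dm T (hdis x y y hxy)
    have c3 := cT_insert Dm (insert s(x, y) T) hzw hzwT₁
    have c4 := cT_same Dp (insert s(x, y) T) hnzw
    refine ih (insert s(z, w) (insert s(x, y) T)) σ₂ I₂ ?_ ?_ ?_ ?_ (by omega) (by omega)
    · intro x' y' h
      rw [mem_insert] at h
      rcases h with h | h
      · rw [Sym2.eq_iff] at h
        rcases h with ⟨rfl, rfl⟩ | ⟨rfl, rfl⟩
        · exact Or.inr hzw
        · exact Or.inr hzw.symm
      · exact HT₁ x' y' h
    · intro ℓ hℓ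
      by_cases h : ℓ = j
      · rw [h]
        omega
      · rw [k1 ℓ h, g1 ℓ h]
        exact h1 ℓ hℓ
    · intro ℓ hℓ
      by_cases h : ℓ = j
      · have := h2 j hjK
        rw [h]
        omega
      · rw [k1 ℓ h, g1 ℓ h]
        exact h2 ℓ hℓ
    · intro ℓ hℓ hℓT hα
      have h : ℓ ≠ j := fun h => hℓT (h ▸ hj)
      rw [k1 ℓ h, g1 ℓ h]
      exact h3 ℓ hℓ hℓT hα

theorem mem_of_cT {V : Type} [Fintype V] {D : SimpleGraph V} {T : Finset (Sym2 V)}
    (h : cT D T = ee D univ univ) {x y : V} (hxy : D.Adj x y) : s(x, y) ∈ T := by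
  by_contra hn
  have h1 : cT D T < ee D univ univ := by
    rw [ee_card]
    refine card_lt_card ?_
    rw [Finset.ssubset_iff_of_subset]
    · refine ⟨(x, y), mem_filter.2 ⟨mem_univ _, hxy⟩, fun h2 => hn ?_⟩
      exact (mem_filter.1 h2).2.2
    · intro p hp
      rw [mem_filter] at hp ⊢
      exact ⟨hp.1, hp.2.1⟩
  omega

theorem gad {V : Type} [Fintype V] (Dp Dm : SimpleGraph V) (K : ℕ) (T3 : Finset ℕ)
    (hT3 : T3 ⊆ range K) (U : ℕ → Finset V) (α : ℕ → ℤ) (a d s u cap : ℕ)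
    (hdis : ∀ v b c, Dp.Adj v b → ¬ Dm.Adj v c)
    (hsum : 2 * ∑ ℓ ∈ range K, α ℓ = (ee Dp univ univ : ℤ) - ee Dm univ univ)
    (ha : ∀ ℓ < K, |α ℓ| ≤ a) (hd : ∀ v, dg Dp v ≤ d ∧ dg Dm v ≤ d)
    (hs : ∀ v, mul K U v ≤ s) (hu : ∀ ℓ < K, (U ℓ).card ≤ u)
    (hbig : 2 * (K * a + (u + 2 * a) * d) < ee Dp univ univ ∧
      2 * (K * a + (u + 2 * a) * d) < ee Dm univ univ)
    (hcap : 2 * a + 4 ≤ cap)
    (hK : 4 * s + 4 * d + Fintype.card V * d / (cap - 3) < T3.card) :
    ∃ σ : ℕ → V → V, (∀ ℓ < K, Inv (σ ℓ)) ∧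
      (∀ ℓ < K, ∀ v, σ ℓ v ≠ v → Dp.Adj v (σ ℓ v) ∨ Dm.Adj v (σ ℓ v)) ∧
      (∀ i < K, ∀ j < K, i ≠ j → ∀ v, σ i v ≠ v → σ i v ≠ σ j v) ∧
      (∀ x y, Dp.Adj x y ∨ Dm.Adj x y → ∃ ℓ < K, σ ℓ x = y) ∧
      (∀ ℓ < K, ∀ v ∈ U ℓ, σ ℓ v = v) ∧
      (∀ ℓ < K, (univ.filter fun v => σ ℓ v ≠ v).card ≤ cap) ∧
      (∀ ℓ < K, ((univ.filter fun v => Dp.Adj v (σ ℓ v)).card : ℤ) =
        (univ.filter fun v => Dm.Adj v (σ ℓ v)).card + 2 * α ℓ) ∧
      (∀ ℓ < K, ℓ ∉ T3 → α ℓ = 0 → ∀ v, σ ℓ v = v) := by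
  obtain ⟨T, σ, I, HT, h1, h2⟩ := step1 Dp Dm K U α a d u hdis ha hd hu hbig K le_rfl
  have hna : ∀ ℓ < K, (α ℓ).natAbs ≤ a := by
    intro ℓ hℓ
    have := ha ℓ hℓ
    rw [Int.abs_eq_natAbs] at this
    exact_mod_cast this
  have hsp := sum_np Dp I
  have hsm := sum_np Dm I
  have hdiff : (cT Dp T : ℤ) - cT Dm T = (ee Dp univ univ : ℤ) - ee Dm univ univ := by
    rw [← hsp, ← hsm, ← hsum, mul_sum]
    push_cast
    rw [← sum_sub_distrib]
    refine sum_congr rfl fun ℓ hℓ => ?_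
    have := (h1 ℓ (mem_range.1 hℓ)).2
    omega
  have heven : ∀ (D : SimpleGraph V), ∃ m, cT D T + 2 * m = ee D univ univ := by
    intro D
    have key : ∀ n : ℕ, ∀ T : Finset (Sym2 V), ee D univ univ ≤ cT D T + n →
        ∃ m, cT D T + 2 * m = ee D univ univ := by
      intro n
      induction n with
      | zero =>
        intro T h
        have := cT_le D T
        exact ⟨0, by omega⟩
      | succ n ih =>
        intro T h
        by_cases h0 : cT D T < ee D univ univ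
        · obtain ⟨x, y, hxy, hn⟩ := exists_unused D T h0
          have e := cT_insert D T hxy hn
          obtain ⟨m, hm⟩ := ih (insert s(x, y) T) (by omega)
          exact ⟨m + 1, by omega⟩
        · have := cT_le D T
          exact ⟨0, by omega⟩
    exact key (ee D univ univ) T (by omega)
  obtain ⟨n, hn⟩ := heven Dp
  have hn' : cT Dm T + 2 * n = ee Dm univ univ := by omega
  obtain ⟨T', σ', I', HT', g1, g2, g3, g4, g5⟩ := step2 Dp Dm K T3 hT3 U α d s cap hdis hd hs
    (by omega) hK n T σ I HT (fun ℓ hℓ => by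
      rw [(h1 ℓ hℓ).1]
      have := hna ℓ hℓ
      omega) (fun ℓ hℓ => (h1 ℓ hℓ).2) (fun ℓ hℓ _ hα v => by
      have h3 := (h1 ℓ hℓ).1
      rw [hα] at h3
      have h4 : mv (σ ℓ) = 0 := by
        rw [h3]
        rfl
      unfold mv at h4
      rw [card_eq_zero, filter_eq_empty_iff] at h4
      have h5 := h4 (mem_univ v)
      by_contra h6
      exact h5 h6) hn hn'
  refine ⟨σ', I'.p1, fun ℓ hℓ v hv => HT' _ _ (I'.p2 ℓ hℓ v hv), I'.p3, fun x y hxy => ?_, I'.p5,
    g1, g2, g3⟩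
  rcases hxy with hxy | hxy
  · exact I'.p4 x y (mem_of_cT g4 hxy)
  · exact I'.p4 x y (mem_of_cT g5 hxy)

end Pool.Agent.H71.TD
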