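import Mathlib
import Pool.Agent.H71.TD.Defs2
import Pool.Agent.H71.TD.Gad
import Pool.Agent.H71.DX.Sas

/-!
DDB: as `ddE` (`TD/DdE.lean`) for bipartite graphs with the sides `A = XA ∪ YA` and `B = XB ∪ YB`, with one gadget graph `D3` (edges between `XA` and `YB` and between `XB` and `YA`). Use the STATEMENTS of `sas` (`DX/Sas.lean`) and `gad` (`TD/Gad.lean`).

Proof.  1. `sas` for `D0` and the `t` labels `2 t + j` (`U' j := U (2 t + j)`) gives `σ0 ℓ` (identity for `ℓ < 2 t`). `U1 ℓ := U ℓ ∪ {v : σ0 ℓ v ≠ v}`: `#(U1 ℓ) ≤ u + cap0`, `mul (3 t) U1 v = mul (3 t) U v + dg D0 v ≤ s + d0`.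
 `p ℓ := #(XA \ U1 ℓ) - #(XB \ U1 ℓ)`, `q ℓ := #(YA \ U1 ℓ) - #(YB \ U1 ℓ)` (integers), `|p ℓ| ≤ u + cap0 = a`. By `hbal` (and since the edges of `D0` join `A` and `B`) `p ℓ + q ℓ = 0`. `p ℓ = 0` for `ℓ < t` (`hT1`), `q ℓ = 0` for `t ≤ ℓ < 2 t` (`hT2`), so `p ℓ = 0` for `ℓ < 2 t`.
 By `hX` `∑_{ℓ < 3 t} p ℓ = ∑_{XB} mul U1 - ∑_{XA} mul U1 = ee D3 XA YB - ee D3 XB YA`.
2. `gad` for `Dp :=` the edges of `D3` between `XA` and `YB`, `Dm :=` those between `XB` and `YA`, `α := p`, `K := 3 t`, `T3 := {ℓ : 2 t ≤ ℓ < 3 t}`, `U := U1` gives `σ3` (`σ3 ℓ = id` for `ℓ < 2 t`). (`ee Dp univ univ = 2 * ee D3 XA YB`.) Every edge of `Dp` removes a vertex of `XA` and one of `YB`, every edge of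
 `Dm` one of `XB` and one of `YA`, so afterwards both differences are `0`. `σ ℓ v` is the first of `σ0 ℓ v, σ3 ℓ v` that is not `v`.
-/

set_option autoImplicit false

namespace Pool.Agent.H71.TD

open Finset Classical
open Pool.Agent.H71.DN Pool.Agent.H71.DX Pool.Agent.H71.DR Pool.Agent.H71.HL Pool.Agent.H71.DC

/-- The edges of `D` between `P` and `Q`. -/
def dbt {V : Type} (D : SimpleGraph V) (P Q : Finset V) : SimpleGraph V where
  Adj a b := D.Adj a b ∧ ((a ∈ P ∧ b ∈ Q) ∨ (a ∈ Q ∧ b ∈ P))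
  symm := ⟨fun _ _ h => ⟨h.1.symm, h.2.elim (fun h2 => Or.inr ⟨h2.2, h2.1⟩)
    (fun h2 => Or.inl ⟨h2.2, h2.1⟩)⟩⟩
  loopless := ⟨fun _ h => D.irrefl h.1⟩

private theorem ddb_mul {V : Type} [Fintype V] (D : SimpleGraph V) (K : ℕ) (U : ℕ → Finset V)
    (cap : ℕ) (σ : ℕ → V → V) (h : Dst D K U cap σ) (v : V) :
    mul K (fun ℓ => U ℓ ∪ univ.filter fun w => σ ℓ w ≠ w) v = mul K U v + dg D v := by
  have e1 : ((range K).filter fun ℓ => v ∈ U ℓ ∪ univ.filter fun w => σ ℓ w ≠ w) =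
      ((range K).filter fun ℓ => v ∈ U ℓ) ∪ ((range K).filter fun ℓ => σ ℓ v ≠ v) := by
    ext ℓ
    simp only [mem_union, mem_filter, mem_univ, true_and, mem_range]
    tauto
  have e2 : Disjoint ((range K).filter fun ℓ => v ∈ U ℓ)
      ((range K).filter fun ℓ => σ ℓ v ≠ v) := by
    rw [Finset.disjoint_left]
    intro ℓ h1 h2
    rw [mem_filter, mem_range] at h1 h2
    exact h2.2 (h.fix ℓ h1.1 v h1.2)
  have e3 : ((range K).filter fun ℓ => σ ℓ v ≠ v).card = dg D v := by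
    unfold dg
    refine card_bij (fun ℓ _ => σ ℓ v) ?_ ?_ ?_
    · intro ℓ hℓ
      rw [mem_filter, mem_range] at hℓ
      exact mem_filter.2 ⟨mem_univ _, h.adj ℓ hℓ.1 v hℓ.2⟩
    · intro i hi j hj hij
      rw [mem_filter, mem_range] at hi hj
      by_contra hne
      exact h.dis i hi.1 j hj.1 hne v hi.2 hij
    · intro b hb
      obtain ⟨ℓ, hℓ, h2⟩ := h.cov v b (mem_filter.1 hb).2
      refine ⟨ℓ, ?_, h2⟩
      rw [mem_filter, mem_range]
      refine ⟨hℓ, ?_⟩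
      rw [h2]
      exact ((mem_filter.1 hb).2).ne.symm
  unfold mul
  rw [e1, card_union_of_disjoint e2, e3]

private theorem ddb_sum {V : Type} [Fintype V] (K : ℕ) (U : ℕ → Finset V) (Z : Finset V) :
    ∑ ℓ ∈ range K, (Z \ U ℓ).card + ∑ v ∈ Z, mul K U v = K * Z.card := by
  have h1 : ∑ v ∈ Z, mul K U v = ∑ ℓ ∈ range K, (Z.filter fun v => v ∈ U ℓ).card := by
    unfold mul
    simp only [card_filter]
    exact sum_comm
  rw [h1, ← sum_add_distrib]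
  have h2 : ∀ ℓ ∈ range K, (Z \ U ℓ).card + (Z.filter fun v => v ∈ U ℓ).card = Z.card := by
    intro ℓ _
    rw [← card_union_of_disjoint]
    · refine congrArg card ?_
      ext v
      rw [mem_union, mem_sdiff, mem_filter]
      tauto
    · rw [Finset.disjoint_left]
      intro v h1 h2
      rw [mem_sdiff] at h1
      rw [mem_filter] at h2
      exact h1.2 h2.2
  rw [sum_congr rfl h2, sum_const, card_range, smul_eq_mul]

private theorem ddb_dg {V : Type} [Fintype V] (D : SimpleGraph V) (P Q : Finset V)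
    (h : ∀ a b, D.Adj a b → a ∈ P → b ∈ Q) : ∑ v ∈ P, dg D v = ee D P Q := by
  unfold ee
  rw [card_filter, sum_product]
  refine sum_congr rfl fun a ha => ?_
  rw [← card_filter]
  unfold dg
  refine congrArg card ?_
  ext b
  simp only [mem_filter, mem_univ, true_and]
  exact ⟨fun hb => ⟨h a b hb ha, hb⟩, fun hb => hb.2⟩

private theorem ddb_ee {V : Type} [Fintype V] (D : SimpleGraph V) (P Q : Finset V)
    (hPQ : Disjoint P Q) : ee (dbt D P Q) univ univ = 2 * ee D P Q := by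
  have e1 : ((univ ×ˢ univ : Finset (V × V)).filter fun x => (dbt D P Q).Adj x.1 x.2) =
      ((P ×ˢ Q).filter fun x => D.Adj x.1 x.2) ∪ ((Q ×ˢ P).filter fun x => D.Adj x.1 x.2) := by
    ext x
    simp only [dbt, mem_union, mem_filter, mem_product, mem_univ, true_and]
    tauto
  have e2 : Disjoint ((P ×ˢ Q).filter fun x => D.Adj x.1 x.2)
      ((Q ×ˢ P).filter fun x => D.Adj x.1 x.2) := by
    rw [Finset.disjoint_left]
    intro x h1 h2
    rw [mem_filter, mem_product] at h1 h2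
    exact (Finset.disjoint_left.1 hPQ) h1.1.1 h2.1.1
  have e3 : ((Q ×ˢ P).filter fun x => D.Adj x.1 x.2).card =
      ((P ×ˢ Q).filter fun x => D.Adj x.1 x.2).card := by
    refine card_bij (fun x _ => (x.2, x.1)) ?_ ?_ ?_
    · intro x hx
      rw [mem_filter, mem_product] at hx ⊢
      exact ⟨⟨hx.1.2, hx.1.1⟩, hx.2.symm⟩
    · intro x _ y _ hxy
      rw [Prod.mk.injEq] at hxy
      exact Prod.ext hxy.2 hxy.1
    · intro x hx
      rw [mem_filter, mem_product] at hx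
      refine ⟨(x.2, x.1), ?_, rfl⟩
      rw [mem_filter, mem_product]
      exact ⟨⟨hx.1.2, hx.1.1⟩, hx.2.symm⟩
  unfold ee
  rw [e1, card_union_of_disjoint e2, e3]
  ring

/-- moved vertices and the sets `Z \ U` -/
private theorem ddb_mv {V : Type} [Fintype V] (Z U : Finset V) (σ : V → V)
    (hU : ∀ v ∈ U, σ v = v) :
    (Z \ (U ∪ univ.filter fun v => σ v ≠ v)).card + (Z.filter fun v => σ v ≠ v).card =
      (Z \ U).card := by
  rw [← card_union_of_disjoint]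
  · refine congrArg card ?_
    ext v
    simp only [mem_union, mem_sdiff, mem_filter, mem_univ, true_and, not_or, not_not]
    have h1 : v ∈ U → σ v = v := hU v
    tauto
  · rw [Finset.disjoint_left]
    intro v h1 h2
    rw [mem_sdiff, mem_union, mem_filter] at h1
    rw [mem_filter] at h2
    exact h1.2 (Or.inr ⟨mem_univ _, h2.2⟩)

private theorem ddb_sw {V : Type} (A B : Finset V) (σ : V → V) (hi : Inv σ)
    (hA : ∀ v ∈ A, σ v ≠ v → σ v ∈ B) (hB : ∀ v ∈ B, σ v ≠ v → σ v ∈ A) :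
    (A.filter fun v => σ v ≠ v).card = (B.filter fun v => σ v ≠ v).card := by
  refine card_bij (fun v _ => σ v) ?_ ?_ ?_
  · intro v hv
    rw [mem_filter] at hv ⊢
    refine ⟨hA v hv.1 hv.2, ?_⟩
    rw [hi v]
    exact fun h => hv.2 h.symm
  · intro v _ w _ h
    rw [← hi v, h, hi w]
  · intro w hw
    rw [mem_filter] at hw
    refine ⟨σ w, ?_, hi w⟩
    rw [mem_filter]
    refine ⟨hB w hw.1 hw.2, ?_⟩
    rw [hi w]
    exact fun h => hw.2 h.symm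

private theorem ddb_cnt {V : Type} [Fintype V] (D : SimpleGraph V) (P Q : Finset V)
    (hPQ : Disjoint P Q) (σ : V → V)
    (h : ∀ v, v ∈ P ∨ v ∈ Q → σ v ≠ v → (dbt D P Q).Adj v (σ v)) :
    (univ.filter fun v => (dbt D P Q).Adj v (σ v)).card =
      (P.filter fun v => σ v ≠ v).card + (Q.filter fun v => σ v ≠ v).card := by
  rw [← card_union_of_disjoint]
  · refine congrArg card ?_
    ext v
    simp only [mem_union, mem_filter, mem_univ, true_and]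
    constructor
    · intro hv
      have h1 : σ v ≠ v := hv.ne.symm
      rcases hv.2 with h2 | h2
      · exact Or.inl ⟨h2.1, h1⟩
      · exact Or.inr ⟨h2.1, h1⟩
    · rintro (hv | hv)
      · exact h v (Or.inl hv.1) hv.2
      · exact h v (Or.inr hv.1) hv.2
  · rw [Finset.disjoint_left]
    intro v h1 h2
    exact (Finset.disjoint_left.1 hPQ) (mem_filter.1 h1).1 (mem_filter.1 h2).1

/-- step 1 -/
private theorem ddb_sas {V : Type} [Fintype V] (D0 : SimpleGraph V) (t : ℕ) (U : ℕ → Finset V)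
    (d0 s cap0 : ℕ) (hd0 : ∀ v, dg D0 v ≤ d0) (hs : ∀ v, mul (3 * t) U v ≤ s)
    (hcap0 : 2 ≤ cap0)
    (hK0 : 2 * s + 2 * d0 + Fintype.card V * d0 / (cap0 - 1) < t) :
    ∃ σ0 : ℕ → V → V, Dst D0 (3 * t) U cap0 σ0 ∧ ∀ ℓ < 2 * t, ∀ v, σ0 ℓ v = v := by
  have hs' : ∀ v, mul t (fun j => U (2 * t + j)) v ≤ s := by
    intro v
    refine le_trans ?_ (hs v)
    unfold mul
    refine card_le_card_of_injOn (fun j => 2 * t + j) ?_ ?_
    · intro j hj
      rw [mem_coe, mem_filter, mem_range] at hj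
      rw [mem_coe, mem_filter, mem_range]
      exact ⟨show 2 * t + j < 3 * t by omega, hj.2⟩
    · intro i _ j _ hij
      dsimp only at hij
      omega
  obtain ⟨τ, t1, t2, t3, t4, t5, t6⟩ := sas D0 t (fun j => U (2 * t + j)) d0 s cap0 hd0 hs'
    hcap0 hK0
  obtain ⟨σ0, hσ⟩ : ∃ σ0 : ℕ → V → V,
      ∀ ℓ, σ0 ℓ = if 2 * t ≤ ℓ then τ (ℓ - 2 * t) else fun v => v := ⟨_, fun _ => rfl⟩
  have f1 : ∀ ℓ, 2 * t ≤ ℓ → σ0 ℓ = τ (ℓ - 2 * t) := fun ℓ h => by rw [hσ, if_pos h]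
  have f2 : ∀ ℓ, ℓ < 2 * t → σ0 ℓ = fun v => v := fun ℓ h => by
    rw [hσ, if_neg (not_le.2 h)]
  refine ⟨σ0, ⟨?_, ?_, ?_, ?_, ?_, ?_⟩, fun ℓ h v => by rw [f2 ℓ h]⟩
  · intro ℓ hℓ
    rcases lt_or_ge ℓ (2 * t) with h | h
    · rw [f2 ℓ h]
      exact fun _ => rfl
    · rw [f1 ℓ h]
      exact t1 _ (by omega)
  · intro ℓ hℓ v hv
    rcases lt_or_ge ℓ (2 * t) with h | h
    · rw [f2 ℓ h] at hv
      exact absurd rfl hv
    · rw [f1 ℓ h] at hv ⊢
      exact t2 _ (by omega) v hv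
  · intro i hi j hj hij v hv
    rcases lt_or_ge i (2 * t) with h | h
    · rw [f2 i h] at hv
      exact absurd rfl hv
    · rcases lt_or_ge j (2 * t) with h' | h'
      · rw [f2 j h']
        exact hv
      · rw [f1 i h] at hv ⊢
        rw [f1 j h']
        exact t3 _ (by omega) _ (by omega) (by omega) v hv
  · intro a b hab
    obtain ⟨j, hj, h1⟩ := t4 a b hab
    refine ⟨2 * t + j, by omega, ?_⟩
    rw [f1 _ (by omega), Nat.add_sub_cancel_left]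
    exact h1
  · intro ℓ hℓ v hv
    rcases lt_or_ge ℓ (2 * t) with h | h
    · rw [f2 ℓ h]
    · rw [f1 ℓ h]
      refine t5 _ (by omega) v ?_
      have h1 : 2 * t + (ℓ - 2 * t) = ℓ := by omega
      rw [h1]
      exact hv
  · intro ℓ hℓ
    rcases lt_or_ge ℓ (2 * t) with h | h
    · rw [f2 ℓ h]
      simp
    · rw [f1 ℓ h]
      exact t6 _ (by omega)

/-- two distributions, the second one avoids the first one -/
private theorem ddb_mrg {V : Type} [Fintype V] (D0 D3 : SimpleGraph V) (K : ℕ)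
    (U : ℕ → Finset V) (c0 c3 : ℕ) (σ0 σ3 : ℕ → V → V) (h0 : Dst D0 K U c0 σ0)
    (h3 : Dst D3 K (fun ℓ => U ℓ ∪ univ.filter fun w => σ0 ℓ w ≠ w) c3 σ3)
    (h03 : ∀ a b, D0.Adj a b → ¬ D3.Adj a b) :
    Dst (D0 ⊔ D3) K U (c0 + c3) (fun ℓ v => if σ0 ℓ v ≠ v then σ0 ℓ v else σ3 ℓ v) := by
  have hfix : ∀ ℓ < K, ∀ v, σ0 ℓ v ≠ v → σ3 ℓ v = v := fun ℓ hℓ v hv =>
    h3.fix ℓ hℓ v (mem_union_right _ (mem_filter.2 ⟨mem_univ _, hv⟩))
  have hfixU : ∀ ℓ < K, ∀ v ∈ U ℓ, σ3 ℓ v = v := fun ℓ hℓ v hv =>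
    h3.fix ℓ hℓ v (mem_union_left _ hv)
  refine ⟨?_, ?_, ?_, ?_, ?_, ?_⟩
  · intro ℓ hℓ v
    dsimp only
    by_cases h1 : σ0 ℓ v = v
    · rw [if_neg (not_not.2 h1)]
      by_cases h2 : σ3 ℓ v = v
      · rw [h2, if_neg (not_not.2 h1), h2]
      · have h4 : σ0 ℓ (σ3 ℓ v) = σ3 ℓ v := by
          by_contra h5
          have h6 := hfix ℓ hℓ _ h5
          rw [h3.inv ℓ hℓ v] at h6
          exact h2 h6.symm
        rw [if_neg (not_not.2 h4)]
        exact h3.inv ℓ hℓ v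
    · rw [if_pos h1]
      have h4 : σ0 ℓ (σ0 ℓ v) ≠ σ0 ℓ v := by
        rw [h0.inv ℓ hℓ v]
        exact fun h => h1 h.symm
      rw [if_pos h4]
      exact h0.inv ℓ hℓ v
  · intro ℓ hℓ v hv
    rw [SimpleGraph.sup_adj]
    by_cases h1 : σ0 ℓ v = v
    · rw [if_neg (not_not.2 h1)] at hv ⊢
      exact Or.inr (h3.adj ℓ hℓ v hv)
    · rw [if_pos h1]
      exact Or.inl (h0.adj ℓ hℓ v h1)
  · intro i hi j hj hij v hv
    by_cases h1 : σ0 i v = v
    · rw [if_neg (not_not.2 h1)] at hv ⊢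
      by_cases h2 : σ0 j v = v
      · rw [if_neg (not_not.2 h2)]
        exact h3.dis i hi j hj hij v hv
      · rw [if_pos h2]
        intro h4
        have h5 := h0.adj j hj v h2
        have h6 := h3.adj i hi v hv
        rw [h4] at h6
        exact h03 _ _ h5 h6
    · rw [if_pos h1]
      by_cases h2 : σ0 j v = v
      · rw [if_neg (not_not.2 h2)]
        intro h4
        have h5 := h0.adj i hi v h1
        have h6 := h3.adj j hj v (by rw [← h4]; exact h1)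
        rw [← h4] at h6
        exact h03 _ _ h5 h6
      · rw [if_pos h2]
        exact h0.dis i hi j hj hij v h1
  · intro a b hab
    rw [SimpleGraph.sup_adj] at hab
    rcases hab with hab | hab
    · obtain ⟨ℓ, hℓ, h1⟩ := h0.cov a b hab
      refine ⟨ℓ, hℓ, ?_⟩
      rw [if_pos]
      · exact h1
      · rw [h1]
        exact hab.ne.symm
    · obtain ⟨ℓ, hℓ, h1⟩ := h3.cov a b hab
      refine ⟨ℓ, hℓ, ?_⟩
      rw [if_neg]
      · exact h1
      · intro h2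
        have h4 := hfix ℓ hℓ a h2
        rw [h1] at h4
        exact hab.ne h4.symm
  · intro ℓ hℓ v hv
    rw [if_neg (not_not.2 (h0.fix ℓ hℓ v hv))]
    exact hfixU ℓ hℓ v hv
  · intro ℓ hℓ
    have h1 : (univ.filter fun v => (if σ0 ℓ v ≠ v then σ0 ℓ v else σ3 ℓ v) ≠ v) ⊆
        (univ.filter fun v => σ0 ℓ v ≠ v) ∪ (univ.filter fun v => σ3 ℓ v ≠ v) := by
      intro v hv
      rw [mem_filter] at hv
      rw [mem_union, mem_filter, mem_filter]
      by_cases h1 : σ0 ℓ v = v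
      · rw [if_neg (not_not.2 h1)] at hv
        exact Or.inr hv
      · exact Or.inl ⟨mem_univ _, h1⟩
    exact (card_le_card h1).trans ((card_union_le _ _).trans
      (Nat.add_le_add (h0.cap ℓ hℓ) (h3.cap ℓ hℓ)))

/-- what is left after the merged distribution -/
private theorem ddb_lef {V : Type} [Fintype V] (Z U : Finset V) (σ0 σ3 : V → V)
    (h3 : ∀ v ∈ U ∪ univ.filter (fun w => σ0 w ≠ w), σ3 v = v) :
    lef Z U (fun v => if σ0 v ≠ v then σ0 v else σ3 v) + (Z.filter fun v => σ3 v ≠ v).card =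
      (Z \ (U ∪ univ.filter fun w => σ0 w ≠ w)).card := by
  unfold lef
  rw [← card_union_of_disjoint]
  · refine congrArg card ?_
    ext v
    rw [mem_union, mem_filter, mem_filter, mem_sdiff, mem_union, mem_filter]
    beta_reduce
    have h4 := h3 v
    rw [mem_union, mem_filter] at h4
    by_cases h1 : σ0 v = v
    · rw [if_neg (not_not.2 h1)]
      have h5 : v ∈ U → σ3 v = v := fun h => h4 (Or.inl h)
      constructor
      · rintro (h | h)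
        · exact ⟨h.1, fun h6 => h6.elim h.2.1 fun h7 => h7.2 h1⟩
        · exact ⟨h.1, fun h6 => h6.elim (fun h7 => h.2 (h5 h7)) fun h7 => h7.2 h1⟩
      · intro h
        by_cases h6 : σ3 v = v
        · exact Or.inl ⟨h.1, fun h7 => h.2 (Or.inl h7), h6⟩
        · exact Or.inr ⟨h.1, h6⟩
    · rw [if_pos h1]
      have h5 := h4 (Or.inr ⟨mem_univ _, h1⟩)
      constructor
      · rintro (h | h)
        · exact absurd h.2.2 h1
        · exact absurd h5 h.2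
      · intro h
        exact absurd (Or.inr ⟨mem_univ _, h1⟩) h.2
  · rw [Finset.disjoint_left]
    intro v h1 h2
    rw [mem_filter] at h1 h2
    beta_reduce at h1
    by_cases h5 : σ0 v = v
    · rw [if_neg (not_not.2 h5)] at h1
      exact h2.2 h1.2.2
    · rw [if_pos h5] at h1
      exact h5 h1.2.2

theorem ddB {V : Type} [Fintype V] (XA XB YA YB : Finset V) (hq : Qtr XA XB YA YB)
    (D0 D3 : SimpleGraph V)
    (hD0 : ∀ a b, D0.Adj a b → (a ∈ XA ∪ YA ↔ b ∉ XA ∪ YA))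
    (hD3 : ∀ a b, D3.Adj a b → (a ∈ XA ∧ b ∈ YB) ∨ (a ∈ YB ∧ b ∈ XA) ∨ (a ∈ XB ∧ b ∈ YA) ∨
      (a ∈ YA ∧ b ∈ XB))
    (h02 : ∀ a b, D0.Adj a b → ¬ D3.Adj a b)
    (t : ℕ) (ht : 0 < t) (U : ℕ → Finset V)
    (hT1 : ∀ ℓ < t, Disjoint (U ℓ) (XA ∪ XB))
    (hT2 : ∀ ℓ, t ≤ ℓ → ℓ < 2 * t → Disjoint (U ℓ) (YA ∪ YB))
    (hbal : ∀ ℓ < 3 * t, ((XA ∪ YA) \ U ℓ).card = ((XB ∪ YB) \ U ℓ).card)
    (hX : ∑ v ∈ XA, (mul (3 * t) U v + dg D0 v + dg D3 v) =
      ∑ v ∈ XB, (mul (3 * t) U v + dg D0 v + dg D3 v))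
    (d0 d s u a cap0 cap : ℕ) (hd0 : ∀ v, dg D0 v ≤ d0) (hd : ∀ v, dg D3 v ≤ d)
    (hs : ∀ v, mul (3 * t) U v ≤ s) (hu : ∀ ℓ < 3 * t, (U ℓ).card ≤ u)
    (ha : a = u + cap0) (hcap0 : 2 ≤ cap0)
    (hK0 : 2 * s + 2 * d0 + Fintype.card V * d0 / (cap0 - 1) < t)
    (hb3 : 3 * t * a + (u + cap0 + 2 * a) * d < ee D3 XA YB ∧
      3 * t * a + (u + cap0 + 2 * a) * d < ee D3 XB YA)
    (hcap : 2 * a + 4 ≤ cap)
    (hK : 4 * (s + d0) + 4 * d + Fintype.card V * d / (cap - 3) < t) :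
    ∃ σ : ℕ → V → V, Dst (D0 ⊔ D3) (3 * t) U (cap0 + cap) σ ∧
      (∀ ℓ < t, ∀ v ∈ XA ∪ XB, σ ℓ v = v) ∧
      (∀ ℓ, t ≤ ℓ → ℓ < 2 * t → ∀ v ∈ YA ∪ YB, σ ℓ v = v) ∧
      ∀ ℓ < 3 * t, lef XA (U ℓ) (σ ℓ) = lef XB (U ℓ) (σ ℓ) ∧
        lef YA (U ℓ) (σ ℓ) = lef YB (U ℓ) (σ ℓ) := by
  obtain ⟨σ0, S0, S0id⟩ := ddb_sas D0 t U d0 s cap0 hd0 hs hcap0 hK0
  obtain ⟨U1, hU1⟩ : ∃ U1 : ℕ → Finset V, ∀ ℓ, U1 ℓ = U ℓ ∪ univ.filter fun w => σ0 ℓ w ≠ w :=
    ⟨_, fun _ => rfl⟩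
  have hU1' : U1 = fun ℓ => U ℓ ∪ univ.filter fun w => σ0 ℓ w ≠ w := funext hU1
  have n1 : ∀ v, v ∈ XA → v ∉ XB := fun v h1 h2 => (Finset.disjoint_left.1 hq.d1) h1 h2
  have n2 : ∀ v, v ∈ XA → v ∉ YA := fun v h1 h2 => (Finset.disjoint_left.1 hq.d2) h1 h2
  have n3 : ∀ v, v ∈ XA → v ∉ YB := fun v h1 h2 => (Finset.disjoint_left.1 hq.d3) h1 h2
  have n4 : ∀ v, v ∈ XB → v ∉ YA := fun v h1 h2 => (Finset.disjoint_left.1 hq.d4) h1 h2
  have n5 : ∀ v, v ∈ XB → v ∉ YB := fun v h1 h2 => (Finset.disjoint_left.1 hq.d5) h1 h2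
  have n6 : ∀ v, v ∈ YA → v ∉ YB := fun v h1 h2 => (Finset.disjoint_left.1 hq.d6) h1 h2
  have hmul : ∀ v, mul (3 * t) U1 v = mul (3 * t) U v + dg D0 v := fun v => by
    rw [hU1']
    exact ddb_mul D0 (3 * t) U cap0 σ0 S0 v
  have hU1c : ∀ ℓ < 3 * t, (U1 ℓ).card ≤ u + cap0 := fun ℓ hℓ => by
    rw [hU1]
    exact (card_union_le _ _).trans (Nat.add_le_add (hu ℓ hℓ) (S0.cap ℓ hℓ))
  -- for the first labels nothing happens
  have hU1z : ∀ ℓ < 2 * t, U1 ℓ = U ℓ := fun ℓ hℓ => by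
    rw [hU1]
    have h1 : (univ.filter fun w => σ0 ℓ w ≠ w) = ∅ := by
      rw [filter_eq_empty_iff]
      intro w _
      rw [not_not]
      exact S0id ℓ hℓ w
    rw [h1, union_empty]
  have hpq : ∀ ℓ < 3 * t, (XA \ U1 ℓ).card + (YA \ U1 ℓ).card =
      (XB \ U1 ℓ).card + (YB \ U1 ℓ).card := by
    intro ℓ hℓ
    have hspl : ∀ A B : Finset V, (∀ v, v ∈ A → v ∉ B) →
        ((A ∪ B) \ U1 ℓ).card = (A \ U1 ℓ).card + (B \ U1 ℓ).card := by
      intro A B hAB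
      rw [union_sdiff_distrib, card_union_of_disjoint]
      rw [Finset.disjoint_left]
      intro v h1 h2
      exact hAB v (mem_sdiff.1 h1).1 (mem_sdiff.1 h2).1
    rw [← hspl XA YA n2, ← hspl XB YB n5, hU1]
    have e1 := ddb_mv (XA ∪ YA) (U ℓ) (σ0 ℓ) (S0.fix ℓ hℓ)
    have e2 := ddb_mv (XB ∪ YB) (U ℓ) (σ0 ℓ) (S0.fix ℓ hℓ)
    have e3 := hbal ℓ hℓ
    have hBA : ∀ v, v ∉ XA ∪ YA → v ∈ XB ∪ YB := by
      intro v hv
      rw [mem_union, not_or] at hv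
      rw [mem_union]
      rcases hq.cov v with h | h | h | h
      · exact absurd h hv.1
      · exact Or.inl h
      · exact absurd h hv.2
      · exact Or.inr h
    have hAB : ∀ v, v ∈ XB ∪ YB → v ∉ XA ∪ YA := by
      intro v hv hv2
      rw [mem_union] at hv hv2
      rcases hv with h | h <;> rcases hv2 with h' | h'
      · exact n1 v h' h
      · exact n4 v h h'
      · exact n3 v h' h
      · exact n6 v h' h
    have e4 := ddb_sw (XA ∪ YA) (XB ∪ YB) (σ0 ℓ) (S0.inv ℓ hℓ)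
      (fun v hv hv2 => hBA _ ((hD0 _ _ (S0.adj ℓ hℓ v hv2)).1 hv))
      (fun v hv hv2 => by
        by_contra h
        exact hAB v hv ((hD0 _ _ (S0.adj ℓ hℓ v hv2)).2 h))
    omega
  have hXz : ∀ ℓ < 2 * t, (XA \ U1 ℓ).card = (XB \ U1 ℓ).card := by
    intro ℓ hℓ
    have hdj : ∀ A B C : Finset V, Disjoint C (A ∪ B) → A \ C = A ∧ B \ C = B := by
      intro A B C h
      rw [disjoint_union_right] at h
      exact ⟨sdiff_eq_self_of_disjoint h.1.symm, sdiff_eq_self_of_disjoint h.2.symm⟩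
    rcases lt_or_ge ℓ t with h | h
    · have h1 := hdj XA XB (U ℓ) (hT1 ℓ h)
      rw [hU1z ℓ hℓ, h1.1, h1.2]
      exact hq.cX
    · have h1 := hdj YA YB (U ℓ) (hT2 ℓ h hℓ)
      have h2 := hpq ℓ (by omega)
      rw [hU1z ℓ hℓ, h1.1, h1.2, hq.cY] at h2
      rw [hU1z ℓ hℓ]
      omega
  -- the sums
  have s1 := ddb_sum (3 * t) U1 XA
  have s2 := ddb_sum (3 * t) U1 XB
  have s3 : ∑ v ∈ XA, mul (3 * t) U1 v + ee D3 XA YB =
      ∑ v ∈ XB, mul (3 * t) U1 v + ee D3 XB YA := by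
    rw [← ddb_dg D3 XA YB, ← ddb_dg D3 XB YA, ← sum_add_distrib, ← sum_add_distrib]
    · simp only [hmul]
      exact hX
    · intro a b hab ha
      rcases hD3 a b hab with h | h | h | h
      · exact absurd h.1 (n1 a · ha)
      · exact absurd ha (n5 a · h.1)
      · exact h.2
      · exact absurd h.1 (n4 a ha)
    · intro a b hab ha
      rcases hD3 a b hab with h | h | h | h
      · exact h.2
      · exact absurd h.1 (n3 a ha)
      · exact absurd h.1 (n1 a ha)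
      · exact absurd h.1 (n2 a ha)
  have ep := ddb_ee D3 XA YB hq.d3
  have em := ddb_ee D3 XB YA hq.d4
  have hle : ∀ P Q : Finset V, ∀ v, dg (dbt D3 P Q) v ≤ d := fun P Q v => by
    refine le_trans (card_le_card ?_) (hd v)
    intro w hw
    rw [mem_filter] at hw ⊢
    exact ⟨hw.1, hw.2.1⟩
  obtain ⟨σ3, g1, g2, g3, g4, g5, g6, g7, g8⟩ := gad (dbt D3 XA YB) (dbt D3 XB YA) (3 * t)
    ((range (3 * t)).filter fun ℓ => 2 * t ≤ ℓ) (filter_subset _ _) U1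
    (fun ℓ => ((XA \ U1 ℓ).card : ℤ) - (XB \ U1 ℓ).card) a d (s + d0) (u + cap0) cap
    (by
      intro v b c h1 h2
      rcases h1.2 with h | h <;> rcases h2.2 with h' | h'
      · exact n1 v h.1 h'.1
      · exact n2 v h.1 h'.1
      · exact n5 v h'.1 h.1
      · exact n6 v h'.1 h.1)
    (by
      rw [ep, em, sum_sub_distrib]
      have s1' : (∑ ℓ ∈ range (3 * t), ((XA \ U1 ℓ).card : ℤ)) +
          ∑ v ∈ XA, (mul (3 * t) U1 v : ℤ) = 3 * t * XA.card := by exact_mod_cast s1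
      have s2' : (∑ ℓ ∈ range (3 * t), ((XB \ U1 ℓ).card : ℤ)) +
          ∑ v ∈ XB, (mul (3 * t) U1 v : ℤ) = 3 * t * XB.card := by exact_mod_cast s2
      have s3' : (∑ v ∈ XA, (mul (3 * t) U1 v : ℤ)) + ee D3 XA YB =
          ∑ v ∈ XB, (mul (3 * t) U1 v : ℤ) + ee D3 XB YA := by exact_mod_cast s3
      rw [hq.cX] at s1'
      push_cast
      linarith)
    (by
      intro ℓ hℓ
      have h1 := hU1c ℓ hℓ
      have h2 := le_card_sdiff (U1 ℓ) XA
      have h3 := le_card_sdiff (U1 ℓ) XB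
      have h4 : (XA \ U1 ℓ).card ≤ XA.card := card_le_card sdiff_subset
      have h5 : (XB \ U1 ℓ).card ≤ XB.card := card_le_card sdiff_subset
      have h6 := hq.cX
      rw [abs_le]
      constructor <;> omega)
    (fun v => ⟨hle _ _ v, hle _ _ v⟩)
    (fun v => by
      rw [hmul]
      exact Nat.add_le_add (hs v) (hd0 v))
    hU1c
    (by
      rw [ep, em]
      exact ⟨Nat.mul_lt_mul_of_pos_left hb3.1 (by norm_num),
        Nat.mul_lt_mul_of_pos_left hb3.2 (by norm_num)⟩)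
    hcap
    (by
      have h1 : ((range (3 * t)).filter fun ℓ => 2 * t ≤ ℓ).card = t := by
        have h2 : ((range (3 * t)).filter fun ℓ => 2 * t ≤ ℓ) = Ico (2 * t) (3 * t) := by
          ext ℓ
          rw [mem_filter, mem_range, mem_Ico]
          tauto
        rw [h2, Nat.card_Ico]
        omega
      rw [h1]
      exact hK)
  have h33 : ∀ a b, (dbt D3 XA YB).Adj a b ∨ (dbt D3 XB YA).Adj a b → D3.Adj a b :=
    fun a b h => h.elim (fun h => h.1) (fun h => h.1)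
  have S3 : Dst D3 (3 * t) U1 cap σ3 := by
    refine ⟨g1, fun ℓ hℓ v hv => h33 _ _ (g2 ℓ hℓ v hv), g3, ?_, g5, g6⟩
    intro x y hxy
    refine g4 x y ?_
    rcases hD3 x y hxy with h | h | h | h
    · exact Or.inl ⟨hxy, Or.inl h⟩
    · exact Or.inl ⟨hxy, Or.inr h⟩
    · exact Or.inr ⟨hxy, Or.inl h⟩
    · exact Or.inr ⟨hxy, Or.inr h⟩
  have hz3 : ∀ ℓ < 2 * t, ∀ v, σ3 ℓ v = v := by
    intro ℓ hℓ
    refine g8 ℓ (by omega) (fun h => ?_) ?_
    · have h1 := (mem_filter.1 h).2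
      omega
    · rw [hXz ℓ hℓ, sub_self]
  rw [hU1'] at S3
  have hid : ∀ ℓ < 2 * t, ∀ v, (if σ0 ℓ v ≠ v then σ0 ℓ v else σ3 ℓ v) = v := by
    intro ℓ hℓ v
    rw [if_neg (not_not.2 (S0id ℓ hℓ v))]
    exact hz3 ℓ hℓ v
  refine ⟨fun ℓ v => if σ0 ℓ v ≠ v then σ0 ℓ v else σ3 ℓ v,
    ddb_mrg D0 D3 (3 * t) U cap0 cap σ0 σ3 S0 S3 h02, fun ℓ hℓ v _ => hid ℓ (by omega) v,
    fun ℓ _ hℓ v _ => hid ℓ hℓ v, fun ℓ hℓ => ?_⟩
  have hL : ∀ Z : Finset V, lef Z (U ℓ) (fun v => if σ0 ℓ v ≠ v then σ0 ℓ v else σ3 ℓ v) +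
      (Z.filter fun v => σ3 ℓ v ≠ v).card = (Z \ U1 ℓ).card := by
    intro Z
    rw [hU1]
    exact ddb_lef Z (U ℓ) (σ0 ℓ) (σ3 ℓ) (S3.fix ℓ hℓ)
  have l1 := hL XA
  have l2 := hL XB
  have l3 := hL YA
  have l4 := hL YB
  have adP : ∀ v, v ∈ XA ∨ v ∈ YB → σ3 ℓ v ≠ v → (dbt D3 XA YB).Adj v (σ3 ℓ v) := by
    intro v hv hv2
    rcases g2 ℓ hℓ v hv2 with h | h
    · exact h
    · exfalso
      rcases h.2 with h | h <;> rcases hv with h' | h'
      · exact n1 v h' h.1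
      · exact n5 v h.1 h'
      · exact n2 v h' h.1
      · exact n6 v h.1 h'
  have adM : ∀ v, v ∈ XB ∨ v ∈ YA → σ3 ℓ v ≠ v → (dbt D3 XB YA).Adj v (σ3 ℓ v) := by
    intro v hv hv2
    rcases g2 ℓ hℓ v hv2 with h | h
    · exfalso
      rcases h.2 with h | h <;> rcases hv with h' | h'
      · exact n1 v h.1 h'
      · exact n2 v h.1 h'
      · exact n5 v h' h.1
      · exact n6 v h' h.1
    · exact h
  have c1 := ddb_cnt D3 XA YB hq.d3 (σ3 ℓ) adP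
  have c2 := ddb_cnt D3 XB YA hq.d4 (σ3 ℓ) adM
  have w1 := ddb_sw XA YB (σ3 ℓ) (g1 ℓ hℓ)
    (fun v hv hv2 => (adP v (Or.inl hv) hv2).2.elim (fun h => h.2)
      (fun h => absurd h.1 (n3 v hv)))
    (fun v hv hv2 => (adP v (Or.inr hv) hv2).2.elim (fun h => absurd hv (n3 v h.1))
      (fun h => h.2))
  have w2 := ddb_sw XB YA (σ3 ℓ) (g1 ℓ hℓ)
    (fun v hv hv2 => (adM v (Or.inl hv) hv2).2.elim (fun h => h.2)
      (fun h => absurd h.1 (n4 v hv)))
    (fun v hv hv2 => (adM v (Or.inr hv) hv2).2.elim (fun h => absurd hv (n4 v h.1))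
      (fun h => h.2))
  have g := g7 ℓ hℓ
  have pq := hpq ℓ hℓ
  have key : lef XA (U ℓ) (fun v => if σ0 ℓ v ≠ v then σ0 ℓ v else σ3 ℓ v) =
      lef XB (U ℓ) (fun v => if σ0 ℓ v ≠ v then σ0 ℓ v else σ3 ℓ v) ∧
      lef YA (U ℓ) (fun v => if σ0 ℓ v ≠ v then σ0 ℓ v else σ3 ℓ v) =
      lef YB (U ℓ) (fun v => if σ0 ℓ v ≠ v then σ0 ℓ v else σ3 ℓ v) := by
    constructor <;> omega
  exact key

end Pool.Agent.H71.TD
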