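import Mathlib
import Pool.Agent.H71.TD.Defs3
import Pool.Agent.H71.TD.DdB

/-!
CT1B: the decomposition of a nearly bipartite part, combinatorial part; bipartite version of `ct1E` (`TD/Ct1E.lean`, see there for the details; if it is proved, copy and adapt). `H` is bipartite with the sides `XA ∪ YA` and `XB ∪ YB`. The edges of `H` have classes `0, 1, 2, 3, 5`. Use the STATEMENT of `ddB`
(`TD/DdB.lean`).

Proof.  `mm1` from `hs1`. `D0.Adj a b := (G0.Adj a b ∨ R.Adj a b) ∧ ∀ ℓ < L - 3 t, mm1 ℓ a ≠ b` with `G0 := cg H cl 0`, `R := cg H cl 1`; `dg D0 v ≤ d0`, and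
 (2) `mul (3 t) U v + dg D0 v + dg D3 v + dg S0 v + dg SR v = 3 t`, `D3 := cg H cl 5`, `S0 := cg H cl 2`, `SR := cg H cl 3`.
 `∑_{XA} (dg S0 + dg SR) = ∑_{XB} (dg S0 + dg SR)` by `hS`; so (2) gives `hX` of `ddB`; `ddB` gives `σ`. `U'' ℓ := U ℓ ∪ {v : σ ℓ v ≠ v}`, `#(U'' ℓ) ≤ u + (cap0 + cap)`, `mul (3 t) U'' v = mul (3 t) U v + dg D0 v + dg D3 v ≤ s + d0 + d`. `PtOk` for `X` and for `Y` as in `ct1E`.
-/

set_option autoImplicit false

namespace Pool.Agent.H71.TD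

open Finset Classical
open Pool.Agent.H71.DN Pool.Agent.H71.DX Pool.Agent.H71.DR Pool.Agent.H71.HL Pool.Agent.H71.DC

private theorem ct1b_mul {V : Type} [Fintype V] (D : SimpleGraph V) (K : ℕ) (U : ℕ → Finset V)
    (cap : ℕ) (σ : ℕ → V → V) (h : Dst D K U cap σ) (v : V) :
    mul K (fun ℓ => U ℓ ∪ univ.filter fun w => σ ℓ w ≠ w) v = mul K U v + dg D v := by
  have e1 : ((range K).filter fun ℓ => v ∈ U ℓ ∪ univ.filter fun w => σ ℓ w ≠ w) =
      ((range K).filter fun ℓ => v ∈ U ℓ) ∪ ((range K).filter fun ℓ => σ ℓ v ≠ v) := by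
    ext ℓ
    simp only [mem_union, mem_filter, mem_univ, true_and, mem_range]
    tauto
  have e2 : Disjoint ((range K).filter fun ℓ => v ∈ U ℓ)
      ((range K).filter fun ℓ => σ ℓ v ≠ v) := by
    rw [Finset.disjoint_left]
    intro ℓ h1 h2
    rw [mem_filter, mem_range] at h1 h2
    exact h2.2 (h.fix ℓ h1.1 v h1.2)
  have e3 : ((range K).filter fun ℓ => σ ℓ v ≠ v).card = dg D v := by
    unfold dg
    refine card_bij (fun ℓ _ => σ ℓ v) ?_ ?_ ?_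
    · intro ℓ hℓ
      rw [mem_filter, mem_range] at hℓ
      exact mem_filter.2 ⟨mem_univ _, h.adj ℓ hℓ.1 v hℓ.2⟩
    · intro i hi j hj hij
      rw [mem_filter, mem_range] at hi hj
      by_contra hne
      exact h.dis i hi.1 j hj.1 hne v hi.2 hij
    · intro b hb
      obtain ⟨ℓ, hℓ, h2⟩ := h.cov v b (mem_filter.1 hb).2
      refine ⟨ℓ, ?_, h2⟩
      rw [mem_filter, mem_range]
      refine ⟨hℓ, ?_⟩
      rw [h2]
      exact ((mem_filter.1 hb).2).ne.symm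
  unfold mul
  rw [e1, card_union_of_disjoint e2, e3]

/-- degrees of a union of two graphs without common edges -/
private theorem ct1b_sup {V : Type} [Fintype V] (A B : SimpleGraph V)
    (h : ∀ a b, A.Adj a b → ¬ B.Adj a b) (v : V) : dg (A ⊔ B) v = dg A v + dg B v := by
  unfold dg
  rw [← card_union_of_disjoint]
  · refine congrArg card ?_
    ext w
    simp only [mem_union, mem_filter, mem_univ, true_and, SimpleGraph.sup_adj]
  · rw [Finset.disjoint_left]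
    intro w h1 h2
    exact h v w (mem_filter.1 h1).2 (mem_filter.1 h2).2

/-- the multiplicities of the first `M` and of the other labels -/
private theorem ct1b_split {V : Type} (L M : ℕ) (hM : M ≤ L) (U : ℕ → Finset V) (v : V) :
    mul L U v = mul M U v + mul (L - M) (fun ℓ => U (M + ℓ)) v := by
  have e1 : (range L).filter (fun ℓ => v ∈ U ℓ) = (range M).filter (fun ℓ => v ∈ U ℓ) ∪
      ((range (L - M)).filter (fun ℓ => v ∈ U (M + ℓ))).image (fun ℓ => M + ℓ) := by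
    ext ℓ
    simp only [mem_union, mem_filter, mem_range, mem_image]
    constructor
    · rintro ⟨h1, h2⟩
      rcases lt_or_ge ℓ M with h | h
      · exact Or.inl ⟨h, h2⟩
      · refine Or.inr ⟨ℓ - M, ⟨by omega, ?_⟩, by omega⟩
        have h3 : M + (ℓ - M) = ℓ := by omega
        rw [h3]
        exact h2
    · rintro (⟨h1, h2⟩ | ⟨k, ⟨h1, h2⟩, rfl⟩)
      · exact ⟨by omega, h2⟩
      · exact ⟨by omega, h2⟩
  have e2 : Disjoint ((range M).filter (fun ℓ => v ∈ U ℓ))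
      (((range (L - M)).filter (fun ℓ => v ∈ U (M + ℓ))).image (fun ℓ => M + ℓ)) := by
    rw [Finset.disjoint_left]
    intro ℓ h1 h2
    rw [mem_filter, mem_range] at h1
    rw [mem_image] at h2
    obtain ⟨k, _, h3⟩ := h2
    omega
  unfold mul
  rw [e1, card_union_of_disjoint e2, card_image_of_injective]
  intro i j hij
  dsimp only at hij
  omega

/-- the degrees in the graph of the edges that are not used -/
private theorem ct1b_rest {V : Type} [Fintype V] (G D : SimpleGraph V) (K : ℕ)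
    (W : ℕ → Finset V) (mm : ℕ → V → V) (hmm : PM G K W mm)
    (hf : ∀ ℓ < K, ∀ v, v ∉ W ℓ → mm ℓ v ≠ v)
    (hD : ∀ a b, D.Adj a b ↔ (G.Adj a b ∧ ∀ ℓ < K, mm ℓ a ≠ b)) (v : V) :
    dg D v + K = dg G v + mul K W v := by
  have e1 : (univ.filter fun w => G.Adj v w) = (univ.filter fun w => D.Adj v w) ∪
      ((range K).filter (fun ℓ => v ∉ W ℓ)).image (fun ℓ => mm ℓ v) := by
    ext w
    simp only [mem_union, mem_filter, mem_univ, true_and, mem_image, mem_range]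
    constructor
    · intro h1
      by_cases h2 : ∀ ℓ < K, mm ℓ v ≠ w
      · exact Or.inl ((hD v w).2 ⟨h1, h2⟩)
      · push Not at h2
        obtain ⟨ℓ, hℓ, h3⟩ := h2
        refine Or.inr ⟨ℓ, ⟨hℓ, ?_⟩, h3⟩
        intro h4
        have h5 := hmm.fix ℓ hℓ v h4
        rw [h3] at h5
        exact h1.ne h5.symm
    · rintro (h1 | ⟨ℓ, ⟨hℓ, h1⟩, h2⟩)
      · exact ((hD v w).1 h1).1
      · rw [← h2]
        exact hmm.adj ℓ hℓ v (hf ℓ hℓ v h1)
  have e2 : Disjoint (univ.filter fun w => D.Adj v w)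
      (((range K).filter (fun ℓ => v ∉ W ℓ)).image (fun ℓ => mm ℓ v)) := by
    rw [Finset.disjoint_left]
    intro w h1 h2
    rw [mem_image] at h2
    obtain ⟨ℓ, h3, h4⟩ := h2
    rw [mem_filter, mem_range] at h3
    exact ((hD v w).1 (mem_filter.1 h1).2).2 ℓ h3.1 h4
  have e3 : (((range K).filter (fun ℓ => v ∉ W ℓ)).image (fun ℓ => mm ℓ v)).card =
      ((range K).filter (fun ℓ => v ∉ W ℓ)).card := by
    rw [card_image_of_injOn]
    intro i hi j hj hij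
    rw [mem_coe, mem_filter, mem_range] at hi hj
    by_contra hne
    exact hmm.dis i hi.1 j hj.1 hne v (hf i hi.1 v hi.2) hij
  have e4 := Finset.card_filter_add_card_filter_not (s := range K) (fun ℓ => v ∈ W ℓ)
  rw [card_range] at e4
  unfold dg mul
  rw [e1, card_union_of_disjoint e2, e3]
  omega

private theorem ct1b_dg {V : Type} [Fintype V] (D : SimpleGraph V) (P Q : Finset V)
    (h : ∀ a b, D.Adj a b → a ∈ P → b ∈ Q) : ∑ v ∈ P, dg D v = ee D P Q := by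
  unfold ee
  rw [card_filter, sum_product]
  refine sum_congr rfl fun a ha => ?_
  rw [← card_filter]
  unfold dg
  refine congrArg card ?_
  ext b
  simp only [mem_filter, mem_univ, true_and]
  exact ⟨fun hb => ⟨h a b hb ha, hb⟩, fun hb => hb.2⟩

private theorem ct1b_ees {V : Type} [Fintype V] (D : SimpleGraph V) (P Q : Finset V) :
    ee D P Q = ee D Q P := by
  unfold ee
  refine card_bij (fun x _ => (x.2, x.1)) ?_ ?_ ?_
  · intro x hx
    rw [mem_filter, mem_product] at hx ⊢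
    exact ⟨⟨hx.1.2, hx.1.1⟩, hx.2.symm⟩
  · intro x _ y _ hxy
    rw [Prod.mk.injEq] at hxy
    exact Prod.ext hxy.2 hxy.1
  · intro x hx
    rw [mem_filter, mem_product] at hx
    refine ⟨(x.2, x.1), ?_, rfl⟩
    rw [mem_filter, mem_product]
    exact ⟨⟨hx.1.2, hx.1.1⟩, hx.2.symm⟩

/-- the conclusion of `PtOk` with permuted labels -/
private theorem ct1b_pt {V : Type} [Fintype V] (S0 SR : SimpleGraph V) (P Q : Finset V)
    (t u s : ℕ) (h : PtOk S0 SR P Q (2 * t) t u s) (W : ℕ → Finset V) (f e : ℕ → ℕ)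
    (hf : ∀ ℓ < 3 * t, f ℓ < 3 * t ∧ e (f ℓ) = ℓ)
    (he : ∀ ℓ < 3 * t, e ℓ < 3 * t ∧ f (e ℓ) = ℓ)
    (hW0 : ∀ ℓ < 3 * t, 2 * t ≤ f ℓ → Disjoint (W ℓ) (P ∪ Q))
    (hWc : ∀ ℓ < 3 * t, (W ℓ).card ≤ u) (hWm : ∀ v, mul (3 * t) W v ≤ s)
    (hWb : ∀ ℓ < 3 * t, (P \ W ℓ).card = (Q \ W ℓ).card)
    (hWd : ∀ v ∈ P ∪ Q, dg (bt S0 P Q) v + dg (bt SR P Q) v + mul (3 * t) W v = 3 * t) :
    ∃ nn : ℕ → V → V,
      PM (bt S0 P Q ⊔ bt SR P Q) (3 * t) (fun ℓ => (univ \ (P ∪ Q)) ∪ W ℓ) nn ∧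
      ∀ ℓ < 3 * t, ∀ v ∈ P ∪ Q, v ∉ W ℓ → nn ℓ v ≠ v := by
  have hm : ∀ v ∈ P ∪ Q, mul (2 * t) (fun ℓ => W (e ℓ)) v = mul (3 * t) W v := by
    intro v hv
    unfold mul
    refine card_bij (fun ℓ _ => e ℓ) ?_ ?_ ?_
    · intro ℓ hℓ
      rw [mem_filter, mem_range] at hℓ ⊢
      exact ⟨(he ℓ (by omega)).1, hℓ.2⟩
    · intro i hi j hj hij
      rw [mem_filter, mem_range] at hi hj
      rw [← (he i (by omega)).2, hij, (he j (by omega)).2]
    · intro ℓ hℓ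
      rw [mem_filter, mem_range] at hℓ
      refine ⟨f ℓ, ?_, (hf ℓ hℓ.1).2⟩
      rw [mem_filter, mem_range]
      constructor
      · by_contra h1
        exact (Finset.disjoint_left.1 (hW0 ℓ hℓ.1 (not_lt.1 h1))) hℓ.2 hv
      · dsimp only
        rw [(hf ℓ hℓ.1).2]
        exact hℓ.2
  obtain ⟨mm, h1, h2⟩ := h (fun ℓ => W (e ℓ))
    (fun ℓ hℓ => (card_le_card inter_subset_left).trans (hWc _ (he ℓ (by omega)).1))
    (fun v hv => by rw [hm v hv]; exact hWm v)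
    (fun ℓ hℓ => hWb _ (he ℓ (by omega)).1)
    (fun v hv => by rw [hm v hv, hWd v hv]; omega)
  have h3 : 2 * t + t = 3 * t := by omega
  rw [h3] at h1 h2
  refine ⟨fun ℓ => mm (f ℓ), ⟨?_, ?_, ?_, ?_⟩, ?_⟩
  · exact fun ℓ hℓ => h1.inv _ (hf ℓ hℓ).1
  · exact fun ℓ hℓ v hv => h1.adj _ (hf ℓ hℓ).1 v hv
  · intro i hi j hj hij v hv
    refine h1.dis _ (hf i hi).1 _ (hf j hj).1 ?_ v hv
    intro h4
    apply hij
    rw [← (hf i hi).2, h4, (hf j hj).2]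
  · intro ℓ hℓ v hv
    refine h1.fix _ (hf ℓ hℓ).1 v ?_
    rw [mem_union] at hv
    rw [mem_union]
    by_cases h4 : v ∈ univ \ (P ∪ Q)
    · exact Or.inl h4
    · have h5 : v ∈ W ℓ := hv.resolve_left h4
      have h6 : v ∈ P ∪ Q := by
        by_contra h7
        exact h4 (mem_sdiff.2 ⟨mem_univ _, h7⟩)
      right
      have h7 : f ℓ < 2 * t := by
        by_contra h8
        exact (Finset.disjoint_left.1 (hW0 ℓ hℓ (not_lt.1 h8))) h5 h6
      rw [if_pos h7, (hf ℓ hℓ).2]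
      exact h5
  · intro ℓ hℓ v hv hvW
    refine h2 _ (hf ℓ hℓ).1 v hv ?_
    intro _
    rw [(hf ℓ hℓ).2]
    exact hvW

/-- the union of two matchings -/
private noncomputable def ct1b_gl {V : Type} (σ τ : V → V) (v : V) : V :=
  if σ v ≠ v then σ v else τ v

private theorem ct1b_gl_l {V : Type} (σ τ : V → V) (v : V) (h : σ v ≠ v) :
    ct1b_gl σ τ v = σ v := by
  unfold ct1b_gl
  rw [if_pos h]

private theorem ct1b_gl_r {V : Type} (σ τ : V → V) (v : V) (h : σ v = v) :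
    ct1b_gl σ τ v = τ v := by
  unfold ct1b_gl
  rw [if_neg (not_not.2 h)]

private theorem ct1b_gl_inv {V : Type} (σ τ : V → V) (h1 : Inv σ) (h2 : Inv τ)
    (h : ∀ v, σ v ≠ v → τ v = v) : Inv (ct1b_gl σ τ) := by
  intro v
  by_cases hv : σ v = v
  · rw [ct1b_gl_r σ τ v hv]
    by_cases hw : τ v = v
    · rw [hw, ct1b_gl_r σ τ v hv, hw]
    · have h3 : σ (τ v) = τ v := by
        by_contra h4
        have h5 := h _ h4
        rw [h2 v] at h5
        exact hw h5.symm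
      rw [ct1b_gl_r σ τ _ h3, h2 v]
  · rw [ct1b_gl_l σ τ v hv]
    have h3 : σ (σ v) ≠ σ v := by
      rw [h1 v]
      exact fun h4 => hv h4.symm
    rw [ct1b_gl_l σ τ _ h3, h1 v]

/-- `σ v`, `τ v` or `ρ v` -/
private theorem ct1b_gl_cases {V : Type} (σ τ ρ : V → V) (v : V)
    (h : ct1b_gl σ (ct1b_gl τ ρ) v ≠ v) :
    (σ v ≠ v ∧ ct1b_gl σ (ct1b_gl τ ρ) v = σ v) ∨ (τ v ≠ v ∧ ct1b_gl σ (ct1b_gl τ ρ) v = τ v) ∨
      (ρ v ≠ v ∧ ct1b_gl σ (ct1b_gl τ ρ) v = ρ v) := by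
  by_cases h1 : σ v = v
  · rw [ct1b_gl_r σ _ v h1] at h ⊢
    by_cases h2 : τ v = v
    · rw [ct1b_gl_r τ _ v h2] at h ⊢
      exact Or.inr (Or.inr ⟨h, rfl⟩)
    · rw [ct1b_gl_l τ _ v h2]
      exact Or.inr (Or.inl ⟨h2, rfl⟩)
  · rw [ct1b_gl_l σ _ v h1]
    exact Or.inl ⟨h1, rfl⟩

/-- the assembly -/
private theorem ct1b_asm {V : Type} [Fintype V] (H : SimpleGraph V) (cl : Sym2 V → ℕ)
    (X Y : Finset V) (hXY : Disjoint X Y) (hcov : ∀ v, v ∈ X ∨ v ∈ Y)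
    (L t : ℕ) (htL : 3 * t ≤ L) (U : ℕ → Finset V)
    (D0 D3 : SimpleGraph V) (mm1 : ℕ → V → V)
    (hm1 : PM (cg H cl 0 ⊔ cg H cl 1) (L - 3 * t) (fun ℓ => U (3 * t + ℓ)) mm1)
    (hm1f : ∀ ℓ < L - 3 * t, ∀ v, v ∉ U (3 * t + ℓ) → mm1 ℓ v ≠ v)
    (hD0 : ∀ a b, D0.Adj a b ↔
      ((cg H cl 0 ⊔ cg H cl 1).Adj a b ∧ ∀ ℓ < L - 3 * t, mm1 ℓ a ≠ b))
    (hD3 : ∀ a b, D3.Adj a b → H.Adj a b ∧ cl s(a, b) ≠ 0 ∧ cl s(a, b) ≠ 1 ∧
      cl s(a, b) ≠ 2 ∧ cl s(a, b) ≠ 3)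
    (cap : ℕ) (σ : ℕ → V → V) (hσ : Dst (D0 ⊔ D3) (3 * t) U cap σ)
    (SX SY : SimpleGraph V)
    (hSX : ∀ a b, SX.Adj a b → H.Adj a b ∧ (cl s(a, b) = 2 ∨ cl s(a, b) = 3))
    (hSY : ∀ a b, SY.Adj a b → H.Adj a b ∧ (cl s(a, b) = 2 ∨ cl s(a, b) = 3))
    (nX nY : ℕ → V → V)
    (hX : PM SX (3 * t)
      (fun ℓ => (univ \ X) ∪ (U ℓ ∪ univ.filter fun w => σ ℓ w ≠ w)) nX)
    (hXf : ∀ ℓ < 3 * t, ∀ v ∈ X, v ∉ (U ℓ ∪ univ.filter fun w => σ ℓ w ≠ w) → nX ℓ v ≠ v)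
    (hY : PM SY (3 * t)
      (fun ℓ => (univ \ Y) ∪ (U ℓ ∪ univ.filter fun w => σ ℓ w ≠ w)) nY)
    (hYf : ∀ ℓ < 3 * t, ∀ v ∈ Y, v ∉ (U ℓ ∪ univ.filter fun w => σ ℓ w ≠ w) → nY ℓ v ≠ v) :
    Full H L U := by
  -- supports
  have sX : ∀ ℓ < 3 * t, ∀ v, nX ℓ v ≠ v → v ∈ X ∧ v ∉ U ℓ ∧ σ ℓ v = v := by
    intro ℓ hℓ v hv
    have h1 : v ∉ (univ \ X) ∪ (U ℓ ∪ univ.filter fun w => σ ℓ w ≠ w) :=
      fun h2 => hv (hX.fix ℓ hℓ v h2)
    simp only [mem_union, mem_sdiff, mem_univ, true_and, mem_filter, not_or, not_not] at h1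
    exact ⟨h1.1, h1.2.1, h1.2.2⟩
  have sY : ∀ ℓ < 3 * t, ∀ v, nY ℓ v ≠ v → v ∈ Y ∧ v ∉ U ℓ ∧ σ ℓ v = v := by
    intro ℓ hℓ v hv
    have h1 : v ∉ (univ \ Y) ∪ (U ℓ ∪ univ.filter fun w => σ ℓ w ≠ w) :=
      fun h2 => hv (hY.fix ℓ hℓ v h2)
    simp only [mem_union, mem_sdiff, mem_univ, true_and, mem_filter, not_or, not_not] at h1
    exact ⟨h1.1, h1.2.1, h1.2.2⟩
  have nXY : ∀ v, v ∈ X → v ∉ Y := fun v h1 h2 => (Finset.disjoint_left.1 hXY) h1 h2
  -- classes of edges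
  have kσ : ∀ ℓ < 3 * t, ∀ v, σ ℓ v ≠ v → H.Adj v (σ ℓ v) ∧ cl s(v, σ ℓ v) ≠ 2 ∧
      cl s(v, σ ℓ v) ≠ 3 ∧ ((cl s(v, σ ℓ v) ≠ 0 ∧ cl s(v, σ ℓ v) ≠ 1) ∨
        ∀ k < L - 3 * t, mm1 k v ≠ σ ℓ v) := by
    intro ℓ hℓ v hv
    rcases hσ.adj ℓ hℓ v hv with h1 | h1
    · have h2 := (hD0 _ _).1 h1
      rcases h2.1 with h3 | h3
      · refine ⟨h3.1, ?_, ?_, Or.inr h2.2⟩
        · rw [h3.2]; omega
        · rw [h3.2]; omega
      · refine ⟨h3.1, ?_, ?_, Or.inr h2.2⟩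
        · rw [h3.2]; omega
        · rw [h3.2]; omega
    · have h2 := hD3 _ _ h1
      exact ⟨h2.1, h2.2.2.2.1, h2.2.2.2.2, Or.inl ⟨h2.2.1, h2.2.2.1⟩⟩
  have kX : ∀ ℓ < 3 * t, ∀ v, nX ℓ v ≠ v → H.Adj v (nX ℓ v) ∧
      (cl s(v, nX ℓ v) = 2 ∨ cl s(v, nX ℓ v) = 3) :=
    fun ℓ hℓ v hv => hSX _ _ (hX.adj ℓ hℓ v hv)
  have kY : ∀ ℓ < 3 * t, ∀ v, nY ℓ v ≠ v → H.Adj v (nY ℓ v) ∧
      (cl s(v, nY ℓ v) = 2 ∨ cl s(v, nY ℓ v) = 3) :=
    fun ℓ hℓ v hv => hSY _ _ (hY.adj ℓ hℓ v hv)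
  have k1 : ∀ ℓ < L - 3 * t, ∀ v, mm1 ℓ v ≠ v → H.Adj v (mm1 ℓ v) ∧
      (cl s(v, mm1 ℓ v) = 0 ∨ cl s(v, mm1 ℓ v) = 1) := by
    intro ℓ hℓ v hv
    rcases hm1.adj ℓ hℓ v hv with h3 | h3
    · exact ⟨h3.1, Or.inl h3.2⟩
    · exact ⟨h3.1, Or.inr h3.2⟩
  -- the matchings
  obtain ⟨mm, hmm⟩ : ∃ mm : ℕ → V → V, ∀ ℓ, mm ℓ =
      if 3 * t ≤ ℓ then mm1 (ℓ - 3 * t) else ct1b_gl (σ ℓ) (ct1b_gl (nX ℓ) (nY ℓ)) :=
    ⟨_, fun _ => rfl⟩
  have g1 : ∀ ℓ, 3 * t ≤ ℓ → mm ℓ = mm1 (ℓ - 3 * t) := fun ℓ h => by rw [hmm, if_pos h]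
  have g2 : ∀ ℓ, ℓ < 3 * t → mm ℓ = ct1b_gl (σ ℓ) (ct1b_gl (nX ℓ) (nY ℓ)) := fun ℓ h => by
    rw [hmm, if_neg (not_le.2 h)]
  -- the three cases for a small label
  have gc : ∀ ℓ < 3 * t, ∀ v, mm ℓ v ≠ v → (σ ℓ v ≠ v ∧ mm ℓ v = σ ℓ v) ∨
      (nX ℓ v ≠ v ∧ mm ℓ v = nX ℓ v) ∨ (nY ℓ v ≠ v ∧ mm ℓ v = nY ℓ v) := by
    intro ℓ hℓ v hv
    rw [g2 ℓ hℓ] at hv ⊢
    exact ct1b_gl_cases _ _ _ v hv
  -- no common edge of a large and a small label
  have gd : ∀ i, 3 * t ≤ i → i < L → ∀ j < 3 * t, ∀ v, mm1 (i - 3 * t) v ≠ v →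
      mm j v ≠ v → mm1 (i - 3 * t) v ≠ mm j v := by
    intro i hi1 hi2 j hj v hv hvj he
    have h1 := k1 (i - 3 * t) (by omega) v hv
    rcases gc j hj v hvj with ⟨h2, h3⟩ | ⟨h2, h3⟩ | ⟨h2, h3⟩
    · have h4 := kσ j hj v h2
      rcases h4.2.2.2 with h5 | h5
      · rw [he, h3] at h1
        omega
      · exact h5 (i - 3 * t) (by omega) (by rw [he, h3])
    · have h4 := kX j hj v h2
      rw [he, h3] at h1
      omega
    · have h4 := kY j hj v h2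
      rw [he, h3] at h1
      omega
  refine ⟨mm, ⟨?_, ?_, ?_, ?_⟩, ?_⟩
  · -- involutions
    intro ℓ hℓ
    rcases lt_or_ge ℓ (3 * t) with h | h
    · rw [g2 ℓ h]
      refine ct1b_gl_inv _ _ (hσ.inv ℓ h) (ct1b_gl_inv _ _ (hX.inv ℓ h) (hY.inv ℓ h) ?_) ?_
      · intro v hv
        by_contra h1
        exact nXY v (sX ℓ h v hv).1 (sY ℓ h v h1).1
      · intro v hv
        have h1 : nX ℓ v = v := by
          by_contra h2
          exact hv (sX ℓ h v h2).2.2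
        have h2 : nY ℓ v = v := by
          by_contra h2
          exact hv (sY ℓ h v h2).2.2
        rw [ct1b_gl_r _ _ v h1, h2]
    · rw [g1 ℓ h]
      exact hm1.inv _ (by omega)
  · -- edges
    intro ℓ hℓ v hv
    rcases lt_or_ge ℓ (3 * t) with h | h
    · rcases gc ℓ h v hv with ⟨h1, h2⟩ | ⟨h1, h2⟩ | ⟨h1, h2⟩
      · rw [h2]
        exact (kσ ℓ h v h1).1
      · rw [h2]
        exact (kX ℓ h v h1).1
      · rw [h2]
        exact (kY ℓ h v h1).1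
    · rw [g1 ℓ h] at hv ⊢
      exact (k1 _ (by omega) v hv).1
  · -- different labels
    intro i hi j hj hij v hv he
    have hvj : mm j v ≠ v := by rw [← he]; exact hv
    rcases lt_or_ge i (3 * t) with h | h
    · rcases lt_or_ge j (3 * t) with h' | h'
      · rcases gc i h v hv with ⟨a1, a2⟩ | ⟨a1, a2⟩ | ⟨a1, a2⟩
        · have a3 := kσ i h v a1
          rcases gc j h' v hvj with ⟨b1, b2⟩ | ⟨b1, b2⟩ | ⟨b1, b2⟩
          · refine hσ.dis i h j h' hij v a1 ?_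
            rw [← a2, ← b2, he]
          · have b3 := kX j h' v b1
            rw [← b2, ← he, a2] at b3
            omega
          · have b3 := kY j h' v b1
            rw [← b2, ← he, a2] at b3
            omega
        · have a3 := kX i h v a1
          rcases gc j h' v hvj with ⟨b1, b2⟩ | ⟨b1, b2⟩ | ⟨b1, b2⟩
          · have b3 := kσ j h' v b1
            rw [← b2, ← he, a2] at b3
            omega
          · refine hX.dis i h j h' hij v a1 ?_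
            rw [← a2, ← b2, he]
          · exact nXY v (sX i h v a1).1 (sY j h' v b1).1
        · have a3 := kY i h v a1
          rcases gc j h' v hvj with ⟨b1, b2⟩ | ⟨b1, b2⟩ | ⟨b1, b2⟩
          · have b3 := kσ j h' v b1
            rw [← b2, ← he, a2] at b3
            omega
          · exact nXY v (sX j h' v b1).1 (sY i h v a1).1
          · refine hY.dis i h j h' hij v a1 ?_
            rw [← a2, ← b2, he]
      · have h1 : mm1 (j - 3 * t) v ≠ v := by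
          rw [g1 j h'] at hvj
          exact hvj
        refine gd j h' hj i h v h1 hv ?_
        rw [he, g1 j h']
    · rcases lt_or_ge j (3 * t) with h' | h'
      · have h1 : mm1 (i - 3 * t) v ≠ v := by
          rw [g1 i h] at hv
          exact hv
        refine gd i h hi j h' v h1 hvj ?_
        rw [← he, g1 i h]
      · rw [g1 i h] at hv he
        rw [g1 j h'] at he
        exact hm1.dis _ (by omega) _ (by omega) (by omega) v hv he
  · -- forbidden vertices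
    intro ℓ hℓ v hv
    rcases lt_or_ge ℓ (3 * t) with h | h
    · by_contra h1
      rcases gc ℓ h v h1 with ⟨h2, h3⟩ | ⟨h2, h3⟩ | ⟨h2, h3⟩
      · exact h2 (hσ.fix ℓ h v hv)
      · exact (sX ℓ h v h2).2.1 hv
      · exact (sY ℓ h v h2).2.1 hv
    · rw [g1 ℓ h]
      refine hm1.fix _ (by omega) v ?_
      have h1 : 3 * t + (ℓ - 3 * t) = ℓ := by omega
      rw [h1]
      exact hv
  · -- all other vertices are covered
    intro ℓ hℓ v hv
    rcases lt_or_ge ℓ (3 * t) with h | h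
    · rw [g2 ℓ h]
      by_cases h1 : σ ℓ v = v
      · have h2 : v ∉ (U ℓ ∪ univ.filter fun w => σ ℓ w ≠ w) := by
          simp only [mem_union, mem_filter, mem_univ, true_and, not_or, not_not]
          exact ⟨hv, h1⟩
        rw [ct1b_gl_r _ _ v h1]
        rcases hcov v with h3 | h3
        · have h4 := hXf ℓ h v h3 h2
          rw [ct1b_gl_l _ _ v h4]
          exact h4
        · have h4 : nX ℓ v = v := by
            by_contra h5
            exact nXY v (sX ℓ h v h5).1 h3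
          rw [ct1b_gl_r _ _ v h4]
          exact hYf ℓ h v h3 h2
      · rw [ct1b_gl_l _ _ v h1]
        exact h1
    · rw [g1 ℓ h]
      refine hm1f _ (by omega) v ?_
      have h1 : 3 * t + (ℓ - 3 * t) = ℓ := by omega
      rw [h1]
      exact hv

private theorem ct1b_bt {V : Type} [Fintype V] (S : SimpleGraph V) (P Q : Finset V) (v : V)
    (h : ∀ w, S.Adj v w → (v ∈ P ∧ w ∈ Q) ∨ (v ∈ Q ∧ w ∈ P)) :
    dg (bt S P Q) v = dg S v := by
  unfold dg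
  refine congrArg card ?_
  ext w
  simp only [mem_filter, mem_univ, true_and]
  exact ⟨fun h1 => h1.1, fun h1 => ⟨h1, h w h1⟩⟩

private theorem ct1b_lef {V : Type} [Fintype V] (Z U : Finset V) (σ : V → V) :
    (Z \ (U ∪ univ.filter fun w => σ w ≠ w)).card = lef Z U σ := by
  unfold lef
  refine congrArg card ?_
  ext v
  simp only [mem_sdiff, mem_union, mem_filter, mem_univ, true_and, not_or, not_not]

theorem ct1B {V : Type} [Fintype V] (H : SimpleGraph V) (cl : Sym2 V → ℕ)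
    (hcl : ∀ e, cl e < 6 ∧ cl e ≠ 4) (XA XB YA YB : Finset V) (hq : Qtr XA XB YA YB)
    (hH : Bip H (XA ∪ YA))
    (hS : ∀ j, (j = 2 ∨ j = 3) → ∀ a b, (cg H cl j).Adj a b → (a ∈ XA ∧ b ∈ XB) ∨
      (a ∈ XB ∧ b ∈ XA) ∨ (a ∈ YA ∧ b ∈ YB) ∨ (a ∈ YB ∧ b ∈ YA))
    (hD3 : ∀ a b, (cg H cl 5).Adj a b → (a ∈ XA ∧ b ∈ YB) ∨ (a ∈ YB ∧ b ∈ XA) ∨
      (a ∈ XB ∧ b ∈ YA) ∨ (a ∈ YA ∧ b ∈ XB))
    (L t : ℕ) (ht : 0 < t) (htL : 3 * t ≤ L) (U : ℕ → Finset V)
    (hT1 : ∀ ℓ < t, Disjoint (U ℓ) (XA ∪ XB))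
    (hT2 : ∀ ℓ, t ≤ ℓ → ℓ < 2 * t → Disjoint (U ℓ) (YA ∪ YB))
    (hbal : ∀ ℓ < L, ((XA ∪ YA) \ U ℓ).card = ((XB ∪ YB) \ U ℓ).card)
    (hdeg : ∀ v, dg H v + mul L U v = L)
    (hs1 : Full (cg H cl 0 ⊔ cg H cl 1) (L - 3 * t) (fun ℓ => U (3 * t + ℓ)))
    (d0 d s u a cap0 cap : ℕ)
    (hd0 : ∀ v, dg (cg H cl 0) v + dg (cg H cl 1) v + mul L U v ≤ d0 + (L - 3 * t))
    (hd : ∀ v, dg (cg H cl 5) v ≤ d)
    (hs : ∀ v, mul L U v ≤ s) (hu : ∀ ℓ < L, (U ℓ).card ≤ u)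
    (ha : a = u + cap0) (hcap0 : 2 ≤ cap0)
    (hK0 : 2 * s + 2 * d0 + Fintype.card V * d0 / (cap0 - 1) < t)
    (hb3 : 3 * t * a + (u + cap0 + 2 * a) * d < ee (cg H cl 5) XA YB ∧
      3 * t * a + (u + cap0 + 2 * a) * d < ee (cg H cl 5) XB YA)
    (hcap : 2 * a + 4 ≤ cap)
    (hK : 4 * (s + d0) + 4 * d + Fintype.card V * d / (cap - 3) < t)
    (hX : PtOk (cg H cl 2) (cg H cl 3) XA XB (2 * t) t (u + (cap0 + cap)) (s + d0 + d))
    (hY : PtOk (cg H cl 2) (cg H cl 3) YA YB (2 * t) t (u + (cap0 + cap)) (s + d0 + d)) :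
    Full H L U := by
  obtain ⟨mm1, hm1, hm1f⟩ := hs1
  have n1 : ∀ v, v ∈ XA → v ∉ XB := fun v h1 h2 => (Finset.disjoint_left.1 hq.d1) h1 h2
  have n2 : ∀ v, v ∈ XA → v ∉ YA := fun v h1 h2 => (Finset.disjoint_left.1 hq.d2) h1 h2
  have n3 : ∀ v, v ∈ XA → v ∉ YB := fun v h1 h2 => (Finset.disjoint_left.1 hq.d3) h1 h2
  have n4 : ∀ v, v ∈ XB → v ∉ YA := fun v h1 h2 => (Finset.disjoint_left.1 hq.d4) h1 h2
  have n5 : ∀ v, v ∈ XB → v ∉ YB := fun v h1 h2 => (Finset.disjoint_left.1 hq.d5) h1 h2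
  have n6 : ∀ v, v ∈ YA → v ∉ YB := fun v h1 h2 => (Finset.disjoint_left.1 hq.d6) h1 h2
  -- the graph of the unused edges
  obtain ⟨D0, hD0⟩ : ∃ D0 : SimpleGraph V, ∀ a b, D0.Adj a b ↔
      ((cg H cl 0 ⊔ cg H cl 1).Adj a b ∧ ∀ ℓ < L - 3 * t, mm1 ℓ a ≠ b) := by
    refine ⟨⟨fun a b => (cg H cl 0 ⊔ cg H cl 1).Adj a b ∧ ∀ ℓ < L - 3 * t, mm1 ℓ a ≠ b,
      ⟨?_⟩, ⟨?_⟩⟩, fun a b => Iff.rfl⟩
    · intro a b h
      refine ⟨h.1.symm, fun ℓ hℓ h1 => h.2 ℓ hℓ ?_⟩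
      rw [← h1, hm1.inv ℓ hℓ b]
    · intro a h
      exact (cg H cl 0 ⊔ cg H cl 1).irrefl h.1
  have hD0H : ∀ a b, D0.Adj a b → H.Adj a b ∧ (cl s(a, b) = 0 ∨ cl s(a, b) = 1) := by
    intro a b h
    rcases ((hD0 a b).1 h).1 with h1 | h1
    · exact ⟨h1.1, Or.inl h1.2⟩
    · exact ⟨h1.1, Or.inr h1.2⟩
  have h03 : ∀ a b, D0.Adj a b → ¬ (cg H cl 5).Adj a b := by
    intro a b h1 h2
    have h3 := (hD0H a b h1).2
    have h4 : cl s(a, b) = 5 := h2.2
    omega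
  -- degrees
  have eG : ∀ v, dg (cg H cl 0 ⊔ cg H cl 1) v = dg (cg H cl 0) v + dg (cg H cl 1) v := by
    intro v
    refine ct1b_sup _ _ ?_ v
    intro a b h1 h2
    have h3 : cl s(a, b) = 0 := h1.2
    have h4 : cl s(a, b) = 1 := h2.2
    omega
  have eS : ∀ v, dg (cg H cl 2 ⊔ cg H cl 3) v = dg (cg H cl 2) v + dg (cg H cl 3) v := by
    intro v
    refine ct1b_sup _ _ ?_ v
    intro a b h1 h2
    have h3 : cl s(a, b) = 2 := h1.2
    have h4 : cl s(a, b) = 3 := h2.2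
    omega
  have eH : ∀ v, dg H v = dg (cg H cl 0) v + dg (cg H cl 1) v +
      (dg (cg H cl 2) v + dg (cg H cl 3) v) + dg (cg H cl 5) v := by
    intro v
    have h1 : H = (cg H cl 0 ⊔ cg H cl 1) ⊔ (cg H cl 2 ⊔ cg H cl 3) ⊔ cg H cl 5 := by
      ext a b
      have h2 := hcl s(a, b)
      constructor
      · intro h3
        have h4 : cl s(a, b) = 0 ∨ cl s(a, b) = 1 ∨ cl s(a, b) = 2 ∨ cl s(a, b) = 3 ∨
            cl s(a, b) = 5 := by omega
        rcases h4 with h4 | h4 | h4 | h4 | h4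
        · exact Or.inl (Or.inl (Or.inl ⟨h3, h4⟩))
        · exact Or.inl (Or.inl (Or.inr ⟨h3, h4⟩))
        · exact Or.inl (Or.inr (Or.inl ⟨h3, h4⟩))
        · exact Or.inl (Or.inr (Or.inr ⟨h3, h4⟩))
        · exact Or.inr ⟨h3, h4⟩
      · rintro (((h3 | h3) | (h3 | h3)) | h3)
        all_goals exact h3.1
    have h2 := ct1b_sup ((cg H cl 0 ⊔ cg H cl 1) ⊔ (cg H cl 2 ⊔ cg H cl 3)) (cg H cl 5) (by
      intro a b h3 h4
      have h5 : cl s(a, b) = 5 := h4.2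
      rcases h3 with (h3 | h3) | (h3 | h3)
      all_goals
        have h6 := h3.2
        omega) v
    have h3 := ct1b_sup (cg H cl 0 ⊔ cg H cl 1) (cg H cl 2 ⊔ cg H cl 3) (by
      intro a b h3 h4
      rcases h3 with h3 | h3
      all_goals
        have h6 := h3.2
        rcases h4 with h4 | h4
        all_goals
          have h7 := h4.2
          omega) v
    rw [← h1, h3, eG, eS] at h2
    exact h2
  have e0 : ∀ v, dg D0 v + (L - 3 * t) = dg (cg H cl 0) v + dg (cg H cl 1) v +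
      mul (L - 3 * t) (fun ℓ => U (3 * t + ℓ)) v := by
    intro v
    rw [← eG]
    exact ct1b_rest _ D0 _ _ mm1 hm1 hm1f hD0 v
  have eU : ∀ v, mul L U v = mul (3 * t) U v + mul (L - 3 * t) (fun ℓ => U (3 * t + ℓ)) v :=
    fun v => ct1b_split L (3 * t) htL U v
  have e2 : ∀ v, mul (3 * t) U v + dg D0 v + dg (cg H cl 5) v +
      (dg (cg H cl 2) v + dg (cg H cl 3) v) = 3 * t := by
    intro v
    have h1 := e0 v
    have h2 := eU v
    have h3 := eH v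
    have h4 := hdeg v
    omega
  have hd0' : ∀ v, dg D0 v ≤ d0 := by
    intro v
    have h1 := e0 v
    have h2 := eU v
    have h3 := hd0 v
    omega
  have hs' : ∀ v, mul (3 * t) U v ≤ s := by
    intro v
    have h2 := eU v
    have h3 := hs v
    omega
  -- the edges of the classes 2 and 3
  have hSX : ∀ j, (j = 2 ∨ j = 3) → ∑ v ∈ XA, dg (cg H cl j) v = ∑ v ∈ XB, dg (cg H cl j) v := by
    intro j hj
    rw [ct1b_dg (cg H cl j) XA XB, ct1b_dg (cg H cl j) XB XA, ct1b_ees]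
    · intro a b hab ha
      rcases hS j hj a b hab with h | h | h | h
      · exact absurd ha (n1 a h.1)
      · exact h.2
      · exact absurd h.1 (n4 a ha)
      · exact absurd h.1 (n5 a ha)
    · intro a b hab ha
      rcases hS j hj a b hab with h | h | h | h
      · exact h.2
      · exact absurd h.1 (n1 a ha)
      · exact absurd h.1 (n2 a ha)
      · exact absurd h.1 (n3 a ha)
  have hsum : ∑ v ∈ XA, (mul (3 * t) U v + dg D0 v + dg (cg H cl 5) v) =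
      ∑ v ∈ XB, (mul (3 * t) U v + dg D0 v + dg (cg H cl 5) v) := by
    have h1 : ∀ Z : Finset V, ∑ v ∈ Z, (mul (3 * t) U v + dg D0 v + dg (cg H cl 5) v) +
        (∑ v ∈ Z, dg (cg H cl 2) v + ∑ v ∈ Z, dg (cg H cl 3) v) = Z.card * (3 * t) := by
      intro Z
      rw [← sum_add_distrib, ← sum_add_distrib, sum_congr rfl (fun v _ => e2 v), sum_const,
        smul_eq_mul]
    have h2 := h1 XA
    have h3 := h1 XB
    rw [hq.cX, hSX 2 (Or.inl rfl), hSX 3 (Or.inr rfl)] at h2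
    omega
  obtain ⟨σ, hσ, σX, σY, σl⟩ := ddB XA XB YA YB hq D0 (cg H cl 5)
    (fun a b h => hH a b (hD0H a b h).1) hD3 h03 t ht U hT1 hT2
    (fun ℓ hℓ => hbal ℓ (by omega)) hsum d0 d s u a cap0 cap hd0' hd hs'
    (fun ℓ hℓ => hu ℓ (by omega)) ha hcap0 hK0 hb3 hcap hK
  -- the enlarged forbidden sets
  obtain ⟨W, hW⟩ : ∃ W : ℕ → Finset V, W = fun ℓ => U ℓ ∪ univ.filter fun w => σ ℓ w ≠ w :=
    ⟨_, rfl⟩
  have hWm : ∀ v, mul (3 * t) W v = mul (3 * t) U v + (dg D0 v + dg (cg H cl 5) v) := by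
    intro v
    rw [hW, ct1b_mul (D0 ⊔ cg H cl 5) (3 * t) U (cap0 + cap) σ hσ v,
      ct1b_sup D0 (cg H cl 5) h03 v]
  have hWs : ∀ v, mul (3 * t) W v ≤ s + d0 + d := by
    intro v
    have h1 := hWm v
    have h2 := hs' v
    have h3 := hd0' v
    have h4 := hd v
    omega
  have hWc : ∀ ℓ < 3 * t, (W ℓ).card ≤ u + (cap0 + cap) := by
    intro ℓ hℓ
    rw [hW]
    exact (card_union_le _ _).trans (Nat.add_le_add (hu ℓ (by omega)) (hσ.cap ℓ hℓ))
  have bX : ∀ j, (j = 2 ∨ j = 3) → ∀ v ∈ XA ∪ XB,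
      dg (bt (cg H cl j) XA XB) v = dg (cg H cl j) v := by
    intro j hj v hv
    refine ct1b_bt _ XA XB v ?_
    intro w hw
    rcases hS j hj v w hw with h | h | h | h
    · exact Or.inl h
    · exact Or.inr h
    · rcases mem_union.1 hv with h1 | h1
      · exact absurd h.1 (n2 v h1)
      · exact absurd h.1 (n4 v h1)
    · rcases mem_union.1 hv with h1 | h1
      · exact absurd h.1 (n3 v h1)
      · exact absurd h.1 (n5 v h1)
  have bY : ∀ j, (j = 2 ∨ j = 3) → ∀ v ∈ YA ∪ YB,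
      dg (bt (cg H cl j) YA YB) v = dg (cg H cl j) v := by
    intro j hj v hv
    refine ct1b_bt _ YA YB v ?_
    intro w hw
    rcases hS j hj v w hw with h | h | h | h
    · rcases mem_union.1 hv with h1 | h1
      · exact absurd h1 (n2 v h.1)
      · exact absurd h1 (n3 v h.1)
    · rcases mem_union.1 hv with h1 | h1
      · exact absurd h1 (n4 v h.1)
      · exact absurd h1 (n5 v h.1)
    · exact Or.inl h
    · exact Or.inr h
  -- the two decompositions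
  obtain ⟨nX, pX, fX⟩ := ct1b_pt (cg H cl 2) (cg H cl 3) XA XB t _ _ hX W
    (fun ℓ => if ℓ < t then ℓ + 2 * t else ℓ - t)
    (fun ℓ => if ℓ < 2 * t then ℓ + t else ℓ - 2 * t)
    (by
      intro ℓ hℓ
      rcases lt_or_ge ℓ t with h | h
      · rw [if_pos h, if_neg (by omega)]
        omega
      · rw [if_neg (by omega), if_pos (by omega)]
        omega)
    (by
      intro ℓ hℓ
      rcases lt_or_ge ℓ (2 * t) with h | h
      · rw [if_pos h, if_neg (by omega)]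
        omega
      · rw [if_neg (by omega), if_pos (by omega)]
        omega)
    (by
      intro ℓ hℓ h1
      have h2 : ℓ < t := by
        by_contra h3
        rw [if_neg h3] at h1
        omega
      rw [hW, Finset.disjoint_left]
      intro v h3 h4
      rcases mem_union.1 h3 with h5 | h5
      · exact (Finset.disjoint_left.1 (hT1 ℓ h2)) h5 h4
      · exact (mem_filter.1 h5).2 (σX ℓ h2 v h4))
    hWc hWs
    (by
      intro ℓ hℓ
      rw [hW]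
      dsimp only
      rw [ct1b_lef, ct1b_lef]
      exact (σl ℓ hℓ).1)
    (by
      intro v hv
      rw [bX 2 (Or.inl rfl) v hv, bX 3 (Or.inr rfl) v hv, hWm v]
      have h1 := e2 v
      omega)
  obtain ⟨nY, pY, fY⟩ := ct1b_pt (cg H cl 2) (cg H cl 3) YA YB t _ _ hY W
    (fun ℓ => if ℓ < t then ℓ else if ℓ < 2 * t then ℓ + t else ℓ - t)
    (fun ℓ => if ℓ < t then ℓ else if ℓ < 2 * t then ℓ + t else ℓ - t)
    (by
      intro ℓ hℓ
      rcases lt_or_ge ℓ t with h | h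
      · rw [if_pos h, if_pos h]
        omega
      · rw [if_neg (not_lt.2 h)]
        rcases lt_or_ge ℓ (2 * t) with h' | h'
        · rw [if_pos h', if_neg (by omega), if_neg (by omega)]
          omega
        · rw [if_neg (not_lt.2 h'), if_neg (by omega), if_pos (by omega)]
          omega)
    (by
      intro ℓ hℓ
      rcases lt_or_ge ℓ t with h | h
      · rw [if_pos h, if_pos h]
        omega
      · rw [if_neg (not_lt.2 h)]
        rcases lt_or_ge ℓ (2 * t) with h' | h'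
        · rw [if_pos h', if_neg (by omega), if_neg (by omega)]
          omega
        · rw [if_neg (not_lt.2 h'), if_neg (by omega), if_pos (by omega)]
          omega)
    (by
      intro ℓ hℓ h1
      have h2 : t ≤ ℓ ∧ ℓ < 2 * t := by
        rcases lt_or_ge ℓ t with h | h
        · rw [if_pos h] at h1
          omega
        · rw [if_neg (not_lt.2 h)] at h1
          rcases lt_or_ge ℓ (2 * t) with h' | h'
          · exact ⟨h, h'⟩
          · rw [if_neg (not_lt.2 h')] at h1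
            omega
      rw [hW, Finset.disjoint_left]
      intro v h3 h4
      rcases mem_union.1 h3 with h5 | h5
      · exact (Finset.disjoint_left.1 (hT2 ℓ h2.1 h2.2)) h5 h4
      · exact (mem_filter.1 h5).2 (σY ℓ h2.1 h2.2 v h4))
    hWc hWs
    (by
      intro ℓ hℓ
      rw [hW]
      dsimp only
      rw [ct1b_lef, ct1b_lef]
      exact (σl ℓ hℓ).2)
    (by
      intro v hv
      rw [bY 2 (Or.inl rfl) v hv, bY 3 (Or.inr rfl) v hv, hWm v]
      have h1 := e2 v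
      omega)
  rw [hW] at pX pY fX fY
  refine ct1b_asm H cl (XA ∪ XB) (YA ∪ YB) ?_ ?_ L t htL U D0 (cg H cl 5) mm1 hm1 hm1f hD0 ?_
    (cap0 + cap) σ hσ (bt (cg H cl 2) XA XB ⊔ bt (cg H cl 3) XA XB)
    (bt (cg H cl 2) YA YB ⊔ bt (cg H cl 3) YA YB) ?_ ?_ nX nY pX fX pY fY
  · rw [Finset.disjoint_left]
    intro v h1 h2
    rcases mem_union.1 h1 with h1 | h1
    · rcases mem_union.1 h2 with h2 | h2
      · exact n2 v h1 h2
      · exact n3 v h1 h2
    · rcases mem_union.1 h2 with h2 | h2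
      · exact n4 v h1 h2
      · exact n5 v h1 h2
  · intro v
    rcases hq.cov v with h | h | h | h
    · exact Or.inl (mem_union_left _ h)
    · exact Or.inl (mem_union_right _ h)
    · exact Or.inr (mem_union_left _ h)
    · exact Or.inr (mem_union_right _ h)
  · intro a b h
    have h1 : cl s(a, b) = 5 := h.2
    refine ⟨h.1, ?_, ?_, ?_, ?_⟩
    all_goals
      rw [h1]
      omega
  · intro a b h
    rcases h with h | h
    · exact ⟨h.1.1, Or.inl h.1.2⟩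
    · exact ⟨h.1.1, Or.inr h.1.2⟩
  · intro a b h
    rcases h with h | h
    · exact ⟨h.1.1, Or.inl h.1.2⟩
    · exact ⟨h.1.1, Or.inr h.1.2⟩

end Pool.Agent.H71.TD
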