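import Mathlib
import Pool.Agent.H71.TD.Ct1B

/-! The lemmas of `TD/Ct2B.lean` (split for the build time). -/

set_option autoImplicit false

namespace Pool.Agent.H71.TD

open Finset Classical
open Pool.Agent.H71.DN Pool.Agent.H71.DX Pool.Agent.H71.DR Pool.Agent.H71.HL Pool.Agent.H71.DC

theorem ct2B_arch (y : ℝ) (hy : 0 < y) : ∃ N : ℕ, 2 ≤ N ∧ 1 ≤ y * (N : ℝ) := by
  obtain ⟨m, hm⟩ := exists_nat_gt (1 / y)
  refine ⟨m + 2, by omega, ?_⟩
  have h1 : 1 < y * (m : ℝ) := by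
    rw [div_lt_iff₀ hy] at hm
    linarith [mul_comm (m : ℝ) y]
  push_cast
  nlinarith

theorem ct2B_smc {V : Type} [Fintype V] (G : SimpleGraph V) (P Q X : Finset V) (x η : ℝ) (K : ℕ)
    (w : V) (hw : w ∈ Q) (h : SmPQ G P Q X x η K) :
    |(X.card : ℝ) - x * P.card| ≤ η * P.card := by
  have h1 := h (fun _ => w) (fun _ => hw) K
  have e0 : ∀ a, (univ.filter fun _ : Fin K => G.Adj w a).card ≤ K := by
    intro a
    have := Finset.card_filter_le (univ : Finset (Fin K)) (fun _ : Fin K => G.Adj w a)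
    rwa [Finset.card_univ, Fintype.card_fin] at this
  have e1 : (P.filter fun a => (univ.filter fun _ : Fin K => G.Adj w a).card ≤ K) = P := by
    ext a
    simp only [Finset.mem_filter, and_iff_left_iff_imp]
    intro _
    exact e0 a
  have e2 : (X.filter fun a => (univ.filter fun _ : Fin K => G.Adj w a).card ≤ K) = X := by
    ext a
    simp only [Finset.mem_filter, and_iff_left_iff_imp]
    intro _
    exact e0 a
  rw [e1, e2] at h1
  exact h1

theorem ct2B_smd {V : Type} [Fintype V] (G : SimpleGraph V) (P Q X : Finset V) (x η : ℝ) (K : ℕ)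
    (hK : 1 ≤ K) (w : V) (hw : w ∈ Q) (h : SmPQ G P Q X x η K) :
    |((X.filter fun a => G.Adj w a).card : ℝ) - x * ((P.filter fun a => G.Adj w a).card : ℝ)| ≤
      2 * η * P.card := by
  have h0 := ct2B_smc G P Q X x η K w hw h
  have h1 := h (fun _ => w) (fun _ => hw) 0
  have hP : ∀ a, (univ.filter fun _ : Fin K => G.Adj w a).card ≤ 0 ↔ ¬ G.Adj w a := by
    intro a
    rw [Nat.le_zero, Finset.card_eq_zero, Finset.filter_eq_empty_iff]
    constructor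
    · intro h2
      exact h2 (Finset.mem_univ (⟨0, hK⟩ : Fin K))
    · intro h2 _ _
      exact h2
  have e1 : (P.filter fun a => (univ.filter fun _ : Fin K => G.Adj w a).card ≤ 0) =
      P.filter fun a => ¬ G.Adj w a := by
    ext a
    simp only [Finset.mem_filter]
    rw [hP a]
  have e2 : (X.filter fun a => (univ.filter fun _ : Fin K => G.Adj w a).card ≤ 0) =
      X.filter fun a => ¬ G.Adj w a := by
    ext a
    simp only [Finset.mem_filter]
    rw [hP a]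
  rw [e1, e2] at h1
  have e4 : ((X.filter fun u => G.Adj w u).card : ℝ) + ((X.filter fun a => ¬ G.Adj w a).card : ℝ) =
      X.card := by
    exact_mod_cast Finset.card_filter_add_card_filter_not (s := X) (fun u => G.Adj w u)
  have e5 : ((P.filter fun u => G.Adj w u).card : ℝ) + ((P.filter fun a => ¬ G.Adj w a).card : ℝ) =
      P.card := by
    exact_mod_cast Finset.card_filter_add_card_filter_not (s := P) (fun u => G.Adj w u)
  have e6 : ((X.filter fun u => G.Adj w u).card : ℝ) -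
      x * ((P.filter fun a => G.Adj w a).card : ℝ) =
      ((X.card : ℝ) - x * P.card) - (((X.filter fun a => ¬ G.Adj w a).card : ℝ) -
        x * ((P.filter fun a => ¬ G.Adj w a).card : ℝ)) := by
    rw [← e4, ← e5]
    ring
  rw [e6]
  have h2 := abs_sub ((X.card : ℝ) - x * P.card) (((X.filter fun a => ¬ G.Adj w a).card : ℝ) -
        x * ((P.filter fun a => ¬ G.Adj w a).card : ℝ))
  linarith

theorem ct2B_dgf {V : Type} [Fintype V] (G : SimpleGraph V) (Z : Finset V) (w : V)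
    (h : ∀ a, G.Adj w a → a ∈ Z) : (Z.filter fun a => G.Adj w a).card = dg G w := by
  unfold dg
  congr 1
  ext a
  simp only [Finset.mem_filter, Finset.mem_univ, true_and]
  exact ⟨fun h1 => h1.2, fun h1 => ⟨h a h1, h1⟩⟩

theorem ct2B_bt {V : Type} [Fintype V] (S : SimpleGraph V) (X1 X2 : Finset V) (v : V)
    (h : ∀ a, S.Adj v a → (v ∈ X1 ∧ a ∈ X2) ∨ (v ∈ X2 ∧ a ∈ X1)) :
    dg (bt S X1 X2) v = dg S v := by
  unfold dg
  congr 1
  ext a
  simp only [Finset.mem_filter, Finset.mem_univ, true_and]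
  constructor
  · intro h1
    exact h1.1
  · intro h1
    exact ⟨h1, h a h1⟩

theorem ct2B_mul {V : Type} (L m : ℕ) (hm : m ≤ L) (U : ℕ → Finset V) (v : V) :
    mul (L - m) (fun ℓ => U (m + ℓ)) v ≤ mul L U v := by
  unfold mul
  apply Finset.card_le_card_of_injOn (fun ℓ => m + ℓ)
  · intro ℓ hℓ
    simp only [Finset.coe_filter, Finset.mem_range, Set.mem_setOf_eq] at hℓ ⊢
    exact ⟨by omega, hℓ.2⟩
  · intro a _ b _ hab
    simp only at hab
    omega

theorem ct2B_dgle {V : Type} [Fintype V] (G : SimpleGraph V) (w : V) :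
    dg G w ≤ Fintype.card V := by
  unfold dg
  rw [← Finset.card_univ]
  exact Finset.card_filter_le _ _

theorem ct2B_card {V : Type} [Fintype V] (XA XB YA YB : Finset V) (hq : Qtr XA XB YA YB) :
    (XA ∪ YA).card = (XB ∪ YB).card ∧ Fintype.card V = 2 * (XA ∪ YA).card ∧
      univ \ (XA ∪ YA) = XB ∪ YB := by
  have h1 : (XA ∪ YA).card = XA.card + YA.card := Finset.card_union_of_disjoint hq.d2
  have h2 : (XB ∪ YB).card = XB.card + YB.card := Finset.card_union_of_disjoint hq.d5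
  have h3 : univ \ (XA ∪ YA) = XB ∪ YB := by
    ext v
    simp only [Finset.mem_sdiff, Finset.mem_univ, true_and, Finset.mem_union]
    constructor
    · intro h
      rcases hq.cov v with h4 | h4 | h4 | h4
      · exact absurd (Or.inl h4) h
      · exact Or.inl h4
      · exact absurd (Or.inr h4) h
      · exact Or.inr h4
    · intro h h'
      rcases h with h | h <;> rcases h' with h' | h'
      · exact Finset.disjoint_left.1 hq.d1 h' h
      · exact Finset.disjoint_left.1 hq.d4 h h'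
      · exact Finset.disjoint_left.1 hq.d3 h' h
      · exact Finset.disjoint_left.1 hq.d6 h' h
  have h4 : (univ \ (XA ∪ YA)).card + (XA ∪ YA).card = (univ : Finset V).card :=
    Finset.card_sdiff_add_card_eq_card (Finset.subset_univ _)
  rw [h3, Finset.card_univ] at h4
  have h5 := hq.cX
  have h6 := hq.cY
  refine ⟨by omega, by omega, h3⟩

theorem ct2B_wt (g N1 N2 Qw wR w0 w1 w3 : ℕ) (hg : 2 ≤ g) (h1 : 2 ≤ N1) (h2 : 2 ≤ N2)
    (hQw : Qw = 480 * (g * (N1 * N2))) (hwR : wR = 10) (hw0 : w0 = 168 * (N1 * N2))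
    (hw1 : w1 + 40 * N2 + 80 = 72 * (N1 * N2)) (hw3 : w3 = 40 * N2)
    (θ δ ε : ℝ) (hθ : θ = 1 / (12 * (g : ℝ))) (hδ : δ = θ / N1) (hε : ε = δ / N2) :
    (wR : ℝ) / Qw = ε / 4 ∧ (w0 : ℝ) / (2 * Qw) = 21 / 10 * θ ∧
      (w1 : ℝ) / (2 * Qw) = 9 / 10 * θ - δ / 2 - ε ∧ (w3 : ℝ) / Qw = δ ∧
      (w3 : ℝ) / (2 * Qw) = δ / 2 ∧ (wR : ℝ) / (4 * Qw) = ε / 16 ∧
      (w1 : ℝ) / (4 * Qw) = (9 / 10 * θ - δ / 2 - ε) / 2 ∧
      1 - (wR : ℝ) / Qw - ((w0 : ℝ) + w1 + w3) / (2 * Qw) = 1 - 3 * θ + ε - ε / 4 := by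
  have hg0 : (0 : ℝ) < g := by exact_mod_cast (by omega : 0 < g)
  have hN10 : (0 : ℝ) < N1 := by exact_mod_cast (by omega : 0 < N1)
  have hN20 : (0 : ℝ) < N2 := by exact_mod_cast (by omega : 0 < N2)
  have e1 : (w1 : ℝ) = 72 * (N1 * N2) - 40 * N2 - 80 := by
    have : (w1 : ℝ) + 40 * N2 + 80 = 72 * (N1 * N2) := by exact_mod_cast hw1
    linarith
  have eQ : (Qw : ℝ) = 480 * (g * (N1 * N2)) := by rw [hQw]; push_cast; ring
  have eR : (wR : ℝ) = 10 := by rw [hwR]; norm_num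
  have e0 : (w0 : ℝ) = 168 * (N1 * N2) := by rw [hw0]; push_cast; ring
  have e3 : (w3 : ℝ) = 40 * N2 := by rw [hw3]; push_cast; ring
  have a1 : (wR : ℝ) / Qw = ε / 4 := by
    rw [eR, eQ, hε, hδ, hθ]
    field_simp
    norm_num
  have a2 : (w0 : ℝ) / (2 * Qw) = 21 / 10 * θ := by
    rw [e0, eQ, hθ]
    field_simp
    norm_num
  have a3 : (w1 : ℝ) / (2 * Qw) = 9 / 10 * θ - δ / 2 - ε := by
    rw [e1, eQ, hε, hδ, hθ]
    field_simp
    ring
  have a4 : (w3 : ℝ) / Qw = δ := by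
    rw [e3, eQ, hδ, hθ]
    field_simp
    norm_num
  have a5 : (w3 : ℝ) / (2 * Qw) = δ / 2 := by
    rw [← a4, mul_comm, ← div_div]
  have a6 : (wR : ℝ) / (4 * Qw) = ε / 16 := by
    have : (wR : ℝ) / (4 * Qw) = (wR : ℝ) / Qw / 4 := by rw [mul_comm, ← div_div]
    rw [this, a1]
    ring
  have a7 : (w1 : ℝ) / (4 * Qw) = (9 / 10 * θ - δ / 2 - ε) / 2 := by
    have : (w1 : ℝ) / (4 * Qw) = (w1 : ℝ) / (2 * Qw) / 2 := by
      rw [div_div]
      congr 1
      ring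
    rw [this, a3]
  refine ⟨a1, a2, a3, a4, a5, a6, a7, ?_⟩
  rw [add_div, add_div, a1, a2, a3, a5]
  ring

theorem ct2B_div (n d c : ℕ) (B : ℝ) (hc : 1 ≤ c) (h : (n : ℝ) * d ≤ B * c) :
    ((n * d / c : ℕ) : ℝ) ≤ B := by
  have hc0 : (0 : ℝ) < c := by exact_mod_cast hc
  have h1 : ((n * d / c : ℕ) : ℝ) ≤ ((n * d : ℕ) : ℝ) / c := Nat.cast_div_le
  rw [Nat.cast_mul] at h1
  have h2 : (n : ℝ) * d / c ≤ B := by
    rw [div_le_iff₀ hc0]
    exact h
  linarith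

theorem ct2B_num (c θ δ ε κP κ ρ : ℝ) (n Δ t : ℕ) (hc : 0 < c) (hc1 : c ≤ 1) (hθ : 0 < θ)
    (hθ1 : θ ≤ 1 / 24) (hδ : 0 < δ) (hε : 0 < ε) (hκP : 0 < κP)
    (hδ1 : 10 ^ 4 * δ ≤ θ * c ^ 2) (hδ2 : 200 * δ ≤ κP * (θ * c))
    (hε1 : 10 ^ 6 * ε ≤ δ * (θ * c ^ 2)) (hκ : 0 < κ) (hρ : 0 < ρ) (hκ1 : 10 ^ 6 * κ ≤ δ * c)
    (hκ2 : 10 ^ 3 * κ ≤ κP) (hρ1 : 10 ^ 3 * ρ ≤ ε) (hρ2 : 10 ^ 3 * ρ ≤ κP)
    (hn : 10 ^ 7 ≤ ε * c * θ * n) (hn2 : 10 ^ 3 ≤ κP * n) (htl : (t : ℝ) ≤ θ * Δ)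
    (htr : θ * Δ - 1 < t) (hΔ : c * n ≤ Δ) (hΔ2 : (Δ : ℝ) ≤ 2 * n) :
    ∃ d0 d s u cap0 cap : ℕ, 4 * ε * n ≤ d0 ∧ (∀ m : ℕ, (m : ℝ) ≤ δ * n → m ≤ d) ∧
      (∀ m : ℕ, (m : ℝ) ≤ ρ * n + 2 → m ≤ s) ∧ (∀ m : ℕ, (m : ℝ) ≤ κ * n → m ≤ u) ∧
      2 ≤ cap0 ∧ 2 * s + 2 * d0 + n * d0 / (cap0 - 1) < t ∧
      (∀ e : ℕ, δ * (c * (n : ℝ) ^ 2 / 100) ≤ e →
        3 * t * (u + cap0) + (u + cap0 + 2 * (u + cap0)) * d < e) ∧
      2 * (u + cap0) + 4 ≤ cap ∧
      4 * (s + d0) + 4 * d + n * d / (cap - 3) < t ∧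
      ((u + (cap0 + cap) : ℕ) : ℝ) ≤ κP * (n / 2) ∧ ((s + d0 + d : ℕ) : ℝ) ≤ κP * (n / 2) := by
  have hn0 : (0 : ℝ) ≤ n := Nat.cast_nonneg n
  have hθc : 0 < θ * c := mul_pos hθ hc
  have hθc1 : θ * c ≤ 1 / 24 := by nlinarith
  have hc2 : c ^ 2 ≤ c := by nlinarith
  have hθc2 : θ * c ^ 2 ≤ θ * c := by nlinarith
  obtain ⟨R, hR⟩ : ∃ R : ℝ, R = 32 * ε / (θ * c) := ⟨_, rfl⟩
  obtain ⟨R', hR'⟩ : ∃ R' : ℝ, R' = 8 * δ / (θ * c) := ⟨_, rfl⟩
  have hRm : R * (θ * c) = 32 * ε := by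
    rw [hR]
    field_simp
  have hRm' : R' * (θ * c) = 8 * δ := by
    rw [hR']
    field_simp
  have hR0 : 0 < R := by rw [hR]; positivity
  have hR0' : 0 < R' := by rw [hR']; positivity
  -- bounds
  have f1 : 10 ^ 4 * δ ≤ θ * c := by linarith
  have f2 : 10 ^ 6 * ε ≤ δ := by
    have : δ * (θ * c ^ 2) ≤ δ * 1 := by
      apply mul_le_mul_of_nonneg_left _ hδ.le
      nlinarith
    linarith
  have f3 : R ≤ 32 * (δ * c) / 10 ^ 6 := by
    have h1 : R * (θ * c) ≤ 32 * (δ * c) / 10 ^ 6 * (θ * c) := by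
      rw [hRm]
      have : δ * (θ * c ^ 2) = δ * c * (θ * c) := by ring
      rw [this] at hε1
      linarith
    exact le_of_mul_le_mul_right h1 hθc
  have f4 : R' ≤ κP / 25 := by
    have h1 : R' * (θ * c) ≤ κP / 25 * (θ * c) := by
      rw [hRm']
      linarith
    exact le_of_mul_le_mul_right h1 hθc
  have f5 : 192 * δ ≤ R' := by
    have h1 : 192 * δ * (θ * c) ≤ R' * (θ * c) := by
      rw [hRm']
      nlinarith
    exact le_of_mul_le_mul_right h1 hθc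
  have f6 : δ ≤ κP / 4800 := by nlinarith
  -- products with n
  have g1 : 10 ^ 4 * (δ * n) ≤ θ * c * n := by nlinarith
  have g2 : 10 ^ 6 * (ε * n) ≤ δ * n := by nlinarith
  have hεn : 10 ^ 7 ≤ ε * n := by
    have h1 : ε * c * θ * n = (ε * n) * (θ * c) := by ring
    have h2 : 0 ≤ ε * n := by positivity
    nlinarith
  have hδc : 10 ^ 7 ≤ δ * c * n := by
    have h1 : ε * c * θ * n ≤ δ * c * n := by
      have h2 : ε * c * θ ≤ δ * c := by
        have h3 : ε * θ ≤ δ := by nlinarith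
        nlinarith
      exact mul_le_mul_of_nonneg_right h2 hn0
    linarith
  have g3 : 10 ^ 3 * (ρ * n) ≤ ε * n := by nlinarith
  have g4 : 10 ^ 6 * (κ * n) ≤ δ * c * n := by nlinarith
  have g5 : 10 ^ 3 * (κ * n) ≤ κP * n := by nlinarith
  have g6 : R * n ≤ 32 * (δ * c * n) / 10 ^ 6 := by nlinarith
  have g7 : R' * n ≤ κP * n / 25 := by nlinarith
  have g8 : 192 * (δ * n) ≤ R' * n := by nlinarith
  have g9 : δ * n ≤ κP * n / 4800 := by nlinarith
  have g10 : δ * c * n ≤ δ * n := by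
    have : δ * c ≤ δ := by nlinarith
    nlinarith
  have htA : θ * c * n - 1 < t := by
    have : θ * (c * n) ≤ θ * Δ := mul_le_mul_of_nonneg_left hΔ hθ.le
    have e : θ * (c * n) = θ * c * n := by ring
    linarith
  have htB : (t : ℝ) ≤ n / 12 := by
    have h1 : θ * Δ ≤ θ * (2 * n) := mul_le_mul_of_nonneg_left hΔ2 hθ.le
    have h2 : θ * (2 * n) ≤ 1 / 24 * (2 * n) := mul_le_mul_of_nonneg_right hθ1 (by positivity)
    linarith
  obtain ⟨s, hs⟩ : ∃ s : ℕ, s = ⌈ρ * n⌉₊ + 2 := ⟨_, rfl⟩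
  obtain ⟨d0, hd0⟩ : ∃ d0 : ℕ, d0 = ⌈4 * ε * n⌉₊ := ⟨_, rfl⟩
  obtain ⟨d, hd⟩ : ∃ d : ℕ, d = ⌊δ * n⌋₊ := ⟨_, rfl⟩
  obtain ⟨u, hu⟩ : ∃ u : ℕ, u = ⌊κ * n⌋₊ := ⟨_, rfl⟩
  obtain ⟨k0, hk0⟩ : ∃ k0 : ℕ, k0 = ⌈R * n⌉₊ := ⟨_, rfl⟩
  obtain ⟨k1, hk1⟩ : ∃ k1 : ℕ, k1 = ⌈R' * n⌉₊ := ⟨_, rfl⟩
  have bs : (s : ℝ) ≤ ρ * n + 3 := by
    rw [hs]
    push_cast
    have := Nat.ceil_lt_add_one (a := ρ * n) (by positivity)
    linarith
  have bs' : ρ * n + 2 ≤ (s : ℝ) := by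
    rw [hs]
    push_cast
    have := Nat.le_ceil (ρ * n)
    linarith
  have bd0 : (d0 : ℝ) ≤ 4 * ε * n + 1 := by
    rw [hd0]
    exact (Nat.ceil_lt_add_one (a := 4 * ε * n) (by positivity)).le
  have bd0' : 4 * ε * n ≤ (d0 : ℝ) := by
    rw [hd0]
    exact Nat.le_ceil _
  have bd : (d : ℝ) ≤ δ * n := by
    rw [hd]
    exact Nat.floor_le (by positivity)
  have bu : (u : ℝ) ≤ κ * n := by
    rw [hu]
    exact Nat.floor_le (by positivity)
  have bk0 : (k0 : ℝ) ≤ R * n + 1 := by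
    rw [hk0]
    exact (Nat.ceil_lt_add_one (a := R * n) (by positivity)).le
  have bk0' : R * n ≤ (k0 : ℝ) := by
    rw [hk0]
    exact Nat.le_ceil _
  have bk1 : (k1 : ℝ) ≤ R' * n + 1 := by
    rw [hk1]
    exact (Nat.ceil_lt_add_one (a := R' * n) (by positivity)).le
  have bk1' : R' * n ≤ (k1 : ℝ) := by
    rw [hk1]
    exact Nat.le_ceil _
  have ba : ((u + (k0 + 2) : ℕ) : ℝ) ≤ δ * c * n / 10 ^ 4 := by
    push_cast
    linarith
  refine ⟨d0, d, s, u, k0 + 2, k1 + 4, bd0', ?_, ?_, ?_, by omega, ?_, ?_, ?_, ?_, ?_, ?_⟩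
  · intro m hm
    rw [hd]
    exact Nat.le_floor hm
  · intro m hm
    have : (m : ℝ) ≤ s := by linarith
    exact_mod_cast this
  · intro m hm
    rw [hu]
    exact Nat.le_floor hm
  · have h1 : ((n * d0 / (k0 + 2 - 1) : ℕ) : ℝ) ≤ θ * c * n / 7 := by
      apply ct2B_div _ _ _ _ (by omega)
      have e : k0 + 2 - 1 = k0 + 1 := by omega
      rw [e]
      push_cast
      have h2 : (n : ℝ) * d0 ≤ n * (4 * ε * n + 1) := mul_le_mul_of_nonneg_left bd0 hn0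
      have h3 : θ * c * n / 7 * (R * n) ≤ θ * c * n / 7 * ((k0 : ℝ) + 1) := by
        apply mul_le_mul_of_nonneg_left _ (by positivity)
        linarith
      have h4 : θ * c * n / 7 * (R * n) = 32 / 7 * ε * n * n := by
        calc θ * c * n / 7 * (R * n) = (R * (θ * c)) * n * n / 7 := by ring
          _ = 32 / 7 * ε * n * n := by rw [hRm]; ring
      have h5 : n * (4 * ε * n + 1) ≤ 32 / 7 * ε * n * n := by
        have h6 : 4 * ε * n + 1 ≤ 32 / 7 * ε * n := by linarith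
        calc (n : ℝ) * (4 * ε * n + 1) ≤ n * (32 / 7 * ε * n) :=
              mul_le_mul_of_nonneg_left h6 hn0
          _ = 32 / 7 * ε * n * n := by ring
      linarith
    have h2 : ((2 * s + 2 * d0 + n * d0 / (k0 + 2 - 1) : ℕ) : ℝ) < t := by
      push_cast at h1 ⊢
      linarith
    exact_mod_cast h2
  · intro e he
    have h1 : ((3 * t * (u + (k0 + 2)) + (u + (k0 + 2) + 2 * (u + (k0 + 2))) * d : ℕ) : ℝ) <
        e := by
      have h0 : ((3 * t * (u + (k0 + 2)) + (u + (k0 + 2) + 2 * (u + (k0 + 2))) * d : ℕ) : ℝ) =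
          3 * t * ((u + (k0 + 2) : ℕ) : ℝ) + 3 * ((u + (k0 + 2) : ℕ) : ℝ) * d := by
        push_cast
        ring
      rw [h0]
      set a : ℝ := ((u + (k0 + 2) : ℕ) : ℝ) with ha
      have ha0 : 0 ≤ a := Nat.cast_nonneg _
      have h2 : 3 * (t : ℝ) * a ≤ n / 4 * a := by
        apply mul_le_mul_of_nonneg_right _ ha0
        linarith
      have h3 : 3 * a * (d : ℝ) ≤ n * a := by
        have h4 : (d : ℝ) ≤ n / 3 := by
          have h5 : δ ≤ 1 / 3 := by nlinarith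
          nlinarith
        have h6 : 3 * a * (d : ℝ) ≤ 3 * a * (n / 3) :=
          mul_le_mul_of_nonneg_left h4 (by positivity)
        linarith
      have h4 : n / 4 * a + n * a = 5 / 4 * (n * a) := by ring
      have h5 : n * a ≤ n * (δ * c * n / 10 ^ 4) := mul_le_mul_of_nonneg_left ba hn0
      have h6 : δ * (c * (n : ℝ) ^ 2 / 100) = 100 * (n * (δ * c * n / 10 ^ 4)) := by ring
      have hnpos : (0 : ℝ) < n := by
        by_contra h7
        push Not at h7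
        have h8 : (n : ℝ) = 0 := le_antisymm h7 hn0
        rw [h8, mul_zero] at hδc
        norm_num at hδc
      have h7 : 0 < n * (δ * c * n / 10 ^ 4) := by positivity
      linarith
    exact_mod_cast h1
  · have h1 : ((2 * (u + (k0 + 2)) : ℕ) : ℝ) ≤ k1 := by
      rw [Nat.cast_mul]
      push_cast at ba ⊢
      linarith
    have h2 : 2 * (u + (k0 + 2)) ≤ k1 := by exact_mod_cast h1
    omega
  · have h1 : ((n * d / (k1 + 4 - 3) : ℕ) : ℝ) ≤ θ * c * n / 8 := by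
      apply ct2B_div _ _ _ _ (by omega)
      have e : k1 + 4 - 3 = k1 + 1 := by omega
      rw [e]
      push_cast
      have h2 : (n : ℝ) * d ≤ n * (δ * n) := mul_le_mul_of_nonneg_left bd hn0
      have h3 : θ * c * n / 8 * (R' * n) ≤ θ * c * n / 8 * ((k1 : ℝ) + 1) := by
        apply mul_le_mul_of_nonneg_left _ (by positivity)
        linarith
      have h4 : θ * c * n / 8 * (R' * n) = n * (δ * n) := by
        calc θ * c * n / 8 * (R' * n) = (R' * (θ * c)) * n * n / 8 := by ring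
          _ = n * (δ * n) := by rw [hRm']; ring
      linarith
    have h2 : ((4 * (s + d0) + 4 * d + n * d / (k1 + 4 - 3) : ℕ) : ℝ) < t := by
      push_cast at h1 ⊢
      linarith
    exact_mod_cast h2
  · push_cast
    linarith
  · push_cast
    linarith

end Pool.Agent.H71.TD
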