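import Mathlib
import Pool.Agent.H71.TD.Defs
import Pool.Agent.H71.DX.Rnd

/-!
RPL: random partition of the edges of `H` into classes, with weights. (Compare `rndR` in `DX/Rnd.lean`, proved, and `reserve` in `DN/Res.lean`, proved: copy and adapt.)

Proof (`n = #V`).  `E = Sym2 V`, `f : Sym2 V → Fin Q` uniform. For `e : Sym2 V` put `S j e := ∑ i < j, w i e`, and `I j e := {i : Fin Q | S j e ≤ i < S j e + w j e}` (disjoint for different `j`, of size `w j e`, since `∑ j, w j e ≤ Q`).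
`(Hj j).Adj a b := H.Adj a b ∧ f s(a, b) ∈ I j s(a, b)` (this is `RI H (I j) f` of `DX/Rnd.lean`).
 * Degrees: `tail2x` with `D_v = {s(v, u) : H.Adj v u}` and `I j`: for all but `2 Q ^ #E exp (- ρ² n / 4)` functions (`x = min ρ 1`) `|dg (Hj j) v - (∑_{e ∈ D_v} w j e) / Q| ≤ ρ n`, and `∑_{e ∈ D_v} w j e = ∑_{u : H.Adj v u} w j s(v, u)`.
 * Pairs `(A, Y)` and `w0 ≥ 1` (`w0 ≤ Q`; for `w0 > Q` the filter is empty): `c e = #{x ∈ A ×ˢ Y : H.Adj x.1 x.2, w0 ≤ w j s(x.1, x.2), s(x.1, x.2) = e} ≤ 2`, `∑ c ≥ lam n²`; `ee (Hj j) A Y ≥ ∑_e [f e ∈ I j e] c e`; `c e > 0` implies `#(I j e) ≥ w0`, so `tail1x` with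
   `q0 = w0 / Q` gives: for all but `Q ^ #E exp (- q0 lam n² / 5)` functions `ee (Hj j) A Y ≥ (q0 / 4) ∑ c`. There are at most `4 ^ n` pairs, `Q` numbers `w0` and `m` numbers `j`; `q0 ≥ 1 / Q`.
 The total number of bad functions is `< Q ^ #E` for `n ≥ n0`.
-/

set_option autoImplicit false

namespace Pool.Agent.H71.TD

open Finset Classical
open Pool.Agent.H71.DN Pool.Agent.H71.DX Pool.Agent.H71.DR Pool.Agent.H71.HL Pool.Agent.H71.DC

/-- the edges of `H` of weight at least `w0` -/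
def Rpl_H {V : Type} (H : SimpleGraph V) (u : Sym2 V → ℕ) (w0 : ℕ) : SimpleGraph V where
  Adj a b := H.Adj a b ∧ w0 ≤ u s(a, b)
  symm := by
    constructor
    intro a b h
    refine ⟨h.1.symm, ?_⟩
    rw [Sym2.eq_swap]
    exact h.2
  loopless := by
    constructor
    intro a h
    exact H.loopless.irrefl a h.1

theorem Rpl_num (K c a : ℝ) (hc : 0 < c) (ha : 0 < a) :
    ∃ n0 : ℕ, ∀ n : ℕ, n0 ≤ n → 1 ≤ n ∧
      K * (2 * (n : ℝ) * Real.exp (-(c * n))) +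
        K * (4 ^ n * Real.exp (-(a * (n : ℝ) ^ 2))) < 1 := by
  obtain ⟨n0, hn0⟩ := Rnd_num (c / 2) (a / 2) (by positivity) (by positivity)
  refine ⟨n0 + ⌈K / (c / 2)⌉₊ + ⌈K / (a / 2)⌉₊, fun n hn => ?_⟩
  obtain ⟨hn1, h⟩ := hn0 n (by omega)
  refine ⟨hn1, ?_⟩
  have hn1' : (1 : ℝ) ≤ n := by exact_mod_cast hn1
  have key : ∀ y : ℝ, K ≤ y → K * Real.exp (-y) ≤ 1 := by
    intro y hy
    have h1 := Real.add_one_le_exp y
    have h2 : K * Real.exp (-y) ≤ Real.exp y * Real.exp (-y) :=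
      mul_le_mul_of_nonneg_right (by linarith) (Real.exp_pos _).le
    rwa [← Real.exp_add, add_neg_cancel, Real.exp_zero] at h2
  have e1 : K ≤ c / 2 * n := by
    have h1 := Nat.le_ceil (K / (c / 2))
    have h2 : ((⌈K / (c / 2)⌉₊ : ℕ) : ℝ) ≤ n := by
      have h3 : ⌈K / (c / 2)⌉₊ ≤ n := by omega
      exact_mod_cast h3
    have h3 := h1.trans h2
    rw [div_le_iff₀ (by positivity)] at h3
    linarith
  have e2 : K ≤ a / 2 * (n : ℝ) ^ 2 := by
    have h1 := Nat.le_ceil (K / (a / 2))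
    have h2 : ((⌈K / (a / 2)⌉₊ : ℕ) : ℝ) ≤ n := by
      have h3 : ⌈K / (a / 2)⌉₊ ≤ n := by omega
      exact_mod_cast h3
    have h3 := h1.trans h2
    rw [div_le_iff₀ (by positivity)] at h3
    have h4 : (n : ℝ) ≤ (n : ℝ) ^ 2 := by nlinarith
    nlinarith
  have k1 := key _ e1
  have k2 := key _ e2
  have f1 : Real.exp (-(c * n)) = Real.exp (-(c / 2 * n)) * Real.exp (-(c / 2 * n)) := by
    rw [← Real.exp_add]
    congr 1
    ring
  have f2 : Real.exp (-(a * (n : ℝ) ^ 2)) =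
      Real.exp (-(a / 2 * (n : ℝ) ^ 2)) * Real.exp (-(a / 2 * (n : ℝ) ^ 2)) := by
    rw [← Real.exp_add]
    congr 1
    ring
  have g1 : K * (2 * (n : ℝ) * Real.exp (-(c * n))) ≤ 2 * (n : ℝ) * Real.exp (-(c / 2 * n)) := by
    rw [f1]
    have h1 : 0 ≤ 2 * (n : ℝ) * Real.exp (-(c / 2 * n)) := by positivity
    have h2 := mul_le_mul_of_nonneg_left k1 h1
    linarith
  have g2 : K * (4 ^ n * Real.exp (-(a * (n : ℝ) ^ 2))) ≤
      4 ^ n * Real.exp (-(a / 2 * (n : ℝ) ^ 2)) := by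
    rw [f2]
    have h1 : 0 ≤ (4 : ℝ) ^ n * Real.exp (-(a / 2 * (n : ℝ) ^ 2)) := by positivity
    have h2 := mul_le_mul_of_nonneg_left k2 h1
    linarith
  have g3 : 0 ≤ 2 * (n : ℝ) * Real.exp (-(c / 2 * n)) := by positivity
  linarith

theorem Rpl_T {m : ℕ} (u : Fin m → ℕ) (T T' : Finset (Fin m)) (i : Fin m) (hi : i ∉ T)
    (hT : T ⊆ T') (hi' : i ∈ T') : (∑ k ∈ T, u k) + u i ≤ ∑ k ∈ T', u k := by
  rw [add_comm, ← Finset.sum_insert hi]
  exact Finset.sum_le_sum_of_subset (Finset.insert_subset hi' hT)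

theorem Rpl_S {V : Type} {m : ℕ} (w : Fin m → Sym2 V → ℕ) (e : Sym2 V) (i j : Fin m) (h : i < j) :
    (∑ k ∈ univ.filter (fun k => k < i), w k e) + w i e ≤
      ∑ k ∈ univ.filter (fun k => k < j), w k e := by
  refine Rpl_T (fun k => w k e) _ _ i (by simp) ?_ (by simp [h])
  intro k hk
  have := (Finset.mem_filter.1 hk).2
  simp only [Finset.mem_filter, Finset.mem_univ, true_and]
  exact this.trans h

theorem Rpl_Q {V : Type} {m Q : ℕ} (w : Fin m → Sym2 V → ℕ) (e : Sym2 V) (i : Fin m)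
    (h : ∑ j, w j e ≤ Q) :
    (∑ k ∈ univ.filter (fun k => k < i), w k e) + w i e ≤ Q :=
  (Rpl_T (fun k => w k e) _ _ i (by simp) (Finset.subset_univ _) (Finset.mem_univ _)).trans h

theorem rpl (m Q : ℕ) (hQ : 1 ≤ Q) (ρ lam : ℝ) (hρ : 0 < ρ) (hl : 0 < lam) :
    ∃ n0 : ℕ, ∀ (V : Type) [Fintype V] (H : SimpleGraph V) (w : Fin m → Sym2 V → ℕ),
      n0 ≤ Fintype.card V → (∀ e, ∑ j, w j e ≤ Q) →
      ∃ Hj : Fin m → SimpleGraph V, (∀ j, Hj j ≤ H) ∧
        (∀ i j, i ≠ j → ∀ a b, (Hj i).Adj a b → ¬ (Hj j).Adj a b) ∧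
        (∀ j a b, (Hj j).Adj a b → 0 < w j s(a, b)) ∧
        (∀ j v, |(dg (Hj j) v : ℝ) -
          (∑ u ∈ univ.filter fun u => H.Adj v u, (w j s(v, u) : ℝ)) / Q| ≤
            ρ * Fintype.card V) ∧
        ∀ j (w0 : ℕ) (A Y : Finset V), 1 ≤ w0 →
          lam * (Fintype.card V : ℝ) ^ 2 ≤
            (((A ×ˢ Y).filter fun x => H.Adj x.1 x.2 ∧ w0 ≤ w j s(x.1, x.2)).card : ℝ) →
          (w0 : ℝ) / (4 * Q) *
            (((A ×ˢ Y).filter fun x => H.Adj x.1 x.2 ∧ w0 ≤ w j s(x.1, x.2)).card : ℝ) ≤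
            (ee (Hj j) A Y : ℝ) := by
  have hQ0 : (0 : ℝ) < Q := by
    have : 0 < Q := by omega
    exact_mod_cast this
  obtain ⟨n0, hn0⟩ := Rpl_num (m * Q) ((min ρ 1) ^ 2 / 4) (1 / Q * lam / 5) (by positivity)
    (by positivity)
  refine ⟨n0, fun V _ H w hV hw => ?_⟩
  obtain ⟨n, hn⟩ : ∃ n : ℕ, n = Fintype.card V := ⟨_, rfl⟩
  rw [← hn] at hV ⊢
  obtain ⟨hn1, hnum⟩ := hn0 n hV
  obtain ⟨x, hx⟩ : ∃ x : ℝ, x = min ρ 1 := ⟨_, rfl⟩
  have hx0 : 0 ≤ x := by rw [hx]; positivity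
  have hx1 : x ≤ 1 := by rw [hx]; exact min_le_right _ _
  have hxρ : x ≤ ρ := by rw [hx]; exact min_le_left _ _
  rw [← hx] at hnum
  have hn1' : (1 : ℝ) ≤ n := by exact_mod_cast hn1
  obtain ⟨S, hS⟩ : ∃ S : Fin m → Sym2 V → ℕ, S = fun j e =>
    ∑ k ∈ univ.filter (fun k => k < j), w k e := ⟨_, rfl⟩
  have hSS : ∀ e i j, i < j → S i e + w i e ≤ S j e := by
    intro e i j h
    rw [hS]
    exact Rpl_S w e i j h
  have hSQ : ∀ e i, S i e + w i e ≤ Q := by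
    intro e i
    rw [hS]
    exact Rpl_Q w e i (hw e)
  obtain ⟨I, hI⟩ : ∃ I : Fin m → Sym2 V → Finset (Fin Q), I = fun j e =>
    Iv Q (S j e) (S j e + w j e) := ⟨_, rfl⟩
  have hIc : ∀ j e, (I j e).card = w j e := by
    intro j e
    rw [hI]
    simp only
    rw [Rnd_Iv_card _ _ _ (hSQ e j)]
    omega
  have hIm : ∀ j e (i : Fin Q), i ∈ I j e → S j e ≤ (i : ℕ) ∧ (i : ℕ) < S j e + w j e := by
    intro j e i hi
    rw [hI] at hi
    simp only at hi
    unfold Iv at hi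
    exact (Finset.mem_filter.1 hi).2
  obtain ⟨Ω, hΩ⟩ : ∃ Ω : ℝ, Ω = (Q : ℝ) ^ Fintype.card (Sym2 V) := ⟨_, rfl⟩
  have hΩ0 : 0 < Ω := by rw [hΩ]; positivity
  obtain ⟨B1, hB1⟩ : ∃ B1 : Fin m × V → Finset (Sym2 V → Fin Q), B1 = fun p =>
    univ.filter fun f : Sym2 V → Fin Q =>
      x * (n : ℝ) < |(((Dv H p.2).filter fun e => f e ∈ I p.1 e).card : ℝ) -
        (∑ e ∈ Dv H p.2, ((I p.1 e).card : ℝ)) / Q| := ⟨_, rfl⟩
  obtain ⟨G', hG'⟩ : ∃ G' : Fin m × Fin Q → SimpleGraph V, G' = fun p =>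
    Rpl_H H (w p.1) ((p.2 : ℕ) + 1) := ⟨_, rfl⟩
  obtain ⟨B2, hB2⟩ : ∃ B2 : (Fin m × Fin Q) × (Finset V × Finset V) → Finset (Sym2 V → Fin Q),
    B2 = fun P => univ.filter fun f : Sym2 V → Fin Q =>
      ((∑ e, if f e ∈ I P.1.1 e then cc (G' P.1) P.2.1 P.2.2 e else 0 : ℕ) : ℝ) <
        ((((P.1.2 : ℕ) : ℝ) + 1) / Q) / 4 * (∑ e, cc (G' P.1) P.2.1 P.2.2 e : ℕ) := ⟨_, rfl⟩
  obtain ⟨PP, hPP⟩ : ∃ PP : Finset ((Fin m × Fin Q) × (Finset V × Finset V)), PP =
    univ.filter fun P => lam * (n : ℝ) ^ 2 ≤ (ee (G' P.1) P.2.1 P.2.2 : ℝ) := ⟨_, rfl⟩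
  have c1 : ∀ p, ((B1 p).card : ℝ) ≤ Ω * (2 * Real.exp (-(x ^ 2 / 4 * n))) := by
    intro p
    have h := tail2x (E := Sym2 V) Q hQ (Dv H p.2) (I p.1) x n hx0 hx1 (by
      rw [Res_Dv_card, hn]
      unfold dg
      exact_mod_cast Finset.card_le_univ _)
    rw [hB1]
    refine (le_of_eq ?_).trans (h.trans (le_of_eq ?_))
    · refine congrArg (fun k : ℕ => (k : ℝ)) (congrArg Finset.card ?_)
      ext f
      simp only [Finset.mem_filter, Finset.mem_univ, true_and]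
    · rw [hΩ, show -(x ^ 2 * (n : ℝ) / 4) = -(x ^ 2 / 4 * n) by ring]
      ring
  have c2 : ∀ P ∈ PP, ((B2 P).card : ℝ) ≤ Ω * Real.exp (-(1 / Q * lam / 5 * (n : ℝ) ^ 2)) := by
    intro P hP
    rw [hPP] at hP
    have hP' : lam * (n : ℝ) ^ 2 ≤ (ee (G' P.1) P.2.1 P.2.2 : ℝ) := (Finset.mem_filter.1 hP).2
    have h := tail1x (E := Sym2 V) Q hQ (cc (G' P.1) P.2.1 P.2.2)
      (Res_cc_le (G' P.1) P.2.1 P.2.2) (I P.1.1) ((((P.1.2 : ℕ) : ℝ) + 1) / Q)
      (by positivity) (by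
        intro e he
        rw [hIc]
        have h2 : (P.1.2 : ℕ) + 1 ≤ w P.1.1 e := by
          unfold cc at he
          obtain ⟨y, hy⟩ := Finset.card_pos.1 he
          have hy1 := (Finset.mem_filter.1 hy).2
          have hy2 := (Finset.mem_filter.1 (Finset.mem_filter.1 hy).1).2
          rw [← hy1]
          rw [hG'] at hy2
          exact hy2.2
        have h3 : (((P.1.2 : ℕ) : ℝ) + 1) ≤ w P.1.1 e := by exact_mod_cast h2
        rw [div_mul_cancel₀ _ hQ0.ne']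
        exact h3)
    rw [hB2]
    refine (le_of_eq ?_).trans (h.trans ?_)
    · refine congrArg (fun k : ℕ => (k : ℝ)) (congrArg Finset.card ?_)
      ext f
      simp only [Finset.mem_filter, Finset.mem_univ, true_and]
    · rw [hΩ]
      refine mul_le_mul_of_nonneg_left (Real.exp_le_exp.2 ?_) (by positivity)
      rw [Res_sum]
      have h5 : 1 / (Q : ℝ) ≤ (((P.1.2 : ℕ) : ℝ) + 1) / Q := by
        apply div_le_div_of_nonneg_right _ hQ0.le
        have : (0 : ℝ) ≤ ((P.1.2 : ℕ) : ℝ) := Nat.cast_nonneg _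
        linarith
      have h6 := mul_le_mul h5 hP' (by positivity) (by positivity)
      linarith
  obtain ⟨f, hf⟩ := Rnd_good (E := Sym2 V) Q
    ((univ : Finset (Fin m × V)).disjSum PP) (Sum.elim B1 B2) (by
    rw [Finset.sum_disjSum]
    simp only [Sum.elim_inl, Sum.elim_inr]
    have hmQ : (m : ℝ) ≤ m * Q := by
      have h1 : (1 : ℝ) ≤ Q := by exact_mod_cast hQ
      have h2 : (0 : ℝ) ≤ m := Nat.cast_nonneg _
      nlinarith
    have s1 : (∑ p, ((B1 p).card : ℝ)) ≤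
        Ω * (m * Q * (2 * (n : ℝ) * Real.exp (-(x ^ 2 / 4 * n)))) := by
      refine (Finset.sum_le_sum (fun p _ => c1 p)).trans ?_
      rw [Finset.sum_const, Finset.card_univ, Fintype.card_prod, Fintype.card_fin, nsmul_eq_mul,
        ← hn]
      push_cast
      have h1 : 0 ≤ 2 * (n : ℝ) * Real.exp (-(x ^ 2 / 4 * n)) := by positivity
      have h2 := mul_le_mul_of_nonneg_left (mul_le_mul_of_nonneg_right hmQ h1) hΩ0.le
      linarith
    have hPPc : (PP.card : ℝ) ≤ m * Q * 4 ^ n := by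
      have h1 : PP.card ≤ Fintype.card ((Fin m × Fin Q) × (Finset V × Finset V)) :=
        Finset.card_le_univ _
      rw [Fintype.card_prod, Fintype.card_prod, Fintype.card_prod, Fintype.card_finset, ← hn,
        ← mul_pow, Fintype.card_fin, Fintype.card_fin] at h1
      have h2 : (PP.card : ℝ) ≤ ((m * Q * (2 * 2) ^ n : ℕ) : ℝ) := by exact_mod_cast h1
      refine h2.trans (le_of_eq ?_)
      push_cast
      norm_num
    have s2 : (∑ P ∈ PP, ((B2 P).card : ℝ)) ≤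
        Ω * (m * Q * (4 ^ n * Real.exp (-(1 / Q * lam / 5 * (n : ℝ) ^ 2)))) := by
      refine (Finset.sum_le_sum c2).trans ?_
      rw [Finset.sum_const, nsmul_eq_mul]
      have he := (Real.exp_pos (-(1 / Q * lam / 5 * (n : ℝ) ^ 2))).le
      calc (PP.card : ℝ) * (Ω * Real.exp (-(1 / Q * lam / 5 * (n : ℝ) ^ 2)))
          ≤ (m * Q * 4 ^ n) * (Ω * Real.exp (-(1 / Q * lam / 5 * (n : ℝ) ^ 2))) :=
            mul_le_mul_of_nonneg_right hPPc (mul_nonneg hΩ0.le he)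
        _ = _ := by ring
    have h6 := mul_lt_mul_of_pos_left hnum hΩ0
    rw [← hΩ]
    linarith)
  have hdeg : ∀ j v, |(dg (RI H (I j) f) v : ℝ) - (∑ e ∈ Dv H v, ((I j e).card : ℝ)) / Q| ≤
      ρ * n := by
    intro j v
    have h := hf (Sum.inl (j, v)) (Finset.inl_mem_disjSum.2 (Finset.mem_univ _))
    rw [Sum.elim_inl, hB1] at h
    simp only [Finset.mem_filter, Finset.mem_univ, true_and, not_lt] at h
    rw [Rnd_dg] at h
    exact h.trans (mul_le_mul_of_nonneg_right hxρ (by linarith))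
  refine ⟨fun j => RI H (I j) f, ?_, ?_, ?_, ?_, ?_⟩
  · exact fun j u v h => h.1
  · intro i j hij a b h1 h2
    have h3 := hIm _ _ _ h1.2
    have h4 := hIm _ _ _ h2.2
    rcases lt_or_gt_of_ne hij with h | h
    · have := hSS s(a, b) i j h
      omega
    · have := hSS s(a, b) j i h
      omega
  · intro j a b h
    have h3 := hIm _ _ _ h.2
    omega
  · intro j v
    have h := hdeg j v
    have h0 : ∑ e ∈ Dv H v, ((I j e).card : ℝ) =
        ∑ u ∈ univ.filter fun u => H.Adj v u, (w j s(v, u) : ℝ) := by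
      unfold Dv
      rw [Finset.sum_image fun a _ b _ h => Res_inj v h]
      exact Finset.sum_congr rfl fun u _ => by rw [hIc]
    rw [h0] at h
    exact h
  · intro j w0 A Y hw0 hA
    have hee : ∀ k : ℕ, (((A ×ˢ Y).filter fun x => H.Adj x.1 x.2 ∧ k ≤ w j s(x.1, x.2)).card) =
        ee (Rpl_H H (w j) k) A Y := by
      intro k
      unfold ee Rpl_H
      refine congrArg Finset.card ?_
      ext y
      simp only [Finset.mem_filter]
    rw [hee w0] at hA ⊢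
    by_cases hwQ : w0 ≤ Q
    · obtain ⟨k, hk⟩ : ∃ k : Fin Q, (k : ℕ) + 1 = w0 := ⟨⟨w0 - 1, by omega⟩, by simp; omega⟩
      have hG : Rpl_H H (w j) w0 = G' (j, k) := by
        rw [hG', ← hk]
      rw [hG] at hA ⊢
      have hP : ((j, k), (A, Y)) ∈ PP := by
        rw [hPP, Finset.mem_filter]
        exact ⟨Finset.mem_univ _, hA⟩
      have h := hf (Sum.inr ((j, k), (A, Y))) (Finset.inr_mem_disjSum.2 hP)
      rw [Sum.elim_inr, hB2] at h
      simp only [Finset.mem_filter, Finset.mem_univ, true_and, not_lt] at h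
      rw [Res_sum, Rnd_sum0] at h
      have hle : ee (RI (G' (j, k)) (I j) f) A Y ≤ ee (RI H (I j) f) A Y := by
        unfold ee
        apply Finset.card_le_card
        intro y hy
        have h1 := Finset.mem_filter.1 hy
        refine Finset.mem_filter.2 ⟨h1.1, ?_, h1.2.2⟩
        have h2 := h1.2.1
        rw [hG'] at h2
        exact h2.1
      have hle' : (ee (RI (G' (j, k)) (I j) f) A Y : ℝ) ≤ (ee (RI H (I j) f) A Y : ℝ) := by
        exact_mod_cast hle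
      have hk' : ((k : ℕ) : ℝ) + 1 = w0 := by exact_mod_cast hk
      rw [hk'] at h
      refine le_trans (le_of_eq ?_) (h.trans hle')
      ring
    · have h0 : ee (Rpl_H H (w j) w0) A Y = 0 := by
        unfold ee
        rw [Finset.card_eq_zero]
        apply Finset.eq_empty_of_forall_notMem
        intro y hy
        have h1 := (Finset.mem_filter.1 hy).2.2
        have h2 := hSQ s(y.1, y.2) j
        omega
      rw [h0]
      simp

end Pool.Agent.H71.TD
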