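import Mathlib
import Pool.Agent.H71.TD.Defs3
import Pool.Agent.H71.TD.Rpl

/-!
GCB: the classes of edges of a bipartite graph `H` with the sides `XA ∪ YA` and `XB ∪ YB` (compare `gcE` in `TD/GcE.lean`): `0`: the main part, `1`: the reserve, `2, 3`: edges between `XA` and `XB` and between `YA` and `YB` (main part and reserve), `5`: edges between `XA` and `YB` and between
`XB` and `YA`. (There is no class `4`.) Use the STATEMENT of `rpl` (`TD/Rpl.lean`).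

Proof (`n = #V`).  `rpl` with `m = 4`, a small `ρ'` and `lam' = min lam (α / 100)`, and the weights `w 0 e = wR` for all `e`; `w 1 e = w0`, `w 2 e = w1` if `e` joins `XA` and `XB` or `YA` and `YB`, else `0`; `w 3 e = w3` if `e` joins `XA` and `YB` or `XB` and `YA`, else `0`.
`cl e := 1, 2, 3, 5` if `e` is an edge of `Hj 0, Hj 1, Hj 2, Hj 3`, and `0` otherwise.
 * `dg (Hj j) v` is within `ρ' n` of `(w / Q)` times the number of `H`-neighbours of `v` of the type in question, which is `dg H v` for `j = 0`, and for the others the number of neighbours in one quarter on the other side, within `η0 n` of `dg H v / 2`.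
 * `ee`: the last conclusion of `rpl`. `ee H XA YB ≥ (n/5) (α n/3)`-like, and so on.
 * last claim: `ee (cg H cl 5) XA YB = ∑_{v ∈ XA} dg (cg H cl 5) v` and `ee (cg H cl 5) XB YA = ∑_{v ∈ XB} dg (cg H cl 5) v`, and `#XA = #XB`.
-/

set_option autoImplicit false

namespace Pool.Agent.H71.TD

open Finset Classical
open Pool.Agent.H71.DN Pool.Agent.H71.DX Pool.Agent.H71.DR Pool.Agent.H71.HL Pool.Agent.H71.DC

/-- edges between `A` and `B` or between `C` and `D` -/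
def GcB_T {V : Type} (A B C D : Finset V) (e : Sym2 V) : Prop :=
  ∃ a b, e = s(a, b) ∧ ((a ∈ A ∧ b ∈ B) ∨ (a ∈ C ∧ b ∈ D))

theorem GcB_T_iff {V : Type} (A B C D : Finset V) (a b : V) : GcB_T A B C D s(a, b) ↔
    ((a ∈ A ∧ b ∈ B) ∨ (a ∈ B ∧ b ∈ A) ∨ (a ∈ C ∧ b ∈ D) ∨ (a ∈ D ∧ b ∈ C)) := by
  unfold GcB_T
  constructor
  · rintro ⟨c, d, h, h2⟩
    rw [Sym2.eq_iff] at h
    rcases h with ⟨rfl, rfl⟩ | ⟨rfl, rfl⟩ <;> tauto
  · rintro (h | h | h | h)
    · exact ⟨a, b, rfl, Or.inl h⟩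
    · exact ⟨b, a, Sym2.eq_swap, Or.inl ⟨h.2, h.1⟩⟩
    · exact ⟨a, b, rfl, Or.inr h⟩
    · exact ⟨b, a, Sym2.eq_swap, Or.inr ⟨h.2, h.1⟩⟩

/-- the vertices joined with `v` by edges of a type are in one quarter -/
theorem GcB_nb {V : Type} [Fintype V] (H : SimpleGraph V) (XA XB YA YB : Finset V)
    (hq : Qtr XA XB YA YB) (η : ℝ)
    (h1 : ∀ Z, (Z = XA ∨ Z = YA) → ∀ v ∈ XB ∪ YB,
      |((Z.filter fun u => H.Adj v u).card : ℝ) - dg H v / 2| ≤ η * Fintype.card V)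
    (h2 : ∀ Z, (Z = XB ∨ Z = YB) → ∀ v ∈ XA ∪ YA,
      |((Z.filter fun u => H.Adj v u).card : ℝ) - dg H v / 2| ≤ η * Fintype.card V) (v : V) :
    ∃ Z1 Z2 : Finset V, (∀ u, GcB_T XA XB YA YB s(v, u) ↔ u ∈ Z1) ∧
      (∀ u, GcB_T XA YB XB YA s(v, u) ↔ u ∈ Z2) ∧
      |((Z1.filter fun u => H.Adj v u).card : ℝ) - dg H v / 2| ≤ η * Fintype.card V ∧
      |((Z2.filter fun u => H.Adj v u).card : ℝ) - dg H v / 2| ≤ η * Fintype.card V := by
  have dj : ∀ {A B : Finset V}, Disjoint A B → ∀ {x}, x ∈ A → x ∉ B := fun h x hx =>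
    Finset.disjoint_left.1 h hx
  rcases hq.cov v with hv | hv | hv | hv
  · have n1 := dj hq.d1 hv
    have n2 := dj hq.d2 hv
    have n3 := dj hq.d3 hv
    refine ⟨XB, YB, fun u => ?_, fun u => ?_, h2 _ (Or.inl rfl) v (mem_union_left _ hv),
      h2 _ (Or.inr rfl) v (mem_union_left _ hv)⟩ <;> rw [GcB_T_iff] <;> tauto
  · have n1 := dj hq.d1.symm hv
    have n2 := dj hq.d4 hv
    have n3 := dj hq.d5 hv
    refine ⟨XA, YA, fun u => ?_, fun u => ?_, h1 _ (Or.inl rfl) v (mem_union_left _ hv),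
      h1 _ (Or.inr rfl) v (mem_union_left _ hv)⟩ <;> rw [GcB_T_iff] <;> tauto
  · have n1 := dj hq.d2.symm hv
    have n2 := dj hq.d4.symm hv
    have n3 := dj hq.d6 hv
    refine ⟨YB, XB, fun u => ?_, fun u => ?_, h2 _ (Or.inr rfl) v (mem_union_right _ hv),
      h2 _ (Or.inl rfl) v (mem_union_right _ hv)⟩ <;> rw [GcB_T_iff] <;> tauto
  · have n1 := dj hq.d3.symm hv
    have n2 := dj hq.d5.symm hv
    have n3 := dj hq.d6.symm hv
    refine ⟨YA, XA, fun u => ?_, fun u => ?_, h1 _ (Or.inr rfl) v (mem_union_right _ hv),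
      h1 _ (Or.inl rfl) v (mem_union_right _ hv)⟩ <;> rw [GcB_T_iff] <;> tauto

theorem GcB_sum {V : Type} [Fintype V] (H : SimpleGraph V) (v : V) (c : ℕ) (T : Sym2 V → Prop)
    (Z : Finset V) (hZ : ∀ u, T s(v, u) ↔ u ∈ Z) :
    ∑ u ∈ univ.filter fun u => H.Adj v u, ((if T s(v, u) then c else 0 : ℕ) : ℝ) =
      c * ((Z.filter fun u => H.Adj v u).card : ℝ) := by
  have h1 : ∀ u ∈ univ.filter (fun u => H.Adj v u), ((if T s(v, u) then c else 0 : ℕ) : ℝ) =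
      if u ∈ Z then (c : ℝ) else 0 := by
    intro u _
    by_cases h : u ∈ Z
    · rw [if_pos h, if_pos ((hZ u).2 h)]
    · rw [if_neg h, if_neg (fun h2 => h ((hZ u).1 h2)), Nat.cast_zero]
  rw [Finset.sum_congr rfl h1, Finset.sum_ite, Finset.sum_const_zero, add_zero, Finset.sum_const,
    nsmul_eq_mul, mul_comm]
  congr 2
  apply congrArg
  ext u
  simp only [mem_filter, mem_univ, true_and]
  tauto

theorem GcB_bd {c Q : ℕ} (hQ : 1 ≤ Q) (hc : c ≤ Q) {x d D D' n e : ℝ} (hn : 0 ≤ n) (he : 0 ≤ e)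
    (h1 : |x - d / 2| ≤ e * n) (h2 : d ≤ D) (h3 : D ≤ d + e * n) (h4 : |D' - c * x / Q| ≤ e * n) :
    |D' - (c : ℝ) / (2 * Q) * D| ≤ 3 * e * n := by
  have hQ0 : (0 : ℝ) < Q := by exact_mod_cast hQ
  have hcQ : (c : ℝ) / Q ≤ 1 := by
    rw [div_le_one hQ0]; exact_mod_cast hc
  have hc0 : 0 ≤ (c : ℝ) / Q := by positivity
  have hen : 0 ≤ e * n := mul_nonneg he hn
  have h5 : |x - D / 2| ≤ 2 * (e * n) := by
    rw [abs_le] at h1 ⊢
    constructor <;> linarith [h1.1, h1.2]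
  have h6 : |(c : ℝ) * x / Q - (c : ℝ) / (2 * Q) * D| ≤ 2 * (e * n) := by
    have e1 : (c : ℝ) * x / Q - (c : ℝ) / (2 * Q) * D = (c : ℝ) / Q * (x - D / 2) := by
      field_simp
    rw [e1, abs_mul, abs_of_nonneg hc0]
    calc (c : ℝ) / Q * |x - D / 2| ≤ 1 * (2 * (e * n)) :=
          mul_le_mul hcQ h5 (abs_nonneg _) zero_le_one
      _ = 2 * (e * n) := one_mul _
  rw [abs_le] at h4 h6 ⊢
  constructor <;> linarith [h4.1, h4.2, h6.1, h6.2]

theorem GcB_bd0 {c Q : ℕ} (hQ : 1 ≤ Q) (hc : c ≤ Q) {d D D' n e : ℝ} (hn : 0 ≤ n) (he : 0 ≤ e)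
    (h2 : d ≤ D) (h3 : D ≤ d + e * n) (h4 : |D' - c * d / Q| ≤ e * n) :
    |D' - (c : ℝ) / Q * D| ≤ 3 * e * n := by
  have hQ0 : (0 : ℝ) < Q := by exact_mod_cast hQ
  have hcQ : (c : ℝ) / Q ≤ 1 := by
    rw [div_le_one hQ0]; exact_mod_cast hc
  have hc0 : 0 ≤ (c : ℝ) / Q := by positivity
  have hen : 0 ≤ e * n := mul_nonneg he hn
  have h5 : |d - D| ≤ e * n := by
    rw [abs_le]
    constructor <;> linarith
  have h6 : |(c : ℝ) * d / Q - (c : ℝ) / Q * D| ≤ e * n := by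
    have e1 : (c : ℝ) * d / Q - (c : ℝ) / Q * D = (c : ℝ) / Q * (d - D) := by
      field_simp
    rw [e1, abs_mul, abs_of_nonneg hc0]
    calc (c : ℝ) / Q * |d - D| ≤ 1 * (e * n) :=
          mul_le_mul hcQ h5 (abs_nonneg _) zero_le_one
      _ = e * n := one_mul _
  rw [abs_le] at h4 h6 ⊢
  constructor <;> linarith [h4.1, h4.2, h6.1, h6.2]

/-- sums of degrees -/
theorem GcB_ee {V : Type} [Fintype V] (G : SimpleGraph V) (A B : Finset V)
    (h : ∀ a ∈ A, ∀ b, G.Adj a b → b ∈ B) : ee G A B = ∑ a ∈ A, dg G a := by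
  unfold ee dg
  rw [Finset.card_filter, Finset.sum_product]
  refine Finset.sum_congr rfl fun a ha => ?_
  rw [← Finset.card_filter]
  apply congrArg
  ext b
  simp only [mem_filter, mem_univ, true_and]
  exact ⟨fun h1 => h1.2, fun h1 => ⟨h a ha b h1, h1⟩⟩

theorem GcB_ee2 {V : Type} [Fintype V] (G : SimpleGraph V) (A B : Finset V) :
    ee G A B = ∑ a ∈ A, (B.filter fun u => G.Adj a u).card := by
  unfold ee
  rw [Finset.card_filter, Finset.sum_product]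
  refine Finset.sum_congr rfl fun a _ => ?_
  rw [← Finset.card_filter]

theorem gcB (Q wR w0 w1 w3 : ℕ) (hR : 1 ≤ wR) (h0 : 1 ≤ w0) (h1 : 1 ≤ w1)
    (h3 : 1 ≤ w3) (hQ : wR + w0 + w1 ≤ Q) (hQ3 : wR + w3 ≤ Q)
    (α ρ lam : ℝ) (hα : 0 < α) (hα1 : α ≤ 1) (hρ : 0 < ρ) (hl : 0 < lam) :
    ∃ (ρH η0 : ℝ) (n0 : ℕ), 0 < ρH ∧ 0 < η0 ∧
      ∀ (V : Type) [Fintype V] (H : SimpleGraph V) (Δ : ℕ) (XA XB YA YB : Finset V),
        n0 ≤ Fintype.card V → α * Fintype.card V ≤ Δ → (Δ : ℝ) ≤ 2 * Fintype.card V →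
        (∀ v, dg H v ≤ Δ ∧ (Δ : ℝ) ≤ dg H v + ρH * Fintype.card V) →
        Qtr XA XB YA YB → Bip H (XA ∪ YA) →
        (∀ Z, (Z = XA ∨ Z = XB ∨ Z = YA ∨ Z = YB) →
          |(Z.card : ℝ) - Fintype.card V / 4| ≤ η0 * Fintype.card V) →
        (∀ Z, (Z = XA ∨ Z = YA) → ∀ v ∈ XB ∪ YB,
          |((Z.filter fun u => H.Adj v u).card : ℝ) - dg H v / 2| ≤ η0 * Fintype.card V) →
        (∀ Z, (Z = XB ∨ Z = YB) → ∀ v ∈ XA ∪ YA,
          |((Z.filter fun u => H.Adj v u).card : ℝ) - dg H v / 2| ≤ η0 * Fintype.card V) →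
        ∃ cl : Sym2 V → ℕ, (∀ e, cl e < 6 ∧ cl e ≠ 4) ∧
          (∀ j, (j = 2 ∨ j = 3) → ∀ a b, (cg H cl j).Adj a b → (a ∈ XA ∧ b ∈ XB) ∨
            (a ∈ XB ∧ b ∈ XA) ∨ (a ∈ YA ∧ b ∈ YB) ∨ (a ∈ YB ∧ b ∈ YA)) ∧
          (∀ a b, (cg H cl 5).Adj a b → (a ∈ XA ∧ b ∈ YB) ∨ (a ∈ YB ∧ b ∈ XA) ∨
            (a ∈ XB ∧ b ∈ YA) ∨ (a ∈ YA ∧ b ∈ XB)) ∧
          (∀ v, |(dg (cg H cl 0) v : ℝ) -
            (1 - (wR : ℝ) / Q - ((w0 : ℝ) + w1 + w3) / (2 * Q)) * Δ| ≤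
              ρ * Fintype.card V) ∧
          (∀ v, |(dg (cg H cl 1) v : ℝ) - (wR : ℝ) / Q * Δ| ≤ ρ * Fintype.card V) ∧
          (∀ v, |(dg (cg H cl 2) v : ℝ) - (w0 : ℝ) / (2 * Q) * Δ| ≤ ρ * Fintype.card V) ∧
          (∀ v, |(dg (cg H cl 3) v : ℝ) - (w1 : ℝ) / (2 * Q) * Δ| ≤ ρ * Fintype.card V) ∧
          (∀ v, |(dg (cg H cl 5) v : ℝ) - (w3 : ℝ) / (2 * Q) * Δ| ≤ ρ * Fintype.card V) ∧
          (∀ A Y : Finset V, lam * (Fintype.card V : ℝ) ^ 2 ≤ ee H A Y →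
            (wR : ℝ) / (4 * Q) * ee H A Y ≤ ee (cg H cl 1) A Y) ∧
          (∀ A Y : Finset V, ((A ⊆ XA ∧ Y ⊆ XB) ∨ (A ⊆ XB ∧ Y ⊆ XA) ∨ (A ⊆ YA ∧ Y ⊆ YB) ∨
            (A ⊆ YB ∧ Y ⊆ YA)) → lam * (Fintype.card V : ℝ) ^ 2 ≤ ee H A Y →
            (w1 : ℝ) / (4 * Q) * ee H A Y ≤ ee (cg H cl 3) A Y) ∧
          (w3 : ℝ) / Q * (α * (Fintype.card V : ℝ) ^ 2 / 100) ≤ ee (cg H cl 5) XA YB ∧
          (w3 : ℝ) / Q * (α * (Fintype.card V : ℝ) ^ 2 / 100) ≤ ee (cg H cl 5) XB YA ∧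
          |(ee (cg H cl 5) XA YB : ℝ) - ee (cg H cl 5) XB YA| ≤
            ρ * (Fintype.card V : ℝ) ^ 2 := by
  have hQ1 : 1 ≤ Q := by omega
  have hQ0 : (0 : ℝ) < Q := by exact_mod_cast hQ1
  obtain ⟨e, he⟩ : ∃ e : ℝ, e = min (ρ / 20) (α / 20) := ⟨_, rfl⟩
  have he0 : 0 < e := by rw [he]; positivity
  have heρ : e ≤ ρ / 20 := by rw [he]; exact min_le_left _ _
  have heα : e ≤ α / 20 := by rw [he]; exact min_le_right _ _
  obtain ⟨n0, hn0⟩ := rpl 4 Q hQ1 e (min lam (α / 100)) he0 (lt_min hl (by positivity))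
  refine ⟨e, e, n0, he0, he0, ?_⟩
  intro V _ H Δ XA XB YA YB hn hΔ1 hΔ2 hdg hq hbip hcard hZ1 hZ2
  obtain ⟨n, hnn⟩ : ∃ n : ℝ, n = Fintype.card V := ⟨_, rfl⟩
  have hnn0 : 0 ≤ n := by rw [hnn]; positivity
  rw [← hnn] at hΔ1 hΔ2 hcard
  simp only [← hnn] at hdg
  obtain ⟨w, hw⟩ : ∃ w : Fin 4 → Sym2 V → ℕ, w = fun j f =>
      ![wR, if GcB_T XA XB YA YB f then w0 else 0, if GcB_T XA XB YA YB f then w1 else 0,
        if GcB_T XA YB XB YA f then w3 else 0] j := ⟨_, rfl⟩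
  have hw_0 : ∀ f, w 0 f = wR := fun f => by rw [hw]; rfl
  have hw_1 : ∀ f, w 1 f = if GcB_T XA XB YA YB f then w0 else 0 := fun f => by rw [hw]; rfl
  have hw_2 : ∀ f, w 2 f = if GcB_T XA XB YA YB f then w1 else 0 := fun f => by rw [hw]; rfl
  have hw_3 : ∀ f, w 3 f = if GcB_T XA YB XB YA f then w3 else 0 := fun f => by rw [hw]; rfl
  have dj : ∀ {A B : Finset V}, Disjoint A B → ∀ {x}, x ∈ A → x ∉ B := fun h x hx =>
    Finset.disjoint_left.1 h hx
  have hexcl : ∀ f, GcB_T XA XB YA YB f → ¬ GcB_T XA YB XB YA f := by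
    intro f h1 h2
    obtain ⟨a, b, rfl, hab⟩ := h1
    rw [GcB_T_iff] at h2
    rcases hab with ⟨ha, hb⟩ | ⟨ha, hb⟩
    · rcases h2 with h | h | h | h
      · exact dj hq.d5 hb h.2
      · exact dj hq.d3 ha h.1
      · exact dj hq.d1 ha h.1
      · exact dj hq.d2 ha h.1
    · rcases h2 with h | h | h | h
      · exact dj hq.d2 h.1 ha
      · exact dj hq.d6 ha h.1
      · exact dj hq.d4 h.1 ha
      · exact dj hq.d5 h.2 hb
  have hwQ : ∀ f, ∑ j, w j f ≤ Q := by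
    intro f
    rw [Fin.sum_univ_four, hw_0, hw_1, hw_2, hw_3]
    by_cases h1 : GcB_T XA XB YA YB f
    · rw [if_pos h1, if_pos h1, if_neg (hexcl f h1)]
      omega
    · rw [if_neg h1, if_neg h1]
      split_ifs <;> omega
  obtain ⟨Hj, hle, hdis, hpos, hdeg, hee⟩ := hn0 V H w hn hwQ
  simp only [← hnn] at hdeg hee
  obtain ⟨cl, hcl⟩ : ∃ cl : Sym2 V → ℕ, cl = fun f =>
      if f ∈ (Hj 0).edgeSet then 1 else if f ∈ (Hj 1).edgeSet then 2 else
        if f ∈ (Hj 2).edgeSet then 3 else if f ∈ (Hj 3).edgeSet then 5 else 0 := ⟨_, rfl⟩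
  have hclv : ∀ f, (f ∈ (Hj 0).edgeSet ∧ cl f = 1) ∨ (f ∉ (Hj 0).edgeSet ∧ f ∈ (Hj 1).edgeSet ∧ cl f = 2) ∨
      (f ∉ (Hj 0).edgeSet ∧ f ∉ (Hj 1).edgeSet ∧ f ∈ (Hj 2).edgeSet ∧ cl f = 3) ∨
      (f ∉ (Hj 0).edgeSet ∧ f ∉ (Hj 1).edgeSet ∧ f ∉ (Hj 2).edgeSet ∧ f ∈ (Hj 3).edgeSet ∧ cl f = 5) ∨
      (f ∉ (Hj 0).edgeSet ∧ f ∉ (Hj 1).edgeSet ∧ f ∉ (Hj 2).edgeSet ∧ f ∉ (Hj 3).edgeSet ∧ cl f = 0) := by
    intro f
    rw [hcl]
    simp only
    by_cases h0 : f ∈ (Hj 0).edgeSet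
    · left; exact ⟨h0, if_pos h0⟩
    · right
      rw [if_neg h0]
      by_cases h1 : f ∈ (Hj 1).edgeSet
      · left; exact ⟨h0, h1, if_pos h1⟩
      · right
        rw [if_neg h1]
        by_cases h2 : f ∈ (Hj 2).edgeSet
        · left; exact ⟨h0, h1, h2, if_pos h2⟩
        · right
          rw [if_neg h2]
          by_cases h3 : f ∈ (Hj 3).edgeSet
          · left; exact ⟨h0, h1, h2, h3, if_pos h3⟩
          · right
            exact ⟨h0, h1, h2, h3, if_neg h3⟩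
  have hc1 : cg H cl 1 = Hj 0 := by
    ext a b
    have h := hclv s(a, b)
    simp only [SimpleGraph.mem_edgeSet] at h
    constructor
    · rintro ⟨-, h1⟩
      rcases h with h | h | h | h | h <;> first | exact h.1 | omega
    · intro h1
      refine ⟨hle 0 h1, ?_⟩
      rcases h with h | h | h | h | h
      · exact h.2
      all_goals exact absurd h1 h.1
  have hc2 : cg H cl 2 = Hj 1 := by
    ext a b
    have h := hclv s(a, b)
    simp only [SimpleGraph.mem_edgeSet] at h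
    constructor
    · rintro ⟨-, h1⟩
      rcases h with h | h | h | h | h <;> first | exact h.2.1 | omega
    · intro h1
      refine ⟨hle 1 h1, ?_⟩
      have h2 := hdis 1 0 (by decide) a b h1
      rcases h with h | h | h | h | h
      · exact absurd h.1 h2
      · exact h.2.2
      all_goals exact absurd h1 h.2.1
  have hc3 : cg H cl 3 = Hj 2 := by
    ext a b
    have h := hclv s(a, b)
    simp only [SimpleGraph.mem_edgeSet] at h
    constructor
    · rintro ⟨-, h1⟩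
      rcases h with h | h | h | h | h <;> first | exact h.2.2.1 | omega
    · intro h1
      refine ⟨hle 2 h1, ?_⟩
      have h2 := hdis 2 0 (by decide) a b h1
      have h3 := hdis 2 1 (by decide) a b h1
      rcases h with h | h | h | h | h
      · exact absurd h.1 h2
      · exact absurd h.2.1 h3
      · exact h.2.2.2
      all_goals exact absurd h1 h.2.2.1
  have hc5 : cg H cl 5 = Hj 3 := by
    ext a b
    have h := hclv s(a, b)
    simp only [SimpleGraph.mem_edgeSet] at h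
    constructor
    · rintro ⟨-, h1⟩
      rcases h with h | h | h | h | h <;> first | exact h.2.2.2.1 | omega
    · intro h1
      refine ⟨hle 3 h1, ?_⟩
      have h2 := hdis 3 0 (by decide) a b h1
      have h3 := hdis 3 1 (by decide) a b h1
      have h4 := hdis 3 2 (by decide) a b h1
      rcases h with h | h | h | h | h
      · exact absurd h.1 h2
      · exact absurd h.2.1 h3
      · exact absurd h.2.2.1 h4
      · exact h.2.2.2.2
      · exact absurd h1 h.2.2.2.1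
  -- the degrees
  have hdsum : ∀ v, dg H v = dg (cg H cl 0) v + dg (Hj 0) v + dg (Hj 1) v + dg (Hj 2) v +
      dg (Hj 3) v := by
    intro v
    unfold dg
    simp only [Finset.card_filter, ← Finset.sum_add_distrib]
    refine Finset.sum_congr rfl fun u _ => ?_
    have h := hclv s(v, u)
    simp only [SimpleGraph.mem_edgeSet] at h
    have g0 : (cg H cl 0).Adj v u ↔ H.Adj v u ∧ cl s(v, u) = 0 := Iff.rfl
    have l0 : (Hj 0).Adj v u → H.Adj v u := fun k => hle 0 k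
    have l1 : (Hj 1).Adj v u → H.Adj v u := fun k => hle 1 k
    have l2 : (Hj 2).Adj v u → H.Adj v u := fun k => hle 2 k
    have l3 : (Hj 3).Adj v u → H.Adj v u := fun k => hle 3 k
    have d10 := hdis 1 0 (by decide) v u
    have d20 := hdis 2 0 (by decide) v u
    have d21 := hdis 2 1 (by decide) v u
    have d30 := hdis 3 0 (by decide) v u
    have d31 := hdis 3 1 (by decide) v u
    have d32 := hdis 3 2 (by decide) v u
    rcases h with h | h | h | h | h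
    · have c0 : ¬ (cg H cl 0).Adj v u := fun k => by have := (g0.1 k).2; omega
      have c1 : ¬ (Hj 1).Adj v u := fun k => d10 k h.1
      have c2 : ¬ (Hj 2).Adj v u := fun k => d20 k h.1
      have c3 : ¬ (Hj 3).Adj v u := fun k => d30 k h.1
      rw [if_pos (l0 h.1), if_neg c0, if_pos h.1, if_neg c1, if_neg c2, if_neg c3]
    · have c0 : ¬ (cg H cl 0).Adj v u := fun k => by have := (g0.1 k).2; omega
      have c2 : ¬ (Hj 2).Adj v u := fun k => d21 k h.2.1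
      have c3 : ¬ (Hj 3).Adj v u := fun k => d31 k h.2.1
      rw [if_pos (l1 h.2.1), if_neg c0, if_neg h.1, if_pos h.2.1, if_neg c2, if_neg c3]
    · have c0 : ¬ (cg H cl 0).Adj v u := fun k => by have := (g0.1 k).2; omega
      have c3 : ¬ (Hj 3).Adj v u := fun k => d32 k h.2.2.1
      rw [if_pos (l2 h.2.2.1), if_neg c0, if_neg h.1, if_neg h.2.1, if_pos h.2.2.1, if_neg c3]
    · have c0 : ¬ (cg H cl 0).Adj v u := fun k => by have := (g0.1 k).2; omega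
      rw [if_pos (l3 h.2.2.2.1), if_neg c0, if_neg h.1, if_neg h.2.1, if_neg h.2.2.1,
        if_pos h.2.2.2.1]
    · by_cases k : H.Adj v u
      · have c0 : (cg H cl 0).Adj v u := g0.2 ⟨k, h.2.2.2.2⟩
        rw [if_pos k, if_pos c0, if_neg h.1, if_neg h.2.1, if_neg h.2.2.1, if_neg h.2.2.2.1]
      · have c0 : ¬ (cg H cl 0).Adj v u := fun k2 => k (g0.1 k2).1
        rw [if_neg k, if_neg c0, if_neg h.1, if_neg h.2.1, if_neg h.2.2.1, if_neg h.2.2.2.1]
  have hd0 : ∀ v, |(dg (Hj 0) v : ℝ) - (wR : ℝ) / Q * Δ| ≤ 3 * e * n := by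
    intro v
    have h := hdeg 0 v
    simp only [hw_0] at h
    rw [Finset.sum_const, nsmul_eq_mul] at h
    refine GcB_bd0 (c := wR) (d := dg H v) hQ1 (by omega) hnn0 he0.le (by exact_mod_cast (hdg v).1) (hdg v).2 ?_
    rw [mul_comm (wR : ℝ)]
    exact h
  have hdT : ∀ v, |(dg (Hj 1) v : ℝ) - (w0 : ℝ) / (2 * Q) * Δ| ≤ 3 * e * n ∧
      |(dg (Hj 2) v : ℝ) - (w1 : ℝ) / (2 * Q) * Δ| ≤ 3 * e * n ∧
      |(dg (Hj 3) v : ℝ) - (w3 : ℝ) / (2 * Q) * Δ| ≤ 3 * e * n := by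
    intro v
    obtain ⟨Z1, Z2, z1, z2, z3, z4⟩ := GcB_nb H XA XB YA YB hq e hZ1 hZ2 v
    rw [← hnn] at z3 z4
    have g1 := hdeg 1 v
    have g2 := hdeg 2 v
    have g3 := hdeg 3 v
    simp only [hw_1] at g1
    simp only [hw_2] at g2
    simp only [hw_3] at g3
    rw [GcB_sum H v w0 _ Z1 z1] at g1
    rw [GcB_sum H v w1 _ Z1 z1] at g2
    rw [GcB_sum H v w3 _ Z2 z2] at g3
    have hD : (dg H v : ℝ) ≤ Δ := by exact_mod_cast (hdg v).1
    exact ⟨GcB_bd hQ1 (by omega) hnn0 he0.le z3 hD (hdg v).2 g1,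
      GcB_bd hQ1 (by omega) hnn0 he0.le z3 hD (hdg v).2 g2,
      GcB_bd hQ1 (by omega) hnn0 he0.le z4 hD (hdg v).2 g3⟩
  have hρn : 3 * e * n ≤ ρ * n := mul_le_mul_of_nonneg_right (by linarith) hnn0
  have hρn2 : 13 * (e * n) ≤ ρ * n := by
    have := mul_le_mul_of_nonneg_right (show 13 * e ≤ ρ by linarith) hnn0
    linarith
  -- the neighbours of the edges of the class 5
  have h5 : ∀ a b, (Hj 3).Adj a b → (a ∈ XA ∧ b ∈ YB) ∨ (a ∈ YB ∧ b ∈ XA) ∨
            (a ∈ XB ∧ b ∈ YA) ∨ (a ∈ YA ∧ b ∈ XB) := by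
    intro a b hab
    have h := hpos 3 a b hab
    rw [hw_3] at h
    by_cases h2 : GcB_T XA YB XB YA s(a, b)
    · exact (GcB_T_iff _ _ _ _ _ _).1 h2
    · rw [if_neg h2] at h
      exact absurd h (lt_irrefl 0)
  have hmin : ∀ {x : ℝ}, lam * n ^ 2 ≤ x → min lam (α / 100) * n ^ 2 ≤ x := fun {x} h =>
    (mul_le_mul_of_nonneg_right (min_le_left _ _) (by positivity)).trans h
  -- lower bound for pairs of class 5
  have hlow : ∀ X Y : Finset V, (∀ x ∈ X, |((Y.filter fun u => H.Adj x u).card : ℝ) - dg H x / 2| ≤ e * n) →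
      |(X.card : ℝ) - n / 4| ≤ e * n →
      (∀ x ∈ X ×ˢ Y, GcB_T XA YB XB YA s(x.1, x.2)) →
      (w3 : ℝ) / Q * (α * n ^ 2 / 100) ≤ ee (Hj 3) X Y := by
    intro X Y hX hXc hT
    have k1 : (X.card : ℝ) * (α * n / 3) ≤ ee H X Y := by
      rw [GcB_ee2]
      push_cast
      rw [← nsmul_eq_mul]
      refine Finset.card_nsmul_le_sum _ _ _ fun x hx => ?_
      have g1 := (abs_le.1 (hX x hx)).1
      have g2 := (hdg x).2
      have g3 : e * n ≤ α / 20 * n := mul_le_mul_of_nonneg_right heα hnn0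
      linarith
    have k2 : n / 5 ≤ X.card := by
      have g1 := (abs_le.1 hXc).1
      have g3 : e * n ≤ 1 / 20 * n := mul_le_mul_of_nonneg_right (by linarith) hnn0
      linarith
    have k3 : α * n ^ 2 / 15 ≤ ee H X Y := by
      have g1 : n / 5 * (α * n / 3) ≤ (X.card : ℝ) * (α * n / 3) :=
        mul_le_mul_of_nonneg_right k2 (by positivity)
      nlinarith
    have hfil : ((X ×ˢ Y).filter fun x => H.Adj x.1 x.2 ∧ w3 ≤ w 3 s(x.1, x.2)) =
        (X ×ˢ Y).filter fun x => H.Adj x.1 x.2 := by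
      apply Finset.filter_congr
      intro x hx
      rw [hw_3, if_pos (hT x hx)]
      exact ⟨fun h => h.1, fun h => ⟨h, le_rfl⟩⟩
    have k4 := hee 3 w3 X Y h3 (by
      rw [hfil]
      have g1 : min lam (α / 100) * n ^ 2 ≤ α / 100 * n ^ 2 :=
        mul_le_mul_of_nonneg_right (min_le_right _ _) (by positivity)
      have g2 : α / 100 * n ^ 2 ≤ α * n ^ 2 / 15 := by
        have : 0 ≤ α * n ^ 2 := by positivity
        linarith
      exact g1.trans (g2.trans k3))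
    rw [hfil] at k4
    refine le_trans ?_ k4
    have g1 : (w3 : ℝ) / (4 * Q) * (α * n ^ 2 / 15) ≤ (w3 : ℝ) / (4 * Q) * ee H X Y :=
      mul_le_mul_of_nonneg_left k3 (by positivity)
    refine le_trans ?_ g1
    have g2 : 0 ≤ (w3 : ℝ) / Q * (α * n ^ 2) := by positivity
    have g3 : (w3 : ℝ) / (4 * Q) * (α * n ^ 2 / 15) = (w3 : ℝ) / Q * (α * n ^ 2) / 60 := by
      ring
    rw [g3]
    linarith
  have hgen : ∀ (j : Fin 4) (c : ℕ) (A Y : Finset V), 1 ≤ c →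
      (∀ x ∈ A ×ˢ Y, H.Adj x.1 x.2 → c ≤ w j s(x.1, x.2)) → lam * n ^ 2 ≤ ee H A Y →
      (c : ℝ) / (4 * Q) * ee H A Y ≤ ee (Hj j) A Y := by
    intro j c A Y hc hw' hA
    have hfil : ((A ×ˢ Y).filter fun x => H.Adj x.1 x.2 ∧ c ≤ w j s(x.1, x.2)) =
        (A ×ˢ Y).filter fun x => H.Adj x.1 x.2 := by
      apply Finset.filter_congr
      intro x hx
      exact ⟨fun h => h.1, fun h => ⟨h, hw' x hx h⟩⟩
    have k4 := hee j c A Y hc (by rw [hfil]; exact hmin hA)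
    rw [hfil] at k4
    exact k4
  refine ⟨cl, ?_, ?_, ?_, ?_, ?_, ?_, ?_, ?_, ?_, ?_, ?_, ?_, ?_⟩
  · intro f
    rcases hclv f with h | h | h | h | h
    · rw [h.2]; omega
    · rw [h.2.2]; omega
    · rw [h.2.2.2]; omega
    · rw [h.2.2.2.2]; omega
    · rw [h.2.2.2.2]; omega
  · intro j hj a b hab
    have h : GcB_T XA XB YA YB s(a, b) := by
      by_contra h2
      rcases hj with rfl | rfl
      · rw [hc2] at hab
        have h := hpos 1 a b hab
        rw [hw_1, if_neg h2] at h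
        exact absurd h (lt_irrefl 0)
      · rw [hc3] at hab
        have h := hpos 2 a b hab
        rw [hw_2, if_neg h2] at h
        exact absurd h (lt_irrefl 0)
    exact (GcB_T_iff _ _ _ _ _ _).1 h
  · rw [hc5]
    exact h5
  · intro v
    rw [← hnn]
    have e1 : (dg (cg H cl 0) v : ℝ) = dg H v - dg (Hj 0) v - dg (Hj 1) v - dg (Hj 2) v -
        dg (Hj 3) v := by
      have := hdsum v
      have h2 : (dg H v : ℝ) = dg (cg H cl 0) v + dg (Hj 0) v + dg (Hj 1) v + dg (Hj 2) v +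
        dg (Hj 3) v := by exact_mod_cast this
      linarith
    have h0 := abs_le.1 (hd0 v)
    obtain ⟨t1, t2, t3⟩ := hdT v
    have t1' := abs_le.1 t1
    have t2' := abs_le.1 t2
    have t3' := abs_le.1 t3
    have hD : (dg H v : ℝ) ≤ Δ := by exact_mod_cast (hdg v).1
    have hD2 := (hdg v).2
    have e2 : (1 - (wR : ℝ) / Q - ((w0 : ℝ) + w1 + w3) / (2 * Q)) * Δ = Δ - (wR : ℝ) / Q * Δ -
        (w0 : ℝ) / (2 * Q) * Δ - (w1 : ℝ) / (2 * Q) * Δ - (w3 : ℝ) / (2 * Q) * Δ := by ring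
    rw [e1, e2, abs_le]
    constructor <;> linarith [h0.1, h0.2, t1'.1, t1'.2, t2'.1, t2'.2, t3'.1, t3'.2]
  · intro v
    rw [hc1, ← hnn]
    exact (hd0 v).trans hρn
  · intro v
    rw [hc2, ← hnn]
    exact (hdT v).1.trans hρn
  · intro v
    rw [hc3, ← hnn]
    exact (hdT v).2.1.trans hρn
  · intro v
    rw [hc5, ← hnn]
    exact (hdT v).2.2.trans hρn
  · intro A Y hA
    rw [← hnn] at hA
    rw [hc1]
    exact hgen 0 wR A Y hR (fun x _ _ => by rw [hw_0]) hA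
  · intro A Y hAY hA
    rw [← hnn] at hA
    rw [hc3]
    refine hgen 2 w1 A Y h1 (fun x hx _ => ?_) hA
    rw [Finset.mem_product] at hx
    rw [hw_2, if_pos]
    rw [GcB_T_iff]
    rcases hAY with h | h | h | h
    · exact Or.inl ⟨h.1 hx.1, h.2 hx.2⟩
    · exact Or.inr (Or.inl ⟨h.1 hx.1, h.2 hx.2⟩)
    · exact Or.inr (Or.inr (Or.inl ⟨h.1 hx.1, h.2 hx.2⟩))
    · exact Or.inr (Or.inr (Or.inr ⟨h.1 hx.1, h.2 hx.2⟩))
  · rw [hc5, ← hnn]
    refine hlow XA YB (fun x hx => ?_) (hcard XA (Or.inl rfl)) (fun x hx => ?_)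
    · have := hZ2 YB (Or.inr rfl) x (mem_union_left _ hx)
      rwa [← hnn] at this
    · rw [Finset.mem_product] at hx
      rw [GcB_T_iff]
      exact Or.inl hx
  · rw [hc5, ← hnn]
    refine hlow XB YA (fun x hx => ?_) (hcard XB (Or.inr (Or.inl rfl))) (fun x hx => ?_)
    · have := hZ1 YA (Or.inr rfl) x (mem_union_left _ hx)
      rwa [← hnn] at this
    · rw [Finset.mem_product] at hx
      rw [GcB_T_iff]
      exact Or.inr (Or.inr (Or.inl hx))
  · rw [hc5, ← hnn]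
    have q1 : ee (Hj 3) XA YB = ∑ a ∈ XA, dg (Hj 3) a := by
      apply GcB_ee
      intro a ha b hab
      have n1 := dj hq.d1 ha
      have n2 := dj hq.d2 ha
      have n3 := dj hq.d3 ha
      have := h5 a b hab
      tauto
    have q2 : ee (Hj 3) XB YA = ∑ a ∈ XB, dg (Hj 3) a := by
      apply GcB_ee
      intro a ha b hab
      have n1 := dj hq.d1.symm ha
      have n2 := dj hq.d4 ha
      have n3 := dj hq.d5 ha
      have := h5 a b hab
      tauto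
    have q3 : ∀ X : Finset V, |((∑ a ∈ X, dg (Hj 3) a : ℕ) : ℝ) - X.card * ((w3 : ℝ) / (2 * Q) * Δ)| ≤
        X.card * (3 * e * n) := by
      intro X
      have r1 : ((∑ a ∈ X, dg (Hj 3) a : ℕ) : ℝ) - X.card * ((w3 : ℝ) / (2 * Q) * Δ) =
          ∑ a ∈ X, ((dg (Hj 3) a : ℝ) - (w3 : ℝ) / (2 * Q) * Δ) := by
        rw [Finset.sum_sub_distrib, Finset.sum_const, nsmul_eq_mul]
        push_cast
        ring
      rw [r1]
      refine (Finset.abs_sum_le_sum_abs _ _).trans ?_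
      rw [← nsmul_eq_mul]
      exact Finset.sum_le_card_nsmul _ _ _ fun a _ => (hdT a).2.2
    have q4 := q3 XA
    have q5 := q3 XB
    rw [← hq.cX] at q5
    rw [q1, q2]
    have q6 : (XA.card : ℝ) ≤ n := by
      rw [hnn]
      exact_mod_cast Finset.card_le_univ XA
    have q7 : (XA.card : ℝ) * (3 * e * n) ≤ n * (3 * e * n) :=
      mul_le_mul_of_nonneg_right q6 (by positivity)
    have q8 : 6 * (e * n ^ 2) ≤ ρ * n ^ 2 := by
      have := mul_le_mul_of_nonneg_right (show 6 * e ≤ ρ by linarith) (sq_nonneg n)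
      linarith
    have q9 : n * (3 * e * n) = 3 * (e * n ^ 2) := by ring
    rw [abs_le] at q4 q5 ⊢
    constructor <;> linarith [q4.1, q4.2, q5.1, q5.2]

end Pool.Agent.H71.TD
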