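import Mathlib
import Pool.Agent.H71.TD.Defs

/-!
KNG: a `t`-regular bipartite graph is the union of `t` perfect matchings (König).

Proof.  Induction on `t`. `t = 0`: `mm` is arbitrary (say constant `id`; `PM` for `L = 0` is empty). `t + 1`: by Hall's theorem (`Finset.all_card_le_biUnion_card_iff_exists_injective` for the sets `N(v)`, `v ∈ P`, as a family
indexed by the subtype of `P`) there is an injective `f` with `B.Adj v (f v)`, `v ∈ P`: for a set `S ⊆ P` the `(t + 1) #S` edges at `S` go to `N(S)`, which is disjoint from `P`, and every vertex of `N(S)` has at most `t + 1` of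
them. Double counting of the edges (`(t + 1) #P = (t + 1) #(univ \ P)`) shows that `f` maps onto the complement of `P`. Define `m v = f v` for `v ∈ P` and `m (f v) = v`: a fixed point free involution with `B.Adj v (m v)`. The graph
`B'.Adj a b := B.Adj a b ∧ m a ≠ b` is `t`-regular and bipartite; use the induction hypothesis and `mm t := m`.
-/

set_option autoImplicit false

namespace Pool.Agent.H71.TD

open Finset Classical
open Pool.Agent.H71.DN Pool.Agent.H71.DX Pool.Agent.H71.DR Pool.Agent.H71.HL Pool.Agent.H71.DC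

theorem Kng_hall {V : Type} [Fintype V] (B : SimpleGraph V) (t : ℕ)
    (hreg : ∀ v, dg B v = t + 1) (s : Finset V) :
    s.card ≤ (s.biUnion fun v => univ.filter fun u => B.Adj v u).card := by
  have h := Finset.card_mul_le_card_mul (s := s)
    (t := s.biUnion fun v => univ.filter fun u => B.Adj v u) (m := t + 1) (n := t + 1)
    (fun a b => B.Adj a b) ?_ ?_
  · exact Nat.le_of_mul_le_mul_right h (Nat.succ_pos t)
  · intro a ha
    rw [← hreg a]
    unfold dg
    refine Finset.card_le_card fun u hu => ?_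
    rw [Finset.mem_filter] at hu
    rw [Finset.mem_bipartiteAbove]
    exact ⟨Finset.mem_biUnion.2 ⟨a, ha, Finset.mem_filter.2 ⟨Finset.mem_univ _, hu.2⟩⟩, hu.2⟩
  · intro b _
    rw [← hreg b]
    unfold dg
    refine Finset.card_le_card fun u hu => ?_
    rw [Finset.mem_bipartiteBelow] at hu
    exact Finset.mem_filter.2 ⟨Finset.mem_univ _, hu.2.symm⟩

theorem Kng_one {V : Type} [Fintype V] (B : SimpleGraph V) (P : Finset V) (hB : Bip B P) (t : ℕ)
    (hreg : ∀ v, dg B v = t + 1) : ∃ m : V → V, Inv m ∧ ∀ v, B.Adj v (m v) := by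
  obtain ⟨f, hf, hadj⟩ := (Finset.all_card_le_biUnion_card_iff_exists_injective
    (fun v => univ.filter fun u => B.Adj v u)).1 (Kng_hall B t hreg)
  have hadj' : ∀ v, B.Adj v (f v) := fun v => (Finset.mem_filter.1 (hadj v)).2
  have hbij : Function.Bijective f := Finite.injective_iff_bijective.1 hf
  obtain ⟨g, hg1, hg2⟩ := Function.bijective_iff_has_inverse.1 hbij
  have hP : ∀ v, v ∈ P ↔ f v ∉ P := fun v => hB v (f v) (hadj' v)
  have hgP : ∀ v, v ∉ P → g v ∈ P := by
    intro v hv
    rw [hP, hg2]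
    exact hv
  refine ⟨fun v => if v ∈ P then f v else g v, fun v => ?_, fun v => ?_⟩
  · by_cases hv : v ∈ P
    · have h1 : f v ∉ P := (hP v).1 hv
      simp only [if_pos hv, if_neg h1]
      exact hg1 v
    · have h1 := hgP v hv
      simp only [if_neg hv, if_pos h1]
      exact hg2 v
  · by_cases hv : v ∈ P
    · simp only [if_pos hv]
      exact hadj' v
    · simp only [if_neg hv]
      have h1 := hadj' (g v)
      rw [hg2] at h1
      exact h1.symm

theorem kng {V : Type} [Fintype V] (B : SimpleGraph V) (P : Finset V) (hB : Bip B P) (t : ℕ)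
    (hreg : ∀ v, dg B v = t) :
    ∃ mm : ℕ → V → V, PM B t (fun _ => ∅) mm ∧ ∀ ℓ < t, ∀ v, mm ℓ v ≠ v := by
  induction t generalizing B with
  | zero =>
    refine ⟨fun _ v => v, ⟨?_, ?_, ?_, ?_⟩, ?_⟩
    · intro ℓ hℓ
      exact absurd hℓ (Nat.not_lt_zero ℓ)
    · intro ℓ hℓ
      exact absurd hℓ (Nat.not_lt_zero ℓ)
    · intro ℓ hℓ
      exact absurd hℓ (Nat.not_lt_zero ℓ)
    · intro ℓ hℓ
      exact absurd hℓ (Nat.not_lt_zero ℓ)
    · intro ℓ hℓ
      exact absurd hℓ (Nat.not_lt_zero ℓ)
  | succ t ih =>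
    obtain ⟨m, hm, hadj⟩ := Kng_one B P hB t hreg
    obtain ⟨B', hB'⟩ : ∃ B' : SimpleGraph V, ∀ a b, B'.Adj a b ↔ B.Adj a b ∧ m a ≠ b := by
      refine ⟨{ Adj := fun a b => B.Adj a b ∧ m a ≠ b, symm := ?_, loopless := ?_ },
        fun a b => Iff.rfl⟩
      · exact ⟨fun a b h => ⟨h.1.symm, fun h2 => h.2 (by rw [← h2, hm])⟩⟩
      · exact ⟨fun a h => B.loopless.irrefl a h.1⟩
    have hreg' : ∀ v, dg B' v = t := by
      intro v
      have h1 : (univ.filter fun u => B'.Adj v u) =
          (univ.filter fun u => B.Adj v u).erase (m v) := by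
        ext u
        rw [Finset.mem_filter, Finset.mem_erase, Finset.mem_filter, hB']
        constructor
        · rintro ⟨h2, h3, h4⟩
          exact ⟨fun h => h4 h.symm, h2, h3⟩
        · rintro ⟨h2, h3, h4⟩
          exact ⟨h3, h4, fun h => h2 h.symm⟩
      have h2 := hreg v
      unfold dg at h2 ⊢
      rw [h1, Finset.card_erase_of_mem (Finset.mem_filter.2 ⟨Finset.mem_univ _, hadj v⟩), h2]
      rfl
    have hbip : Bip B' P := fun a b h => hB a b ((hB' a b).1 h).1
    obtain ⟨mm, hmm, hne⟩ := ih B' hbip hreg'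
    have hadj2 : ∀ ℓ < t, ∀ v, B.Adj v (mm ℓ v) ∧ m v ≠ mm ℓ v := fun ℓ hℓ v =>
      (hB' _ _).1 (hmm.adj ℓ hℓ v (hne ℓ hℓ v))
    have hmne : ∀ v, m v ≠ v := fun v h => B.loopless.irrefl v (by
      have h1 := hadj v
      rwa [h] at h1)
    refine ⟨fun ℓ => if ℓ < t then mm ℓ else m, ⟨?_, ?_, ?_, ?_⟩, ?_⟩
    · intro ℓ _
      by_cases h : ℓ < t
      · simp only [if_pos h]
        exact hmm.inv ℓ h
      · simp only [if_neg h]
        exact hm
    · intro ℓ _ v _
      by_cases h : ℓ < t
      · simp only [if_pos h]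
        exact (hadj2 ℓ h v).1
      · simp only [if_neg h]
        exact hadj v
    · intro ℓ hℓ ℓ' hℓ' hll v hv
      by_cases h : ℓ < t
      · by_cases h' : ℓ' < t
        · simp only [if_pos h, if_pos h'] at hv ⊢
          exact hmm.dis ℓ h ℓ' h' hll v hv
        · simp only [if_pos h, if_neg h'] at hv ⊢
          exact fun h2 => (hadj2 ℓ h v).2 h2.symm
      · by_cases h' : ℓ' < t
        · simp only [if_neg h, if_pos h'] at hv ⊢
          exact (hadj2 ℓ' h' v).2
        · exfalso
          apply hll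
          omega
    · intro ℓ _ v hv
      exact absurd hv (Finset.notMem_empty v)
    · intro ℓ _ v
      by_cases h : ℓ < t
      · simp only [if_pos h]
        exact hne ℓ h v
      · simp only [if_neg h]
        exact hmne v

end Pool.Agent.H71.TD
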