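import Mathlib
import Pool.Agent.H71.TD.Defs
import Pool.Agent.H71.DR.Chk

/-!
CHB: alternating paths through many small expansion steps, bipartite version of `conk` (`DR/Chk.lean`, proved; copy and adapt; the private lemmas about lists have to be copied).

Proof.  As in `DR/Chk.lean`, with `w1 ∈ P`, `w2 ∉ P`; `Bp` and the good vertices are as there, `T = 4 k + 12`. The neighbours of `w1` are outside `P` and `π` maps a covered vertex to the other side, so the levels `C1 i` of `w1`
are subsets of `P`, and the levels `C2 i` of `w2` are disjoint from `P`. `C (i + 1) = π ({u good : T < #{b ∈ C i : F.Adj b u}})`. For a level `C = C1 i ⊆ P` take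
`Y = {u ∉ P : #{b ∈ C : F.Adj b u} ≤ T}`: `Opp P C Y`, `ee F C Y ≤ T n`, so `#Y + b i ≤ #P` by `p0` resp. `ps`; the complement of `P` has `#P` elements (`hP`), so at least `b i` vertices outside `P` have more than `T` neighbours in
`C`, and `#(C (i + 1)) ≥ b i - (2 β + ζ) ≥ b i - q`. The same for `w2` with the sides exchanged. (`#(C 0) ≥ D - 2 β - ζ ≥ m`.) In the end `pz` for `C1 (k + 1) ⊆ P` and `C2 (k + 1)` (disjoint from `P`) gives more than `n` pairs
`(v1, v2)`, `F.Adj v1 v2`; at most `n` of them have `v2 = π v1`; take one with `v2 ≠ π v1` and build the path as there.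
-/

set_option autoImplicit false

namespace Pool.Agent.H71.TD

open Finset Classical
open Pool.Agent.H71.DN Pool.Agent.H71.DX Pool.Agent.H71.DR Pool.Agent.H71.HL Pool.Agent.H71.DC

/-- `w - x1 = π x1 - x2 = π x2 - ... - w2`. -/
private def TdChB_Ch {V : Type} (F : SimpleGraph V) (π : V → V) (w2 : V) : V → List V → Prop
  | w, [] => F.Adj w w2
  | w, x :: L => F.Adj w x ∧ TdChB_Ch F π w2 (π x) L

private theorem TdChB_congr {V : Type} (F : SimpleGraph V) (π π1 : V → V) (w2 : V) :
    ∀ (L : List V) (w : V), (∀ x ∈ L, π1 x = π x) → TdChB_Ch F π w2 w L → TdChB_Ch F π1 w2 w L := by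
  intro L
  induction L with
  | nil => intro w _ h; exact h
  | cons x L ih =>
    intro w h1 h2
    refine ⟨h2.1, ?_⟩
    rw [h1 x List.mem_cons_self]
    exact ih _ (fun y hy => h1 y (List.mem_cons_of_mem _ hy)) h2.2

private theorem TdChB_path {V : Type} (F : SimpleGraph V) (w2 : V) :
    ∀ (L : List V) (π : V → V) (w : V), Inv π → π w = w → π w2 = w2 → w ≠ w2 →
      (∀ x ∈ L, π x ≠ x) → L.Pairwise (fun x y => y ≠ x ∧ y ≠ π x) → TdChB_Ch F π w2 w L →
      ∃ π' : V → V, Inv π' ∧
        (∀ v, (v = w ∨ v = w2 ∨ v ∈ L ∨ π v ∈ L) → F.Adj v (π' v)) ∧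
        (∀ v, v ≠ w → v ≠ w2 → v ∉ L → π v ∉ L → π' v = π v) := by
  intro L
  induction L with
  | nil =>
    intro π w hπ hw hw2 hne _ _ hch
    obtain ⟨π', i, h1, h2, h3⟩ := join π hπ w w2 hne hw hw2
    refine ⟨π', i, ?_, fun v h4 h5 _ _ => h3 v h4 h5⟩
    rintro v (rfl | rfl | h | h)
    · rw [h1]; exact hch
    · rw [h2]; exact (show F.Adj w v from hch).symm
    · exact absurd h List.not_mem_nil
    · exact absurd h List.not_mem_nil
  | cons x L ih =>
    intro π w hπ hw hw2 hne hfx hpw hch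
    have hx : π x ≠ x := hfx x List.mem_cons_self
    have hwxa : F.Adj w x := hch.1
    obtain ⟨π1, i1, r1w, r1x, r1a, r1o⟩ := rot π hπ w x hw hx
    rw [List.pairwise_cons] at hpw
    have hfL : ∀ y ∈ L, π y ≠ y := fun y hy => hfx y (List.mem_cons_of_mem _ hy)
    have hwL : w ∉ L := fun h => hfL w h hw
    have hxL : x ∉ L := fun h => (hpw.1 x h).1 rfl
    have hpxL : π x ∉ L := fun h => (hpw.1 _ h).2 rfl
    have hwx : w ≠ x := fun h => hx (by rw [← h]; exact hw)
    have hwpx : w ≠ π x := fun h => hwx (by rw [← hw, h, hπ x] )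
    have hw2x : w2 ≠ x := fun h => hx (by rw [← h]; exact hw2)
    have hw2px : w2 ≠ π x := fun h => hw2x (by rw [← hw2, h, hπ x])
    have q1 : ∀ y ∈ L, π1 y = π y := by
      intro y hy
      refine r1o y ?_ ?_ ?_
      · rintro rfl; exact hwL hy
      · rintro rfl; exact hxL hy
      · rintro rfl; exact hpxL hy
    have q2 : π1 w2 = w2 := by rw [r1o w2 hne.symm hw2x hw2px, hw2]
    have q3 : L.Pairwise (fun x y => y ≠ x ∧ y ≠ π1 x) := by
      refine List.Pairwise.imp_of_mem ?_ hpw.2
      intro a b ha _ h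
      rw [q1 a ha]
      exact h
    obtain ⟨π', i, hA, hB⟩ := ih π1 (π x) i1 r1a q2 hw2px.symm
      (fun y hy => by rw [q1 y hy]; exact hfL y hy) q3 (TdChB_congr F π π1 w2 L _ q1 hch.2)
    refine ⟨π', i, ?_, ?_⟩
    · rintro v (rfl | rfl | h | h)
      · have h4 : π' v = π1 v := hB v hwpx hne hwL (by rw [r1w]; exact hxL)
        rw [h4, r1w]
        exact hch.1
      · exact hA v (Or.inr (Or.inl rfl))
      · rcases List.mem_cons.1 h with rfl | h
        · have h4 : π' v = π1 v := hB v hx.symm hw2x.symm hxL (by rw [r1x]; exact hwL)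
          rw [h4, r1x]
          exact hwxa.symm
        · exact hA v (Or.inr (Or.inr (Or.inl h)))
      · rcases List.mem_cons.1 h with h5 | h5
        · refine hA v (Or.inl ?_)
          rw [← h5, hπ v]
        · refine hA v (Or.inr (Or.inr (Or.inr ?_)))
          rw [r1o v]
          · exact h5
          · intro h6; rw [h6, hw] at h5; exact hwL h5
          · intro h6; rw [h6] at h5; exact hpxL h5
          · intro h6; rw [h6, hπ x] at h5; exact hxL h5
    · intro v h1 h2 h3 h4
      rw [List.mem_cons, not_or] at h3 h4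
      have h5 : v ≠ π x := by
        rintro rfl
        exact h4.1 (hπ x)
      have h6 : π1 v = π v := r1o v h1 h3.1 h5
      rw [hB v h5 h2 h3.2 (by rw [h6]; exact h4.2), h6]

/-- Chains with an open end: `w - x1 = π x1 - ... = π x_l`. -/
private def TdChB_Cn {V : Type} (F : SimpleGraph V) (π : V → V) (v : V) : V → List V → Prop
  | w, [] => w = v
  | w, x :: L => F.Adj w x ∧ TdChB_Cn F π v (π x) L

private theorem TdChB_snoc {V : Type} (F : SimpleGraph V) (π : V → V) (b u : V)
    (hbu : F.Adj b u) : ∀ (L : List V) (w : V), TdChB_Cn F π b w L →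
      TdChB_Cn F π (π u) w (L ++ [u]) := by
  intro L
  induction L with
  | nil =>
    intro w h
    have h1 : w = b := h
    refine ⟨?_, rfl⟩
    rw [h1]
    exact hbu
  | cons x L ih =>
    intro w h
    exact ⟨h.1, ih _ h.2⟩

private theorem TdChB_app {V : Type} (F : SimpleGraph V) (π : V → V) (v w2 : V) (L2 : List V)
    (h2 : TdChB_Ch F π w2 v L2) : ∀ (L : List V) (w : V), TdChB_Cn F π v w L →
      TdChB_Ch F π w2 w (L ++ L2) := by
  intro L
  induction L with
  | nil =>
    intro w h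
    have h1 : w = v := h
    rw [h1]
    exact h2
  | cons x L ih =>
    intro w h
    exact ⟨h.1, ih _ h.2⟩

private theorem TdChB_end {V : Type} (F : SimpleGraph V) (π : V → V) (v w2 : V)
    (h2 : F.Adj v w2) (L : List V) (w : V) (h : TdChB_Cn F π v w L) :
    TdChB_Ch F π w2 w L := by
  have h3 := TdChB_app F π v w2 [] h2 L w h
  rw [List.append_nil] at h3
  exact h3

private theorem TdChB_csn {V : Type} (F : SimpleGraph V) (π : V → V) (z w2 : V)
    (hz : F.Adj (π z) w2) : ∀ (M : List V) (u : V), TdChB_Ch F π z u M →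
      TdChB_Ch F π w2 u (M ++ [z]) := by
  intro M
  induction M with
  | nil =>
    intro u h
    exact ⟨h, hz⟩
  | cons x M ih =>
    intro u h
    exact ⟨h.1, ih _ h.2⟩

private theorem TdChB_rev {V : Type} (F : SimpleGraph V) (π : V → V) (hπ : Inv π) (v u : V)
    (huv : F.Adj u v) : ∀ (L : List V) (w2 : V), TdChB_Cn F π v w2 L →
      TdChB_Ch F π w2 u (L.map π).reverse := by
  intro L
  induction L with
  | nil =>
    intro w2 h
    have h1 : w2 = v := h
    rw [h1]
    exact huv
  | cons y L ih =>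
    intro w2 h
    have h1 := ih _ h.2
    rw [List.map_cons, List.reverse_cons]
    refine TdChB_csn F π (π y) w2 ?_ _ _ h1
    rw [hπ y]
    exact h.1.symm

/-- The levels. -/
private noncomputable def TdChB_C {V : Type} [Fintype V] (F : SimpleGraph V) (π : V → V)
    (G : Finset V) (T : ℕ) (w : V) : ℕ → Finset V
  | 0 => G.filter fun v => F.Adj w (π v)
  | i + 1 => G.filter fun v =>
      T < ((TdChB_C F π G T w i).filter fun b => F.Adj b (π v)).card

private theorem TdChB_CG {V : Type} [Fintype V] (F : SimpleGraph V) (π : V → V)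
    (G : Finset V) (T : ℕ) (w : V) (i : ℕ) (v : V) (h : v ∈ TdChB_C F π G T w i) : v ∈ G := by
  cases i with
  | zero => exact (mem_filter.1 h).1
  | succ i => exact (mem_filter.1 h).1

/-- The lists that end in a vertex of a level. -/
private theorem TdChB_star {V : Type} [Fintype V] (F : SimpleGraph V) (π : V → V) (hπ : Inv π)
    (G : Finset V) (hG : ∀ v ∈ G, π v ∈ G) (T : ℕ) (w : V) :
    ∀ (i : ℕ) (X : Finset V), (∀ v ∈ X, π v ∈ X) → X.card + 2 * i ≤ T →
      ∀ v ∈ TdChB_C F π G T w i, v ∉ X →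
      ∃ L : List V, L.length = i + 1 ∧ (∀ x ∈ L, x ∈ G ∧ x ∉ X) ∧
        L.Pairwise (fun x y => y ≠ x ∧ y ≠ π x) ∧ TdChB_Cn F π v w L := by
  intro i
  induction i with
  | zero =>
    intro X hX _ v hv hvX
    have h1 := mem_filter.1 hv
    refine ⟨[π v], rfl, ?_, List.pairwise_singleton _ _, h1.2, hπ v⟩
    intro x hx
    rw [List.mem_singleton] at hx
    rw [hx]
    refine ⟨hG v h1.1, fun h => hvX ?_⟩
    have := hX _ h
    rw [hπ v] at this
    exact this
  | succ i ih =>
    intro X hX hc v hv hvX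
    have h1 := mem_filter.1 hv
    have hvG : v ∈ G := h1.1
    have hcard := h1.2
    have hX3 : (insert (π v) (insert v X)).card ≤ X.card + 2 := by
      have := card_insert_le (π v) (insert v X)
      have := card_insert_le v X
      omega
    obtain ⟨b, hb, hbX⟩ : ∃ b ∈ (TdChB_C F π G T w i).filter (fun b => F.Adj b (π v)),
        b ∉ insert (π v) (insert v X) := by
      apply exists_mem_notMem_of_card_lt_card
      omega
    rw [mem_filter] at hb
    have hX' : ∀ u ∈ insert (π v) (insert v X), π u ∈ insert (π v) (insert v X) := by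
      intro u hu
      rw [mem_insert, mem_insert] at hu ⊢
      rcases hu with rfl | rfl | h
      · exact Or.inr (Or.inl (hπ v))
      · exact Or.inl rfl
      · exact Or.inr (Or.inr (hX u h))
    obtain ⟨L, hl, hL, hp, hch⟩ := ih (insert (π v) (insert v X)) hX' (by omega) b hb.1 hbX
    have hpvX : π v ∉ X := by
      intro h
      have := hX _ h
      rw [hπ v] at this
      exact hvX this
    refine ⟨L ++ [π v], ?_, ?_, ?_, ?_⟩
    · rw [List.length_append, hl]
      rfl
    · intro x hx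
      rw [List.mem_append, List.mem_singleton] at hx
      rcases hx with hx | rfl
      · obtain ⟨h3, h4⟩ := hL x hx
        rw [mem_insert, mem_insert, not_or, not_or] at h4
        exact ⟨h3, h4.2.2⟩
      · exact ⟨hG v hvG, hpvX⟩
    · rw [List.pairwise_append]
      refine ⟨hp, List.pairwise_singleton _ _, ?_⟩
      intro x hx y hy
      rw [List.mem_singleton] at hy
      subst hy
      obtain ⟨h3, h4⟩ := hL x hx
      rw [mem_insert, mem_insert, not_or, not_or] at h4
      refine ⟨fun h => h4.1 h.symm, fun h => h4.2.1 ?_⟩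
      rw [← hπ x, ← h, hπ v]
    · have h5 := TdChB_snoc F π b (π v) hb.2 L w hch
      rw [hπ v] at h5
      exact h5

private theorem TdChB_img {V : Type} [Fintype V] (π : V → V) (hπ : Inv π) (G : Finset V)
    (hG : ∀ v ∈ G, π v ∈ G) (p : V → Prop) [DecidablePred p] [DecidablePred fun v => p (π v)] :
    (G.filter fun v => p v).card ≤ (G.filter fun v => p (π v)).card := by
  have hinj : Function.Injective π := fun a b h => by rw [← hπ a, h, hπ b]
  rw [← card_image_of_injective (G.filter fun v => p v) hinj]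
  refine card_le_card ?_
  intro x hx
  rw [mem_image] at hx
  obtain ⟨y, hy, rfl⟩ := hx
  rw [mem_filter] at hy ⊢
  rw [hπ y]
  exact ⟨hG y hy.1, hy.2⟩

/-- The levels are on one side. -/
private theorem TdChB_side {V : Type} [Fintype V] (F : SimpleGraph V) (P S : Finset V)
    (hS : (∀ v, v ∈ S ↔ v ∈ P) ∨ (∀ v, v ∈ S ↔ v ∉ P)) (hF : Bip F P) (π : V → V)
    (G : Finset V) (hGf : ∀ v ∈ G, (v ∈ P ↔ π v ∉ P)) (T : ℕ) (w : V) (hw : w ∈ S) :
    ∀ i, ∀ v ∈ TdChB_C F π G T w i, v ∈ S := by
  have key : ∀ b v, b ∈ S → v ∈ G → F.Adj b (π v) → v ∈ S := by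
    intro b v hb hv hadj
    have h1 := hF _ _ hadj
    have h2 := hGf v hv
    rcases hS with h | h
    · rw [h] at hb ⊢
      exact h2.2 (h1.1 hb)
    · rw [h] at hb ⊢
      intro h3
      exact hb (h1.2 (h2.1 h3))
  intro i
  induction i with
  | zero =>
    intro v hv
    have h1 := mem_filter.1 hv
    exact key w v hw h1.1 h1.2
  | succ i ih =>
    intro v hv
    have h1 := mem_filter.1 hv
    obtain ⟨b, hb⟩ := card_pos.1 (lt_of_le_of_lt (Nat.zero_le _) h1.2)
    rw [mem_filter] at hb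
    exact key b v (ih b hb.1) h1.1 hb.2

/-- The sizes of the levels. -/
private theorem TdChB_lev {V : Type} [Fintype V] (F : SimpleGraph V) (P S : Finset V)
    (hS : (∀ v, v ∈ S ↔ v ∈ P) ∨ (∀ v, v ∈ S ↔ v ∉ P)) (hbip : Bip F P)
    (hSc : (univ \ S).card = P.card) (D m k : ℕ) (b : ℕ → ℕ)
    (q ζ : ℕ) (hF : ExkB F P D m k b q ζ) (π : V → V) (hπ : Inv π)
    (G : Finset V) (hG : ∀ v ∈ G, π v ∈ G) (hGf : ∀ v ∈ G, (v ∈ P ↔ π v ∉ P))
    (w : V) (hw : w ∈ S) (B0 Bx : Finset V) (hB1 : m + B0.card ≤ D)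
    (h0 : ∀ x, F.Adj w x → x ∉ G → x ∈ B0) (hB2 : Bx.card ≤ q)
    (hs : ∀ x, x ∉ G → x ∈ Bx) :
    ∀ i ≤ k, b i ≤ (TdChB_C F π G (4 * k + 12) w (i + 1)).card + Bx.card := by
  have hside := TdChB_side F P S hS hbip π G hGf (4 * k + 12) w hw
  have hopp : ∀ A Y : Finset V, (∀ v ∈ A, v ∈ S) → (∀ v ∈ Y, v ∉ S) → Opp P A Y := by
    intro A Y hA hY
    rcases hS with h | h
    · refine Or.inl ⟨fun v hv => (h v).1 (hA v hv), ?_⟩
      rw [Finset.disjoint_left]
      intro v hv hvP
      exact hY v hv ((h v).2 hvP)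
    · refine Or.inr ⟨?_, fun v hv => ?_⟩
      · rw [Finset.disjoint_left]
        intro v hv hvP
        exact (h v).1 (hA v hv) hvP
      · by_contra hvP
        exact hY v hv ((h v).2 hvP)
  have hbase : m ≤ (TdChB_C F π G (4 * k + 12) w 0).card := by
    have h1 := hF.d1 w
    unfold dg at h1
    have h2 : (univ.filter fun u => F.Adj w u) ⊆ (G.filter fun v => F.Adj w v) ∪ B0 := by
      intro x hx
      rw [mem_filter] at hx
      rw [mem_union, mem_filter]
      by_cases h : x ∈ G
      · exact Or.inl ⟨h, hx.2⟩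
      · exact Or.inr (h0 x hx.2 h)
    have h3 := (card_le_card h2).trans (card_union_le _ _)
    have h4 := TdChB_img π hπ G hG (fun v => F.Adj w v)
    have h5 : (TdChB_C F π G (4 * k + 12) w 0) = G.filter fun v => F.Adj w (π v) := rfl
    rw [h5]
    omega
  have hstep : ∀ i ≤ k, ∀ c : ℕ,
      (∀ Y : Finset V, Opp P (TdChB_C F π G (4 * k + 12) w i) Y →
        ee F (TdChB_C F π G (4 * k + 12) w i) Y ≤
        (4 * k + 12) * Fintype.card V → Y.card + c ≤ P.card) →
      c ≤ (TdChB_C F π G (4 * k + 12) w (i + 1)).card + Bx.card := by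
    intro i hi c hc
    obtain ⟨A, hA⟩ : ∃ A : Finset V, A = TdChB_C F π G (4 * k + 12) w i := ⟨_, rfl⟩
    have hA1 : TdChB_C F π G (4 * k + 12) w (i + 1) =
        G.filter fun v => 4 * k + 12 < (A.filter fun a => F.Adj a (π v)).card := by
      rw [hA]
      rfl
    have hAS : ∀ v ∈ A, v ∈ S := by
      rw [hA]
      exact hside i
    rw [← hA] at hc
    obtain ⟨NA, hNA⟩ : ∃ NA : Finset V,
      NA = (univ \ S).filter (fun y => 4 * k + 12 < (A.filter fun a => F.Adj a y).card) :=
      ⟨_, rfl⟩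
    have hNAs : NA ⊆ univ \ S := by
      rw [hNA]
      exact filter_subset _ _
    have h1 := hc ((univ \ S) \ NA) (hopp _ _ hAS (by
        intro v hv
        rw [mem_sdiff, mem_sdiff] at hv
        exact hv.1.2)) (by
      have h5 : ee F A ((univ \ S) \ NA) =
          ∑ y ∈ (univ \ S) \ NA, (A.filter fun a => F.Adj a y).card := by
        unfold ee
        rw [card_filter, sum_product_right]
        refine sum_congr rfl fun y _ => ?_
        rw [card_filter]
      rw [h5]
      have h6 : ∑ y ∈ (univ \ S) \ NA, (A.filter fun a => F.Adj a y).card ≤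
          ∑ y ∈ (univ \ S) \ NA, (4 * k + 12) := by
        refine sum_le_sum fun y hy => ?_
        rw [mem_sdiff, hNA, mem_filter] at hy
        by_contra hcon
        exact hy.2 ⟨hy.1, by omega⟩
      have h7 : ((univ \ S) \ NA).card ≤ Fintype.card V := card_le_univ _
      rw [sum_const, smul_eq_mul] at h6
      refine h6.trans ?_
      rw [mul_comm]
      exact Nat.mul_le_mul_left _ h7)
    have h2 : ((univ \ S) \ NA).card = (univ \ S).card - NA.card := card_sdiff_of_subset hNAs
    have h3 : NA.card ≤ (univ \ S).card := card_le_card hNAs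
    have h4 : NA ⊆ (G.filter fun v => 4 * k + 12 < (A.filter fun a => F.Adj a v).card) ∪ Bx := by
      intro x hx
      rw [hNA, mem_filter] at hx
      rw [mem_union, mem_filter]
      by_cases h : x ∈ G
      · exact Or.inl ⟨h, hx.2⟩
      · exact Or.inr (hs x h)
    have h5 := (card_le_card h4).trans (card_union_le _ _)
    have h6 := TdChB_img π hπ G hG (fun v => 4 * k + 12 < (A.filter fun a => F.Adj a v).card)
    rw [hA1]
    omega
  intro i
  induction i with
  | zero =>
    intro hi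
    exact hstep 0 hi (b 0) (fun Y hO hY => hF.p0 _ Y hO hbase hY)
  | succ i ih =>
    intro hi
    have h1 := ih (by omega)
    exact hstep (i + 1) hi (b (i + 1)) (fun Y hO hY => hF.ps i (by omega) _ Y hO (by omega) hY)

/-- The final step. -/
private theorem TdChB_fin {V : Type} [Fintype V] (F : SimpleGraph V) (π : V → V) (hπ : Inv π)
    (Bl : Finset V) (w1 w2 : V) (hw : w1 ≠ w2) (hw1 : π w1 = w1) (hw2 : π w2 = w2)
    (L : List V) (hf : ∀ x ∈ L, π x ≠ x) (hb : ∀ x ∈ L, x ∉ Bl ∧ π x ∉ Bl)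
    (hp : L.Pairwise (fun x y => y ≠ x ∧ y ≠ π x)) (hch : TdChB_Ch F π w2 w1 L) :
    ∃ π' : V → V, Inv π' ∧ (∀ v, π v ≠ v → π' v ≠ v) ∧ π' w1 ≠ w1 ∧ π' w2 ≠ w2 ∧
      (∀ v, π' v = π v ∨ F.Adj v (π' v)) ∧ (∀ v ∈ Bl, v ≠ w1 → v ≠ w2 → π' v = π v) ∧
      (univ.filter fun v => π' v ≠ π v).card ≤ 2 + 2 * L.length := by
  obtain ⟨π', i, hon, hoff⟩ := TdChB_path F w2 L π w1 hπ hw1 hw2 hw hf hp hch
  refine ⟨π', i, ?_, ?_, ?_, ?_, ?_, ?_⟩
  · intro v hv
    by_cases hvl : v = w1 ∨ v = w2 ∨ v ∈ L ∨ π v ∈ L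
    · exact (F.ne_of_adj (hon v hvl)).symm
    · simp only [not_or] at hvl
      rw [hoff v hvl.1 hvl.2.1 hvl.2.2.1 hvl.2.2.2]
      exact hv
  · exact (F.ne_of_adj (hon w1 (Or.inl rfl))).symm
  · exact (F.ne_of_adj (hon w2 (Or.inr (Or.inl rfl)))).symm
  · intro v
    by_cases hvl : v = w1 ∨ v = w2 ∨ v ∈ L ∨ π v ∈ L
    · exact Or.inr (hon v hvl)
    · simp only [not_or] at hvl
      exact Or.inl (hoff v hvl.1 hvl.2.1 hvl.2.2.1 hvl.2.2.2)
  · intro v hv h3 h4
    refine hoff v h3 h4 (fun h => (hb v h).1 hv) (fun h => ?_)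
    have h5 := (hb _ h).2
    rw [hπ v] at h5
    exact h5 hv
  · have h3 : (univ.filter fun v => π' v ≠ π v) ⊆
        ([w1, w2] ++ (L ++ L.map π) : List V).toFinset := by
      intro v hv
      rw [mem_filter] at hv
      rw [List.mem_toFinset]
      by_contra h
      apply hv.2
      rw [List.mem_append, List.mem_append, not_or, not_or] at h
      obtain ⟨ha, hb', hc⟩ := h
      simp only [List.mem_cons, List.not_mem_nil, not_or, or_false] at ha
      refine hoff v ha.1 ha.2 hb' (fun h4 => hc ?_)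
      rw [List.mem_map]
      exact ⟨π v, h4, hπ v⟩
    refine (card_le_card h3).trans ((List.toFinset_card_le _).trans (le_of_eq ?_))
    rw [List.length_append, List.length_append, List.length_map]
    have : ([w1, w2] : List V).length = 2 := rfl
    omega

theorem conkB {V : Type} [Fintype V] (F : SimpleGraph V) (P : Finset V) (hF : Bip F P)
    (hP : P.card = (univ \ P).card) (D m k : ℕ) (b : ℕ → ℕ) (q ζ β : ℕ)
    (hE : ExkB F P D m k b q ζ) (h1 : ζ + 2 * β + m ≤ D) (h2 : ζ + 2 * β + 1 ≤ q)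
    (h3 : ζ + q ≤ b k) : ConB F P ζ β (4 * k + 10) := by
  intro π hπ hπP Bl hBl hZ w1 w2 hw1P hw2P hw1 hw2
  have hw : w1 ≠ w2 := by
    rintro rfl
    exact hw2P hw1P
  -- the bad vertices
  obtain ⟨Bp, hBp⟩ : ∃ Bp : Finset V, Bp = (Bl ∪ Bl.image π) ∪
      univ.filter (fun v => π v = v ∧ v ∉ Bl) := ⟨_, rfl⟩
  have hBpc : Bp.card ≤ 2 * β + ζ := by
    rw [hBp]
    have h3 := card_union_le (Bl ∪ Bl.image π) (univ.filter (fun v => π v = v ∧ v ∉ Bl))
    have h4 := card_union_le Bl (Bl.image π)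
    have h5 : (Bl.image π).card ≤ Bl.card := card_image_le
    omega
  have hBpi : ∀ v, v ∈ Bp → π v ∈ Bp := by
    intro v hv
    rw [hBp] at hv ⊢
    simp only [mem_union, mem_image, mem_filter, mem_univ, true_and] at hv ⊢
    rcases hv with (h | ⟨u, h, rfl⟩) | ⟨h, h'⟩
    · exact Or.inl (Or.inr ⟨v, h, rfl⟩)
    · rw [hπ u]
      exact Or.inl (Or.inl h)
    · right
      rw [h]
      exact ⟨h, h'⟩
  have hBpn : ∀ v, v ∉ Bp → π v ∉ Bp := by
    intro v hv h
    have := hBpi _ h
    rw [hπ v] at this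
    exact hv this
  have hBpf : ∀ v, π v = v → v ∈ Bp := by
    intro v hv
    rw [hBp]
    simp only [mem_union, mem_image, mem_filter, mem_univ, true_and]
    by_cases h : v ∈ Bl
    · exact Or.inl (Or.inl h)
    · exact Or.inr ⟨hv, h⟩
  have hBpB : ∀ v, v ∈ Bl → v ∈ Bp := by
    intro v hv
    rw [hBp]
    exact mem_union_left _ (mem_union_left _ hv)
  obtain ⟨G, hGd⟩ : ∃ G : Finset V, G = univ \ Bp := ⟨_, rfl⟩
  have hGm : ∀ v, v ∈ G ↔ v ∉ Bp := by
    intro v
    rw [hGd, mem_sdiff]
    exact ⟨fun h => h.2, fun h => ⟨mem_univ _, h⟩⟩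
  have hG : ∀ v ∈ G, π v ∈ G := fun v hv => (hGm _).2 (hBpn v ((hGm v).1 hv))
  have hGB : ∀ x, x ∉ G → x ∈ Bp := fun x hx => by
    by_contra h
    exact hx ((hGm x).2 h)
  have hGf : ∀ v ∈ G, (v ∈ P ↔ π v ∉ P) := by
    intro v hv
    exact hπP v (fun h => (hGm v).1 hv (hBpf v h))
  have hc1 : b k ≤ (TdChB_C F π G (4 * k + 12) w1 (k + 1)).card + Bp.card :=
    TdChB_lev F P P (Or.inl fun v => Iff.rfl) hF hP.symm D m k b q ζ hE π hπ G hG hGf w1 hw1P
      Bp Bp (by omega) (fun x _ => hGB x) (by omega) hGB k le_rfl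
  have hPc : (univ \ (univ \ P)).card = P.card := by
    congr 1
    ext v
    simp
  have hc2 : b k ≤ (TdChB_C F π G (4 * k + 12) w2 (k + 1)).card + Bp.card :=
    TdChB_lev F P (univ \ P) (Or.inr fun v => by simp) hF hPc D m k b q ζ hE π hπ G hG hGf w2
      (by simp [hw2P]) Bp Bp (by omega) (fun x _ => hGB x) (by omega) hGB k le_rfl
  have hs1 := TdChB_side F P P (Or.inl fun v => Iff.rfl) hF π G hGf (4 * k + 12) w1 hw1P (k + 1)
  have hs2 := TdChB_side F P (univ \ P) (Or.inr fun v => by simp) hF π G hGf (4 * k + 12) w2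
    (by simp [hw2P]) (k + 1)
  have hex : ∃ v1 ∈ TdChB_C F π G (4 * k + 12) w1 (k + 1),
      ∃ v2 ∈ TdChB_C F π G (4 * k + 12) w2 (k + 1), F.Adj v1 v2 ∧ v2 ≠ π v1 := by
    by_contra hcon
    push Not at hcon
    have h4 := hE.pz (TdChB_C F π G (4 * k + 12) w1 (k + 1))
      (TdChB_C F π G (4 * k + 12) w2 (k + 1)) (Or.inl ⟨hs1, by
        rw [Finset.disjoint_left]
        intro v hv hvP
        have := hs2 v hv
        rw [mem_sdiff] at this
        exact this.2 hvP⟩) (by omega) (by omega)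
    have h5 : ((TdChB_C F π G (4 * k + 12) w1 (k + 1) ×ˢ
        TdChB_C F π G (4 * k + 12) w2 (k + 1)).filter fun x => F.Adj x.1 x.2) ⊆
        (univ : Finset V).image (fun b => (b, π b)) := by
      intro x hx
      rw [mem_filter, mem_product] at hx
      rw [mem_image]
      refine ⟨x.1, mem_univ _, ?_⟩
      have := hcon x.1 hx.1.1 x.2 hx.1.2 hx.2
      rw [← this]
    have h6 := (card_le_card h5).trans card_image_le
    rw [card_univ] at h6
    unfold ee at h4
    omega
  obtain ⟨v1, hv1, v2, hv2, hvv, hne⟩ := hex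
  have hne' : v1 ≠ π v2 := by
    intro h
    apply hne
    rw [h, hπ v2]
  have hnv : v1 ≠ v2 := F.ne_of_adj hvv
  have hx2 : ({v2, π v2} : Finset V).card ≤ 2 := card_le_two
  obtain ⟨l1, ll1, hl1, hp1, hch1⟩ := TdChB_star F π hπ G hG (4 * k + 12) w1 (k + 1)
    ({v2, π v2} : Finset V) (by
      intro v hv
      rw [mem_insert, mem_singleton] at hv ⊢
      rcases hv with rfl | rfl
      · exact Or.inr rfl
      · exact Or.inl (hπ v2)) (by omega) v1 hv1 (by
      rw [mem_insert, mem_singleton, not_or]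
      exact ⟨hnv, hne'⟩)
  have hX2 : (l1 ++ l1.map π).toFinset.card ≤ 2 * (k + 2) := by
    refine (List.toFinset_card_le _).trans (le_of_eq ?_)
    rw [List.length_append, List.length_map, ll1]
    ring
  have hmX : ∀ v, v ∈ (l1 ++ l1.map π).toFinset ↔ v ∈ l1 ∨ π v ∈ l1 := by
    intro v
    rw [List.mem_toFinset, List.mem_append, List.mem_map]
    constructor
    · rintro (h | ⟨u, h, rfl⟩)
      · exact Or.inl h
      · rw [hπ u]
        exact Or.inr h
    · rintro (h | h)
      · exact Or.inl h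
      · exact Or.inr ⟨π v, h, hπ v⟩
  obtain ⟨l2, ll2, hl2, hp2, hch2⟩ := TdChB_star F π hπ G hG (4 * k + 12) w2 (k + 1)
    (l1 ++ l1.map π).toFinset (by
      intro v hv
      rw [hmX] at hv ⊢
      rw [hπ v]
      exact hv.symm) (by omega) v2 hv2 (by
      rw [hmX, not_or]
      constructor
      · intro h
        exact (hl1 v2 h).2 (mem_insert_self _ _)
      · intro h
        exact (hl1 _ h).2 (mem_insert_of_mem (mem_singleton_self _)))
  have hch : TdChB_Ch F π w2 w1 (l1 ++ (l2.map π).reverse) :=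
    TdChB_app F π v1 w2 _ (TdChB_rev F π hπ v2 v1 hvv l2 w2 hch2) l1 w1 hch1
  have hLG : ∀ x ∈ l1 ++ (l2.map π).reverse, x ∈ G := by
    intro x hx
    rw [List.mem_append, List.mem_reverse, List.mem_map] at hx
    rcases hx with h | ⟨y, h, rfl⟩
    · exact (hl1 x h).1
    · exact hG _ (hl2 y h).1
  have hpw : (l1 ++ (l2.map π).reverse).Pairwise (fun x y => y ≠ x ∧ y ≠ π x) := by
    rw [List.pairwise_append]
    refine ⟨hp1, ?_, ?_⟩
    · rw [List.pairwise_reverse, List.pairwise_map]
      refine List.Pairwise.imp ?_ hp2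
      intro a c hac
      constructor
      · intro h
        apply hac.1
        rw [← hπ a, h, hπ c]
      · intro h
        rw [hπ c] at h
        exact hac.2 h.symm
    · intro x hx y hy
      rw [List.mem_reverse, List.mem_map] at hy
      obtain ⟨z, hz, rfl⟩ := hy
      have h5 := (hl2 z hz).2
      rw [hmX, not_or] at h5
      constructor
      · intro h
        rw [h] at h5
        exact h5.2 hx
      · intro h
        have : z = x := by rw [← hπ z, h, hπ x]
        rw [this] at h5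
        exact h5.1 hx
  obtain ⟨π', i, g1, g2, g3, g4, g5, g6⟩ := TdChB_fin F π hπ Bl w1 w2 hw hw1 hw2
    (l1 ++ (l2.map π).reverse)
    (fun x hx h => (hGm x).1 (hLG x hx) (hBpf x h))
    (fun x hx => ⟨fun h => (hGm x).1 (hLG x hx) (hBpB x h),
      fun h => (hGm _).1 (hG x (hLG x hx)) (hBpB _ h)⟩) hpw hch
  refine ⟨π', i, g1, g2, g3, g4, g5, g6.trans (le_of_eq ?_)⟩
  rw [List.length_append, List.length_reverse, List.length_map, ll1, ll2]
  ring

end Pool.Agent.H71.TD
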