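import Mathlib
import Pool.Agent.H71.TD.ChB
import Pool.Agent.H71.DR.Exk

/-!
EXB: the graph `F` of the unused reserve edges has the property `ConB`, bipartite version of `cxk` (`DR/Exk.lean`, proved; copy and adapt). Use only the STATEMENT of `conkB` (`TD/ChB.lean`).

Proof (`h = #P`, `card V = 2 h`).  Put `b i = min ⌊(α/2 + i ν/2) h⌋ ⌊(1 - α/8) h⌋`. We show `ExkB F P D m k b q ζ` and use `conkB`.
(*) If `lam h² ≤ ee Gs A B` and `Opp P A B` then `ee F A B ≥ ee R A B - T ≥ q0 lam h² - T > (4 k + 12) card V`.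
`d1`: `hR1`, `hF1`.
`p0`: `Opp P A Y`, `m ≤ #A`, `ee F A Y ≤ (4 k + 12) card V`. Suppose `#Y + b 0 > h`, `b 0 ≤ (α/2) h`. Every `a ∈ A` has at least `dg Gs a - (h - #Y) ≥ α h - (α/2) h` neighbours in `Y` (its `Gs`-neighbours are all on
 the other side, which has `h` elements and contains `Y`), so `ee Gs A Y ≥ m (α/2) h ≥ lam h²`, against (*).
`ps`: `b i ≤ #A + q`, `ee F A Y ≤ (4 k + 12) card V`, so `ee Gs A Y < lam h²` by (*). If `#A ≤ (1 - α/8) h`: `#A ≥ b i - q ≥ (α/4) h`, so `gro` gives `#Y ≤ h - #A - ν h ≤ h - b i + q - ν h`, and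
 `b (i + 1) ≤ b i + (ν/2) h + 1 ≤ b i + ν h - q`. If `#A > (1 - α/8) h`: take `A' ⊆ A` with `#A' = ⌊(1 - α/8) h⌋`; `gro` gives `#Y ≤ h - #A' - ν h`, and `b (i + 1) ≤ #A'`.
`pz`: `b k = ⌊(1 - α/8) h⌋` since `k ν ≥ 2`. `b k ≤ #A + q`, `ζ ≤ #Y`: every `y ∈ Y` has at least `dg Gs y - (h - #A) ≥ α h - (α/8) h - 1 - q ≥ (α/2) h` neighbours in `A`, so `ee Gs A Y ≥ ζ (α/2) h ≥ lam h²`, and (*).
`ζ + q ≤ 2 q ≤ b k`.
-/

set_option autoImplicit false

namespace Pool.Agent.H71.TD

open Finset Classical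
open Pool.Agent.H71.DN Pool.Agent.H71.DX Pool.Agent.H71.DR Pool.Agent.H71.HL Pool.Agent.H71.DC

theorem ExB_symm {V : Type} {P A Y : Finset V} (h : Opp P A Y) : Opp P Y A := by
  rcases h with ⟨h1, h2⟩ | ⟨h1, h2⟩
  · exact Or.inr ⟨h2, h1⟩
  · exact Or.inl ⟨h2, h1⟩

theorem ExB_sub {V : Type} {P A A' Y : Finset V} (h : Opp P A Y) (hA : A' ⊆ A) : Opp P A' Y := by
  rcases h with ⟨h1, h2⟩ | ⟨h1, h2⟩
  · exact Or.inl ⟨hA.trans h1, h2⟩
  · exact Or.inr ⟨disjoint_of_subset_left hA h1, h2⟩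

/-- At least `d a + #Y - h` neighbours of `a` in `Y` if `Y` is on the other side. -/
theorem ExB_nb {V : Type} [Fintype V] (G : SimpleGraph V) (P : Finset V) (hG : Bip G P)
    (hP : P.card = (univ \ P).card) {A Y : Finset V} (hO : Opp P A Y) (a : V) (ha : a ∈ A) :
    dg G a + Y.card ≤ (Y.filter fun y => G.Adj a y).card + P.card := by
  obtain ⟨Q, hQ1, hQ2, hQ3⟩ : ∃ Q : Finset V, Q.card = P.card ∧ Y ⊆ Q ∧
      ∀ u, G.Adj a u → u ∈ Q := by
    rcases hO with ⟨h1, h2⟩ | ⟨h1, h2⟩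
    · refine ⟨univ \ P, hP.symm, fun y hy => ?_, fun u hu => ?_⟩
      · exact mem_sdiff.2 ⟨mem_univ _, fun h => disjoint_left.1 h2 hy h⟩
      · exact mem_sdiff.2 ⟨mem_univ _, (hG a u hu).1 (h1 ha)⟩
    · refine ⟨P, rfl, h2, fun u hu => ?_⟩
      by_contra hc
      exact disjoint_left.1 h1 ha ((hG a u hu).2 hc)
  have h1 : (univ.filter fun u => G.Adj a u) ⊆ (Y.filter fun y => G.Adj a y) ∪ (Q \ Y) := by
    intro u hu
    by_cases h : u ∈ Y
    · exact mem_union_left _ (mem_filter.2 ⟨h, (mem_filter.1 hu).2⟩)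
    · exact mem_union_right _ (mem_sdiff.2 ⟨hQ3 u (mem_filter.1 hu).2, h⟩)
  have h2 := (card_le_card h1).trans (card_union_le _ _)
  have h3 := card_sdiff_add_card_eq_card hQ2
  unfold dg
  omega

theorem cxkB {V : Type} [Fintype V] (Gs R F : SimpleGraph V) (P : Finset V) (hGs : Bip Gs P)
    (hFP : Bip F P) (hP : P.card = (univ \ P).card) (α ν lam q0 : ℝ)
    (D m k q ζ β S T : ℕ) (hα : 0 < α) (hα1 : α ≤ 1) (hν : 0 < ν) (hl : 0 < lam)
    (hX : XcB Gs P α ν lam) (hk : 2 ≤ k * ν)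
    (hR1 : ∀ v, D + S ≤ dg R v)
    (hR2 : ∀ A B : Finset V, Opp P A B → lam * (P.card : ℝ) ^ 2 ≤ ee Gs A B →
      q0 * (lam * (P.card : ℝ) ^ 2) ≤ ee R A B)
    (hF1 : ∀ v, dg R v ≤ dg F v + S) (hF2 : ∀ A B, ee R A B ≤ ee F A B + T)
    (hT : (T : ℝ) + (4 * k + 12) * Fintype.card V < q0 * (lam * (P.card : ℝ) ^ 2))
    (hm : lam * P.card ≤ α / 2 * m) (hζ : lam * P.card ≤ α / 2 * ζ)
    (hq1 : (q : ℝ) + 2 ≤ ν / 4 * P.card) (hq2 : (q : ℝ) + 2 ≤ α / 8 * P.card)
    (h1 : ζ + 2 * β + m ≤ D) (h2 : ζ + 2 * β + 1 ≤ q) :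
    ConB F P ζ β (4 * k + 10) := by
  have _ := hl
  obtain ⟨N, hN⟩ : ∃ N : ℝ, N = P.card := ⟨_, rfl⟩
  obtain ⟨M, hMdef⟩ : ∃ M : ℕ, M = ⌊(1 - α / 8) * N⌋₊ := ⟨_, rfl⟩
  obtain ⟨b, hb⟩ : ∃ b : ℕ → ℕ, ∀ i : ℕ, b i = min ⌊(α / 2 + i * (ν / 2)) * N⌋₊ M :=
    ⟨_, fun _ => rfl⟩
  have hdeg := hX.deg
  have hgro := hX.gro
  rw [← hN] at hR2 hT hm hζ hq1 hq2 hdeg hgro
  have hq0 : (0 : ℝ) ≤ q := Nat.cast_nonneg _
  have hNp : 0 < N := by
    by_contra h
    have : ν / 4 * N ≤ 0 := mul_nonpos_of_nonneg_of_nonpos (by linarith) (not_lt.1 h)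
    linarith
  have hαN : 0 < α * N := mul_pos hα hNp
  have hνN : 0 < ν * N := mul_pos hν hNp
  have hαN1 : α * N ≤ N := by nlinarith
  -- the bounds of `M`
  have hM1 : (M : ℝ) ≤ (1 - α / 8) * N := by
    rw [hMdef]
    exact Nat.floor_le (mul_nonneg (by linarith) hNp.le)
  have hM2 : (1 - α / 8) * N < M + 1 := by
    rw [hMdef]
    exact Nat.lt_floor_add_one _
  -- the bounds of `b`
  have hbx : ∀ i : ℕ, 0 ≤ (α / 2 + i * (ν / 2)) * N := by
    intro i
    positivity
  have hb1 : ∀ i : ℕ, (b i : ℝ) ≤ (α / 2 + i * (ν / 2)) * N := by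
    intro i
    have h1 : b i ≤ ⌊(α / 2 + i * (ν / 2)) * N⌋₊ := by
      rw [hb i]
      exact min_le_left _ _
    have h2 : (b i : ℝ) ≤ (⌊(α / 2 + i * (ν / 2)) * N⌋₊ : ℝ) := by exact_mod_cast h1
    exact h2.trans (Nat.floor_le (hbx i))
  have hb2 : ∀ i : ℕ, b i ≤ M := by
    intro i
    rw [hb i]
    exact min_le_right _ _
  have hb3 : ∀ i : ℕ, (α / 2 + i * (ν / 2)) * N < b i + 1 ∨ b i = M := by
    intro i
    rcases le_total ⌊(α / 2 + i * (ν / 2)) * N⌋₊ M with h | h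
    · left
      rw [hb i, min_eq_left h]
      exact Nat.lt_floor_add_one _
    · right
      rw [hb i, min_eq_right h]
  have key : ∀ A B : Finset V, Opp P A B → lam * N ^ 2 ≤ ee Gs A B →
      (4 * k + 12) * (Fintype.card V : ℝ) < ee F A B := by
    intro A B hO h
    have h1 := hR2 A B hO h
    have h2 : (ee R A B : ℝ) ≤ ee F A B + T := by exact_mod_cast hF2 A B
    linarith
  have key2 : ∀ A Y : Finset V, Opp P A Y → ee F A Y ≤ (4 * k + 12) * Fintype.card V →
      (ee Gs A Y : ℝ) ≤ lam * N ^ 2 := by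
    intro A Y hO h
    by_contra hcon
    have h1 := key A Y hO (not_le.1 hcon).le
    have h2 : (ee F A Y : ℝ) ≤ (4 * k + 12) * (Fintype.card V : ℝ) := by
      exact_mod_cast h
    linarith
  have hnb : ∀ (A Y : Finset V), Opp P A Y → ∀ a ∈ A, α * N + Y.card - N ≤
      ((Y.filter fun y => Gs.Adj a y).card : ℝ) := by
    intro A Y hO a ha
    have h1 : (dg Gs a : ℝ) + Y.card ≤ (Y.filter fun y => Gs.Adj a y).card + N := by
      rw [hN]
      exact_mod_cast ExB_nb Gs P hGs hP hO a ha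
    have h2 := hdeg a
    linarith
  have hlow : ∀ x : ℝ, lam * N ≤ α / 2 * x → lam * N ^ 2 ≤ x * (α / 2 * N) := by
    intro x hx
    have h1 := mul_le_mul_of_nonneg_right hx hNp.le
    have h2 : α / 2 * x * N = x * (α / 2 * N) := by ring
    have h3 : lam * N * N = lam * N ^ 2 := by ring
    linarith
  have hbk : b k = M := by
    rw [hb k]
    refine min_eq_right ?_
    rw [hMdef]
    refine Nat.floor_mono (mul_le_mul_of_nonneg_right ?_ hNp.le)
    linarith
  have hEx : ExkB F P D m k b q ζ := by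
    refine ⟨fun v => ?_, fun A Y hO hA hAY => ?_, fun i _ A Y hO hA hAY => ?_,
      fun A Y hO hA hY => ?_⟩
    · have h1 := hR1 v
      have h2 := hF1 v
      omega
    · by_contra hcon
      push Not at hcon
      have hY : N < Y.card + b 0 := by
        rw [hN]
        exact_mod_cast hcon
      have hAY' : (ee F A Y : ℝ) ≤ (4 * k + 12) * (Fintype.card V : ℝ) := by
        exact_mod_cast hAY
      have hA' : (m : ℝ) ≤ A.card := by exact_mod_cast hA
      have hb0 := hb1 0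
      push_cast at hb0
      have h1 : ∀ a ∈ A, α / 2 * N ≤ ((Y.filter fun y => Gs.Adj a y).card : ℝ) := by
        intro a ha
        have h2 := hnb A Y hO a ha
        linarith
      have h2 := Exk_lowL Gs A Y m (α / 2 * N) (by positivity) hA' h1
      have h3 := key A Y hO ((hlow m hm).trans h2)
      linarith
    · have hGs' := key2 A Y hO hAY
      have hA' : (b i : ℝ) ≤ A.card + q := by exact_mod_cast hA
      have hbi : α * N / 4 + q ≤ b i := by
        rcases hb3 i with h | h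
        · have h2 : 0 ≤ (i : ℝ) * (ν / 2) * N := by positivity
          have h3 : (α / 2 + i * (ν / 2)) * N = α / 2 * N + i * (ν / 2) * N := by ring
          linarith
        · rw [h]
          linarith
      suffices h : (Y.card : ℝ) + b (i + 1) ≤ N by
        rw [hN] at h
        exact_mod_cast h
      rcases le_total (A.card : ℝ) ((1 - α / 8) * N) with hc | hc
      · have h1 := hgro A Y hO (by linarith) hc hGs'
        have h2 : (b (i + 1) : ℝ) + q ≤ b i + ν * N := by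
          rcases hb3 i with h | h
          · have h3 := hb1 (i + 1)
            have h4 : (α / 2 + ((i + 1 : ℕ) : ℝ) * (ν / 2)) * N =
                (α / 2 + i * (ν / 2)) * N + ν * N / 2 := by
              push_cast
              ring
            linarith
          · have h3 : (b (i + 1) : ℝ) ≤ b i := by
              rw [h]
              exact_mod_cast hb2 (i + 1)
            linarith
        linarith
      · have h0 : M ≤ A.card := by
          have h1 : (M : ℝ) ≤ A.card := hM1.trans hc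
          exact_mod_cast h1
        obtain ⟨A', hA1, hA2⟩ := exists_subset_card_eq h0
        have h1 : (ee Gs A' Y : ℝ) ≤ ee Gs A Y := by
          exact_mod_cast Exk_mono Gs A A' Y hA1
        have h2 := hgro A' Y (ExB_sub hO hA1) (by rw [hA2]; linarith)
          (by rw [hA2]; exact hM1) (h1.trans hGs')
        have h3 : (b (i + 1) : ℝ) ≤ A'.card := by
          rw [hA2]
          exact_mod_cast hb2 (i + 1)
        linarith
    · rw [hbk] at hA
      have hA' : (M : ℝ) ≤ A.card + q := by exact_mod_cast hA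
      have hY' : (ζ : ℝ) ≤ Y.card := by exact_mod_cast hY
      have h1 : ∀ y ∈ Y, α / 2 * N ≤ ((A.filter fun a => Gs.Adj y a).card : ℝ) := by
        intro y hy
        have h2 := hnb Y A (ExB_symm hO) y hy
        linarith
      have h2 := Exk_lowR Gs A Y ζ (α / 2 * N) (by positivity) hY' h1
      have h3 := key A Y hO ((hlow ζ hζ).trans h2)
      have h4 : (Fintype.card V : ℝ) < ee F A Y := by
        have h5 : 0 ≤ (k : ℝ) * (Fintype.card V : ℝ) := by positivity
        have h6 : 0 ≤ (Fintype.card V : ℝ) := Nat.cast_nonneg _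
        linarith
      exact_mod_cast h4
  have h3 : ζ + q ≤ b k := by
    rw [hbk]
    have h4 : (ζ : ℝ) ≤ q := by
      have h5 : ζ ≤ q := by omega
      exact_mod_cast h5
    have h6 : (ζ : ℝ) + q < M + 1 := by linarith
    have h7 : ζ + q < M + 1 := by exact_mod_cast h6
    omega
  exact conkB F P hFP hP D m k b q ζ β hEx h1 h2 h3

end Pool.Agent.H71.TD
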