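import Mathlib
import Pool.Agent.H71.TD.Defs
import Pool.Agent.H71.DR.Lb3

/-!
LBB: one label, bipartite version of `lab3` (`DR/Lb3.lean`, proved; copy and adapt). `P` and its complement are the two sides.

Proof.  As for `lab3`: strong induction on the number of uncovered vertices outside `U`. All the matchings are bipartite (`π v ≠ v` implies that exactly one of `v, π v` is in `P`): this is
so for `π0` (`hπP`), and it is preserved since `π' v = π v ∨ F.Adj v (π' v)` and `F` is bipartite. `#(P \ U) = #((univ \ P) \ U)` and `π0` (which fixes `U`) gives a bijection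
between the covered vertices of `P \ U` and those of `(univ \ P) \ U` (`v ↦ π0 v`), so the numbers of uncovered vertices outside `U` in `P` and outside `P` are equal. If there is an uncovered
vertex outside `U` then there are such vertices `w1 ∈ P`, `w2 ∉ P`; use `hC` for them.
-/

set_option autoImplicit false

namespace Pool.Agent.H71.TD

open Finset Classical
open Pool.Agent.H71.DN Pool.Agent.H71.DX Pool.Agent.H71.DR Pool.Agent.H71.HL Pool.Agent.H71.DC

theorem LbB_mul (N : ℕ) {j k : ℕ} (h : j < k) : N * j + N ≤ N * k := by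
  calc N * j + N = N * (j + 1) := by ring
    _ ≤ N * k := Nat.mul_le_mul_left N h

/-- The numbers of uncovered vertices outside `U` on the two sides are equal. -/
theorem LbB_bal {V : Type} [Fintype V] (P : Finset V) (π : V → V) (hπ : Inv π)
    (hπP : ∀ v, π v ≠ v → (v ∈ P ↔ π v ∉ P)) (U : Finset V) (hU : ∀ v ∈ U, π v = v)
    (hbal : (P \ U).card = ((univ \ P) \ U).card) :
    ((P \ U).filter fun v => π v = v).card = (((univ \ P) \ U).filter fun v => π v = v).card := by
  have hUn : ∀ v, v ∉ U → π v ≠ v → π v ∉ U := by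
    intro v _ hv h
    have h1 := hU (π v) h
    rw [hπ v] at h1
    exact hv h1.symm
  have hcov : ((P \ U).filter fun v => ¬ π v = v).card =
      (((univ \ P) \ U).filter fun v => ¬ π v = v).card := by
    refine card_bij' (fun v _ => π v) (fun v _ => π v) ?_ ?_ ?_ ?_
    · intro v hv
      rw [mem_filter, mem_sdiff] at hv
      rw [mem_filter, mem_sdiff, mem_sdiff]
      refine ⟨⟨⟨mem_univ _, (hπP v hv.2).1 hv.1.1⟩, hUn v hv.1.2 hv.2⟩, ?_⟩
      intro h
      rw [hπ v] at h
      exact hv.2 h.symm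
    · intro v hv
      rw [mem_filter, mem_sdiff, mem_sdiff] at hv
      rw [mem_filter, mem_sdiff]
      refine ⟨⟨?_, hUn v hv.1.2 hv.2⟩, ?_⟩
      · by_contra h
        exact hv.1.1.2 ((hπP v hv.2).2 h)
      · intro h
        rw [hπ v] at h
        exact hv.2 h.symm
    · intro v _
      exact hπ v
    · intro v _
      exact hπ v
  have h1 := card_filter_add_card_filter_not (s := P \ U) (fun v => π v = v)
  have h2 := card_filter_add_card_filter_not (s := (univ \ P) \ U) (fun v => π v = v)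
  omega

theorem labB {V : Type} [Fintype V] (F : SimpleGraph V) (P : Finset V) (hF : Bip F P)
    (ζ β N : ℕ) (hC : ConB F P ζ β N)
    (π0 : V → V) (hπ : Inv π0) (hπP : ∀ v, π0 v ≠ v → (v ∈ P ↔ π0 v ∉ P))
    (U Bl : Finset V) (hUB : U ⊆ Bl) (hBl : Bl.card ≤ β)
    (hU : ∀ v ∈ U, π0 v = v) (hbal : (P \ U).card = ((univ \ P) \ U).card)
    (hζ : (univ.filter fun v => π0 v = v ∧ v ∉ U).card ≤ ζ) :
    ∃ π' : V → V, Inv π' ∧ (∀ v ∈ U, π' v = v) ∧ (∀ v, v ∉ U → π' v ≠ v) ∧
      (∀ v, π' v = π0 v ∨ F.Adj v (π' v)) ∧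
      (∀ v ∈ Bl, π0 v ≠ v → π' v = π0 v) ∧
      (univ.filter fun v => π' v ≠ π0 v).card ≤
        N * (univ.filter fun v => π0 v = v ∧ v ∉ U).card := by
  obtain ⟨W, hW⟩ : ∃ W : Finset V, W = univ.filter fun v => π0 v = v ∧ v ∉ U := ⟨_, rfl⟩
  have hmW : ∀ v, v ∈ W ↔ π0 v = v ∧ v ∉ U := by
    intro v
    rw [hW, mem_filter]
    exact ⟨fun h => h.2, fun h => ⟨mem_univ _, h⟩⟩
  rw [← hW] at hζ ⊢
  have hUfix : ∀ π : V → V, (∀ v ∈ Bl, v ∉ W → π v = π0 v) → ∀ v ∈ U, π v = v := by
    intro π h4 v hv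
    rw [h4 v (hUB hv) (fun h => ((hmW v).1 h).2 hv), hU v hv]
  -- bipartiteness of the matchings
  have hbip : ∀ π : V → V, (∀ v, π v = π0 v ∨ F.Adj v (π v)) →
      ∀ v, π v ≠ v → (v ∈ P ↔ π v ∉ P) := by
    intro π h v hv
    rcases h v with h' | h'
    · rw [h'] at hv ⊢
      exact hπP v hv
    · exact hF v (π v) h'
  -- composition of changes
  have hcomp : ∀ π π1 : V → V, (univ.filter fun v => π1 v ≠ π0 v).card ≤
      (univ.filter fun v => π1 v ≠ π v).card + (univ.filter fun v => π v ≠ π0 v).card := by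
    intro π π1
    refine le_trans (card_le_card ?_) (card_union_le _ _)
    intro v hv
    rw [mem_filter] at hv
    by_cases h : π1 v = π v
    · refine mem_union_right _ (mem_filter.2 ⟨mem_univ _, ?_⟩)
      rw [← h]
      exact hv.2
    · exact mem_union_left _ (mem_filter.2 ⟨mem_univ _, h⟩)
  have main : ∀ k : ℕ, ∀ π : V → V, Inv π → (∀ v, π0 v ≠ v → π v ≠ v) →
      (∀ v, π v = π0 v ∨ F.Adj v (π v)) → (∀ v ∈ Bl, v ∉ W → π v = π0 v) →
      (univ.filter fun v => π v ≠ π0 v).card + N * k ≤ N * W.card →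
      (W.filter fun v => π v = v).card = k →
      ∃ π' : V → V, Inv π' ∧ (∀ v ∈ U, π' v = v) ∧ (∀ v, v ∉ U → π' v ≠ v) ∧
      (∀ v, π' v = π0 v ∨ F.Adj v (π' v)) ∧
      (∀ v ∈ Bl, π0 v ≠ v → π' v = π0 v) ∧
      (univ.filter fun v => π' v ≠ π0 v).card ≤ N * W.card := by
    intro k
    induction k using Nat.strong_induction_on with
    | _ k ih =>
    intro π hi hii hiii hiv hv hvi
    -- the uncovered vertices
    have hfix : ∀ v, π v = v → v ∉ U → v ∈ W := by
      intro v h1 h2
      exact (hmW v).2 ⟨by_contra fun h => hii v h h1, h2⟩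
    by_cases hex : ∃ w ∈ W, π w = w
    swap
    · push Not at hex
      refine ⟨π, hi, hUfix π hiv, ?_, hiii, ?_, by omega⟩
      · intro v hvU hvv
        exact hex v (hfix v hvv hvU) hvv
      · intro v hvB hv0
        exact hiv v hvB (fun h => hv0 ((hmW v).1 h).1)
    obtain ⟨w0, hw0W, hw0⟩ := hex
    have hb := LbB_bal P π hi (hbip π hiii) U (hUfix π hiv) hbal
    have hw0U : w0 ∉ U := ((hmW w0).1 hw0W).2
    have hpos : 0 < ((P \ U).filter fun v => π v = v).card ∧
        0 < (((univ \ P) \ U).filter fun v => π v = v).card := by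
      by_cases hP : w0 ∈ P
      · have : 0 < ((P \ U).filter fun v => π v = v).card :=
          card_pos.2 ⟨w0, mem_filter.2 ⟨mem_sdiff.2 ⟨hP, hw0U⟩, hw0⟩⟩
        omega
      · have : 0 < (((univ \ P) \ U).filter fun v => π v = v).card :=
          card_pos.2 ⟨w0, mem_filter.2 ⟨mem_sdiff.2 ⟨mem_sdiff.2 ⟨mem_univ _, hP⟩, hw0U⟩, hw0⟩⟩
        omega
    obtain ⟨w, hw'⟩ := card_pos.1 hpos.1
    obtain ⟨w2, hw2'⟩ := card_pos.1 hpos.2
    rw [mem_filter, mem_sdiff] at hw'
    rw [mem_filter, mem_sdiff, mem_sdiff] at hw2'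
    obtain ⟨⟨hwP, hwU⟩, hw⟩ := hw'
    obtain ⟨⟨⟨_, hw2P⟩, hw2U⟩, hw2⟩ := hw2'
    have hwW : w ∈ W := hfix w hw hwU
    have hw2W : w2 ∈ W := hfix w2 hw2 hw2U
    have hwk : w ∈ W.filter fun v => π v = v := mem_filter.2 ⟨hwW, hw⟩
    have hZ : (univ.filter fun v => π v = v ∧ v ∉ Bl).card ≤ ζ := by
      refine le_trans (card_le_card ?_) hζ
      intro v hv'
      rw [mem_filter] at hv'
      exact hfix v hv'.2.1 (fun h => hv'.2.2 (hUB h))
    obtain ⟨π1, a1, a2, a3, a3', a4, a5, a6⟩ := hC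
      π hi (hbip π hiii) Bl hBl hZ w w2 hwP hw2P hw hw2
    have hlt : (W.filter fun v => π1 v = v).card < k := by
      rw [← hvi]
      refine card_lt_card ⟨?_, ?_⟩
      · intro v hv'
        rw [mem_filter] at hv' ⊢
        exact ⟨hv'.1, by_contra fun h => a2 v h hv'.2⟩
      · intro h
        exact a3 (mem_filter.1 (h hwk)).2
    refine ih _ hlt π1 a1 (fun v h => a2 v (hii v h)) ?_ ?_ ?_ rfl
    · intro v
      rcases a4 v with h' | h'
      · rw [h']
        exact hiii v
      · exact Or.inr h'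
    · intro v hvB hvW
      rw [a5 v hvB (fun h => hvW (h ▸ hwW)) (fun h => hvW (h ▸ hw2W)), hiv v hvB hvW]
    · have := hcomp π π1
      have := LbB_mul N hlt
      omega
  refine main _ π0 hπ (fun v h => h) (fun v => Or.inl rfl) (fun v _ _ => rfl) ?_ rfl
  have h0 : (univ.filter fun v => π0 v ≠ π0 v) = ∅ := by
    ext v
    simp
  rw [h0, card_empty, Nat.zero_add]
  exact Nat.mul_le_mul_left _ (card_le_card (filter_subset _ _))

end Pool.Agent.H71.TD
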