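import Mathlib
import Pool.Agent.H71.TD.PrB
import Pool.Agent.H71.DR.InD

/-!
INB: one batch of labels, bipartite version of `inD` (`DR/InD.lean`, proved; copy and adapt, a weaker conclusion suffices here). Use only the STATEMENT of `prcB` (`TD/PrB.lean`) instead of `prc3`.

The matchings `ν j` have edges of `G0`, so they are bipartite (`hG0P`), also after the permutation `permf` and the deletion of the edges that meet `U ℓ`. (In the deletion step of `inD` the matching `m0 ℓ` is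
`μ ℓ` with the edges that meet `U ℓ` removed.)
-/

set_option autoImplicit false

namespace Pool.Agent.H71.TD

open Finset Classical
open Pool.Agent.H71.DN Pool.Agent.H71.DX Pool.Agent.H71.DR Pool.Agent.H71.HL Pool.Agent.H71.DC

theorem inB {V : Type} [Fintype V] (G0 R : SimpleGraph V) (P : Finset V) (hG0P : Bip G0 P)
    (hRP : Bip R P)
    (hGR : ∀ a b, G0.Adj a b → ¬ R.Adj a b) (K ζ0 e0 e1 s t N : ℕ) (ν : ℕ → V → V)
    (hν : NF G0 K ζ0 e0 e1 ν) (U : ℕ → Finset V) (hs : ∀ v, mul K U v ≤ s)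
    (ht : Fintype.card V * s ^ t < t.factorial)
    (ζ β β2 S0 : ℕ) (hS0 : 0 < S0)
    (hR : ∀ F : SimpleGraph V, F ≤ R → (∀ v, dg R v ≤ dg F v + (S0 + (e0 + t))) →
      (∀ A B, ee R A B ≤ ee F A B + N * (Fintype.card V * (e0 + t))) → ConB F P ζ β N)
    (hβ : ∀ ℓ < K, (U ℓ).card + β2 ≤ β) (hζ : ∀ ℓ < K, ζ0 + (U ℓ).card ≤ ζ)
    (hT : N * (Fintype.card V * (e0 + t)) ≤ S0 * β2)
    (hbal : ∀ ℓ < K, (P \ U ℓ).card = ((univ \ P) \ U ℓ).card) :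
    ∃ mm : ℕ → V → V, PM (G0 ⊔ R) K U mm ∧ (∀ ℓ < K, ∀ v, v ∉ U ℓ → mm ℓ v ≠ v) := by
  obtain ⟨μ, hμ, hμt⟩ := permf G0 K ζ0 e0 e1 s t ν hν U hs ht
  obtain ⟨m0, hm0⟩ : ∃ m0 : ℕ → V → V, m0 = fun ℓ v =>
      if ℓ < K then (if v ∈ U ℓ ∨ μ ℓ v ∈ U ℓ then v else μ ℓ v) else v := ⟨_, rfl⟩
  have hmpos : ∀ ℓ v, (v ∈ U ℓ ∨ μ ℓ v ∈ U ℓ) → m0 ℓ v = v := by
    intro ℓ v h
    rw [hm0]
    show (if ℓ < K then (if v ∈ U ℓ ∨ μ ℓ v ∈ U ℓ then v else μ ℓ v) else v) = v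
    rw [if_pos h]
    split_ifs <;> rfl
  have hmneg : ∀ ℓ < K, ∀ v, ¬ (v ∈ U ℓ ∨ μ ℓ v ∈ U ℓ) → m0 ℓ v = μ ℓ v := by
    intro ℓ hℓ v h
    rw [hm0]
    show (if ℓ < K then (if v ∈ U ℓ ∨ μ ℓ v ∈ U ℓ then v else μ ℓ v) else v) = μ ℓ v
    rw [if_pos hℓ, if_neg h]
  have hcase : ∀ ℓ < K, ∀ v, m0 ℓ v = v ∨ m0 ℓ v = μ ℓ v := by
    intro ℓ hℓ v
    by_cases h : v ∈ U ℓ ∨ μ ℓ v ∈ U ℓ
    · exact Or.inl (hmpos ℓ v h)
    · exact Or.inr (hmneg ℓ hℓ v h)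
  have hinv : ∀ ℓ < K, Inv (m0 ℓ) := by
    intro ℓ hℓ v
    by_cases h : v ∈ U ℓ ∨ μ ℓ v ∈ U ℓ
    · rw [hmpos ℓ v h, hmpos ℓ v h]
    · rw [hmneg ℓ hℓ v h]
      have h2 : ¬ (μ ℓ v ∈ U ℓ ∨ μ ℓ (μ ℓ v) ∈ U ℓ) := by
        rw [hμ.inv ℓ hℓ v]
        intro h3
        exact h (Or.symm h3)
      rw [hmneg ℓ hℓ _ h2, hμ.inv ℓ hℓ v]
  have hm1 : ∀ ℓ < K, ∀ v, ¬ R.Adj v (m0 ℓ v) := by
    intro ℓ hℓ v hRv
    rcases hcase ℓ hℓ v with h | h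
    · rw [h] at hRv
      exact R.irrefl hRv
    · rw [h] at hRv
      by_cases h2 : μ ℓ v = v
      · rw [h2] at hRv
        exact R.irrefl hRv
      · exact hGR _ _ (hμ.adj ℓ hℓ v h2) hRv
  -- the uncovered vertices
  have hunc : ∀ ℓ < K, ∀ v, (m0 ℓ v = v ∧ v ∉ U ℓ) → μ ℓ v = v ∨ (μ ℓ v ≠ v ∧ μ ℓ v ∈ U ℓ) := by
    rintro ℓ hℓ v ⟨h5, h4⟩
    by_cases h6 : μ ℓ v = v
    · exact Or.inl h6
    · right
      refine ⟨h6, ?_⟩
      by_contra h7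
      have h8 : ¬ (v ∈ U ℓ ∨ μ ℓ v ∈ U ℓ) := by
        intro h
        rcases h with h | h
        · exact h4 h
        · exact h7 h
      rw [hmneg ℓ hℓ v h8] at h5
      exact h6 h5
  have hE : ∀ v, ((range K).filter fun ℓ => m0 ℓ v = v ∧ v ∉ U ℓ).card ≤ e0 + t := by
    intro v
    have hsub : ((range K).filter fun ℓ => m0 ℓ v = v ∧ v ∉ U ℓ) ⊆
        ((range K).filter fun ℓ => μ ℓ v = v) ∪
        ((range K).filter fun ℓ => μ ℓ v ≠ v ∧ μ ℓ v ∈ U ℓ) := by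
      intro ℓ hℓ
      rw [Finset.mem_filter] at hℓ
      rw [Finset.mem_union, Finset.mem_filter, Finset.mem_filter]
      rcases hunc ℓ (Finset.mem_range.1 hℓ.1) v hℓ.2 with h | h
      · exact Or.inl ⟨hℓ.1, h⟩
      · exact Or.inr ⟨hℓ.1, h⟩
    have k1 := (Finset.card_le_card hsub).trans (Finset.card_union_le _ _)
    have k2 := hμ.mis v
    have k3 := hμt v
    omega
  have hζ' : ∀ ℓ < K, (univ.filter fun v => m0 ℓ v = v ∧ v ∉ U ℓ).card ≤ ζ := by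
    intro ℓ hℓ
    have hsub : (univ.filter fun v => m0 ℓ v = v ∧ v ∉ U ℓ) ⊆
        (univ.filter fun v => μ ℓ v = v) ∪ (U ℓ).image (μ ℓ) := by
      intro v hv
      rw [Finset.mem_filter] at hv
      rw [Finset.mem_union, Finset.mem_filter, Finset.mem_image]
      rcases hunc ℓ hℓ v hv.2 with h | h
      · exact Or.inl ⟨hv.1, h⟩
      · exact Or.inr ⟨μ ℓ v, h.2, hμ.inv ℓ hℓ v⟩
    have k1 := (Finset.card_le_card hsub).trans (Finset.card_union_le _ _)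
    have k2 := hμ.unc ℓ hℓ
    have k3 : ((U ℓ).image (μ ℓ)).card ≤ (U ℓ).card := Finset.card_image_le
    have k4 := hζ ℓ hℓ
    omega
  have hTsum : ∑ ℓ ∈ range K, (univ.filter fun v => m0 ℓ v = v ∧ v ∉ U ℓ).card ≤
      Fintype.card V * (e0 + t) := by
    have e1 : ∑ ℓ ∈ range K, (univ.filter fun v => m0 ℓ v = v ∧ v ∉ U ℓ).card =
        ∑ v : V, ((range K).filter fun ℓ => m0 ℓ v = v ∧ v ∉ U ℓ).card := by
      simp_rw [Finset.card_filter]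
      rw [Finset.sum_comm]
    rw [e1]
    refine (Finset.sum_le_card_nsmul _ _ (e0 + t) fun v _ => hE v).trans (le_of_eq ?_)
    rw [Finset.card_univ, smul_eq_mul]
  have hm0P : ∀ ℓ < K, ∀ v, m0 ℓ v ≠ v → (v ∈ P ↔ m0 ℓ v ∉ P) := by
    intro ℓ hℓ v hv
    rcases hcase ℓ hℓ v with h | h
    · exact absurd h hv
    · rw [h] at hv ⊢
      exact hG0P _ _ (hμ.adj ℓ hℓ v hv)
  obtain ⟨mm, k1, k2, k3, k5, k6, k7, k8⟩ := prcB R P hRP K U m0 ζ β β2 S0 (e0 + t)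
    (Fintype.card V * (e0 + t)) N hS0 hR hinv hm0P hm1 (fun ℓ _ v hv => hmpos ℓ v (Or.inl hv))
    hζ' hbal hβ hTsum hT hE
  refine ⟨mm, ⟨k1, ?_, ?_, k2⟩, k3⟩
  · intro ℓ hℓ v hv
    rcases k5 ℓ hℓ v with h | h
    · rw [h] at hv ⊢
      rcases hcase ℓ hℓ v with h3 | h3
      · exact absurd h3 hv
      · rw [h3] at hv ⊢
        exact Or.inl (hμ.adj ℓ hℓ v hv)
    · exact Or.inr h
  · intro ℓ hℓ ℓ' hℓ' hne v hv he
    by_cases hRv : R.Adj v (mm ℓ v)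
    · exact k6 ℓ hℓ ℓ' hℓ' (Ne.symm hne) v hRv he
    · have g1 : mm ℓ v = m0 ℓ v := (k5 ℓ hℓ v).resolve_right hRv
      have hR' : ¬ R.Adj v (mm ℓ' v) := by
        rw [← he]
        exact hRv
      have g2 : mm ℓ' v = m0 ℓ' v := (k5 ℓ' hℓ' v).resolve_right hR'
      have g3 : m0 ℓ v = μ ℓ v := by
        rcases hcase ℓ hℓ v with h | h
        · exact absurd (g1.trans h) hv
        · exact h
      have hv' : mm ℓ' v ≠ v := by
        rw [← he]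
        exact hv
      have g4 : m0 ℓ' v = μ ℓ' v := by
        rcases hcase ℓ' hℓ' v with h | h
        · exact absurd (g2.trans h) hv'
        · exact h
      refine hμ.dis ℓ hℓ ℓ' hℓ' hne v ?_ ?_
      · rw [← g3, ← g1]
        exact hv
      · rw [← g3, ← g1, he, g2, g4]

end Pool.Agent.H71.TD
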