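import Mathlib
import Pool.Agent.H71.TD.InB
import Pool.Agent.H71.TD.ExB
import Pool.Agent.H71.DC.Nft
import Pool.Agent.H71.DX.Nff
import Pool.Agent.H71.DX.F12

/-!
ST1B: a batch of `B` labels with exactly perfect matchings outside small sets, bipartite version of `st1` (`TD/St1.lean`). Use the STATEMENTS of `inB` (`TD/InB.lean`), `cxkB` (`TD/ExB.lean`), `natf` (`DX/Nff.lean`),
`nft` (`DC/C3l.lean`). If `TD/St1.lean` is already proved, copy and adapt it.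

Proof (`h = #P`, `n = #V = 2 h`).  `k := ⌈2/ν⌉₊`, `N := 4 k + 10`. Put `D := ⌊q0 h / 2⌋`, `m := ⌈2 lam h / α⌉`, `ζ` between `(2 lam / α) h` and `(3 lam / α) h + 2`, `q := ⌊min (ν/4) (α/8) h⌋ - 3`, `β := ⌊χ h⌋` with a small constant
`χ ≤ lam / 100`, `β2 := ⌊χ h / 2⌋`, `S0 := ⌊q0 h / 8⌋`, `ζ0 := ⌊(lam / α) h⌋` (and `≥ 1`), `e0 := ⌈ρ h⌉ + 2`, `s := ⌈κ h⌉`, `t` with `n s^t < t!` and `t ≤ 7 κ h + 1` (for large `h`), `S := S0 + (e0 + t)`, `T := N (n (e0 + t))`. With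
`ρ, κ` small compared with `χ, q0, lam, x, α, 1/N` all the conditions hold:
 * `N' := 1 + max dg G0`; `natf G0 N' ζ0 e0` gives `K ≥ N' - n e0 / ζ0 ≥ N' - x h ≥ B` and a natural family; `nft` truncates it to `B` labels.
 * `h1`: `ζ + 2 β + m ≤ D` as `lam / α ≤ q0 / 16`; `h2`: `ζ + 2 β + 1 ≤ q` as `lam / α ≤ ν / 64, α / 64`.
 * `inB`: `hβ`: `κ h + β2 ≤ β`; `hζ`: `ζ0 + κ h ≤ ζ`; `hT`: `N n (e0 + t) ≤ S0 β2`. `cxkB`: `hR1`: `D + S ≤ q0 h ≤ dg R v`; `hT`: `T + (4 k + 12) n < q0 lam h²`.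
-/

set_option autoImplicit false

namespace Pool.Agent.H71.TD

open Finset Classical
open Pool.Agent.H71.DN Pool.Agent.H71.DX Pool.Agent.H71.DR Pool.Agent.H71.HL Pool.Agent.H71.DC

theorem st1B_num (κ χ a q0 lam h N x : ℝ) (hχ : χ = a / 100) (hN : 10 ≤ N)
    (c1 : 10 ^ 6 * κ ≤ a) (c2 : 832 * N * κ ≤ q0 * χ) (c3 : 208 * κ ≤ q0)
    (c4 : 100 * N * κ ≤ q0 * lam) (c5 : 4 * κ ≤ x * a) (h0 : 0 < h) (hκh : 2 ≤ κ * h) :
    2000000 ≤ a * h ∧ κ * h + (χ * h / 2 + 1) ≤ χ * h ∧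
      N * (2 * h * (13 * (κ * h) + 14)) ≤ (q0 * h / 8) * (χ * h / 2) ∧
      13 * (κ * h) + 15 ≤ 3 * (q0 * h) / 8 ∧
      N * (2 * h * (13 * (κ * h) + 14)) + 2 * N * (2 * h) < q0 * (lam * h ^ 2) ∧
      2 * h * (κ * h + 2) ≤ x * h * (a * h) := by
  have hN0 : 0 < N := by linarith
  have hNh : 0 < N * h := mul_pos hN0 h0
  have k1 : 10 ^ 6 * (κ * h) ≤ a * h := by
    have := mul_le_mul_of_nonneg_right c1 h0.le
    linarith
  have k0 : N * h * 2 ≤ N * h * (κ * h) := mul_le_mul_of_nonneg_left hκh hNh.le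
  refine ⟨by linarith, ?_, ?_, ?_, ?_, ?_⟩
  · rw [hχ]
    nlinarith
  · have e1 := mul_le_mul_of_nonneg_right c2 (show 0 ≤ h * h by positivity)
    nlinarith
  · have e1 := mul_le_mul_of_nonneg_right c3 h0.le
    nlinarith
  · have e1 := mul_le_mul_of_nonneg_right c4 (show 0 ≤ h * h by positivity)
    nlinarith
  · have e1 := mul_le_mul_of_nonneg_right c5 (show 0 ≤ h * h by positivity)
    nlinarith

theorem st1B (α ν lam q0 x : ℝ) (hα : 0 < α) (hα1 : α ≤ 1) (hν : 0 < ν) (hν1 : ν ≤ 1)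
    (hl : 0 < lam) (hq : 0 < q0) (hq1 : q0 ≤ 1) (hx : 0 < x) (hl1 : 16 * lam ≤ α * q0)
    (hl2 : 64 * lam ≤ α * ν) (hl3 : 64 * lam ≤ α ^ 2) :
    ∃ (κ ρ : ℝ) (n0 : ℕ), 0 < κ ∧ 0 < ρ ∧
      ∀ (V : Type) [Fintype V] (Gs G0 R : SimpleGraph V) (P : Finset V) (B : ℕ),
        n0 ≤ P.card → P.card = (univ \ P).card → Bip Gs P → Bip G0 P → Bip R P →
        XcB Gs P α ν lam → (∀ a b, G0.Adj a b → ¬ R.Adj a b) →
        (∀ v, q0 * P.card ≤ (dg R v : ℝ)) →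
        (∀ A Y : Finset V, Opp P A Y → lam * (P.card : ℝ) ^ 2 ≤ ee Gs A Y →
          q0 * (lam * (P.card : ℝ) ^ 2) ≤ ee R A Y) →
        (∀ v, (B : ℝ) + x * P.card ≤ dg G0 v) →
        (∀ u v, (dg G0 u : ℝ) ≤ dg G0 v + ρ * P.card) →
        ∀ U : ℕ → Finset V, (∀ ℓ < B, ((U ℓ).card : ℝ) ≤ κ * P.card) →
          (∀ v, (mul B U v : ℝ) ≤ κ * P.card) →
          (∀ ℓ < B, (P \ U ℓ).card = ((univ \ P) \ U ℓ).card) →
          ∃ mm : ℕ → V → V, PM (G0 ⊔ R) B U mm ∧ ∀ ℓ < B, ∀ v, v ∉ U ℓ → mm ℓ v ≠ v := by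
  obtain ⟨a, ha'⟩ : ∃ a : ℝ, a = lam / α := ⟨_, rfl⟩
  have ha : 0 < a := by rw [ha']; positivity
  have haα : a * α = lam := by rw [ha']; field_simp
  have ha16 : 16 * a ≤ q0 := by
    have h1 : (16 * a) * α ≤ q0 * α := by nlinarith
    exact le_of_mul_le_mul_right h1 hα
  have ha64 : 64 * a ≤ ν := by
    have h1 : (64 * a) * α ≤ ν * α := by nlinarith
    exact le_of_mul_le_mul_right h1 hα
  have haα64 : 64 * a ≤ α := by
    have h1 : (64 * a) * α ≤ α * α := by nlinarith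
    exact le_of_mul_le_mul_right h1 hα
  obtain ⟨k, hk'⟩ : ∃ k : ℕ, k = ⌈2 / ν⌉₊ := ⟨_, rfl⟩
  have hk : 2 ≤ (k : ℝ) * ν := by
    have h1 : 2 / ν ≤ (k : ℝ) := by rw [hk']; exact Nat.le_ceil _
    rwa [div_le_iff₀ hν] at h1
  obtain ⟨N, hN'⟩ : ∃ N : ℕ, N = 4 * k + 10 := ⟨_, rfl⟩
  have hNr : (N : ℝ) = 4 * k + 10 := by rw [hN']; push_cast; ring
  have hN10 : (10 : ℝ) ≤ N := by
    rw [hNr]
    have : (0 : ℝ) ≤ k := Nat.cast_nonneg _
    linarith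
  have hN0 : (0 : ℝ) < N := by linarith
  obtain ⟨xm, hxm'⟩ : ∃ xm : ℝ, xm = min x 1 := ⟨_, rfl⟩
  have hxm0 : 0 < xm := by rw [hxm']; exact lt_min hx one_pos
  have hxm1 : xm ≤ 1 := by rw [hxm']; exact min_le_right _ _
  have hxmx : xm ≤ x := by rw [hxm']; exact min_le_left _ _
  obtain ⟨χ, hχ'⟩ : ∃ χ : ℝ, χ = a / 100 := ⟨_, rfl⟩
  have hχ0 : 0 < χ := by rw [hχ']; positivity
  obtain ⟨κ, hκ'⟩ : ∃ κ : ℝ, κ = q0 * lam * xm / (10 ^ 5 * N) := ⟨_, rfl⟩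
  have hκ0 : 0 < κ := by rw [hκ']; positivity
  have hκN : 10 ^ 5 * (N * κ) = q0 * lam * xm := by rw [hκ']; field_simp
  have hlama : lam ≤ a := by
    rw [← haα]
    nlinarith
  have hlam1 : lam ≤ 1 := by linarith
  have hql : q0 * lam * xm ≤ q0 * lam := by
    have : 0 < q0 * lam := by positivity
    nlinarith
  have hNκ : 10 * κ ≤ N * κ := by nlinarith
  have hqlp : 0 < q0 * lam := by positivity
  have c4 : 100 * (N : ℝ) * κ ≤ q0 * lam := by linarith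
  have hqa : q0 * lam ≤ q0 * a := mul_le_mul_of_nonneg_left hlama hq.le
  have c2 : 832 * (N : ℝ) * κ ≤ q0 * χ := by
    have h1 : q0 * χ = q0 * a / 100 := by rw [hχ']; ring
    linarith
  have hqa1 : q0 * a ≤ a := by nlinarith
  have c1 : 10 ^ 6 * κ ≤ a := by linarith
  have hql1 : q0 * lam ≤ q0 * 1 := mul_le_mul_of_nonneg_left hlam1 hq.le
  have c3 : 208 * κ ≤ q0 := by linarith
  have c5 : 4 * κ ≤ x * a := by
    have h1 : q0 * lam * xm ≤ a * xm := by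
      have h2 : q0 * lam ≤ a := by linarith
      exact mul_le_mul_of_nonneg_right h2 hxm0.le
    have h3 : a * xm ≤ a * x := mul_le_mul_of_nonneg_left hxmx ha.le
    linarith
  obtain ⟨n1, hn1⟩ := fact12 (κ / 2) (by positivity)
  refine ⟨κ, κ, max n1 (⌈2 / κ⌉₊ + 1), hκ0, hκ0, ?_⟩
  intro V _ Gs G0 R P B hn hPc hGsP hG0P hRP hX hGR hRdeg hRee hG0deg hG0reg U hU hUm hbal
  have hcV : Fintype.card V = 2 * P.card := by
    have h1 : (univ \ P).card = Fintype.card V - P.card := by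
      rw [← Finset.compl_eq_univ_sdiff, Finset.card_compl]
    have h2 : P.card ≤ Fintype.card V := Finset.card_le_univ P
    omega
  have hn1' : n1 ≤ P.card := le_trans (le_max_left _ _) hn
  have hn2 : ⌈2 / κ⌉₊ + 1 ≤ P.card := le_trans (le_max_right _ _) hn
  obtain ⟨h, hh⟩ : ∃ h : ℝ, h = (P.card : ℝ) := ⟨_, rfl⟩
  have hκh : 2 ≤ κ * h := by
    have h1 : 2 / κ ≤ (P.card : ℝ) := by
      have h2 : ((⌈2 / κ⌉₊ : ℕ) : ℝ) ≤ P.card := by
        exact_mod_cast (by omega : ⌈2 / κ⌉₊ ≤ P.card)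
      exact (Nat.le_ceil _).trans h2
    rw [div_le_iff₀ hκ0] at h1
    rw [hh]
    linarith
  have h0 : 0 < h := by
    rw [hh]
    exact_mod_cast (by omega : 0 < P.card)
  have hcVr : (Fintype.card V : ℝ) = 2 * h := by
    rw [hcV, hh]
    push_cast
    ring
  obtain ⟨g1, g2, g3, g4, g5, g6⟩ := st1B_num κ χ a q0 lam h N x hχ' hN10 c1 c2 c3 c4 c5 h0 hκh
  have hah0 : 0 < a * h := by positivity
  -- the parameters
  obtain ⟨ζ0, hζ0'⟩ : ∃ z : ℕ, z = ⌈a * h⌉₊ := ⟨_, rfl⟩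
  have hζ0a : a * h ≤ ζ0 := by rw [hζ0']; exact Nat.le_ceil _
  have hζ0b : (ζ0 : ℝ) ≤ a * h + 1 := by rw [hζ0']; exact (Nat.ceil_lt_add_one hah0.le).le
  obtain ⟨m, hm'⟩ : ∃ z : ℕ, z = ⌈2 * (a * h)⌉₊ := ⟨_, rfl⟩
  have hma : 2 * (a * h) ≤ m := by rw [hm']; exact Nat.le_ceil _
  have hmb : (m : ℝ) ≤ 2 * (a * h) + 1 := by
    rw [hm']; exact (Nat.ceil_lt_add_one (by positivity)).le
  obtain ⟨β, hβ'⟩ : ∃ z : ℕ, z = ⌈χ * h⌉₊ := ⟨_, rfl⟩
  have hβa : χ * h ≤ β := by rw [hβ']; exact Nat.le_ceil _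
  have hβb : (β : ℝ) ≤ χ * h + 1 := by rw [hβ']; exact (Nat.ceil_lt_add_one (by positivity)).le
  obtain ⟨β2, hβ2'⟩ : ∃ z : ℕ, z = ⌈χ * h / 2⌉₊ := ⟨_, rfl⟩
  have hβ2a : χ * h / 2 ≤ β2 := by rw [hβ2']; exact Nat.le_ceil _
  have hβ2b : (β2 : ℝ) ≤ χ * h / 2 + 1 := by
    rw [hβ2']; exact (Nat.ceil_lt_add_one (by positivity)).le
  obtain ⟨S0, hS0'⟩ : ∃ z : ℕ, z = ⌈q0 * h / 8⌉₊ := ⟨_, rfl⟩
  have hS0a : q0 * h / 8 ≤ S0 := by rw [hS0']; exact Nat.le_ceil _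
  have hS0b : (S0 : ℝ) ≤ q0 * h / 8 + 1 := by
    rw [hS0']; exact (Nat.ceil_lt_add_one (by positivity)).le
  obtain ⟨D, hD'⟩ : ∃ z : ℕ, z = ⌊q0 * h / 2⌋₊ := ⟨_, rfl⟩
  have hDa : q0 * h / 2 ≤ D + 1 := by rw [hD']; exact (Nat.lt_floor_add_one _).le
  have hDb : (D : ℝ) ≤ q0 * h / 2 := by rw [hD']; exact Nat.floor_le (by positivity)
  obtain ⟨q, hq'⟩ : ∃ z : ℕ, z = ⌊4 * (a * h)⌋₊ := ⟨_, rfl⟩
  have hqa' : 4 * (a * h) ≤ q + 1 := by rw [hq']; exact (Nat.lt_floor_add_one _).le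
  have hqb : (q : ℝ) ≤ 4 * (a * h) := by rw [hq']; exact Nat.floor_le (by positivity)
  obtain ⟨e, he'⟩ : ∃ z : ℕ, z = ⌈κ * h⌉₊ := ⟨_, rfl⟩
  have hea : κ * h ≤ e := by rw [he']; exact Nat.le_ceil _
  have heb : (e : ℝ) ≤ κ * h + 1 := by rw [he']; exact (Nat.ceil_lt_add_one (by positivity)).le
  have hS0pos : 0 < S0 := by
    have h1 : (0 : ℝ) < S0 := lt_of_lt_of_le (by positivity) hS0a
    exact_mod_cast h1
  have hζ0pos : 1 ≤ ζ0 := by
    have h1 : (0 : ℝ) < ζ0 := lt_of_lt_of_le hah0 hζ0a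
    have h2 : 0 < ζ0 := by exact_mod_cast h1
    exact h2
  -- the natural family
  obtain ⟨v0, hv0⟩ : P.Nonempty := by
    rw [← Finset.card_pos]
    omega
  obtain ⟨N', hN1'⟩ : ∃ z : ℕ, z = univ.sup (fun v => dg G0 v) + 1 := ⟨_, rfl⟩
  have hN1a : ∀ v, dg G0 v + 1 ≤ N' := by
    intro v
    have h1 : dg G0 v ≤ univ.sup (fun v => dg G0 v) :=
      Finset.le_sup (f := fun v => dg G0 v) (Finset.mem_univ v)
    omega
  have hN1b : ∀ v, N' ≤ dg G0 v + (e + 1) := by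
    intro v
    have h1 : univ.sup (fun v => dg G0 v) ≤ dg G0 v + e := by
      refine Finset.sup_le fun u _ => ?_
      have h2 := hG0reg u v
      rw [← hh] at h2
      have h3 : (dg G0 u : ℝ) ≤ (dg G0 v + e : ℕ) := by
        push_cast
        linarith
      exact_mod_cast h3
    omega
  obtain ⟨K, ν0, hKN, hNK, hNF⟩ := natf G0 N' ζ0 (e + 1) hζ0pos hN1a hN1b
  have hdiv : ((Fintype.card V * (e + 1) / ζ0 : ℕ) : ℝ) ≤ x * h := by
    have h1 : (Fintype.card V * (e + 1) / ζ0) * ζ0 ≤ Fintype.card V * (e + 1) :=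
      Nat.div_mul_le_self _ _
    have h2 : (((Fintype.card V * (e + 1) / ζ0 : ℕ) : ℝ)) * ζ0 ≤ 2 * h * (e + 1) := by
      rw [← hcVr]
      exact_mod_cast h1
    have h3 : 2 * h * ((e : ℝ) + 1) ≤ 2 * h * (κ * h + 2) :=
      mul_le_mul_of_nonneg_left (by linarith) (by positivity)
    have h4 : (((Fintype.card V * (e + 1) / ζ0 : ℕ) : ℝ)) * (a * h) ≤
        (((Fintype.card V * (e + 1) / ζ0 : ℕ) : ℝ)) * ζ0 :=
      mul_le_mul_of_nonneg_left hζ0a (Nat.cast_nonneg _)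
    have h5 : (((Fintype.card V * (e + 1) / ζ0 : ℕ) : ℝ)) * (a * h) ≤ x * h * (a * h) := by
      linarith
    exact le_of_mul_le_mul_right h5 hah0
  have hKB : B ≤ K := by
    have h1 := hG0deg v0
    rw [← hh] at h1
    have h2 : ((dg G0 v0 + 1 : ℕ) : ℝ) ≤ N' := by exact_mod_cast hN1a v0
    have h3 : (N' : ℝ) ≤ K + ((Fintype.card V * (e + 1) / ζ0 : ℕ) : ℝ) := by exact_mod_cast hNK
    push_cast at h2
    have h4 : (B : ℝ) ≤ K := by linarith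
    exact_mod_cast h4
  have hNFB := nft G0 K B ζ0 (e + 1) (Fintype.card V * (e + 1) / ζ0) ν0 hNF hKB
  -- the batch
  obtain ⟨t, ht'⟩ : ∃ z : ℕ, z = 12 * e := ⟨_, rfl⟩
  have htr : (t : ℝ) = 12 * e := by rw [ht']; push_cast; ring
  have htf : Fintype.card V * e ^ t < t.factorial := by
    rw [ht']
    refine hn1 (Fintype.card V) e (by omega) ?_
    rw [hcVr]
    linarith
  have het : (((e + 1) + t : ℕ) : ℝ) ≤ 13 * (κ * h) + 14 := by
    push_cast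
    rw [htr]
    linarith
  have hTr : ((N * (Fintype.card V * ((e + 1) + t)) : ℕ) : ℝ) ≤
      N * (2 * h * (13 * (κ * h) + 14)) := by
    rw [Nat.cast_mul, Nat.cast_mul, hcVr]
    exact mul_le_mul_of_nonneg_left (mul_le_mul_of_nonneg_left het (by positivity)) hN0.le
  refine inB G0 R P hG0P hRP hGR B ζ0 (e + 1) (Fintype.card V * (e + 1) / ζ0 + (K - B)) e t N ν0
    hNFB U ?_ htf m β β2 S0 hS0pos ?_ ?_ ?_ ?_ hbal
  · intro v
    have h1 := hUm v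
    rw [← hh] at h1
    have h2 : (mul B U v : ℝ) ≤ e := by linarith
    exact_mod_cast h2
  · intro F hFR hF1 hF2
    rw [hN']
    refine cxkB Gs R F P hGsP (fun u v huv => hRP u v (hFR huv)) hPc α ν lam q0 D m k q m β
      (S0 + ((e + 1) + t)) (N * (Fintype.card V * ((e + 1) + t))) hα hα1 hν hl hX hk ?_ ?_ hF1 hF2
      ?_ ?_ ?_ ?_ ?_ ?_ ?_
    · intro v
      have h1 := hRdeg v
      rw [← hh] at h1
      have h2 : ((D + (S0 + ((e + 1) + t)) : ℕ) : ℝ) ≤ dg R v := by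
        rw [Nat.cast_add, Nat.cast_add]
        linarith
      exact_mod_cast h2
    · intro A Y hAY hE
      exact hRee A Y hAY hE
    · rw [hcVr, ← hh]
      have h1 : (4 * (k : ℝ) + 12) * (2 * h) ≤ 2 * N * (2 * h) :=
        mul_le_mul_of_nonneg_right (by rw [hNr]; nlinarith [(Nat.cast_nonneg k : (0:ℝ) ≤ k)])
          (by positivity)
      linarith
    · rw [← hh]
      have h1 : α / 2 * (2 * (a * h)) ≤ α / 2 * m := mul_le_mul_of_nonneg_left hma (by positivity)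
      have h2 : α / 2 * (2 * (a * h)) = lam * h := by rw [← haα]; ring
      linarith
    · rw [← hh]
      have h1 : α / 2 * (2 * (a * h)) ≤ α / 2 * m := mul_le_mul_of_nonneg_left hma (by positivity)
      have h2 : α / 2 * (2 * (a * h)) = lam * h := by rw [← haα]; ring
      linarith
    · rw [← hh]
      have h1 : 64 * a * h ≤ ν * h := mul_le_mul_of_nonneg_right ha64 h0.le
      linarith
    · rw [← hh]
      have h1 : 64 * a * h ≤ α * h := mul_le_mul_of_nonneg_right haα64 h0.le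
      linarith
    · have h1 : 16 * a * h ≤ q0 * h := mul_le_mul_of_nonneg_right ha16 h0.le
      have h3 : χ * h = a * h / 100 := by rw [hχ']; ring
      have h2 : ((m + 2 * β + m : ℕ) : ℝ) ≤ D := by
        push_cast
        linarith
      exact_mod_cast h2
    · have h3 : χ * h = a * h / 100 := by rw [hχ']; ring
      have h2 : ((m + 2 * β + 1 : ℕ) : ℝ) ≤ q := by
        push_cast
        linarith
      exact_mod_cast h2
  · intro ℓ hℓ
    have h1 := hU ℓ hℓ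
    rw [← hh] at h1
    have h2 : (((U ℓ).card + β2 : ℕ) : ℝ) ≤ β := by
      push_cast
      linarith
    exact_mod_cast h2
  · intro ℓ hℓ
    have h1 := hU ℓ hℓ
    rw [← hh] at h1
    have h4 : κ * h ≤ a * h / 10 ^ 6 := by
      have := mul_le_mul_of_nonneg_right c1 h0.le
      linarith
    have h2 : ((ζ0 + (U ℓ).card : ℕ) : ℝ) ≤ m := by
      push_cast
      linarith
    exact_mod_cast h2
  · have h1 : (q0 * h / 8) * (χ * h / 2) ≤ (S0 : ℝ) * β2 :=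
      mul_le_mul hS0a hβ2a (by positivity) (Nat.cast_nonneg _)
    have h2 : ((N * (Fintype.card V * ((e + 1) + t)) : ℕ) : ℝ) ≤ ((S0 * β2 : ℕ) : ℝ) := by
      rw [Nat.cast_mul S0 β2]
      linarith
    exact_mod_cast h2

end Pool.Agent.H71.TD
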