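import Mathlib
import Pool.Agent.H71.TD.St1B
import Pool.Agent.H71.TD.Kng

/-!
PTB: decomposition of a bipartite graph `S0 ⊔ R` into exactly perfect matchings: `K` labels with small forbidden sets, and `t1` further labels without forbidden sets. Use the STATEMENTS of `st1B` (`TD/St1B.lean`) and `kng`
(`TD/Kng.lean`).

Proof.  The constants are those of `st1B`. It gives `mm0` for the labels `< K`. Let `B.Adj a b := (S0 ⊔ R).Adj a b ∧ ∀ ℓ < K, mm0 ℓ a ≠ b` (symmetric by `Inv`). Every vertex `v` is covered by exactly the `mm0 ℓ`, `ℓ < K`, with `v ∉ U ℓ`,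
and the edges are different (`dis`), so `dg B v = dg S0 v + dg R v - (K - mul K U v) = t1` (`dg (S0 ⊔ R) v = dg S0 v + dg R v` as they are edge-disjoint). `kng` gives `mm1`; `mm ℓ := mm0 ℓ` for `ℓ < K` and `mm1 (ℓ - K)` otherwise.
-/

set_option autoImplicit false

namespace Pool.Agent.H71.TD

open Finset Classical
open Pool.Agent.H71.DN Pool.Agent.H71.DX Pool.Agent.H71.DR Pool.Agent.H71.HL Pool.Agent.H71.DC

theorem ptb (α ν lam q0 x : ℝ) (hα : 0 < α) (hα1 : α ≤ 1) (hν : 0 < ν) (hν1 : ν ≤ 1)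
    (hl : 0 < lam) (hq : 0 < q0) (hq1 : q0 ≤ 1) (hx : 0 < x) (hl1 : 16 * lam ≤ α * q0)
    (hl2 : 64 * lam ≤ α * ν) (hl3 : 64 * lam ≤ α ^ 2) :
    ∃ (κ ρ : ℝ) (n0 : ℕ), 0 < κ ∧ 0 < ρ ∧
      ∀ (V : Type) [Fintype V] (Gs S0 R : SimpleGraph V) (P : Finset V) (K t1 : ℕ),
        n0 ≤ P.card → P.card = (univ \ P).card → Bip Gs P → Bip S0 P → Bip R P →
        XcB Gs P α ν lam → (∀ a b, S0.Adj a b → ¬ R.Adj a b) →
        (∀ v, q0 * P.card ≤ (dg R v : ℝ)) →
        (∀ A Y : Finset V, Opp P A Y → lam * (P.card : ℝ) ^ 2 ≤ ee Gs A Y →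
          q0 * (lam * (P.card : ℝ) ^ 2) ≤ ee R A Y) →
        (∀ v, (K : ℝ) + x * P.card ≤ dg S0 v) →
        (∀ u v, (dg S0 u : ℝ) ≤ dg S0 v + ρ * P.card) →
        ∀ U : ℕ → Finset V, (∀ ℓ < K, ((U ℓ).card : ℝ) ≤ κ * P.card) →
          (∀ v, (mul K U v : ℝ) ≤ κ * P.card) →
          (∀ ℓ < K, (P \ U ℓ).card = ((univ \ P) \ U ℓ).card) →
          (∀ v, dg S0 v + dg R v + mul K U v = K + t1) →
          ∃ mm : ℕ → V → V, PM (S0 ⊔ R) (K + t1) (fun ℓ => if ℓ < K then U ℓ else ∅) mm ∧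
            ∀ ℓ < K + t1, ∀ v, (ℓ < K → v ∉ U ℓ) → mm ℓ v ≠ v := by
  obtain ⟨κ, ρ, n0, hκ, hρ, H⟩ := st1B α ν lam q0 x hα hα1 hν hν1 hl hq hq1 hx hl1 hl2 hl3
  refine ⟨κ, ρ, n0, hκ, hρ, ?_⟩
  intro V _ Gs S0 R P K t1 hn hPc hGs hS0 hR hX hdis hRd hRe hdeg hreg U hU hUm hUc hsum
  obtain ⟨mm0, h0, h0n⟩ := H V Gs S0 R P K hn hPc hGs hS0 hR hX hdis hRd hRe hdeg hreg U hU
    hUm hUc
  -- the graph of the edges that are not used
  obtain ⟨B, hBdef⟩ : ∃ B : SimpleGraph V, ∀ a b, B.Adj a b ↔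
      ((S0 ⊔ R).Adj a b ∧ ∀ ℓ < K, mm0 ℓ a ≠ b) := by
    refine ⟨⟨fun a b => (S0 ⊔ R).Adj a b ∧ ∀ ℓ < K, mm0 ℓ a ≠ b, ?_, ?_⟩, fun a b => Iff.rfl⟩
    · refine ⟨fun a b hab => ⟨hab.1.symm, ?_⟩⟩
      intro ℓ hℓ he
      apply hab.2 ℓ hℓ
      rw [← he]
      exact h0.inv ℓ hℓ b
    · exact ⟨fun a haa => (S0 ⊔ R).loopless.irrefl a haa.1⟩
  have hBB : Bip B P := by
    intro a b hab
    have h1 := ((hBdef a b).1 hab).1
    rw [SimpleGraph.sup_adj] at h1
    rcases h1 with h1 | h1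
    · exact hS0 a b h1
    · exact hR a b h1
  -- degrees
  have hBd : ∀ v, dg B v = t1 := by
    intro v
    have e1 : dg (S0 ⊔ R) v = dg S0 v + dg R v := by
      unfold dg
      rw [← Finset.card_union_of_disjoint]
      · apply congrArg Finset.card
        ext u
        simp only [Finset.mem_filter, Finset.mem_univ, true_and, Finset.mem_union,
          SimpleGraph.sup_adj]
      · rw [Finset.disjoint_left]
        intro u hu1 hu2
        rw [Finset.mem_filter] at hu1 hu2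
        exact hdis v u hu1.2 hu2.2
    have e2 : ((range K).filter fun ℓ => v ∉ U ℓ).card + mul K U v = K := by
      have h1 := Finset.card_filter_add_card_filter_not (s := range K) (fun ℓ => v ∈ U ℓ)
      rw [Finset.card_range] at h1
      unfold mul
      omega
    have e3 : (((range K).filter fun ℓ => v ∉ U ℓ).image fun ℓ => mm0 ℓ v).card =
        ((range K).filter fun ℓ => v ∉ U ℓ).card := by
      apply Finset.card_image_of_injOn
      intro i hi j hj hij
      rw [Finset.mem_coe, Finset.mem_filter, Finset.mem_range] at hi hj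
      by_contra hne
      exact h0.dis i hi.1 j hj.1 hne v (h0n i hi.1 v hi.2) hij
    have e4 : dg (S0 ⊔ R) v = dg B v +
        (((range K).filter fun ℓ => v ∉ U ℓ).image fun ℓ => mm0 ℓ v).card := by
      unfold dg
      rw [← Finset.card_union_of_disjoint]
      · apply congrArg Finset.card
        ext u
        simp only [Finset.mem_union, Finset.mem_filter, Finset.mem_image, Finset.mem_univ,
          true_and, hBdef, Finset.mem_range]
        constructor
        · intro hu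
          by_cases hc : ∀ ℓ < K, mm0 ℓ v ≠ u
          · exact Or.inl ⟨hu, hc⟩
          · right
            push Not at hc
            obtain ⟨ℓ, hℓ, he⟩ := hc
            refine ⟨ℓ, ⟨hℓ, ?_⟩, he⟩
            intro hv
            have h1 := h0.fix ℓ hℓ v hv
            rw [he] at h1
            rw [h1] at hu
            exact (S0 ⊔ R).loopless.irrefl v hu
        · rintro (⟨hu, _⟩ | ⟨ℓ, hℓ, he⟩)
          · exact hu
          · rw [← he]
            exact h0.adj ℓ hℓ.1 v (h0n ℓ hℓ.1 v hℓ.2)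
      · rw [Finset.disjoint_left]
        intro u hu1 hu2
        rw [Finset.mem_filter, hBdef] at hu1
        rw [Finset.mem_image] at hu2
        obtain ⟨ℓ, hℓ, he⟩ := hu2
        rw [Finset.mem_filter, Finset.mem_range] at hℓ
        exact hu1.2.2 ℓ hℓ.1 he
    have e5 := hsum v
    omega
  obtain ⟨mm1, h1, h1n⟩ := kng B P hBB t1 hBd
  have hlt : ∀ ℓ, ℓ < K + t1 → ¬ ℓ < K → ℓ - K < t1 := by
    intro ℓ a b
    omega
  refine ⟨fun ℓ => if ℓ < K then mm0 ℓ else mm1 (ℓ - K), ⟨?_, ?_, ?_, ?_⟩, ?_⟩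
  · intro ℓ hℓ
    by_cases hK : ℓ < K
    · simp only [if_pos hK]
      exact h0.inv ℓ hK
    · simp only [if_neg hK]
      exact h1.inv _ (hlt ℓ hℓ hK)
  · intro ℓ hℓ v hv
    by_cases hK : ℓ < K
    · simp only [if_pos hK] at hv ⊢
      exact h0.adj ℓ hK v hv
    · simp only [if_neg hK] at hv ⊢
      exact ((hBdef _ _).1 (h1.adj _ (hlt ℓ hℓ hK) v hv)).1
  · intro i hi j hj hij v hv
    by_cases hK : i < K
    · by_cases hK2 : j < K
      · simp only [if_pos hK, if_pos hK2] at hv ⊢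
        exact h0.dis i hK j hK2 hij v hv
      · simp only [if_pos hK, if_neg hK2] at hv ⊢
        exact ((hBdef _ _).1 (h1.adj _ (hlt j hj hK2) v (h1n _ (hlt j hj hK2) v))).2 i hK
    · by_cases hK2 : j < K
      · simp only [if_neg hK, if_pos hK2] at hv ⊢
        exact fun he => ((hBdef _ _).1 (h1.adj _ (hlt i hi hK) v hv)).2 j hK2 he.symm
      · simp only [if_neg hK, if_neg hK2] at hv ⊢
        exact h1.dis _ (hlt i hi hK) _ (hlt j hj hK2) (by omega) v hv
  · intro ℓ hℓ v hv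
    by_cases hK : ℓ < K
    · simp only [if_pos hK] at hv ⊢
      exact h0.fix ℓ hK v hv
    · simp only [if_neg hK] at hv
      exact absurd hv (Finset.notMem_empty v)
  · intro ℓ hℓ v hv
    by_cases hK : ℓ < K
    · simp only [if_pos hK]
      exact h0n ℓ hK v (hv hK)
    · simp only [if_neg hK]
      exact h1n _ (hlt ℓ hℓ hK) v

end Pool.Agent.H71.TD
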