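import Mathlib
import Pool.Agent.H71.TD.Ptb

/-!
PTS: `ptb` (`TD/Ptb.lean`, use only the STATEMENT) for two disjoint sets `P, Q` of vertices of a larger vertex set. Compare `DC/Coc.lean` (proved; transfer of `core3L` to a set of vertices; copy its private lemmas).

Proof.  Same constants. `V1 := {v // v ∈ P ∪ Q}`, `P1 := {v : V1 | v.1 ∈ P}` (so `univ \ P1` is `{v : V1 | v.1 ∈ Q}`), the graphs are the `comap`s under `Subtype.val`. `S0` and `R` only have edges between `P` and `Q`, so degrees of vertices of `P ∪ Q` are the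
same in `V1`. For `Gs` take `Gs1.Adj a b := Gs.Adj a.1 b.1 ∧ (a.1 ∈ P ↔ b.1 ∉ P)`, a bipartite graph on `V1`: its degrees are `#{u ∈ Q : Gs.Adj v u}` for `v ∈ P` and `#{u ∈ P : Gs.Adj v u}` for `v ∈ Q`, and `ee Gs1 A Y = ee Gs A Y` (images) for `Opp P1 A Y`, i.e.
`A ⊆ P, Y ⊆ Q` or `A ⊆ Q, Y ⊆ P`. `U1 ℓ := {v : V1 | v.1 ∈ U ℓ}` (so `#(U1 ℓ) = #(U ℓ ∩ (P ∪ Q))`, `mul K U1 v = mul K U v.1`). `mm ℓ v := if h : v ∈ P ∪ Q then (mm1 ℓ ⟨v, h⟩).1 else v`.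
-/

set_option autoImplicit false

namespace Pool.Agent.H71.TD

open Finset Classical
open Pool.Agent.H71.DN Pool.Agent.H71.DX Pool.Agent.H71.DR Pool.Agent.H71.HL Pool.Agent.H71.DC

private theorem pts_cf {α : Type} (s : Finset α) (p q : α → Prop) (dp : DecidablePred p)
    (dq : DecidablePred q) (h : ∀ x ∈ s, p x ↔ q x) :
    (@Finset.filter α p dp s).card = (@Finset.filter α q dq s).card := by
  rw [@Finset.filter_congr α p q dp dq s h]

private theorem pts_sd {α : Type} (i : DecidableEq α) (s t : Finset α) (a : α) :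
    a ∈ s \ t ↔ a ∈ s ∧ a ∉ t := Finset.mem_sdiff

private theorem pts_dg {V : Type} [Fintype V] (G : SimpleGraph V) (S : Finset V)
    (hG : ∀ a b, G.Adj a b → b ∈ S) (v : {v : V // v ∈ S}) :
    dg (G.comap (fun v : {v : V // v ∈ S} => v.1)) v = dg G v.1 := by
  unfold dg
  refine Finset.card_bij (fun u _ => u.1) ?_ ?_ ?_
  · intro u hu
    rw [mem_filter] at hu ⊢
    exact ⟨mem_univ _, hu.2⟩
  · intro a _ b _ h
    exact Subtype.ext h
  · intro b hb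
    rw [mem_filter] at hb
    refine ⟨⟨b, hG _ _ hb.2⟩, ?_, rfl⟩
    rw [mem_filter]
    exact ⟨mem_univ _, hb.2⟩

private theorem pts_ee {V : Type} [Fintype V] (G : SimpleGraph V) (S : Finset V)
    (G1 : SimpleGraph {v : V // v ∈ S}) (A B : Finset {v : V // v ∈ S})
    (h1 : ∀ a ∈ A, ∀ b ∈ B, (G1.Adj a b ↔ G.Adj a.1 b.1)) :
    ee G1 A B =
      ee G (A.map (Function.Embedding.subtype _)) (B.map (Function.Embedding.subtype _)) := by
  unfold ee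
  refine Finset.card_bij (fun x _ => (x.1.1, x.2.1)) ?_ ?_ ?_
  · intro x hx
    rw [mem_filter, mem_product] at hx ⊢
    exact ⟨⟨mem_map_of_mem _ hx.1.1, mem_map_of_mem _ hx.1.2⟩,
      (h1 _ hx.1.1 _ hx.1.2).1 hx.2⟩
  · intro a _ b _ h
    rw [Prod.ext_iff] at h
    exact Prod.ext (Subtype.ext h.1) (Subtype.ext h.2)
  · intro b hb
    rw [mem_filter, mem_product, mem_map, mem_map] at hb
    obtain ⟨⟨⟨x, hx, hx1⟩, ⟨y, hy, hy1⟩⟩, hadj⟩ := hb
    refine ⟨(x, y), ?_, Prod.ext hx1 hy1⟩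
    rw [mem_filter, mem_product]
    refine ⟨⟨hx, hy⟩, (h1 x hx y hy).2 ?_⟩
    rw [← hx1, ← hy1] at hadj
    exact hadj

private theorem pts_opp {V : Type} (P Q : Finset V) (P1 : Finset {v : V // v ∈ P ∪ Q})
    (hP1 : ∀ v, v ∈ P1 ↔ v.1 ∈ P) (A Y : Finset {v : V // v ∈ P ∪ Q}) (h : Opp P1 A Y) :
    ((A.map (Function.Embedding.subtype _)) ⊆ P ∧ (Y.map (Function.Embedding.subtype _)) ⊆ Q) ∨
      ((A.map (Function.Embedding.subtype _)) ⊆ Q ∧
        (Y.map (Function.Embedding.subtype _)) ⊆ P) := by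
  have hsub : ∀ B : Finset {v : V // v ∈ P ∪ Q}, B ⊆ P1 →
      (B.map (Function.Embedding.subtype _)) ⊆ P := by
    intro B hB x hx
    rw [mem_map] at hx
    obtain ⟨y, hy, rfl⟩ := hx
    exact (hP1 y).1 (hB hy)
  have hdis : ∀ B : Finset {v : V // v ∈ P ∪ Q}, Disjoint B P1 →
      (B.map (Function.Embedding.subtype _)) ⊆ Q := by
    intro B hB x hx
    rw [mem_map] at hx
    obtain ⟨y, hy, rfl⟩ := hx
    rcases mem_union.1 y.2 with h1 | h1
    · exact absurd ((hP1 y).2 h1) (Finset.disjoint_left.1 hB hy)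
    · exact h1
  rcases h with h | h
  · exact Or.inl ⟨hsub A h.1, hdis Y h.2⟩
  · exact Or.inr ⟨hdis A h.1, hsub Y h.2⟩

theorem pts (α ν lam q0 x : ℝ) (hα : 0 < α) (hα1 : α ≤ 1) (hν : 0 < ν) (hν1 : ν ≤ 1)
    (hl : 0 < lam) (hq : 0 < q0) (hq1 : q0 ≤ 1) (hx : 0 < x) (hl1 : 16 * lam ≤ α * q0)
    (hl2 : 64 * lam ≤ α * ν) (hl3 : 64 * lam ≤ α ^ 2) :
    ∃ (κ ρ : ℝ) (n0 : ℕ), 0 < κ ∧ 0 < ρ ∧
      ∀ (V : Type) [Fintype V] (Gs S0 R : SimpleGraph V) (P Q : Finset V) (K t1 : ℕ),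
        n0 ≤ P.card → P.card = Q.card → Disjoint P Q →
        (∀ a b, S0.Adj a b → (a ∈ P ∧ b ∈ Q) ∨ (a ∈ Q ∧ b ∈ P)) →
        (∀ a b, R.Adj a b → (a ∈ P ∧ b ∈ Q) ∨ (a ∈ Q ∧ b ∈ P)) →
        (∀ v ∈ P, α * P.card ≤ ((Q.filter fun u => Gs.Adj v u).card : ℝ)) →
        (∀ v ∈ Q, α * P.card ≤ ((P.filter fun u => Gs.Adj v u).card : ℝ)) →
        (∀ A Y : Finset V, ((A ⊆ P ∧ Y ⊆ Q) ∨ (A ⊆ Q ∧ Y ⊆ P)) →
          α / 4 * P.card ≤ (A.card : ℝ) → (A.card : ℝ) ≤ (1 - α / 8) * P.card →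
          (ee Gs A Y : ℝ) ≤ lam * (P.card : ℝ) ^ 2 →
          (A.card : ℝ) + Y.card + ν * P.card ≤ P.card) →
        (∀ a b, S0.Adj a b → ¬ R.Adj a b) →
        (∀ v ∈ P ∪ Q, q0 * P.card ≤ (dg R v : ℝ)) →
        (∀ A Y : Finset V, ((A ⊆ P ∧ Y ⊆ Q) ∨ (A ⊆ Q ∧ Y ⊆ P)) →
          lam * (P.card : ℝ) ^ 2 ≤ ee Gs A Y → q0 * (lam * (P.card : ℝ) ^ 2) ≤ ee R A Y) →
        (∀ v ∈ P ∪ Q, (K : ℝ) + x * P.card ≤ dg S0 v) →
        (∀ u ∈ P ∪ Q, ∀ v ∈ P ∪ Q, (dg S0 u : ℝ) ≤ dg S0 v + ρ * P.card) →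
        ∀ U : ℕ → Finset V, (∀ ℓ < K, ((U ℓ ∩ (P ∪ Q)).card : ℝ) ≤ κ * P.card) →
          (∀ v ∈ P ∪ Q, (mul K U v : ℝ) ≤ κ * P.card) →
          (∀ ℓ < K, (P \ U ℓ).card = (Q \ U ℓ).card) →
          (∀ v ∈ P ∪ Q, dg S0 v + dg R v + mul K U v = K + t1) →
          ∃ mm : ℕ → V → V,
            PM (S0 ⊔ R) (K + t1)
              (fun ℓ => (univ \ (P ∪ Q)) ∪ (if ℓ < K then U ℓ else ∅)) mm ∧
            ∀ ℓ < K + t1, ∀ v ∈ P ∪ Q, (ℓ < K → v ∉ U ℓ) → mm ℓ v ≠ v := by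
  obtain ⟨κ, ρ, n0, hκ, hρ, H⟩ := ptb α ν lam q0 x hα hα1 hν hν1 hl hq hq1 hx hl1 hl2 hl3
  refine ⟨κ, ρ, n0, hκ, hρ, ?_⟩
  intro V _ Gs S0 R P Q K t1 hn hPQ hdis hS0 hR hdP hdQ hgro hSR hdR hee hdS hreg U hU hmul hbal
    htot
  have hQP : ∀ v, v ∈ Q → v ∉ P := fun v h1 h2 => Finset.disjoint_left.1 hdis h2 h1
  obtain ⟨P1, hP1⟩ : ∃ P1 : Finset {v : V // v ∈ P ∪ Q}, ∀ v, v ∈ P1 ↔ v.1 ∈ P :=
    ⟨univ.filter fun v => v.1 ∈ P, fun v => by
      rw [mem_filter]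
      exact ⟨fun h => h.2, fun h => ⟨mem_univ _, h⟩⟩⟩
  have hcP : P1.card = P.card := by
    refine Finset.card_bij (fun u _ => u.1) ?_ ?_ ?_
    · intro u hu
      exact (hP1 u).1 hu
    · intro a _ b _ h
      exact Subtype.ext h
    · intro b hb
      exact ⟨⟨b, mem_union_left _ hb⟩, (hP1 _).2 hb, rfl⟩
  obtain ⟨Gs1, hGs1⟩ : ∃ Gs1 : SimpleGraph {v : V // v ∈ P ∪ Q},
      ∀ a b, (Gs1.Adj a b ↔ Gs.Adj a.1 b.1 ∧ (a.1 ∈ P ↔ b.1 ∉ P)) :=
    ⟨{ Adj := fun a b => Gs.Adj a.1 b.1 ∧ (a.1 ∈ P ↔ b.1 ∉ P)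
       symm := ⟨fun a b h => ⟨h.1.symm, by
         have h2 := h.2
         tauto⟩⟩
       loopless := ⟨fun a h => Gs.irrefl h.1⟩ }, fun a b => Iff.rfl⟩
  obtain ⟨S1, hS1⟩ : ∃ S1 : SimpleGraph {v : V // v ∈ P ∪ Q},
      S1 = S0.comap (fun v : {v : V // v ∈ P ∪ Q} => v.1) := ⟨_, rfl⟩
  obtain ⟨R1, hR1⟩ : ∃ R1 : SimpleGraph {v : V // v ∈ P ∪ Q},
      R1 = R.comap (fun v : {v : V // v ∈ P ∪ Q} => v.1) := ⟨_, rfl⟩
  have hS1a : ∀ a b, (S1.Adj a b ↔ S0.Adj a.1 b.1) := by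
    intro a b
    rw [hS1]
    exact Iff.rfl
  have hR1a : ∀ a b, (R1.Adj a b ↔ R.Adj a.1 b.1) := by
    intro a b
    rw [hR1]
    exact Iff.rfl
  have hin : ∀ F : SimpleGraph V, (∀ a b, F.Adj a b → (a ∈ P ∧ b ∈ Q) ∨ (a ∈ Q ∧ b ∈ P)) →
      ∀ a b, F.Adj a b → b ∈ P ∪ Q := by
    intro F hF a b h
    rcases hF a b h with h1 | h1
    · exact mem_union_right _ h1.2
    · exact mem_union_left _ h1.2
  have hbip : ∀ F : SimpleGraph V, (∀ a b, F.Adj a b → (a ∈ P ∧ b ∈ Q) ∨ (a ∈ Q ∧ b ∈ P)) →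
      ∀ a b, F.Adj a b → (a ∈ P ↔ b ∉ P) := by
    intro F hF a b h
    rcases hF a b h with h1 | h1
    · exact ⟨fun _ => hQP b h1.2, fun _ => h1.1⟩
    · exact ⟨fun h2 => absurd h2 (hQP a h1.1), fun h2 => absurd h1.2 h2⟩
  have hdS1 : ∀ v : {v : V // v ∈ P ∪ Q}, dg S1 v = dg S0 v.1 := by
    intro v
    rw [hS1]
    exact pts_dg S0 (P ∪ Q) (hin S0 hS0) v
  have hdR1 : ∀ v : {v : V // v ∈ P ∪ Q}, dg R1 v = dg R v.1 := by
    intro v
    rw [hR1]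
    exact pts_dg R (P ∪ Q) (hin R hR) v
  obtain ⟨U1, hU1⟩ : ∃ U1 : ℕ → Finset {v : V // v ∈ P ∪ Q}, ∀ ℓ v, v ∈ U1 ℓ ↔ v.1 ∈ U ℓ :=
    ⟨fun ℓ => univ.filter fun v => v.1 ∈ U ℓ, fun ℓ v => by
      rw [mem_filter]
      exact ⟨fun h => h.2, fun h => ⟨mem_univ _, h⟩⟩⟩
  have hmul1 : ∀ v : {v : V // v ∈ P ∪ Q}, mul K U1 v = mul K U v.1 := by
    intro v
    unfold mul
    refine pts_cf _ _ _ _ _ (fun ℓ _ => hU1 ℓ v)
  have hoa : ∀ A Y : Finset {v : V // v ∈ P ∪ Q}, Opp P1 A Y → ∀ a ∈ A, ∀ b ∈ Y,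
      (Gs1.Adj a b ↔ Gs.Adj a.1 b.1) := by
    intro A Y hAY a ha b hb
    rw [hGs1]
    refine ⟨fun h => h.1, fun h => ⟨h, ?_⟩⟩
    rcases hAY with h1 | h1
    · have h2 := (hP1 a).1 (h1.1 ha)
      have h3 : b.1 ∉ P := fun h4 => Finset.disjoint_left.1 h1.2 hb ((hP1 b).2 h4)
      exact ⟨fun _ => h3, fun _ => h2⟩
    · have h2 : a.1 ∉ P := fun h4 => Finset.disjoint_left.1 h1.1 ha ((hP1 a).2 h4)
      have h3 := (hP1 b).1 (h1.2 hb)
      exact ⟨fun h4 => absurd h4 h2, fun h4 => absurd h3 h4⟩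
  obtain ⟨mm0, hPM, hcov⟩ := H {v : V // v ∈ P ∪ Q} Gs1 S1 R1 P1 K t1
    (by
      rw [hcP]
      exact hn)
    (by
      rw [hcP, hPQ]
      symm
      refine Finset.card_bij (fun u _ => u.1) ?_ ?_ ?_
      · intro u hu
        have hu1 := (pts_sd _ _ _ _).1 hu
        rcases mem_union.1 u.2 with h1 | h1
        · exact absurd ((hP1 u).2 h1) hu1.2
        · exact h1
      · intro a _ b _ h
        exact Subtype.ext h
      · intro b hb
        refine ⟨⟨b, mem_union_right _ hb⟩, ?_, rfl⟩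
        exact (pts_sd _ _ _ _).2 ⟨mem_univ _, fun h => hQP b hb ((hP1 _).1 h)⟩)
    (by
      intro a b h
      rw [hP1, hP1]
      exact ((hGs1 a b).1 h).2)
    (by
      intro a b h
      rw [hP1, hP1]
      exact hbip S0 hS0 a.1 b.1 ((hS1a a b).1 h))
    (by
      intro a b h
      rw [hP1, hP1]
      exact hbip R hR a.1 b.1 ((hR1a a b).1 h))
    (by
      refine ⟨?_, ?_⟩
      · intro v
        rw [hcP]
        rcases mem_union.1 v.2 with h1 | h1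
        · refine le_trans (hdP v.1 h1) (le_of_eq ?_)
          rw [Nat.cast_inj]
          unfold dg
          symm
          refine Finset.card_bij (fun u _ => u.1) ?_ ?_ ?_
          · intro u hu
            rw [mem_filter] at hu ⊢
            have h2 := (hGs1 v u).1 hu.2
            refine ⟨?_, h2.1⟩
            rcases mem_union.1 u.2 with h3 | h3
            · exact absurd h3 (h2.2.1 h1)
            · exact h3
          · intro a _ b _ h
            exact Subtype.ext h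
          · intro b hb
            rw [mem_filter] at hb
            refine ⟨⟨b, mem_union_right _ hb.1⟩, ?_, rfl⟩
            rw [mem_filter]
            exact ⟨mem_univ _, (hGs1 _ _).2 ⟨hb.2, fun _ => hQP b hb.1, fun _ => h1⟩⟩
        · refine le_trans (hdQ v.1 h1) (le_of_eq ?_)
          rw [Nat.cast_inj]
          unfold dg
          symm
          refine Finset.card_bij (fun u _ => u.1) ?_ ?_ ?_
          · intro u hu
            rw [mem_filter] at hu ⊢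
            have h2 := (hGs1 v u).1 hu.2
            refine ⟨?_, h2.1⟩
            by_contra h3
            exact hQP v.1 h1 (h2.2.2 h3)
          · intro a _ b _ h
            exact Subtype.ext h
          · intro b hb
            rw [mem_filter] at hb
            refine ⟨⟨b, mem_union_left _ hb.1⟩, ?_, rfl⟩
            rw [mem_filter]
            exact ⟨mem_univ _, (hGs1 _ _).2 ⟨hb.2, fun h4 => absurd h4 (hQP v.1 h1),
              fun h4 => absurd hb.1 h4⟩⟩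
      · intro A Y hAY h1 h2 h3
        rw [hcP] at h1 h2 h3 ⊢
        rw [pts_ee Gs (P ∪ Q) Gs1 A Y (hoa A Y hAY)] at h3
        have h := hgro (A.map (Function.Embedding.subtype _))
          (Y.map (Function.Embedding.subtype _)) (pts_opp P Q P1 hP1 A Y hAY)
          (by
            rw [card_map]
            exact h1)
          (by
            rw [card_map]
            exact h2) h3
        rw [card_map, card_map] at h
        exact h)
    (by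
      intro a b h h'
      exact hSR a.1 b.1 ((hS1a a b).1 h) ((hR1a a b).1 h'))
    (by
      intro v
      rw [hcP, hdR1]
      exact hdR v.1 v.2)
    (by
      intro A Y hAY h1
      rw [hcP] at h1 ⊢
      rw [pts_ee Gs (P ∪ Q) Gs1 A Y (hoa A Y hAY)] at h1
      rw [pts_ee R (P ∪ Q) R1 A Y (fun a _ b _ => hR1a a b)]
      exact hee _ _ (pts_opp P Q P1 hP1 A Y hAY) h1)
    (by
      intro v
      rw [hcP, hdS1]
      exact hdS v.1 v.2)
    (by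
      intro u v
      rw [hcP, hdS1, hdS1]
      exact hreg u.1 u.2 v.1 v.2)
    U1
    (by
      intro ℓ hℓ
      rw [hcP]
      refine le_trans (le_of_eq ?_) (hU ℓ hℓ)
      rw [Nat.cast_inj]
      refine Finset.card_bij (fun u _ => u.1) ?_ ?_ ?_
      · intro u hu
        rw [mem_inter]
        exact ⟨(hU1 ℓ u).1 hu, u.2⟩
      · intro a _ b _ h
        exact Subtype.ext h
      · intro b hb
        rw [mem_inter] at hb
        exact ⟨⟨b, hb.2⟩, (hU1 ℓ _).2 hb.1, rfl⟩)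
    (by
      intro v
      rw [hcP, hmul1]
      exact hmul v.1 v.2)
    (by
      intro ℓ hℓ
      have e2 := hbal ℓ hℓ
      refine Eq.trans ?_ (Eq.trans e2 ?_)
      · refine Finset.card_bij (fun u _ => u.1) ?_ ?_ ?_
        · intro u hu
          have hu1 := (pts_sd _ _ _ _).1 hu
          exact (pts_sd _ _ _ _).2 ⟨(hP1 u).1 hu1.1, fun h => hu1.2 ((hU1 ℓ u).2 h)⟩
        · intro a _ b _ h
          exact Subtype.ext h
        · intro b hb
          have hb1 := (pts_sd _ _ _ _).1 hb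
          refine ⟨⟨b, mem_union_left _ hb1.1⟩, ?_, rfl⟩
          exact (pts_sd _ _ _ _).2 ⟨(hP1 _).2 hb1.1, fun h => hb1.2 ((hU1 ℓ _).1 h)⟩
      · symm
        refine Finset.card_bij (fun u _ => u.1) ?_ ?_ ?_
        · intro u hu
          have hu1 := (pts_sd _ _ _ _).1 hu
          have hu2 := (pts_sd _ _ _ _).1 hu1.1
          refine (pts_sd _ _ _ _).2 ⟨?_, fun h => hu1.2 ((hU1 ℓ u).2 h)⟩
          rcases mem_union.1 u.2 with h1 | h1
          · exact absurd ((hP1 u).2 h1) hu2.2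
          · exact h1
        · intro a _ b _ h
          exact Subtype.ext h
        · intro b hb
          have hb1 := (pts_sd _ _ _ _).1 hb
          refine ⟨⟨b, mem_union_right _ hb1.1⟩, ?_, rfl⟩
          exact (pts_sd _ _ _ _).2 ⟨(pts_sd _ _ _ _).2 ⟨mem_univ _,
            fun h => hQP b hb1.1 ((hP1 _).1 h)⟩, fun h => hb1.2 ((hU1 ℓ _).1 h)⟩)
    (by
      intro v
      rw [hdS1, hdR1, hmul1]
      exact htot v.1 v.2)
  obtain ⟨mm, hmm⟩ : ∃ mm : ℕ → V → V, mm = fun ℓ v =>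
      if h : v ∈ P ∪ Q then (mm0 ℓ ⟨v, h⟩).1 else v := ⟨_, rfl⟩
  have hin' : ∀ (ℓ : ℕ) (v : V) (h : v ∈ P ∪ Q), mm ℓ v = (mm0 ℓ ⟨v, h⟩).1 := by
    intro ℓ v h
    rw [hmm]
    exact dif_pos h
  have hout' : ∀ (ℓ : ℕ) (v : V), v ∉ P ∪ Q → mm ℓ v = v := by
    intro ℓ v h
    rw [hmm]
    exact dif_neg h
  refine ⟨mm, ⟨?_, ?_, ?_, ?_⟩, ?_⟩
  · intro ℓ hℓ v
    by_cases h : v ∈ P ∪ Q
    · rw [hin' ℓ v h, hin' ℓ _ (mm0 ℓ ⟨v, h⟩).2]
      exact congrArg Subtype.val (hPM.inv ℓ hℓ ⟨v, h⟩)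
    · rw [hout' ℓ v h, hout' ℓ v h]
  · intro ℓ hℓ v hv
    by_cases h : v ∈ P ∪ Q
    · rw [hin' ℓ v h] at hv ⊢
      have h1 := hPM.adj ℓ hℓ ⟨v, h⟩ (fun h2 => hv (congrArg Subtype.val h2))
      rw [SimpleGraph.sup_adj] at h1 ⊢
      rcases h1 with h1 | h1
      · exact Or.inl ((hS1a _ _).1 h1)
      · exact Or.inr ((hR1a _ _).1 h1)
    · exact absurd (hout' ℓ v h) hv
  · intro ℓ hℓ ℓ' hℓ' hne v hv
    by_cases h : v ∈ P ∪ Q
    · rw [hin' ℓ v h] at hv ⊢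
      rw [hin' ℓ' v h]
      have h1 := hPM.dis ℓ hℓ ℓ' hℓ' hne ⟨v, h⟩ (fun h2 => hv (congrArg Subtype.val h2))
      exact fun h2 => h1 (Subtype.ext h2)
    · exact absurd (hout' ℓ v h) hv
  · intro ℓ hℓ v hv
    by_cases h : v ∈ P ∪ Q
    · rw [hin' ℓ v h]
      have hvU : v ∈ (if ℓ < K then U ℓ else ∅) := by
        rcases mem_union.1 hv with hv | hv
        · exact absurd h ((pts_sd _ _ _ _).1 hv).2
        · exact hv
      have h1 := hPM.fix ℓ hℓ ⟨v, h⟩ (by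
        by_cases hK : ℓ < K
        · rw [if_pos hK] at hvU
          rw [if_pos hK]
          exact (hU1 ℓ _).2 hvU
        · rw [if_neg hK] at hvU
          exact absurd hvU (Finset.notMem_empty _))
      exact congrArg Subtype.val h1
    · exact hout' ℓ v h
  · intro ℓ hℓ v hv h1 h2
    rw [hin' ℓ v hv] at h2
    exact hcov ℓ hℓ ⟨v, hv⟩ (fun hK h3 => h1 hK ((hU1 ℓ _).1 h3)) (Subtype.ext h2)

end Pool.Agent.H71.TD
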