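import Mathlib
import Pool.Agent.H71.TD.Defs
import Pool.Agent.H71.DR.Blw
import Pool.Agent.H71.DR.Smp

/-!
RELP: relative expansion in sampled sets, for two sets `P, Q` with `h := #P = #Q` (they may be equal or disjoint). Generalisation of `DR/Blw.lean` (`blow`, `blow2`, `reld`, proved; copy and adapt) and `DR/Smp.lean` (`smp`, proved).

`smpP`: as `smp`, with the sum over `a ∈ P` only (bound `K #P`), and with `b j ∈ Y` for all `j` (the proof of `smp` chooses the `b j` in `Y`).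
`blowP` (`X ⊆ P` sampled: `SmPQ G P Q X x η K`, `A ⊆ X`, `Y ⊆ Q`, `ee G A Y ≤ lam h²`): there is `A' ⊆ P` with `#A ≤ x #A' + (2 γ + η) h` and `ee G A' Y ≤ 4 γ h²`.
 Case `#Y ≤ γ h`: `A' = P`: `#A ≤ #X ≤ x h + η h` (the sampling property for any constant `b` with value in `Q` and `i = K`; if `Q` is empty then `P` is) and `ee G A' Y ≤ h #Y ≤ γ h²`.
 Case `#Y > γ h`: `b` from `smpP`, `g a = #{j : G.Adj (b j) a}`, `f a = #{y ∈ Y : G.Adj y a} / #Y`, `Bad = {a ∈ P : |g a - K f a| > γ K}`: `#Bad (γ K)² ≤ K h`, so `#Bad ≤ γ h`. `i := ⌊2 γ K⌋₊`, `A' := {a ∈ P : g a ≤ i}`; as in `blow`.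
`relP`: as `reld`: `4 γ1 ≤ lam0`; `blowP` for `A, Y` gives `A' ⊆ P`, then `blowP` for `Y, A'` (with `P, Q` exchanged and `X2`) gives `Y' ⊆ Q`, `ee G A' Y' ≤ 4 γ1 h²`. `#A' ≥ τ h`. If `#A' ≤ (1 - τ) h` then `XPQ` gives `#A' + #Y' + ν h ≤ #Q = h`: the first
 alternative. If `#A' > (1 - τ) h`: every `y ∈ Y'` has at least `α h - τ h ≥ (α/2) h` neighbours in `A'` (degrees into `P`), so `#Y' ≤ (8 γ1 / α) h`: the second one.
-/

set_option autoImplicit false

namespace Pool.Agent.H71.TD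

open Finset Classical
open Pool.Agent.H71.DN Pool.Agent.H71.DX Pool.Agent.H71.DR Pool.Agent.H71.HL Pool.Agent.H71.DC

theorem RelP_step {V : Type} (P Y : Finset V) (hY : Y.Nonempty) (e : V → V → ℝ)
    (he0 : ∀ y a, 0 ≤ e y a) (he1 : ∀ y a, e y a ≤ 1) (D : V → ℝ) :
    ∃ y ∈ Y, ∑ a ∈ P, (D a + (e y a - (∑ y ∈ Y, e y a) / Y.card)) ^ 2 ≤
      ∑ a ∈ P, D a ^ 2 + P.card := by
  have hc : (0 : ℝ) < (Y.card : ℝ) := by
    exact_mod_cast hY.card_pos
  apply Finset.exists_le_of_sum_le hY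
  rw [Finset.sum_comm, Finset.sum_const, nsmul_eq_mul]
  have h1 : ∀ a, ∑ y ∈ Y, (D a + (e y a - (∑ y ∈ Y, e y a) / Y.card)) ^ 2 ≤ Y.card * (D a ^ 2 + 1) := by
    intro a
    have hs : (∑ y ∈ Y, e y a) / Y.card ≤ 1 := by
      rw [div_le_one hc]
      calc ∑ y ∈ Y, e y a ≤ ∑ _y ∈ Y, (1 : ℝ) := Finset.sum_le_sum (fun y _ => he1 y a)
        _ = Y.card := by simp
    have hs0 : 0 ≤ (∑ y ∈ Y, e y a) / Y.card := div_nonneg (Finset.sum_nonneg (fun y _ => he0 y a)) hc.le
    obtain ⟨m, hm⟩ : ∃ m : ℝ, m = (∑ y ∈ Y, e y a) / Y.card := ⟨_, rfl⟩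
    rw [← hm] at hs hs0 ⊢
    have hm' : ∑ y ∈ Y, e y a = m * Y.card := by
      rw [hm]
      field_simp
    have h2 : ∑ y ∈ Y, (D a + (e y a - m)) ^ 2 =
        Y.card * D a ^ 2 + 2 * D a * (∑ y ∈ Y, e y a - m * Y.card) + ∑ y ∈ Y, (e y a - m) ^ 2 := by
      have h3 : ∀ y ∈ Y, (D a + (e y a - m)) ^ 2 =
          D a ^ 2 + (2 * D a * e y a + (-(2 * D a * m) + (e y a - m) ^ 2)) := fun y _ => by ring
      rw [Finset.sum_congr rfl h3, Finset.sum_add_distrib, Finset.sum_add_distrib,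
        Finset.sum_add_distrib, ← Finset.mul_sum, Finset.sum_const, Finset.sum_const,
        nsmul_eq_mul, nsmul_eq_mul]
      ring
    rw [h2, hm', sub_self, mul_zero, add_zero, mul_add, mul_one]
    have h4 : ∑ y ∈ Y, (e y a - m) ^ 2 ≤ Y.card := by
      calc ∑ y ∈ Y, (e y a - m) ^ 2 ≤ ∑ _y ∈ Y, (1 : ℝ) := by
            apply Finset.sum_le_sum
            intro y _
            have := he0 y a
            have := he1 y a
            rw [sq_le_one_iff_abs_le_one, abs_le]
            constructor <;> linarith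
        _ = Y.card := by simp
    linarith
  refine (Finset.sum_le_sum (fun a _ => h1 a)).trans ?_
  rw [← Finset.mul_sum, Finset.sum_add_distrib]
  simp

theorem RelP_main {V : Type} (P Y : Finset V) (hY : Y.Nonempty) (e : V → V → ℝ)
    (he0 : ∀ y a, 0 ≤ e y a) (he1 : ∀ y a, e y a ≤ 1) (K : ℕ) :
    ∃ b : Fin K → V, (∀ j, b j ∈ Y) ∧
      ∑ a ∈ P, ((∑ j, e (b j) a) - K * ((∑ y ∈ Y, e y a) / Y.card)) ^ 2 ≤ K * P.card := by
  induction K with
  | zero => exact ⟨Fin.elim0, fun j => j.elim0, by simp⟩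
  | succ K ih =>
    obtain ⟨b, hbY, hb⟩ := ih
    obtain ⟨y, hyY, hy⟩ := RelP_step P Y hY e he0 he1
      (fun a => (∑ j, e (b j) a) - K * ((∑ y ∈ Y, e y a) / Y.card))
    refine ⟨Fin.snoc (α := fun _ => V) b y, ?_, ?_⟩
    · intro j
      refine Fin.lastCases ?_ (fun i => ?_) j
      · rw [Fin.snoc_last]
        exact hyY
      · rw [Fin.snoc_castSucc]
        exact hbY i
    have h1 : ∀ a, ∑ j, e ((Fin.snoc (α := fun _ => V) b y : Fin (K + 1) → V) j) a =
        (∑ j, e (b j) a) + e y a := by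
      intro a
      rw [Fin.sum_univ_castSucc]
      simp only [Fin.snoc_castSucc, Fin.snoc_last]
    have h2 : ∑ a ∈ P, ((∑ j, e ((Fin.snoc (α := fun _ => V) b y : Fin (K + 1) → V) j) a) -
        ((K + 1 : ℕ) : ℝ) * ((∑ y ∈ Y, e y a) / Y.card)) ^ 2 =
        ∑ a ∈ P, ((∑ j, e (b j) a) - K * ((∑ y ∈ Y, e y a) / Y.card) +
          (e y a - (∑ y ∈ Y, e y a) / Y.card)) ^ 2 := by
      apply Finset.sum_congr rfl
      intro a _
      rw [h1 a]
      push_cast
      ring
    rw [h2]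
    push_cast
    linarith

theorem RelP_smp {V : Type} [Fintype V] (G : SimpleGraph V) (P Y : Finset V) (hY : Y.Nonempty)
    (K : ℕ) :
    ∃ b : Fin K → V, (∀ j, b j ∈ Y) ∧ ∑ a ∈ P, (((univ.filter fun j => G.Adj (b j) a).card : ℝ) -
      K * (((Y.filter fun y => G.Adj y a).card : ℝ) / Y.card)) ^ 2 ≤ K * P.card := by
  obtain ⟨b, hbY, hb⟩ := RelP_main P Y hY (fun y a => if G.Adj y a then 1 else 0)
    (fun y a => by split_ifs <;> norm_num) (fun y a => by split_ifs <;> norm_num) K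
  refine ⟨b, hbY, ?_⟩
  simp only [Finset.sum_boole] at hb
  exact hb

theorem RelP_blow {V : Type} [Fintype V] (G : SimpleGraph V) (P Q X A Y : Finset V)
    (x η γ lam : ℝ) (K : ℕ) (hPQ : P.card = Q.card) (hS : SmPQ G P Q X x η K) (hγ : 0 < γ)
    (hγ1 : γ ≤ 1) (hK : 1 ≤ K * γ ^ 3) (hlam : lam ≤ γ ^ 3) (hX : X ⊆ P) (hA : A ⊆ X)
    (hY : Y ⊆ Q) (h : (ee G A Y : ℝ) ≤ lam * (P.card : ℝ) ^ 2) :
    ∃ A' : Finset V, A' ⊆ P ∧ (A.card : ℝ) ≤ x * A'.card + (2 * γ + η) * P.card ∧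
      (ee G A' Y : ℝ) ≤ 4 * γ * (P.card : ℝ) ^ 2 := by
  have hn0 : (0 : ℝ) ≤ (P.card : ℝ) := Nat.cast_nonneg _
  have hYn : (Y.card : ℝ) ≤ P.card := by
    rw [hPQ]
    exact_mod_cast card_le_card hY
  by_cases hYc : (Y.card : ℝ) ≤ γ * P.card
  · rcases Q.eq_empty_or_nonempty with hQ | ⟨v0, hv0⟩
    · have hP0 : P.card = 0 := by rw [hPQ, hQ, card_empty]
      have hPe : P = ∅ := card_eq_zero.mp hP0
      have hAe : A = ∅ := by
        have h1 : A ⊆ ∅ := hPe ▸ (hA.trans hX)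
        exact subset_empty.mp h1
      refine ⟨∅, empty_subset _, ?_, ?_⟩
      · rw [hAe, hP0]
        simp
      · have h0 : ee G ∅ Y = 0 := by
          unfold ee
          simp
        rw [h0]
        push_cast
        positivity
    · refine ⟨P, Subset.refl _, ?_, ?_⟩
      · have hs := hS (fun _ => v0) (fun _ => hv0) K
        have e0 : ∀ a : V, (univ.filter fun j : Fin K => G.Adj ((fun _ => v0) j) a).card ≤ K := by
          intro a
          exact (card_filter_le _ _).trans (by simp)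
        rw [filter_true_of_mem (fun a _ => e0 a), filter_true_of_mem (fun a _ => e0 a)] at hs
        have h3 := (abs_le.mp hs).2
        have h4 : (A.card : ℝ) ≤ X.card := by exact_mod_cast card_le_card hA
        nlinarith
      · have h5 : (ee G P Y : ℝ) ≤ (P.card : ℝ) * Y.card := by
          have := DrBlw_le G P Y
          exact_mod_cast this
        nlinarith
  · push Not at hYc
    have hYpos : (0 : ℝ) < Y.card := lt_of_le_of_lt (by positivity) hYc
    have hYne : Y.Nonempty := by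
      rw [← card_pos]
      exact_mod_cast hYpos
    obtain ⟨b, hbY, hb⟩ := RelP_smp G P Y hYne K
    obtain ⟨g, hg⟩ : ∃ g : V → ℕ, g = fun a => (univ.filter fun j => G.Adj (b j) a).card :=
      ⟨_, rfl⟩
    obtain ⟨f, hf⟩ : ∃ f : V → ℝ, f = fun a =>
      ((Y.filter fun y => G.Adj y a).card : ℝ) / Y.card := ⟨_, rfl⟩
    have hb' : ∑ a ∈ P, ((g a : ℝ) - K * f a) ^ 2 ≤ K * P.card := by
      rw [hg, hf]
      exact hb
    have hKpos : (0 : ℝ) < K := by
      by_contra hcon
      push Not at hcon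
      have : (K : ℝ) * γ ^ 3 ≤ 0 := mul_nonpos_of_nonpos_of_nonneg hcon (by positivity)
      linarith
    have hfY : ∀ a, ((Y.filter fun y => G.Adj y a).card : ℝ) = Y.card * f a := by
      intro a
      rw [hf]
      show ((Y.filter fun y => G.Adj y a).card : ℝ) =
        Y.card * (((Y.filter fun y => G.Adj y a).card : ℝ) / Y.card)
      rw [← mul_div_assoc, mul_div_cancel_left₀ _ hYpos.ne']
    have hf0 : ∀ a, 0 ≤ f a := fun a => by
      rw [hf]
      show 0 ≤ ((Y.filter fun y => G.Adj y a).card : ℝ) / Y.card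
      exact div_nonneg (Nat.cast_nonneg _) hYpos.le
    obtain ⟨Bad, hBad⟩ : ∃ Bad : Finset V, Bad =
      P.filter (fun a => γ * K < |(g a : ℝ) - K * f a|) := ⟨_, rfl⟩
    have hBadc : (Bad.card : ℝ) ≤ γ * P.card := by
      have h1 : (Bad.card : ℝ) * (γ * K) ^ 2 ≤ K * P.card := by
        calc (Bad.card : ℝ) * (γ * K) ^ 2 = ∑ _a ∈ Bad, (γ * K : ℝ) ^ 2 := by
              rw [sum_const, nsmul_eq_mul]
          _ ≤ ∑ a ∈ Bad, ((g a : ℝ) - K * f a) ^ 2 := by
              refine sum_le_sum (fun a ha => ?_)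
              rw [hBad] at ha
              have h2 := (mem_filter.mp ha).2
              rw [← sq_abs ((g a : ℝ) - K * f a)]
              exact pow_le_pow_left₀ (by positivity) h2.le 2
          _ ≤ ∑ a ∈ P, ((g a : ℝ) - K * f a) ^ 2 := by
              rw [hBad]
              exact sum_le_sum_of_subset_of_nonneg (filter_subset _ _)
                (fun _ _ _ => sq_nonneg _)
          _ ≤ K * P.card := hb'
      have h3 : (Bad.card : ℝ) * (γ ^ 2 * K) ≤ P.card := by
        have h4 : (K : ℝ) * ((Bad.card : ℝ) * (γ ^ 2 * K)) ≤ (K : ℝ) * P.card := by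
          calc (K : ℝ) * ((Bad.card : ℝ) * (γ ^ 2 * K)) = (Bad.card : ℝ) * (γ * K) ^ 2 := by ring
            _ ≤ (K : ℝ) * P.card := h1
        exact le_of_mul_le_mul_left h4 hKpos
      calc (Bad.card : ℝ) ≤ (Bad.card : ℝ) * (K * γ ^ 3) := by
            have : (0 : ℝ) ≤ Bad.card := Nat.cast_nonneg _
            nlinarith
        _ = γ * ((Bad.card : ℝ) * (γ ^ 2 * K)) := by ring
        _ ≤ γ * P.card := mul_le_mul_of_nonneg_left h3 hγ.le
    obtain ⟨i, hi⟩ : ∃ i : ℕ, i = ⌊2 * γ * K⌋₊ := ⟨_, rfl⟩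
    have hi1 : (i : ℝ) ≤ 2 * γ * K := by
      rw [hi]
      exact Nat.floor_le (by positivity)
    have hi2 : 2 * γ * K < (i : ℝ) + 1 := by
      rw [hi]
      exact Nat.lt_floor_add_one _
    obtain ⟨A', hA'⟩ : ∃ A' : Finset V, A' = P.filter (fun a => g a ≤ i) := ⟨_, rfl⟩
    have hs := hS b (fun j => hY (hbY j)) i
    have hs1 := (abs_le.mp hs).2
    have hs2 : ((X.filter fun a => g a ≤ i).card : ℝ) - x * (A'.card : ℝ)
        ≤ η * P.card := by
      rw [hA', hg]
      exact hs1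
    have hnpos : (0 : ℝ) < P.card := lt_of_lt_of_le hYpos hYn
    refine ⟨A', ?_, ?_, ?_⟩
    · rw [hA']
      exact filter_subset _ _
    · obtain ⟨W, hW⟩ : ∃ W : Finset V, W = A.filter (fun a => γ < f a) := ⟨_, rfl⟩
      have hWc : (W.card : ℝ) ≤ γ * P.card := by
        have h1 : (ee G A Y : ℝ) = Y.card * ∑ a ∈ A, f a := by
          rw [DrBlw_sum, mul_sum]
          exact sum_congr rfl (fun a _ => hfY a)
        have h2 : (W.card : ℝ) * γ ≤ ∑ a ∈ A, f a := by
          calc (W.card : ℝ) * γ = ∑ _a ∈ W, γ := by rw [sum_const, nsmul_eq_mul]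
            _ ≤ ∑ a ∈ W, f a := by
              refine sum_le_sum (fun a ha => ?_)
              rw [hW] at ha
              exact ((mem_filter.mp ha).2).le
            _ ≤ ∑ a ∈ A, f a := by
              rw [hW]
              exact sum_le_sum_of_subset_of_nonneg (filter_subset _ _) (fun a _ _ => hf0 a)
        have h3 : (Y.card : ℝ) * ((W.card : ℝ) * γ) ≤ γ ^ 3 * (P.card : ℝ) ^ 2 := by
          calc (Y.card : ℝ) * ((W.card : ℝ) * γ) ≤ Y.card * ∑ a ∈ A, f a :=
                mul_le_mul_of_nonneg_left h2 hYpos.le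
            _ = (ee G A Y : ℝ) := h1.symm
            _ ≤ lam * (P.card : ℝ) ^ 2 := h
            _ ≤ γ ^ 3 * (P.card : ℝ) ^ 2 :=
              mul_le_mul_of_nonneg_right hlam (sq_nonneg _)
        have h4 : (γ * P.card) * ((W.card : ℝ) * γ) ≤
            (γ * P.card) * (γ ^ 2 * P.card) := by
          calc (γ * P.card) * ((W.card : ℝ) * γ) ≤ (Y.card : ℝ) * ((W.card : ℝ) * γ) :=
                mul_le_mul_of_nonneg_right hYc.le (mul_nonneg (Nat.cast_nonneg _) hγ.le)
            _ ≤ γ ^ 3 * (P.card : ℝ) ^ 2 := h3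
            _ = (γ * P.card) * (γ ^ 2 * P.card) := by ring
        have h5 : (W.card : ℝ) * γ ≤ γ ^ 2 * P.card :=
          le_of_mul_le_mul_left h4 (mul_pos hγ hnpos)
        have h6 : γ * (W.card : ℝ) ≤ γ * (γ * P.card) := by
          calc γ * (W.card : ℝ) = (W.card : ℝ) * γ := by ring
            _ ≤ γ ^ 2 * P.card := h5
            _ = γ * (γ * P.card) := by ring
        exact le_of_mul_le_mul_left h6 hγ
      have hsub : A ⊆ (X.filter fun a => g a ≤ i) ∪ (Bad ∪ W) := by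
        intro a ha
        by_cases h1 : g a ≤ i
        · exact mem_union_left _ (mem_filter.mpr ⟨hA ha, h1⟩)
        apply mem_union_right
        by_cases h2 : a ∈ Bad
        · exact mem_union_left _ h2
        apply mem_union_right
        rw [hW, mem_filter]
        refine ⟨ha, ?_⟩
        have h3 : |(g a : ℝ) - K * f a| ≤ γ * K := by
          by_contra hcon
          push Not at hcon
          apply h2
          rw [hBad]
          exact mem_filter.mpr ⟨hX (hA ha), hcon⟩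
        have h4 : (i : ℝ) + 1 ≤ g a := by
          have : i + 1 ≤ g a := by omega
          exact_mod_cast this
        have h5 := (abs_le.mp h3).2
        have h6 : K * γ < K * f a := by nlinarith
        exact lt_of_mul_lt_mul_left h6 hKpos.le
      have hcard : (A.card : ℝ) ≤ ((X.filter fun a => g a ≤ i).card : ℝ) +
          ((Bad.card : ℝ) + W.card) := by
        have h1 := card_le_card hsub
        have h2 := card_union_le (X.filter fun a => g a ≤ i) (Bad ∪ W)
        have h3 := card_union_le Bad W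
        have h4 : A.card ≤ (X.filter fun a => g a ≤ i).card + (Bad.card + W.card) := by omega
        exact_mod_cast h4
      linarith
    · have h1 : ∀ a ∈ A', ((Y.filter fun y => G.Adj y a).card : ℝ) ≤
          3 * γ * P.card + (if a ∈ Bad then (P.card : ℝ) else 0) := by
        intro a ha
        rw [hA'] at ha
        have h2 : g a ≤ i := (mem_filter.mp ha).2
        by_cases h3 : a ∈ Bad
        · rw [if_pos h3]
          have h4 : ((Y.filter fun y => G.Adj y a).card : ℝ) ≤ Y.card := by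
            exact_mod_cast card_filter_le _ _
          have h5 : 0 ≤ 3 * γ * (P.card : ℝ) :=
            mul_nonneg (mul_nonneg (by norm_num) hγ.le) hn0
          linarith
        · rw [if_neg h3]
          have h4 : |(g a : ℝ) - K * f a| ≤ γ * K := by
            by_contra hcon
            push Not at hcon
            apply h3
            rw [hBad]
            exact mem_filter.mpr ⟨(mem_filter.mp ha).1, hcon⟩
          have h5 := (abs_le.mp h4).1
          have h6 : (g a : ℝ) ≤ i := by exact_mod_cast h2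
          have h7 : K * f a ≤ K * (3 * γ) := by nlinarith
          have h8 : f a ≤ 3 * γ := le_of_mul_le_mul_left h7 hKpos
          rw [hfY a]
          have h9 : (Y.card : ℝ) * f a ≤ P.card * (3 * γ) :=
            mul_le_mul hYn h8 (hf0 a) hn0
          linarith
      calc (ee G A' Y : ℝ) = ∑ a ∈ A', ((Y.filter fun y => G.Adj y a).card : ℝ) := DrBlw_sum G A' Y
        _ ≤ ∑ a ∈ A', (3 * γ * P.card + (if a ∈ Bad then (P.card : ℝ) else 0)) :=
            sum_le_sum h1
        _ = A'.card * (3 * γ * P.card) +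
            ((A'.filter fun a => a ∈ Bad).card : ℝ) * P.card := by
            rw [sum_add_distrib, sum_const, nsmul_eq_mul, ← sum_filter, sum_const, nsmul_eq_mul]
        _ ≤ P.card * (3 * γ * P.card) + (γ * P.card) * P.card := by
            have h2 : (A'.card : ℝ) ≤ P.card := by
              rw [hA']
              exact_mod_cast card_filter_le _ _
            have h3 : ((A'.filter fun a => a ∈ Bad).card : ℝ) ≤ Bad.card := by
              have : (A'.filter fun a => a ∈ Bad).card ≤ Bad.card := by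
                apply card_le_card
                intro a ha
                exact (mem_filter.mp ha).2
              exact_mod_cast this
            have h4 := h3.trans hBadc
            exact add_le_add (mul_le_mul_of_nonneg_right h2
              (mul_nonneg (mul_nonneg (by norm_num) hγ.le) hn0))
              (mul_le_mul_of_nonneg_right h4 hn0)
        _ = 4 * γ * (P.card : ℝ) ^ 2 := by ring

theorem relP (α τ ν lam0 s : ℝ) (hα : 0 < α) (hα1 : α ≤ 1) (hτ : 2 * τ ≤ α) (hl : 0 < lam0)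
    (hs : 0 < s) (hs1 : s ≤ 1) :
    ∃ (lam η0 : ℝ) (K : ℕ), 0 < lam ∧ 0 < η0 ∧ 1 ≤ K ∧
      ∀ (V : Type) [Fintype V] (G : SimpleGraph V) (P Q X1 X2 A Y : Finset V) (x1 x2 η : ℝ),
        P.card = Q.card →
        (∀ y ∈ Q, α * P.card ≤ ((P.filter fun a => G.Adj y a).card : ℝ)) →
        XPQ G P Q τ ν lam0 → η ≤ η0 →
        1 / 4 ≤ x1 → x1 ≤ 1 → 1 / 4 ≤ x2 → x2 ≤ 1 → X1 ⊆ P → X2 ⊆ Q →
        SmPQ G P Q X1 x1 η K → SmPQ G Q P X2 x2 η K → A ⊆ X1 → Y ⊆ X2 →
        (ee G A Y : ℝ) ≤ lam * (P.card : ℝ) ^ 2 →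
        (τ + s) * x1 * P.card ≤ (A.card : ℝ) →
        (A.card : ℝ) / x1 + Y.card / x2 + ν * P.card ≤ (1 + s) * P.card ∨
          (Y.card : ℝ) ≤ s * P.card := by
  obtain ⟨γ1, hγ1⟩ : ∃ γ1 : ℝ, γ1 = min (lam0 / 4) (s * α / 100) := ⟨_, rfl⟩
  have hγ10 : 0 < γ1 := by
    rw [hγ1]
    exact lt_min (by positivity) (by positivity)
  have hγ1a : γ1 ≤ lam0 / 4 := by
    rw [hγ1]
    exact min_le_left _ _
  have hγ1b : γ1 ≤ s * α / 100 := by
    rw [hγ1]
    exact min_le_right _ _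
  have hsα : s * α ≤ s := by nlinarith
  have hγ1c : γ1 ≤ s / 100 := by linarith
  have hγ1d : γ1 ≤ 1 := by linarith
  obtain ⟨γ, hγd⟩ : ∃ γ : ℝ, γ = γ1 ^ 3 / 4 := ⟨_, rfl⟩
  have hγ : 0 < γ := by
    rw [hγd]
    positivity
  have h13 : γ1 ^ 3 ≤ γ1 := by
    have h1 : γ1 ^ 3 ≤ γ1 ^ 1 := pow_le_pow_of_le_one hγ10.le hγ1d (by norm_num)
    simpa using h1
  have hγle' : γ ≤ γ1 := by rw [hγd]; linarith
  have hγle : γ ≤ s / 100 := by linarith
  have hγ4 : 4 * γ ≤ γ1 ^ 3 := by rw [hγd]; linarith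
  have hKc : 1 / γ ^ 3 ≤ (⌈1 / γ ^ 3⌉₊ : ℝ) := Nat.le_ceil _
  have hK1 : 1 ≤ (⌈1 / γ ^ 3⌉₊ : ℝ) * γ ^ 3 := by
    have h1 := mul_le_mul_of_nonneg_right hKc (by positivity : (0 : ℝ) ≤ γ ^ 3)
    rwa [one_div, inv_mul_cancel₀ (by positivity), ← one_div] at h1
  have hK2 : 1 ≤ (⌈1 / γ ^ 3⌉₊ : ℝ) * γ1 ^ 3 := by
    have h1 : γ ^ 3 ≤ γ1 ^ 3 := pow_le_pow_left₀ hγ.le hγle' 3
    have h2 : (⌈1 / γ ^ 3⌉₊ : ℝ) * γ ^ 3 ≤ (⌈1 / γ ^ 3⌉₊ : ℝ) * γ1 ^ 3 :=
      mul_le_mul_of_nonneg_left h1 (Nat.cast_nonneg _)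
    linarith
  refine ⟨γ ^ 3, s / 100, ⌈1 / γ ^ 3⌉₊, by positivity, by positivity,
    Nat.one_le_ceil_iff.mpr (by positivity), ?_⟩
  intro V _ G P Q X1 X2 A Y x1 x2 η hPQ hdeg hXP hη hx1 hx1' hx2 hx2' hX1 hX2 hS1 hS2 hA hY hee hAl
  obtain ⟨A', hA'P, h1, h3'⟩ := RelP_blow G P Q X1 A Y x1 η γ (γ ^ 3) ⌈1 / γ ^ 3⌉₊ hPQ hS1 hγ
    (by linarith) hK1 le_rfl hX1 hA (hY.trans hX2) hee
  obtain ⟨Y', hY'Q, h2, h3⟩ := RelP_blow G Q P X2 Y A' x2 η γ1 (4 * γ) ⌈1 / γ ^ 3⌉₊ hPQ.symm hS2
    hγ10 hγ1d hK2 hγ4 hX2 hY hA'P (by rw [DrBlw_symm, ← hPQ]; exact h3')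
  rw [DrBlw_symm, ← hPQ] at h3
  rw [← hPQ] at h2
  have hn0 : (0 : ℝ) ≤ (P.card : ℝ) := Nat.cast_nonneg _
  rcases hn0.eq_or_lt with hn | hn
  · right
    have h5 : (Y.card : ℝ) ≤ P.card := by
      rw [hPQ]
      exact_mod_cast card_le_card (hY.trans hX2)
    rw [← hn] at h5 ⊢
    linarith
  have hx10 : 0 < x1 := by linarith
  have hx20 : 0 < x2 := by linarith
  have he1 : (2 * γ + η) * P.card ≤ x1 * (12 * s / 100 * P.card) := by
    have h4 : 2 * γ + η ≤ x1 * (12 * s / 100) := by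
      have h5 : 1 / 4 * (12 * s / 100) ≤ x1 * (12 * s / 100) :=
        mul_le_mul_of_nonneg_right hx1 (by positivity)
      linarith
    have h6 := mul_le_mul_of_nonneg_right h4 hn.le
    linarith
  have he2 : (2 * γ1 + η) * P.card ≤ x2 * (12 * s / 100 * P.card) := by
    have h4 : 2 * γ1 + η ≤ x2 * (12 * s / 100) := by
      have h5 : 1 / 4 * (12 * s / 100) ≤ x2 * (12 * s / 100) :=
        mul_le_mul_of_nonneg_right hx2 (by positivity)
      linarith
    have h6 := mul_le_mul_of_nonneg_right h4 hn.le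
    linarith
  have hA1 : (A.card : ℝ) / x1 ≤ A'.card + 12 * s / 100 * P.card := by
    rw [div_le_iff₀ hx10]
    linarith
  have hY1 : (Y.card : ℝ) / x2 ≤ Y'.card + 12 * s / 100 * P.card := by
    rw [div_le_iff₀ hx20]
    linarith
  have hsn : 0 ≤ s * (P.card : ℝ) := by positivity
  have hAlow : τ * P.card ≤ (A'.card : ℝ) := by
    have h4 : (τ + s) * P.card ≤ (A.card : ℝ) / x1 := by
      rw [le_div_iff₀ hx10]
      linarith
    nlinarith
  by_cases hc : (A'.card : ℝ) ≤ (1 - τ) * P.card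
  · left
    have h4 : (ee G A' Y' : ℝ) ≤ lam0 * (P.card : ℝ) ^ 2 := by
      have h5 : 4 * γ1 ≤ lam0 := by linarith
      have h6 := mul_le_mul_of_nonneg_right h5 (by positivity : (0 : ℝ) ≤ (P.card : ℝ) ^ 2)
      linarith
    have h7 := hXP A' Y' hA'P hY'Q hAlow hc h4
    rw [← hPQ] at h7
    nlinarith
  · right
    push Not at hc
    have h4 : ∀ y ∈ Y', α / 2 * P.card ≤ ((A'.filter fun a => G.Adj a y).card : ℝ) := by
      intro y hy
      have h5 := hdeg y (hY'Q hy)
      have h6 : (P.filter fun a => G.Adj y a).card ≤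
          (A'.filter fun a => G.Adj a y).card + (P \ A').card := by
        have h7 : (P.filter fun a => G.Adj y a) ⊆
            (A'.filter fun a => G.Adj a y) ∪ (P \ A') := by
          intro u hu
          have h8 := mem_filter.mp hu
          by_cases h9 : u ∈ A'
          · exact mem_union_left _ (mem_filter.mpr ⟨h9, h8.2.symm⟩)
          · exact mem_union_right _ (mem_sdiff.mpr ⟨h8.1, h9⟩)
        exact (card_le_card h7).trans (card_union_le _ _)
      have h7 : ((P \ A').card : ℝ) = P.card - A'.card := by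
        rw [card_sdiff_of_subset hA'P, Nat.cast_sub (card_le_card hA'P)]
      have h8 : ((P.filter fun a => G.Adj y a).card : ℝ) ≤
          ((A'.filter fun a => G.Adj a y).card : ℝ) + (P \ A').card := by
        exact_mod_cast h6
      have h9 : τ * (P.card : ℝ) ≤ α / 2 * P.card :=
        mul_le_mul_of_nonneg_right (by linarith) hn.le
      rw [h7] at h8
      nlinarith
    have h5 : (Y'.card : ℝ) * (α / 2 * P.card) ≤ (ee G A' Y' : ℝ) := by
      rw [DrBlw_swap]
      push_cast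
      calc (Y'.card : ℝ) * (α / 2 * P.card) = ∑ _y ∈ Y', (α / 2 * P.card : ℝ) := by
            rw [sum_const, nsmul_eq_mul]
        _ ≤ ∑ y ∈ Y', ((A'.filter fun a => G.Adj a y).card : ℝ) := sum_le_sum (fun y hy => h4 y hy)
    have h6 : (Y'.card : ℝ) * (α / 2 * P.card) ≤
        (8 * s / 100 * P.card) * (α / 2 * P.card) := by
      calc (Y'.card : ℝ) * (α / 2 * P.card) ≤ 4 * γ1 * (P.card : ℝ) ^ 2 :=
            h5.trans h3
        _ ≤ 4 * (s * α / 100) * (P.card : ℝ) ^ 2 :=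
            mul_le_mul_of_nonneg_right (by linarith) (by positivity)
        _ = (8 * s / 100 * P.card) * (α / 2 * P.card) := by ring
    have h7 : (Y'.card : ℝ) ≤ 8 * s / 100 * P.card :=
      le_of_mul_le_mul_right h6 (by positivity)
    have h8 : x2 * (Y'.card : ℝ) ≤ Y'.card := by
      have : (0 : ℝ) ≤ Y'.card := Nat.cast_nonneg _
      nlinarith
    have h9 : x2 * (12 * s / 100 * P.card) ≤ 12 * s / 100 * P.card := by
      have : (0 : ℝ) ≤ 12 * s / 100 * P.card := by positivity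
      nlinarith
    nlinarith

end Pool.Agent.H71.TD
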