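import Mathlib
import Pool.Agent.H71.TD.Defs3
import Pool.Agent.H71.TD.RelP
import Pool.Agent.H71.TD.Pts

/-!
PTQ: the property `PtOk` for two sampled sets `X1 ⊆ P`, `X2 ⊆ Q` of the same size (`#P = #Q`; later `P = Q` or `P, Q` are disjoint). Use the STATEMENTS of `relP` (`TD/RelP.lean`) and `pts` (`TD/Pts.lean`).

Proof (`p := #P`, `h := #X1 = #X2`, `y := ` density).  By the sampling property with a constant `b` and `i = K0`: `|h - y p| ≤ η p`; with `i = 0` also: for `v ∈ Q` `|#{a ∈ X1 : H.Adj v a} - y #{a ∈ P : H.Adj v a}| ≤ 2 η p` (compare `smpl_card`, `smpl_deg` in `DR/Fam.lean`), and the same for `v ∈ P`, `X2`, `Q`.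
 Constants: `αP := α / 2`, `s := min (ν / 4) (α / 1024)`, `νP := min (ν / 4) (α / 64)`; `relP α (α / 64) ν lam0 s` gives `lamr, ηr, K0`. `lamP := min lamr (min (αP q0 / 16) (min (αP νP / 64) (αP² / 64)))` (and `≤ 1`), `pts αP νP lamP q0 x` gives `κP, ρP, nP`; `lam := lamP / 64`, `κ := κP / 8`, `ρ := ρP / 8`, `η := min ηr (tiny)`.
 Hypotheses of `pts` for `P := X1, Q := X2`, `Gs := H`, `S0 := bt S0 X1 X2`, `R := bt SR X1 X2`:
 * degrees: `y α p - 2 η p ≥ (α/2) (y + η) p ≥ αP h`.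
 * expansion: `A ⊆ X1, Y ⊆ X2`, `αP/4 h ≤ #A ≤ (1 - αP/8) h`, `ee H A Y ≤ lamP h² ≤ lamr p²`. `#A ≥ (α/8) (y - η) p ≥ (α/64 + s) y p`. `relP` (with `x1 = x2 = y`): either `#A + #Y ≤ (1 + s - ν) y p ≤ (1 - ν/4) (y - η) p ≤ (1 - νP) h`, or `#Y ≤ s p ≤ 4.1 s h`-like `≤ (α/16 - νP) h`, so
   `#A + #Y + νP h ≤ h`. The same for `A ⊆ X2, Y ⊆ X1` with `P, Q` exchanged (`hXQ`).
 * `q0 h ≤ q0 p ≤ dg (bt SR ..) v`; `lamP h² ≤ ee H A Y` implies `lam p² ≤ ee H A Y` (`h ≥ p/8`), so `q0 (lamP h²) ≤ q0 ee H A Y ≤ ee (bt SR ..) A Y = ee SR A Y`.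
 * `K + x h ≤ K + x p`, `ρP h ≥ ρ p`, `κP h ≥ κ p`. `h ≥ p / 8 ≥ nP`.
-/

set_option autoImplicit false

namespace Pool.Agent.H71.TD

open Finset Classical
open Pool.Agent.H71.DN Pool.Agent.H71.DX Pool.Agent.H71.DR Pool.Agent.H71.HL Pool.Agent.H71.DC

private theorem ptq_card {V : Type} [Fintype V] (H : SimpleGraph V) (P Q X : Finset V)
    (y η : ℝ) (K : ℕ) (hS : SmPQ H P Q X y η K) (v : V) (hv : v ∈ Q) :
    |(X.card : ℝ) - y * P.card| ≤ η * P.card := by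
  have hs := hS (fun _ => v) (fun _ => hv) K
  have e0 : ∀ a : V, (univ.filter fun j : Fin K => H.Adj ((fun _ => v) j) a).card ≤ K := by
    intro a
    exact (card_filter_le _ _).trans (by simp)
  rw [filter_true_of_mem (fun a _ => e0 a), filter_true_of_mem (fun a _ => e0 a)] at hs
  exact hs

private theorem ptq_deg {V : Type} [Fintype V] (H : SimpleGraph V) (P Q X : Finset V)
    (y η : ℝ) (K : ℕ) (hK : 1 ≤ K) (hS : SmPQ H P Q X y η K) (v : V) (hv : v ∈ Q) :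
    |((X.filter fun a => H.Adj v a).card : ℝ) - y * ((P.filter fun a => H.Adj v a).card : ℝ)| ≤
      2 * η * P.card := by
  have hs := hS (fun _ => v) (fun _ => hv) 0
  have h1 := ptq_card H P Q X y η K hS v hv
  have e0 : ∀ a : V, ((univ.filter fun j : Fin K => H.Adj ((fun _ => v) j) a).card ≤ 0 ↔
      ¬ H.Adj v a) := by
    intro a
    rw [Nat.le_zero, card_eq_zero, filter_eq_empty_iff]
    constructor
    · intro h
      exact h (mem_univ (⟨0, hK⟩ : Fin K))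
    · intro h j _
      exact h
  have e1 : ∀ Z : Finset V, (Z.filter fun a => (univ.filter fun j : Fin K =>
      H.Adj ((fun _ => v) j) a).card ≤ 0) = Z.filter fun a => ¬ H.Adj v a := fun Z =>
    filter_congr fun a _ => e0 a
  rw [e1, e1] at hs
  have e2 : ∀ Z : Finset V, ((Z.filter fun a => H.Adj v a).card : ℝ) +
      ((Z.filter fun a => ¬ H.Adj v a).card : ℝ) = Z.card := by
    intro Z
    rw [← Nat.cast_add, ← card_union_of_disjoint (disjoint_filter_filter_not _ _ _),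
      filter_union_filter_not_eq]
  have e3 := e2 X
  have e4 := e2 P
  have e5 : y * ((P.filter fun a => H.Adj v a).card : ℝ) +
      y * ((P.filter fun a => ¬ H.Adj v a).card : ℝ) = y * P.card := by
    rw [← mul_add, e4]
  rw [abs_le] at hs h1 ⊢
  constructor
  · linarith [hs.1, hs.2, h1.1, h1.2]
  · linarith [hs.1, hs.2, h1.1, h1.2]

private theorem ptq_num (α ν νP s y η p h a b : ℝ) (hα : 0 < α) (hα1 : α ≤ 1) (hν : 0 < ν)
    (hν1 : ν ≤ 1) (hP0 : 0 < νP) (hP1 : νP ≤ ν / 4) (hP2 : νP ≤ α / 64)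
    (hs1 : s ≤ ν / 4) (hs2 : s ≤ α / 1024) (hy : 1 / 4 ≤ y) (hη : 0 < η)
    (hη2 : η ≤ ν / 8) (hp : 0 ≤ p) (hh : (y - η) * p ≤ h)
    (ha : a ≤ (1 - α / 2 / 8) * h)
    (hor : a / y + b / y + ν * p ≤ (1 + s) * p ∨ b ≤ s * p) : a + b + νP * h ≤ h := by
  have hy0 : 0 < y := by linarith
  rcases hor with h1 | h1
  · have h2 : a + b ≤ (1 + s - ν) * y * p := by
      have h3 : (a + b) / y ≤ (1 + s - ν) * p := by
        rw [add_div]
        linarith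
      rw [div_le_iff₀ hy0] at h3
      linarith
    have h3 : (1 + s - ν) * y ≤ (1 - νP) * (y - η) := by nlinarith
    have h4 : (1 + s - ν) * y * p ≤ (1 - νP) * (y - η) * p :=
      mul_le_mul_of_nonneg_right h3 hp
    have h5 : (1 - νP) * ((y - η) * p) ≤ (1 - νP) * h :=
      mul_le_mul_of_nonneg_left hh (by linarith)
    nlinarith
  · have h2 : 1 / 8 * p ≤ h := by
      refine le_trans (mul_le_mul_of_nonneg_right ?_ hp) hh
      linarith
    have h0 : 0 ≤ h := by linarith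
    have h3 : s * p ≤ α / 1024 * p := mul_le_mul_of_nonneg_right hs2 hp
    have h4 : α / 1024 * p ≤ α / 1024 * (8 * h) :=
      mul_le_mul_of_nonneg_left (by linarith) (by linarith)
    have h5 : νP * h ≤ α / 64 * h := mul_le_mul_of_nonneg_right hP2 h0
    have h6 : 0 ≤ α * h := mul_nonneg hα.le h0
    nlinarith

private theorem ptq_bt {V : Type} [Fintype V] (S : SimpleGraph V) (P Q A Y : Finset V)
    (h : (A ⊆ P ∧ Y ⊆ Q) ∨ (A ⊆ Q ∧ Y ⊆ P)) : ee (bt S P Q) A Y = ee S A Y := by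
  unfold ee
  refine congrArg card (filter_congr fun x hx => ?_)
  rw [mem_product] at hx
  constructor
  · intro h1
    exact h1.1
  · intro h1
    rcases h with h | h
    · exact ⟨h1, Or.inl ⟨h.1 hx.1, h.2 hx.2⟩⟩
    · exact ⟨h1, Or.inr ⟨h.1 hx.1, h.2 hx.2⟩⟩

theorem ptQ (α ν lam0 q0 x y : ℝ) (hα : 0 < α) (hα1 : α ≤ 1) (hν : 0 < ν) (hν1 : ν ≤ 1)
    (hl : 0 < lam0) (hq : 0 < q0) (hq1 : q0 ≤ 1) (hx : 0 < x) (hy : 1 / 4 ≤ y) (hy1 : y ≤ 1 / 2) :
    ∃ (κ ρ η lam : ℝ) (K0 n0 : ℕ), 0 < κ ∧ 0 < ρ ∧ 0 < η ∧ 0 < lam ∧ 1 ≤ K0 ∧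
      ∀ (V : Type) [Fintype V] (H : SimpleGraph V) (P Q X1 X2 : Finset V)
        (S0 SR : SimpleGraph V) (K t1 u s : ℕ), n0 ≤ P.card → P.card = Q.card → X1 ⊆ P →
        X2 ⊆ Q → X1.card = X2.card → Disjoint X1 X2 →
        (∀ v ∈ Q, α * P.card ≤ ((P.filter fun a => H.Adj v a).card : ℝ)) →
        (∀ v ∈ P, α * P.card ≤ ((Q.filter fun a => H.Adj v a).card : ℝ)) →
        XPQ H P Q (α / 64) ν lam0 → XPQ H Q P (α / 64) ν lam0 →
        SmPQ H P Q X1 y η K0 → SmPQ H Q P X2 y η K0 →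
        (∀ a b, S0.Adj a b → ¬ SR.Adj a b) →
        (∀ v ∈ X1 ∪ X2, q0 * P.card ≤ (dg (bt SR X1 X2) v : ℝ)) →
        (∀ A Y : Finset V, ((A ⊆ X1 ∧ Y ⊆ X2) ∨ (A ⊆ X2 ∧ Y ⊆ X1)) →
          lam * (P.card : ℝ) ^ 2 ≤ ee H A Y → q0 * (ee H A Y : ℝ) ≤ ee SR A Y) →
        (∀ v ∈ X1 ∪ X2, (K : ℝ) + x * P.card ≤ dg (bt S0 X1 X2) v) →
        (∀ a ∈ X1 ∪ X2, ∀ b ∈ X1 ∪ X2,
          (dg (bt S0 X1 X2) a : ℝ) ≤ dg (bt S0 X1 X2) b + ρ * P.card) →
        (u : ℝ) ≤ κ * P.card → (s : ℝ) ≤ κ * P.card →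
        PtOk S0 SR X1 X2 K t1 u s := by
  obtain ⟨s0, hs0d⟩ : ∃ s0 : ℝ, s0 = min (ν / 4) (α / 1024) := ⟨_, rfl⟩
  have hs0 : 0 < s0 := by
    rw [hs0d]
    positivity
  have hs1 : s0 ≤ ν / 4 := by
    rw [hs0d]
    exact min_le_left _ _
  have hs2 : s0 ≤ α / 1024 := by
    rw [hs0d]
    exact min_le_right _ _
  obtain ⟨νP, hνPd⟩ : ∃ νP : ℝ, νP = min (ν / 4) (α / 64) := ⟨_, rfl⟩
  have hP0 : 0 < νP := by
    rw [hνPd]
    positivity
  have hP1 : νP ≤ ν / 4 := by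
    rw [hνPd]
    exact min_le_left _ _
  have hP2 : νP ≤ α / 64 := by
    rw [hνPd]
    exact min_le_right _ _
  obtain ⟨lamr, ηr, K0, hlamr, hηr, hK0, hrel⟩ := relP α (α / 64) ν lam0 s0 hα hα1
    (by linarith) hl hs0 (by linarith)
  obtain ⟨lamP, hlPd⟩ : ∃ lamP : ℝ, lamP = min lamr (min (α / 2 * q0 / 16)
      (min (α / 2 * νP / 64) ((α / 2) ^ 2 / 64))) := ⟨_, rfl⟩
  have hl0 : 0 < lamP := by
    rw [hlPd]
    positivity
  have hl1 : lamP ≤ lamr := by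
    rw [hlPd]
    exact min_le_left _ _
  have hl2 : lamP ≤ α / 2 * q0 / 16 := by
    rw [hlPd]
    exact (min_le_right _ _).trans (min_le_left _ _)
  have hl3 : lamP ≤ α / 2 * νP / 64 := by
    rw [hlPd]
    exact (min_le_right _ _).trans ((min_le_right _ _).trans (min_le_left _ _))
  have hl4 : lamP ≤ (α / 2) ^ 2 / 64 := by
    rw [hlPd]
    exact (min_le_right _ _).trans ((min_le_right _ _).trans (min_le_right _ _))
  obtain ⟨κP, ρP, nP, hκP, hρP, hpts⟩ := pts (α / 2) νP lamP q0 x (by linarith) (by linarith)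
    hP0 (by linarith) hl0 hq hq1 hx (by linarith) (by linarith) (by linarith)
  obtain ⟨η, hηd⟩ : ∃ η : ℝ, η = min ηr (min (α / 20) (ν / 8)) := ⟨_, rfl⟩
  have hη0 : 0 < η := by
    rw [hηd]
    positivity
  have hη1 : η ≤ ηr := by
    rw [hηd]
    exact min_le_left _ _
  have hη2 : η ≤ α / 20 := by
    rw [hηd]
    exact (min_le_right _ _).trans (min_le_left _ _)
  have hη3 : η ≤ ν / 8 := by
    rw [hηd]
    exact (min_le_right _ _).trans (min_le_right _ _)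
  refine ⟨κP / 8, ρP / 8, η, lamP / 64, K0, 8 * nP + 1, by positivity, by positivity, hη0,
    by positivity, hK0, ?_⟩
  intro V _ H P Q X1 X2 S0 SR K t1 u s hn hPQ hX1 hX2 hXX hdis hdQ hdP hXP hXQ hS1 hS2 hSS hdR
    hee hdS hreg hu hs
  have hPQr : (P.card : ℝ) = Q.card := by exact_mod_cast hPQ
  have hXXr : (X1.card : ℝ) = X2.card := by exact_mod_cast hXX
  have hp0 : (0 : ℝ) ≤ P.card := Nat.cast_nonneg _
  have hPne : P.Nonempty := by
    rw [← card_pos]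
    omega
  have hQne : Q.Nonempty := by
    rw [← card_pos]
    omega
  obtain ⟨vP, hvP⟩ := hPne
  obtain ⟨vQ, hvQ⟩ := hQne
  have c1 := abs_le.1 (ptq_card H P Q X1 y η K0 hS1 vQ hvQ)
  have c2 := abs_le.1 (ptq_card H Q P X2 y η K0 hS2 vP hvP)
  have hlo : (y - η) * P.card ≤ (X1.card : ℝ) := by linarith [c1.1]
  have hup : (X1.card : ℝ) ≤ (y + η) * P.card := by linarith [c1.2]
  have hle : (X1.card : ℝ) ≤ P.card := by exact_mod_cast card_le_card hX1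
  have h8 : (P.card : ℝ) ≤ 8 * X1.card := by nlinarith
  have hh0 : (0 : ℝ) ≤ X1.card := Nat.cast_nonneg _
  -- degrees
  have hdeg : ∀ z w : ℝ, α * (P.card : ℝ) ≤ w → |z - y * w| ≤ 2 * η * P.card →
      α / 2 * (X1.card : ℝ) ≤ z := by
    intro z w hw hz
    have hz1 := (abs_le.1 hz).1
    have e1 : y * (α * P.card) ≤ y * w := mul_le_mul_of_nonneg_left hw (by linarith)
    have e2 : α / 2 * (X1.card : ℝ) ≤ α / 2 * ((y + η) * P.card) :=
      mul_le_mul_of_nonneg_left hup (by linarith)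
    have e3 : (α / 2 * (y + η) + 2 * η) * (P.card : ℝ) ≤ (y * α) * P.card := by
      refine mul_le_mul_of_nonneg_right ?_ hp0
      nlinarith
    nlinarith
  -- expansion
  have hexp : ∀ (P Q X1 X2 A Y : Finset V), P.card = Q.card →
      (∀ v ∈ Q, α * P.card ≤ ((P.filter fun a => H.Adj v a).card : ℝ)) →
      XPQ H P Q (α / 64) ν lam0 → X1 ⊆ P → X2 ⊆ Q → SmPQ H P Q X1 y η K0 →
      SmPQ H Q P X2 y η K0 → A ⊆ X1 → Y ⊆ X2 →
      (y - η) * P.card ≤ (X1.card : ℝ) → (X1.card : ℝ) ≤ P.card →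
      α / 2 / 4 * X1.card ≤ (A.card : ℝ) → (A.card : ℝ) ≤ (1 - α / 2 / 8) * X1.card →
      (ee H A Y : ℝ) ≤ lamP * (X1.card : ℝ) ^ 2 →
      (A.card : ℝ) + Y.card + νP * X1.card ≤ X1.card := by
    intro P Q X1 X2 A Y hPQ hd hX hX1 hX2 hS1 hS2 hA hY hlo hle h1 h2 h3
    have hp0 : (0 : ℝ) ≤ P.card := Nat.cast_nonneg _
    have hh0 : (0 : ℝ) ≤ X1.card := Nat.cast_nonneg _
    refine ptq_num α ν νP s0 y η P.card X1.card A.card Y.card hα hα1 hν hν1 hP0 hP1 hP2 hs1 hs2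
      hy hη0 hη3 hp0 hlo h2 ?_
    refine hrel V H P Q X1 X2 A Y y y η hPQ hd hX hη1 hy (by linarith) hy (by linarith) hX1 hX2
      hS1 hS2 hA hY ?_ ?_
    · refine h3.trans ?_
      have e1 : (X1.card : ℝ) ^ 2 ≤ (P.card : ℝ) ^ 2 := pow_le_pow_left₀ hh0 hle 2
      exact mul_le_mul hl1 e1 (sq_nonneg _) hlamr.le
    · refine le_trans ?_ h1
      have e1 : α / 2 / 4 * ((y - η) * P.card) ≤ α / 2 / 4 * (X1.card : ℝ) :=
        mul_le_mul_of_nonneg_left hlo (by linarith)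
      refine le_trans ?_ e1
      rw [← mul_assoc]
      refine mul_le_mul_of_nonneg_right ?_ hp0
      have e2 : (α / 64 + s0) * y ≤ (α / 64 + α / 1024) * y :=
        mul_le_mul_of_nonneg_right (by linarith) (by linarith)
      nlinarith
  intro U hU1 hU2 hU3 hU4
  have hbtd : ∀ S : SimpleGraph V, ∀ a b, (bt S X1 X2).Adj a b →
      (a ∈ X1 ∧ b ∈ X2) ∨ (a ∈ X2 ∧ b ∈ X1) := fun S a b h => h.2
  refine hpts V H (bt S0 X1 X2) (bt SR X1 X2) X1 X2 K t1 ?_ hXX hdis (hbtd S0) (hbtd SR)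
    ?_ ?_ ?_ ?_ ?_ ?_ ?_ ?_ U ?_ ?_ hU3 hU4
  · have e1 : P.card ≤ 8 * X1.card := by exact_mod_cast h8
    omega
  · intro v hv
    refine hdeg _ _ (hdP v (hX1 hv)) ?_
    have e1 := ptq_deg H Q P X2 y η K0 hK0 hS2 v (hX1 hv)
    rw [hPQr]
    exact e1
  · intro v hv
    exact hdeg _ _ (hdQ v (hX2 hv)) (ptq_deg H P Q X1 y η K0 hK0 hS1 v (hX2 hv))
  · intro A Y hAY h1 h2 h3
    rcases hAY with hAY | hAY
    · exact hexp P Q X1 X2 A Y hPQ hdQ hXP hX1 hX2 hS1 hS2 hAY.1 hAY.2 hlo hle h1 h2 h3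
    · rw [hXXr] at h1 h2 h3 ⊢
      refine hexp Q P X2 X1 A Y hPQ.symm ?_ hXQ hX2 hX1 hS2 hS1 hAY.1 hAY.2 ?_ ?_ h1 h2 h3
      · intro v hv
        rw [← hPQr]
        exact hdP v hv
      · rw [← hPQr, ← hXXr]
        exact hlo
      · rw [← hPQr, ← hXXr]
        exact hle
  · intro a b h1 h2
    exact hSS a b h1.1 h2.1
  · intro v hv
    exact (mul_le_mul_of_nonneg_left hle hq.le).trans (hdR v hv)
  · intro A Y hAY h1
    rw [ptq_bt SR X1 X2 A Y hAY]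
    have e1 : lamP / 64 * (P.card : ℝ) ^ 2 ≤ ee H A Y := by
      refine le_trans ?_ h1
      have e2 : (P.card : ℝ) ^ 2 ≤ (8 * X1.card) ^ 2 := pow_le_pow_left₀ hp0 h8 2
      have e3 : lamP / 64 * (P.card : ℝ) ^ 2 ≤ lamP / 64 * (8 * X1.card) ^ 2 :=
        mul_le_mul_of_nonneg_left e2 (by positivity)
      refine e3.trans (le_of_eq ?_)
      ring
    exact (mul_le_mul_of_nonneg_left h1 hq.le).trans (hee A Y hAY e1)
  · intro v hv
    have e1 := hdS v hv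
    have e2 := mul_le_mul_of_nonneg_left hle hx.le
    linarith
  · intro a ha b hb
    have e1 := hreg a ha b hb
    have e2 : ρP / 8 * (P.card : ℝ) ≤ ρP / 8 * (8 * X1.card) :=
      mul_le_mul_of_nonneg_left h8 (by positivity)
    linarith
  · intro ℓ hℓ
    have e1 : ((U ℓ ∩ (X1 ∪ X2)).card : ℝ) ≤ u := by exact_mod_cast hU1 ℓ hℓ
    have e2 : κP / 8 * (P.card : ℝ) ≤ κP / 8 * (8 * X1.card) :=
      mul_le_mul_of_nonneg_left h8 (by positivity)
    linarith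
  · intro v hv
    have e1 : (mul K U v : ℝ) ≤ s := by exact_mod_cast hU2 v hv
    have e2 : κP / 8 * (P.card : ℝ) ≤ κP / 8 * (8 * X1.card) :=
      mul_le_mul_of_nonneg_left h8 (by positivity)
    linarith

end Pool.Agent.H71.TD
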