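import Mathlib
import Pool.Agent.H71.TD.Ct2N
import Pool.Agent.H71.TD.PtQ
import Pool.Agent.H71.TD.GcB
import Pool.Agent.H71.TD.St1B

/-!
CT2B: the decomposition of a nearly bipartite part, numerics; bipartite version of `ct2E` (`TD/Ct2E.lean`, see there; if it is proved, copy and adapt). Use only the STATEMENTS of `ct1B` (`TD/Ct1B.lean`), `ptQ` (`TD/PtQ.lean`), `gcB` (`TD/GcB.lean`), `st1B` (`TD/St1B.lean`).

Proof (`P := XA ∪ YA`, `Q := XB ∪ YB`, `n = #V = 2 #P`, `θ := 1 / (12 g)`, `t := Δ / (12 g)`, so `θ Δ - 1 < t ≤ θ Δ`, `θ c n - 1 < t`; `L := Δ + 2`).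
(a) `ptQ` with `α := c / 2`, `ν := x`, `lam0 := x`, `q0 := c θ / 2`, `x := c θ / 20`, `y := 1 / 2` gives `κP, ρP, ηP, lamP, KP, nP` (sets normalised by `#P = n / 2`; `(c/2) #P ≤ dg H v`).
(b) `N1` (natural, `≥ 2`) so large that `δ := θ / N1` satisfies `δ ≤ θ c² / 10^4`, `δ ≤ κP θ c / 200`, `δ ≤ θ c / 30`. `N2 ≥ 2` so large that `ε1 := δ / N2` satisfies `ε1 ≤ δ θ c² / 10^6`. Weights: `Q := 480 g N1 N2`, `wR := 10`, `w0 := 168 N1 N2`, `w1 := 72 N1 N2 - 40 N2 - 80`, `w3 := 40 N2`. So `wR / Q = ε1 / 4 =: r`,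
 `w0 / (2 Q) = 2.1 θ`, `w1 / (2 Q) = 0.9 θ - δ/2 - ε1 ≥ θ / 2`, `w3 / Q = δ`, `1 - wR/Q - (w0 + w1 + w3)/(2 Q) = 1 - 3 θ + ε1 - r`.
(c) `q1 := c ε1 / 32`, `x1 := c ε1 / 4`, `lam1 := min x (min ((c/2) q1 / 16) (min ((c/2) x / 64) ((c/2)² / 64)))`; `st1B (c/2) x lam1 q1 x1` gives `κ1, ρ1, n1` (normalised by `#P`). `gcB Q wR w0 w1 w3 c ρ' lam'` with `lam' := min lamP lam1 / 4` and a small `ρ'` gives `ρH, ηH, n2`. `K0 := KP`, `η := min ηP (ηH / 4)`, `κ, ρ` small.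
(d) For a given graph: `#Z` and the degrees into the quarters from `SmPQ` with a constant `b` and `i = K0` resp. `i = 0`. `gcB` gives `cl`. Numbers: `s := ⌈ρ n⌉₊ + 2`, `u := ⌊κ n⌋₊`, `d := ⌊δ n⌋₊`, `d0 := ⌈4 ε1 n⌉₊`, `cap0 := ⌈(32 ε1 / (θ c)) n⌉₊ + 2`, `a := u + cap0 ≤ (δ c / 10^4) n`, `cap := ⌈(8 δ / (θ c)) n⌉₊ + 4`.
 * `hd0`: `dg (cg 0) + dg (cg 1) + mul ≤ (1 - 3 θ + ε1) Δ + 2 ρ' n + s ≤ d0 + (Δ + 2 - 3 t)`.
 * `hs1`: `st1B` with `Gs := H`, `G0 := cg 0`, `R := cg 1`, `B := L - 3 t`: `B + x1 #P ≤ (1 - 3 θ + ε1 - r) Δ - ρ' n`. `XcB H P (c/2) x lam1` follows from `XPQ H P Q (c/128) x x`, `XPQ H Q P (c/128) x x` (`Opp P A Y` means `A ⊆ P, Y ⊆ Q` or `A ⊆ Q, Y ⊆ P`).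
 * `hX`, `hY`: `ptQ` with `P, Q`, `X1 := XA, X2 := XB` (resp. `YA, YB`), `K := 2 t`, `t1 := t`.
 * `hK0`, `hK`, `hb3` (`ee (cg 5) XA YB ≥ δ c n² / 100`, `3 t a + (u + cap0 + 2 a) d ≤ 6 θ n a + 4 a d + ... < δ c n² / 100`), `hcap` as in `ct2E`.
-/

set_option autoImplicit false

namespace Pool.Agent.H71.TD

open Finset Classical
open Pool.Agent.H71.DN Pool.Agent.H71.DX Pool.Agent.H71.DR Pool.Agent.H71.HL Pool.Agent.H71.DC

theorem ct2B (c x : ℝ) (g : ℕ) (hc : 0 < c) (hc1 : c ≤ 1) (hx : 0 < x) (hx1 : x ≤ 1)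
    (hg : 2 ≤ g) :
    ∃ (κ ρ η : ℝ) (K0 n0 : ℕ), 0 < κ ∧ 0 < ρ ∧ 0 < η ∧ 1 ≤ K0 ∧
      ∀ (V : Type) [Fintype V] (H : SimpleGraph V) (Δ : ℕ) (XA XB YA YB : Finset V),
        n0 ≤ Fintype.card V → c * Fintype.card V ≤ Δ → (Δ : ℝ) ≤ 2 * Fintype.card V →
        (∀ v, dg H v ≤ Δ ∧ (Δ : ℝ) ≤ dg H v + ρ * Fintype.card V) →
        Qtr XA XB YA YB → Bip H (XA ∪ YA) →
        XPQ H (XA ∪ YA) (XB ∪ YB) (c / 128) x x → XPQ H (XB ∪ YB) (XA ∪ YA) (c / 128) x x →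
        SmPQ H (XA ∪ YA) (XB ∪ YB) XA (1 / 2) η K0 →
        SmPQ H (XA ∪ YA) (XB ∪ YB) YA (1 / 2) η K0 →
        SmPQ H (XB ∪ YB) (XA ∪ YA) XB (1 / 2) η K0 →
        SmPQ H (XB ∪ YB) (XA ∪ YA) YB (1 / 2) η K0 →
        ∀ U : ℕ → Finset V, (∀ ℓ < Δ + 2, ((U ℓ).card : ℝ) ≤ κ * Fintype.card V) →
          (∀ v, dg H v + mul (Δ + 2) U v = Δ + 2) →
          (∀ ℓ < Δ / (12 * g), Disjoint (U ℓ) (XA ∪ XB)) →
          (∀ ℓ, Δ / (12 * g) ≤ ℓ → ℓ < 2 * (Δ / (12 * g)) → Disjoint (U ℓ) (YA ∪ YB)) →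
          (∀ ℓ < Δ + 2, ((XA ∪ YA) \ U ℓ).card = ((XB ∪ YB) \ U ℓ).card) →
          Full H (Δ + 2) U := by
  have hg0 : (0 : ℝ) < g := by exact_mod_cast (by omega : 0 < g)
  have hg2 : (2 : ℝ) ≤ g := by exact_mod_cast hg
  obtain ⟨θ, hθd⟩ : ∃ θ : ℝ, θ = 1 / (12 * (g : ℝ)) := ⟨_, rfl⟩
  have hθ : 0 < θ := by rw [hθd]; positivity
  have hθ1 : θ ≤ 1 / 24 := by
    rw [hθd, div_le_div_iff₀ (by positivity) (by norm_num)]
    linarith
  obtain ⟨κP, ρP, ηP, lamP, KP, nP, hκP, hρP, hηP, hlamP, hKP, HP⟩ :=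
    ptQ (c / 2) x x (c * θ / 4) (c * θ / 20) (1 / 2) (by linarith) (by linarith) hx hx1 hx
      (by positivity) (by nlinarith) (by positivity) (by norm_num) le_rfl
  obtain ⟨N1, hN1, hN1'⟩ := ct2B_arch (min (c ^ 2 / 10 ^ 4) (κP * c / 200)) (by positivity)
  obtain ⟨N2, hN2, hN2'⟩ := ct2B_arch (θ * c ^ 2 / 10 ^ 6) (by positivity)
  have hN10 : (0 : ℝ) < N1 := by exact_mod_cast (by omega : 0 < N1)
  have hN20 : (0 : ℝ) < N2 := by exact_mod_cast (by omega : 0 < N2)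
  obtain ⟨δ, hδd⟩ : ∃ δ : ℝ, δ = θ / N1 := ⟨_, rfl⟩
  obtain ⟨ε, hεd⟩ : ∃ ε : ℝ, ε = δ / N2 := ⟨_, rfl⟩
  have hδ : 0 < δ := by rw [hδd]; positivity
  have hε : 0 < ε := by rw [hεd]; positivity
  have hδ1 : 10 ^ 4 * δ ≤ θ * c ^ 2 := by
    have h1 : 1 ≤ c ^ 2 / 10 ^ 4 * (N1 : ℝ) :=
      hN1'.trans (mul_le_mul_of_nonneg_right (min_le_left _ _) hN10.le)
    rw [hδd, ← mul_div_assoc, div_le_iff₀ hN10]
    nlinarith
  have hδ2 : 200 * δ ≤ κP * (θ * c) := by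
    have h1 : 1 ≤ κP * c / 200 * (N1 : ℝ) :=
      hN1'.trans (mul_le_mul_of_nonneg_right (min_le_right _ _) hN10.le)
    rw [hδd, ← mul_div_assoc, div_le_iff₀ hN10]
    nlinarith
  have hε1 : 10 ^ 6 * ε ≤ δ * (θ * c ^ 2) := by
    rw [hεd, ← mul_div_assoc, div_le_iff₀ hN20]
    nlinarith
  obtain ⟨Qw, hQw⟩ : ∃ Qw : ℕ, Qw = 480 * (g * (N1 * N2)) := ⟨_, rfl⟩
  obtain ⟨wR, hwR⟩ : ∃ wR : ℕ, wR = 10 := ⟨_, rfl⟩
  obtain ⟨w0, hw0⟩ : ∃ w0 : ℕ, w0 = 168 * (N1 * N2) := ⟨_, rfl⟩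
  obtain ⟨w3, hw3⟩ : ∃ w3 : ℕ, w3 = 40 * N2 := ⟨_, rfl⟩
  have hNN : 2 * N2 ≤ N1 * N2 := Nat.mul_le_mul_right _ hN1
  obtain ⟨w1, hw1⟩ : ∃ w1 : ℕ, w1 + 40 * N2 + 80 = 72 * (N1 * N2) :=
    ⟨72 * (N1 * N2) - 40 * N2 - 80, by omega⟩
  have hgN : 2 * (N1 * N2) ≤ g * (N1 * N2) := Nat.mul_le_mul_right _ hg
  obtain ⟨q1, q2, q3, q4, q5, q6, q7, q8⟩ := ct2B_wt g N1 N2 Qw wR w0 w1 w3 hg hN1 hN2 hQw hwR
    hw0 hw1 hw3 θ δ ε hθd hδd hεd
  have hε2 : ε ≤ δ := by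
    have h1 : δ * (θ * c ^ 2) ≤ δ * 1 := by
      apply mul_le_mul_of_nonneg_left _ hδ.le
      nlinarith
    linarith
  have hδ3 : δ ≤ θ / 100 := by
    have h1 : θ * c ^ 2 ≤ θ * 1 := by
      apply mul_le_mul_of_nonneg_left _ hθ.le
      nlinarith
    linarith
  obtain ⟨lam1, hlam1, hl0, hl1, hl2, hl3⟩ : ∃ lam1 : ℝ, 0 < lam1 ∧ lam1 ≤ x ∧
      16 * lam1 ≤ c / 2 * (c * ε / 32) ∧ 64 * lam1 ≤ c / 2 * x ∧ 64 * lam1 ≤ (c / 2) ^ 2 := by
    refine ⟨min x (min (c / 2 * (c * ε / 32) / 16) (min (c / 2 * x / 64) ((c / 2) ^ 2 / 64))),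
      by positivity, min_le_left _ _, ?_, ?_, ?_⟩
    · have h1 := min_le_right x
        (min (c / 2 * (c * ε / 32) / 16) (min (c / 2 * x / 64) ((c / 2) ^ 2 / 64)))
      have h2 := min_le_left (c / 2 * (c * ε / 32) / 16) (min (c / 2 * x / 64) ((c / 2) ^ 2 / 64))
      linarith
    · have h1 := min_le_right x
        (min (c / 2 * (c * ε / 32) / 16) (min (c / 2 * x / 64) ((c / 2) ^ 2 / 64)))
      have h2 := min_le_right (c / 2 * (c * ε / 32) / 16)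
        (min (c / 2 * x / 64) ((c / 2) ^ 2 / 64))
      have h3 := min_le_left (c / 2 * x / 64) ((c / 2) ^ 2 / 64)
      linarith
    · have h1 := min_le_right x
        (min (c / 2 * (c * ε / 32) / 16) (min (c / 2 * x / 64) ((c / 2) ^ 2 / 64)))
      have h2 := min_le_right (c / 2 * (c * ε / 32) / 16)
        (min (c / 2 * x / 64) ((c / 2) ^ 2 / 64))
      have h3 := min_le_right (c / 2 * x / 64) ((c / 2) ^ 2 / 64)
      linarith
  have hε3 : ε ≤ 1 / 100 := by linarith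
  obtain ⟨κ1, ρ1, n1, hκ1, hρ1, H1⟩ := st1B (c / 2) x lam1 (c * ε / 32) (c * ε / 4)
    (by linarith) (by linarith) hx hx1 hlam1 (by positivity) (by nlinarith) (by positivity)
    hl1 hl2 hl3
  obtain ⟨ρ', hρ'0, hρ'1, hρ'2, hρ'3⟩ : ∃ ρ' : ℝ, 0 < ρ' ∧ ρ' ≤ c * ε / 100 ∧ ρ' ≤ ρ1 / 8 ∧
      ρ' ≤ ρP / 8 :=
    ⟨min (c * ε / 100) (min (ρ1 / 8) (ρP / 8)), by positivity, min_le_left _ _,
      (min_le_right _ _).trans (min_le_left _ _), (min_le_right _ _).trans (min_le_right _ _)⟩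
  obtain ⟨ρH, ηH, n2, hρH, hηH, H2⟩ := gcB Qw wR w0 w1 w3 (by omega) (by omega) (by omega)
    (by omega) (by omega) (by omega) c ρ' (min lamP lam1 / 4) hc hc1 hρ'0 (by positivity)
  obtain ⟨N3, hN3, hN3'⟩ := ct2B_arch
    (min (ε * c * θ / 10 ^ 7) (min (κP / 10 ^ 3) (κ1 / 16))) (by positivity)
  obtain ⟨κ, hκ0, k1, k2, k3⟩ : ∃ κ : ℝ, 0 < κ ∧ κ ≤ κ1 / 2 ∧ 10 ^ 3 * κ ≤ κP ∧
      10 ^ 6 * κ ≤ δ * c := by
    refine ⟨min (κ1 / 2) (min (κP / 10 ^ 3) (δ * c / 10 ^ 6)), by positivity, min_le_left _ _,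
      ?_, ?_⟩
    · have h1 := min_le_right (κ1 / 2) (min (κP / 10 ^ 3) (δ * c / 10 ^ 6))
      have h2 := min_le_left (κP / 10 ^ 3) (δ * c / 10 ^ 6)
      linarith
    · have h1 := min_le_right (κ1 / 2) (min (κP / 10 ^ 3) (δ * c / 10 ^ 6))
      have h2 := min_le_right (κP / 10 ^ 3) (δ * c / 10 ^ 6)
      linarith
  obtain ⟨ρ, hρ0, r1, r2, r3, r4, r5⟩ : ∃ ρ : ℝ, 0 < ρ ∧ ρ ≤ ρH ∧ ρ ≤ κ1 / 8 ∧
      10 ^ 3 * ρ ≤ κP ∧ 10 ^ 3 * ρ ≤ ε ∧ ρ ≤ c / 4 := by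
    refine ⟨min ρH (min (κ1 / 8) (min (κP / 10 ^ 3) (min (ε / 10 ^ 3) (c / 4)))), by positivity,
      min_le_left _ _, ?_, ?_, ?_, ?_⟩
    · exact (min_le_right _ _).trans (min_le_left _ _)
    · have h1 := (min_le_right ρH
        (min (κ1 / 8) (min (κP / 10 ^ 3) (min (ε / 10 ^ 3) (c / 4))))).trans
        ((min_le_right _ _).trans (min_le_left _ _))
      linarith
    · have h1 := (min_le_right ρH
        (min (κ1 / 8) (min (κP / 10 ^ 3) (min (ε / 10 ^ 3) (c / 4))))).trans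
        ((min_le_right _ _).trans ((min_le_right _ _).trans (min_le_left _ _)))
      linarith
    · exact (min_le_right ρH
        (min (κ1 / 8) (min (κP / 10 ^ 3) (min (ε / 10 ^ 3) (c / 4))))).trans
        ((min_le_right _ _).trans ((min_le_right _ _).trans (min_le_right _ _)))
  refine ⟨κ, ρ, min ηP (ηH / 4), KP, 2 * nP + 2 * n1 + n2 + N3, hκ0, hρ0, by positivity, hKP, ?_⟩
  intro V _ H Δ XA XB YA YB hn hΔ hΔ2 hreg hq hH hX1 hX2 hS1 hS2 hS3 hS4 U hU hmul hU1 hU2 hbal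
  obtain ⟨cPQ, cn, ccomp⟩ := ct2B_card XA XB YA YB hq
  obtain ⟨n, hnd⟩ : ∃ n : ℕ, n = Fintype.card V := ⟨_, rfl⟩
  obtain ⟨P, hPd⟩ : ∃ P : Finset V, P = XA ∪ YA := ⟨_, rfl⟩
  obtain ⟨Q, hQd⟩ : ∃ Q : Finset V, Q = XB ∪ YB := ⟨_, rfl⟩
  rw [← hPd, ← hQd] at cPQ ccomp
  rw [← hPd] at cn
  rw [← hPd, ← hQd] at hX1 hX2 hS1 hS2 hS3 hS4
  rw [← hPd] at hH
  have hn2p : (n : ℝ) = 2 * (P.card : ℝ) := by
    rw [hnd, cn]
    push_cast
    ring
  have hp2 : (P.card : ℝ) = n / 2 := by linarith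
  have hQ2 : (Q.card : ℝ) = n / 2 := by rw [← cPQ]; exact hp2
  have hnN3 : N3 ≤ n := by omega
  have hnN3' : (N3 : ℝ) ≤ n := by exact_mod_cast hnN3
  have hb0 : 1 ≤ min (ε * c * θ / 10 ^ 7) (min (κP / 10 ^ 3) (κ1 / 16)) * (n : ℝ) :=
    hN3'.trans (mul_le_mul_of_nonneg_left hnN3' (by positivity))
  have hnn : (0 : ℝ) ≤ n := Nat.cast_nonneg n
  have hb1 : 10 ^ 7 ≤ ε * c * θ * n := by
    have h1 := hb0.trans (mul_le_mul_of_nonneg_right (min_le_left _ _) hnn)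
    linarith
  have hb2 : 10 ^ 3 ≤ κP * n := by
    have h1 := hb0.trans (mul_le_mul_of_nonneg_right
      ((min_le_right _ _).trans (min_le_left _ _)) hnn)
    linarith
  have hb3 : 16 ≤ κ1 * n := by
    have h1 := hb0.trans (mul_le_mul_of_nonneg_right
      ((min_le_right _ _).trans (min_le_right _ _)) hnn)
    linarith
  have hn1 : 1 ≤ n := by omega
  rw [← hnd] at hn hΔ hΔ2
  have hreg' : ∀ v, dg H v ≤ Δ ∧ (Δ : ℝ) ≤ dg H v + ρ * n := by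
    intro v
    have := hreg v
    rwa [← hnd] at this
  have hU' : ∀ ℓ < Δ + 2, ((U ℓ).card : ℝ) ≤ κ * n := by
    intro ℓ hℓ
    have := hU ℓ hℓ
    rwa [← hnd] at this
  -- sides
  have hPpos : 0 < P.card := by omega
  have hQpos : 0 < Q.card := by omega
  obtain ⟨wP, hwP⟩ := Finset.card_pos.1 hPpos
  obtain ⟨wQ, hwQ⟩ := Finset.card_pos.1 hQpos
  have hPQ : ∀ v, v ∉ P ↔ v ∈ Q := by
    intro v
    rw [← ccomp]
    simp
  have hXAP : XA ⊆ P := by rw [hPd]; exact Finset.subset_union_left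
  have hYAP : YA ⊆ P := by rw [hPd]; exact Finset.subset_union_right
  have hXBQ : XB ⊆ Q := by rw [hQd]; exact Finset.subset_union_left
  have hYBQ : YB ⊆ Q := by rw [hQd]; exact Finset.subset_union_right
  have hnbQ : ∀ w ∈ Q, ∀ a, H.Adj w a → a ∈ P := by
    intro w hw a ha
    by_contra h1
    have h2 := (hH w a ha).2 h1
    exact (hPQ w).2 hw h2
  have hnbP : ∀ w ∈ P, ∀ a, H.Adj w a → a ∈ Q := by
    intro w hw a ha
    exact (hPQ a).1 ((hH w a ha).1 hw)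
  have hΔn : (Δ : ℝ) ≤ 5 / 4 * n := by
    have h1 := (hreg' wP).2
    have h2 : ((dg H wP : ℕ) : ℝ) ≤ n := by
      rw [hnd]
      exact_mod_cast ct2B_dgle H wP
    have h3 : ρ * (n : ℝ) ≤ 1 / 4 * n := mul_le_mul_of_nonneg_right (by linarith) hnn
    linarith
  have hdlow : ∀ v, c / 2 * (n : ℝ) ≤ dg H v := by
    intro v
    have h1 := (hreg' v).2
    have h3 : ρ * (n : ℝ) ≤ c / 4 * n := mul_le_mul_of_nonneg_right r5 hnn
    have h4 : 0 ≤ c * (n : ℝ) := by positivity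
    linarith
  have hcnn : 0 ≤ c * (n : ℝ) := by positivity
  have hη1 : min ηP (ηH / 4) ≤ ηP := min_le_left _ _
  have hη2 : min ηP (ηH / 4) ≤ ηH / 4 := min_le_right _ _
  have hmonoS : ∀ (P' Q' Z : Finset V), SmPQ H P' Q' Z (1 / 2) (min ηP (ηH / 4)) KP →
      SmPQ H P' Q' Z (1 / 2) ηP KP := by
    intro P' Q' Z h b hb i
    exact (h b hb i).trans (mul_le_mul_of_nonneg_right hη1 (Nat.cast_nonneg _))
  -- the classes
  have hc4 : ∀ (P' Q' Z : Finset V) (w : V), w ∈ Q' → (P'.card : ℝ) = n / 2 →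
      SmPQ H P' Q' Z (1 / 2) (min ηP (ηH / 4)) KP →
      |(Z.card : ℝ) - (n : ℝ) / 4| ≤ ηH * n := by
    intro P' Q' Z w hw hc' hs
    have h1 := ct2B_smc H P' Q' Z (1 / 2) _ KP w hw hs
    rw [hc'] at h1
    have h2 : (1 : ℝ) / 2 * (n / 2) = n / 4 := by ring
    rw [h2] at h1
    refine h1.trans ?_
    have h3 : min ηP (ηH / 4) * ((n : ℝ) / 2) ≤ ηH / 4 * (n / 2) :=
      mul_le_mul_of_nonneg_right hη2 (by positivity)
    have h4 : 0 ≤ ηH * n := by positivity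
    linarith
  have hc5 : ∀ (P' Q' Z : Finset V) (w : V), w ∈ Q' → (P'.card : ℝ) = n / 2 →
      (∀ a, H.Adj w a → a ∈ P') →
      SmPQ H P' Q' Z (1 / 2) (min ηP (ηH / 4)) KP →
      |((Z.filter fun u => H.Adj w u).card : ℝ) - dg H w / 2| ≤ ηH * n := by
    intro P' Q' Z w hw hc' hnb hs
    have h1 := ct2B_smd H P' Q' Z (1 / 2) _ KP hKP w hw hs
    rw [hc', ct2B_dgf H P' w hnb] at h1
    have h2 : (1 : ℝ) / 2 * (dg H w : ℝ) = dg H w / 2 := by ring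
    rw [h2] at h1
    refine h1.trans ?_
    have h3 : 2 * min ηP (ηH / 4) * ((n : ℝ) / 2) ≤ 2 * (ηH / 4) * (n / 2) :=
      mul_le_mul_of_nonneg_right (by linarith) (by positivity)
    have h4 : 0 ≤ ηH * n := by positivity
    linarith
  obtain ⟨cl, hcl, hS, hD3, g0, g1, g2, g3, g5, gR, gS, gA, gB, -⟩ := H2 V H Δ XA XB YA YB
    (by omega) (by rw [← hnd]; exact hΔ) (by rw [← hnd]; exact hΔ2)
    (by
      intro v
      refine ⟨(hreg' v).1, ?_⟩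
      rw [← hnd]
      have := (hreg' v).2
      have h3 : ρ * (n : ℝ) ≤ ρH * n := mul_le_mul_of_nonneg_right r1 hnn
      linarith) hq (by rw [← hPd]; exact hH)
    (by
      intro Z hZ
      rw [← hnd]
      rcases hZ with h | h | h | h <;> subst h
      · exact hc4 P Q _ wQ hwQ hp2 hS1
      · exact hc4 Q P _ wP hwP hQ2 hS3
      · exact hc4 P Q _ wQ hwQ hp2 hS2
      · exact hc4 Q P _ wP hwP hQ2 hS4)
    (by
      intro Z hZ w hw
      rw [← hQd] at hw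
      rw [← hnd]
      rcases hZ with h | h <;> subst h
      · exact hc5 P Q _ w hw hp2 (hnbQ w hw) hS1
      · exact hc5 P Q _ w hw hp2 (hnbQ w hw) hS2)
    (by
      intro Z hZ w hw
      rw [← hPd] at hw
      rw [← hnd]
      rcases hZ with h | h <;> subst h
      · exact hc5 Q P _ w hw hQ2 (hnbP w hw) hS3
      · exact hc5 Q P _ w hw hQ2 (hnbP w hw) hS4)
  rw [← hnd] at g0 g1 g2 g3 g5 gR gS gA gB
  rw [q8] at g0
  rw [q1] at g1
  rw [q2] at g2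
  rw [q3] at g3
  rw [q5] at g5
  rw [q6] at gR
  rw [q7] at gS
  rw [q4] at gA gB
  -- products
  have z1 : θ * (c * n) ≤ θ * Δ := mul_le_mul_of_nonneg_left hΔ hθ.le
  have z2 : ε * (c * n) ≤ ε * Δ := mul_le_mul_of_nonneg_left hΔ hε.le
  have z3 : ε * Δ ≤ ε * (5 / 4 * n) := mul_le_mul_of_nonneg_left hΔn hε.le
  have z4 : δ * Δ ≤ δ * (5 / 4 * n) := mul_le_mul_of_nonneg_left hΔn hδ.le
  have hΔ0 : (0 : ℝ) ≤ Δ := Nat.cast_nonneg Δ
  have z5 : δ * Δ ≤ θ / 100 * Δ := mul_le_mul_of_nonneg_right hδ3 hΔ0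
  have z6 : ε * Δ ≤ δ * Δ := mul_le_mul_of_nonneg_right hε2 hΔ0
  have z7 : ρ' * n ≤ c * ε / 100 * n := mul_le_mul_of_nonneg_right hρ'1 hnn
  have z8 : 10 ^ 3 * (ρ * n) ≤ ε * n := by
    have := mul_le_mul_of_nonneg_right r4 hnn
    linarith
  have z9 : c * ε / 100 * n ≤ ε / 100 * n := by
    apply mul_le_mul_of_nonneg_right _ hnn
    have : c * ε ≤ 1 * ε := mul_le_mul_of_nonneg_right hc1 hε.le
    linarith
  have z10 : ε * n ≤ δ * n := mul_le_mul_of_nonneg_right hε2 hnn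
  have z11 : c * ε * n = ε * (c * n) := by ring
  have z12 : 10 ^ 7 ≤ ε * (c * n) := by
    have h1 : ε * c * θ * n = ε * (c * n) * θ := by ring
    have h2 : 0 ≤ ε * (c * n) := by positivity
    nlinarith
  have z13 : ε * (c * n) ≤ θ * (c * n) / 100 := by
    have : ε * (c * n) ≤ θ / 100 * (c * n) :=
      mul_le_mul_of_nonneg_right (hε2.trans hδ3) hcnn
    linarith
  have z14 : 0 ≤ ρ' * n := by positivity
  -- t
  obtain ⟨t, htd⟩ : ∃ t : ℕ, t = Δ / (12 * g) := ⟨_, rfl⟩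
  rw [← htd] at hU1 hU2
  have h12g : 0 < 12 * g := by omega
  have htl : (t : ℝ) ≤ θ * Δ := by
    rw [htd, hθd]
    have h1 : ((Δ / (12 * g) : ℕ) : ℝ) ≤ (Δ : ℝ) / ((12 * g : ℕ) : ℝ) := Nat.cast_div_le
    have h2 : (Δ : ℝ) / ((12 * g : ℕ) : ℝ) = 1 / (12 * (g : ℝ)) * Δ := by
      push_cast
      ring
    linarith
  have htr : θ * Δ - 1 < t := by
    have h1 : Δ < 12 * g * (Δ / (12 * g) + 1) := Nat.lt_mul_div_succ Δ h12g
    rw [← htd] at h1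
    have h2 : (Δ : ℝ) < 12 * g * ((t : ℝ) + 1) := by exact_mod_cast h1
    have h3 : θ * Δ < θ * (12 * g * ((t : ℝ) + 1)) := mul_lt_mul_of_pos_left h2 hθ
    have h4 : θ * (12 * g * ((t : ℝ) + 1)) = (t : ℝ) + 1 := by
      rw [hθd]
      field_simp
    linarith
  have htL : 3 * t ≤ Δ + 2 := by
    have h1 : (3 : ℝ) * t ≤ Δ := by
      have : θ * Δ ≤ 1 / 24 * Δ := mul_le_mul_of_nonneg_right hθ1 hΔ0
      linarith
    have h2 : 3 * t ≤ Δ := by exact_mod_cast h1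
    omega
  have ht0 : 0 < t := by
    have h1 : (0 : ℝ) < t := by linarith
    exact_mod_cast h1
  have hLt : ((Δ + 2 - 3 * t : ℕ) : ℝ) = Δ + 2 - 3 * t := by
    rw [Nat.cast_sub htL]
    push_cast
    ring
  obtain ⟨d0, d, s, u, cap0, cap, m1, m2, m3, m4, m5, m6, m7, m8, m9, m10, m11⟩ :=
    ct2B_num c θ δ ε κP κ ρ n Δ t hc hc1 hθ hθ1 hδ hε hκP hδ1 hδ2 hε1 hκ0 hρ0 k3 k2 r4 r3
      hb1 hb2 htl htr hΔ hΔ2
  have hmulr : ∀ v, (mul (Δ + 2) U v : ℝ) ≤ ρ * n + 2 := by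
    intro v
    have h1 : (dg H v : ℝ) + mul (Δ + 2) U v = Δ + 2 := by exact_mod_cast hmul v
    have h2 := (hreg' v).2
    linarith
  have hne : ∀ (i j : ℕ), i ≠ j → ∀ a b, (cg H cl i).Adj a b → ¬ (cg H cl j).Adj a b := by
    intro i j hij a b h1 h2
    exact hij (h1.2.symm.trans h2.2)
  -- `PtOk`
  have hPt : ∀ (Z1 Z2 : Finset V), Z1 ⊆ P → Z2 ⊆ Q → Z1.card = Z2.card → Disjoint Z1 Z2 →
      SmPQ H P Q Z1 (1 / 2) ηP KP → SmPQ H Q P Z2 (1 / 2) ηP KP →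
      (∀ j, (j = 2 ∨ j = 3) → ∀ v ∈ Z1 ∪ Z2, ∀ a, (cg H cl j).Adj v a →
        (v ∈ Z1 ∧ a ∈ Z2) ∨ (v ∈ Z2 ∧ a ∈ Z1)) →
      (∀ A Y : Finset V, ((A ⊆ Z1 ∧ Y ⊆ Z2) ∨ (A ⊆ Z2 ∧ Y ⊆ Z1)) →
        min lamP lam1 / 4 * (n : ℝ) ^ 2 ≤ ee H A Y →
        (9 / 10 * θ - δ / 2 - ε) / 2 * (ee H A Y : ℝ) ≤ ee (cg H cl 3) A Y) →
      PtOk (cg H cl 2) (cg H cl 3) Z1 Z2 (2 * t) t (u + (cap0 + cap)) (s + d0 + d) := by
    intro Z1 Z2 c1 c2 c3 c4 c5 c6 c7 c8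
    have hb : ∀ j, (j = 2 ∨ j = 3) → ∀ v ∈ Z1 ∪ Z2,
        dg (bt (cg H cl j) Z1 Z2) v = dg (cg H cl j) v := by
      intro j hj v hv
      exact ct2B_bt _ Z1 Z2 v (c7 j hj v hv)
    have e64 : c / 2 / 64 = c / 128 := by ring
    apply HP V H P Q Z1 Z2 (cg H cl 2) (cg H cl 3) (2 * t) t _ _ (by omega) cPQ c1 c2 c3 c4
    · intro v hv
      rw [ct2B_dgf H P v (hnbQ v hv), hp2]
      have := hdlow v
      linarith
    · intro v hv
      rw [ct2B_dgf H Q v (hnbP v hv), hp2]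
      have := hdlow v
      linarith
    · rw [e64]
      exact hX1
    · rw [e64]
      exact hX2
    · exact c5
    · exact c6
    · exact hne 2 3 (by norm_num)
    · intro v hv
      rw [hb 3 (Or.inr rfl) v hv, hp2]
      have h1 := abs_le.1 (g3 v)
      have h2 : (9 / 10 * θ - δ / 2 - ε) * (Δ : ℝ) =
          9 / 10 * (θ * Δ) - δ * Δ / 2 - ε * Δ := by ring
      rw [h2] at h1
      have h3 : c * θ / 4 * ((n : ℝ) / 2) = θ * (c * n) / 8 := by ring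
      rw [h3]
      linarith [h1.1]
    · intro A Y hAY h1
      have h2 : min lamP lam1 / 4 * (n : ℝ) ^ 2 ≤ ee H A Y := by
        refine le_trans ?_ h1
        rw [hp2]
        have h3 : min lamP lam1 / 4 * (n : ℝ) ^ 2 ≤ lamP / 4 * (n : ℝ) ^ 2 :=
          mul_le_mul_of_nonneg_right (by linarith [min_le_left lamP lam1]) (by positivity)
        have h4 : lamP * ((n : ℝ) / 2) ^ 2 = lamP / 4 * (n : ℝ) ^ 2 := by ring
        linarith
      have h3 := c8 A Y hAY h2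
      refine le_trans ?_ h3
      apply mul_le_mul_of_nonneg_right _ (Nat.cast_nonneg _)
      have h4 : c * θ ≤ 1 * θ := mul_le_mul_of_nonneg_right hc1 hθ.le
      linarith
    · intro v hv
      rw [hb 2 (Or.inl rfl) v hv, hp2]
      have h1 := abs_le.1 (g2 v)
      have h2 : 21 / 10 * θ * (Δ : ℝ) = 21 / 10 * (θ * Δ) := by ring
      rw [h2] at h1
      have h3 : c * θ / 20 * ((n : ℝ) / 2) = θ * (c * n) / 40 := by ring
      rw [h3]
      push_cast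
      linarith [h1.1]
    · intro a ha b hb'
      rw [hb 2 (Or.inl rfl) a ha, hb 2 (Or.inl rfl) b hb', hp2]
      have h1 := abs_le.1 (g2 a)
      have h2 := abs_le.1 (g2 b)
      have h3 : ρ' * n ≤ ρP / 8 * n := mul_le_mul_of_nonneg_right hρ'3 hnn
      have h4 : 0 ≤ ρP * n := by positivity
      linarith [h1.2, h2.1]
    · rw [hp2]
      exact m10
    · rw [hp2]
      exact m11
  apply ct1B H cl hcl XA XB YA YB hq (by rw [← hPd]; exact hH) hS hD3 (Δ + 2) t ht0 htL U hU1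
    hU2 hbal hmul ?_ d0 d s u (u + cap0) cap0 cap
  · intro v
    have h1 := abs_le.1 (g0 v)
    have h2 := abs_le.1 (g1 v)
    have h3 := hmulr v
    have h4 : (1 - 3 * θ + ε - ε / 4) * (Δ : ℝ) =
        Δ - 3 * (θ * Δ) + ε * Δ - ε * Δ / 4 := by ring
    rw [h4] at h1
    have h5 : ε / 4 * (Δ : ℝ) = ε * Δ / 4 := by ring
    rw [h5] at h2
    have h6 : ((dg (cg H cl 0) v + dg (cg H cl 1) v + mul (Δ + 2) U v : ℕ) : ℝ) ≤
        ((d0 + (Δ + 2 - 3 * t) : ℕ) : ℝ) := by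
      rw [Nat.cast_add d0, hLt]
      push_cast
      linarith [h1.2, h2.2]
    exact_mod_cast h6
  · intro v
    apply m2
    have h1 := abs_le.1 (g5 v)
    have h2 : δ / 2 * (Δ : ℝ) = δ * Δ / 2 := by ring
    rw [h2] at h1
    linarith [h1.2]
  · intro v
    exact m3 _ (hmulr v)
  · intro ℓ hℓ
    exact m4 _ (hU' ℓ hℓ)
  · rfl
  · exact m5
  · rw [← hnd]
    exact m6
  · exact ⟨m7 _ gA, m7 _ gB⟩
  · exact m8
  · rw [← hnd]
    exact m9
  · apply hPt XA XB hXAP hXBQ hq.cX hq.d1 (hmonoS _ _ _ hS1) (hmonoS _ _ _ hS3)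
    · intro j hj v hv a ha
      have h1 := hS j hj v a ha
      rcases Finset.mem_union.1 hv with h2 | h2
      · rcases h1 with h3 | h3 | h3 | h3
        · exact Or.inl h3
        · exact Or.inr h3
        · exact absurd h3.1 (Finset.disjoint_left.1 hq.d2 h2)
        · exact absurd h3.1 (Finset.disjoint_left.1 hq.d3 h2)
      · rcases h1 with h3 | h3 | h3 | h3
        · exact Or.inl h3
        · exact Or.inr h3
        · exact absurd h3.1 (Finset.disjoint_left.1 hq.d4 h2)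
        · exact absurd h3.1 (Finset.disjoint_left.1 hq.d5 h2)
    · intro A Y hAY h1
      apply gS A Y _ h1
      rcases hAY with h | h
      · exact Or.inl h
      · exact Or.inr (Or.inl h)
  · apply hPt YA YB hYAP hYBQ hq.cY hq.d6 (hmonoS _ _ _ hS2) (hmonoS _ _ _ hS4)
    · intro j hj v hv a ha
      have h1 := hS j hj v a ha
      rcases Finset.mem_union.1 hv with h2 | h2
      · rcases h1 with h3 | h3 | h3 | h3
        · exact absurd h2 (Finset.disjoint_left.1 hq.d2 h3.1)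
        · exact absurd h2 (Finset.disjoint_left.1 hq.d4 h3.1)
        · exact Or.inl h3
        · exact Or.inr h3
      · rcases h1 with h3 | h3 | h3 | h3
        · exact absurd h2 (Finset.disjoint_left.1 hq.d3 h3.1)
        · exact absurd h2 (Finset.disjoint_left.1 hq.d5 h3.1)
        · exact Or.inl h3
        · exact Or.inr h3
    · intro A Y hAY h1
      apply gS A Y _ h1
      rcases hAY with h | h
      · exact Or.inr (Or.inr (Or.inl h))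
      · exact Or.inr (Or.inr (Or.inr h))
  -- the main part
  · have hBip : ∀ j, Bip (cg H cl j) P := fun j a b h => hH a b h.1
    apply H1 V H (cg H cl 0) (cg H cl 1) P (Δ + 2 - 3 * t) (by omega)
      (by rw [ccomp]; exact cPQ) hH (hBip 0) (hBip 1)
    · constructor
      · intro v
        have := hdlow v
        rw [hp2]
        linarith
      · intro A Y hAY h1 h2 h3
        have hp0 : (0 : ℝ) ≤ P.card := Nat.cast_nonneg _
        have hcp : 0 ≤ c * (P.card : ℝ) := mul_nonneg hc.le hp0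
        have h4 : lam1 * (P.card : ℝ) ^ 2 ≤ x * (P.card : ℝ) ^ 2 :=
          mul_le_mul_of_nonneg_right hl0 (sq_nonneg _)
        have h5 : c / 128 * (P.card : ℝ) ≤ A.card := by
          have : c / 2 / 4 * (P.card : ℝ) = c * P.card / 8 := by ring
          linarith
        have h6 : (A.card : ℝ) ≤ (1 - c / 128) * P.card := by
          have : (1 - c / 2 / 8) * (P.card : ℝ) = P.card - c * P.card / 16 := by ring
          have h7 : (1 - c / 128) * (P.card : ℝ) = P.card - c * P.card / 128 := by ring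
          linarith
        rcases hAY with h7 | h7
        · have h8 : Y ⊆ Q := by
            intro v hv
            exact (hPQ v).1 (Finset.disjoint_left.1 h7.2 hv)
          have h9 := hX1 A Y h7.1 h8 h5 h6 (h3.trans h4)
          rw [← cPQ] at h9
          exact h9
        · have h8 : A ⊆ Q := by
            intro v hv
            exact (hPQ v).1 (Finset.disjoint_left.1 h7.1 hv)
          have h9 := hX2 A Y h8 h7.2 (by rw [← cPQ]; exact h5) (by rw [← cPQ]; exact h6)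
            (by rw [← cPQ]; exact h3.trans h4)
          rw [← cPQ] at h9
          exact h9
    · exact hne 0 1 (by norm_num)
    · intro v
      have h1 := abs_le.1 (g1 v)
      have h2 : ε / 4 * (Δ : ℝ) = ε * Δ / 4 := by ring
      rw [h2] at h1
      rw [hp2]
      have h3 : c * ε / 32 * ((n : ℝ) / 2) = ε * (c * n) / 64 := by ring
      have h4 : c * ε / 100 * (n : ℝ) = ε * (c * n) / 100 := by ring
      rw [h3]
      linarith [h1.1]
    · intro A Y _ h1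
      have h2 : min lamP lam1 / 4 * (n : ℝ) ^ 2 ≤ ee H A Y := by
        refine le_trans ?_ h1
        rw [hp2]
        have h3 : min lamP lam1 / 4 * (n : ℝ) ^ 2 ≤ lam1 / 4 * (n : ℝ) ^ 2 :=
          mul_le_mul_of_nonneg_right (by linarith [min_le_right lamP lam1]) (by positivity)
        have h4 : lam1 * ((n : ℝ) / 2) ^ 2 = lam1 / 4 * (n : ℝ) ^ 2 := by ring
        linarith
      have h3 := gR A Y h2
      refine le_trans ?_ h3
      have h4 : ε / 16 * (lam1 * (P.card : ℝ) ^ 2) ≤ ε / 16 * ee H A Y :=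
        mul_le_mul_of_nonneg_left h1 (by positivity)
      refine le_trans ?_ h4
      apply mul_le_mul_of_nonneg_right _ (mul_nonneg hlam1.le (sq_nonneg _))
      have h5 : c * ε ≤ 1 * ε := mul_le_mul_of_nonneg_right hc1 hε.le
      linarith
    · intro v
      have h1 := abs_le.1 (g0 v)
      have h4 : (1 - 3 * θ + ε - ε / 4) * (Δ : ℝ) =
          Δ - 3 * (θ * Δ) + ε * Δ - ε * Δ / 4 := by ring
      rw [h4] at h1
      rw [hLt, hp2]
      have h3 : c * ε / 4 * ((n : ℝ) / 2) = ε * (c * n) / 8 := by ring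
      have h5 : c * ε / 100 * (n : ℝ) = ε * (c * n) / 100 := by ring
      rw [h3]
      linarith [h1.1]
    · intro a b
      have h1 := abs_le.1 (g0 a)
      have h2 := abs_le.1 (g0 b)
      have h3 : ρ' * n ≤ ρ1 / 8 * n := mul_le_mul_of_nonneg_right hρ'2 hnn
      have h4 : 0 ≤ ρ1 * n := by positivity
      rw [hp2]
      linarith [h1.2, h2.1]
    · intro ℓ hℓ
      have h1 := hU' (3 * t + ℓ) (by omega)
      have h2 : κ * (n : ℝ) ≤ κ1 / 2 * n := mul_le_mul_of_nonneg_right k1 hnn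
      rw [hp2]
      show ((U (3 * t + ℓ)).card : ℝ) ≤ κ1 * (n / 2)
      linarith
    · intro v
      have h1 : mul (Δ + 2 - 3 * t) (fun ℓ => U (3 * t + ℓ)) v ≤ mul (Δ + 2) U v :=
        ct2B_mul (Δ + 2) (3 * t) htL U v
      have h2 : (mul (Δ + 2 - 3 * t) (fun ℓ => U (3 * t + ℓ)) v : ℝ) ≤ mul (Δ + 2) U v := by
        exact_mod_cast h1
      have h3 := hmulr v
      have h4 : ρ * (n : ℝ) ≤ κ1 / 8 * n := mul_le_mul_of_nonneg_right r2 hnn
      rw [hp2]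
      linarith
    · intro ℓ hℓ
      rw [ccomp]
      have h1 := hbal (3 * t + ℓ) (by omega)
      rw [← hPd, ← hQd] at h1
      exact h1

end Pool.Agent.H71.TD
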