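import Mathlib
import Pool.Agent.H71.TD.Ct2B

/-!
CTSB: `ct2B` (`TD/Ct2B.lean`, use only the STATEMENT) for two disjoint sets `A, B` of vertices of a larger graph. Compare `coc` (`DC/Coc.lean`, proved; copy its private lemmas).

Proof.  `ct2B c x g` gives `κ2, ρ2, η, K0, n2`; `κ := κ2`, `ρ := ρ2`, `n0 := n2`. `V1 := {v // v ∈ A ∪ B}`, `H := (bt G A B).comap (fun v : V1 => v.1)`, `card V1 = 2 #A`, `dg H v = dgi G B v.1` for `v.1 ∈ A` and `dgi G A v.1` for `v.1 ∈ B`; `c * card V1 ≤ Δ`, `Δ ≤ 2 card V1`. The quarters are `{v : V1 | v.1 ∈ XA}` etc.;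
`U1 ℓ := {v : V1 | v.1 ∈ U ℓ}` (`#(U1 ℓ) = #(U ℓ ∩ (A ∪ B)) ≤ κ #A ≤ κ card V1`). `XPQ` and `SmPQ` transfer by images under `Subtype.val` (for `a ∈ A`, `b ∈ B` `H`-adjacency is `G`-adjacency). `mm ℓ v := if h : v ∈ A ∪ B then (mm1 ℓ ⟨v, h⟩).1 else v`.
-/

set_option autoImplicit false

namespace Pool.Agent.H71.TD

open Finset Classical
open Pool.Agent.H71.DN Pool.Agent.H71.DX Pool.Agent.H71.DR Pool.Agent.H71.HL Pool.Agent.H71.DC

private theorem ctsB_map {W V : Type} [Fintype W] [Fintype V] (f : W → V)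
    (hf : Function.Injective f) (G : SimpleGraph V) (H : SimpleGraph W) (A Y : Finset W)
    (h : ∀ a ∈ A, ∀ y ∈ Y, (H.Adj a y ↔ G.Adj (f a) (f y))) :
    ee H A Y = ee G (A.map ⟨f, hf⟩) (Y.map ⟨f, hf⟩) := by
  unfold ee
  refine Finset.card_bij (fun x _ => (f x.1, f x.2)) ?_ ?_ ?_
  · intro x hx
    rw [mem_filter, mem_product] at hx
    rw [mem_filter, mem_product]
    exact ⟨⟨mem_map_of_mem ⟨f, hf⟩ hx.1.1, mem_map_of_mem ⟨f, hf⟩ hx.1.2⟩,
      (h _ hx.1.1 _ hx.1.2).1 hx.2⟩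
  · intro a _ b _ hab
    rw [Prod.ext_iff] at hab
    exact Prod.ext (hf hab.1) (hf hab.2)
  · intro b hb
    rw [mem_filter, mem_product, mem_map, mem_map] at hb
    obtain ⟨⟨⟨x, hx, hx1⟩, ⟨y, hy, hy1⟩⟩, hadj⟩ := hb
    refine ⟨(x, y), ?_, Prod.ext hx1 hy1⟩
    rw [mem_filter, mem_product]
    refine ⟨⟨hx, hy⟩, ?_⟩
    rw [← hx1, ← hy1] at hadj
    exact (h x hx y hy).2 hadj

private theorem ctsB_cf {W V : Type} (f : W → V) (hf : Function.Injective f)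
    (s : Finset W) (t : Finset V) (p : W → Prop) (q : V → Prop) (dp : DecidablePred p)
    (dq : DecidablePred q) (hst : ∀ w, w ∈ s ↔ f w ∈ t) (ht : ∀ v ∈ t, ∃ w, f w = v)
    (h : ∀ w ∈ s, p w ↔ q (f w)) :
    (@Finset.filter W p dp s).card = (@Finset.filter V q dq t).card := by
  refine Finset.card_bij (fun w _ => f w) ?_ ?_ ?_
  · intro w hw
    rw [Finset.mem_filter] at hw
    rw [Finset.mem_filter]
    exact ⟨(hst w).1 hw.1, (h w hw.1).1 hw.2⟩
  · intro a _ b _ hab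
    exact hf hab
  · intro v hv
    rw [Finset.mem_filter] at hv
    obtain ⟨w, rfl⟩ := ht v hv.1
    have hw := (hst w).2 hv.1
    exact ⟨w, Finset.mem_filter.2 ⟨hw, (h w hw).2 hv.2⟩, rfl⟩

private theorem ctsB_xp {W V : Type} [Fintype W] [Fintype V] (f : W → V)
    (hf : Function.Injective f) (G : SimpleGraph V) (H : SimpleGraph W) (P Q : Finset V)
    (P1 Q1 : Finset W) (hP1 : ∀ w, w ∈ P1 ↔ f w ∈ P) (hQ1 : ∀ w, w ∈ Q1 ↔ f w ∈ Q)
    (hP : P1.card = P.card) (hQ : Q1.card = Q.card)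
    (h : ∀ a y, f a ∈ P → f y ∈ Q → (H.Adj a y ↔ G.Adj (f a) (f y))) (τ ν lam : ℝ)
    (hX : XPQ G P Q τ ν lam) : XPQ H P1 Q1 τ ν lam := by
  intro A Y hA hY h1 h2 h3
  rw [ctsB_map f hf G H A Y (fun a ha y hy =>
    h a y ((hP1 a).1 (hA ha)) ((hQ1 y).1 (hY hy)))] at h3
  rw [hP] at h1 h2 h3 ⊢
  rw [hQ]
  have h4 := hX (A.map ⟨f, hf⟩) (Y.map ⟨f, hf⟩)
    (by
      intro v hv
      obtain ⟨w, hw, rfl⟩ := mem_map.1 hv
      exact (hP1 w).1 (hA hw))
    (by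
      intro v hv
      obtain ⟨w, hw, rfl⟩ := mem_map.1 hv
      exact (hQ1 w).1 (hY hw))
    (by
      rw [card_map]
      exact h1)
    (by
      rw [card_map]
      exact h2) h3
  rw [card_map, card_map] at h4
  exact h4

private theorem ctsB_sm {W V : Type} [Fintype W] [Fintype V] (f : W → V)
    (hf : Function.Injective f) (G : SimpleGraph V) (H : SimpleGraph W) (P Q X : Finset V)
    (P1 Q1 X1 : Finset W) (hP1 : ∀ w, w ∈ P1 ↔ f w ∈ P) (hQ1 : ∀ w, w ∈ Q1 ↔ f w ∈ Q)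
    (hX1 : ∀ w, w ∈ X1 ↔ f w ∈ X) (hXP : X ⊆ P) (hr : ∀ v ∈ P, ∃ w, f w = v)
    (hP : P1.card = P.card)
    (h : ∀ b a, f b ∈ Q → f a ∈ P → (H.Adj b a ↔ G.Adj (f b) (f a))) (x η : ℝ) (K : ℕ)
    (hS : SmPQ G P Q X x η K) : SmPQ H P1 Q1 X1 x η K := by
  intro b hb i
  have h1 := hS (fun j => f (b j)) (fun j => (hQ1 _).1 (hb j)) i
  have h2 : ∀ w, f w ∈ P → ((univ.filter fun j => H.Adj (b j) w).card ≤ i ↔
      (univ.filter fun j => G.Adj (f (b j)) (f w)).card ≤ i) := by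
    intro w hw
    rw [Finset.filter_congr (fun j _ => h (b j) w ((hQ1 _).1 (hb j)) hw)]
  have h3 := ctsB_cf f hf X1 X (fun a => (univ.filter fun j => H.Adj (b j) a).card ≤ i)
    (fun a => (univ.filter fun j => G.Adj (f (b j)) a).card ≤ i)
    (fun _ => Classical.propDecidable _) (fun _ => Classical.propDecidable _) hX1
    (fun v hv => hr v (hXP hv)) (fun w hw => h2 w (hXP ((hX1 w).1 hw)))
  have h4 := ctsB_cf f hf P1 P (fun a => (univ.filter fun j => H.Adj (b j) a).card ≤ i)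
    (fun a => (univ.filter fun j => G.Adj (f (b j)) a).card ≤ i)
    (fun _ => Classical.propDecidable _) (fun _ => Classical.propDecidable _) hP1
    hr (fun w hw => h2 w ((hP1 w).1 hw))
  have e1 : (X1.filter fun a => (univ.filter fun j => H.Adj (b j) a).card ≤ i).card =
      (X.filter fun a => (univ.filter fun j => G.Adj (f (b j)) a).card ≤ i).card := by
    rw [← Nat.cast_inj (R := ℝ)]
    have h5 := h3
    rw [← Nat.cast_inj (R := ℝ)] at h5
    calc _ = _ := by congr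
      _ = _ := h5
      _ = _ := by congr
  have e2 : (P1.filter fun a => (univ.filter fun j => H.Adj (b j) a).card ≤ i).card =
      (P.filter fun a => (univ.filter fun j => G.Adj (f (b j)) a).card ≤ i).card := by
    rw [← Nat.cast_inj (R := ℝ)]
    have h5 := h4
    rw [← Nat.cast_inj (R := ℝ)] at h5
    calc _ = _ := by congr
      _ = _ := h5
      _ = _ := by congr
  rw [e1, e2, hP]
  exact h1

theorem ctsB (c x : ℝ) (g : ℕ) (hc : 0 < c) (hc1 : c ≤ 1) (hx : 0 < x) (hx1 : x ≤ 1)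
    (hg : 2 ≤ g) :
    ∃ (κ ρ η : ℝ) (K0 n0 : ℕ), 0 < κ ∧ 0 < ρ ∧ 0 < η ∧ 1 ≤ K0 ∧
      ∀ (V : Type) [Fintype V] (G : SimpleGraph V) (Δ : ℕ) (A B XA XB YA YB : Finset V),
        n0 ≤ A.card → A.card = B.card → Disjoint A B → 2 * c * A.card ≤ Δ →
        (Δ : ℝ) ≤ 2 * A.card →
        (∀ v ∈ A, dgi G B v ≤ Δ ∧ (Δ : ℝ) ≤ dgi G B v + ρ * A.card) →
        (∀ v ∈ B, dgi G A v ≤ Δ ∧ (Δ : ℝ) ≤ dgi G A v + ρ * A.card) →
        XPQ G A B (c / 128) x x → XPQ G B A (c / 128) x x →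
        Disjoint XA YA → Disjoint XB YB → XA ∪ YA = A → XB ∪ YB = B →
        XA.card = XB.card → YA.card = YB.card →
        SmPQ G A B XA (1 / 2) η K0 → SmPQ G A B YA (1 / 2) η K0 →
        SmPQ G B A XB (1 / 2) η K0 → SmPQ G B A YB (1 / 2) η K0 →
        ∀ U : ℕ → Finset V, (∀ ℓ < Δ + 2, ((U ℓ ∩ (A ∪ B)).card : ℝ) ≤ κ * A.card) →
          (∀ v ∈ A, dgi G B v + mul (Δ + 2) U v = Δ + 2) →
          (∀ v ∈ B, dgi G A v + mul (Δ + 2) U v = Δ + 2) →
          (∀ ℓ < Δ / (12 * g), Disjoint (U ℓ) (XA ∪ XB)) →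
          (∀ ℓ, Δ / (12 * g) ≤ ℓ → ℓ < 2 * (Δ / (12 * g)) → Disjoint (U ℓ) (YA ∪ YB)) →
          (∀ ℓ < Δ + 2, (A \ U ℓ).card = (B \ U ℓ).card) →
          ∃ mm : ℕ → V → V, PM (bt G A B) (Δ + 2) (fun ℓ => U ℓ ∪ (univ \ (A ∪ B))) mm ∧
            ∀ ℓ < Δ + 2, ∀ v ∈ A ∪ B, v ∉ U ℓ → mm ℓ v ≠ v := by
  obtain ⟨κ, ρ, η, K0, n0, hκ, hρ, hη, hK0, H⟩ := ct2B c x g hc hc1 hx hx1 hg
  refine ⟨κ, ρ, η, K0, n0, hκ, hρ, hη, hK0, ?_⟩
  intro V _ G Δ A B XA XB YA YB hn hAB hdj hcA hΔA hrA hrB hxA hxB hdA hdB huA huB hcX hcY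
    s1 s2 s3 s4 U hU hmA hmB hf1 hf2 hbal
  obtain ⟨W, hW, f, hf, hr⟩ : ∃ (W : Type) (_ : Fintype W) (f : W → V),
      Function.Injective f ∧ ∀ v, (v ∈ A ∪ B ↔ ∃ w, f w = v) :=
    ⟨{v : V // v ∈ A ∪ B}, inferInstance, Subtype.val, Subtype.val_injective,
      fun v => ⟨fun h => ⟨⟨v, h⟩, rfl⟩, by
        rintro ⟨w, rfl⟩
        exact w.2⟩⟩
  obtain ⟨fx, hfx⟩ : ∃ fx : Finset V → Finset W, ∀ S w, w ∈ fx S ↔ f w ∈ S :=
    ⟨fun S => univ.filter fun w => f w ∈ S, fun S w => by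
      rw [mem_filter]
      exact ⟨fun h => h.2, fun h => ⟨mem_univ _, h⟩⟩⟩
  have hcd : ∀ S : Finset V, S ⊆ A ∪ B → (fx S).card = S.card := by
    intro S hS
    refine Finset.card_bij (fun w _ => f w) ?_ ?_ ?_
    · intro w hw
      exact (hfx S w).1 hw
    · intro a _ b _ h
      exact hf h
    · intro v hv
      obtain ⟨w, rfl⟩ := (hr v).1 (hS hv)
      exact ⟨w, (hfx S w).2 hv, rfl⟩
  have hA : A ⊆ A ∪ B := subset_union_left
  have hB : B ⊆ A ∪ B := subset_union_right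
  have hXA : XA ⊆ A := by
    rw [← huA]
    exact subset_union_left
  have hYA : YA ⊆ A := by
    rw [← huA]
    exact subset_union_right
  have hXB : XB ⊆ B := by
    rw [← huB]
    exact subset_union_left
  have hYB : YB ⊆ B := by
    rw [← huB]
    exact subset_union_right
  have hcW : Fintype.card W = 2 * A.card := by
    have h1 := hcd (A ∪ B) (Finset.Subset.refl _)
    have h2 : fx (A ∪ B) = univ := by
      ext w
      exact ⟨fun _ => mem_univ _, fun _ => (hfx _ _).2 ((hr _).2 ⟨w, rfl⟩)⟩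
    rw [h2, card_univ, card_union_of_disjoint hdj, ← hAB] at h1
    omega
  have hcWr : (Fintype.card W : ℝ) = 2 * A.card := by
    rw [hcW]
    push_cast
    ring
  have e1 : fx XA ∪ fx YA = fx A := by
    ext w
    rw [mem_union, hfx, hfx, hfx, ← huA, mem_union]
  have e2 : fx XB ∪ fx YB = fx B := by
    ext w
    rw [mem_union, hfx, hfx, hfx, ← huB, mem_union]
  have hab : ∀ a y, f a ∈ A → f y ∈ B →
      (((bt G A B).comap f).Adj a y ↔ G.Adj (f a) (f y)) := by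
    intro a y ha hy
    exact ⟨fun h => h.1, fun h => ⟨h, Or.inl ⟨ha, hy⟩⟩⟩
  have hba : ∀ a y, f a ∈ B → f y ∈ A →
      (((bt G A B).comap f).Adj a y ↔ G.Adj (f a) (f y)) := by
    intro a y ha hy
    exact ⟨fun h => h.1, fun h => ⟨h, Or.inr ⟨ha, hy⟩⟩⟩
  have hnAB : ∀ v, v ∈ A → v ∉ B := fun v h1 h2 => Finset.disjoint_left.1 hdj h1 h2
  have hdgA : ∀ w, f w ∈ A → dg ((bt G A B).comap f) w = dgi G B (f w) := by
    intro w hw
    unfold dg dgi
    refine Finset.card_bij (fun u _ => f u) ?_ ?_ ?_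
    · intro u hu
      rw [mem_filter] at hu ⊢
      have h1 : (bt G A B).Adj (f w) (f u) := hu.2
      rcases h1.2 with h2 | h2
      · exact ⟨h2.2, h1.1⟩
      · exact absurd h2.1 (hnAB _ hw)
    · intro a _ b _ h
      exact hf h
    · intro v hv
      rw [mem_filter] at hv
      obtain ⟨u, rfl⟩ := (hr v).1 (hB hv.1)
      refine ⟨u, ?_, rfl⟩
      rw [mem_filter]
      exact ⟨mem_univ _, (hab w u hw hv.1).2 hv.2⟩
  have hdgB : ∀ w, f w ∈ B → dg ((bt G A B).comap f) w = dgi G A (f w) := by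
    intro w hw
    unfold dg dgi
    refine Finset.card_bij (fun u _ => f u) ?_ ?_ ?_
    · intro u hu
      rw [mem_filter] at hu ⊢
      have h1 : (bt G A B).Adj (f w) (f u) := hu.2
      rcases h1.2 with h2 | h2
      · exact absurd hw (hnAB _ h2.1)
      · exact ⟨h2.2, h1.1⟩
    · intro a _ b _ h
      exact hf h
    · intro v hv
      rw [mem_filter] at hv
      obtain ⟨u, rfl⟩ := (hr v).1 (hA hv.1)
      refine ⟨u, ?_, rfl⟩
      rw [mem_filter]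
      exact ⟨mem_univ _, (hba w u hw hv.1).2 hv.2⟩
  have hAorB : ∀ w, f w ∈ A ∨ f w ∈ B := fun w => mem_union.1 ((hr _).2 ⟨w, rfl⟩)
  have hmul : ∀ w, mul (Δ + 2) (fun ℓ => fx (U ℓ)) w = mul (Δ + 2) U (f w) := by
    intro w
    unfold mul
    refine congrArg Finset.card (Finset.filter_congr (fun ℓ _ => hfx (U ℓ) w))
  have hA0 : (0 : ℝ) ≤ A.card := Nat.cast_nonneg _
  have hdisj : ∀ S T : Finset V, Disjoint S T → Disjoint (fx S) (fx T) := by
    intro S T h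
    rw [Finset.disjoint_left] at h ⊢
    intro w h1 h2
    exact h ((hfx _ _).1 h1) ((hfx _ _).1 h2)
  have hcA1 := hcd A hA
  have hcB1 := hcd B hB
  have hinter : ∀ ℓ, (fx (U ℓ)).card = (U ℓ ∩ (A ∪ B)).card := by
    intro ℓ
    rw [← hcd (U ℓ ∩ (A ∪ B)) inter_subset_right]
    refine congrArg Finset.card ?_
    ext w
    rw [hfx, hfx, mem_inter]
    exact ⟨fun h => ⟨h, (hr _).2 ⟨w, rfl⟩⟩, fun h => h.1⟩
  have hsd : ∀ S : Finset V, S ⊆ A ∪ B → ∀ ℓ, (fx S \ fx (U ℓ)).card = (S \ U ℓ).card := by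
    intro S hS ℓ
    rw [← hcd (S \ U ℓ) (fun v hv => hS (mem_sdiff.1 hv).1)]
    refine congrArg Finset.card ?_
    ext w
    rw [mem_sdiff, hfx, hfx, hfx, mem_sdiff]
  obtain ⟨mm1, hPM, hful⟩ : Full ((bt G A B).comap f) (Δ + 2) (fun ℓ => fx (U ℓ)) := by
    refine H W ((bt G A B).comap f) Δ (fx XA) (fx XB) (fx YA) (fx YB) ?_ ?_ ?_ ?_ ?_ ?_ ?_ ?_
      ?_ ?_ ?_ ?_ (fun ℓ => fx (U ℓ)) ?_ ?_ ?_ ?_ ?_
    · rw [hcW]
      omega
    · rw [hcWr]
      linarith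
    · rw [hcWr]
      linarith
    · intro w
      rw [hcWr]
      rcases hAorB w with h | h
      · rw [hdgA w h]
        refine ⟨(hrA _ h).1, le_trans (hrA _ h).2 ?_⟩
        nlinarith [mul_nonneg hρ.le hA0]
      · rw [hdgB w h]
        refine ⟨(hrB _ h).1, le_trans (hrB _ h).2 ?_⟩
        nlinarith [mul_nonneg hρ.le hA0]
    · refine ⟨?_, ?_, ?_, ?_, ?_, ?_, ?_, ?_, ?_⟩
      · exact hdisj _ _ (Finset.disjoint_of_subset_left hXA (Finset.disjoint_of_subset_right hXB hdj))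
      · exact hdisj _ _ hdA
      · exact hdisj _ _ (Finset.disjoint_of_subset_left hXA (Finset.disjoint_of_subset_right hYB hdj))
      · exact hdisj _ _ (Finset.disjoint_of_subset_left hXB
          (Finset.disjoint_of_subset_right hYA hdj.symm))
      · exact hdisj _ _ hdB
      · exact hdisj _ _ (Finset.disjoint_of_subset_left hYA (Finset.disjoint_of_subset_right hYB hdj))
      · intro w
        rw [hfx, hfx, hfx, hfx]
        rcases hAorB w with h | h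
        · rw [← huA, mem_union] at h
          rcases h with h | h
          · exact Or.inl h
          · exact Or.inr (Or.inr (Or.inl h))
        · rw [← huB, mem_union] at h
          rcases h with h | h
          · exact Or.inr (Or.inl h)
          · exact Or.inr (Or.inr (Or.inr h))
      · rw [hcd _ (hXA.trans hA), hcd _ (hXB.trans hB), hcX]
      · rw [hcd _ (hYA.trans hA), hcd _ (hYB.trans hB), hcY]
    · intro a b h
      rw [e1, hfx, hfx]
      have h1 : (bt G A B).Adj (f a) (f b) := h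
      rcases h1.2 with h2 | h2
      · exact ⟨fun _ h3 => hnAB _ h3 h2.2, fun _ => h2.1⟩
      · exact ⟨fun h3 => absurd h2.1 (hnAB _ h3), fun h3 => absurd h2.2 h3⟩
    · rw [e1, e2]
      exact ctsB_xp f hf G _ A B _ _ (hfx A) (hfx B) hcA1 hcB1 hab _ _ _ hxA
    · rw [e1, e2]
      exact ctsB_xp f hf G _ B A _ _ (hfx B) (hfx A) hcB1 hcA1 hba _ _ _ hxB
    · rw [e1, e2]
      exact ctsB_sm f hf G _ A B XA _ _ _ (hfx A) (hfx B) (hfx XA) hXA
        (fun v hv => (hr v).1 (hA hv)) hcA1 hba _ _ _ s1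
    · rw [e1, e2]
      exact ctsB_sm f hf G _ A B YA _ _ _ (hfx A) (hfx B) (hfx YA) hYA
        (fun v hv => (hr v).1 (hA hv)) hcA1 hba _ _ _ s2
    · rw [e1, e2]
      exact ctsB_sm f hf G _ B A XB _ _ _ (hfx B) (hfx A) (hfx XB) hXB
        (fun v hv => (hr v).1 (hB hv)) hcB1 hab _ _ _ s3
    · rw [e1, e2]
      exact ctsB_sm f hf G _ B A YB _ _ _ (hfx B) (hfx A) (hfx YB) hYB
        (fun v hv => (hr v).1 (hB hv)) hcB1 hab _ _ _ s4
    · intro ℓ hℓ
      rw [hcWr]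
      show ((fx (U ℓ)).card : ℝ) ≤ _
      rw [hinter]
      refine le_trans (hU ℓ hℓ) ?_
      nlinarith [mul_nonneg hκ.le hA0]
    · intro w
      rw [hmul]
      rcases hAorB w with h | h
      · rw [hdgA w h]
        exact hmA _ h
      · rw [hdgB w h]
        exact hmB _ h
    · intro ℓ hℓ
      have h1 := hf1 ℓ hℓ
      rw [Finset.disjoint_left] at h1 ⊢
      intro w h2 h3
      rw [mem_union, hfx, hfx] at h3
      exact h1 ((hfx _ _).1 h2) (mem_union.2 h3)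
    · intro ℓ hℓ hℓ'
      have h1 := hf2 ℓ hℓ hℓ'
      rw [Finset.disjoint_left] at h1 ⊢
      intro w h2 h3
      rw [mem_union, hfx, hfx] at h3
      exact h1 ((hfx _ _).1 h2) (mem_union.2 h3)
    · intro ℓ hℓ
      rw [e1, e2]
      show (fx A \ fx (U ℓ)).card = (fx B \ fx (U ℓ)).card
      rw [hsd A hA, hsd B hB]
      exact hbal ℓ hℓ
  obtain ⟨mm, hmm⟩ : ∃ mm : ℕ → V → V, mm = fun ℓ v =>
      if h : ∃ w, f w = v then f (mm1 ℓ h.choose) else v := ⟨_, rfl⟩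
  have hin : ∀ ℓ w, mm ℓ (f w) = f (mm1 ℓ w) := by
    intro ℓ w
    have h : ∃ u, f u = f w := ⟨w, rfl⟩
    rw [hmm]
    show (if h : ∃ u, f u = f w then f (mm1 ℓ h.choose) else f w) = _
    rw [dif_pos h]
    rw [hf h.choose_spec]
  have hout : ∀ ℓ v, v ∉ A ∪ B → mm ℓ v = v := by
    intro ℓ v hv
    rw [hmm]
    exact dif_neg (fun h => hv ((hr v).2 h))
  refine ⟨mm, ⟨?_, ?_, ?_, ?_⟩, ?_⟩
  · intro ℓ hℓ v
    by_cases h : v ∈ A ∪ B
    · obtain ⟨w, rfl⟩ := (hr v).1 h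
      rw [hin, hin, hPM.inv ℓ hℓ w]
    · rw [hout ℓ v h, hout ℓ v h]
  · intro ℓ hℓ v hv
    by_cases h : v ∈ A ∪ B
    · obtain ⟨w, rfl⟩ := (hr v).1 h
      rw [hin] at hv ⊢
      exact hPM.adj ℓ hℓ w (fun h2 => hv (congrArg f h2))
    · exact absurd (hout ℓ v h) hv
  · intro ℓ hℓ ℓ' hℓ' hne v hv
    by_cases h : v ∈ A ∪ B
    · obtain ⟨w, rfl⟩ := (hr v).1 h
      rw [hin] at hv ⊢
      rw [hin]
      have h1 := hPM.dis ℓ hℓ ℓ' hℓ' hne w (fun h2 => hv (congrArg f h2))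
      exact fun h2 => h1 (hf h2)
    · exact absurd (hout ℓ v h) hv
  · intro ℓ hℓ v hv
    by_cases h : v ∈ A ∪ B
    · obtain ⟨w, rfl⟩ := (hr v).1 h
      rw [hin]
      have hvU : f w ∈ U ℓ := by
        rcases mem_union.1 hv with hv | hv
        · exact hv
        · exact absurd h (Finset.mem_sdiff.1 hv).2
      exact congrArg f (hPM.fix ℓ hℓ w ((hfx _ _).2 hvU))
    · exact hout ℓ v h
  · intro ℓ hℓ v hv hvU
    obtain ⟨w, rfl⟩ := (hr v).1 hv
    rw [hin]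
    intro h
    exact hful ℓ hℓ w (fun h1 => hvU ((hfx _ _).1 h1)) (hf h)

end Pool.Agent.H71.TD
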