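import Mathlib
import Pool.Agent.H71.TD.Defs2
import Pool.Agent.H71.TD.Gad
import Pool.Agent.H71.DX.Sas

/-!
DDE: distribution of the sparse leftover graph `D0` and of the two gadget graphs `D2` (edges inside the quarters) and `D3` (edges between `XA` and `YA` and between `XB` and `YB`) to the `3 t` labels such that afterwards at every label the same number of vertices
of `XA` and `XB`, and of `YA` and `YB`, is left. At the labels `ℓ < t` nothing happens in `X = XA ∪ XB`, at the labels `t ≤ ℓ < 2 t` nothing happens in `Y = YA ∪ YB`. Use the STATEMENTS of `sas` (`DX/Sas.lean`) and `gad` (`TD/Gad.lean`).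

Proof.  1. `sas` for `D0` and the `t` labels `2 t + j` (`U' j := U (2 t + j)`) gives `σ0 ℓ` (identity for `ℓ < 2 t`). `U1 ℓ := U ℓ ∪ {v : σ0 ℓ v ≠ v}`: `#(U1 ℓ) ≤ u + cap0`, `mul (3 t) U1 v = mul (3 t) U v + dg D0 v ≤ s + d0`.
 `p ℓ := #(XA \ U1 ℓ) - #(XB \ U1 ℓ)`, `q ℓ := #(YA \ U1 ℓ) - #(YB \ U1 ℓ)` (integers), `|p ℓ|, |q ℓ| ≤ u + cap0`. `p ℓ + q ℓ` is even (`hev`, and `σ0 ℓ` moves an even number of vertices). `p ℓ = 0` for `ℓ < t`, `q ℓ = 0` for `t ≤ ℓ < 2 t`, so both are even for `ℓ < 2 t`.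
 By `hX` `∑_{ℓ < 3 t} p ℓ = ∑_{XB} mul U1 - ∑_{XA} mul U1 = (ee D2 XA XA - ee D2 XB XB) + δ3`, `δ3 := ee D3 XA YA - ee D3 XB YB`, and `∑ q ℓ = (ee D2 YA YA - ee D2 YB YB) + δ3` by `hY`. `ee D2 XA XA` etc. are even.
2. There is `γ : ℕ → ℤ` with `γ ℓ = 0` for `ℓ < 2 t`, `γ ℓ ≡ p ℓ (mod 2)`, `∑_{2 t ≤ ℓ < 3 t} γ ℓ = δ3` and `|γ ℓ| ≤ a0 + 4`: start with the parities `0, 1` (sum `β0 ≡ ∑ p ≡ δ3 (mod 2)`, `0 ≤ β0 ≤ t`) and distribute `(δ3 - β0) / 2` (absolute value at most `(t a0 + t) / 2`)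
 as evenly as possible over the `t` labels, twice.
 `gad` for `Dp :=` the edges of `D3` between `XA` and `YA`, `Dm :=` those between `XB` and `YB`, `α := γ`, `K := 3 t`, `T3 := {ℓ : 2 t ≤ ℓ < 3 t}`, `U := U1` gives `σ3` (`σ3 ℓ = id` for `ℓ < 2 t`). `U2 ℓ := U1 ℓ ∪ {v : σ3 ℓ v ≠ v}`. Now `#(XA \ U2 ℓ) - #(XB \ U2 ℓ) = p ℓ - γ ℓ`,
 `#(YA \ U2 ℓ) - #(YB \ U2 ℓ) = q ℓ - γ ℓ`: both even.
3. `gad` for the edges of `D2` inside `XA` and inside `XB`, `α ℓ := (p ℓ - γ ℓ) / 2`, `U2`, gives `σ2`; `U3 ℓ := U2 ℓ ∪ {v : σ2 ℓ v ≠ v}`. `gad` for the edges of `D2` inside `YA` and inside `YB`, `α ℓ := (q ℓ - γ ℓ) / 2`, `U3`, gives `σ2'`. `|α ℓ| ≤ a` each time; the sets have at most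
 `u + cap0 + 2 cap` elements and `mul ≤ s + d0 + 2 d`. `ee Dp univ univ` is `2 * ee D3 XA YA` resp. `ee D2 XA XA` etc.
4. `σ ℓ v` is the first of `σ0 ℓ v, σ3 ℓ v, σ2 ℓ v, σ2' ℓ v` that is not `v` (`v` if there is none); their supports are disjoint.
-/

set_option autoImplicit false

namespace Pool.Agent.H71.TD

open Finset Classical
open Pool.Agent.H71.DN Pool.Agent.H71.DX Pool.Agent.H71.DR Pool.Agent.H71.HL Pool.Agent.H71.DC

/-- the merge of two families of matchings with disjoint supports -/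
noncomputable def mgE {V : Type} (σ τ : ℕ → V → V) : ℕ → V → V :=
  fun ℓ v => if σ ℓ v = v then τ ℓ v else σ ℓ v

/-- the forbidden sets together with the covered vertices -/
noncomputable def upE {V : Type} [Fintype V] (U : ℕ → Finset V) (σ : ℕ → V → V) : ℕ → Finset V :=
  fun ℓ => U ℓ ∪ univ.filter fun v => σ ℓ v ≠ v

/-- the edges of `D` between `Z` and `W` -/
def rsE {V : Type} (D : SimpleGraph V) (Z W : Finset V) : SimpleGraph V where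
  Adj u v := D.Adj u v ∧ ((u ∈ Z ∧ v ∈ W) ∨ (u ∈ W ∧ v ∈ Z))
  symm := ⟨fun _ _ h => ⟨h.1.symm, h.2.elim (fun h => Or.inr ⟨h.2, h.1⟩)
    (fun h => Or.inl ⟨h.2, h.1⟩)⟩⟩
  loopless := ⟨fun _ h => D.irrefl h.1⟩

theorem mgE_fix {V : Type} {σ τ : ℕ → V → V} {ℓ : ℕ} {v : V} (h1 : σ ℓ v = v)
    (h2 : τ ℓ v = v) : mgE σ τ ℓ v = v := by
  unfold mgE
  rw [if_pos h1, h2]

theorem upE_mg {V : Type} [Fintype V] (U : ℕ → Finset V) (σ τ : ℕ → V → V) (ℓ : ℕ) :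
    upE U (mgE σ τ) ℓ = upE (upE U σ) τ ℓ := by
  ext v
  unfold upE mgE
  simp only [mem_union, mem_filter, mem_univ, true_and]
  by_cases hs : σ ℓ v = v
  · rw [if_pos hs]
    tauto
  · rw [if_neg hs]
    tauto

theorem lef_eq {V : Type} [Fintype V] (Z : Finset V) (U : ℕ → Finset V) (σ : ℕ → V → V)
    (ℓ : ℕ) : lef Z (U ℓ) (σ ℓ) = (Z \ upE U σ ℓ).card := by
  unfold lef upE
  congr 1
  ext v
  simp only [mem_sdiff, mem_union, mem_filter, mem_univ, true_and]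
  tauto

theorem ddE_mg {V : Type} [Fintype V] {D D' : SimpleGraph V} {K : ℕ} {U : ℕ → Finset V}
    {c c' : ℕ} {σ τ : ℕ → V → V} (h : Dst D K U c σ) (h' : Dst D' K (upE U σ) c' τ)
    (hdd : ∀ a b, D.Adj a b → ¬ D'.Adj a b) :
    Dst (D ⊔ D') K U (c + c') (mgE σ τ) := by
  have hf : ∀ ℓ < K, ∀ v, σ ℓ v ≠ v → τ ℓ v = v := fun ℓ hℓ v hv =>
    h'.fix ℓ hℓ v (mem_union_right _ (mem_filter.2 ⟨mem_univ _, hv⟩))
  have e1 : ∀ ℓ v, σ ℓ v ≠ v → mgE σ τ ℓ v = σ ℓ v := fun ℓ v hv => if_neg hv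
  have e2 : ∀ ℓ v, σ ℓ v = v → mgE σ τ ℓ v = τ ℓ v := fun ℓ v hv => if_pos hv
  refine ⟨?_, ?_, ?_, ?_, ?_, ?_⟩
  · intro ℓ hℓ v
    by_cases hv : σ ℓ v = v
    · rw [e2 ℓ v hv]
      by_cases hw : τ ℓ v = v
      · rw [hw, e2 ℓ v hv, hw]
      · have h3 : σ ℓ (τ ℓ v) = τ ℓ v := by
          by_contra h4
          have h5 := hf ℓ hℓ _ h4
          rw [h'.inv ℓ hℓ v] at h5
          exact hw h5.symm
        rw [e2 ℓ _ h3, h'.inv ℓ hℓ v]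
    · rw [e1 ℓ v hv]
      have h3 : σ ℓ (σ ℓ v) ≠ σ ℓ v := by
        rw [h.inv ℓ hℓ v]
        exact fun h4 => hv h4.symm
      rw [e1 ℓ _ h3, h.inv ℓ hℓ v]
  · intro ℓ hℓ v hv
    by_cases hs : σ ℓ v = v
    · rw [e2 ℓ v hs] at hv ⊢
      exact Or.inr (h'.adj ℓ hℓ v hv)
    · rw [e1 ℓ v hs]
      exact Or.inl (h.adj ℓ hℓ v hs)
  · intro i hi j hj hij v hv
    by_cases hs : σ i v = v
    · by_cases ht : σ j v = v
      · rw [e2 i v hs] at hv ⊢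
        rw [e2 j v ht]
        exact h'.dis i hi j hj hij v hv
      · rw [e2 i v hs] at hv ⊢
        rw [e1 j v ht]
        intro h5
        have h6 := h'.adj i hi v hv
        rw [h5] at h6
        exact hdd _ _ (h.adj j hj v ht) h6
    · by_cases ht : σ j v = v
      · rw [e1 i v hs, e2 j v ht]
        intro h5
        have h6 := h'.adj j hj v (by rw [← h5]; exact hs)
        rw [← h5] at h6
        exact hdd _ _ (h.adj i hi v hs) h6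
      · rw [e1 i v hs, e1 j v ht]
        exact h.dis i hi j hj hij v hs
  · intro a b hab
    rcases hab with hab | hab
    · obtain ⟨ℓ, hℓ, he⟩ := h.cov a b hab
      refine ⟨ℓ, hℓ, ?_⟩
      rw [e1 ℓ a (by rw [he]; exact hab.ne'), he]
    · obtain ⟨ℓ, hℓ, he⟩ := h'.cov a b hab
      refine ⟨ℓ, hℓ, ?_⟩
      have h3 : σ ℓ a = a := by
        by_contra h4
        have h5 := hf ℓ hℓ a h4
        rw [he] at h5
        exact hab.ne' h5
      rw [e2 ℓ a h3, he]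
  · intro ℓ hℓ v hv
    rw [e2 ℓ v (h.fix ℓ hℓ v hv)]
    exact h'.fix ℓ hℓ v (mem_union_left _ hv)
  · intro ℓ hℓ
    refine le_trans (card_le_card ?_) ((card_union_le _ _).trans
      (Nat.add_le_add (h.cap ℓ hℓ) (h'.cap ℓ hℓ)))
    intro v hv
    rw [mem_filter] at hv
    rw [mem_union, mem_filter, mem_filter]
    by_cases hs : σ ℓ v = v
    · rw [e2 ℓ v hs] at hv
      exact Or.inr hv
    · exact Or.inl ⟨mem_univ _, hs⟩

theorem ddE_mul {V : Type} [Fintype V] {D : SimpleGraph V} {K : ℕ} {U : ℕ → Finset V}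
    {c : ℕ} {σ : ℕ → V → V} (h : Dst D K U c σ) (v : V) :
    mul K (upE U σ) v = mul K U v + dg D v := by
  have h1 : ((range K).filter fun ℓ => v ∈ upE U σ ℓ) =
      ((range K).filter fun ℓ => v ∈ U ℓ) ∪ ((range K).filter fun ℓ => σ ℓ v ≠ v) := by
    ext ℓ
    unfold upE
    simp only [mem_union, mem_filter, mem_univ, true_and]
    tauto
  have h2 : Disjoint ((range K).filter fun ℓ => v ∈ U ℓ)
      ((range K).filter fun ℓ => σ ℓ v ≠ v) := by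
    rw [disjoint_left]
    intro ℓ h3 h4
    rw [mem_filter, mem_range] at h3 h4
    exact h4.2 (h.fix ℓ h3.1 v h3.2)
  have h3 : ((range K).filter fun ℓ => σ ℓ v ≠ v).card = dg D v := by
    unfold dg
    refine card_bij (fun ℓ _ => σ ℓ v) ?_ ?_ ?_
    · intro ℓ hℓ
      rw [mem_filter, mem_range] at hℓ
      exact mem_filter.2 ⟨mem_univ _, h.adj ℓ hℓ.1 v hℓ.2⟩
    · intro i hi j hj hij
      rw [mem_filter, mem_range] at hi hj
      by_contra hne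
      exact h.dis i hi.1 j hj.1 hne v hi.2 hij
    · intro b hb
      rw [mem_filter] at hb
      obtain ⟨ℓ, hℓ, he⟩ := h.cov v b hb.2
      refine ⟨ℓ, ?_, he⟩
      rw [mem_filter, mem_range]
      exact ⟨hℓ, by rw [he]; exact hb.2.ne'⟩
  unfold mul
  rw [h1, card_union_of_disjoint h2, h3]

theorem ddE_up_card {V : Type} [Fintype V] {D : SimpleGraph V} {K : ℕ} {U : ℕ → Finset V}
    {c u : ℕ} {σ : ℕ → V → V} (h : Dst D K U c σ) (hu : ∀ ℓ < K, (U ℓ).card ≤ u) :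
    ∀ ℓ < K, (upE U σ ℓ).card ≤ u + c := fun ℓ hℓ =>
  (card_union_le _ _).trans (Nat.add_le_add (hu ℓ hℓ) (h.cap ℓ hℓ))

theorem ddE_dc {V : Type} [Fintype V] (K : ℕ) (U : ℕ → Finset V) (Z : Finset V) :
    ∑ ℓ ∈ range K, (Z \ U ℓ).card + ∑ v ∈ Z, mul K U v = K * Z.card := by
  have h1 : ∀ ℓ, (Z \ U ℓ).card = ∑ v ∈ Z, if v ∈ U ℓ then 0 else 1 := by
    intro ℓ
    have h2 : Z \ U ℓ = Z.filter fun v => ¬ v ∈ U ℓ := by
      ext v
      rw [mem_sdiff, mem_filter]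
    rw [h2, card_filter]
    refine sum_congr rfl fun v _ => ?_
    by_cases hv : v ∈ U ℓ
    · rw [if_pos hv, if_neg (not_not.2 hv)]
    · rw [if_neg hv, if_pos hv]
  have h3 : ∀ v, mul K U v = ∑ ℓ ∈ range K, if v ∈ U ℓ then 1 else 0 := by
    intro v
    unfold mul
    rw [card_filter]
  simp_rw [h1, h3]
  rw [sum_comm, ← sum_add_distrib]
  have h4 : ∀ v ∈ Z, (∑ ℓ ∈ range K, if v ∈ U ℓ then 0 else 1) +
      (∑ ℓ ∈ range K, if v ∈ U ℓ then 1 else 0) = K := by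
    intro v _
    rw [← sum_add_distrib]
    have h5 : ∀ ℓ ∈ range K, ((if v ∈ U ℓ then 0 else 1) + (if v ∈ U ℓ then 1 else 0)) = 1 := by
      intro ℓ _
      by_cases hv : v ∈ U ℓ
      · rw [if_pos hv, if_pos hv]
      · rw [if_neg hv, if_neg hv]
    rw [sum_congr rfl h5, sum_const, card_range, smul_eq_mul, mul_one]
  rw [sum_congr rfl h4, sum_const, smul_eq_mul, mul_comm]

theorem ddE_mv {V : Type} [Fintype V] {D : SimpleGraph V} {K : ℕ} {U : ℕ → Finset V}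
    {c : ℕ} {σ : ℕ → V → V} (h : Dst D K U c σ) (Z : Finset V) (ℓ : ℕ) (hℓ : ℓ < K) :
    (Z \ upE U σ ℓ).card + (Z.filter fun v => σ ℓ v ≠ v).card = (Z \ U ℓ).card := by
  rw [← card_union_of_disjoint]
  · congr 1
    ext v
    unfold upE
    simp only [mem_union, mem_sdiff, mem_filter, mem_univ, true_and]
    have h1 := h.fix ℓ hℓ v
    tauto
  · rw [disjoint_left]
    intro v h1 h2
    rw [mem_sdiff] at h1
    rw [mem_filter] at h2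
    exact h1.2 (mem_union_right _ (mem_filter.2 ⟨mem_univ _, h2.2⟩))

theorem ee_symm {V : Type} [Fintype V] (D : SimpleGraph V) (Z W : Finset V) :
    ee D Z W = ee D W Z := by
  unfold ee
  refine card_bij (fun p _ => (p.2, p.1)) ?_ ?_ ?_
  · intro p hp
    rw [mem_filter, mem_product] at hp ⊢
    exact ⟨⟨hp.1.2, hp.1.1⟩, hp.2.symm⟩
  · intro p _ p' _ h
    rw [Prod.mk.injEq] at h
    exact Prod.ext h.2 h.1
  · intro p hp
    rw [mem_filter, mem_product] at hp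
    refine ⟨(p.2, p.1), ?_, rfl⟩
    rw [mem_filter, mem_product]
    exact ⟨⟨hp.1.2, hp.1.1⟩, hp.2.symm⟩

theorem ee_rs_self {V : Type} [Fintype V] (D : SimpleGraph V) (Z : Finset V) :
    ee (rsE D Z Z) univ univ = ee D Z Z := by
  unfold ee
  congr 1
  ext p
  rw [mem_filter, mem_filter, mem_product, mem_product]
  constructor
  · rintro ⟨-, h1, h2⟩
    exact ⟨h2.elim id id, h1⟩
  · rintro ⟨h1, h2⟩
    exact ⟨⟨mem_univ _, mem_univ _⟩, h2, Or.inl h1⟩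

theorem ee_rs {V : Type} [Fintype V] (D : SimpleGraph V) (Z W : Finset V)
    (h : Disjoint Z W) : ee (rsE D Z W) univ univ = 2 * ee D Z W := by
  have e : 2 * ee D Z W = ee D Z W + ee D W Z := by
    rw [ee_symm D W Z]
    ring
  rw [e]
  unfold ee
  rw [← card_union_of_disjoint]
  · congr 1
    ext p
    rw [mem_union, mem_filter, mem_filter, mem_filter, mem_product, mem_product, mem_product]
    constructor
    · rintro ⟨-, h1, h2 | h2⟩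
      · exact Or.inl ⟨h2, h1⟩
      · exact Or.inr ⟨h2, h1⟩
    · rintro (h1 | h1)
      · exact ⟨⟨mem_univ _, mem_univ _⟩, h1.2, Or.inl h1.1⟩
      · exact ⟨⟨mem_univ _, mem_univ _⟩, h1.2, Or.inr h1.1⟩
  · rw [disjoint_left]
    intro p h1 h2
    rw [mem_filter, mem_product] at h1 h2
    exact disjoint_left.1 h h1.1.1 h2.1.1

theorem ddE_sum_dg {V : Type} [Fintype V] (D : SimpleGraph V) (Z W : Finset V)
    (h : ∀ v ∈ Z, ∀ w, D.Adj v w → w ∈ W) : ∑ v ∈ Z, dg D v = ee D Z W := by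
  unfold ee dg
  rw [card_filter, sum_product]
  refine sum_congr rfl fun v hv => ?_
  rw [← card_filter]
  congr 1
  ext w
  simp only [mem_filter, mem_univ, true_and]
  exact ⟨fun h1 => ⟨h v hv w h1, h1⟩, fun h1 => h1.2⟩

theorem ddE_even {V : Type} [Fintype V] (D : SimpleGraph V) (Z : Finset V) :
    ∃ m, ee D Z Z = 2 * m := by
  have h1 : ee (rsE D Z Z) univ univ = ∑ v, dg (rsE D Z Z) v :=
    (ddE_sum_dg (rsE D Z Z) univ univ fun _ _ w _ => mem_univ w).symm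
  have h2 := (rsE D Z Z).sum_degrees_eq_twice_card_edges
  refine ⟨(rsE D Z Z).edgeFinset.card, ?_⟩
  rw [← ee_rs_self, h1, ← h2]
  refine sum_congr rfl fun v _ => ?_
  unfold dg
  rw [← SimpleGraph.card_neighborFinset_eq_degree, SimpleGraph.neighborFinset_eq_filter]

theorem ddE_cp {V : Type} [Fintype V] {D : SimpleGraph V} {Z Z' : Finset V} {π : V → V}
    (h : ∀ v, π v ≠ v → (rsE D Z Z).Adj v (π v) ∨ (rsE D Z' Z').Adj v (π v))
    (hZ : ∀ v ∈ Z, v ∉ Z') :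
    (univ.filter fun v => (rsE D Z Z).Adj v (π v)).card = (Z.filter fun v => π v ≠ v).card := by
  congr 1
  ext v
  simp only [mem_filter, mem_univ, true_and]
  constructor
  · intro h1
    exact ⟨h1.2.elim (fun h => h.1) fun h => h.1, h1.ne'⟩
  · rintro ⟨h1, h2⟩
    rcases h v h2 with h3 | h3
    · exact h3
    · exact absurd (h3.2.elim (fun h => h.1) fun h => h.1) (hZ v h1)

theorem ddE_cq {V : Type} [Fintype V] {D : SimpleGraph V} {Z W Z' W' : Finset V} {π : V → V}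
    (hi : Inv π)
    (h : ∀ v, π v ≠ v → (rsE D Z W).Adj v (π v) ∨ (rsE D Z' W').Adj v (π v))
    (hZW : ∀ v ∈ Z, v ∉ W) (hZ1 : ∀ v ∈ Z, v ∉ Z') (hZ2 : ∀ v ∈ Z, v ∉ W')
    (hW1 : ∀ v ∈ W, v ∉ Z') (hW2 : ∀ v ∈ W, v ∉ W') :
    (univ.filter fun v => (rsE D Z W).Adj v (π v)).card =
      2 * (Z.filter fun v => π v ≠ v).card ∧
    (univ.filter fun v => (rsE D Z W).Adj v (π v)).card =
      2 * (W.filter fun v => π v ≠ v).card := by
  have k1 : ∀ v ∈ Z, π v ≠ v → (rsE D Z W).Adj v (π v) := by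
    intro v hv h2
    rcases h v h2 with h3 | h3
    · exact h3
    · rcases h3.2 with h4 | h4
      · exact absurd h4.1 (hZ1 v hv)
      · exact absurd h4.1 (hZ2 v hv)
  have k2 : ∀ v ∈ W, π v ≠ v → (rsE D Z W).Adj v (π v) := by
    intro v hv h2
    rcases h v h2 with h3 | h3
    · exact h3
    · rcases h3.2 with h4 | h4
      · exact absurd h4.1 (hW1 v hv)
      · exact absurd h4.1 (hW2 v hv)
  have k3 : (univ.filter fun v => (rsE D Z W).Adj v (π v)).card =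
      (Z.filter fun v => π v ≠ v).card + (W.filter fun v => π v ≠ v).card := by
    rw [← card_union_of_disjoint]
    · congr 1
      ext v
      simp only [mem_union, mem_filter, mem_univ, true_and]
      constructor
      · intro h1
        rcases h1.2 with h2 | h2
        · exact Or.inl ⟨h2.1, h1.ne'⟩
        · exact Or.inr ⟨h2.1, h1.ne'⟩
      · rintro (h1 | h1)
        · exact k1 v h1.1 h1.2
        · exact k2 v h1.1 h1.2
    · rw [disjoint_left]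
      intro v h1 h2
      exact hZW v (mem_filter.1 h1).1 (mem_filter.1 h2).1
  have k4 : (Z.filter fun v => π v ≠ v).card = (W.filter fun v => π v ≠ v).card := by
    refine card_bij (fun v _ => π v) ?_ ?_ ?_
    · intro v hv
      rw [mem_filter] at hv ⊢
      refine ⟨?_, ?_⟩
      · rcases (k1 v hv.1 hv.2).2 with h2 | h2
        · exact h2.2
        · exact absurd h2.1 (hZW v hv.1)
      · rw [hi v]
        exact fun h2 => hv.2 h2.symm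
    · intro v _ w _ hvw
      rw [← hi v, hvw, hi w]
    · intro v hv
      rw [mem_filter] at hv
      refine ⟨π v, ?_, hi v⟩
      rw [mem_filter]
      refine ⟨?_, ?_⟩
      · rcases (k2 v hv.1 hv.2).2 with h2 | h2
        · exact absurd hv.1 (hZW v h2.1)
        · exact h2.2
      · rw [hi v]
        exact fun h2 => hv.2 h2.symm
  constructor
  · omega
  · omega

theorem ddE_gad {V : Type} [Fintype V] (Dp Dm : SimpleGraph V) (t : ℕ) (U : ℕ → Finset V)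
    (α : ℕ → ℤ) (a d s u cap : ℕ) (hdis : ∀ v b c, Dp.Adj v b → ¬ Dm.Adj v c)
    (hsum : 2 * ∑ ℓ ∈ range (3 * t), α ℓ = (ee Dp univ univ : ℤ) - ee Dm univ univ)
    (ha : ∀ ℓ < 3 * t, |α ℓ| ≤ a) (hd : ∀ v, dg Dp v ≤ d ∧ dg Dm v ≤ d)
    (hs : ∀ v, mul (3 * t) U v ≤ s) (hu : ∀ ℓ < 3 * t, (U ℓ).card ≤ u)
    (hbig : 2 * (3 * t * a + (u + 2 * a) * d) < ee Dp univ univ ∧
      2 * (3 * t * a + (u + 2 * a) * d) < ee Dm univ univ)
    (hcap : 2 * a + 4 ≤ cap)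
    (hK : 4 * s + 4 * d + Fintype.card V * d / (cap - 3) < t) :
    ∃ σ : ℕ → V → V, Dst (Dp ⊔ Dm) (3 * t) U cap σ ∧
      (∀ ℓ < 3 * t, ((univ.filter fun v => Dp.Adj v (σ ℓ v)).card : ℤ) =
        (univ.filter fun v => Dm.Adj v (σ ℓ v)).card + 2 * α ℓ) ∧
      (∀ ℓ < 2 * t, α ℓ = 0 → ∀ v, σ ℓ v = v) := by
  have h1 : ((range (3 * t)).filter fun ℓ => 2 * t ≤ ℓ).card = t := by
    have h2 : ((range (3 * t)).filter fun ℓ => 2 * t ≤ ℓ) = Ico (2 * t) (3 * t) := by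
      ext ℓ
      rw [mem_filter, mem_range, mem_Ico, and_comm]
    rw [h2, Nat.card_Ico]
    omega
  obtain ⟨σ, g1, g2, g3, g4, g5, g6, g7, g8⟩ := gad Dp Dm (3 * t)
    ((range (3 * t)).filter fun ℓ => 2 * t ≤ ℓ) (filter_subset _ _) U α a d s u cap hdis hsum ha
    hd hs hu hbig hcap (by rw [h1]; exact hK)
  refine ⟨σ, ⟨g1, g2, g3, g4, g5, g6⟩, g7, ?_⟩
  intro ℓ hℓ h0
  refine g8 ℓ (by omega) ?_ h0
  intro hm
  have := (mem_filter.1 hm).2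
  omega

theorem ddE_gam (t a0 : ℕ) (ht : 0 < t) (p : ℕ → ℤ) (δ : ℤ) (hδ : |δ| ≤ t * a0)
    (hp : ∀ ℓ < 2 * t, (2 : ℤ) ∣ p ℓ)
    (hs : (2 : ℤ) ∣ (∑ ℓ ∈ range (3 * t), p ℓ) - δ) :
    ∃ γ : ℕ → ℤ, (∀ ℓ < 2 * t, γ ℓ = 0) ∧ (∀ ℓ < 3 * t, (2 : ℤ) ∣ p ℓ - γ ℓ) ∧
      ∑ ℓ ∈ range (3 * t), γ ℓ = δ ∧ ∀ ℓ < 3 * t, |γ ℓ| ≤ a0 + 4 := by
  have e3 : 3 * t = 2 * t + t := by ring
  obtain ⟨β, hβ⟩ : ∃ β : ℤ, β = ∑ j ∈ range t, p (2 * t + j) % 2 := ⟨_, rfl⟩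
  have hβ0 : 0 ≤ β := by
    rw [hβ]
    exact sum_nonneg fun j _ => Int.emod_nonneg _ (by norm_num)
  have hβ1 : β ≤ t := by
    rw [hβ]
    refine (sum_le_sum (g := fun _ => (1 : ℤ)) fun j _ => ?_).trans ?_
    · have := Int.emod_lt_of_pos (p (2 * t + j)) (by norm_num : (0 : ℤ) < 2)
      omega
    · rw [sum_const, card_range, nsmul_eq_mul, mul_one]
  have hd : (2 : ℤ) ∣ δ - β := by
    rw [e3, sum_range_add] at hs
    have h1 : (2 : ℤ) ∣ ∑ ℓ ∈ range (2 * t), p ℓ := dvd_sum fun ℓ hℓ => hp ℓ (mem_range.1 hℓ)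
    have h2 : (2 : ℤ) ∣ ∑ j ∈ range t, (p (2 * t + j) - p (2 * t + j) % 2) :=
      dvd_sum fun j _ => Int.dvd_self_sub_emod
    rw [sum_sub_distrib, ← hβ] at h2
    omega
  obtain ⟨M, hM⟩ := hd
  have ht0 : (0 : ℤ) < t := by exact_mod_cast ht
  obtain ⟨Q, hQ⟩ : ∃ Q : ℤ, Q = M / t := ⟨_, rfl⟩
  obtain ⟨R, hR⟩ : ∃ R : ℤ, R = M % t := ⟨_, rfl⟩
  have hMQ : t * Q + R = M := by
    rw [hQ, hR]
    exact Int.mul_ediv_add_emod M t
  have hR0 : 0 ≤ R := by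
    rw [hR]
    exact Int.emod_nonneg _ ht0.ne'
  have hR1 : R < t := by
    rw [hR]
    exact Int.emod_lt_of_pos _ ht0
  have hδ' := abs_le.1 hδ
  have hQ1 : 2 * Q ≤ a0 := by
    by_contra hc
    push Not at hc
    have h1 : (t : ℤ) * (a0 + 1) ≤ t * (2 * Q) := mul_le_mul_of_nonneg_left (by omega) ht0.le
    have h2 : (t : ℤ) * (2 * Q) = δ - β - 2 * R := by rw [hM, ← hMQ]; ring
    nlinarith [hδ'.2]
  have hQ2 : -(a0 : ℤ) - 2 ≤ 2 * Q := by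
    by_contra hc
    push Not at hc
    have h1 : (t : ℤ) * (2 * Q) ≤ t * (-(a0 : ℤ) - 3) :=
      mul_le_mul_of_nonneg_left (by omega) ht0.le
    have h2 : (t : ℤ) * (2 * Q) = δ - β - 2 * R := by rw [hM, ← hMQ]; ring
    nlinarith [hδ'.1]
  obtain ⟨k, hk⟩ := Int.eq_ofNat_of_zero_le hR0
  have hkt : k < t := by omega
  have hc : ∑ j ∈ range t, (if j < k then (1 : ℤ) else 0) = R := by
    rw [sum_boole]
    have h1 : ((range t).filter fun j => j < k) = range k := by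
      ext j
      rw [mem_filter, mem_range, mem_range]
      omega
    rw [h1, card_range, hk]
  refine ⟨fun ℓ => if ℓ < 2 * t then 0 else
    p ℓ % 2 + 2 * (Q + if ℓ - 2 * t < k then 1 else 0), ?_, ?_, ?_, ?_⟩
  · intro ℓ hℓ
    exact if_pos hℓ
  · intro ℓ _
    by_cases h : ℓ < 2 * t
    · simp only [if_pos h, sub_zero]
      exact hp ℓ h
    · simp only [if_neg h]
      have h1 : (2 : ℤ) ∣ p ℓ - p ℓ % 2 := Int.dvd_self_sub_emod
      have h2 : (2 : ℤ) ∣ 2 * (Q + if ℓ - 2 * t < k then 1 else 0) := dvd_mul_right _ _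
      have h3 := dvd_sub h1 h2
      rw [sub_sub] at h3
      exact h3
  · rw [e3, sum_range_add]
    have h1 : ∑ ℓ ∈ range (2 * t), (if ℓ < 2 * t then (0 : ℤ) else
        p ℓ % 2 + 2 * (Q + if ℓ - 2 * t < k then 1 else 0)) = 0 :=
      sum_eq_zero fun ℓ hℓ => if_pos (mem_range.1 hℓ)
    have h2 : ∑ j ∈ range t, (if 2 * t + j < 2 * t then (0 : ℤ) else
        p (2 * t + j) % 2 + 2 * (Q + if 2 * t + j - 2 * t < k then 1 else 0)) =
        ∑ j ∈ range t, (p (2 * t + j) % 2 + 2 * (Q + if j < k then 1 else 0)) := by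
      refine sum_congr rfl fun j _ => ?_
      rw [if_neg (by omega), Nat.add_sub_cancel_left]
    rw [h1, h2, sum_add_distrib, ← hβ, ← mul_sum, sum_add_distrib, hc, sum_const, card_range,
      nsmul_eq_mul, zero_add, hMQ]
    omega
  · intro ℓ _
    by_cases h : ℓ < 2 * t
    · simp only [if_pos h, abs_zero]
      positivity
    · simp only [if_neg h]
      have h1 := Int.emod_nonneg (p ℓ) (by norm_num : (2 : ℤ) ≠ 0)
      have h2 := Int.emod_lt_of_pos (p ℓ) (by norm_num : (0 : ℤ) < 2)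
      rw [abs_le]
      by_cases h3 : ℓ - 2 * t < k
      · rw [if_pos h3]
        constructor
        · omega
        · omega
      · rw [if_neg h3]
        constructor
        · omega
        · omega

/-- the first family, from `sas` -/
theorem ddE_sas {V : Type} [Fintype V] (D0 : SimpleGraph V) (t : ℕ) (U : ℕ → Finset V)
    (d0 s cap0 : ℕ) (hd0 : ∀ v, dg D0 v ≤ d0) (hs : ∀ v, mul (3 * t) U v ≤ s)
    (hcap0 : 2 ≤ cap0) (hK0 : 2 * s + 2 * d0 + Fintype.card V * d0 / (cap0 - 1) < t) :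
    ∃ σ : ℕ → V → V, Dst D0 (3 * t) U cap0 σ ∧ ∀ ℓ < 2 * t, ∀ v, σ ℓ v = v := by
  have hs' : ∀ v, mul t (fun j => U (2 * t + j)) v ≤ s := by
    intro v
    refine le_trans ?_ (hs v)
    unfold mul
    refine card_le_card_of_injOn (fun j => 2 * t + j) ?_ ?_
    · intro j hj
      rw [mem_coe, mem_filter, mem_range] at hj
      rw [mem_coe, mem_filter, mem_range]
      have h1 : 2 * t + j < 3 * t := by omega
      exact ⟨h1, hj.2⟩
    · intro i _ j _ hij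
      exact Nat.add_left_cancel hij
  obtain ⟨τ, g1, g2, g3, g4, g5, g6⟩ := sas D0 t (fun j => U (2 * t + j)) d0 s cap0 hd0 hs' hcap0
    hK0
  have e1 : ∀ ℓ v, ℓ < 2 * t → (if 2 * t ≤ ℓ then τ (ℓ - 2 * t) v else v) = v := fun ℓ v h =>
    if_neg (by omega)
  have e2 : ∀ ℓ v, 2 * t ≤ ℓ → (if 2 * t ≤ ℓ then τ (ℓ - 2 * t) v else v) =
    τ (ℓ - 2 * t) v := fun ℓ v h => if_pos h
  refine ⟨fun ℓ v => if 2 * t ≤ ℓ then τ (ℓ - 2 * t) v else v, ⟨?_, ?_, ?_, ?_, ?_, ?_⟩,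
    fun ℓ hℓ v => e1 ℓ v hℓ⟩
  · intro ℓ hℓ v
    rcases lt_or_ge ℓ (2 * t) with h | h
    · try dsimp only
      rw [e1 ℓ v h, e1 ℓ v h]
    · try dsimp only
      rw [e2 ℓ v h, e2 ℓ _ h]
      exact g1 (ℓ - 2 * t) (by omega) v
  · intro ℓ hℓ v hv
    try dsimp only at hv ⊢
    rcases lt_or_ge ℓ (2 * t) with h | h
    · exact absurd (e1 ℓ v h) hv
    · rw [e2 ℓ v h] at hv ⊢
      exact g2 (ℓ - 2 * t) (by omega) v hv
  · intro i hi j hj hij v hv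
    try dsimp only at hv ⊢
    rcases lt_or_ge i (2 * t) with h | h
    · exact absurd (e1 i v h) hv
    · rcases lt_or_ge j (2 * t) with h' | h'
      · rw [e1 j v h']
        exact hv
      · rw [e2 i v h] at hv ⊢
        rw [e2 j v h']
        exact g3 (i - 2 * t) (by omega) (j - 2 * t) (by omega) (by omega) v hv
  · intro a b hab
    obtain ⟨j, hj, he⟩ := g4 a b hab
    refine ⟨2 * t + j, by omega, ?_⟩
    try dsimp only
    rw [e2 _ _ (by omega), Nat.add_sub_cancel_left, he]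
  · intro ℓ hℓ v hv
    try dsimp only
    rcases lt_or_ge ℓ (2 * t) with h | h
    · exact e1 ℓ v h
    · rw [e2 ℓ v h]
      refine g5 (ℓ - 2 * t) (by omega) v ?_
      rw [Nat.add_sub_cancel' h]
      exact hv
  · intro ℓ hℓ
    try dsimp only
    rcases lt_or_ge ℓ (2 * t) with h | h
    · have h1 : (univ.filter fun v => (if 2 * t ≤ ℓ then τ (ℓ - 2 * t) v else v) ≠ v) = ∅ := by
        ext v
        simp only [mem_filter, mem_univ, true_and, notMem_empty, iff_false, not_not]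
        exact e1 ℓ v h
      rw [h1, card_empty]
      exact Nat.zero_le _
    · simp only [if_pos h]
      exact g6 (ℓ - 2 * t) (by omega)

theorem ddE_rs_mem {V : Type} {D : SimpleGraph V} {Z W : Finset V} {v w : V}
    (h : (rsE D Z W).Adj v w) : v ∈ Z ∨ v ∈ W :=
  h.2.elim (fun h => Or.inl h.1) fun h => Or.inr h.1

theorem ddE_rs_dg {V : Type} [Fintype V] {D : SimpleGraph V} {Z W : Finset V} {d : ℕ}
    (h : ∀ v, dg D v ≤ d) (v : V) : dg (rsE D Z W) v ≤ d := by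
  refine le_trans ?_ (h v)
  unfold dg
  refine card_le_card ?_
  intro w hw
  rw [mem_filter] at hw ⊢
  exact ⟨hw.1, hw.2.1⟩

/-- the sum of the differences of the numbers of left vertices -/
theorem ddE_psum {V : Type} [Fintype V] {D0 D2 D3 : SimpleGraph V} {t c : ℕ}
    {U : ℕ → Finset V} {σ : ℕ → V → V} (h : Dst D0 (3 * t) U c σ) {Z Z' W W' : Finset V}
    (hc : Z.card = Z'.card)
    (hX : ∑ v ∈ Z, (mul (3 * t) U v + dg D0 v + dg D2 v + dg D3 v) =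
      ∑ v ∈ Z', (mul (3 * t) U v + dg D0 v + dg D2 v + dg D3 v))
    (h2 : ∀ v ∈ Z, ∀ w, D2.Adj v w → w ∈ Z) (h2' : ∀ v ∈ Z', ∀ w, D2.Adj v w → w ∈ Z')
    (h3 : ∀ v ∈ Z, ∀ w, D3.Adj v w → w ∈ W) (h3' : ∀ v ∈ Z', ∀ w, D3.Adj v w → w ∈ W') :
    ∑ ℓ ∈ range (3 * t), (((Z \ upE U σ ℓ).card : ℤ) - (Z' \ upE U σ ℓ).card) =
      ((ee D2 Z Z : ℤ) - ee D2 Z' Z') + ((ee D3 Z W : ℤ) - ee D3 Z' W') := by
  have k1 := ddE_dc (3 * t) (upE U σ) Z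
  have k2 := ddE_dc (3 * t) (upE U σ) Z'
  simp_rw [ddE_mul h] at k1 k2
  have k3 := ddE_sum_dg D2 Z Z h2
  have k4 := ddE_sum_dg D2 Z' Z' h2'
  have k5 := ddE_sum_dg D3 Z W h3
  have k6 := ddE_sum_dg D3 Z' W' h3'
  simp only [sum_add_distrib] at hX k1 k2
  rw [k3, k4, k5, k6] at hX
  rw [hc] at k1
  rw [sum_sub_distrib]
  have k7 : (∑ ℓ ∈ range (3 * t), ((Z \ upE U σ ℓ).card : ℤ)) =
      ((∑ ℓ ∈ range (3 * t), (Z \ upE U σ ℓ).card : ℕ) : ℤ) := by push_cast; rfl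
  have k8 : (∑ ℓ ∈ range (3 * t), ((Z' \ upE U σ ℓ).card : ℤ)) =
      ((∑ ℓ ∈ range (3 * t), (Z' \ upE U σ ℓ).card : ℕ) : ℤ) := by push_cast; rfl
  rw [k7, k8]
  omega

theorem ddE_pabs {V : Type} [Fintype V] {U : Finset V} {Z Z' : Finset V} {n : ℕ}
    (hc : Z.card = Z'.card) (hU : U.card ≤ n) :
    |((Z \ U).card : ℤ) - (Z' \ U).card| ≤ n := by
  have h1 : Z.card ≤ (Z \ U).card + U.card := by
    have := card_le_card_sdiff_add_card (s := Z) (t := U)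
    exact this
  have h2 : Z'.card ≤ (Z' \ U).card + U.card := by
    have := card_le_card_sdiff_add_card (s := Z') (t := U)
    exact this
  have h3 : (Z \ U).card ≤ Z.card := card_le_card sdiff_subset
  have h4 : (Z' \ U).card ≤ Z'.card := card_le_card sdiff_subset
  rw [abs_le]
  constructor
  · omega
  · omega

theorem ddE_four {V : Type} [Fintype V] {XA XB YA YB : Finset V} (hq : Qtr XA XB YA YB)
    (S : Finset V) : (univ \ S).card =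
      (XA \ S).card + (XB \ S).card + (YA \ S).card + (YB \ S).card := by
  have h1 : univ \ S = (XA \ S) ∪ (XB \ S) ∪ (YA \ S) ∪ (YB \ S) := by
    ext v
    simp only [mem_union, mem_sdiff, mem_univ, true_and]
    have := hq.cov v
    tauto
  have m : ∀ {A B : Finset V}, Disjoint A B → Disjoint (A \ S) (B \ S) := fun h =>
    Disjoint.mono sdiff_subset sdiff_subset h
  rw [h1, card_union_of_disjoint, card_union_of_disjoint, card_union_of_disjoint (m hq.d1)]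
  · exact disjoint_union_left.2 ⟨m hq.d2, m hq.d4⟩
  · exact disjoint_union_left.2 ⟨disjoint_union_left.2 ⟨m hq.d3, m hq.d5⟩, m hq.d6⟩

theorem ddE_dj1 {V : Type} {D D' : SimpleGraph V} {Z W Z' : Finset V} {a b : V}
    (h1 : ∀ v ∈ Z, v ∉ Z') (h2 : ∀ v ∈ W, v ∉ Z') (h : (rsE D Z W).Adj a b)
    (h' : (rsE D' Z' Z').Adj a b) : False := by
  have k : a ∈ Z' := (ddE_rs_mem h').elim id id
  rcases ddE_rs_mem h with h3 | h3
  · exact h1 a h3 k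
  · exact h2 a h3 k

theorem ddE_dj2 {V : Type} {D D' : SimpleGraph V} {Z W : Finset V} {a b : V}
    (h1 : ∀ v ∈ Z, v ∉ W) (h : (rsE D Z W).Adj a b) (h' : (rsE D' Z Z).Adj a b) : False := by
  have k : a ∈ Z := (ddE_rs_mem h').elim id id
  have k' : b ∈ Z := (ddE_rs_mem h'.symm).elim id id
  rcases h.2 with h3 | h3
  · exact h1 b k' h3.2
  · exact h1 a k h3.1

theorem ddE_dj3 {V : Type} {D D' : SimpleGraph V} {Z W : Finset V} {a b : V}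
    (h1 : ∀ v ∈ Z, v ∉ W) (h : (rsE D Z W).Adj a b) (h' : (rsE D' W W).Adj a b) : False := by
  have k : a ∈ W := (ddE_rs_mem h').elim id id
  have k' : b ∈ W := (ddE_rs_mem h'.symm).elim id id
  rcases h.2 with h3 | h3
  · exact h1 a h3.1 k
  · exact h1 b h3.2 k'

theorem ddE_eG {V : Type} (XA XB YA YB : Finset V) (D0 D2 D3 : SimpleGraph V)
    (hD2 : ∀ a b, D2.Adj a b → (a ∈ XA ∧ b ∈ XA) ∨ (a ∈ XB ∧ b ∈ XB) ∨ (a ∈ YA ∧ b ∈ YA) ∨
      (a ∈ YB ∧ b ∈ YB))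
    (hD3 : ∀ a b, D3.Adj a b → (a ∈ XA ∧ b ∈ YA) ∨ (a ∈ YA ∧ b ∈ XA) ∨ (a ∈ XB ∧ b ∈ YB) ∨
      (a ∈ YB ∧ b ∈ XB)) :
    D0 ⊔ D2 ⊔ D3 = D0 ⊔ (rsE D3 XA YA ⊔ rsE D3 XB YB) ⊔
      (rsE D2 XA XA ⊔ rsE D2 XB XB) ⊔ (rsE D2 YA YA ⊔ rsE D2 YB YB) := by
  ext a b
  constructor
  · rintro ((h | h) | h)
    · exact Or.inl (Or.inl (Or.inl h))
    · rcases hD2 a b h with k | k | k | k
      · exact Or.inl (Or.inr (Or.inl ⟨h, Or.inl k⟩))
      · exact Or.inl (Or.inr (Or.inr ⟨h, Or.inl k⟩))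
      · exact Or.inr (Or.inl ⟨h, Or.inl k⟩)
      · exact Or.inr (Or.inr ⟨h, Or.inl k⟩)
    · rcases hD3 a b h with k | k | k | k
      · exact Or.inl (Or.inl (Or.inr (Or.inl ⟨h, Or.inl k⟩)))
      · exact Or.inl (Or.inl (Or.inr (Or.inl ⟨h, Or.inr k⟩)))
      · exact Or.inl (Or.inl (Or.inr (Or.inr ⟨h, Or.inl k⟩)))
      · exact Or.inl (Or.inl (Or.inr (Or.inr ⟨h, Or.inr k⟩)))
  · rintro (((h | h | h) | h | h) | h | h)
    · exact Or.inl (Or.inl h)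
    · exact Or.inr h.1
    · exact Or.inr h.1
    · exact Or.inl (Or.inr h.1)
    · exact Or.inl (Or.inr h.1)
    · exact Or.inl (Or.inr h.1)
    · exact Or.inl (Or.inr h.1)

theorem ddE_nb2 {V : Type} {D : SimpleGraph V} {A B C E : Finset V}
    (h : ∀ a b, D.Adj a b → (a ∈ A ∧ b ∈ A) ∨ (a ∈ B ∧ b ∈ B) ∨ (a ∈ C ∧ b ∈ C) ∨
      (a ∈ E ∧ b ∈ E)) (h1 : ∀ v ∈ A, v ∉ B) (h2 : ∀ v ∈ A, v ∉ C) (h3 : ∀ v ∈ A, v ∉ E) :
    ∀ v ∈ A, ∀ w, D.Adj v w → w ∈ A := by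
  intro v hv w hw
  rcases h v w hw with k | k | k | k
  · exact k.2
  · exact absurd k.1 (h1 v hv)
  · exact absurd k.1 (h2 v hv)
  · exact absurd k.1 (h3 v hv)

theorem ddE_nb3 {V : Type} {D : SimpleGraph V} {A B C E : Finset V}
    (h : ∀ a b, D.Adj a b → (a ∈ A ∧ b ∈ C) ∨ (a ∈ C ∧ b ∈ A) ∨ (a ∈ B ∧ b ∈ E) ∨
      (a ∈ E ∧ b ∈ B)) (h1 : ∀ v ∈ A, v ∉ B) (h2 : ∀ v ∈ A, v ∉ C) (h3 : ∀ v ∈ A, v ∉ E) :
    ∀ v ∈ A, ∀ w, D.Adj v w → w ∈ C := by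
  intro v hv w hw
  rcases h v w hw with k | k | k | k
  · exact k.2
  · exact absurd k.1 (h2 v hv)
  · exact absurd k.1 (h1 v hv)
  · exact absurd k.1 (h3 v hv)

theorem ddE {V : Type} [Fintype V] (XA XB YA YB : Finset V) (hq : Qtr XA XB YA YB)
    (D0 D2 D3 : SimpleGraph V)
    (hD2 : ∀ a b, D2.Adj a b → (a ∈ XA ∧ b ∈ XA) ∨ (a ∈ XB ∧ b ∈ XB) ∨ (a ∈ YA ∧ b ∈ YA) ∨
      (a ∈ YB ∧ b ∈ YB))
    (hD3 : ∀ a b, D3.Adj a b → (a ∈ XA ∧ b ∈ YA) ∨ (a ∈ YA ∧ b ∈ XA) ∨ (a ∈ XB ∧ b ∈ YB) ∨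
      (a ∈ YB ∧ b ∈ XB))
    (h02 : ∀ a b, D0.Adj a b → ¬ D2.Adj a b ∧ ¬ D3.Adj a b)
    (t : ℕ) (ht : 0 < t) (U : ℕ → Finset V)
    (hT1 : ∀ ℓ < t, Disjoint (U ℓ) (XA ∪ XB))
    (hT2 : ∀ ℓ, t ≤ ℓ → ℓ < 2 * t → Disjoint (U ℓ) (YA ∪ YB))
    (hev : ∀ ℓ < 3 * t, Even (univ \ U ℓ).card)
    (hX : ∑ v ∈ XA, (mul (3 * t) U v + dg D0 v + dg D2 v + dg D3 v) =
      ∑ v ∈ XB, (mul (3 * t) U v + dg D0 v + dg D2 v + dg D3 v))
    (hY : ∑ v ∈ YA, (mul (3 * t) U v + dg D0 v + dg D2 v + dg D3 v) =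
      ∑ v ∈ YB, (mul (3 * t) U v + dg D0 v + dg D2 v + dg D3 v))
    (d0 d s u a0 a cap0 cap : ℕ) (hd0 : ∀ v, dg D0 v ≤ d0)
    (hd : ∀ v, dg D2 v ≤ d ∧ dg D3 v ≤ d)
    (hs : ∀ v, mul (3 * t) U v ≤ s) (hu : ∀ ℓ < 3 * t, (U ℓ).card ≤ u)
    (h3 : |(ee D3 XA YA : ℤ) - ee D3 XB YB| ≤ t * a0)
    (ha : a = u + cap0 + a0 + 4) (hcap0 : 2 ≤ cap0)
    (hK0 : 2 * s + 2 * d0 + Fintype.card V * d0 / (cap0 - 1) < t)
    (hb2 : ∀ Z, (Z = XA ∨ Z = XB ∨ Z = YA ∨ Z = YB) →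
      2 * (3 * t * a + (u + cap0 + 2 * cap + 2 * a) * d) < ee D2 Z Z)
    (hb3 : 3 * t * a + (u + cap0 + 2 * cap + 2 * a) * d < ee D3 XA YA ∧
      3 * t * a + (u + cap0 + 2 * cap + 2 * a) * d < ee D3 XB YB)
    (hcap : 2 * a + 4 ≤ cap)
    (hK : 4 * (s + d0 + 2 * d) + 4 * d + Fintype.card V * d / (cap - 3) < t) :
    ∃ σ : ℕ → V → V, Dst (D0 ⊔ D2 ⊔ D3) (3 * t) U (cap0 + 3 * cap) σ ∧
      (∀ ℓ < t, ∀ v ∈ XA ∪ XB, σ ℓ v = v) ∧
      (∀ ℓ, t ≤ ℓ → ℓ < 2 * t → ∀ v ∈ YA ∪ YB, σ ℓ v = v) ∧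
      ∀ ℓ < 3 * t, lef XA (U ℓ) (σ ℓ) = lef XB (U ℓ) (σ ℓ) ∧
        lef YA (U ℓ) (σ ℓ) = lef YB (U ℓ) (σ ℓ) := by
  have q1 : ∀ v ∈ XA, v ∉ XB := fun v h h' => disjoint_left.1 hq.d1 h h'
  have q2 : ∀ v ∈ XA, v ∉ YA := fun v h h' => disjoint_left.1 hq.d2 h h'
  have q3 : ∀ v ∈ XA, v ∉ YB := fun v h h' => disjoint_left.1 hq.d3 h h'
  have q4 : ∀ v ∈ XB, v ∉ YA := fun v h h' => disjoint_left.1 hq.d4 h h'
  have q5 : ∀ v ∈ XB, v ∉ YB := fun v h h' => disjoint_left.1 hq.d5 h h'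
  have q6 : ∀ v ∈ YA, v ∉ YB := fun v h h' => disjoint_left.1 hq.d6 h h'
  obtain ⟨σ0, I0, z0⟩ := ddE_sas D0 t U d0 s cap0 hd0 hs hcap0 hK0
  obtain ⟨U1, hU1⟩ : ∃ U1, U1 = upE U σ0 := ⟨_, rfl⟩
  have hm1 : ∀ v, mul (3 * t) U1 v ≤ s + d0 := fun v => by
    rw [hU1, ddE_mul I0]
    exact Nat.add_le_add (hs v) (hd0 v)
  have hc1 : ∀ ℓ < 3 * t, (U1 ℓ).card ≤ u + cap0 := by
    rw [hU1]
    exact ddE_up_card I0 hu
  obtain ⟨p, hp⟩ : ∃ p : ℕ → ℤ, ∀ ℓ, p ℓ = ((XA \ U1 ℓ).card : ℤ) - (XB \ U1 ℓ).card :=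
    ⟨_, fun _ => rfl⟩
  obtain ⟨q, hqq⟩ : ∃ q : ℕ → ℤ, ∀ ℓ, q ℓ = ((YA \ U1 ℓ).card : ℤ) - (YB \ U1 ℓ).card :=
    ⟨_, fun _ => rfl⟩
  have o1 : ∀ v ∈ XB, v ∉ XA := fun v h h' => q1 v h' h
  have o2 : ∀ v ∈ YA, v ∉ XA := fun v h h' => q2 v h' h
  have o3 : ∀ v ∈ YB, v ∉ XA := fun v h h' => q3 v h' h
  have o4 : ∀ v ∈ YA, v ∉ XB := fun v h h' => q4 v h' h
  have o5 : ∀ v ∈ YB, v ∉ XB := fun v h h' => q5 v h' h
  have o6 : ∀ v ∈ YB, v ∉ YA := fun v h h' => q6 v h' h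
  have n2A : ∀ v ∈ XA, ∀ w, D2.Adj v w → w ∈ XA := ddE_nb2 hD2 q1 q2 q3
  have n2B : ∀ v ∈ XB, ∀ w, D2.Adj v w → w ∈ XB :=
    ddE_nb2 (fun a b h => or_left_comm.1 (hD2 a b h)) o1 q4 q5
  have n2C : ∀ v ∈ YA, ∀ w, D2.Adj v w → w ∈ YA :=
    ddE_nb2 (B := XA) (C := XB) (E := YB) (fun a b h => by
      rcases hD2 a b h with k | k | k | k
      · exact Or.inr (Or.inl k)
      · exact Or.inr (Or.inr (Or.inl k))
      · exact Or.inl k
      · exact Or.inr (Or.inr (Or.inr k))) o2 o4 q6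
  have n2D : ∀ v ∈ YB, ∀ w, D2.Adj v w → w ∈ YB :=
    ddE_nb2 (B := XA) (C := XB) (E := YA) (fun a b h => by
      rcases hD2 a b h with k | k | k | k
      · exact Or.inr (Or.inl k)
      · exact Or.inr (Or.inr (Or.inl k))
      · exact Or.inr (Or.inr (Or.inr k))
      · exact Or.inl k) o3 o5 o6
  have n3A : ∀ v ∈ XA, ∀ w, D3.Adj v w → w ∈ YA := ddE_nb3 hD3 q1 q2 q3
  have n3B : ∀ v ∈ XB, ∀ w, D3.Adj v w → w ∈ YB :=
    ddE_nb3 (B := XA) (C := YB) (E := YA) (fun a b h => by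
      rcases hD3 a b h with k | k | k | k
      · exact Or.inr (Or.inr (Or.inl k))
      · exact Or.inr (Or.inr (Or.inr k))
      · exact Or.inl k
      · exact Or.inr (Or.inl k)) o1 q5 q4
  have n3C : ∀ v ∈ YA, ∀ w, D3.Adj v w → w ∈ XA :=
    ddE_nb3 (B := YB) (C := XA) (E := XB) (fun a b h => by
      rcases hD3 a b h with k | k | k | k
      · exact Or.inr (Or.inl k)
      · exact Or.inl k
      · exact Or.inr (Or.inr (Or.inr k))
      · exact Or.inr (Or.inr (Or.inl k))) q6 o2 o4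
  have n3D : ∀ v ∈ YB, ∀ w, D3.Adj v w → w ∈ XB :=
    ddE_nb3 (B := YA) (C := XB) (E := XA) (fun a b h => by
      rcases hD3 a b h with k | k | k | k
      · exact Or.inr (Or.inr (Or.inr k))
      · exact Or.inr (Or.inr (Or.inl k))
      · exact Or.inr (Or.inl k)
      · exact Or.inl k) o6 o5 o3
  have sp : ∑ ℓ ∈ range (3 * t), p ℓ = ((ee D2 XA XA : ℤ) - ee D2 XB XB) +
      ((ee D3 XA YA : ℤ) - ee D3 XB YB) := by
    simp_rw [hp, hU1]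
    exact ddE_psum I0 hq.cX hX n2A n2B n3A n3B
  have sq : ∑ ℓ ∈ range (3 * t), q ℓ = ((ee D2 YA YA : ℤ) - ee D2 YB YB) +
      ((ee D3 XA YA : ℤ) - ee D3 XB YB) := by
    simp_rw [hqq, hU1]
    rw [ee_symm D3 XA YA, ee_symm D3 XB YB]
    exact ddE_psum I0 hq.cY hY n2C n2D n3C n3D
  have bp : ∀ ℓ < 3 * t, |p ℓ| ≤ ((u + cap0 : ℕ) : ℤ) := fun ℓ hℓ => by
    rw [hp]
    exact ddE_pabs hq.cX (hc1 ℓ hℓ)
  have bq : ∀ ℓ < 3 * t, |q ℓ| ≤ ((u + cap0 : ℕ) : ℤ) := fun ℓ hℓ => by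
    rw [hqq]
    exact ddE_pabs hq.cY (hc1 ℓ hℓ)
  have eU : ∀ ℓ < 2 * t, U1 ℓ = U ℓ := by
    intro ℓ hℓ
    rw [hU1]
    unfold upE
    rw [union_eq_left]
    intro v hv
    exact absurd (z0 ℓ hℓ v) (mem_filter.1 hv).2
  have p0 : ∀ ℓ < t, p ℓ = 0 := by
    intro ℓ hℓ
    have h1 := disjoint_union_right.1 (hT1 ℓ hℓ)
    rw [hp, eU ℓ (by omega), sdiff_eq_self_of_disjoint h1.1.symm,
      sdiff_eq_self_of_disjoint h1.2.symm, hq.cX, sub_self]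
  have q0 : ∀ ℓ, t ≤ ℓ → ℓ < 2 * t → q ℓ = 0 := by
    intro ℓ hℓ hℓ'
    have h1 := disjoint_union_right.1 (hT2 ℓ hℓ hℓ')
    rw [hqq, eU ℓ hℓ', sdiff_eq_self_of_disjoint h1.1.symm,
      sdiff_eq_self_of_disjoint h1.2.symm, hq.cY, sub_self]
  have hpq : ∀ ℓ < 3 * t, (2 : ℤ) ∣ p ℓ + q ℓ := by
    intro ℓ hℓ
    have h1 := par (σ0 ℓ) (I0.inv ℓ hℓ) (U ℓ) (I0.fix ℓ hℓ) (hev ℓ hℓ)
    have h2 : (univ.filter fun v => σ0 ℓ v = v ∧ v ∉ U ℓ) = univ \ U1 ℓ := by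
      rw [hU1]
      unfold upE
      ext v
      simp only [mem_filter, mem_sdiff, mem_union, mem_univ, true_and]
      tauto
    rw [h2, ddE_four hq] at h1
    obtain ⟨r, hr⟩ := h1
    rw [hp, hqq]
    omega
  have ep : ∀ ℓ < 2 * t, (2 : ℤ) ∣ p ℓ := by
    intro ℓ hℓ
    rcases lt_or_ge ℓ t with h | h
    · rw [p0 ℓ h]
      exact dvd_zero _
    · have h1 := hpq ℓ (by omega)
      rw [q0 ℓ h hℓ, add_zero] at h1
      exact h1
  obtain ⟨mA, hmA⟩ := ddE_even D2 XA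
  obtain ⟨mB, hmB⟩ := ddE_even D2 XB
  obtain ⟨γ, g0, g1, g2, g3⟩ := ddE_gam t a0 ht p ((ee D3 XA YA : ℤ) - ee D3 XB YB) h3 ep (by
    rw [sp, hmA, hmB]
    omega)
  have hK' : 4 * (s + d0 + 2 * d) + 4 * d + Fintype.card V * d / (cap - 3) < t := hK
  -- the gadgets between the quarters
  obtain ⟨σ3, I3, c3, z3⟩ := ddE_gad (rsE D3 XA YA) (rsE D3 XB YB) t U1 γ a d (s + d0 + 2 * d)
    (u + cap0 + 2 * cap) cap
    (by
      intro v b c h1 h2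
      rcases ddE_rs_mem h1 with k | k
      · rcases ddE_rs_mem h2 with k' | k'
        · exact q1 v k k'
        · exact q3 v k k'
      · rcases ddE_rs_mem h2 with k' | k'
        · exact o4 v k k'
        · exact q6 v k k')
    (by
      rw [g2, ee_rs D3 XA YA hq.d2, ee_rs D3 XB YB hq.d5]
      push_cast
      ring)
    (by
      intro ℓ hℓ
      have h1 := g3 ℓ hℓ
      rw [ha]
      push_cast
      omega)
    (fun v => ⟨ddE_rs_dg (fun v => (hd v).2) v, ddE_rs_dg (fun v => (hd v).2) v⟩)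
    (fun v => (hm1 v).trans (by omega))
    (fun ℓ hℓ => (hc1 ℓ hℓ).trans (by omega))
    (by
      rw [ee_rs D3 XA YA hq.d2, ee_rs D3 XB YB hq.d5]
      exact ⟨Nat.mul_lt_mul_of_pos_left hb3.1 two_pos, Nat.mul_lt_mul_of_pos_left hb3.2 two_pos⟩)
    hcap hK'
  obtain ⟨U2, hU2⟩ : ∃ U2, U2 = upE U1 σ3 := ⟨_, rfl⟩
  have hdm : ∀ {E D : SimpleGraph V}, (∀ a b, E.Adj a b → D.Adj a b) → ∀ v, dg E v ≤ dg D v := by
    intro E D h v
    unfold dg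
    refine card_le_card fun w hw => ?_
    rw [mem_filter] at hw ⊢
    exact ⟨hw.1, h _ _ hw.2⟩
  have hm2 : ∀ v, mul (3 * t) U2 v ≤ s + d0 + d := fun v => by
    rw [hU2, ddE_mul I3]
    refine Nat.add_le_add (hm1 v) ((hdm ?_ v).trans (hd v).2)
    rintro a b (h | h)
    · exact h.1
    · exact h.1
  have hc2 : ∀ ℓ < 3 * t, (U2 ℓ).card ≤ u + cap0 + cap := by
    rw [hU2]
    exact ddE_up_card I3 hc1
  -- the gadgets inside `XA` and `XB`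
  have eα : ∀ ℓ < 3 * t, 2 * ((p ℓ - γ ℓ) / 2) = p ℓ - γ ℓ := fun ℓ hℓ =>
    Int.mul_ediv_cancel' (g1 ℓ hℓ)
  obtain ⟨σ2, I2, c2, z2⟩ := ddE_gad (rsE D2 XA XA) (rsE D2 XB XB) t U2
    (fun ℓ => (p ℓ - γ ℓ) / 2) a d (s + d0 + 2 * d) (u + cap0 + 2 * cap) cap
    (fun v b c h1 h2 => q1 v ((ddE_rs_mem h1).elim id id) ((ddE_rs_mem h2).elim id id))
    (by
      rw [mul_sum, sum_congr rfl fun ℓ hℓ => eα ℓ (mem_range.1 hℓ), sum_sub_distrib, g2, sp,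
        ee_rs_self, ee_rs_self]
      ring)
    (by
      intro ℓ hℓ
      have h1 := abs_le.1 (g3 ℓ hℓ)
      have h2 := abs_le.1 (bp ℓ hℓ)
      have h4 := eα ℓ hℓ
      rw [abs_le, ha]
      push_cast at h2 ⊢
      constructor
      · omega
      · omega)
    (fun v => ⟨ddE_rs_dg (fun v => (hd v).1) v, ddE_rs_dg (fun v => (hd v).1) v⟩)
    (fun v => (hm2 v).trans (by omega))
    (fun ℓ hℓ => (hc2 ℓ hℓ).trans (by omega))
    (by
      rw [ee_rs_self, ee_rs_self]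
      exact ⟨hb2 XA (Or.inl rfl), hb2 XB (Or.inr (Or.inl rfl))⟩)
    hcap hK'
  obtain ⟨U3, hU3⟩ : ∃ U3, U3 = upE U2 σ2 := ⟨_, rfl⟩
  have hm3 : ∀ v, mul (3 * t) U3 v ≤ s + d0 + 2 * d := fun v => by
    have h1 : dg (rsE D2 XA XA ⊔ rsE D2 XB XB) v ≤ d := by
      refine (hdm ?_ v).trans (hd v).1
      rintro a b (h | h)
      · exact h.1
      · exact h.1
    have h2 := hm2 v
    rw [hU3, ddE_mul I2]
    omega
  have hc3 : ∀ ℓ < 3 * t, (U3 ℓ).card ≤ u + cap0 + 2 * cap := by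
    intro ℓ hℓ
    have h1 := ddE_up_card I2 hc2 ℓ hℓ
    rw [hU3]
    omega
  -- the gadgets inside `YA` and `YB`
  have g1' : ∀ ℓ < 3 * t, (2 : ℤ) ∣ q ℓ - γ ℓ := by
    intro ℓ hℓ
    have h1 := hpq ℓ hℓ
    have h2 := g1 ℓ hℓ
    omega
  have eα' : ∀ ℓ < 3 * t, 2 * ((q ℓ - γ ℓ) / 2) = q ℓ - γ ℓ := fun ℓ hℓ =>
    Int.mul_ediv_cancel' (g1' ℓ hℓ)
  obtain ⟨σ4, I4, c4, z4⟩ := ddE_gad (rsE D2 YA YA) (rsE D2 YB YB) t U3
    (fun ℓ => (q ℓ - γ ℓ) / 2) a d (s + d0 + 2 * d) (u + cap0 + 2 * cap) cap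
    (fun v b c h1 h2 => q6 v ((ddE_rs_mem h1).elim id id) ((ddE_rs_mem h2).elim id id))
    (by
      rw [mul_sum, sum_congr rfl fun ℓ hℓ => eα' ℓ (mem_range.1 hℓ), sum_sub_distrib, g2, sq,
        ee_rs_self, ee_rs_self]
      ring)
    (by
      intro ℓ hℓ
      have h1 := abs_le.1 (g3 ℓ hℓ)
      have h2 := abs_le.1 (bq ℓ hℓ)
      have h4 := eα' ℓ hℓ
      rw [abs_le, ha]
      push_cast at h2 ⊢
      constructor
      · omega
      · omega)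
    (fun v => ⟨ddE_rs_dg (fun v => (hd v).1) v, ddE_rs_dg (fun v => (hd v).1) v⟩)
    hm3 hc3
    (by
      rw [ee_rs_self, ee_rs_self]
      exact ⟨hb2 YA (Or.inr (Or.inr (Or.inl rfl))), hb2 YB (Or.inr (Or.inr (Or.inr rfl)))⟩)
    hcap hK'
  obtain ⟨U4, hU4⟩ : ∃ U4, U4 = upE U3 σ4 := ⟨_, rfl⟩
  -- supports
  have s2 : ∀ ℓ < 3 * t, ∀ v, v ∈ YA ∪ YB → σ2 ℓ v = v := by
    intro ℓ hℓ v hv
    by_contra hc
    rw [mem_union] at hv
    rcases I2.adj ℓ hℓ v hc with h | h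
    · have k : v ∈ XA := (ddE_rs_mem h).elim id id
      exact hv.elim (q2 v k) (q3 v k)
    · have k : v ∈ XB := (ddE_rs_mem h).elim id id
      exact hv.elim (q4 v k) (q5 v k)
  have s4 : ∀ ℓ < 3 * t, ∀ v, v ∈ XA ∪ XB → σ4 ℓ v = v := by
    intro ℓ hℓ v hv
    by_contra hc
    rw [mem_union] at hv
    rcases I4.adj ℓ hℓ v hc with h | h
    · have k : v ∈ YA := (ddE_rs_mem h).elim id id
      exact hv.elim (o2 v k) (o4 v k)
    · have k : v ∈ YB := (ddE_rs_mem h).elim id id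
      exact hv.elim (o3 v k) (o5 v k)
  -- the merge
  have J1 := ddE_mg I0 (hU1 ▸ I3) (by
    rintro a b h (h' | h')
    · exact (h02 a b h).2 h'.1
    · exact (h02 a b h).2 h'.1)
  have E1 : upE U (mgE σ0 σ3) = U2 := by
    rw [hU2, hU1]
    exact funext (upE_mg U σ0 σ3)
  have J2 := ddE_mg J1 (E1.symm ▸ I2) (by
    rintro a b (h | h | h) (h' | h')
    · exact (h02 a b h).1 h'.1
    · exact (h02 a b h).1 h'.1
    · exact ddE_dj2 q2 h h'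
    · exact ddE_dj1 q1 o4 h h'
    · exact ddE_dj1 o1 o3 h h'
    · exact ddE_dj2 q5 h h')
  have E2 : upE U (mgE (mgE σ0 σ3) σ2) = U3 := by
    rw [hU3, ← E1]
    exact funext (upE_mg U (mgE σ0 σ3) σ2)
  have J3 := ddE_mg J2 (E2.symm ▸ I4) (by
    rintro a b ((h | h | h) | h | h) (h' | h')
    · exact (h02 a b h).1 h'.1
    · exact (h02 a b h).1 h'.1
    · exact ddE_dj3 q2 h h'
    · exact ddE_dj1 q3 q6 h h'
    · exact ddE_dj1 q4 o6 h h'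
    · exact ddE_dj3 q5 h h'
    · exact ddE_dj1 q2 q2 h h'
    · exact ddE_dj1 q3 q3 h h'
    · exact ddE_dj1 q4 q4 h h'
    · exact ddE_dj1 q5 q5 h h')
  have E3 : upE U (mgE (mgE (mgE σ0 σ3) σ2) σ4) = U4 := by
    rw [hU4, ← E2]
    exact funext (upE_mg U (mgE (mgE σ0 σ3) σ2) σ4)
  have eG := ddE_eG XA XB YA YB D0 D2 D3 hD2 hD3
  have ec : cap0 + 3 * cap = cap0 + cap + cap + cap := by ring
  refine ⟨mgE (mgE (mgE σ0 σ3) σ2) σ4, ?_, ?_, ?_, ?_⟩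
  · rw [eG, ec]
    exact J3
  · intro ℓ hℓ v hv
    refine mgE_fix (mgE_fix (mgE_fix (z0 ℓ (by omega) v) (z3 ℓ (by omega) (g0 ℓ (by omega)) v)) ?_)
      (s4 ℓ (by omega) v hv)
    refine z2 ℓ (by omega) ?_ v
    rw [p0 ℓ hℓ, g0 ℓ (by omega)]
    rfl
  · intro ℓ hℓ hℓ' v hv
    refine mgE_fix (mgE_fix (mgE_fix (z0 ℓ hℓ' v) (z3 ℓ hℓ' (g0 ℓ hℓ') v))
      (s2 ℓ (by omega) v hv)) ?_
    refine z4 ℓ hℓ' ?_ v
    rw [q0 ℓ hℓ hℓ', g0 ℓ hℓ']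
    rfl
  · intro ℓ hℓ
    rw [lef_eq, lef_eq, lef_eq, lef_eq, E3, hU4]
    have r0 : ∀ {Z : Finset V} {π : V → V}, (∀ v ∈ Z, π v = v) →
        (Z.filter fun v => π v ≠ v).card = 0 := by
      intro Z π h
      rw [card_eq_zero, filter_eq_empty_iff]
      intro v hv h'
      exact h' (h v hv)
    -- the moved vertices
    have a1 := ddE_cq (I3.inv ℓ hℓ) (I3.adj ℓ hℓ) q2 q1 q3
      o4 q6
    have a2 := ddE_cq (Z' := XA) (W' := YA) (I3.inv ℓ hℓ) (fun v hv => Or.symm (I3.adj ℓ hℓ v hv)) q5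
      o1 q4 o3 o6
    have a3 := c3 ℓ hℓ
    have b1 := ddE_cp (I2.adj ℓ hℓ) q1
    have b2 := ddE_cp (Z' := XA) (fun v hv => Or.symm (I2.adj ℓ hℓ v hv)) o1
    have b3 := c2 ℓ hℓ
    have d1 := ddE_cp (I4.adj ℓ hℓ) q6
    have d2 := ddE_cp (Z' := YA) (fun v hv => Or.symm (I4.adj ℓ hℓ v hv)) o6
    have d3 := c4 ℓ hℓ
    have e1 := eα ℓ hℓ
    have e2 := eα' ℓ hℓ
    have m1 := ddE_mv I3 XA ℓ hℓ
    have m2 := ddE_mv I3 XB ℓ hℓ
    have m3 := ddE_mv I3 YA ℓ hℓ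
    have m4 := ddE_mv I3 YB ℓ hℓ
    have m5 := ddE_mv I2 XA ℓ hℓ
    have m6 := ddE_mv I2 XB ℓ hℓ
    have m7 := ddE_mv I2 YA ℓ hℓ
    have m8 := ddE_mv I2 YB ℓ hℓ
    have m9 := ddE_mv I4 XA ℓ hℓ
    have m10 := ddE_mv I4 XB ℓ hℓ
    have m11 := ddE_mv I4 YA ℓ hℓ
    have m12 := ddE_mv I4 YB ℓ hℓ
    rw [← hU2] at m1 m2 m3 m4
    rw [← hU3] at m5 m6 m7 m8
    have w1 := r0 (Z := YA) (π := σ2 ℓ) fun v hv => s2 ℓ hℓ v (mem_union_left _ hv)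
    have w2 := r0 (Z := YB) (π := σ2 ℓ) fun v hv => s2 ℓ hℓ v (mem_union_right _ hv)
    have w3 := r0 (Z := XA) (π := σ4 ℓ) fun v hv => s4 ℓ hℓ v (mem_union_left _ hv)
    have w4 := r0 (Z := XB) (π := σ4 ℓ) fun v hv => s4 ℓ hℓ v (mem_union_right _ hv)
    have hp' := hp ℓ
    have hq' := hqq ℓ
    constructor
    · omega
    · omega

end Pool.Agent.H71.TD
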