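import Mathlib
import Pool.Agent.H71.TD.Defs3
import Pool.Agent.H71.TD.DdE

/-!
CT1E: the decomposition of an expanding part, combinatorial part. The edges of `H` have classes `0, ..., 5` (`cg H cl j`): `0` main part and `1` reserve for the labels `≥ 3 t`, `2` and `3` main part and reserve for the edges `XA - XB` and `YA - YB`, used at the labels `< 3 t`, `4` and `5` gadgets.
Use the STATEMENT of `ddE` (`TD/DdE.lean`).

Proof.  `mm1` from `hs1`. `D0.Adj a b := (G0.Adj a b ∨ R.Adj a b) ∧ ∀ ℓ < L - 3 t, mm1 ℓ a ≠ b` with `G0 := cg H cl 0`, `R := cg H cl 1`. As `mm1` covers every `v` exactly at the `ℓ < L - 3 t` with `v ∉ U (3 t + ℓ)`, by different edges: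
 (1) `dg D0 v + (L - 3 t) = dg G0 v + dg R v + #{ℓ : 3 t ≤ ℓ < L, v ∈ U ℓ}`; this is `≤ d0 + (L - 3 t)` by `hd0`. `dg H v = ∑_{j < 6} dg (cg H cl j) v`. With `hdeg` and `mul L U v = mul (3 t) U v + #{ℓ : 3 t ≤ ℓ < L, v ∈ U ℓ}`:
 (2) `mul (3 t) U v + dg D0 v + dg D2 v + dg D3 v + dg S0 v + dg SR v = 3 t`, `D2 := cg H cl 4`, `D3 := cg H cl 5`, `S0 := cg H cl 2`, `SR := cg H cl 3`.
 `∑_{XA} (dg S0 + dg SR) = ∑_{XB} (dg S0 + dg SR)` since by `hS` these edges at `XA` go to `XB` and conversely (double counting), and `#XA = #XB`: so (2) gives `hX` of `ddE`; `hY` in the same way. `ddE` gives `σ`.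
 `U'' ℓ := U ℓ ∪ {v : σ ℓ v ≠ v}`, `#(U'' ℓ) ≤ u + (cap0 + 3 cap)`. Every edge of `D0 ⊔ D2 ⊔ D3` at `v` is in exactly one `σ ℓ`, so `mul (3 t) U'' v = mul (3 t) U v + dg D0 v + dg D2 v + dg D3 v ≤ s + d0 + 2 d`.
 Labels for `X`: `eX ℓ' := ℓ' + t` for `ℓ' < 2 t`, `ℓ' - 2 t` for `2 t ≤ ℓ' < 3 t` (a bijection of `[0, 3 t)`; the last `t` labels are `T1 = [0, t)`). `hX` (`PtOk`) for the sets `U'' (eX ℓ')`, `ℓ' < 2 t`: sizes; balance is the last conclusion of `ddE` (`lef XA (U ℓ) (σ ℓ) = #(XA \ U'' ℓ)`); degrees: (2), as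
 `dg (bt S0 XA XB) v = dg S0 v` for `v ∈ X`, and `mul (2 t)` of the shifted sets is `mul (3 t) U'' v` because no vertex of `X` is in `U'' ℓ`, `ℓ < t`. Labels for `Y`: `eY ℓ' := ℓ'` for `ℓ' < t`, `ℓ' + t` for `t ≤ ℓ' < 2 t`, `ℓ' - t` for `2 t ≤ ℓ' < 3 t`; no vertex of `Y` is in `U'' ℓ` for `t ≤ ℓ < 2 t`.
 `mm ℓ v := mm1 (ℓ - 3 t) v` for `3 t ≤ ℓ`; for `ℓ < 3 t`: `σ ℓ v` if `σ ℓ v ≠ v`; otherwise `mmX (eX⁻¹ ℓ) v` for `v ∈ X`, `mmY (eY⁻¹ ℓ) v` for `v ∈ Y`. The classes of edges are disjoint, so different labels have different edges.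
-/

set_option autoImplicit false

namespace Pool.Agent.H71.TD

open Finset Classical
open Pool.Agent.H71.DN Pool.Agent.H71.DX Pool.Agent.H71.DR Pool.Agent.H71.HL Pool.Agent.H71.DC

/-- The number of `ℓ < K` such that `m ℓ` moves `v`. -/
private noncomputable def mvct {V : Type} (K : ℕ) (m : ℕ → V → V) (v : V) : ℕ :=
  ((range K).filter fun ℓ => m ℓ v ≠ v).card

private theorem cnt {V : Type} [Fintype V] (G : SimpleGraph V) (K : ℕ) (m : ℕ → V → V) (v : V)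
    (adj : ∀ ℓ < K, m ℓ v ≠ v → G.Adj v (m ℓ v))
    (dis : ∀ i < K, ∀ j < K, i ≠ j → m i v ≠ v → m i v ≠ m j v) :
    (univ.filter fun u => G.Adj v u ∧ ∃ ℓ < K, m ℓ v = u).card =
      ((range K).filter fun ℓ => m ℓ v ≠ v).card := by
  symm
  refine Finset.card_bij (fun ℓ _ => m ℓ v) ?_ ?_ ?_
  · intro ℓ hℓ
    rw [mem_filter, mem_range] at hℓ
    rw [mem_filter]
    exact ⟨mem_univ _, adj ℓ hℓ.1 hℓ.2, ℓ, hℓ.1, rfl⟩
  · intro i hi j hj h
    rw [mem_filter, mem_range] at hi hj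
    by_contra hne
    exact dis i hi.1 j hj.1 hne hi.2 h
  · intro u hu
    rw [mem_filter] at hu
    obtain ⟨_, ha, ℓ, hℓ, rfl⟩ := hu
    exact ⟨ℓ, by rw [mem_filter, mem_range]; exact ⟨hℓ, ha.ne'⟩, rfl⟩

private theorem cnt_full {V : Type} (K : ℕ) (U : ℕ → Finset V)
    (m : ℕ → V → V) (v : V) (fix : ∀ ℓ < K, v ∈ U ℓ → m ℓ v = v)
    (full : ∀ ℓ < K, v ∉ U ℓ → m ℓ v ≠ v) :
    mvct K m v + mul K U v = K := by
  have h1 := Finset.card_filter_add_card_filter_not (s := range K) (fun ℓ => v ∈ U ℓ)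
  rw [card_range] at h1
  have h2 : ((range K).filter fun ℓ => m ℓ v ≠ v) = (range K).filter fun ℓ => ¬ v ∈ U ℓ := by
    ext ℓ
    rw [mem_filter, mem_filter, mem_range]
    constructor
    · rintro ⟨h, h'⟩
      exact ⟨h, fun h3 => h' (fix ℓ h h3)⟩
    · rintro ⟨h, h'⟩
      exact ⟨h, full ℓ h h'⟩
  unfold mvct
  rw [h2]
  unfold mul
  omega

private theorem dg_split {V : Type} [Fintype V] (G : SimpleGraph V) (K : ℕ) (m : ℕ → V → V)
    (v : V) :
    dg G v = (univ.filter fun u => G.Adj v u ∧ ∃ ℓ < K, m ℓ v = u).card +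
      (univ.filter fun u => G.Adj v u ∧ ∀ ℓ < K, m ℓ v ≠ u).card := by
  have h1 := Finset.card_filter_add_card_filter_not (s := univ.filter fun u => G.Adj v u)
    (fun u => ∃ ℓ < K, m ℓ v = u)
  rw [filter_filter, filter_filter] at h1
  unfold dg
  rw [← h1]
  have h2 : (univ.filter fun u => G.Adj v u ∧ ¬ ∃ ℓ < K, m ℓ v = u) =
      univ.filter fun u => G.Adj v u ∧ ∀ ℓ < K, m ℓ v ≠ u := by
    ext u
    rw [mem_filter, mem_filter]
    constructor
    · rintro ⟨h, h', h3⟩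
      exact ⟨h, h', fun ℓ hℓ h4 => h3 ⟨ℓ, hℓ, h4⟩⟩
    · rintro ⟨h, h', h3⟩
      refine ⟨h, h', ?_⟩
      rintro ⟨ℓ, hℓ, h4⟩
      exact h3 ℓ hℓ h4
  rw [h2]

private theorem dg_cnt {V : Type} [Fintype V] (G D : SimpleGraph V) (K : ℕ) (m : ℕ → V → V)
    (v : V) (hD : ∀ u, D.Adj v u ↔ (G.Adj v u ∧ ∀ ℓ < K, m ℓ v ≠ u))
    (adj : ∀ ℓ < K, m ℓ v ≠ v → G.Adj v (m ℓ v))
    (dis : ∀ i < K, ∀ j < K, i ≠ j → m i v ≠ v → m i v ≠ m j v) :
    dg G v = dg D v + mvct K m v := by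
  have h1 := dg_split G K m v
  have h2 := cnt G K m v adj dis
  have h3 : dg D v = (univ.filter fun u => G.Adj v u ∧ ∀ ℓ < K, m ℓ v ≠ u).card := by
    unfold dg
    congr 1
    ext w
    rw [mem_filter, mem_filter, hD]
  rw [h1, h3, h2]
  unfold mvct
  ring

private theorem mul_un {V : Type} [Fintype V] (K : ℕ) (m : ℕ → V → V) (U W : ℕ → Finset V)
    (v : V) (hW : ∀ ℓ < K, v ∈ W ℓ ↔ (v ∈ U ℓ ∨ m ℓ v ≠ v))
    (fix : ∀ ℓ < K, v ∈ U ℓ → m ℓ v = v) : mul K W v = mul K U v + mvct K m v := by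
  unfold mul mvct
  rw [← card_union_of_disjoint]
  · congr 1
    ext ℓ
    rw [mem_union, mem_filter, mem_filter, mem_filter, mem_range]
    constructor
    · rintro ⟨h, h'⟩
      rcases (hW ℓ h).mp h' with h3 | h3
      · exact Or.inl ⟨h, h3⟩
      · exact Or.inr ⟨h, h3⟩
    · rintro (⟨h, h'⟩ | ⟨h, h'⟩)
      · exact ⟨h, (hW ℓ h).mpr (Or.inl h')⟩
      · exact ⟨h, (hW ℓ h).mpr (Or.inr h')⟩
  · rw [disjoint_left]
    intro ℓ h h'
    rw [mem_filter, mem_range] at h h'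
    exact h'.2 (fix ℓ h.1 h.2)

private theorem dg_sup {V : Type} [Fintype V] (G G' : SimpleGraph V)
    (h : ∀ a b, G.Adj a b → ¬ G'.Adj a b) (v : V) : dg (G ⊔ G') v = dg G v + dg G' v := by
  unfold dg
  rw [← card_union_of_disjoint]
  · congr 1
    ext u
    simp only [mem_union, mem_filter, mem_univ, true_and, SimpleGraph.sup_adj]
  · rw [disjoint_left]
    intro u hu hu'
    rw [mem_filter] at hu hu'
    exact h _ _ hu.2 hu'.2

private theorem dg_cls {V : Type} [Fintype V] (H : SimpleGraph V) (cl : Sym2 V → ℕ)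
    (hcl : ∀ e, cl e < 6) (v : V) :
    dg H v = dg (cg H cl 0) v + dg (cg H cl 1) v + dg (cg H cl 2) v + dg (cg H cl 3) v +
      dg (cg H cl 4) v + dg (cg H cl 5) v := by
  have h1 := Finset.card_eq_sum_card_fiberwise (s := univ.filter fun u => H.Adj v u)
    (t := range 6) (f := fun u => cl s(v, u)) (by
      intro u _
      rw [Finset.mem_coe, mem_range]
      exact hcl _)
  have h2 : dg H v = (univ.filter fun u => H.Adj v u).card := rfl
  have h3 : ∀ j ∈ range 6, ((univ.filter fun u => H.Adj v u).filter fun u =>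
      cl s(v, u) = j).card = dg (cg H cl j) v := by
    intro j _
    unfold dg
    congr 1
    ext w
    rw [mem_filter, mem_filter, mem_filter]
    constructor
    · rintro ⟨⟨h, h'⟩, h''⟩
      exact ⟨h, h', h''⟩
    · rintro ⟨h, h', h''⟩
      exact ⟨⟨h, h'⟩, h''⟩
  rw [h2, h1, Finset.sum_congr rfl h3]
  simp only [Finset.sum_range_succ, Finset.sum_range_zero, zero_add]

private theorem mul_add {V : Type} (K L : ℕ) (U : ℕ → Finset V) (v : V) :
    mul (K + L) U v = mul K U v + mul L (fun ℓ => U (K + ℓ)) v := by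
  unfold mul
  rw [card_filter, card_filter, card_filter, Finset.sum_range_add]

private theorem sum_side {V : Type} [Fintype V] (S : SimpleGraph V) (P Q : Finset V)
    (h1 : ∀ a b, S.Adj a b → a ∈ P → b ∈ Q) (h2 : ∀ a b, S.Adj a b → a ∈ Q → b ∈ P) :
    ∑ v ∈ P, dg S v = ∑ v ∈ Q, dg S v := by
  have e1 : ∀ v ∈ P, dg S v = ∑ u ∈ Q, if S.Adj v u then 1 else 0 := by
    intro v hv
    unfold dg
    rw [card_filter]
    symm
    refine Finset.sum_subset (subset_univ _) ?_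
    intro u _ hu
    rw [if_neg]
    intro h
    exact hu (h1 v u h hv)
  have e2 : ∀ u ∈ Q, dg S u = ∑ v ∈ P, if S.Adj v u then 1 else 0 := by
    intro v hv
    unfold dg
    rw [card_filter]
    symm
    have h3 : ∀ u, (if S.Adj u v then (1 : ℕ) else 0) = if S.Adj v u then 1 else 0 := by
      intro u
      by_cases h : S.Adj u v
      · rw [if_pos h, if_pos h.symm]
      · rw [if_neg h, if_neg fun h' => h h'.symm]
    simp only [h3]
    refine Finset.sum_subset (subset_univ _) ?_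
    intro u _ hu
    rw [if_neg]
    intro h
    exact hu (h2 v u h hv)
  rw [sum_congr rfl e1, sum_congr rfl e2, sum_comm]

private theorem part {V : Type} [Fintype V] (S0 SR : SimpleGraph V) (P Q : Finset V)
    (t u s : ℕ) (hP : PtOk S0 SR P Q (2 * t) t u s) (e f : ℕ → ℕ)
    (he : ∀ ℓ < 3 * t, e ℓ < 3 * t ∧ f (e ℓ) = ℓ) (hf : ∀ ℓ < 3 * t, f ℓ < 3 * t ∧ e (f ℓ) = ℓ)
    (W : ℕ → Finset V)
    (hW : ∀ ℓ < 3 * t, 2 * t ≤ f ℓ → ∀ v ∈ P ∪ Q, v ∉ W ℓ) (hu : ∀ ℓ < 3 * t, (W ℓ).card ≤ u)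
    (hs : ∀ v, mul (3 * t) W v ≤ s) (hb : ∀ ℓ < 3 * t, (P \ W ℓ).card = (Q \ W ℓ).card)
    (hd : ∀ v ∈ P ∪ Q, dg S0 v + dg SR v + mul (3 * t) W v = 3 * t)
    (h0 : ∀ a b, S0.Adj a b → (a ∈ P → b ∈ Q) ∧ (a ∈ Q → b ∈ P))
    (hR : ∀ a b, SR.Adj a b → (a ∈ P → b ∈ Q) ∧ (a ∈ Q → b ∈ P)) :
    ∃ mm : ℕ → V → V, (∀ ℓ < 3 * t, Inv (mm ℓ)) ∧
      (∀ ℓ < 3 * t, ∀ v, mm ℓ v ≠ v → (S0 ⊔ SR).Adj v (mm ℓ v) ∧ v ∈ P ∪ Q ∧ v ∉ W ℓ) ∧
      (∀ ℓ < 3 * t, ∀ ℓ' < 3 * t, ℓ ≠ ℓ' → ∀ v, mm ℓ v ≠ v → mm ℓ v ≠ mm ℓ' v) ∧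
      ∀ ℓ < 3 * t, ∀ v ∈ P ∪ Q, v ∉ W ℓ → mm ℓ v ≠ v := by
  have h23 : ∀ ℓ, ℓ < 2 * t → ℓ < 3 * t := fun ℓ h => by omega
  have hmul : ∀ v ∈ P ∪ Q, mul (2 * t) (fun ℓ => W (e ℓ)) v = mul (3 * t) W v := by
    intro v hv
    unfold mul
    refine Finset.card_bij (fun ℓ _ => e ℓ) ?_ ?_ ?_
    · intro ℓ hℓ
      rw [mem_filter, mem_range] at hℓ ⊢
      exact ⟨(he ℓ (h23 ℓ hℓ.1)).1, hℓ.2⟩
    · intro i hi j hj h
      rw [mem_filter, mem_range] at hi hj
      have := (he i (h23 i hi.1)).2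
      rw [← this, h]
      exact (he j (h23 j hj.1)).2
    · intro ℓ hℓ
      rw [mem_filter, mem_range] at hℓ
      have h1 : f ℓ < 2 * t := by
        by_contra hc
        exact hW ℓ hℓ.1 (by omega) v hv hℓ.2
      refine ⟨f ℓ, ?_, (hf ℓ hℓ.1).2⟩
      rw [mem_filter, mem_range]
      refine ⟨h1, ?_⟩
      show v ∈ W (e (f ℓ))
      rw [(hf ℓ hℓ.1).2]
      exact hℓ.2
  have hbt : ∀ S : SimpleGraph V, (∀ a b, S.Adj a b → (a ∈ P → b ∈ Q) ∧ (a ∈ Q → b ∈ P)) →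
      ∀ v ∈ P ∪ Q, dg (bt S P Q) v = dg S v := by
    intro S hS v hv
    unfold dg
    congr 1
    ext w
    rw [mem_filter, mem_filter]
    constructor
    · rintro ⟨h, h'⟩
      exact ⟨h, h'.1⟩
    · rintro ⟨h, h'⟩
      refine ⟨h, h', ?_⟩
      rcases mem_union.mp hv with h3 | h3
      · exact Or.inl ⟨h3, (hS _ _ h').1 h3⟩
      · exact Or.inr ⟨h3, (hS _ _ h').2 h3⟩
  obtain ⟨mm, hPM, hfull⟩ := hP (fun ℓ => W (e ℓ)) (by
      intro ℓ hℓ
      refine le_trans (card_le_card inter_subset_left) ?_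
      exact hu _ (he ℓ (h23 ℓ hℓ)).1) (by
      intro v hv
      rw [hmul v hv]
      exact hs v) (by
      intro ℓ hℓ
      exact hb _ (he ℓ (h23 ℓ hℓ)).1) (by
      intro v hv
      rw [hmul v hv, hbt S0 h0 v hv, hbt SR hR v hv, hd v hv]
      ring)
  have h3 : 2 * t + t = 3 * t := by ring
  rw [h3] at hPM hfull
  refine ⟨fun ℓ => mm (f ℓ), ?_, ?_, ?_, ?_⟩
  · intro ℓ hℓ
    exact hPM.inv _ (hf ℓ hℓ).1
  · intro ℓ hℓ v hv
    have h4 := hPM.adj _ (hf ℓ hℓ).1 v hv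
    have h5 : v ∈ P ∪ Q := by
      by_contra hc
      refine hv (hPM.fix _ (hf ℓ hℓ).1 v ?_)
      rw [mem_union, mem_sdiff]
      exact Or.inl ⟨mem_univ _, hc⟩
    refine ⟨?_, h5, ?_⟩
    · rcases h4 with h6 | h6
      · exact Or.inl h6.1
      · exact Or.inr h6.1
    · intro hc
      by_cases h6 : f ℓ < 2 * t
      · refine hv (hPM.fix _ (hf ℓ hℓ).1 v ?_)
        rw [mem_union, if_pos h6, (hf ℓ hℓ).2]
        exact Or.inr hc
      · exact hW ℓ hℓ (by omega) v h5 hc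
  · intro ℓ hℓ ℓ' hℓ' hne v hv
    refine hPM.dis _ (hf ℓ hℓ).1 _ (hf ℓ' hℓ').1 ?_ v hv
    intro h
    apply hne
    rw [← (hf ℓ hℓ).2, h]
    exact (hf ℓ' hℓ').2
  · intro ℓ hℓ v hv hvW
    refine hfull _ (hf ℓ hℓ).1 v hv ?_
    intro h
    rw [(hf ℓ hℓ).2]
    exact hvW

theorem ct1E {V : Type} [Fintype V] (H : SimpleGraph V) (cl : Sym2 V → ℕ)
    (hcl : ∀ e, cl e < 6) (XA XB YA YB : Finset V) (hq : Qtr XA XB YA YB)
    (hS : ∀ j, (j = 2 ∨ j = 3) → ∀ a b, (cg H cl j).Adj a b → (a ∈ XA ∧ b ∈ XB) ∨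
      (a ∈ XB ∧ b ∈ XA) ∨ (a ∈ YA ∧ b ∈ YB) ∨ (a ∈ YB ∧ b ∈ YA))
    (hD2 : ∀ a b, (cg H cl 4).Adj a b → (a ∈ XA ∧ b ∈ XA) ∨ (a ∈ XB ∧ b ∈ XB) ∨
      (a ∈ YA ∧ b ∈ YA) ∨ (a ∈ YB ∧ b ∈ YB))
    (hD3 : ∀ a b, (cg H cl 5).Adj a b → (a ∈ XA ∧ b ∈ YA) ∨ (a ∈ YA ∧ b ∈ XA) ∨
      (a ∈ XB ∧ b ∈ YB) ∨ (a ∈ YB ∧ b ∈ XB))
    (L t : ℕ) (ht : 0 < t) (htL : 3 * t ≤ L) (U : ℕ → Finset V)
    (hT1 : ∀ ℓ < t, Disjoint (U ℓ) (XA ∪ XB))
    (hT2 : ∀ ℓ, t ≤ ℓ → ℓ < 2 * t → Disjoint (U ℓ) (YA ∪ YB))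
    (hev : ∀ ℓ < L, Even (univ \ U ℓ).card)
    (hdeg : ∀ v, dg H v + mul L U v = L)
    (hs1 : Full (cg H cl 0 ⊔ cg H cl 1) (L - 3 * t) (fun ℓ => U (3 * t + ℓ)))
    (d0 d s u a0 a cap0 cap : ℕ)
    (hd0 : ∀ v, dg (cg H cl 0) v + dg (cg H cl 1) v + mul L U v ≤ d0 + (L - 3 * t))
    (hd : ∀ v, dg (cg H cl 4) v ≤ d ∧ dg (cg H cl 5) v ≤ d)
    (hs : ∀ v, mul L U v ≤ s) (hu : ∀ ℓ < L, (U ℓ).card ≤ u)
    (h3 : |(ee (cg H cl 5) XA YA : ℤ) - ee (cg H cl 5) XB YB| ≤ t * a0)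
    (ha : a = u + cap0 + a0 + 4) (hcap0 : 2 ≤ cap0)
    (hK0 : 2 * s + 2 * d0 + Fintype.card V * d0 / (cap0 - 1) < t)
    (hb2 : ∀ Z, (Z = XA ∨ Z = XB ∨ Z = YA ∨ Z = YB) →
      2 * (3 * t * a + (u + cap0 + 2 * cap + 2 * a) * d) < ee (cg H cl 4) Z Z)
    (hb3 : 3 * t * a + (u + cap0 + 2 * cap + 2 * a) * d < ee (cg H cl 5) XA YA ∧
      3 * t * a + (u + cap0 + 2 * cap + 2 * a) * d < ee (cg H cl 5) XB YB)
    (hcap : 2 * a + 4 ≤ cap)
    (hK : 4 * (s + d0 + 2 * d) + 4 * d + Fintype.card V * d / (cap - 3) < t)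
    (hX : PtOk (cg H cl 2) (cg H cl 3) XA XB (2 * t) t (u + (cap0 + 3 * cap)) (s + d0 + 2 * d))
    (hY : PtOk (cg H cl 2) (cg H cl 3) YA YB (2 * t) t (u + (cap0 + 3 * cap)) (s + d0 + 2 * d)) :
    Full H L U := by
  set K1 := L - 3 * t with hK1
  have hL : 3 * t + K1 = L := by omega
  obtain ⟨mm1, hPM1, hfull1⟩ := hs1
  -- the graph of the leftover edges
  have hsym : ∀ ℓ < K1, ∀ a b, mm1 ℓ b = a → mm1 ℓ a = b := by
    intro ℓ hℓ a b h2
    rw [← h2]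
    exact hPM1.inv ℓ hℓ b
  let D0 : SimpleGraph V :=
    { Adj := fun a b => (cg H cl 0 ⊔ cg H cl 1).Adj a b ∧ ∀ ℓ < K1, mm1 ℓ a ≠ b
      symm := ⟨fun a b h => ⟨h.1.symm, fun ℓ hℓ h2 => h.2 ℓ hℓ (hsym ℓ hℓ a b h2)⟩⟩
      loopless := ⟨fun a h => (cg H cl 0 ⊔ cg H cl 1).irrefl h.1⟩ }
  have hcls : ∀ i j, i ≠ j → ∀ a b, (cg H cl i).Adj a b → ¬ (cg H cl j).Adj a b := by
    intro i j hij a b h h'
    exact hij (h.2.symm.trans h'.2)
  -- degrees
  have e1 : ∀ v, dg D0 v + K1 = dg (cg H cl 0) v + dg (cg H cl 1) v +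
      mul K1 (fun ℓ => U (3 * t + ℓ)) v := by
    intro v
    have a1 := dg_cnt (cg H cl 0 ⊔ cg H cl 1) D0 K1 mm1 v (fun u => Iff.rfl)
      (fun ℓ hℓ h => hPM1.adj ℓ hℓ v h)
      (fun i hi j hj hij h => hPM1.dis i hi j hj hij v h)
    have a3 := cnt_full K1 (fun ℓ => U (3 * t + ℓ)) mm1 v (fun ℓ hℓ h => hPM1.fix ℓ hℓ v h)
      (fun ℓ hℓ h => hfull1 ℓ hℓ v h)
    have a4 := dg_sup (cg H cl 0) (cg H cl 1) (hcls 0 1 (by norm_num)) v
    omega
  have e2 : ∀ v, mul L U v = mul (3 * t) U v + mul K1 (fun ℓ => U (3 * t + ℓ)) v := by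
    intro v
    rw [← hL]
    exact mul_add _ _ _ _
  have e3 : ∀ v, dg D0 v ≤ d0 := by
    intro v
    have := hd0 v
    have := e1 v
    have := e2 v
    omega
  have e4 : ∀ v, mul (3 * t) U v + dg D0 v + dg (cg H cl 4) v + dg (cg H cl 5) v +
      (dg (cg H cl 2) v + dg (cg H cl 3) v) = 3 * t := by
    intro v
    have b1 := dg_cls H cl hcl v
    have b2 := hdeg v
    have b3 := e1 v
    have b4 := e2 v
    omega
  -- sides
  have hsX : ∀ j, (j = 2 ∨ j = 3) → ∀ a b, (cg H cl j).Adj a b →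
      (a ∈ XA → b ∈ XB) ∧ (a ∈ XB → b ∈ XA) := by
    intro j hj a b h
    have nA := hq.d1
    rw [disjoint_left] at nA
    have nB := hq.d2
    rw [disjoint_left] at nB
    have nC := hq.d3
    rw [disjoint_left] at nC
    have nD := hq.d4
    rw [disjoint_left] at nD
    have nE := hq.d5
    rw [disjoint_left] at nE
    constructor
    · intro ha
      rcases hS j hj a b h with h1 | h1 | h1 | h1
      · exact h1.2
      · exact absurd h1.1 (nA ha)
      · exact absurd h1.1 (nB ha)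
      · exact absurd h1.1 (nC ha)
    · intro ha
      rcases hS j hj a b h with h1 | h1 | h1 | h1
      · exact absurd ha (nA h1.1)
      · exact h1.2
      · exact absurd h1.1 (nD ha)
      · exact absurd h1.1 (nE ha)
  have hsY : ∀ j, (j = 2 ∨ j = 3) → ∀ a b, (cg H cl j).Adj a b →
      (a ∈ YA → b ∈ YB) ∧ (a ∈ YB → b ∈ YA) := by
    intro j hj a b h
    have nA := hq.d6
    rw [disjoint_left] at nA
    have nB := hq.d2
    rw [disjoint_left] at nB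
    have nC := hq.d3
    rw [disjoint_left] at nC
    have nD := hq.d4
    rw [disjoint_left] at nD
    have nE := hq.d5
    rw [disjoint_left] at nE
    constructor
    · intro ha
      rcases hS j hj a b h with h1 | h1 | h1 | h1
      · exact absurd ha (nB h1.1)
      · exact absurd ha (nD h1.1)
      · exact h1.2
      · exact absurd h1.1 (nA ha)
    · intro ha
      rcases hS j hj a b h with h1 | h1 | h1 | h1
      · exact absurd ha (nC h1.1)
      · exact absurd ha (nE h1.1)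
      · exact absurd ha (nA h1.1)
      · exact h1.2
  have hsum : ∀ P Q : Finset V, P.card = Q.card →
      (∀ j, (j = 2 ∨ j = 3) → ∀ a b, (cg H cl j).Adj a b → (a ∈ P → b ∈ Q) ∧ (a ∈ Q → b ∈ P)) →
      ∑ v ∈ P, (mul (3 * t) U v + dg D0 v + dg (cg H cl 4) v + dg (cg H cl 5) v) =
      ∑ v ∈ Q, (mul (3 * t) U v + dg D0 v + dg (cg H cl 4) v + dg (cg H cl 5) v) := by
    intro P Q hc hPQ
    have c0 : ∀ Z : Finset V,
        ∑ v ∈ Z, (mul (3 * t) U v + dg D0 v + dg (cg H cl 4) v + dg (cg H cl 5) v) +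
        (∑ v ∈ Z, dg (cg H cl 2) v + ∑ v ∈ Z, dg (cg H cl 3) v) = Z.card * (3 * t) := by
      intro Z
      rw [← sum_add_distrib, ← sum_add_distrib, sum_congr rfl (fun v _ => e4 v), sum_const,
        smul_eq_mul]
    have c1 := c0 P
    have c2 := c0 Q
    have c3 := sum_side (cg H cl 2) P Q (fun a b h => (hPQ 2 (Or.inl rfl) a b h).1)
      (fun a b h => (hPQ 2 (Or.inl rfl) a b h).2)
    have c4 := sum_side (cg H cl 3) P Q (fun a b h => (hPQ 3 (Or.inr rfl) a b h).1)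
      (fun a b h => (hPQ 3 (Or.inr rfl) a b h).2)
    rw [hc] at c1
    omega
  obtain ⟨σ, hσ, hσX, hσY, hσb⟩ := ddE XA XB YA YB hq D0 (cg H cl 4) (cg H cl 5) hD2 hD3
    (by
      intro a b h
      rcases h.1 with h1 | h1
      · exact ⟨hcls 0 4 (by norm_num) a b h1, hcls 0 5 (by norm_num) a b h1⟩
      · exact ⟨hcls 1 4 (by norm_num) a b h1, hcls 1 5 (by norm_num) a b h1⟩)
    t ht U hT1 hT2 (fun ℓ hℓ => hev ℓ (lt_of_lt_of_le hℓ htL))
    (hsum XA XB hq.cX hsX) (hsum YA YB hq.cY hsY) d0 d s u a0 a cap0 cap e3 hd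
    (fun v => le_trans (by rw [e2 v]; exact Nat.le_add_right _ _) (hs v))
    (fun ℓ hℓ => hu ℓ (lt_of_lt_of_le hℓ htL)) h3 ha hcap0 hK0 hb2 hb3 hcap hK
  -- the sets
  let W : ℕ → Finset V := fun ℓ => U ℓ ∪ univ.filter fun v => σ ℓ v ≠ v
  have hWm : ∀ ℓ v, v ∈ W ℓ ↔ (v ∈ U ℓ ∨ σ ℓ v ≠ v) := by
    intro ℓ v
    simp only [W, mem_union, mem_filter, mem_univ, true_and]
  have hWc : ∀ ℓ < 3 * t, (W ℓ).card ≤ u + (cap0 + 3 * cap) := by
    intro ℓ hℓ
    refine le_trans (card_union_le _ _) ?_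
    exact Nat.add_le_add (hu ℓ (lt_of_lt_of_le hℓ htL)) (hσ.cap ℓ hℓ)
  have hWmul : ∀ v, mul (3 * t) W v = mul (3 * t) U v + (dg D0 v + dg (cg H cl 4) v +
      dg (cg H cl 5) v) := by
    intro v
    have a1 := dg_cnt (D0 ⊔ cg H cl 4 ⊔ cg H cl 5) ⊥ (3 * t) σ v (by
        intro w
        constructor
        · intro h
          exact absurd h (by simp)
        · rintro ⟨h, h'⟩
          obtain ⟨ℓ, hℓ, h1⟩ := hσ.cov v w h
          exact absurd h1 (h' ℓ hℓ))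
      (fun ℓ hℓ h => hσ.adj ℓ hℓ v h)
      (fun i hi j hj hij h => hσ.dis i hi j hj hij v h)
    have a3 : dg (⊥ : SimpleGraph V) v = 0 := by
      have h := dg_sup (⊥ : SimpleGraph V) ⊥ (fun a b h => absurd h (by simp)) v
      rw [sup_idem] at h
      omega
    have a4 : dg (D0 ⊔ cg H cl 4 ⊔ cg H cl 5) v = dg D0 v + dg (cg H cl 4) v +
        dg (cg H cl 5) v := by
      rw [dg_sup, dg_sup]
      · intro a b h
        rcases h.1 with h1 | h1
        · exact hcls 0 4 (by norm_num) a b h1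
        · exact hcls 1 4 (by norm_num) a b h1
      · intro a b h
        rcases h with h | h
        · rcases h.1 with h1 | h1
          · exact hcls 0 5 (by norm_num) a b h1
          · exact hcls 1 5 (by norm_num) a b h1
        · exact hcls 4 5 (by norm_num) a b h
    have a5 := mul_un (3 * t) σ U W v (fun ℓ _ => hWm ℓ v) (fun ℓ hℓ h => hσ.fix ℓ hℓ v h)
    omega
  have hWs : ∀ v, mul (3 * t) W v ≤ s + d0 + 2 * d := by
    intro v
    have b1 := hWmul v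
    have b2 := hs v
    have b3 := e2 v
    have b4 := e3 v
    have b5 := hd v
    omega
  have hWd : ∀ v, dg (cg H cl 2) v + dg (cg H cl 3) v + mul (3 * t) W v = 3 * t := by
    intro v
    have b1 := hWmul v
    have b2 := e4 v
    omega
  have hlef : ∀ ℓ, ∀ Z : Finset V, (Z \ W ℓ).card = lef Z (U ℓ) (σ ℓ) := by
    intro ℓ Z
    unfold lef
    congr 1
    ext v
    rw [mem_sdiff, mem_filter, hWm]
    tauto
  -- the part X
  obtain ⟨mX, x1, x2, x3, x4⟩ := part (cg H cl 2) (cg H cl 3) XA XB t _ _ hX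
    (fun ℓ => if ℓ < 2 * t then ℓ + t else ℓ - 2 * t)
    (fun ℓ => if ℓ < t then ℓ + 2 * t else ℓ - t)
    (by
      intro ℓ hℓ
      by_cases h : ℓ < 2 * t
      · simp only [if_pos h]
        rw [if_neg (by omega)]
        omega
      · simp only [if_neg h]
        rw [if_pos (by omega)]
        omega)
    (by
      intro ℓ hℓ
      by_cases h : ℓ < t
      · simp only [if_pos h]
        rw [if_neg (by omega)]
        omega
      · simp only [if_neg h]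
        rw [if_pos (by omega)]
        omega)
    W
    (by
      intro ℓ hℓ h v hv
      have h1 : ℓ < t := by
        by_contra hc
        rw [if_neg hc] at h
        omega
      rw [hWm]
      rintro (h2 | h2)
      · have h3 := hT1 ℓ h1
        rw [disjoint_left] at h3
        exact h3 h2 hv
      · exact h2 (hσX ℓ h1 v hv))
    hWc hWs (by
      intro ℓ hℓ
      rw [hlef, hlef]
      exact (hσb ℓ hℓ).1) (fun v _ => hWd v) (hsX 2 (Or.inl rfl)) (hsX 3 (Or.inr rfl))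
  -- the part Y
  obtain ⟨mY, y1, y2, y3, y4⟩ := part (cg H cl 2) (cg H cl 3) YA YB t _ _ hY
    (fun ℓ => if ℓ < t then ℓ else if ℓ < 2 * t then ℓ + t else ℓ - t)
    (fun ℓ => if ℓ < t then ℓ else if ℓ < 2 * t then ℓ + t else ℓ - t)
    (by
      intro ℓ hℓ
      by_cases h : ℓ < t
      · simp only [if_pos h]
        exact ⟨hℓ, trivial⟩
      · by_cases h' : ℓ < 2 * t
        · simp only [if_neg h, if_pos h']
          rw [if_neg (by omega), if_neg (by omega)]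
          omega
        · simp only [if_neg h, if_neg h']
          rw [if_neg (by omega), if_pos (by omega)]
          omega)
    (by
      intro ℓ hℓ
      by_cases h : ℓ < t
      · simp only [if_pos h]
        exact ⟨hℓ, trivial⟩
      · by_cases h' : ℓ < 2 * t
        · simp only [if_neg h, if_pos h']
          rw [if_neg (by omega), if_neg (by omega)]
          omega
        · simp only [if_neg h, if_neg h']
          rw [if_neg (by omega), if_pos (by omega)]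
          omega)
    W
    (by
      intro ℓ hℓ h v hv
      have h1 : t ≤ ℓ ∧ ℓ < 2 * t := by
        by_cases h2 : ℓ < t
        · rw [if_pos h2] at h
          omega
        · by_cases h3 : ℓ < 2 * t
          · omega
          · rw [if_neg h2, if_neg h3] at h
            omega
      rw [hWm]
      rintro (h2 | h2)
      · have h3 := hT2 ℓ h1.1 h1.2
        rw [disjoint_left] at h3
        exact h3 h2 hv
      · exact h2 (hσY ℓ h1.1 h1.2 v hv))
    hWc hWs (by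
      intro ℓ hℓ
      rw [hlef, hlef]
      exact (hσb ℓ hℓ).2) (fun v _ => hWd v) (hsY 2 (Or.inl rfl)) (hsY 3 (Or.inr rfl))
  have hXY : ∀ v, v ∈ XA ∪ XB → v ∉ YA ∪ YB := by
    intro v hv hv'
    rw [mem_union] at hv hv'
    rcases hv with h | h <;> rcases hv' with h' | h'
    · exact (disjoint_left.mp hq.d2) h h'
    · exact (disjoint_left.mp hq.d3) h h'
    · exact (disjoint_left.mp hq.d4) h h'
    · exact (disjoint_left.mp hq.d5) h h'
  have hcovXY : ∀ v, v ∈ XA ∪ XB ∨ v ∈ YA ∪ YB := by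
    intro v
    rw [mem_union, mem_union]
    rcases hq.cov v with h | h | h | h
    · exact Or.inl (Or.inl h)
    · exact Or.inl (Or.inr h)
    · exact Or.inr (Or.inl h)
    · exact Or.inr (Or.inr h)
  -- assembly
  let mm : ℕ → V → V := fun ℓ v => if 3 * t ≤ ℓ then mm1 (ℓ - 3 * t) v else
    if σ ℓ v ≠ v then σ ℓ v else if mX ℓ v ≠ v then mX ℓ v else mY ℓ v
  have m1 : ∀ ℓ, 3 * t ≤ ℓ → ∀ v, mm ℓ v = mm1 (ℓ - 3 * t) v := by
    intro ℓ hℓ v
    simp only [mm, if_pos hℓ]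
  have m2 : ∀ ℓ, ℓ < 3 * t → ∀ v, σ ℓ v ≠ v → mm ℓ v = σ ℓ v := by
    intro ℓ hℓ v h
    simp only [mm]
    rw [if_neg (by omega), if_pos h]
  have m3 : ∀ ℓ, ℓ < 3 * t → ∀ v, mX ℓ v ≠ v → mm ℓ v = mX ℓ v := by
    intro ℓ hℓ v h
    have h1 : σ ℓ v = v := by
      by_contra hc
      exact (x2 ℓ hℓ v h).2.2 ((hWm ℓ v).mpr (Or.inr hc))
    simp only [mm]
    rw [if_neg (by omega), if_neg (by rw [not_not]; exact h1), if_pos h]
  have m4 : ∀ ℓ, ℓ < 3 * t → ∀ v, mY ℓ v ≠ v → mm ℓ v = mY ℓ v := by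
    intro ℓ hℓ v h
    have h1 : σ ℓ v = v := by
      by_contra hc
      exact (y2 ℓ hℓ v h).2.2 ((hWm ℓ v).mpr (Or.inr hc))
    have h2 : mX ℓ v = v := by
      by_contra hc
      exact hXY v (x2 ℓ hℓ v hc).2.1 (y2 ℓ hℓ v h).2.1
    simp only [mm]
    rw [if_neg (by omega), if_neg (by rw [not_not]; exact h1),
      if_neg (by rw [not_not]; exact h2)]
  have m5 : ∀ ℓ, ℓ < 3 * t → ∀ v, mm ℓ v ≠ v → (σ ℓ v ≠ v ∧ mm ℓ v = σ ℓ v) ∨
      (mX ℓ v ≠ v ∧ mm ℓ v = mX ℓ v) ∨ (mY ℓ v ≠ v ∧ mm ℓ v = mY ℓ v) := by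
    intro ℓ hℓ v h
    by_cases h1 : σ ℓ v = v
    · by_cases h2 : mX ℓ v = v
      · right; right
        have h3 : mm ℓ v = mY ℓ v := by
          simp only [mm]
          rw [if_neg (by omega), if_neg (by rw [not_not]; exact h1),
            if_neg (by rw [not_not]; exact h2)]
        exact ⟨by rw [← h3]; exact h, h3⟩
      · exact Or.inr (Or.inl ⟨h2, m3 ℓ hℓ v h2⟩)
    · exact Or.inl ⟨h1, m2 ℓ hℓ v h1⟩
  have hinv3 : ∀ (α : V → V), Inv α → ∀ v, α v ≠ v → α (α v) = v ∧ α (α v) ≠ α v := by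
    intro α hα v h
    have := hα v
    refine ⟨this, ?_⟩
    rw [this]
    exact h.symm
  -- the class of an edge
  have k1 : ∀ ℓ, ℓ < L → 3 * t ≤ ℓ → ∀ v, mm ℓ v ≠ v →
      (cg H cl 0 ⊔ cg H cl 1).Adj v (mm ℓ v) ∧ mm ℓ v = mm1 (ℓ - 3 * t) v := by
    intro ℓ hℓ h v hv
    have h1 := m1 ℓ h v
    refine ⟨?_, h1⟩
    rw [h1] at hv ⊢
    exact hPM1.adj (ℓ - 3 * t) (by omega) v hv
  have k2 : ∀ a b, (cg H cl 0 ⊔ cg H cl 1).Adj a b → cl s(a, b) = 0 ∨ cl s(a, b) = 1 := by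
    intro a b h
    rcases h with h | h
    · exact Or.inl h.2
    · exact Or.inr h.2
  have k3 : ∀ a b, (cg H cl 2 ⊔ cg H cl 3).Adj a b → cl s(a, b) = 2 ∨ cl s(a, b) = 3 := by
    intro a b h
    rcases h with h | h
    · exact Or.inl h.2
    · exact Or.inr h.2
  have k4 : ∀ a b, (D0 ⊔ cg H cl 4 ⊔ cg H cl 5).Adj a b → D0.Adj a b ∨ cl s(a, b) = 4 ∨
      cl s(a, b) = 5 := by
    intro a b h
    rcases h with (h | h) | h
    · exact Or.inl h
    · exact Or.inr (Or.inl h.2)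
    · exact Or.inr (Or.inr h.2)
  have k5 : ∀ a b, D0.Adj a b → cl s(a, b) = 0 ∨ cl s(a, b) = 1 := fun a b h => k2 a b h.1
  refine ⟨mm, ⟨?_, ?_, ?_, ?_⟩, ?_⟩
  · intro ℓ hℓ v
    by_cases hc : 3 * t ≤ ℓ
    · rw [m1 ℓ hc, m1 ℓ hc]
      exact hPM1.inv _ (by omega) v
    · push Not at hc
      by_cases h : mm ℓ v = v
      · rw [h, h]
      · rcases m5 ℓ hc v h with ⟨h1, h2⟩ | ⟨h1, h2⟩ | ⟨h1, h2⟩
        · obtain ⟨h3, h4⟩ := hinv3 _ (hσ.inv ℓ hc) v h1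
          rw [h2, m2 ℓ hc _ h4, h3]
        · obtain ⟨h3, h4⟩ := hinv3 _ (x1 ℓ hc) v h1
          rw [h2, m3 ℓ hc _ h4, h3]
        · obtain ⟨h3, h4⟩ := hinv3 _ (y1 ℓ hc) v h1
          rw [h2, m4 ℓ hc _ h4, h3]
  · intro ℓ hℓ v hv
    by_cases hc : 3 * t ≤ ℓ
    · rcases (k1 ℓ hℓ hc v hv).1 with h | h
      · exact h.1
      · exact h.1
    · push Not at hc
      rcases m5 ℓ hc v hv with ⟨h1, h2⟩ | ⟨h1, h2⟩ | ⟨h1, h2⟩
      · rw [h2]
        rcases hσ.adj ℓ hc v h1 with (h | h) | h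
        · rcases h.1 with h | h
          · exact h.1
          · exact h.1
        · exact h.1
        · exact h.1
      · rw [h2]
        rcases (x2 ℓ hc v h1).1 with h | h
        · exact h.1
        · exact h.1
      · rw [h2]
        rcases (y2 ℓ hc v h1).1 with h | h
        · exact h.1
        · exact h.1
  · have key : ∀ ℓ < L, ∀ ℓ' < L, 3 * t ≤ ℓ → ℓ' < 3 * t → ∀ v, mm ℓ v ≠ v →
        mm ℓ v ≠ mm ℓ' v := by
      intro ℓ hℓ ℓ' hℓ' h h' v hv he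
      obtain ⟨p1, p2⟩ := k1 ℓ hℓ h v hv
      have p3 := k2 _ _ p1
      have hv' : mm ℓ' v ≠ v := by rw [← he]; exact hv
      rcases m5 ℓ' h' v hv' with ⟨h1, h2⟩ | ⟨h1, h2⟩ | ⟨h1, h2⟩
      · have p4 := hσ.adj ℓ' h' v h1
        rw [← h2, ← he] at p4
        rcases k4 _ _ p4 with p5 | p5 | p5
        · exact p5.2 (ℓ - 3 * t) (by omega) p2.symm
        · omega
        · omega
      · have p4 := (x2 ℓ' h' v h1).1
        rw [← h2, ← he] at p4
        have := k3 _ _ p4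
        omega
      · have p4 := (y2 ℓ' h' v h1).1
        rw [← h2, ← he] at p4
        have := k3 _ _ p4
        omega
    intro ℓ hℓ ℓ' hℓ' hne v hv
    by_cases hc : 3 * t ≤ ℓ
    · by_cases hc' : 3 * t ≤ ℓ'
      · rw [m1 ℓ hc] at hv ⊢
        rw [m1 ℓ' hc']
        exact hPM1.dis _ (by omega) _ (by omega) (by omega) v hv
      · exact key ℓ hℓ ℓ' hℓ' hc (by omega) v hv
    · by_cases hc' : 3 * t ≤ ℓ'
      · intro he
        have hv' : mm ℓ' v ≠ v := by rw [← he]; exact hv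
        exact key ℓ' hℓ' ℓ hℓ hc' (by omega) v hv' he.symm
      · push Not at hc hc'
        intro he
        have hv' : mm ℓ' v ≠ v := by rw [← he]; exact hv
        rcases m5 ℓ hc v hv with ⟨h1, h2⟩ | ⟨h1, h2⟩ | ⟨h1, h2⟩ <;>
        rcases m5 ℓ' hc' v hv' with ⟨h1', h2'⟩ | ⟨h1', h2'⟩ | ⟨h1', h2'⟩
        · exact hσ.dis ℓ hc ℓ' hc' hne v h1 (by rw [← h2, ← h2', he])
        · have q1 := hσ.adj ℓ hc v h1
          have q2 := (x2 ℓ' hc' v h1').1
          rw [← h2] at q1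
          rw [← h2', ← he] at q2
          have q3 := k3 _ _ q2
          rcases k4 _ _ q1 with q4 | q4 | q4
          · have := k5 _ _ q4
            omega
          · omega
          · omega
        · have q1 := hσ.adj ℓ hc v h1
          have q2 := (y2 ℓ' hc' v h1').1
          rw [← h2] at q1
          rw [← h2', ← he] at q2
          have q3 := k3 _ _ q2
          rcases k4 _ _ q1 with q4 | q4 | q4
          · have := k5 _ _ q4
            omega
          · omega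
          · omega
        · have q1 := hσ.adj ℓ' hc' v h1'
          have q2 := (x2 ℓ hc v h1).1
          rw [← h2', ← he] at q1
          rw [← h2] at q2
          have q3 := k3 _ _ q2
          rcases k4 _ _ q1 with q4 | q4 | q4
          · have := k5 _ _ q4
            omega
          · omega
          · omega
        · exact x3 ℓ hc ℓ' hc' hne v h1 (by rw [← h2, ← h2', he])
        · exact hXY v (x2 ℓ hc v h1).2.1 (y2 ℓ' hc' v h1').2.1
        · have q1 := hσ.adj ℓ' hc' v h1'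
          have q2 := (y2 ℓ hc v h1).1
          rw [← h2', ← he] at q1
          rw [← h2] at q2
          have q3 := k3 _ _ q2
          rcases k4 _ _ q1 with q4 | q4 | q4
          · have := k5 _ _ q4
            omega
          · omega
          · omega
        · exact hXY v (x2 ℓ' hc' v h1').2.1 (y2 ℓ hc v h1).2.1
        · exact y3 ℓ hc ℓ' hc' hne v h1 (by rw [← h2, ← h2', he])
  · intro ℓ hℓ v hv
    by_cases hc : 3 * t ≤ ℓ
    · rw [m1 ℓ hc]
      refine hPM1.fix _ (by omega) v ?_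
      show v ∈ U (3 * t + (ℓ - 3 * t))
      rw [show 3 * t + (ℓ - 3 * t) = ℓ by omega]
      exact hv
    · push Not at hc
      by_contra h
      rcases m5 ℓ hc v h with ⟨h1, h2⟩ | ⟨h1, h2⟩ | ⟨h1, h2⟩
      · exact h1 (hσ.fix ℓ hc v hv)
      · exact (x2 ℓ hc v h1).2.2 ((hWm ℓ v).mpr (Or.inl hv))
      · exact (y2 ℓ hc v h1).2.2 ((hWm ℓ v).mpr (Or.inl hv))
  · intro ℓ hℓ v hv
    by_cases hc : 3 * t ≤ ℓ
    · rw [m1 ℓ hc]
      refine hfull1 _ (by omega) v ?_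
      show v ∉ U (3 * t + (ℓ - 3 * t))
      rw [show 3 * t + (ℓ - 3 * t) = ℓ by omega]
      exact hv
    · push Not at hc
      by_cases h1 : σ ℓ v = v
      · have h2 : v ∉ W ℓ := by
          rw [hWm]
          rintro (h3 | h3)
          · exact hv h3
          · exact h3 h1
        rcases hcovXY v with h3 | h3
        · have h4 := x4 ℓ hc v h3 h2
          rw [m3 ℓ hc v h4]
          exact h4
        · have h4 := y4 ℓ hc v h3 h2
          rw [m4 ℓ hc v h4]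
          exact h4
      · rw [m2 ℓ hc v h1]
        exact h1

end Pool.Agent.H71.TD
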