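import Mathlib
import Pool.Agent.H71.TD.Defs3
import Pool.Agent.H71.TD.Rpl

/-!
GCE: the classes of edges of a graph `H` with four quarters: `0`: the main part, `1`: the reserve, `2, 3`: edges between `XA` and `XB` and between `YA` and `YB` (main part and reserve), `4`: edges inside the quarters, `5`: edges between `XA` and `YA` and between `XB` and `YB`.
Use the STATEMENT of `rpl` (`TD/Rpl.lean`).

Proof (`n = #V`).  `rpl` with `m = 5`, a small `ρ'` and `lam' = min lam (α / 100)`, and the weights `w 0 e = wR` for all `e`; `w 1 e = w0`, `w 2 e = w1` if `e` joins `XA` and `XB` or `YA` and `YB`, else `0`; `w 3 e = w2` if both ends of `e` are in the same quarter, else `0`;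
`w 4 e = w3` if `e` joins `XA` and `YA` or `XB` and `YB`, else `0`. (The sum is at most `Q` by `hQ`; define the type of `e : Sym2 V` by `∃ a b, e = s(a, b) ∧ ...`.) `cl e := j + 1` if `e` is an edge of `Hj j`, and `0` if there is no such `j`; `cg H cl (j + 1) = Hj j`.
 * `dg (Hj j) v` is within `ρ' n` of `(w / Q)` times the number of `H`-neighbours `u` of `v` with `s(v, u)` of the type in question, which is `dg H v` for `j = 0`, and for the others the number of neighbours in one quarter (for `v ∈ XA`: `XB` for `j = 1, 2`, `XA` for `j = 3`, `YA` for `j = 4`; similarly for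
   the other quarters), within `η0 n` of `dg H v / 4`, and `dg H v` is within `ρH n` of `Δ`. The class `0` is the rest: `dg (cg H cl 0) v = dg H v - ∑_{j = 1..5} dg (cg H cl j) v`. `|wR / Q| ≤ 1` etc.
 * `ee`: the last conclusion of `rpl` with `w0 := wR` resp. `w1`, `w2`, `w3` (for the pairs in question all edges have the right type). `ee H Z Z ≥ #Z ((dg H v)/4 - η0 n)`-like `≥ (n/5) (α n/5)` for a quarter `Z` and similarly `ee H XA YA`.
   (`#Z` is within `η0 n` of `n/4`, `dg H v ≥ (α - ρH) n`.)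
 * last claim: `ee (cg H cl 5) XA YA = ∑_{v ∈ XA} dg (cg H cl 5) v` and `ee (cg H cl 5) XB YB = ∑_{v ∈ XB} dg (cg H cl 5) v`, and `#XA = #XB`.
-/

set_option autoImplicit false

namespace Pool.Agent.H71.TD

open Finset Classical
open Pool.Agent.H71.DN Pool.Agent.H71.DX Pool.Agent.H71.DR Pool.Agent.H71.HL Pool.Agent.H71.DC

/-- the edges of type `T` -/
def GcE_ty {V : Type} (T : V → V → Prop) (e : Sym2 V) : Prop := ∃ a b, e = s(a, b) ∧ T a b

/-- edges between `XA` and `XB` or `YA` and `YB` -/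
def GcE_T1 {V : Type} (XA XB YA YB : Finset V) (a b : V) : Prop :=
  (a ∈ XA ∧ b ∈ XB) ∨ (a ∈ XB ∧ b ∈ XA) ∨ (a ∈ YA ∧ b ∈ YB) ∨ (a ∈ YB ∧ b ∈ YA)

/-- edges inside a quarter -/
def GcE_T2 {V : Type} (XA XB YA YB : Finset V) (a b : V) : Prop :=
  (a ∈ XA ∧ b ∈ XA) ∨ (a ∈ XB ∧ b ∈ XB) ∨ (a ∈ YA ∧ b ∈ YA) ∨ (a ∈ YB ∧ b ∈ YB)

/-- edges between `XA` and `YA` or `XB` and `YB` -/
def GcE_T3 {V : Type} (XA XB YA YB : Finset V) (a b : V) : Prop :=
  (a ∈ XA ∧ b ∈ YA) ∨ (a ∈ YA ∧ b ∈ XA) ∨ (a ∈ XB ∧ b ∈ YB) ∨ (a ∈ YB ∧ b ∈ XB)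

theorem GcE_T1s {V : Type} (XA XB YA YB : Finset V) (a b : V) (h : GcE_T1 XA XB YA YB a b) :
    GcE_T1 XA XB YA YB b a := by
  unfold GcE_T1 at h ⊢
  tauto

theorem GcE_T2s {V : Type} (XA XB YA YB : Finset V) (a b : V) (h : GcE_T2 XA XB YA YB a b) :
    GcE_T2 XA XB YA YB b a := by
  unfold GcE_T2 at h ⊢
  tauto

theorem GcE_T3s {V : Type} (XA XB YA YB : Finset V) (a b : V) (h : GcE_T3 XA XB YA YB a b) :
    GcE_T3 XA XB YA YB b a := by
  unfold GcE_T3 at h ⊢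
  tauto

theorem GcE_ty_mk {V : Type} {T : V → V → Prop} (hT : ∀ a b, T a b → T b a) (a b : V) :
    GcE_ty T s(a, b) ↔ T a b := by
  constructor
  · rintro ⟨c, d, h, h2⟩
    rw [Sym2.eq_iff] at h
    rcases h with ⟨h3, h4⟩ | ⟨h3, h4⟩
    · rw [h3, h4]
      exact h2
    · rw [h3, h4]
      exact hT _ _ h2
  · exact fun h => ⟨a, b, rfl, h⟩

theorem GcE_mem {V : Type} [Fintype V] {XA XB YA YB : Finset V} (q : Qtr XA XB YA YB) (v : V) :
    (v ∈ XA ∧ v ∉ XB ∧ v ∉ YA ∧ v ∉ YB) ∨ (v ∉ XA ∧ v ∈ XB ∧ v ∉ YA ∧ v ∉ YB) ∨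
      (v ∉ XA ∧ v ∉ XB ∧ v ∈ YA ∧ v ∉ YB) ∨ (v ∉ XA ∧ v ∉ XB ∧ v ∉ YA ∧ v ∈ YB) := by
  have h1 : v ∈ XA → v ∉ XB := fun h h' => Finset.disjoint_left.1 q.d1 h h'
  have h2 : v ∈ XA → v ∉ YA := fun h h' => Finset.disjoint_left.1 q.d2 h h'
  have h3 : v ∈ XA → v ∉ YB := fun h h' => Finset.disjoint_left.1 q.d3 h h'
  have h4 : v ∈ XB → v ∉ YA := fun h h' => Finset.disjoint_left.1 q.d4 h h'
  have h5 : v ∈ XB → v ∉ YB := fun h h' => Finset.disjoint_left.1 q.d5 h h'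
  have h6 : v ∈ YA → v ∉ YB := fun h h' => Finset.disjoint_left.1 q.d6 h h'
  have h7 := q.cov v
  tauto

theorem GcE_n1 {V : Type} [Fintype V] {XA XB YA YB : Finset V} (q : Qtr XA XB YA YB) (v : V) :
    ∃ Z : Finset V, (Z = XA ∨ Z = XB ∨ Z = YA ∨ Z = YB) ∧
      ∀ u, GcE_T1 XA XB YA YB v u ↔ u ∈ Z := by
  unfold GcE_T1
  rcases GcE_mem q v with h | h | h | h
  · exact ⟨XB, by tauto, fun u => by tauto⟩
  · exact ⟨XA, by tauto, fun u => by tauto⟩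
  · exact ⟨YB, by tauto, fun u => by tauto⟩
  · exact ⟨YA, by tauto, fun u => by tauto⟩

theorem GcE_n2 {V : Type} [Fintype V] {XA XB YA YB : Finset V} (q : Qtr XA XB YA YB) (v : V) :
    ∃ Z : Finset V, (Z = XA ∨ Z = XB ∨ Z = YA ∨ Z = YB) ∧
      ∀ u, GcE_T2 XA XB YA YB v u ↔ u ∈ Z := by
  unfold GcE_T2
  rcases GcE_mem q v with h | h | h | h
  · exact ⟨XA, by tauto, fun u => by tauto⟩
  · exact ⟨XB, by tauto, fun u => by tauto⟩
  · exact ⟨YA, by tauto, fun u => by tauto⟩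
  · exact ⟨YB, by tauto, fun u => by tauto⟩

theorem GcE_n3 {V : Type} [Fintype V] {XA XB YA YB : Finset V} (q : Qtr XA XB YA YB) (v : V) :
    ∃ Z : Finset V, (Z = XA ∨ Z = XB ∨ Z = YA ∨ Z = YB) ∧
      ∀ u, GcE_T3 XA XB YA YB v u ↔ u ∈ Z := by
  unfold GcE_T3
  rcases GcE_mem q v with h | h | h | h
  · exact ⟨YA, by tauto, fun u => by tauto⟩
  · exact ⟨YB, by tauto, fun u => by tauto⟩
  · exact ⟨XA, by tauto, fun u => by tauto⟩
  · exact ⟨XB, by tauto, fun u => by tauto⟩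

theorem GcE_excl {V : Type} [Fintype V] {XA XB YA YB : Finset V} (q : Qtr XA XB YA YB) (a b : V) :
    (GcE_T1 XA XB YA YB a b → ¬ GcE_T2 XA XB YA YB a b ∧ ¬ GcE_T3 XA XB YA YB a b) ∧
      (GcE_T2 XA XB YA YB a b → ¬ GcE_T3 XA XB YA YB a b) := by
  unfold GcE_T1 GcE_T2 GcE_T3
  rcases GcE_mem q a with h | h | h | h <;> rcases GcE_mem q b with h' | h' | h' | h' <;>
    obtain ⟨p1, p2, p3, p4⟩ := h <;> obtain ⟨q1, q2, q3, q4⟩ := h' <;>
    simp [p1, p2, p3, p4, q1, q2, q3, q4]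

theorem GcE_sumdeg {V : Type} [Fintype V] {H : SimpleGraph V} {T : V → V → Prop}
    (hT : ∀ a b, T a b → T b a) (W : ℕ) {Z : Finset V} {v : V} (hZ : ∀ u, T v u ↔ u ∈ Z) :
    ∑ u ∈ univ.filter (fun u => H.Adj v u), ((if GcE_ty T s(v, u) then W else 0 : ℕ) : ℝ) =
      W * ((Z.filter fun u => H.Adj v u).card : ℝ) := by
  have h1 : ∀ u, ((if GcE_ty T s(v, u) then W else 0 : ℕ) : ℝ) =
      if u ∈ Z then (W : ℝ) else 0 := by
    intro u
    by_cases h : u ∈ Z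
    · rw [if_pos h, if_pos ((GcE_ty_mk hT v u).2 ((hZ u).2 h))]
    · rw [if_neg h, if_neg fun h2 => h ((hZ u).1 ((GcE_ty_mk hT v u).1 h2)), Nat.cast_zero]
  rw [sum_congr rfl fun u _ => h1 u, ← sum_filter, sum_const, nsmul_eq_mul, mul_comm]
  have h2 : (univ.filter fun u => H.Adj v u).filter (fun u => u ∈ Z) =
      Z.filter fun u => H.Adj v u := by
    ext u
    simp only [mem_filter, mem_univ, true_and]
    tauto
  rw [h2]

theorem GcE_dcl {V : Type} [Fintype V] {H K : SimpleGraph V} {T : V → V → Prop}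
    (hT : ∀ a b, T a b → T b a) {Q W Δ : ℕ} (hWQ : W ≤ Q) (hQ : 1 ≤ Q) {ρ' ρH η0 : ℝ} {v : V}
    {Z : Finset V} (hZ : ∀ u, T v u ↔ u ∈ Z)
    (h1 : |(dg K v : ℝ) - (∑ u ∈ univ.filter (fun u => H.Adj v u),
      ((if GcE_ty T s(v, u) then W else 0 : ℕ) : ℝ)) / Q| ≤ ρ' * Fintype.card V)
    (h2 : |((Z.filter fun u => H.Adj v u).card : ℝ) - dg H v / 4| ≤ η0 * Fintype.card V)
    (h3 : dg H v ≤ Δ) (h4 : (Δ : ℝ) ≤ dg H v + ρH * Fintype.card V) :
    |(dg K v : ℝ) - (W : ℝ) / (4 * Q) * Δ| ≤ (ρ' + η0 + ρH) * Fintype.card V := by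
  rw [GcE_sumdeg hT W hZ] at h1
  have hQ0 : (0 : ℝ) < Q := by exact_mod_cast hQ
  obtain ⟨r, hr⟩ : ∃ r : ℝ, r = (W : ℝ) / Q := ⟨_, rfl⟩
  have hr0 : 0 ≤ r := by rw [hr]; positivity
  have hr1 : r ≤ 1 := by
    rw [hr, div_le_one hQ0]
    exact_mod_cast hWQ
  obtain ⟨z, hz⟩ : ∃ z : ℝ, z = ((Z.filter fun u => H.Adj v u).card : ℝ) := ⟨_, rfl⟩
  rw [← hz] at h1 h2
  have h3' : (dg H v : ℝ) ≤ Δ := by exact_mod_cast h3
  have e1 : (W : ℝ) * z / Q = r * z := by rw [hr]; ring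
  have e2 : (W : ℝ) / (4 * Q) * Δ = r * (Δ / 4) := by rw [hr]; ring
  rw [e1] at h1
  rw [e2]
  rw [abs_le] at h1 h2 ⊢
  have a1 : r * (z - dg H v / 4) ≤ η0 * Fintype.card V := by
    by_cases h : 0 ≤ z - (dg H v : ℝ) / 4
    · nlinarith
    · have : r * (z - dg H v / 4) ≤ 0 := mul_nonpos_of_nonneg_of_nonpos hr0 (by linarith)
      linarith
  have a2 : -(η0 * Fintype.card V) ≤ r * (z - dg H v / 4) := by
    by_cases h : 0 ≤ z - (dg H v : ℝ) / 4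
    · have : 0 ≤ r * (z - dg H v / 4) := mul_nonneg hr0 h
      linarith
    · nlinarith
  have a3 : 0 ≤ r * ((Δ : ℝ) - dg H v) := mul_nonneg hr0 (by linarith)
  have a4 : r * ((Δ : ℝ) - dg H v) ≤ ρH * Fintype.card V := by nlinarith
  constructor <;> nlinarith

theorem GcE_ee {V : Type} [Fintype V] {H : SimpleGraph V} {T : V → V → Prop}
    (hT : ∀ a b, T a b → T b a) {W : ℕ} {A Y : Finset V} (hAY : ∀ a ∈ A, ∀ b ∈ Y, T a b) :
    ((A ×ˢ Y).filter fun x => H.Adj x.1 x.2 ∧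
      W ≤ (if GcE_ty T s(x.1, x.2) then W else 0)).card = ee H A Y := by
  unfold ee
  refine congrArg Finset.card (filter_congr fun x hx => ?_)
  rw [mem_product] at hx
  rw [if_pos ((GcE_ty_mk hT x.1 x.2).2 (hAY _ hx.1 _ hx.2))]
  exact ⟨fun h => h.1, fun h => ⟨h, le_refl _⟩⟩

theorem GcE_cl {V : Type} (H : SimpleGraph V) (Hj : Fin 5 → SimpleGraph V)
    (hle : ∀ j, Hj j ≤ H) (hdis : ∀ i j, i ≠ j → ∀ a b, (Hj i).Adj a b → ¬ (Hj j).Adj a b) :
    ∃ cl : Sym2 V → ℕ, (∀ e, cl e < 6) ∧ ∀ j : Fin 5, cg H cl ((j : ℕ) + 1) = Hj j := by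
  have hun : ∀ i j a b, (Hj i).Adj a b → (Hj j).Adj a b → i = j := by
    intro i j a b h1 h2
    by_contra h
    exact hdis i j h a b h1 h2
  refine ⟨fun e => if h : ∃ j : Fin 5, e ∈ (Hj j).edgeSet then (h.choose : ℕ) + 1 else 0, ?_, ?_⟩
  · intro e
    by_cases h : ∃ j : Fin 5, e ∈ (Hj j).edgeSet
    · simp only [dif_pos h]
      have := h.choose.isLt
      omega
    · simp only [dif_neg h]
      omega
  · intro j
    ext a b
    constructor
    · rintro ⟨_, h2⟩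
      by_cases h : ∃ j : Fin 5, s(a, b) ∈ (Hj j).edgeSet
      · simp only [dif_pos h] at h2
        have h3 := h.choose_spec
        have h4 : h.choose = j := by
          apply Fin.ext
          omega
        rw [h4] at h3
        exact h3
      · simp only [dif_neg h] at h2
        omega
    · intro h1
      refine ⟨hle j h1, ?_⟩
      have h : ∃ j : Fin 5, s(a, b) ∈ (Hj j).edgeSet := ⟨j, h1⟩
      have h3 := h.choose_spec
      have h4 : h.choose = j := hun _ _ a b h3 h1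
      simp only [dif_pos h, h4]

theorem GcE_sum {V : Type} [Fintype V] (H : SimpleGraph V) (cl : Sym2 V → ℕ)
    (hcl : ∀ e, cl e < 6) (v : V) : dg H v = ∑ k ∈ range 6, dg (cg H cl k) v := by
  unfold dg
  rw [card_eq_sum_card_fiberwise (f := fun u => cl s(v, u)) (t := range 6)]
  · refine sum_congr rfl fun k _ => ?_
    refine congrArg Finset.card ?_
    ext u
    simp only [mem_filter, mem_univ, true_and]
    exact Iff.rfl
  · intro u _
    exact mem_coe.2 (mem_range.2 (hcl _))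

theorem GcE_eesum {V : Type} [Fintype V] (G : SimpleGraph V) (A B : Finset V) :
    ee G A B = ∑ a ∈ A, (B.filter fun y => G.Adj a y).card := by
  unfold ee
  rw [card_filter, sum_product]
  exact sum_congr rfl fun a _ => (card_filter _ _).symm

theorem GcE_low {V : Type} [Fintype V] (H : SimpleGraph V) (A Z : Finset V) (α : ℝ) (hα : 0 < α)
    (h1 : (Fintype.card V : ℝ) / 5 ≤ A.card)
    (h2 : ∀ v, α * Fintype.card V / 5 ≤ ((Z.filter fun u => H.Adj v u).card : ℝ)) :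
    α * (Fintype.card V : ℝ) ^ 2 / 25 ≤ ee H A Z := by
  rw [GcE_eesum]
  push_cast
  have h3 : (A.card : ℝ) * (α * Fintype.card V / 5) ≤
      ∑ a ∈ A, ((Z.filter fun u => H.Adj a u).card : ℝ) := by
    rw [← nsmul_eq_mul]
    exact card_nsmul_le_sum _ _ _ fun a _ => h2 a
  have h4 : (0 : ℝ) ≤ α * Fintype.card V / 5 := by positivity
  nlinarith

theorem GcE_full {V : Type} [Fintype V] (K : SimpleGraph V) (A B : Finset V)
    (h : ∀ a ∈ A, ∀ b, K.Adj a b → b ∈ B) : ee K A B = ∑ a ∈ A, dg K a := by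
  rw [GcE_eesum]
  refine sum_congr rfl fun a ha => ?_
  unfold dg
  refine congrArg Finset.card ?_
  ext b
  simp only [mem_filter, mem_univ, true_and]
  exact ⟨fun h2 => h2.2, fun h2 => ⟨h a ha b h2, h2⟩⟩

theorem GcE_diff {V : Type} [Fintype V] (K : SimpleGraph V) (A B A' B' : Finset V) (c ε : ℝ)
    (hε : 0 ≤ ε) (hd : ∀ v, |(dg K v : ℝ) - c| ≤ ε * Fintype.card V)
    (h : ∀ a ∈ A, ∀ b, K.Adj a b → b ∈ B) (h' : ∀ a ∈ A', ∀ b, K.Adj a b → b ∈ B')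
    (hc : A.card = A'.card) :
    |(ee K A B : ℝ) - ee K A' B'| ≤ 2 * ε * (Fintype.card V : ℝ) ^ 2 := by
  have key : ∀ A B : Finset V, (∀ a ∈ A, ∀ b, K.Adj a b → b ∈ B) →
      |(ee K A B : ℝ) - A.card * c| ≤ A.card * (ε * Fintype.card V) := by
    intro A B h
    rw [GcE_full K A B h]
    push_cast
    have h1 : ∑ a ∈ A, (dg K a : ℝ) - A.card * c = ∑ a ∈ A, ((dg K a : ℝ) - c) := by
      rw [sum_sub_distrib, sum_const, nsmul_eq_mul]
    rw [h1]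
    refine (abs_sum_le_sum_abs _ _).trans ?_
    rw [← nsmul_eq_mul]
    exact sum_le_card_nsmul _ _ _ fun a _ => hd a
  have k1 := key A B h
  have k2 := key A' B' h'
  rw [← hc] at k2
  have h3 : (A.card : ℝ) ≤ Fintype.card V := by exact_mod_cast card_le_univ A
  have h4 : (A.card : ℝ) * (ε * Fintype.card V) ≤ ε * (Fintype.card V : ℝ) ^ 2 := by
    have h5 : 0 ≤ ε * (Fintype.card V : ℝ) := by positivity
    nlinarith
  rw [abs_le] at k1 k2 ⊢
  constructor <;> linarith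

theorem gcE (Q wR w0 w1 w2 w3 : ℕ) (hR : 1 ≤ wR) (h0 : 1 ≤ w0) (h1 : 1 ≤ w1) (h2 : 1 ≤ w2)
    (h3 : 1 ≤ w3) (hQ : wR + w0 + w1 ≤ Q) (hQ2 : wR + w2 ≤ Q) (hQ3 : wR + w3 ≤ Q)
    (α ρ lam : ℝ) (hα : 0 < α) (hα1 : α ≤ 1) (hρ : 0 < ρ) (hl : 0 < lam) :
    ∃ (ρH η0 : ℝ) (n0 : ℕ), 0 < ρH ∧ 0 < η0 ∧
      ∀ (V : Type) [Fintype V] (H : SimpleGraph V) (Δ : ℕ) (XA XB YA YB : Finset V),
        n0 ≤ Fintype.card V → α * Fintype.card V ≤ Δ → (Δ : ℝ) ≤ 2 * Fintype.card V →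
        (∀ v, dg H v ≤ Δ ∧ (Δ : ℝ) ≤ dg H v + ρH * Fintype.card V) →
        Qtr XA XB YA YB →
        (∀ Z, (Z = XA ∨ Z = XB ∨ Z = YA ∨ Z = YB) →
          |(Z.card : ℝ) - Fintype.card V / 4| ≤ η0 * Fintype.card V ∧
          ∀ v, |((Z.filter fun u => H.Adj v u).card : ℝ) - dg H v / 4| ≤
            η0 * Fintype.card V) →
        ∃ cl : Sym2 V → ℕ, (∀ e, cl e < 6) ∧
          (∀ j, (j = 2 ∨ j = 3) → ∀ a b, (cg H cl j).Adj a b → (a ∈ XA ∧ b ∈ XB) ∨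
            (a ∈ XB ∧ b ∈ XA) ∨ (a ∈ YA ∧ b ∈ YB) ∨ (a ∈ YB ∧ b ∈ YA)) ∧
          (∀ a b, (cg H cl 4).Adj a b → (a ∈ XA ∧ b ∈ XA) ∨ (a ∈ XB ∧ b ∈ XB) ∨
            (a ∈ YA ∧ b ∈ YA) ∨ (a ∈ YB ∧ b ∈ YB)) ∧
          (∀ a b, (cg H cl 5).Adj a b → (a ∈ XA ∧ b ∈ YA) ∨ (a ∈ YA ∧ b ∈ XA) ∨
            (a ∈ XB ∧ b ∈ YB) ∨ (a ∈ YB ∧ b ∈ XB)) ∧
          (∀ v, |(dg (cg H cl 0) v : ℝ) -
            (1 - (wR : ℝ) / Q - ((w0 : ℝ) + w1 + w2 + w3) / (4 * Q)) * Δ| ≤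
              ρ * Fintype.card V) ∧
          (∀ v, |(dg (cg H cl 1) v : ℝ) - (wR : ℝ) / Q * Δ| ≤ ρ * Fintype.card V) ∧
          (∀ v, |(dg (cg H cl 2) v : ℝ) - (w0 : ℝ) / (4 * Q) * Δ| ≤ ρ * Fintype.card V) ∧
          (∀ v, |(dg (cg H cl 3) v : ℝ) - (w1 : ℝ) / (4 * Q) * Δ| ≤ ρ * Fintype.card V) ∧
          (∀ v, |(dg (cg H cl 4) v : ℝ) - (w2 : ℝ) / (4 * Q) * Δ| ≤ ρ * Fintype.card V) ∧
          (∀ v, |(dg (cg H cl 5) v : ℝ) - (w3 : ℝ) / (4 * Q) * Δ| ≤ ρ * Fintype.card V) ∧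
          (∀ A Y : Finset V, lam * (Fintype.card V : ℝ) ^ 2 ≤ ee H A Y →
            (wR : ℝ) / (4 * Q) * ee H A Y ≤ ee (cg H cl 1) A Y) ∧
          (∀ A Y : Finset V, ((A ⊆ XA ∧ Y ⊆ XB) ∨ (A ⊆ XB ∧ Y ⊆ XA) ∨ (A ⊆ YA ∧ Y ⊆ YB) ∨
            (A ⊆ YB ∧ Y ⊆ YA)) → lam * (Fintype.card V : ℝ) ^ 2 ≤ ee H A Y →
            (w1 : ℝ) / (4 * Q) * ee H A Y ≤ ee (cg H cl 3) A Y) ∧
          (∀ Z, (Z = XA ∨ Z = XB ∨ Z = YA ∨ Z = YB) →
            (w2 : ℝ) / Q * (α * (Fintype.card V : ℝ) ^ 2 / 100) ≤ ee (cg H cl 4) Z Z) ∧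
          (w3 : ℝ) / Q * (α * (Fintype.card V : ℝ) ^ 2 / 100) ≤ ee (cg H cl 5) XA YA ∧
          (w3 : ℝ) / Q * (α * (Fintype.card V : ℝ) ^ 2 / 100) ≤ ee (cg H cl 5) XB YB ∧
          |(ee (cg H cl 5) XA YA : ℝ) - ee (cg H cl 5) XB YB| ≤
            ρ * (Fintype.card V : ℝ) ^ 2 := by
  have hQ1 : 1 ≤ Q := by omega
  have hQ0 : (0 : ℝ) < Q := by exact_mod_cast hQ1
  obtain ⟨n0, hn0⟩ := rpl 5 Q hQ1 (ρ / 30) (min lam (α / 100)) (by positivity)
    (lt_min hl (by positivity))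
  refine ⟨min (ρ / 30) (α / 10), min (ρ / 30) (α / 100), n0, by positivity, by positivity, ?_⟩
  intro V _ H Δ XA XB YA YB hn hΔ1 hΔ2 hdeg q hquar
  obtain ⟨ρH, hρH⟩ : ∃ x : ℝ, x = min (ρ / 30) (α / 10) := ⟨_, rfl⟩
  obtain ⟨η0, hη0⟩ : ∃ x : ℝ, x = min (ρ / 30) (α / 100) := ⟨_, rfl⟩
  rw [← hρH] at hdeg
  rw [← hη0] at hquar
  have hρH1 : ρH ≤ ρ / 30 := by rw [hρH]; exact min_le_left _ _
  have hρH2 : ρH ≤ α / 10 := by rw [hρH]; exact min_le_right _ _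
  have hη1 : η0 ≤ ρ / 30 := by rw [hη0]; exact min_le_left _ _
  have hη2 : η0 ≤ α / 100 := by rw [hη0]; exact min_le_right _ _
  have hρH0 : 0 < ρH := by rw [hρH]; positivity
  have hη00 : 0 < η0 := by rw [hη0]; positivity
  have hN : (0 : ℝ) ≤ Fintype.card V := Nat.cast_nonneg _
  obtain ⟨w, hw⟩ : ∃ w : Fin 5 → Sym2 V → ℕ, w = ![fun _ => wR,
    fun e => if GcE_ty (GcE_T1 XA XB YA YB) e then w0 else 0,
    fun e => if GcE_ty (GcE_T1 XA XB YA YB) e then w1 else 0,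
    fun e => if GcE_ty (GcE_T2 XA XB YA YB) e then w2 else 0,
    fun e => if GcE_ty (GcE_T3 XA XB YA YB) e then w3 else 0] := ⟨_, rfl⟩
  have hw_0 : ∀ e, w 0 e = wR := by
    intro e
    rw [hw]
    rfl
  have hw_1 : ∀ e, w 1 e = if GcE_ty (GcE_T1 XA XB YA YB) e then w0 else 0 := by
    intro e
    rw [hw]
    rfl
  have hw_2 : ∀ e, w 2 e = if GcE_ty (GcE_T1 XA XB YA YB) e then w1 else 0 := by
    intro e
    rw [hw]
    rfl
  have hw_3 : ∀ e, w 3 e = if GcE_ty (GcE_T2 XA XB YA YB) e then w2 else 0 := by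
    intro e
    rw [hw]
    rfl
  have hw_4 : ∀ e, w 4 e = if GcE_ty (GcE_T3 XA XB YA YB) e then w3 else 0 := by
    intro e
    rw [hw]
    rfl
  have hwQ : ∀ e, ∑ j, w j e ≤ Q := by
    intro e
    rw [Fin.sum_univ_five, hw_0, hw_1, hw_2, hw_3, hw_4]
    induction e using Sym2.ind with
    | _ a b =>
      rw [GcE_ty_mk (GcE_T1s XA XB YA YB), GcE_ty_mk (GcE_T2s XA XB YA YB),
        GcE_ty_mk (GcE_T3s XA XB YA YB)]
      obtain ⟨x1, x2⟩ := GcE_excl q a b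
      by_cases t1 : GcE_T1 XA XB YA YB a b
      · rw [if_pos t1, if_pos t1, if_neg (x1 t1).1, if_neg (x1 t1).2]
        omega
      · rw [if_neg t1, if_neg t1]
        by_cases t2 : GcE_T2 XA XB YA YB a b
        · rw [if_pos t2, if_neg (x2 t2)]
          omega
        · rw [if_neg t2]
          split_ifs <;> omega
  obtain ⟨Hj, r1, r2, r3, r4, r5⟩ := hn0 V H w hn hwQ
  obtain ⟨cl, c1, c2⟩ := GcE_cl H Hj r1 r2
  have g1 : cg H cl 1 = Hj 0 := c2 0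
  have g2 : cg H cl 2 = Hj 1 := c2 1
  have g3 : cg H cl 3 = Hj 2 := c2 2
  have g4 : cg H cl 4 = Hj 3 := c2 3
  have g5 : cg H cl 5 = Hj 4 := c2 4
  have hT1 : ∀ a b, (Hj 1).Adj a b → GcE_T1 XA XB YA YB a b := by
    intro a b hab
    have h := r3 1 a b hab
    rw [hw_1] at h
    by_contra h'
    rw [if_neg fun h4 => h' ((GcE_ty_mk (GcE_T1s XA XB YA YB) a b).1 h4)] at h
    exact lt_irrefl _ h
  have hT1' : ∀ a b, (Hj 2).Adj a b → GcE_T1 XA XB YA YB a b := by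
    intro a b hab
    have h := r3 2 a b hab
    rw [hw_2] at h
    by_contra h'
    rw [if_neg fun h4 => h' ((GcE_ty_mk (GcE_T1s XA XB YA YB) a b).1 h4)] at h
    exact lt_irrefl _ h
  have hT2 : ∀ a b, (Hj 3).Adj a b → GcE_T2 XA XB YA YB a b := by
    intro a b hab
    have h := r3 3 a b hab
    rw [hw_3] at h
    by_contra h'
    rw [if_neg fun h4 => h' ((GcE_ty_mk (GcE_T2s XA XB YA YB) a b).1 h4)] at h
    exact lt_irrefl _ h
  have hT3 : ∀ a b, (Hj 4).Adj a b → GcE_T3 XA XB YA YB a b := by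
    intro a b hab
    have h := r3 4 a b hab
    rw [hw_4] at h
    by_contra h'
    rw [if_neg fun h4 => h' ((GcE_ty_mk (GcE_T3s XA XB YA YB) a b).1 h4)] at h
    exact lt_irrefl _ h
  -- degrees
  have d0 : ∀ v, |(dg (Hj 0) v : ℝ) - (wR : ℝ) / Q * Δ| ≤ (ρ / 30 + ρH) * Fintype.card V := by
    intro v
    have h := r4 0 v
    have e : ∑ u ∈ univ.filter (fun u => H.Adj v u), (w 0 s(v, u) : ℝ) = dg H v * wR := by
      simp only [hw_0]
      rw [sum_const, nsmul_eq_mul]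
      rfl
    rw [e] at h
    obtain ⟨d1, d2⟩ := hdeg v
    have d1' : (dg H v : ℝ) ≤ Δ := by exact_mod_cast d1
    obtain ⟨r, hr⟩ : ∃ r : ℝ, r = (wR : ℝ) / Q := ⟨_, rfl⟩
    have hr0 : 0 ≤ r := by rw [hr]; positivity
    have hr1 : r ≤ 1 := by
      rw [hr, div_le_one hQ0]
      have : wR ≤ Q := by omega
      exact_mod_cast this
    have e1 : (dg H v : ℝ) * wR / Q = r * dg H v := by rw [hr]; ring
    rw [e1] at h
    rw [← hr]
    rw [abs_le] at h ⊢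
    have a3 : 0 ≤ r * ((Δ : ℝ) - dg H v) := mul_nonneg hr0 (by linarith)
    have a4 : r * ((Δ : ℝ) - dg H v) ≤ ρH * Fintype.card V := by nlinarith
    constructor <;> nlinarith
  have d1 : ∀ v, |(dg (Hj 1) v : ℝ) - (w0 : ℝ) / (4 * Q) * Δ| ≤
      (ρ / 30 + η0 + ρH) * Fintype.card V := by
    intro v
    obtain ⟨Z, hZ1, hZ2⟩ := GcE_n1 q v
    have h := r4 1 v
    simp only [hw_1] at h
    exact GcE_dcl (GcE_T1s XA XB YA YB) (by omega) hQ1 hZ2 h ((hquar Z hZ1).2 v) (hdeg v).1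
      (hdeg v).2
  have d2 : ∀ v, |(dg (Hj 2) v : ℝ) - (w1 : ℝ) / (4 * Q) * Δ| ≤
      (ρ / 30 + η0 + ρH) * Fintype.card V := by
    intro v
    obtain ⟨Z, hZ1, hZ2⟩ := GcE_n1 q v
    have h := r4 2 v
    simp only [hw_2] at h
    exact GcE_dcl (GcE_T1s XA XB YA YB) (by omega) hQ1 hZ2 h ((hquar Z hZ1).2 v) (hdeg v).1
      (hdeg v).2
  have d3 : ∀ v, |(dg (Hj 3) v : ℝ) - (w2 : ℝ) / (4 * Q) * Δ| ≤
      (ρ / 30 + η0 + ρH) * Fintype.card V := by
    intro v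
    obtain ⟨Z, hZ1, hZ2⟩ := GcE_n2 q v
    have h := r4 3 v
    simp only [hw_3] at h
    exact GcE_dcl (GcE_T2s XA XB YA YB) (by omega) hQ1 hZ2 h ((hquar Z hZ1).2 v) (hdeg v).1
      (hdeg v).2
  have d4 : ∀ v, |(dg (Hj 4) v : ℝ) - (w3 : ℝ) / (4 * Q) * Δ| ≤
      (ρ / 30 + η0 + ρH) * Fintype.card V := by
    intro v
    obtain ⟨Z, hZ1, hZ2⟩ := GcE_n3 q v
    have h := r4 4 v
    simp only [hw_4] at h
    exact GcE_dcl (GcE_T3s XA XB YA YB) (by omega) hQ1 hZ2 h ((hquar Z hZ1).2 v) (hdeg v).1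
      (hdeg v).2
  have hnb : ∀ Z, (Z = XA ∨ Z = XB ∨ Z = YA ∨ Z = YB) →
      (Fintype.card V : ℝ) / 5 ≤ Z.card ∧
      ∀ v, α * Fintype.card V / 5 ≤ ((Z.filter fun u => H.Adj v u).card : ℝ) := by
    intro Z hZ
    obtain ⟨z1, z2⟩ := hquar Z hZ
    have hb : η0 * (Fintype.card V : ℝ) ≤ α / 100 * Fintype.card V :=
      mul_le_mul_of_nonneg_right hη2 hN
    have hb' : α / 100 * (Fintype.card V : ℝ) ≤ 1 / 100 * Fintype.card V := by
      refine mul_le_mul_of_nonneg_right ?_ hN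
      linarith
    have hb2 : ρH * (Fintype.card V : ℝ) ≤ α / 10 * Fintype.card V :=
      mul_le_mul_of_nonneg_right hρH2 hN
    constructor
    · have := (abs_le.1 z1).1
      linarith
    · intro v
      have h5 := (abs_le.1 (z2 v)).1
      have h6 := (hdeg v).2
      have h7 : 0 ≤ α * (Fintype.card V : ℝ) := by positivity
      linarith
  have hlow : ∀ A Z, (A = XA ∨ A = XB ∨ A = YA ∨ A = YB) → (Z = XA ∨ Z = XB ∨ Z = YA ∨ Z = YB) →
      α * (Fintype.card V : ℝ) ^ 2 / 25 ≤ ee H A Z := fun A Z hA hZ =>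
    GcE_low H A Z α hα (hnb A hA).1 (hnb Z hZ).2
  have hlam1 : min lam (α / 100) ≤ lam := min_le_left _ _
  have hlam2 : min lam (α / 100) ≤ α / 100 := min_le_right _ _
  have hN2 : (0 : ℝ) ≤ (Fintype.card V : ℝ) ^ 2 := by positivity
  have hlam3 : ∀ A Y : Finset V, lam * (Fintype.card V : ℝ) ^ 2 ≤ ee H A Y →
      min lam (α / 100) * (Fintype.card V : ℝ) ^ 2 ≤ ee H A Y := fun A Y h =>
    (mul_le_mul_of_nonneg_right hlam1 hN2).trans h
  have hlam4 : ∀ A Y : Finset V, α * (Fintype.card V : ℝ) ^ 2 / 25 ≤ ee H A Y →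
      min lam (α / 100) * (Fintype.card V : ℝ) ^ 2 ≤ ee H A Y := fun A Y h => by
    refine le_trans ?_ h
    have h8 := mul_le_mul_of_nonneg_right hlam2 hN2
    have h9 : 0 ≤ α * (Fintype.card V : ℝ) ^ 2 := by positivity
    linarith
  refine ⟨cl, c1, ?_, ?_, ?_, ?_, ?_, ?_, ?_, ?_, ?_, ?_, ?_, ?_, ?_, ?_, ?_⟩
  · rintro j (rfl | rfl) a b hab
    · rw [g2] at hab
      exact hT1 a b hab
    · rw [g3] at hab
      exact hT1' a b hab
  · intro a b hab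
    rw [g4] at hab
    exact hT2 a b hab
  · intro a b hab
    rw [g5] at hab
    exact hT3 a b hab
  · intro v
    have hs := GcE_sum H cl c1 v
    have hs' : dg H v = dg (cg H cl 0) v + dg (Hj 0) v + dg (Hj 1) v + dg (Hj 2) v +
        dg (Hj 3) v + dg (Hj 4) v := by
      rw [hs]
      simp only [sum_range_succ, sum_range_zero, zero_add, g1, g2, g3, g4, g5]
    have hs2 : (dg H v : ℝ) = dg (cg H cl 0) v + dg (Hj 0) v + dg (Hj 1) v + dg (Hj 2) v +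
        dg (Hj 3) v + dg (Hj 4) v := by exact_mod_cast hs'
    obtain ⟨m1, m2⟩ := hdeg v
    have m1' : (dg H v : ℝ) ≤ Δ := by exact_mod_cast m1
    have k0 := abs_le.1 (d0 v)
    have k1 := abs_le.1 (d1 v)
    have k2 := abs_le.1 (d2 v)
    have k3 := abs_le.1 (d3 v)
    have k4 := abs_le.1 (d4 v)
    have e : (1 - (wR : ℝ) / Q - ((w0 : ℝ) + w1 + w2 + w3) / (4 * Q)) * Δ =
        Δ - (wR : ℝ) / Q * Δ - (w0 : ℝ) / (4 * Q) * Δ - (w1 : ℝ) / (4 * Q) * Δ -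
          (w2 : ℝ) / (4 * Q) * Δ - (w3 : ℝ) / (4 * Q) * Δ := by ring
    rw [e]
    have hb1 : ρH * (Fintype.card V : ℝ) ≤ ρ / 30 * Fintype.card V :=
      mul_le_mul_of_nonneg_right hρH1 hN
    have hb2 : η0 * (Fintype.card V : ℝ) ≤ ρ / 30 * Fintype.card V :=
      mul_le_mul_of_nonneg_right hη1 hN
    have hb3 : 0 ≤ ρ / 30 * (Fintype.card V : ℝ) := by positivity
    rw [abs_le]
    constructor <;> linarith [k0.1, k0.2, k1.1, k1.2, k2.1, k2.2, k3.1, k3.2, k4.1, k4.2]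
  · intro v
    rw [g1]
    refine (d0 v).trans (mul_le_mul_of_nonneg_right ?_ hN)
    linarith
  · intro v
    rw [g2]
    refine (d1 v).trans (mul_le_mul_of_nonneg_right ?_ hN)
    linarith
  · intro v
    rw [g3]
    refine (d2 v).trans (mul_le_mul_of_nonneg_right ?_ hN)
    linarith
  · intro v
    rw [g4]
    refine (d3 v).trans (mul_le_mul_of_nonneg_right ?_ hN)
    linarith
  · intro v
    rw [g5]
    refine (d4 v).trans (mul_le_mul_of_nonneg_right ?_ hN)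
    linarith
  · intro A Y hAY
    rw [g1]
    have h := r5 0 wR A Y hR
    have e : ((A ×ˢ Y).filter fun x => H.Adj x.1 x.2 ∧ wR ≤ w 0 s(x.1, x.2)).card = ee H A Y := by
      unfold ee
      refine congrArg Finset.card (filter_congr fun x _ => ?_)
      rw [hw_0]
      exact ⟨fun h => h.1, fun h => ⟨h, le_refl _⟩⟩
    rw [e] at h
    exact h (hlam3 A Y hAY)
  · intro A Y hT hAY
    rw [g3]
    have h := r5 2 w1 A Y h1
    simp only [hw_2] at h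
    rw [GcE_ee (GcE_T1s XA XB YA YB)] at h
    · exact h (hlam3 A Y hAY)
    · intro a ha b hb
      unfold GcE_T1
      rcases hT with hT | hT | hT | hT
      · exact Or.inl ⟨hT.1 ha, hT.2 hb⟩
      · exact Or.inr (Or.inl ⟨hT.1 ha, hT.2 hb⟩)
      · exact Or.inr (Or.inr (Or.inl ⟨hT.1 ha, hT.2 hb⟩))
      · exact Or.inr (Or.inr (Or.inr ⟨hT.1 ha, hT.2 hb⟩))
  · intro Z hZ
    rw [g4]
    have h := r5 3 w2 Z Z h2
    simp only [hw_3] at h
    have hl := hlow Z Z hZ hZ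
    rw [GcE_ee (GcE_T2s XA XB YA YB)] at h
    · refine le_trans ?_ (h (hlam4 Z Z hl))
      have h8 : (0 : ℝ) ≤ (w2 : ℝ) / (4 * Q) := by positivity
      have h9 := mul_le_mul_of_nonneg_left hl h8
      refine le_trans (le_of_eq ?_) h9
      ring
    · intro a ha b hb
      unfold GcE_T2
      rcases hZ with rfl | rfl | rfl | rfl
      · exact Or.inl ⟨ha, hb⟩
      · exact Or.inr (Or.inl ⟨ha, hb⟩)
      · exact Or.inr (Or.inr (Or.inl ⟨ha, hb⟩))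
      · exact Or.inr (Or.inr (Or.inr ⟨ha, hb⟩))
  · rw [g5]
    have h := r5 4 w3 XA YA h3
    simp only [hw_4] at h
    have hl := hlow XA YA (Or.inl rfl) (Or.inr (Or.inr (Or.inl rfl)))
    rw [GcE_ee (GcE_T3s XA XB YA YB) fun a ha b hb => Or.inl ⟨ha, hb⟩] at h
    refine le_trans ?_ (h (hlam4 XA YA hl))
    have h8 : (0 : ℝ) ≤ (w3 : ℝ) / (4 * Q) := by positivity
    have h9 := mul_le_mul_of_nonneg_left hl h8
    refine le_trans (le_of_eq ?_) h9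
    ring
  · rw [g5]
    have h := r5 4 w3 XB YB h3
    simp only [hw_4] at h
    have hl := hlow XB YB (Or.inr (Or.inl rfl)) (Or.inr (Or.inr (Or.inr rfl)))
    rw [GcE_ee (GcE_T3s XA XB YA YB)
      fun a ha b hb => Or.inr (Or.inr (Or.inl ⟨ha, hb⟩))] at h
    refine le_trans ?_ (h (hlam4 XB YB hl))
    have h8 : (0 : ℝ) ≤ (w3 : ℝ) / (4 * Q) := by positivity
    have h9 := mul_le_mul_of_nonneg_left hl h8
    refine le_trans (le_of_eq ?_) h9
    ring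
  · rw [g5]
    have h := GcE_diff (Hj 4) XA YA XB YB ((w3 : ℝ) / (4 * Q) * Δ) (ρ / 30 + η0 + ρH)
      (by positivity) d4 ?_ ?_ q.cX
    · refine h.trans (mul_le_mul_of_nonneg_right ?_ hN2)
      linarith
    · intro a ha b hab
      have h8 := hT3 a b hab
      unfold GcE_T3 at h8
      have h9 := GcE_mem q a
      tauto
    · intro a ha b hab
      have h8 := hT3 a b hab
      unfold GcE_T3 at h8
      have h9 := GcE_mem q a
      tauto

end Pool.Agent.H71.TD
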