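import Mathlib
import Pool.Agent.H71.TD.Defs
import Pool.Agent.H71.DR.Exk
import Pool.Agent.H71.DR.InD
import Pool.Agent.H71.DC.C3l

/-!
ST1: a batch of `B` labels with exactly perfect matchings outside small sets, for graphs with expansion. Use the STATEMENTS of `inD` (`DR/InD.lean`), `cxk` (`DR/Exk.lean`), `natf` (`DX/Nff.lean`), `nft` (`DC/C3l.lean`). Model for
the numerics: `params3` (`DR/Nm3.lean`) and its lemmas `nm3_*` (for example for the choice of `t` with `n s^t < t!`).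

Proof (`n = #V`).  `k := ⌈2/ν⌉₊`, `N := 4 k + 10`. Put `D := ⌊q0 n / 2⌋`, `m := ⌈2 lam n / α⌉`, `ζ := ⌈2 lam n / α⌉ + ⌈lam n⌉`-like (at most `(3 lam / α) n + 2`), `q := ⌊min (ν/4) (α/8) n⌋ - 3`, `β := ⌊χ n⌋` with a small
constant `χ ≤ lam / 100`, `β2 := ⌊χ n / 2⌋`, `S0 := ⌊q0 n / 8⌋`, `ζ0 := ⌊(lam / α) n⌋` (and `≥ 1`), `e0 := ⌈ρ n⌉ + 2`, `s := ⌈κ n⌉`, `t` with `n s^t < t!` and `t ≤ 7 κ n + 1` (for large `n`), `S := S0 + (e0 + t)`, `T := N (n (e0 + t))`. With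
`ρ, κ` small compared with `χ, q0, lam, x, α, 1/N` all the conditions hold:
 * `N' := 1 + max dg G0`; `natf G0 N' ζ0 e0` gives `K ≥ N' - n e0 / ζ0 ≥ N' - x n ≥ B` (`e0 ≤ x (lam/α) n - 1`..) and a natural family; `nft` truncates it to `B` labels.
 * `h1`: `ζ + 2 β + m ≤ D` as `lam / α ≤ q0 / 16`; `h2`: `ζ + 2 β + 1 ≤ q` as `lam / α ≤ ν / 64, α / 64` (so `3 lam/α ≤ (3/64) min ν α`; `q` is about `(1/8) min (2 ν) α`).
 * `inD`: `hβ`: `κ n + β2 ≤ β`; `hζ`: `ζ0 + κ n ≤ ζ`; `hT`: `N n (e0 + t) ≤ S0 β2`. `cxk` (`Gs := Gs`, `R := R`): `hR1`: `D + S ≤ q0 n ≤ dg R v`; `hT`: `T + (4 k + 12) n < q0 lam n²`.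
 `inD`'s hypothesis `hR` is the first conclusion of `cxk`.
-/

set_option autoImplicit false

namespace Pool.Agent.H71.TD

open Finset Classical
open Pool.Agent.H71.DN Pool.Agent.H71.DX Pool.Agent.H71.DR Pool.Agent.H71.HL Pool.Agent.H71.DC

/-- The numerical part of `st1`. `n` is the number of vertices, `y = q0 c`, `c = lam n / 100`, `z = lam n / α`. -/
theorem st1_nums (n NN ζ0 ζ β β2 m q D s S0 e0 : ℕ) (y z c a b g h r u : ℝ) (hNN : 14 ≤ NN)
    (hy : 10 ^ 6 * NN ≤ y) (hyc : y ≤ c) (hcz : 100 * c ≤ z) (hcn : c ≤ n)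
    (ha : 64 * z ≤ a) (hb : 64 * z ≤ b) (hg : g = min a b) (hh : 16 * z ≤ h) (hhy : h * c = y * n)
    (hr0 : 0 ≤ r) (hr : 1000 * (NN * r) ≤ y) (hu0 : 0 ≤ u) (hu : 10000 * (NN * u) ≤ y)
    (hζ1 : z ≤ ζ0) (hζ2 : (ζ0 : ℝ) ≤ z + 1)
    (hz1 : 3 * z ≤ ζ) (hz2 : (ζ : ℝ) ≤ 3 * z + 1)
    (hβ1 : c < β + 1) (hβ2 : (β : ℝ) ≤ c) (hb1 : c / 2 < β2 + 1) (hb2 : (β2 : ℝ) ≤ c / 2)
    (hm2 : (m : ℝ) ≤ 2 * z + 1) (hq1 : g / 10 < q + 1) (hq2 : (q : ℝ) ≤ g / 10)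
    (hD1 : h / 2 < D + 1) (hD2 : (D : ℝ) ≤ h / 2)
    (hs2 : (s : ℝ) ≤ u + 1) (hS1 : h / 8 < S0 + 1) (hS2 : (S0 : ℝ) ≤ h / 8)
    (he2 : (e0 : ℝ) ≤ r + 3) :
    0 < S0 ∧ ζ + 2 * β + m ≤ D ∧ ζ + 2 * β + 1 ≤ q ∧ (q : ℝ) + 2 ≤ a / 4 ∧ (q : ℝ) + 2 ≤ b / 8 ∧
      u + β2 ≤ β ∧ (ζ0 : ℝ) + u ≤ ζ ∧ NN * (n * (e0 + 12 * s)) ≤ S0 * β2 ∧
      ((D + (S0 + (e0 + 12 * s)) : ℕ) : ℝ) ≤ h ∧
      ((NN * (n * (e0 + 12 * s)) : ℕ) : ℝ) + 2 * (NN * n) < 100 * (n * y) := by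
  have hNr : (14 : ℝ) ≤ NN := by exact_mod_cast hNN
  have hy0 : 14 * 10 ^ 6 ≤ y := by linarith
  have hc0 : 14 * 10 ^ 6 ≤ c := by linarith
  have hz0 : 14 * 10 ^ 8 ≤ z := by linarith
  have hn0 : 14 * 10 ^ 6 ≤ (n : ℝ) := by linarith
  have hga : g ≤ a := by rw [hg]; exact min_le_left _ _
  have hgb : g ≤ b := by rw [hg]; exact min_le_right _ _
  have hgz : 64 * z ≤ g := by rw [hg]; exact le_min ha hb
  have hr1 : r ≤ y := by
    have h1 : 14 * r ≤ NN * r := mul_le_mul_of_nonneg_right hNr hr0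
    linarith
  have hu1 : 10000 * u ≤ y := by
    have h1 : 14 * u ≤ NN * u := mul_le_mul_of_nonneg_right hNr hu0
    linarith
  have hr2 : 14000 * r ≤ y := by
    have h1 : 14 * r ≤ NN * r := mul_le_mul_of_nonneg_right hNr hr0
    linarith
  have hu2 : 140000 * u ≤ y := by
    have h1 : 14 * u ≤ NN * u := mul_le_mul_of_nonneg_right hNr hu0
    linarith
  have hE : (e0 : ℝ) + 12 * s ≤ r + 12 * u + 15 := by linarith
  have hNE : (NN : ℝ) * (e0 + 12 * s) ≤ y / 300 := by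
    have h1 : (NN : ℝ) * (e0 + 12 * s) ≤ NN * (r + 12 * u + 15) :=
      mul_le_mul_of_nonneg_left hE (by linarith)
    have h2 : (NN : ℝ) * (r + 12 * u + 15) = NN * r + 12 * (NN * u) + 15 * NN := by ring
    rw [h2] at h1
    linarith
  have hNnE : (NN : ℝ) * (n * (e0 + 12 * s)) ≤ n * (y / 300) := by
    have h1 : (NN : ℝ) * (n * (e0 + 12 * s)) = n * (NN * (e0 + 12 * s)) := by ring
    rw [h1]
    exact mul_le_mul_of_nonneg_left hNE (by linarith)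
  refine ⟨?_, ?_, ?_, ?_, ?_, ?_, ?_, ?_, ?_, ?_⟩
  · have h1 : ((0 : ℕ) : ℝ) < S0 := by push_cast; linarith
    exact_mod_cast h1
  · have h1 : ((ζ + 2 * β + m : ℕ) : ℝ) ≤ (D : ℕ) := by push_cast; linarith
    exact_mod_cast h1
  · have h1 : ((ζ + 2 * β + 1 : ℕ) : ℝ) ≤ (q : ℕ) := by push_cast; linarith
    exact_mod_cast h1
  · linarith
  · linarith
  · linarith
  · linarith
  · have h1 : (h / 16) * (c / 4) ≤ (S0 : ℝ) * β2 :=
      mul_le_mul (by linarith) (by linarith) (by linarith) (by linarith)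
    have h2 : (h / 16) * (c / 4) = n * (y / 64) := by
      have h3 : (h / 16) * (c / 4) = (h * c) / 64 := by ring
      rw [h3, hhy]
      ring
    have h4 : (n : ℝ) * (y / 300) ≤ n * (y / 64) :=
      mul_le_mul_of_nonneg_left (by linarith) (by linarith)
    have h5 : ((NN * (n * (e0 + 12 * s)) : ℕ) : ℝ) ≤ ((S0 * β2 : ℕ) : ℝ) := by
      push_cast
      linarith
    exact_mod_cast h5
  · push_cast
    linarith
  · push_cast
    have h1 : 2 * ((NN : ℝ) * n) ≤ n * y := by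
      have h2 : 2 * ((NN : ℝ) * n) = n * (2 * NN) := by ring
      rw [h2]
      exact mul_le_mul_of_nonneg_left (by linarith) (by linarith)
    have h3 : 0 < (n : ℝ) * y := by positivity
    linarith

theorem st1 (α ν lam q0 x : ℝ) (hα : 0 < α) (hα1 : α ≤ 1) (hν : 0 < ν) (hν1 : ν ≤ 1)
    (hl : 0 < lam) (hq : 0 < q0) (hq1 : q0 ≤ 1) (hx : 0 < x) (hl1 : 16 * lam ≤ α * q0)
    (hl2 : 64 * lam ≤ α * ν) (hl3 : 64 * lam ≤ α ^ 2) :
    ∃ (κ ρ : ℝ) (n0 : ℕ), 0 < κ ∧ 0 < ρ ∧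
      ∀ (V : Type) [Fintype V] (Gs G0 R : SimpleGraph V) (B : ℕ), n0 ≤ Fintype.card V →
        Xc Gs α ν lam → (∀ a b, G0.Adj a b → ¬ R.Adj a b) →
        (∀ v, q0 * Fintype.card V ≤ (dg R v : ℝ)) →
        (∀ A Y : Finset V, lam * (Fintype.card V : ℝ) ^ 2 ≤ ee Gs A Y →
          q0 * (lam * (Fintype.card V : ℝ) ^ 2) ≤ ee R A Y) →
        (∀ v, (B : ℝ) + x * Fintype.card V ≤ dg G0 v) →
        (∀ u v, (dg G0 u : ℝ) ≤ dg G0 v + ρ * Fintype.card V) →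
        ∀ U : ℕ → Finset V, (∀ ℓ < B, ((U ℓ).card : ℝ) ≤ κ * Fintype.card V) →
          (∀ v, (mul B U v : ℝ) ≤ κ * Fintype.card V) →
          (∀ ℓ < B, Even (univ \ U ℓ).card) →
          ∃ mm : ℕ → V → V, PM (G0 ⊔ R) B U mm ∧ ∀ ℓ < B, ∀ v, v ∉ U ℓ → mm ℓ v ≠ v := by
  have hα' : lam ≤ α * ν := by nlinarith
  obtain ⟨k, hk⟩ : ∃ k : ℕ, k = ⌈2 / ν⌉₊ := ⟨_, rfl⟩
  have hkν : 2 ≤ k * ν := by
    have h1 : 2 / ν ≤ (k : ℝ) := by
      rw [hk]
      exact Nat.le_ceil _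
    rwa [div_le_iff₀ hν] at h1
  have hk1 : 1 ≤ k := by
    by_contra h
    have h0 : k = 0 := by omega
    rw [h0] at hkν
    push_cast at hkν
    linarith
  obtain ⟨NN, hNN⟩ : ∃ NN : ℕ, NN = 4 * k + 10 := ⟨_, rfl⟩
  have hNN14 : 14 ≤ NN := by omega
  have hNr : (14 : ℝ) ≤ NN := by exact_mod_cast hNN14
  have hN0 : (0 : ℝ) < NN := by linarith
  obtain ⟨χ, hχ⟩ : ∃ χ : ℝ, χ = lam / 100 := ⟨_, rfl⟩
  have hχ0 : 0 < χ := by rw [hχ]; positivity
  obtain ⟨κ, hκ⟩ : ∃ κ : ℝ, κ = q0 * χ / (10000 * NN) := ⟨_, rfl⟩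
  have hκ0 : 0 < κ := by rw [hκ]; positivity
  obtain ⟨ρ, hρ⟩ : ∃ ρ : ℝ, ρ = min (q0 * χ / (1000 * NN)) (x * lam / 2) := ⟨_, rfl⟩
  have hρ0 : 0 < ρ := by rw [hρ]; positivity
  have hκ1 : 10000 * (NN * κ) ≤ q0 * χ := by
    rw [hκ]
    have : 10000 * ((NN : ℝ) * (q0 * χ / (10000 * NN))) = q0 * χ := by field_simp
    linarith
  have hρ1 : 1000 * (NN * ρ) ≤ q0 * χ := by
    have h1 : ρ ≤ q0 * χ / (1000 * NN) := by rw [hρ]; exact min_le_left _ _
    rw [le_div_iff₀ (by positivity)] at h1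
    linarith
  have hρ2 : ρ ≤ x * lam / 2 := by rw [hρ]; exact min_le_right _ _
  obtain ⟨nF, hnF⟩ := fact12 κ hκ0
  refine ⟨κ, ρ, max nF (max ⌈10 ^ 6 * NN / (q0 * χ)⌉₊ ⌈6 / (x * lam)⌉₊), hκ0, hρ0, ?_⟩
  intro V _ Gs G0 R B hn hX hGR hR1 hR2 hB hGreg U hU hmul hev
  have hnF1 : nF ≤ Fintype.card V := (le_max_left _ _).trans hn
  have hn2 : ⌈10 ^ 6 * NN / (q0 * χ)⌉₊ ≤ Fintype.card V :=
    ((le_max_left _ _).trans (le_max_right _ _)).trans hn
  have hn3 : ⌈6 / (x * lam)⌉₊ ≤ Fintype.card V :=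
    ((le_max_right _ _).trans (le_max_right _ _)).trans hn
  set n : ℕ := Fintype.card V with hnd
  have hy : 10 ^ 6 * (NN : ℝ) ≤ q0 * χ * n := by
    have h1 : 10 ^ 6 * NN / (q0 * χ) ≤ (n : ℝ) := (Nat.le_ceil _).trans (by exact_mod_cast hn2)
    rw [div_le_iff₀ (by positivity)] at h1
    linarith
  have hxl : 6 ≤ x * lam * n := by
    have h1 : 6 / (x * lam) ≤ (n : ℝ) := (Nat.le_ceil _).trans (by exact_mod_cast hn3)
    rw [div_le_iff₀ (by positivity)] at h1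
    linarith
  have hn0 : (0 : ℝ) < n := by
    have hn0' : (0 : ℝ) ≤ n := Nat.cast_nonneg n
    rcases eq_or_lt_of_le hn0' with h | h
    · rw [← h] at hxl
      linarith
    · exact h
  have hnpos : 0 < n := by exact_mod_cast hn0
  -- sizes
  obtain ⟨z, hz⟩ : ∃ z : ℝ, z = lam / α * n := ⟨_, rfl⟩
  obtain ⟨c, hc⟩ : ∃ c : ℝ, c = χ * n := ⟨_, rfl⟩
  obtain ⟨y, hyd⟩ : ∃ y : ℝ, y = q0 * χ * n := ⟨_, rfl⟩
  have hzα : α * z = lam * n := by
    rw [hz]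
    field_simp
  have hz0 : 0 < z := by rw [hz]; positivity
  have hc0 : 0 < c := by rw [hc]; positivity
  have hlz : lam * n ≤ z := by
    have h1 : α * z ≤ 1 * z := mul_le_mul_of_nonneg_right hα1 hz0.le
    linarith
  have hcz : 100 * c ≤ z := by
    have h1 : 100 * c = lam * n := by rw [hc, hχ]; ring
    linarith
  have hyc : y ≤ c := by
    have h1 : q0 * c ≤ 1 * c := mul_le_mul_of_nonneg_right hq1 hc0.le
    have h2 : y = q0 * c := by rw [hyd, hc]; ring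
    linarith
  have hαν : α * ν ≤ 1 := by nlinarith
  have hlam1 : lam ≤ 1 := by linarith
  have hcn : c ≤ n := by
    have h1 : lam * n ≤ 1 * n := mul_le_mul_of_nonneg_right hlam1 hn0.le
    have h2 : 100 * c = lam * n := by rw [hc, hχ]; ring
    linarith
  have hνz : 64 * z ≤ ν * n := by
    have h1 : α * (64 * z) ≤ α * (ν * n) := by
      have h2 : α * (64 * z) = 64 * lam * n := by
        have : α * (64 * z) = 64 * (α * z) := by ring
        rw [this, hzα]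
        ring
      have h3 : 64 * lam * n ≤ α * ν * n := mul_le_mul_of_nonneg_right hl2 hn0.le
      rw [h2]
      linarith
    exact le_of_mul_le_mul_left h1 hα
  have hαz : 64 * z ≤ α * n := by
    have h1 : α * (64 * z) ≤ α * (α * n) := by
      have h2 : α * (64 * z) = 64 * lam * n := by
        have : α * (64 * z) = 64 * (α * z) := by ring
        rw [this, hzα]
        ring
      have h3 : 64 * lam * n ≤ α ^ 2 * n := mul_le_mul_of_nonneg_right hl3 hn0.le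
      rw [h2]
      have h4 : α ^ 2 * (n : ℝ) = α * (α * n) := by ring
      linarith
    exact le_of_mul_le_mul_left h1 hα
  have hqz : 16 * z ≤ q0 * n := by
    have h1 : α * (16 * z) ≤ α * (q0 * n) := by
      have h2 : α * (16 * z) = 16 * lam * n := by
        have : α * (16 * z) = 16 * (α * z) := by ring
        rw [this, hzα]
        ring
      have h3 : 16 * lam * n ≤ α * q0 * n := mul_le_mul_of_nonneg_right hl1 hn0.le
      rw [h2]
      linarith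
    exact le_of_mul_le_mul_left h1 hα
  -- the natural numbers
  obtain ⟨ζ0, hζ1, hζ2⟩ := nmb_ceil z hz0.le
  obtain ⟨ζ, hz1, hz2⟩ := nmb_ceil (3 * z) (by positivity)
  obtain ⟨m, hm1, hm2⟩ := nmb_ceil (2 * z) (by positivity)
  obtain ⟨β, hβ2, hβ1⟩ := nmb_floor c hc0.le
  obtain ⟨β2, hb2, hb1⟩ := nmb_floor (c / 2) (by positivity)
  obtain ⟨g, hg⟩ : ∃ g : ℝ, g = min (ν * n) (α * n) := ⟨_, rfl⟩
  have hg0 : 0 ≤ g := by rw [hg]; positivity
  obtain ⟨q, hq2, hq1'⟩ := nmb_floor (g / 10) (by positivity)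
  obtain ⟨D, hD2, hD1⟩ := nmb_floor (q0 * n / 2) (by positivity)
  obtain ⟨S0, hS2, hS1⟩ := nmb_floor (q0 * n / 8) (by positivity)
  obtain ⟨s, hs1, hs2⟩ := nmb_ceil (κ * n) (by positivity)
  obtain ⟨e', he1, he2⟩ := nmb_ceil (ρ * n) (by positivity)
  obtain ⟨e0, he0⟩ : ∃ e0 : ℕ, e0 = e' + 2 := ⟨_, rfl⟩
  have her : (e0 : ℝ) = e' + 2 := by rw [he0]; push_cast; ring
  obtain ⟨p1, p2, p3, p4, p5, p6, p7, p8, p9, p10⟩ :=
    st1_nums n NN ζ0 ζ β β2 m q D s S0 e0 y z c (ν * n) (α * n) g (q0 * n) (ρ * n) (κ * n) hNN14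
      (by rw [hyd]; exact hy) hyc hcz hcn hνz hαz hg hqz (by rw [hc, hyd]; ring) (by positivity)
      (by
        have h1 := mul_le_mul_of_nonneg_right hρ1 hn0.le
        rw [hyd]
        linarith) (by positivity)
      (by
        have h1 := mul_le_mul_of_nonneg_right hκ1 hn0.le
        rw [hyd]
        linarith)
      hζ1 hζ2 hz1 hz2 hβ1 hβ2 hb1 hb2 hm2 hq1' hq2 hD1 hD2 hs2 hS1 hS2 (by linarith)
  -- the natural family
  have hVne : Nonempty V := Fintype.card_pos_iff.1 (by rw [← hnd]; exact hnpos)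
  obtain ⟨v0, -, hv0⟩ := Finset.exists_max_image (univ : Finset V) (fun v => dg G0 v)
    Finset.univ_nonempty
  have hζ0p : 1 ≤ ζ0 := by
    have h1 : ((0 : ℕ) : ℝ) < ζ0 := by push_cast; linarith
    have h2 : 0 < ζ0 := by exact_mod_cast h1
    omega
  obtain ⟨K, νf, hK1, hK2, hνf⟩ := natf G0 (dg G0 v0 + 1) ζ0 e0 hζ0p
    (by
      intro v
      have h1 := hv0 v (Finset.mem_univ v)
      omega)
    (by
      intro v
      have h1 := hGreg v0 v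
      have h2 : ((dg G0 v0 + 1 : ℕ) : ℝ) ≤ ((dg G0 v + e0 : ℕ) : ℝ) := by
        push_cast
        linarith
      exact_mod_cast h2)
  rw [← hnd] at hK2 hνf
  have hBK : B ≤ K := by
    have h1 := hB v0
    have h2 : ((n * e0 / ζ0 : ℕ) : ℝ) ≤ x * n := by
      have h3 : (n * e0 / ζ0) * ζ0 ≤ n * e0 := Nat.div_mul_le_self _ _
      have h4 : ((n * e0 / ζ0 : ℕ) : ℝ) * ζ0 ≤ n * e0 := by exact_mod_cast h3
      have h5 : (n : ℝ) * e0 ≤ n * (x * lam * n) := by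
        refine mul_le_mul_of_nonneg_left ?_ hn0.le
        have h6 := mul_le_mul_of_nonneg_right hρ2 hn0.le
        have h7 : x * lam / 2 * (n : ℝ) = x * lam * n / 2 := by ring
        linarith
      have h8 : (n : ℝ) * (x * lam * n) ≤ x * n * ζ0 := by
        have h9 : (n : ℝ) * (x * lam * n) = x * n * (lam * n) := by ring
        rw [h9]
        refine mul_le_mul_of_nonneg_left ?_ (by positivity)
        linarith
      have hζr : (0 : ℝ) < ζ0 := by linarith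
      have h10 : ((n * e0 / ζ0 : ℕ) : ℝ) * ζ0 ≤ x * n * ζ0 := by linarith
      exact le_of_mul_le_mul_right h10 hζr
    have h3 : ((dg G0 v0 + 1 : ℕ) : ℝ) ≤ ((K + n * e0 / ζ0 : ℕ) : ℝ) := Nat.cast_le.2 hK2
    rw [Nat.cast_add K, Nat.cast_add (dg G0 v0), Nat.cast_one] at h3
    have h4 : (B : ℝ) ≤ (K : ℝ) := by linarith
    exact_mod_cast h4
  have hνt := nft G0 K B ζ0 e0 (n * e0 / ζ0) νf hνf hBK
  have hcon : ∀ F : SimpleGraph V, F ≤ R → (∀ v, dg R v ≤ dg F v + (S0 + (e0 + 12 * s))) →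
      (∀ A B, ee R A B ≤ ee F A B + NN * (Fintype.card V * (e0 + 12 * s))) →
      Con F ζ β NN := by
    intro F _ hF1 hF2
    have hcx := cxk Gs R F α ν lam q0 D m k q ζ β (S0 + (e0 + 12 * s))
      (NN * (Fintype.card V * (e0 + 12 * s))) hα hα1 hν hl hX hkν ?_ hR2 hF1 hF2 ?_ ?_ ?_ ?_ ?_ p2 p3
    · rw [hNN]
      exact hcx.1
    · intro v
      have h1 := p9.trans (hR1 v)
      exact_mod_cast h1
    · rw [← hnd]
      have hNNk : (4 * (k : ℝ) + 12) * n ≤ 2 * (NN * n) := by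
        have h1 : (4 * (k : ℝ) + 12) ≤ 2 * NN := by
          have h2 : (NN : ℝ) = 4 * k + 10 := by rw [hNN]; push_cast; ring
          rw [h2]
          have : (0 : ℝ) ≤ k := Nat.cast_nonneg _
          linarith
        have h3 := mul_le_mul_of_nonneg_right h1 hn0.le
        linarith
      have h4 : 100 * ((n : ℝ) * y) = q0 * (lam * (n : ℝ) ^ 2) := by
        rw [hyd, hχ]
        ring
      rw [← h4]
      linarith
    · rw [← hnd]
      have h1 : α / 2 * (2 * z) ≤ α / 2 * (m : ℝ) := mul_le_mul_of_nonneg_left hm1 (by positivity)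
      have h2 : α / 2 * (2 * z) = α * z := by ring
      linarith
    · rw [← hnd]
      have h1 : α / 2 * (3 * z) ≤ α / 2 * (ζ : ℝ) := mul_le_mul_of_nonneg_left hz1 (by positivity)
      have h2 : α / 2 * (3 * z) = 3 / 2 * (α * z) := by ring
      have h3 : 0 < α * z := by positivity
      linarith
    · rw [← hnd]
      linarith
    · rw [← hnd]
      linarith
  obtain ⟨mm, F1, hPM, hcov, -⟩ := inD G0 R hGR B ζ0 e0 (n * e0 / ζ0 + (K - B)) s (12 * s) NN νf hνt U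
    (by
      intro v
      have h1 : ((mul B U v : ℕ) : ℝ) ≤ ((s : ℕ) : ℝ) := (hmul v).trans hs1
      exact_mod_cast h1)
    (by
      rw [← hnd]
      exact hnF n s hnF1 hs1)
    ζ β β2 S0 p1 hcon
    (by
      intro ℓ hℓ
      have h1 := hU ℓ hℓ
      have h2 : (((U ℓ).card + β2 : ℕ) : ℝ) ≤ (β : ℕ) := by
        push_cast
        linarith
      exact_mod_cast h2)
    (by
      intro ℓ hℓ
      have h1 := hU ℓ hℓ
      have h2 : ((ζ0 + (U ℓ).card : ℕ) : ℝ) ≤ (ζ : ℕ) := by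
        push_cast
        linarith
      exact_mod_cast h2)
    (by
      rw [← hnd]
      exact p8)
    hev
  exact ⟨mm, hPM, hcov⟩
end Pool.Agent.H71.TD
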