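import Mathlib
import Pool.Agent.H71.TD.Ct1E
import Pool.Agent.H71.TD.PtQ
import Pool.Agent.H71.TD.GcE
import Pool.Agent.H71.TD.St1

/-!
CT2E: the decomposition of an expanding part. Numerics: use only the STATEMENTS of `ct1E` (`TD/Ct1E.lean`), `ptQ` (`TD/PtQ.lean`), `gcE` (`TD/GcE.lean`), `st1` (`TD/St1.lean`).

Proof (`n = #V`, `θ := 1 / (12 g)`, `t := Δ / (12 g)`, so `θ Δ - 1 < t ≤ θ Δ`, `θ c n - 1 < t`; `L := Δ + 2`).
(a) `ptQ` with `α := c / 2`, `ν := x`, `lam0 := x`, `q0 := c θ / 2`, `x := c θ / 20`, `y := 1 / 4` gives `κP, ρP, ηP, lamP, KP, nP`. (Later `P = Q = univ`; `c / 2 n ≤ dg H v`.)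
(b) `N1` (natural, `≥ 2`) so large that `δ := θ / N1` satisfies `δ ≤ θ c² / 10^4`, `δ ≤ κP θ c / 100`, `δ ≤ θ c / 30`. `N2 ≥ 2` so large that `ε1 := δ / N2` satisfies `ε1 ≤ δ θ c² / 10^6`. Weights: `Q := 480 g N1 N2`, `wR := 10`, `w0 := 336 N1 N2`, `w1 := 144 N1 N2 - 80 N2 - 160`, `w2 := w3 := 40 N2`. So
 `wR / Q = ε1 / 4 =: r`, `w0 / (4 Q) = 2.1 θ`, `w1 / (4 Q) = 0.9 θ - δ/2 - ε1 ≥ θ / 2`, `w2 / Q = w3 / Q = δ`, `1 - wR/Q - (w0 + w1 + w2 + w3)/(4 Q) = 1 - 3 θ + ε1 - r`.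
(c) `q1 := c ε1 / 32`, `x1 := c ε1 / 4`, `lam1 := min x (min ((c/2) q1 / 16) (min ((c/2) x / 64) ((c/2)² / 64)))`; `st1 (c/2) x lam1 q1 x1` gives `κ1, ρ1, n1`. `gcE Q wR w0 w1 w2 w3 c ρ' lam'` with `lam' := min lamP lam1` and a small `ρ' ≤ ρ1 / 2, ρP / 2, ...` gives `ρH, ηH, n2`. `K0 := KP`, `η := min ηP (ηH / 4)`,
 `κ, ρ` small (`ρ ≤ ρH, κ1 / 2, ...`).
(d) For a given graph: `#Z` and the degrees into the quarters `Z` from `SmPQ` with a constant `b` and `i = K0` resp. `i = 0` (as `smpl_card`, `smpl_deg` in `DR/Fam.lean`). `gcE` gives `cl`. Numbers: `s := ⌈ρ n⌉₊ + 2` (`mul L U v = L - dg H v ≤ ρ n + 2`), `u := ⌊κ n⌋₊`, `d := ⌊δ n⌋₊` (`(δ/4) Δ + ρ' n ≤ δ n - 1` as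
 `Δ ≤ 2 n`), `d0 := ⌈4 ε1 n⌉₊`, `cap0 := ⌈(32 ε1 / (θ c)) n⌉₊ + 2`, `a0 := ⌈(2 ρ' / (θ c)) n⌉₊ + 1`, `a := u + cap0 + a0 + 4 ≤ (δ c / 10^4) n`, `cap := ⌈(8 δ / (θ c)) n⌉₊ + 4`.
 * `hd0`: `dg (cg 0) + dg (cg 1) + mul ≤ (1 - 3 θ + ε1) Δ + 2 ρ' n + s ≤ d0 + (Δ + 2 - 3 t)` as `3 t ≤ 3 θ Δ` and `ε1 Δ ≤ 2 ε1 n`.
 * `hs1`: `st1` with `Gs := H`, `G0 := cg 0`, `R := cg 1`, `B := L - 3 t`: `B + x1 n ≤ Δ + 2 - 3 θ Δ + 3 + x1 n ≤ (1 - 3 θ + ε1 - r) Δ - ρ' n` as `(3/4) ε1 c n ≥ x1 n + ρ' n + 5`. `Xc H (c/2) x lam1` follows from `XP H (c/128) x x` (`c/8 ≥ c/128`, `1 - c/16 ≤ 1 - c/128`).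
   Reserve: `dg (cg 1) v ≥ r Δ - ρ' n ≥ q1 n`, `ee (cg 1) A Y ≥ (wR/(4 Q)) ee H A Y = (ε1/16) ee H A Y ≥ q1 lam1 n²`. `Even`: for `U (3 t + ℓ)`.
 * `hX`, `hY`: `ptQ` with `P = Q = univ`, `K := 2 t`, `t1 := t`: `dg (bt (cg 2) XA XB) v = dg (cg 2) v ≥ 2.1 θ Δ - ρ' n ≥ 2 t + (c θ / 20) n` for `v ∈ XA ∪ XB`; `dg (cg 3) v ≥ (θ/2) c n`; `u + (cap0 + 3 cap) ≤ κP n`, `s + d0 + 2 d ≤ κP n`.
 * `hK0`: `n d0 / (cap0 - 1) ≤ (θ c / 7) n`; `hK`: `n d / (cap - 3) ≤ (θ c / 7) n`, `12 d + 4 s + 4 d0 ≤ t / 2`. `h3`: `ρ' n² ≤ t a0`.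
 * `hb2`: `ee (cg 4) Z Z ≥ δ c n² / 100`, `4 cap d ≤ 33 δ² / (θ c) n² + ... ≤ δ c n² / 250`, `6 t a + 2 (u + cap0 + 2 a) d ≤ 12 θ n a + 6 a d + ... ≤ δ c n² / 250`. `hb3` similarly.
-/

set_option autoImplicit false

namespace Pool.Agent.H71.TD

open Finset Classical
open Pool.Agent.H71.DN Pool.Agent.H71.DX Pool.Agent.H71.DR Pool.Agent.H71.HL Pool.Agent.H71.DC

theorem Ct2_div (n q0 m : ℕ) (A B Th w : ℝ) (hm : w + 1 ≤ m) (hw : 0 < w) (hTh : 0 < Th)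
    (h : (n : ℝ) * A ≤ B * (Th * w)) (hB : 0 < B) (hq : (q0 : ℝ) ≤ A) :
    ((n * q0 / (m - 1) : ℕ) : ℝ) ≤ B * Th := by
  have hm1 : 1 ≤ m := by
    have h1 : ((0 : ℕ) : ℝ) < m := by push_cast; linarith
    have h2 : 0 < m := by exact_mod_cast h1
    omega
  have h1 : ((n * q0 / (m - 1) : ℕ) : ℝ) * ((m - 1 : ℕ) : ℝ) ≤ (n : ℝ) * q0 := by
    exact_mod_cast Nat.div_mul_le_self (n * q0) (m - 1)
  rw [Nat.cast_sub hm1] at h1
  push_cast at h1
  have h2 : (n : ℝ) * q0 ≤ n * A := mul_le_mul_of_nonneg_left hq (Nat.cast_nonneg n)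
  by_contra hcon
  rw [not_le] at hcon
  have h3 : 0 < B * Th := mul_pos hB hTh
  have h4 : B * Th * w < ((n * q0 / (m - 1) : ℕ) : ℝ) * w := mul_lt_mul_of_pos_right hcon hw
  have h5 : ((n * q0 / (m - 1) : ℕ) : ℝ) * w ≤ ((n * q0 / (m - 1) : ℕ) : ℝ) * ((m : ℝ) - 1) :=
    mul_le_mul_of_nonneg_left (by linarith) (by linarith)
  have h6 : B * Th * w = B * (Th * w) := by ring
  linarith

theorem Ct2_nums (n t s u d d0 cap0 a0 a cap : ℕ) (c Th E D w z kP rN : ℝ)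
    (hc : 0 < c) (hc1 : c ≤ 1) (hTh : 0 < Th) (hE : 10 ^ 6 ≤ c * E) (hEw : E ≤ w)
    (hwD : w ≤ c * D / 10 ^ 8) (hDz : D ≤ z) (hzN : z ≤ c * n / 10 ^ 4) (hzk : z ≤ kP / 100)
    (hDT : D ≤ Th / 10 ^ 4) (hTw : Th * w = n * E) (hTz : Th * z = n * D)
    (ht : Th - 1 < t) (ht2 : (t : ℝ) ≤ n / 12) (hr : rN ≤ E) (hs : (s : ℝ) ≤ rN + 3)
    (hu : (u : ℝ) ≤ E) (hd : (d : ℝ) ≤ D) (hd0 : (d0 : ℝ) ≤ 4 * E + 1)
    (hcap0 : 32 * w + 2 ≤ cap0) (hcap0' : (cap0 : ℝ) ≤ 32 * w + 3) (ha0 : (a0 : ℝ) ≤ 2 * w + 2)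
    (ha : a = u + cap0 + a0 + 4) (hcap : 8 * z + 4 ≤ cap) (hcap' : (cap : ℝ) ≤ 8 * z + 5) :
    2 ≤ cap0 ∧ 2 * s + 2 * d0 + n * d0 / (cap0 - 1) < t ∧
      4 * (s + d0 + 2 * d) + 4 * d + n * d / (cap - 3) < t ∧ 2 * a + 4 ≤ cap ∧
      2 * ((3 * t * a + (u + cap0 + 2 * cap + 2 * a) * d : ℕ) : ℝ) < c * D * n / 100 ∧
      ((u + (cap0 + 3 * cap) : ℕ) : ℝ) ≤ kP ∧ ((s + d0 + 2 * d : ℕ) : ℝ) ≤ kP := by
  have hE0 : 0 < E := by
    by_contra h
    rw [not_lt] at h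
    have h1 : c * E ≤ 0 := mul_nonpos_of_nonneg_of_nonpos hc.le h
    linarith
  have hE1 : 10 ^ 6 ≤ E := by
    have h1 : c * E ≤ 1 * E := mul_le_mul_of_nonneg_right hc1 hE0.le
    linarith
  have hw0 : 10 ^ 6 ≤ w := hE1.trans hEw
  have hcD : 10 ^ 14 ≤ c * D := by linarith
  have hD0 : 0 < D := by
    by_contra h
    rw [not_lt] at h
    have h1 : c * D ≤ 0 := mul_nonpos_of_nonneg_of_nonpos hc.le h
    linarith
  have hcDD : c * D ≤ D := by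
    have h1 : c * D ≤ 1 * D := mul_le_mul_of_nonneg_right hc1 hD0.le
    linarith
  have hn0 : (0 : ℝ) ≤ n := Nat.cast_nonneg n
  have hcn : c * n ≤ n := by
    have h1 : c * n ≤ 1 * n := mul_le_mul_of_nonneg_right hc1 hn0
    linarith
  have hcn1 : 10 ^ 18 ≤ c * n := by linarith
  have hz0 : 10 ^ 14 ≤ z := by linarith
  have haR : (a : ℝ) ≤ 36 * w := by
    rw [ha]
    push_cast
    linarith
  have e1 : 2 ≤ cap0 := by
    have h1 : ((2 : ℕ) : ℝ) ≤ cap0 := by push_cast; linarith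
    exact_mod_cast h1
  have e2 : ((n * d0 / (cap0 - 1) : ℕ) : ℝ) ≤ 1 / 7 * Th := by
    refine Ct2_div n d0 cap0 (4 * E + 1) (1 / 7) Th (32 * w) (by linarith) (by linarith) hTh ?_
      (by norm_num) hd0
    have h1 : Th * (32 * w) = 32 * (n * E) := by rw [← hTw]; ring
    rw [h1]
    have h2 : (n : ℝ) * 10 ^ 6 ≤ n * E := mul_le_mul_of_nonneg_left hE1 hn0
    have h3 : (n : ℝ) * (4 * E + 1) = 4 * (n * E) + n := by ring
    rw [h3]
    linarith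
  have e3 : ((n * d / (cap - 3) : ℕ) : ℝ) ≤ 1 / 7 * Th := by
    have h0 : cap - 3 = cap - 2 - 1 := by omega
    have hcc : 2 ≤ cap := by
      have h1 : ((2 : ℕ) : ℝ) ≤ cap := by push_cast; linarith
      exact_mod_cast h1
    rw [h0]
    refine Ct2_div n d (cap - 2) D (1 / 7) Th (8 * z) ?_ (by linarith) hTh ?_
      (by norm_num) hd
    · rw [Nat.cast_sub hcc]
      push_cast
      linarith
    · have h1 : Th * (8 * z) = 8 * (n * D) := by rw [← hTz]; ring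
      rw [h1]
      have h2 : 0 ≤ (n : ℝ) * D := mul_nonneg hn0 hD0.le
      linarith
  have hTh1 : 10 ^ 18 ≤ Th := by linarith
  refine ⟨e1, ?_, ?_, ?_, ?_, ?_, ?_⟩
  · have h1 : ((2 * s + 2 * d0 + n * d0 / (cap0 - 1) : ℕ) : ℝ) < (t : ℕ) := by
      rw [Nat.cast_add, Nat.cast_add, Nat.cast_mul, Nat.cast_mul]
      push_cast at e2 ⊢
      linarith
    exact_mod_cast h1
  · have h1 : ((4 * (s + d0 + 2 * d) + 4 * d + n * d / (cap - 3) : ℕ) : ℝ) < (t : ℕ) := by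
      rw [Nat.cast_add]
      push_cast at e3 ⊢
      linarith
    exact_mod_cast h1
  · have h1 : ((2 * a + 4 : ℕ) : ℝ) ≤ (cap : ℕ) := by
      push_cast
      linarith
    exact_mod_cast h1
  · have hd0' : (0 : ℝ) ≤ d := Nat.cast_nonneg d
    have haw : (0 : ℝ) ≤ a := Nat.cast_nonneg a
    have h1 : 3 * (t : ℝ) * a ≤ c * D * n / 10 ^ 6 := by
      have h2 : 3 * (t : ℝ) * a ≤ 3 * (n / 12) * (36 * w) :=
        mul_le_mul (by linarith) haR haw (by positivity)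
      have h3 : (n : ℝ) * w ≤ n * (c * D / 10 ^ 8) := mul_le_mul_of_nonneg_left hwD hn0
      have h4 : 0 ≤ c * D * n := by positivity
      have h5 : 3 * ((n : ℝ) / 12) * (36 * w) = 9 * (n * w) := by ring
      have h6 : (n : ℝ) * (c * D / 10 ^ 8) = c * D * n / 10 ^ 8 := by ring
      rw [h5] at h2
      rw [h6] at h3
      linarith
    have h2 : ((u : ℝ) + cap0 + 2 * cap + 2 * a) * d ≤ c * D * n / 400 := by
      have h3 : (u : ℝ) + cap0 + 2 * cap + 2 * a ≤ 20 * z := by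
        linarith
      have h4 : ((u : ℝ) + cap0 + 2 * cap + 2 * a) * d ≤ 20 * z * D :=
        mul_le_mul h3 hd hd0' (by linarith)
      have h5 : z * D ≤ c * n / 10 ^ 4 * D := mul_le_mul_of_nonneg_right hzN hD0.le
      have h6 : c * n / 10 ^ 4 * D = c * D * n / 10 ^ 4 := by ring
      have h7 : 0 ≤ c * D * n := by positivity
      rw [h6] at h5
      linarith
    have h7 : 0 < c * D * n := by
      have h8 : 0 < (n : ℝ) := by linarith
      positivity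
    push_cast
    linarith
  · push_cast
    linarith
  · push_cast
    linarith

theorem Ct2_card {V : Type} [Fintype V] (H : SimpleGraph V) (P Q X : Finset V)
    (y η : ℝ) (K : ℕ) (hS : SmPQ H P Q X y η K) (v : V) (hv : v ∈ Q) :
    |(X.card : ℝ) - y * P.card| ≤ η * P.card := by
  have hs := hS (fun _ => v) (fun _ => hv) K
  have e0 : ∀ a : V, (univ.filter fun j : Fin K => H.Adj ((fun _ => v) j) a).card ≤ K := by
    intro a
    exact (card_filter_le _ _).trans (by simp)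
  rw [filter_true_of_mem (fun a _ => e0 a), filter_true_of_mem (fun a _ => e0 a)] at hs
  exact hs

theorem Ct2_deg {V : Type} [Fintype V] (H : SimpleGraph V) (P Q X : Finset V)
    (y η : ℝ) (K : ℕ) (hK : 1 ≤ K) (hS : SmPQ H P Q X y η K) (v : V) (hv : v ∈ Q) :
    |((X.filter fun a => H.Adj v a).card : ℝ) - y * ((P.filter fun a => H.Adj v a).card : ℝ)| ≤
      2 * η * P.card := by
  have hs := hS (fun _ => v) (fun _ => hv) 0
  have h1 := Ct2_card H P Q X y η K hS v hv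
  have e0 : ∀ a : V, ((univ.filter fun j : Fin K => H.Adj ((fun _ => v) j) a).card ≤ 0 ↔
      ¬ H.Adj v a) := by
    intro a
    rw [Nat.le_zero, card_eq_zero, filter_eq_empty_iff]
    constructor
    · intro h
      exact h (mem_univ (⟨0, hK⟩ : Fin K))
    · intro h j _
      exact h
  have e1 : ∀ Z : Finset V, (Z.filter fun a => (univ.filter fun j : Fin K =>
      H.Adj ((fun _ => v) j) a).card ≤ 0) = Z.filter fun a => ¬ H.Adj v a := fun Z =>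
    filter_congr fun a _ => e0 a
  rw [e1, e1] at hs
  have e2 : ∀ Z : Finset V, ((Z.filter fun a => H.Adj v a).card : ℝ) +
      ((Z.filter fun a => ¬ H.Adj v a).card : ℝ) = Z.card := by
    intro Z
    rw [← Nat.cast_add, ← card_union_of_disjoint (disjoint_filter_filter_not _ _ _),
      filter_union_filter_not_eq]
  have e3 := e2 X
  have e4 := e2 P
  have e5 : y * ((P.filter fun a => H.Adj v a).card : ℝ) +
      y * ((P.filter fun a => ¬ H.Adj v a).card : ℝ) = y * P.card := by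
    rw [← mul_add, e4]
  rw [abs_le] at hs h1 ⊢
  constructor
  · linarith [hs.1, hs.2, h1.1, h1.2]
  · linarith [hs.1, hs.2, h1.1, h1.2]

theorem Ct2_mono {V : Type} [Fintype V] (H : SimpleGraph V) (P Q X : Finset V)
    (y η η' : ℝ) (K : ℕ) (h : η ≤ η') (hS : SmPQ H P Q X y η K) : SmPQ H P Q X y η' K :=
  fun b hb i => (hS b hb i).trans (mul_le_mul_of_nonneg_right h (Nat.cast_nonneg _))

theorem Ct2_mul {V : Type} (K B : ℕ) (U : ℕ → Finset V) (v : V) :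
    mul B (fun ℓ => U (K + ℓ)) v ≤ mul (K + B) U v := by
  unfold mul
  rw [card_filter, card_filter, Finset.sum_range_add]
  exact Nat.le_add_left _ _

theorem Ct2_bt {V : Type} [Fintype V] (S : SimpleGraph V) (P Q : Finset V) (v : V)
    (hv : v ∈ P ∪ Q) (h : ∀ b, S.Adj v b → (v ∈ P → b ∈ Q) ∧ (v ∈ Q → b ∈ P)) :
    dg (bt S P Q) v = dg S v := by
  unfold dg
  congr 1
  ext w
  rw [mem_filter, mem_filter]
  constructor
  · rintro ⟨h1, h2⟩
    exact ⟨h1, h2.1⟩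
  · rintro ⟨h1, h2⟩
    refine ⟨h1, h2, ?_⟩
    rcases mem_union.mp hv with h3 | h3
    · exact Or.inl ⟨h3, (h _ h2).1 h3⟩
    · exact Or.inr ⟨h3, (h _ h2).2 h3⟩

theorem Ct2_big (X Y : ℝ) (hY : 0 < Y) : ∃ M : ℕ, 2 ≤ M ∧ X / M ≤ Y := by
  refine ⟨max 2 ⌈X / Y⌉₊, le_max_left _ _, ?_⟩
  have h1 : (2 : ℝ) ≤ ((max 2 ⌈X / Y⌉₊ : ℕ) : ℝ) := by
    exact_mod_cast le_max_left 2 ⌈X / Y⌉₊
  have h2 : X / Y ≤ ((max 2 ⌈X / Y⌉₊ : ℕ) : ℝ) := by
    refine (Nat.le_ceil _).trans ?_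
    exact_mod_cast le_max_right 2 ⌈X / Y⌉₊
  rw [div_le_iff₀ (by linarith)]
  rw [div_le_iff₀ hY] at h2
  linarith

theorem Ct2_w (g N1 N2 : ℕ) (θ δ ε : ℝ) (hg : 2 ≤ g) (h1 : 2 ≤ N1) (h2 : 2 ≤ N2)
    (hθ : θ = 1 / (12 * g)) (hδ : δ = θ / N1) (hε : ε = δ / N2) :
    ∃ Q wR w0 w1 w2 : ℕ, 1 ≤ wR ∧ 1 ≤ w0 ∧ 1 ≤ w1 ∧ 1 ≤ w2 ∧ wR + w0 + w1 ≤ Q ∧ wR + w2 ≤ Q ∧
      (wR : ℝ) / Q = ε / 4 ∧ (wR : ℝ) / (4 * Q) = ε / 16 ∧ (w0 : ℝ) / (4 * Q) = 21 / 10 * θ ∧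
      (w1 : ℝ) / (4 * Q) = 9 / 10 * θ - δ / 2 - ε ∧ (w2 : ℝ) / Q = δ ∧
      (w2 : ℝ) / (4 * Q) = δ / 4 ∧
      1 - (wR : ℝ) / Q - ((w0 : ℝ) + w1 + w2 + w2) / (4 * Q) = 1 - 3 * θ + ε - ε / 4 := by
  have hNN : 4 ≤ N1 * N2 := Nat.mul_le_mul h1 h2
  have hN2 : 2 * N2 ≤ N1 * N2 := Nat.mul_le_mul h1 le_rfl
  have hgN : 2 * (N1 * N2) ≤ g * (N1 * N2) := Nat.mul_le_mul hg le_rfl
  obtain ⟨w1, hw1⟩ : ∃ w1 : ℕ, w1 + 80 * N2 + 160 = 144 * (N1 * N2) :=
    ⟨144 * (N1 * N2) - 80 * N2 - 160, by omega⟩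
  have hw1r : (w1 : ℝ) = 144 * (N1 * N2) - 80 * N2 - 160 := by
    have h : ((w1 + 80 * N2 + 160 : ℕ) : ℝ) = ((144 * (N1 * N2) : ℕ) : ℝ) := by rw [hw1]
    push_cast at h
    linarith
  have hg0 : (0 : ℝ) < g := by exact_mod_cast (by omega : 0 < g)
  have hn1 : (0 : ℝ) < N1 := by exact_mod_cast (by omega : 0 < N1)
  have hn2 : (0 : ℝ) < N2 := by exact_mod_cast (by omega : 0 < N2)
  have f1 : (((10 : ℕ) : ℝ)) / ((480 * (g * (N1 * N2)) : ℕ) : ℝ) = ε / 4 := by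
    rw [hε, hδ, hθ]
    push_cast
    field_simp
    norm_num
  have f2 : (((10 : ℕ) : ℝ)) / (4 * ((480 * (g * (N1 * N2)) : ℕ) : ℝ)) = ε / 16 := by
    rw [hε, hδ, hθ]
    push_cast
    field_simp
    norm_num
  have f3 : ((336 * (N1 * N2) : ℕ) : ℝ) / (4 * ((480 * (g * (N1 * N2)) : ℕ) : ℝ)) =
      21 / 10 * θ := by
    rw [hθ]
    push_cast
    field_simp
    norm_num
  have f4 : (w1 : ℝ) / (4 * ((480 * (g * (N1 * N2)) : ℕ) : ℝ)) = 9 / 10 * θ - δ / 2 - ε := by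
    rw [hw1r, hε, hδ, hθ]
    push_cast
    field_simp
    ring
  have f5 : ((40 * N2 : ℕ) : ℝ) / ((480 * (g * (N1 * N2)) : ℕ) : ℝ) = δ := by
    rw [hδ, hθ]
    push_cast
    field_simp
    norm_num
  have f6 : ((40 * N2 : ℕ) : ℝ) / (4 * ((480 * (g * (N1 * N2)) : ℕ) : ℝ)) = δ / 4 := by
    rw [hδ, hθ]
    push_cast
    field_simp
    norm_num
  refine ⟨480 * (g * (N1 * N2)), 10, 336 * (N1 * N2), w1, 40 * N2, by norm_num, by omega,
    by omega, by omega, by omega, by omega, f1, f2, f3, f4, f5, f6, ?_⟩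
  rw [add_div, add_div, add_div, f1, f3, f4, f6]
  ring

theorem ct2E (c x : ℝ) (g : ℕ) (hc : 0 < c) (hc1 : c ≤ 1) (hx : 0 < x) (hx1 : x ≤ 1)
    (hg : 2 ≤ g) :
    ∃ (κ ρ η : ℝ) (K0 n0 : ℕ), 0 < κ ∧ 0 < ρ ∧ 0 < η ∧ 1 ≤ K0 ∧
      ∀ (V : Type) [Fintype V] (H : SimpleGraph V) (Δ : ℕ) (XA XB YA YB : Finset V),
        n0 ≤ Fintype.card V → c * Fintype.card V ≤ Δ → (Δ : ℝ) ≤ 2 * Fintype.card V →
        (∀ v, dg H v ≤ Δ ∧ (Δ : ℝ) ≤ dg H v + ρ * Fintype.card V) →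
        XP H (c / 128) x x → Qtr XA XB YA YB →
        (∀ Z, (Z = XA ∨ Z = XB ∨ Z = YA ∨ Z = YB) → SmPQ H univ univ Z (1 / 4) η K0) →
        ∀ U : ℕ → Finset V, (∀ ℓ < Δ + 2, ((U ℓ).card : ℝ) ≤ κ * Fintype.card V) →
          (∀ v, dg H v + mul (Δ + 2) U v = Δ + 2) →
          (∀ ℓ < Δ / (12 * g), Disjoint (U ℓ) (XA ∪ XB)) →
          (∀ ℓ, Δ / (12 * g) ≤ ℓ → ℓ < 2 * (Δ / (12 * g)) → Disjoint (U ℓ) (YA ∪ YB)) →
          (∀ ℓ < Δ + 2, Even (univ \ U ℓ).card) → Full H (Δ + 2) U := by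
  obtain ⟨θ, hθ⟩ : ∃ θ : ℝ, θ = 1 / (12 * (g : ℝ)) := ⟨_, rfl⟩
  have hg2 : (2 : ℝ) ≤ g := by exact_mod_cast hg
  have hθ0 : 0 < θ := by rw [hθ]; positivity
  have hθ1 : θ ≤ 1 / 24 := by
    rw [hθ, div_le_div_iff₀ (by positivity) (by norm_num)]
    linarith
  have hcθ : 0 < c * θ := mul_pos hc hθ0
  have hcθ1 : c * θ ≤ 1 / 24 := by
    have : c * θ ≤ 1 * θ := mul_le_mul_of_nonneg_right hc1 hθ0.le
    linarith
  obtain ⟨κP, ρP, ηP, lamP, KP, nP, hκP, hρP, hηP, hlamP, hKP, HP⟩ :=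
    ptQ (c / 2) x x (c * θ / 2) (c * θ / 20) (1 / 4) (by positivity) (by linarith) hx hx1 hx
      (by positivity) (by linarith) (by positivity) (by norm_num) (by norm_num)
  obtain ⟨N1, hN1, hN1b⟩ := Ct2_big θ (min (θ * c ^ 2 / 10 ^ 4) (κP * θ * c / 100))
    (lt_min (by positivity) (by positivity))
  obtain ⟨δ, hδ⟩ : ∃ δ : ℝ, δ = θ / N1 := ⟨_, rfl⟩
  rw [← hδ] at hN1b
  have hN1r : (0 : ℝ) < N1 := by exact_mod_cast (by omega : 0 < N1)
  have hδ0 : 0 < δ := by rw [hδ]; positivity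
  have hδ1 : δ ≤ θ * c ^ 2 / 10 ^ 4 := hN1b.trans (min_le_left _ _)
  have hδ2 : δ ≤ κP * θ * c / 100 := hN1b.trans (min_le_right _ _)
  obtain ⟨N2, hN2, hN2b⟩ := Ct2_big δ (δ * θ * c ^ 2 / 10 ^ 8) (by positivity)
  obtain ⟨ε, hε⟩ : ∃ ε : ℝ, ε = δ / N2 := ⟨_, rfl⟩
  rw [← hε] at hN2b
  have hN2r : (0 : ℝ) < N2 := by exact_mod_cast (by omega : 0 < N2)
  have hε0 : 0 < ε := by rw [hε]; positivity
  have hc2 : c ^ 2 ≤ 1 := pow_le_one₀ hc.le hc1
  have hδθ : δ ≤ θ / 10 ^ 4 := by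
    have h1 : θ * c ^ 2 ≤ θ * 1 := mul_le_mul_of_nonneg_left hc2 hθ0.le
    linarith
  have hεδ : ε ≤ δ / 10 ^ 8 := by
    have h1 : δ * θ * c ^ 2 ≤ δ * 1 * 1 :=
      mul_le_mul (mul_le_mul_of_nonneg_left (by linarith) hδ0.le) hc2 (by positivity)
        (by positivity)
    linarith
  obtain ⟨Q, wR, w0, w1, w2, v1, v2, v3, v4, v5, v6, f1, f2, f3, f4, f5, f6, f7⟩ :=
    Ct2_w g N1 N2 θ δ ε hg hN1 hN2 hθ hδ hε
  obtain ⟨q1, hq1⟩ : ∃ q1 : ℝ, q1 = c * ε / 32 := ⟨_, rfl⟩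
  have hq10 : 0 < q1 := by rw [hq1]; positivity
  have hcε : c * ε ≤ ε := by
    have : c * ε ≤ 1 * ε := mul_le_mul_of_nonneg_right hc1 hε0.le
    linarith
  obtain ⟨lam1, hlam1⟩ : ∃ lam1 : ℝ, lam1 = min x (min (c / 2 * q1 / 16)
    (min (c / 2 * x / 64) ((c / 2) ^ 2 / 64))) := ⟨_, rfl⟩
  have hl0 : 0 < lam1 := by
    rw [hlam1]
    exact lt_min hx (lt_min (by positivity) (lt_min (by positivity) (by positivity)))
  have hl1 : lam1 ≤ x := by rw [hlam1]; exact min_le_left _ _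
  have hl2 : lam1 ≤ c / 2 * q1 / 16 := by
    rw [hlam1]; exact (min_le_right _ _).trans (min_le_left _ _)
  have hl3 : lam1 ≤ c / 2 * x / 64 := by
    rw [hlam1]; exact (min_le_right _ _).trans ((min_le_right _ _).trans (min_le_left _ _))
  have hl4 : lam1 ≤ (c / 2) ^ 2 / 64 := by
    rw [hlam1]; exact (min_le_right _ _).trans ((min_le_right _ _).trans (min_le_right _ _))
  obtain ⟨κ1, ρ1, n1, hκ1, hρ1, H1⟩ := st1 (c / 2) x lam1 q1 (c * ε / 4) (by positivity)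
    (by linarith) hx hx1 hl0 hq10 (by linarith) (by positivity) (by linarith) (by linarith)
    (by linarith)
  obtain ⟨ρ', hρ'⟩ : ∃ ρ' : ℝ, ρ' = min (ρ1 / 2) (min (ρP / 2) (ε * θ * c / 8)) := ⟨_, rfl⟩
  have hρ'0 : 0 < ρ' := by
    rw [hρ']
    exact lt_min (by positivity) (lt_min (by positivity) (by positivity))
  have r1 : ρ' ≤ ρ1 / 2 := by rw [hρ']; exact min_le_left _ _
  have r2 : ρ' ≤ ρP / 2 := by rw [hρ']; exact (min_le_right _ _).trans (min_le_left _ _)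
  have r3 : ρ' ≤ ε * θ * c / 8 := by
    rw [hρ']; exact (min_le_right _ _).trans (min_le_right _ _)
  have r4 : ρ' ≤ c * ε / 8 := by
    have h1 : ε * c * θ ≤ ε * c * 1 := mul_le_mul_of_nonneg_left (by linarith) (by positivity)
    linarith
  have r5 : ρ' ≤ c * θ / 100 := by
    have h1 : c * θ * ε ≤ c * θ * (1 / 100) :=
      mul_le_mul_of_nonneg_left (by linarith) (by positivity)
    linarith
  have r6 : ρ' ≤ ε / 8 := by linarith
  obtain ⟨ρH, ηH, n2, hρH, hηH, H2⟩ := gcE Q wR w0 w1 w2 w2 v1 v2 v3 v4 v4 v5 v6 v6 c ρ'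
    (min lamP lam1) hc hc1 hρ'0 (lt_min hlamP hl0)
  obtain ⟨κ, hκ⟩ : ∃ κ : ℝ, κ = min κ1 ε := ⟨_, rfl⟩
  obtain ⟨ρ, hρ⟩ : ∃ ρ : ℝ, ρ = min ρH (min (κ1 / 2) (min (ε / 2) (c / 2))) := ⟨_, rfl⟩
  obtain ⟨η, hη⟩ : ∃ η : ℝ, η = min ηP (ηH / 4) := ⟨_, rfl⟩
  have hκ0 : 0 < κ := by rw [hκ]; exact lt_min hκ1 hε0
  have hρ0 : 0 < ρ := by
    rw [hρ]
    exact lt_min hρH (lt_min (by positivity) (lt_min (by positivity) (by positivity)))
  have hη0 : 0 < η := by rw [hη]; exact lt_min hηP (by positivity)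
  have k1 : κ ≤ κ1 := by rw [hκ]; exact min_le_left _ _
  have k2 : κ ≤ ε := by rw [hκ]; exact min_le_right _ _
  have p1 : ρ ≤ ρH := by rw [hρ]; exact min_le_left _ _
  have p2 : ρ ≤ κ1 / 2 := by rw [hρ]; exact (min_le_right _ _).trans (min_le_left _ _)
  have p3 : ρ ≤ ε / 2 := by
    rw [hρ]; exact (min_le_right _ _).trans ((min_le_right _ _).trans (min_le_left _ _))
  have p4 : ρ ≤ c / 2 := by
    rw [hρ]; exact (min_le_right _ _).trans ((min_le_right _ _).trans (min_le_right _ _))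
  have e1 : η ≤ ηP := by rw [hη]; exact min_le_left _ _
  have e2 : η ≤ ηH / 4 := by rw [hη]; exact min_le_right _ _
  refine ⟨κ, ρ, η, KP, nP + n1 + n2 + ⌈10 ^ 6 / (c * ε)⌉₊ + ⌈4 / κ1⌉₊, hκ0, hρ0, hη0, hKP, ?_⟩
  intro V _ H Δ XA XB YA YB hn hΔ1 hΔ2 hdeg hXP hq hSm U hU hmul hT1 hT2 hev
  clear hκ hρ hη hρ' hlam1 hδ hε hN1b hN1 hN2 hN1r hN2r v1 v2 v3 v4 v5 v6
  have hn0 : (0 : ℝ) ≤ Fintype.card V := Nat.cast_nonneg _
  have hb1 : 10 ^ 6 ≤ c * (ε * Fintype.card V) := by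
    have h1 : 10 ^ 6 / (c * ε) ≤ (Fintype.card V : ℝ) := by
      refine (Nat.le_ceil _).trans ?_
      exact_mod_cast (by omega : ⌈10 ^ 6 / (c * ε)⌉₊ ≤ Fintype.card V)
    rw [div_le_iff₀ (by positivity)] at h1
    linarith
  have hb2 : 4 ≤ κ1 * Fintype.card V := by
    have h1 : 4 / κ1 ≤ (Fintype.card V : ℝ) := by
      refine (Nat.le_ceil _).trans ?_
      exact_mod_cast (by omega : ⌈4 / κ1⌉₊ ≤ Fintype.card V)
    rw [div_le_iff₀ hκ1] at h1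
    linarith
  have hnp : (0 : ℝ) < Fintype.card V := by
    rcases hn0.eq_or_lt with h | h
    · rw [← h] at hb2
      linarith
    · exact h
  haveI : Nonempty V := Fintype.card_pos_iff.1 (by exact_mod_cast hnp)
  obtain ⟨v0⟩ : Nonempty V := inferInstance
  obtain ⟨t, ht⟩ : ∃ t : ℕ, t = Δ / (12 * g) := ⟨_, rfl⟩
  rw [← ht] at hT1 hT2
  have ht1 : (t : ℝ) ≤ θ * Δ := by
    have h1 : t * (12 * g) ≤ Δ := by
      rw [ht]
      exact Nat.div_mul_le_self _ _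
    have h2 : (t : ℝ) * (12 * g) ≤ Δ := by exact_mod_cast h1
    have h3 : θ * (12 * (g : ℝ)) = 1 := by
      rw [hθ]
      field_simp
    have h4 : θ * ((t : ℝ) * (12 * g)) ≤ θ * Δ := mul_le_mul_of_nonneg_left h2 hθ0.le
    have h5 : θ * ((t : ℝ) * (12 * g)) = t * (θ * (12 * (g : ℝ))) := by ring
    rw [h5, h3, mul_one] at h4
    exact h4
  have ht2 : θ * Δ < t + 1 := by
    have h1 : Δ < 12 * g * (t + 1) := by
      rw [ht]
      exact Nat.lt_mul_div_succ _ (by omega)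
    have h2 : (Δ : ℝ) < 12 * g * (t + 1) := by exact_mod_cast h1
    have h3 : θ * (12 * (g : ℝ)) = 1 := by
      rw [hθ]
      field_simp
    have h4 : θ * (Δ : ℝ) < θ * (12 * g * (t + 1)) := mul_lt_mul_of_pos_left h2 hθ0
    have h5 : θ * (12 * (g : ℝ) * (t + 1)) = (θ * (12 * (g : ℝ))) * (t + 1) := by ring
    rw [h5, h3, one_mul] at h4
    exact h4
  have hΔ0 : (0 : ℝ) ≤ Δ := Nat.cast_nonneg _
  have m1 : θ * (c * Fintype.card V) ≤ θ * Δ := mul_le_mul_of_nonneg_left hΔ1 hθ0.le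
  have m2 : ε * (c * Fintype.card V) ≤ ε * Δ := mul_le_mul_of_nonneg_left hΔ1 hε0.le
  have m3 : ε * Δ ≤ ε * (2 * Fintype.card V) := mul_le_mul_of_nonneg_left hΔ2 hε0.le
  have m4 : δ * Δ ≤ δ * (2 * Fintype.card V) := mul_le_mul_of_nonneg_left hΔ2 hδ0.le
  have m5 : θ * Δ ≤ 1 / 24 * (2 * Fintype.card V) :=
    mul_le_mul hθ1 hΔ2 hΔ0 (by norm_num)
  have m6 : ρ' * Fintype.card V ≤ c * ε / 8 * Fintype.card V :=
    mul_le_mul_of_nonneg_right r4 hn0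
  have m7 : ρ' * Fintype.card V ≤ c * θ / 100 * Fintype.card V :=
    mul_le_mul_of_nonneg_right r5 hn0
  have m8 : ρ' * Fintype.card V ≤ ε / 8 * Fintype.card V := mul_le_mul_of_nonneg_right r6 hn0
  have m9 : ρ' * Fintype.card V ≤ ρ1 / 2 * Fintype.card V := mul_le_mul_of_nonneg_right r1 hn0
  have m10 : ρ' * Fintype.card V ≤ ρP / 2 * Fintype.card V := mul_le_mul_of_nonneg_right r2 hn0
  have m11 : ρ * Fintype.card V ≤ ε / 2 * Fintype.card V := mul_le_mul_of_nonneg_right p3 hn0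
  have m12 : ρ * Fintype.card V ≤ c / 2 * Fintype.card V := mul_le_mul_of_nonneg_right p4 hn0
  have m13 : ρ * Fintype.card V ≤ κ1 / 2 * Fintype.card V := mul_le_mul_of_nonneg_right p2 hn0
  have m14 : κ * Fintype.card V ≤ ε * Fintype.card V := mul_le_mul_of_nonneg_right k2 hn0
  have m15 : κ * Fintype.card V ≤ κ1 * Fintype.card V := mul_le_mul_of_nonneg_right k1 hn0
  have m16 : ρ * Fintype.card V ≤ ρH * Fintype.card V := mul_le_mul_of_nonneg_right p1 hn0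
  have m17 : ε * Fintype.card V ≤ δ / 10 ^ 8 * Fintype.card V :=
    mul_le_mul_of_nonneg_right hεδ hn0
  have m18 : c * (ε * Fintype.card V) ≤ ε * Fintype.card V := by
    have h1 := mul_le_mul_of_nonneg_right hcε hn0
    linarith
  have hdH : ∀ v, c / 2 * (Fintype.card V : ℝ) ≤ (dg H v : ℝ) := by
    intro v
    have h1 := (hdeg v).2
    linarith
  -- the classes
  obtain ⟨cl, c1, c2, c3, c4, d0', d1', d2', d3', d4', d5', E1, E3, E4, E5, E6, E7⟩ :=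
    H2 V H Δ XA XB YA YB (by omega) hΔ1 hΔ2 (fun v => ⟨(hdeg v).1, by
      have h1 := (hdeg v).2
      linarith⟩) hq (by
      intro Z hZ
      have hS := hSm Z hZ
      have h1 := Ct2_card H univ univ Z (1 / 4) η KP hS v0 (mem_univ _)
      have h3 : η * (Fintype.card V : ℝ) ≤ ηH / 4 * Fintype.card V :=
        mul_le_mul_of_nonneg_right e2 hn0
      have h4 : 0 ≤ ηH * (Fintype.card V : ℝ) := mul_nonneg hηH.le hn0
      rw [card_univ] at h1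
      constructor
      · rw [abs_le] at h1 ⊢
        constructor <;> linarith [h1.1, h1.2]
      · intro v
        have h2 := Ct2_deg H univ univ Z (1 / 4) η KP hKP hS v (mem_univ _)
        rw [card_univ] at h2
        have h5 : ((univ.filter fun a => H.Adj v a).card : ℝ) = dg H v := rfl
        rw [h5] at h2
        rw [abs_le] at h2 ⊢
        constructor <;> linarith [h2.1, h2.2])
  rw [f7] at d0'
  rw [f1] at d1'
  rw [f3] at d2'
  rw [f4] at d3'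
  rw [f6] at d4' d5'
  rw [f2] at E1
  rw [f4] at E3
  rw [f5] at E4 E5 E6
  -- the numbers
  obtain ⟨s, hs⟩ : ∃ s : ℕ, s = ⌈ρ * Fintype.card V⌉₊ + 2 := ⟨_, rfl⟩
  obtain ⟨u, hu⟩ : ∃ u : ℕ, u = ⌊κ * Fintype.card V⌋₊ := ⟨_, rfl⟩
  obtain ⟨d, hd⟩ : ∃ d : ℕ, d = ⌊δ * Fintype.card V⌋₊ := ⟨_, rfl⟩
  obtain ⟨d0, hd0⟩ : ∃ d0 : ℕ, d0 = ⌈4 * (ε * Fintype.card V)⌉₊ := ⟨_, rfl⟩
  obtain ⟨w, hw⟩ : ∃ w : ℝ, w = ε / (θ * c) * Fintype.card V := ⟨_, rfl⟩
  obtain ⟨z, hz⟩ : ∃ z : ℝ, z = δ / (θ * c) * Fintype.card V := ⟨_, rfl⟩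
  obtain ⟨y, hy⟩ : ∃ y : ℝ, y = ρ' / (θ * c) * Fintype.card V := ⟨_, rfl⟩
  obtain ⟨cap0, hcap0⟩ : ∃ cap0 : ℕ, cap0 = ⌈32 * w⌉₊ + 2 := ⟨_, rfl⟩
  obtain ⟨a0, ha0⟩ : ∃ a0 : ℕ, a0 = ⌈2 * y⌉₊ + 1 := ⟨_, rfl⟩
  obtain ⟨cap, hcap⟩ : ∃ cap : ℕ, cap = ⌈8 * z⌉₊ + 4 := ⟨_, rfl⟩
  obtain ⟨a, ha⟩ : ∃ a : ℕ, a = u + cap0 + a0 + 4 := ⟨_, rfl⟩
  have hθc : 0 < θ * c := by positivity
  have hθc1 : θ * c ≤ 1 := by linarith
  have hw0 : 0 ≤ w := by rw [hw]; positivity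
  have hz0 : 0 ≤ z := by rw [hz]; positivity
  have hy0 : 0 ≤ y := by rw [hy]; positivity
  have hs1 : ρ * Fintype.card V + 2 ≤ (s : ℝ) := by
    rw [hs]
    push_cast
    linarith [Nat.le_ceil (ρ * (Fintype.card V : ℝ))]
  have hs2 : (s : ℝ) ≤ ρ * Fintype.card V + 3 := by
    rw [hs]
    push_cast
    linarith [Nat.ceil_lt_add_one (a := ρ * (Fintype.card V : ℝ)) (by positivity)]
  have hu2 : (u : ℝ) ≤ κ * Fintype.card V := by
    rw [hu]
    exact Nat.floor_le (by positivity)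
  have hd1 : δ * Fintype.card V - 1 < (d : ℝ) := by
    rw [hd]
    linarith [Nat.lt_floor_add_one (δ * (Fintype.card V : ℝ))]
  have hd2 : (d : ℝ) ≤ δ * Fintype.card V := by
    rw [hd]
    exact Nat.floor_le (by positivity)
  have hd01 : 4 * (ε * Fintype.card V) ≤ (d0 : ℝ) := by
    rw [hd0]
    exact Nat.le_ceil _
  have hd02 : (d0 : ℝ) ≤ 4 * (ε * Fintype.card V) + 1 := by
    rw [hd0]
    exact (Nat.ceil_lt_add_one (by positivity)).le
  have hcap1 : 32 * w + 2 ≤ (cap0 : ℝ) := by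
    rw [hcap0]
    push_cast
    linarith [Nat.le_ceil (32 * w)]
  have hcap2 : (cap0 : ℝ) ≤ 32 * w + 3 := by
    rw [hcap0]
    push_cast
    linarith [Nat.ceil_lt_add_one (a := 32 * w) (by positivity)]
  have hcap3 : 8 * z + 4 ≤ (cap : ℝ) := by
    rw [hcap]
    push_cast
    linarith [Nat.le_ceil (8 * z)]
  have hcap4 : (cap : ℝ) ≤ 8 * z + 5 := by
    rw [hcap]
    push_cast
    linarith [Nat.ceil_lt_add_one (a := 8 * z) (by positivity)]
  have ha1 : 2 * y + 1 ≤ (a0 : ℝ) := by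
    rw [ha0]
    push_cast
    linarith [Nat.le_ceil (2 * y)]
  have ha2 : (a0 : ℝ) ≤ 2 * y + 2 := by
    rw [ha0]
    push_cast
    linarith [Nat.ceil_lt_add_one (a := 2 * y) (by positivity)]
  have hyw : y ≤ w := by
    rw [hy, hw]
    refine mul_le_mul_of_nonneg_right ?_ hn0
    exact div_le_div_of_nonneg_right (by linarith) hθc.le
  have hEw : ε * Fintype.card V ≤ w := by
    rw [hw]
    refine mul_le_mul_of_nonneg_right ?_ hn0
    rw [le_div_iff₀ hθc]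
    have h1 : ε * (θ * c) ≤ ε * 1 := mul_le_mul_of_nonneg_left hθc1 hε0.le
    linarith
  have hDz : δ * Fintype.card V ≤ z := by
    rw [hz]
    refine mul_le_mul_of_nonneg_right ?_ hn0
    rw [le_div_iff₀ hθc]
    have h1 : δ * (θ * c) ≤ δ * 1 := mul_le_mul_of_nonneg_left hθc1 hδ0.le
    linarith
  have hwD : w ≤ c * (δ * Fintype.card V) / 10 ^ 8 := by
    have h1 : ε / (θ * c) ≤ c * δ / 10 ^ 8 := by
      rw [div_le_iff₀ hθc]
      have h2 : c * δ / 10 ^ 8 * (θ * c) = δ * θ * c ^ 2 / 10 ^ 8 := by ring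
      rw [h2]
      exact hN2b
    have h3 := mul_le_mul_of_nonneg_right h1 hn0
    rw [← hw] at h3
    linarith
  have hzN : z ≤ c * Fintype.card V / 10 ^ 4 := by
    have h1 : δ / (θ * c) ≤ c / 10 ^ 4 := by
      rw [div_le_iff₀ hθc]
      have h2 : c / 10 ^ 4 * (θ * c) = θ * c ^ 2 / 10 ^ 4 := by ring
      rw [h2]
      exact hδ1
    have h3 := mul_le_mul_of_nonneg_right h1 hn0
    rw [← hz] at h3
    linarith
  have hzk : z ≤ κP * Fintype.card V / 100 := by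
    have h1 : δ / (θ * c) ≤ κP / 100 := by
      rw [div_le_iff₀ hθc]
      have h2 : κP / 100 * (θ * c) = κP * θ * c / 100 := by ring
      rw [h2]
      exact hδ2
    have h3 := mul_le_mul_of_nonneg_right h1 hn0
    rw [← hz] at h3
    linarith
  have hDT : δ * Fintype.card V ≤ θ * c * Fintype.card V / 10 ^ 4 := by
    have h1 : θ * c ^ 2 ≤ θ * c := by
      have h2 : θ * c * c ≤ θ * c * 1 := mul_le_mul_of_nonneg_left hc1 hθc.le
      linarith [h2, (by ring : θ * c ^ 2 = θ * c * c)]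
    have h3 : δ ≤ θ * c / 10 ^ 4 := by linarith
    have h4 := mul_le_mul_of_nonneg_right h3 hn0
    linarith
  have hTw : θ * c * Fintype.card V * w = Fintype.card V * (ε * Fintype.card V) := by
    rw [hw]
    field_simp
  have hTz : θ * c * Fintype.card V * z = Fintype.card V * (δ * Fintype.card V) := by
    rw [hz]
    field_simp
  have hTy : θ * c * Fintype.card V * y = Fintype.card V * (ρ' * Fintype.card V) := by
    rw [hy]
    field_simp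
  have hTh0 : 0 < θ * c * Fintype.card V := by positivity
  obtain ⟨z1, z2, z3, z4, z5, z6, z7⟩ := Ct2_nums (Fintype.card V) t s u d d0 cap0 a0 a cap c
    (θ * c * Fintype.card V) (ε * Fintype.card V) (δ * Fintype.card V) w z
    (κP * Fintype.card V) (ρ * Fintype.card V) hc hc1 hTh0 hb1 hEw hwD hDz hzN hzk hDT hTw hTz
    (by linarith) (by linarith) (by linarith) hs2 (by linarith) hd2 hd02 hcap1 hcap2
    (by linarith) ha hcap3 hcap4
  have hThb : 10 ^ 10 ≤ θ * c * Fintype.card V := by linarith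
  have htp : 0 < t := by
    have h1 : ((0 : ℕ) : ℝ) < t := by push_cast; linarith
    exact_mod_cast h1
  have h3tR : 3 * (t : ℝ) ≤ Δ := by
    have h1 : θ * (Δ : ℝ) ≤ 1 / 24 * Δ := mul_le_mul_of_nonneg_right hθ1 hΔ0
    linarith
  have h3t : 3 * t ≤ Δ + 2 := by
    have h1 : ((3 * t : ℕ) : ℝ) ≤ (Δ : ℕ) := by push_cast; exact h3tR
    have h2 : 3 * t ≤ Δ := by exact_mod_cast h1
    omega
  have hcast : ((Δ + 2 - 3 * t : ℕ) : ℝ) = Δ + 2 - 3 * t := by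
    rw [Nat.cast_sub h3t]
    push_cast
    ring
  have hmulb : ∀ v, (mul (Δ + 2) U v : ℝ) ≤ ρ * Fintype.card V + 2 := by
    intro v
    have h1 := hmul v
    have h2 : (dg H v : ℝ) + mul (Δ + 2) U v = Δ + 2 := by exact_mod_cast h1
    have h3 := (hdeg v).2
    linarith
  have hdis : ∀ i j, i ≠ j → ∀ a b, (cg H cl i).Adj a b → ¬ (cg H cl j).Adj a b := by
    intro i j hij a b h h'
    exact hij (h.2.symm.trans h'.2)
  -- the first batch
  have hs1' : Full (cg H cl 0 ⊔ cg H cl 1) (Δ + 2 - 3 * t) (fun ℓ => U (3 * t + ℓ)) := by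
    refine H1 V H (cg H cl 0) (cg H cl 1) (Δ + 2 - 3 * t) (by omega) ?_
      (hdis 0 1 (by norm_num)) ?_ ?_ ?_ ?_ (fun ℓ => U (3 * t + ℓ)) ?_ ?_ ?_
    · refine ⟨hdH, ?_⟩
      intro A Y h1 h2 h3
      refine hXP A Y ?_ ?_ ?_
      · have h4 : 0 ≤ c * (Fintype.card V : ℝ) := by positivity
        linarith
      · have h4 : 0 ≤ c * (Fintype.card V : ℝ) := by positivity
        linarith
      · refine h3.trans (mul_le_mul_of_nonneg_right hl1 (by positivity))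
    · intro v
      have h1 := (abs_le.1 (d1' v)).1
      rw [hq1]
      linarith
    · intro A Y h1
      have h2 := E1 A Y ((mul_le_mul_of_nonneg_right (min_le_right _ _) (by positivity)).trans h1)
      refine le_trans ?_ h2
      have h3 : ε / 16 * (lam1 * (Fintype.card V : ℝ) ^ 2) ≤ ε / 16 * ee H A Y :=
        mul_le_mul_of_nonneg_left h1 (by positivity)
      refine le_trans ?_ h3
      refine mul_le_mul_of_nonneg_right ?_ (by positivity)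
      rw [hq1]
      linarith
    · intro v
      have h1 := (abs_le.1 (d0' v)).1
      rw [hcast]
      have h2 : (1 - 3 * θ + ε - ε / 4) * (Δ : ℝ) = Δ - 3 * (θ * Δ) + 3 / 4 * (ε * Δ) := by ring
      rw [h2] at h1
      linarith
    · intro a b
      have h1 := (abs_le.1 (d0' a)).2
      have h2 := (abs_le.1 (d0' b)).1
      linarith
    · intro ℓ hℓ
      exact (hU _ (by omega)).trans m15
    · intro v
      have h1 := Ct2_mul (3 * t) (Δ + 2 - 3 * t) U v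
      rw [Nat.add_sub_cancel' h3t] at h1
      have h2 : (mul (Δ + 2 - 3 * t) (fun ℓ => U (3 * t + ℓ)) v : ℝ) ≤ mul (Δ + 2) U v := by
        exact_mod_cast h1
      have h3 := hmulb v
      linarith
    · intro ℓ hℓ
      exact hev _ (by omega)
  -- the parts
  have hPt : ∀ P1 P2 : Finset V, P1.card = P2.card → Disjoint P1 P2 →
      SmPQ H univ univ P1 (1 / 4) η KP → SmPQ H univ univ P2 (1 / 4) η KP →
      (∀ j, (j = 2 ∨ j = 3) → ∀ v ∈ P1 ∪ P2,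
        dg (bt (cg H cl j) P1 P2) v = dg (cg H cl j) v) →
      (∀ A Y : Finset V, ((A ⊆ P1 ∧ Y ⊆ P2) ∨ (A ⊆ P2 ∧ Y ⊆ P1)) →
        min lamP lam1 * (Fintype.card V : ℝ) ^ 2 ≤ ee H A Y →
        (9 / 10 * θ - δ / 2 - ε) * ee H A Y ≤ ee (cg H cl 3) A Y) →
      PtOk (cg H cl 2) (cg H cl 3) P1 P2 (2 * t) t (u + (cap0 + 3 * cap)) (s + d0 + 2 * d) := by
    intro P1 P2 b1 b2 b3 b4 b5 b6
    have hXPQ : XPQ H univ univ (c / 2 / 64) x x := by
      intro A Y _ _ h1 h2 h3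
      rw [card_univ] at h1 h2 h3 ⊢
      refine hXP A Y ?_ ?_ h3
      · refine le_trans (le_of_eq ?_) h1
        ring
      · refine h2.trans (le_of_eq ?_)
        ring
    have hdd : ∀ v ∈ (univ : Finset V), c / 2 * ((univ : Finset V).card : ℝ) ≤
        ((univ.filter fun a => H.Adj v a).card : ℝ) := by
      intro v _
      rw [card_univ]
      exact hdH v
    refine HP V H univ univ P1 P2 (cg H cl 2) (cg H cl 3) (2 * t) t _ _ ?_ rfl (subset_univ _)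
      (subset_univ _) b1 b2 hdd hdd hXPQ hXPQ (Ct2_mono _ _ _ _ _ _ _ _ e1 b3)
      (Ct2_mono _ _ _ _ _ _ _ _ e1 b4) (hdis 2 3 (by norm_num)) ?_ ?_ ?_ ?_ ?_ ?_
    · rw [card_univ]
      omega
    · intro v hv
      rw [b5 3 (Or.inr rfl) v hv, card_univ]
      have h1 := (abs_le.1 (d3' v)).1
      have h2 : 8 / 10 * θ * (Δ : ℝ) ≤ (9 / 10 * θ - δ / 2 - ε) * Δ :=
        mul_le_mul_of_nonneg_right (by linarith) hΔ0
      linarith
    · intro A Y h1 h2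
      rw [card_univ] at h2
      have h3 := b6 A Y h1
        ((mul_le_mul_of_nonneg_right (min_le_left _ _) (by positivity)).trans h2)
      refine le_trans ?_ h3
      refine mul_le_mul_of_nonneg_right ?_ (Nat.cast_nonneg _)
      have h4 : c * θ ≤ 1 * θ := mul_le_mul_of_nonneg_right hc1 hθ0.le
      linarith
    · intro v hv
      rw [b5 2 (Or.inl rfl) v hv, card_univ]
      have h1 := (abs_le.1 (d2' v)).1
      push_cast
      linarith
    · intro a ha b hb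
      rw [b5 2 (Or.inl rfl) a ha, b5 2 (Or.inl rfl) b hb, card_univ]
      have h1 := (abs_le.1 (d2' a)).2
      have h2 := (abs_le.1 (d2' b)).1
      linarith
    · rw [card_univ]
      exact z6
    · rw [card_univ]
      exact z7
  refine ct1E H cl c1 XA XB YA YB hq c2 c3 c4 (Δ + 2) t htp h3t U hT1 hT2 hev hmul hs1' d0 d s u
    a0 a cap0 cap ?_ ?_ ?_ ?_ ?_ ha z1 z2 ?_ ?_ z4 z3 ?_ ?_
  · intro v
    have h1 := (abs_le.1 (d0' v)).2
    have h2 := (abs_le.1 (d1' v)).2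
    have h3 := hmulb v
    have h4 : (1 - 3 * θ + ε - ε / 4) * (Δ : ℝ) = Δ - 3 * (θ * Δ) + 3 / 4 * (ε * Δ) := by ring
    rw [h4] at h1
    have h5 : ((dg (cg H cl 0) v + dg (cg H cl 1) v + mul (Δ + 2) U v : ℕ) : ℝ) ≤
        ((d0 + (Δ + 2 - 3 * t) : ℕ) : ℝ) := by
      rw [Nat.cast_add d0, hcast]
      push_cast
      linarith
    exact_mod_cast h5
  · intro v
    have h1 := (abs_le.1 (d4' v)).2
    have h2 := (abs_le.1 (d5' v)).2
    constructor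
    · have h3 : (dg (cg H cl 4) v : ℝ) ≤ d := by linarith
      exact_mod_cast h3
    · have h3 : (dg (cg H cl 5) v : ℝ) ≤ d := by linarith
      exact_mod_cast h3
  · intro v
    have h1 := hmulb v
    have h3 : (mul (Δ + 2) U v : ℝ) ≤ s := by linarith
    exact_mod_cast h3
  · intro ℓ hℓ
    rw [hu]
    exact Nat.le_floor (hU ℓ hℓ)
  · have h1 : |(ee (cg H cl 5) XA YA : ℝ) - ee (cg H cl 5) XB YB| ≤ t * a0 := by
      refine E7.trans ?_
      have h2 : θ * c * Fintype.card V / 2 * (2 * y) ≤ t * (a0 : ℝ) :=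
        mul_le_mul (by linarith) (by linarith) (by positivity) (Nat.cast_nonneg _)
      have h3 : θ * c * Fintype.card V / 2 * (2 * y) = θ * c * Fintype.card V * y := by ring
      rw [h3, hTy] at h2
      refine le_trans (le_of_eq ?_) h2
      ring
    have h4 : ((|(ee (cg H cl 5) XA YA : ℤ) - ee (cg H cl 5) XB YB| : ℤ) : ℝ) ≤
        ((t * a0 : ℤ) : ℝ) := by
      push_cast
      exact h1
    exact_mod_cast h4
  · intro Z hZ
    have h1 := E4 Z hZ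
    have h2 : ((2 * (3 * t * a + (u + cap0 + 2 * cap + 2 * a) * d) : ℕ) : ℝ) <
        ee (cg H cl 4) Z Z := by
      rw [Nat.cast_mul]
      refine lt_of_lt_of_le ?_ h1
      push_cast at z5 ⊢
      refine lt_of_lt_of_le z5 (le_of_eq ?_)
      ring
    exact_mod_cast h2
  · have hX : ∀ A Y : Finset V, δ * (c * (Fintype.card V : ℝ) ^ 2 / 100) ≤
        ee (cg H cl 5) A Y → 3 * t * a + (u + cap0 + 2 * cap + 2 * a) * d <
          ee (cg H cl 5) A Y := by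
      intro A Y h1
      have h0 : (0 : ℝ) ≤ ((3 * t * a + (u + cap0 + 2 * cap + 2 * a) * d : ℕ) : ℝ) :=
        Nat.cast_nonneg _
      have h2 : ((3 * t * a + (u + cap0 + 2 * cap + 2 * a) * d : ℕ) : ℝ) <
          ee (cg H cl 5) A Y := by
        refine lt_of_lt_of_le ?_ h1
        have h3 : δ * (c * (Fintype.card V : ℝ) ^ 2 / 100) =
          c * (δ * Fintype.card V) * Fintype.card V / 100 := by ring
        rw [h3]
        linarith
      exact_mod_cast h2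
    exact ⟨hX _ _ E5, hX _ _ E6⟩
  · refine hPt XA XB hq.cX hq.d1 (hSm _ (Or.inl rfl)) (hSm _ (Or.inr (Or.inl rfl))) ?_ ?_
    · intro j hj v hv
      refine Ct2_bt _ _ _ _ hv ?_
      intro b hb
      have h1 := c2 j hj v b hb
      have n1 := Finset.disjoint_left.1 hq.d1
      have n2 := Finset.disjoint_left.1 hq.d2
      have n3 := Finset.disjoint_left.1 hq.d3
      have n4 := Finset.disjoint_left.1 hq.d4
      have n5 := Finset.disjoint_left.1 hq.d5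
      refine ⟨fun hv' => ?_, fun hv' => ?_⟩
      · rcases h1 with h1 | h1 | h1 | h1
        · exact h1.2
        · exact absurd h1.1 (n1 hv')
        · exact absurd h1.1 (n2 hv')
        · exact absurd h1.1 (n3 hv')
      · rcases h1 with h1 | h1 | h1 | h1
        · exact absurd hv' (n1 h1.1)
        · exact h1.2
        · exact absurd h1.1 (n4 hv')
        · exact absurd h1.1 (n5 hv')
    · intro A Y h1 h2
      refine E3 A Y ?_ h2
      rcases h1 with h1 | h1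
      · exact Or.inl h1
      · exact Or.inr (Or.inl h1)
  · refine hPt YA YB hq.cY hq.d6 (hSm _ (Or.inr (Or.inr (Or.inl rfl))))
      (hSm _ (Or.inr (Or.inr (Or.inr rfl)))) ?_ ?_
    · intro j hj v hv
      refine Ct2_bt _ _ _ _ hv ?_
      intro b hb
      have h1 := c2 j hj v b hb
      have n2 := Finset.disjoint_left.1 hq.d2
      have n3 := Finset.disjoint_left.1 hq.d3
      have n4 := Finset.disjoint_left.1 hq.d4
      have n5 := Finset.disjoint_left.1 hq.d5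
      have n6 := Finset.disjoint_left.1 hq.d6
      refine ⟨fun hv' => ?_, fun hv' => ?_⟩
      · rcases h1 with h1 | h1 | h1 | h1
        · exact absurd hv' (n2 h1.1)
        · exact absurd hv' (n4 h1.1)
        · exact h1.2
        · exact absurd h1.1 (n6 hv')
      · rcases h1 with h1 | h1 | h1 | h1
        · exact absurd hv' (n3 h1.1)
        · exact absurd hv' (n5 h1.1)
        · exact absurd hv' (n6 h1.1)
        · exact h1.2
    · intro A Y h1 h2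
      refine E3 A Y ?_ h2
      rcases h1 with h1 | h1
      · exact Or.inr (Or.inr (Or.inl h1))
      · exact Or.inr (Or.inr (Or.inr h1))

end Pool.Agent.H71.TD
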