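import Mathlib
import Pool.Agent.H71.TD.Ct2E

/-!
CTSE: `ct2E` (`TD/Ct2E.lean`, use only the STATEMENT) for a set `C` of vertices of a larger graph. Compare `coc` (`DC/Coc.lean`, proved; copy its private lemmas).

Proof.  Same constants. `V1 := {v // v ∈ C}`, `H := G.comap (fun v : V1 => v.1)`, `card V1 = #C`, `dg H v = dgi G C v.1`; the quarters are `{v : V1 | v.1 ∈ XA}` etc.; `U1 ℓ := {v : V1 | v.1 ∈ U ℓ}` (`#(U1 ℓ) = #(U ℓ ∩ C)`, `mul L U1 v = mul L U v.1`, `#(univ \ U1 ℓ) = #(C \ U ℓ)`).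
`XP H (c/128) x x` follows from `XPc` and `SmPQ H univ univ Z1 (1/4) η K0` from `SmPQ G C C Z (1/4) η K0` (images under `Subtype.val`). `ct2E` gives `mm1`; `mm ℓ v := if h : v ∈ C then (mm1 ℓ ⟨v, h⟩).1 else v`.
-/

/-!
CTSE: `ct2E` (`TD/Ct2E.lean`, use only the STATEMENT) for a set `C` of vertices of a larger graph. Compare `coc` (`DC/Coc.lean`, proved; copy its private lemmas).

Proof.  Same constants. `V1 := {v // v ∈ C}`, `H := G.comap (fun v : V1 => v.1)`, `card V1 = #C`, `dg H v = dgi G C v.1`; the quarters are `{v : V1 | v.1 ∈ XA}` etc.; `U1 ℓ := {v : V1 | v.1 ∈ U ℓ}` (`#(U1 ℓ) = #(U ℓ ∩ C)`, `mul L U1 v = mul L U v.1`, `#(univ \ U1 ℓ) = #(C \ U ℓ)`).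
`XP H (c/128) x x` follows from `XPc` and `SmPQ H univ univ Z1 (1/4) η K0` from `SmPQ G C C Z (1/4) η K0` (images under `Subtype.val`). `ct2E` gives `mm1`; `mm ℓ v := if h : v ∈ C then (mm1 ℓ ⟨v, h⟩).1 else v`.
-/

set_option autoImplicit false

namespace Pool.Agent.H71.TD

open Finset Classical
open Pool.Agent.H71.DN Pool.Agent.H71.DX Pool.Agent.H71.DR Pool.Agent.H71.HL Pool.Agent.H71.DC

private theorem ctsE_cf {α : Type} (s : Finset α) (p q : α → Prop) (dp : DecidablePred p)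
    (dq : DecidablePred q) (h : ∀ x ∈ s, p x ↔ q x) :
    (@Finset.filter α p dp s).card = (@Finset.filter α q dq s).card := by
  rw [@Finset.filter_congr α p q dp dq s h]

private theorem ctsE_dg {V : Type} [Fintype V] (G : SimpleGraph V) (S : Finset V)
    (v : {v : V // v ∈ S}) :
    dg (G.comap (fun v : {v : V // v ∈ S} => v.1)) v = dgi G S v.1 := by
  unfold dg dgi
  refine Finset.card_bij (fun u _ => u.1) ?_ ?_ ?_
  · intro u hu
    rw [mem_filter] at hu ⊢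
    exact ⟨u.2, hu.2⟩
  · intro a _ b _ h
    exact Subtype.ext h
  · intro b hb
    rw [mem_filter] at hb
    refine ⟨⟨b, hb.1⟩, ?_, rfl⟩
    rw [mem_filter]
    exact ⟨mem_univ _, hb.2⟩

private theorem ctsE_ee {V : Type} [Fintype V] (G : SimpleGraph V) (S : Finset V)
    (A B : Finset {v : V // v ∈ S}) :
    ee (G.comap (fun v : {v : V // v ∈ S} => v.1)) A B =
      ee G (A.map (Function.Embedding.subtype _)) (B.map (Function.Embedding.subtype _)) := by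
  unfold ee
  refine Finset.card_bij (fun x _ => (x.1.1, x.2.1)) ?_ ?_ ?_
  · intro x hx
    rw [mem_filter, mem_product] at hx ⊢
    exact ⟨⟨mem_map_of_mem _ hx.1.1, mem_map_of_mem _ hx.1.2⟩, hx.2⟩
  · intro a _ b _ h
    rw [Prod.ext_iff] at h
    exact Prod.ext (Subtype.ext h.1) (Subtype.ext h.2)
  · intro b hb
    rw [mem_filter, mem_product, mem_map, mem_map] at hb
    obtain ⟨⟨⟨x, hx, hx1⟩, ⟨y, hy, hy1⟩⟩, hadj⟩ := hb
    refine ⟨(x, y), ?_, Prod.ext hx1 hy1⟩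
    rw [mem_filter, mem_product]
    refine ⟨⟨hx, hy⟩, ?_⟩
    rw [← hx1, ← hy1] at hadj
    exact hadj

private theorem ctsE_sd {α : Type} (i : DecidableEq α) (s t : Finset α) (a : α) :
    a ∈ s \ t ↔ a ∈ s ∧ a ∉ t := Finset.mem_sdiff

private theorem ctsE_sub {V : Type} (S : Finset V) (A : Finset {v : V // v ∈ S}) :
    A.map (Function.Embedding.subtype _) ⊆ S := by
  intro x hx
  rw [mem_map] at hx
  obtain ⟨y, -, rfl⟩ := hx
  exact y.2

/-- The part of `Z` inside `S`, as a set of elements of the subtype. -/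
private noncomputable def ctsE_z {V : Type} (S Z : Finset V) : Finset {v : V // v ∈ S} :=
  univ.filter fun v => v.1 ∈ Z

private theorem ctsE_mz {V : Type} (S Z : Finset V) (v : {v : V // v ∈ S}) :
    v ∈ ctsE_z S Z ↔ v.1 ∈ Z := by
  unfold ctsE_z
  rw [mem_filter]
  exact ⟨fun h => h.2, fun h => ⟨mem_univ _, h⟩⟩

private theorem ctsE_fz {V : Type} (S Z : Finset V) (A : Finset {v : V // v ∈ S})
    (hA : ∀ v : {v : V // v ∈ S}, v ∈ A ↔ v.1 ∈ Z) (hZ : Z ⊆ S)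
    (p : {v : V // v ∈ S} → Prop) (q : V → Prop) (dp : DecidablePred p) (dq : DecidablePred q)
    (h : ∀ x : {v : V // v ∈ S}, p x ↔ q x.1) :
    (@Finset.filter _ p dp A).card = (@Finset.filter _ q dq Z).card := by
  refine Finset.card_bij (fun u _ => u.1) ?_ ?_ ?_
  · intro u hu
    rw [mem_filter] at hu ⊢
    exact ⟨(hA u).1 hu.1, (h u).1 hu.2⟩
  · intro a _ b _ h
    exact Subtype.ext h
  · intro b hb
    rw [mem_filter] at hb
    refine ⟨⟨b, hZ hb.1⟩, ?_, rfl⟩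
    rw [mem_filter]
    exact ⟨(hA _).2 hb.1, (h _).2 hb.2⟩

private theorem ctsE_cz {V : Type} (S Z : Finset V) (hZ : Z ⊆ S) :
    (ctsE_z S Z).card = Z.card := by
  refine Finset.card_bij (fun u _ => u.1) ?_ ?_ ?_
  · intro u hu
    exact (ctsE_mz S Z u).1 hu
  · intro a _ b _ h
    exact Subtype.ext h
  · intro b hb
    exact ⟨⟨b, hZ hb⟩, (ctsE_mz S Z _).2 hb, rfl⟩

private theorem ctsE_dz {V : Type} (S Y Z : Finset V) (h : Disjoint Y Z) :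
    Disjoint (ctsE_z S Y) (ctsE_z S Z) := by
  rw [Finset.disjoint_left]
  intro a ha hb
  exact (Finset.disjoint_left.1 h) ((ctsE_mz S Y a).1 ha) ((ctsE_mz S Z a).1 hb)

private theorem ctsE_uz {V : Type}
    (S Y Z W : Finset V) (j : DecidableEq V) (k : DecidableEq {v : V // v ∈ S})
    (h : Disjoint W (Y ∪ Z)) :
    Disjoint (ctsE_z S W) (ctsE_z S Y ∪ ctsE_z S Z) := by
  rw [Finset.disjoint_left] at h ⊢
  intro a ha hb
  refine h ((ctsE_mz S W a).1 ha) ?_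
  rw [mem_union] at hb ⊢
  rcases hb with hb | hb
  · exact Or.inl ((ctsE_mz S Y a).1 hb)
  · exact Or.inr ((ctsE_mz S Z a).1 hb)

private theorem ctsE_ab (a b n a' b' n' : ℕ) (x η : ℝ) (h1 : a = a') (h2 : b = b') (h3 : n = n')
    (h : |(a' : ℝ) - x * (b' : ℝ)| ≤ η * (n' : ℝ)) : |(a : ℝ) - x * (b : ℝ)| ≤ η * (n : ℝ) := by
  rw [h1, h2, h3]
  exact h

theorem ctsE (c x : ℝ) (g : ℕ) (hc : 0 < c) (hc1 : c ≤ 1) (hx : 0 < x) (hx1 : x ≤ 1)
    (hg : 2 ≤ g) :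
    ∃ (κ ρ η : ℝ) (K0 n0 : ℕ), 0 < κ ∧ 0 < ρ ∧ 0 < η ∧ 1 ≤ K0 ∧
      ∀ (V : Type) [Fintype V] (G : SimpleGraph V) (Δ : ℕ) (C XA XB YA YB : Finset V),
        n0 ≤ C.card → c * C.card ≤ Δ → (Δ : ℝ) ≤ 2 * C.card →
        (∀ v ∈ C, dgi G C v ≤ Δ ∧ (Δ : ℝ) ≤ dgi G C v + ρ * C.card) →
        XPc G C (c / 128) x x →
        XA ⊆ C → XB ⊆ C → YA ⊆ C → YB ⊆ C →
        Disjoint XA XB → Disjoint XA YA → Disjoint XA YB → Disjoint XB YA → Disjoint XB YB →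
        Disjoint YA YB → (∀ v ∈ C, v ∈ XA ∨ v ∈ XB ∨ v ∈ YA ∨ v ∈ YB) →
        XA.card = XB.card → YA.card = YB.card →
        (∀ Z, (Z = XA ∨ Z = XB ∨ Z = YA ∨ Z = YB) → SmPQ G C C Z (1 / 4) η K0) →
        ∀ U : ℕ → Finset V, (∀ ℓ < Δ + 2, ((U ℓ ∩ C).card : ℝ) ≤ κ * C.card) →
          (∀ v ∈ C, dgi G C v + mul (Δ + 2) U v = Δ + 2) →
          (∀ ℓ < Δ / (12 * g), Disjoint (U ℓ) (XA ∪ XB)) →
          (∀ ℓ, Δ / (12 * g) ≤ ℓ → ℓ < 2 * (Δ / (12 * g)) → Disjoint (U ℓ) (YA ∪ YB)) →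
          (∀ ℓ < Δ + 2, Even (C \ U ℓ).card) →
          ∃ mm : ℕ → V → V, PM G (Δ + 2) (fun ℓ => U ℓ ∪ (univ \ C)) mm ∧
            ∀ ℓ < Δ + 2, ∀ v ∈ C, v ∉ U ℓ → mm ℓ v ≠ v := by
  obtain ⟨κ, ρ, η, K0, n0, hκ, hρ, hη, hK0, H⟩ := ct2E c x g hc hc1 hx hx1 hg
  refine ⟨κ, ρ, η, K0, n0, hκ, hρ, hη, hK0, ?_⟩
  intro V _ G Δ C XA XB YA YB hn hcΔ hΔC hreg hXP hXA hXB hYA hYB e1 e2 e3 e4 e5 e6 hcov
    hcX hcY hSm U hU hmul hd1 hd2 hev
  have hcard : Fintype.card {v : V // v ∈ C} = C.card := Fintype.card_coe C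
  have hsm : ∀ Z, Z ⊆ C → SmPQ G C C Z (1 / 4) η K0 →
      SmPQ (G.comap (fun v : {v : V // v ∈ C} => v.1)) univ univ (ctsE_z C Z) (1 / 4) η K0 := by
    intro Z hZ h b hb i
    have h1 := h (fun j => (b j).1) (fun j => (b j).2) i
    refine ctsE_ab _ _ _ _ _ _ _ _ ?_ ?_ ?_ h1
    · refine ctsE_fz C Z _ (ctsE_mz C Z) hZ _ _ _ _ (fun y => ?_)
      exact iff_of_eq (congrArg (fun n : ℕ => n ≤ i) (ctsE_cf _ _ _ _ _ (fun j _ => Iff.rfl)))
    · refine ctsE_fz C C _ (fun v => ⟨fun _ => v.2, fun _ => mem_univ _⟩) (le_refl _) _ _ _ _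
        (fun y => ?_)
      exact iff_of_eq (congrArg (fun n : ℕ => n ≤ i) (ctsE_cf _ _ _ _ _ (fun j _ => Iff.rfl)))
    · rw [card_univ, hcard]
  obtain ⟨mm0, hPM, hne0⟩ := H {v : V // v ∈ C} (G.comap (fun v : {v : V // v ∈ C} => v.1)) Δ
    (ctsE_z C XA) (ctsE_z C XB) (ctsE_z C YA) (ctsE_z C YB)
    (by
      rw [hcard]
      exact hn)
    (by
      rw [hcard]
      exact hcΔ)
    (by
      rw [hcard]
      exact hΔC)
    (by
      intro v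
      rw [ctsE_dg, hcard]
      exact hreg v.1 v.2)
    (by
      intro A Y h1 h2 h3
      rw [hcard] at h1 h2 h3 ⊢
      rw [ctsE_ee] at h3
      have h := hXP (A.map (Function.Embedding.subtype _)) (Y.map (Function.Embedding.subtype _))
        (ctsE_sub C A) (ctsE_sub C Y)
        (by
          rw [card_map]
          exact h1)
        (by
          rw [card_map]
          exact h2) h3
      rw [card_map, card_map] at h
      exact h)
    ⟨ctsE_dz _ _ _ e1, ctsE_dz _ _ _ e2, ctsE_dz _ _ _ e3, ctsE_dz _ _ _ e4,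
      ctsE_dz _ _ _ e5, ctsE_dz _ _ _ e6,
      fun v => by
        rw [ctsE_mz, ctsE_mz, ctsE_mz, ctsE_mz]
        exact hcov v.1 v.2,
      by
        rw [ctsE_cz _ _ hXA, ctsE_cz _ _ hXB]
        exact hcX,
      by
        rw [ctsE_cz _ _ hYA, ctsE_cz _ _ hYB]
        exact hcY⟩
    (by
      rintro Z (h | h | h | h)
      · rw [h]
        exact hsm XA hXA (hSm XA (Or.inl rfl))
      · rw [h]
        exact hsm XB hXB (hSm XB (Or.inr (Or.inl rfl)))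
      · rw [h]
        exact hsm YA hYA (hSm YA (Or.inr (Or.inr (Or.inl rfl))))
      · rw [h]
        exact hsm YB hYB (hSm YB (Or.inr (Or.inr (Or.inr rfl)))))
    (fun ℓ => ctsE_z C (U ℓ))
    (by
      intro ℓ hℓ
      rw [hcard]
      refine le_trans (le_of_eq ?_) (hU ℓ hℓ)
      rw [Nat.cast_inj]
      refine Finset.card_bij (fun u _ => u.1) ?_ ?_ ?_
      · intro u hu
        have hu1 := (ctsE_mz C (U ℓ) u).1 hu
        rw [mem_inter]
        exact ⟨hu1, u.2⟩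
      · intro a _ b _ h
        exact Subtype.ext h
      · intro b hb
        rw [mem_inter] at hb
        exact ⟨⟨b, hb.2⟩, (ctsE_mz C (U ℓ) _).2 hb.1, rfl⟩)
    (by
      intro v
      rw [ctsE_dg]
      have h1 : mul (Δ + 2) (fun ℓ => ctsE_z C (U ℓ)) v = mul (Δ + 2) U v.1 :=
        ctsE_cf _ _ _ _ _ (fun ℓ _ => ctsE_mz C (U ℓ) v)
      rw [h1]
      exact hmul v.1 v.2)
    (fun ℓ hℓ => ctsE_uz C XA XB (U ℓ) _ _ (hd1 ℓ hℓ))
    (fun ℓ hℓ hℓ2 => ctsE_uz C YA YB (U ℓ) _ _ (hd2 ℓ hℓ hℓ2))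
    (by
      intro ℓ hℓ
      refine (iff_of_eq (congrArg Even ?_)).2 (hev ℓ hℓ)
      refine Finset.card_bij (fun u _ => u.1) ?_ ?_ ?_
      · intro u hu
        have hu1 := (ctsE_sd _ _ _ _).1 hu
        exact (ctsE_sd _ _ _ _).2 ⟨u.2, fun h => hu1.2 ((ctsE_mz C (U ℓ) u).2 h)⟩
      · intro a _ b _ h
        exact Subtype.ext h
      · intro b hb
        have hb1 := (ctsE_sd _ _ _ _).1 hb
        exact ⟨⟨b, hb1.1⟩, (ctsE_sd _ _ _ _).2 ⟨mem_univ _,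
          fun h => hb1.2 ((ctsE_mz C (U ℓ) _).1 h)⟩, rfl⟩)
  obtain ⟨mm, hmm⟩ : ∃ mm : ℕ → V → V, mm = fun ℓ v =>
      if h : v ∈ C then (mm0 ℓ ⟨v, h⟩).1 else v := ⟨_, rfl⟩
  have hin' : ∀ (ℓ : ℕ) (v : V) (h : v ∈ C), mm ℓ v = (mm0 ℓ ⟨v, h⟩).1 := by
    intro ℓ v h
    rw [hmm]
    exact dif_pos h
  have hout' : ∀ (ℓ : ℕ) (v : V), v ∉ C → mm ℓ v = v := by
    intro ℓ v h
    rw [hmm]
    exact dif_neg h
  refine ⟨mm, ⟨?_, ?_, ?_, ?_⟩, ?_⟩
  · intro ℓ hℓ v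
    by_cases h : v ∈ C
    · rw [hin' ℓ v h, hin' ℓ _ (mm0 ℓ ⟨v, h⟩).2]
      exact congrArg Subtype.val (hPM.inv ℓ hℓ ⟨v, h⟩)
    · rw [hout' ℓ v h, hout' ℓ v h]
  · intro ℓ hℓ v hv
    by_cases h : v ∈ C
    · rw [hin' ℓ v h] at hv ⊢
      have h1 := hPM.adj ℓ hℓ ⟨v, h⟩ (fun h2 => hv (congrArg Subtype.val h2))
      exact h1
    · exact absurd (hout' ℓ v h) hv
  · intro ℓ hℓ ℓ' hℓ' hne v hv
    by_cases h : v ∈ C
    · rw [hin' ℓ v h] at hv ⊢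
      rw [hin' ℓ' v h]
      have h1 := hPM.dis ℓ hℓ ℓ' hℓ' hne ⟨v, h⟩ (fun h2 => hv (congrArg Subtype.val h2))
      exact fun h2 => h1 (Subtype.ext h2)
    · exact absurd (hout' ℓ v h) hv
  · intro ℓ hℓ v hv
    by_cases h : v ∈ C
    · rw [mem_union] at hv
      rw [hin' ℓ v h]
      have hvU : v ∈ U ℓ := by
        rcases hv with hv | hv
        · exact hv
        · exact absurd h (Finset.mem_sdiff.1 hv).2
      have h1 := hPM.fix ℓ hℓ ⟨v, h⟩ ((ctsE_mz C (U ℓ) _).2 hvU)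
      exact congrArg Subtype.val h1
    · exact hout' ℓ v h
  · intro ℓ hℓ v hv hvU h
    rw [hin' ℓ v hv] at h
    exact hne0 ℓ hℓ ⟨v, hv⟩ (fun h2 => hvU ((ctsE_mz C (U ℓ) _).1 h2)) (Subtype.ext h)

end Pool.Agent.H71.TD
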