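import Mathlib
import Pool.Agent.H71.TD.Ifc

/-!
CNT: counting the labels at a vertex.
-/

set_option autoImplicit false

namespace Pool.Agent.H71.TD

open Finset Classical
open Pool.Agent.H71.DN Pool.Agent.H71.DX Pool.Agent.H71.DR Pool.Agent.H71.HL Pool.Agent.H71.DC

theorem cntF {V : Type} [Fintype V] (G : SimpleGraph V) (Δ k t : ℕ) (ty : ℕ → Prop)
    (nd qt : V → ℕ) (δ : ℝ) (φ : ℕ → V → V) (c0 : V → ℕ)
    (hF : FcOut G Δ k ty nd qt t δ φ c0) (v : V) :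
    ((range (Δ + 2)).filter fun ℓ => φ ℓ v ≠ v).card = dg (Fg G k ty nd) v := by
  unfold dg
  refine card_bij (fun ℓ _ => φ ℓ v) ?_ ?_ ?_
  · intro ℓ hℓ
    rw [mem_filter, mem_range] at hℓ
    rw [mem_filter]
    exact ⟨mem_univ _, hF.adj ℓ hℓ.1 v hℓ.2⟩
  · intro a ha b hb hab
    rw [mem_filter, mem_range] at ha hb
    by_contra hne
    exact hF.dis a ha.1 b hb.1 hne v ha.2 hab
  · intro u hu
    rw [mem_filter] at hu
    obtain ⟨ℓ, hℓ, hu2⟩ := hF.cov v u hu.2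
    refine ⟨ℓ, ?_, hu2⟩
    rw [mem_filter, mem_range]
    refine ⟨hℓ, ?_⟩
    rw [hu2]
    exact hu.2.ne'

theorem mulU {V : Type} [Fintype V] (G : SimpleGraph V) (Δ k t : ℕ) (ty : ℕ → Prop)
    (nd qt : V → ℕ) (δ κ : ℝ) (φ : ℕ → V → V) (c0 cc hh : V → ℕ)
    (hF : FcOut G Δ k ty nd qt t δ φ c0) (hG : GaOut G Δ k ty nd qt t κ φ cc hh) (v : V) :
    mul (Δ + 2) (fun ℓ => univ.filter fun v => φ ℓ v ≠ v ∨ cc v = ℓ ∨ hh v = ℓ) v =
      dg (Fg G k ty nd) v + 2 := by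
  rw [← cntF G Δ k t ty nd qt δ φ c0 hF v]
  unfold mul
  have h1 : ((range (Δ + 2)).filter fun ℓ =>
      v ∈ univ.filter fun v => φ ℓ v ≠ v ∨ cc v = ℓ ∨ hh v = ℓ) =
      ((range (Δ + 2)).filter fun ℓ => φ ℓ v ≠ v) ∪ {cc v, hh v} := by
    ext ℓ
    simp only [mem_filter, mem_range, mem_univ, true_and, mem_union, mem_insert, mem_singleton]
    have h2 := hG.lt v
    constructor
    · rintro ⟨h3, h4 | h4 | h4⟩
      · exact Or.inl ⟨h3, h4⟩
      · exact Or.inr (Or.inl h4.symm)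
      · exact Or.inr (Or.inr h4.symm)
    · rintro (h3 | h3 | h3)
      · exact ⟨h3.1, Or.inl h3.2⟩
      · exact ⟨by omega, Or.inr (Or.inl h3.symm)⟩
      · exact ⟨by omega, Or.inr (Or.inr h3.symm)⟩
  rw [h1, card_union_of_disjoint]
  · rw [card_pair (hG.lt v).2.2]
  · rw [disjoint_left]
    intro ℓ hℓ hℓ2
    rw [mem_filter] at hℓ
    rw [mem_insert, mem_singleton] at hℓ2
    rcases hℓ2 with h | h
    · exact hℓ.2 (h ▸ (hG.fr v).1)
    · exact hℓ.2 (h ▸ (hG.fr v).2)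

private theorem dgS {V : Type} [Fintype V] (G : SimpleGraph V) (k : ℕ) (ty : ℕ → Prop)
    (nd : V → ℕ) (v : V) (S : Finset V)
    (h : ∀ u, (Hg G k ty nd).Adj v u ↔ u ∈ S ∧ G.Adj v u) :
    dg (Fg G k ty nd) v + dgi G S v = dg G v := by
  unfold dg dgi
  rw [← card_union_of_disjoint]
  · congr 1
    ext u
    simp only [mem_union, mem_filter, mem_univ, true_and]
    constructor
    · rintro (h1 | h1)
      · exact h1.1
      · exact h1.2
    · intro h1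
      by_cases h2 : u ∈ S
      · exact Or.inr ⟨h2, h1⟩
      · exact Or.inl ⟨h1, fun h3 => h2 ((h u).1 h3).1⟩
  · rw [disjoint_left]
    intro u hu hu2
    simp only [mem_filter, mem_univ, true_and] at hu hu2
    exact hu.2 ((h u).2 hu2)

theorem dgE {V : Type} [Fintype V] (G : SimpleGraph V) (k : ℕ) (ty : ℕ → Prop)
    (nd : V → ℕ) (i : ℕ) (hi : i < k) (hty : ty i) (he : pt nd (2 * i + 1) = ∅) (v : V)
    (hv : v ∈ pt nd (2 * i)) :
    dg (Fg G k ty nd) v + dgi G (pt nd (2 * i)) v = dg G v := by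
  have hv2 : nd v = 2 * i := (mem_filter.1 hv).2
  refine dgS G k ty nd v _ fun u => ?_
  have hu1 : nd u ≠ 2 * i + 1 := fun h => by
    have h2 : u ∈ pt nd (2 * i + 1) := mem_filter.2 ⟨mem_univ _, h⟩
    rw [he] at h2
    exact absurd h2 (notMem_empty _)
  constructor
  · rintro ⟨h1, h2, h3, h4, h5⟩
    refine ⟨mem_filter.2 ⟨mem_univ _, ?_⟩, h1⟩
    omega
  · rintro ⟨h1, h2⟩
    have h3 : nd u = 2 * i := (mem_filter.1 h1).2
    refine ⟨h2, by omega, by omega, by omega, Or.inl ?_⟩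
    rw [hv2]
    have : 2 * i / 2 = i := by omega
    rw [this]
    exact hty

theorem dgA {V : Type} [Fintype V] (G : SimpleGraph V) (k : ℕ) (ty : ℕ → Prop)
    (nd : V → ℕ) (i : ℕ) (hi : i < k) (hty : ¬ ty i) (v : V) (hv : v ∈ pt nd (2 * i)) :
    dg (Fg G k ty nd) v + dgi G (pt nd (2 * i + 1)) v = dg G v := by
  have hv2 : nd v = 2 * i := (mem_filter.1 hv).2
  refine dgS G k ty nd v _ fun u => ?_
  have hd : 2 * i / 2 = i := by omega
  constructor
  · rintro ⟨h1, h2, h3, h4, h5⟩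
    refine ⟨mem_filter.2 ⟨mem_univ _, ?_⟩, h1⟩
    rcases h5 with h5 | h5
    · rw [hv2, hd] at h5
      exact absurd h5 hty
    · omega
  · rintro ⟨h1, h2⟩
    have h3 : nd u = 2 * i + 1 := (mem_filter.1 h1).2
    exact ⟨h2, by omega, by omega, by omega, Or.inr (by omega)⟩

theorem dgB {V : Type} [Fintype V] (G : SimpleGraph V) (k : ℕ) (ty : ℕ → Prop)
    (nd : V → ℕ) (i : ℕ) (hi : i < k) (hty : ¬ ty i) (v : V) (hv : v ∈ pt nd (2 * i + 1)) :
    dg (Fg G k ty nd) v + dgi G (pt nd (2 * i)) v = dg G v := by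
  have hv2 : nd v = 2 * i + 1 := (mem_filter.1 hv).2
  refine dgS G k ty nd v _ fun u => ?_
  have hd : (2 * i + 1) / 2 = i := by omega
  constructor
  · rintro ⟨h1, h2, h3, h4, h5⟩
    refine ⟨mem_filter.2 ⟨mem_univ _, ?_⟩, h1⟩
    rcases h5 with h5 | h5
    · rw [hv2, hd] at h5
      exact absurd h5 hty
    · omega
  · rintro ⟨h1, h2⟩
    have h3 : nd u = 2 * i := (mem_filter.1 h1).2
    exact ⟨h2, by omega, by omega, by omega, Or.inr (by omega)⟩

end Pool.Agent.H71.TD
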