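import Mathlib
import Pool.Agent.H71.TD.Ifc
import Pool.Agent.H65.SPL.Pai
import Pool.Agent.H65.SPL.Sm
import Pool.Agent.H65.SPL.G1
import Pool.Agent.H65.SPL.G2
import Pool.Agent.H65.SPL.Dg

/-!
SPL: random splitting of the parts into quarters (assembly).

The quarters are given by a random function `f : V → Fin 4` and a pairing of the vertices of the parts. The sampling
properties fail for less than a quarter of the functions (`spS`), `gs1` fails for at most a quarter (`spG1b`, Markov), and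
`gs2` fails for at most a quarter (`spG2`, Chebyshev). So there is a good function.
-/

set_option autoImplicit false

namespace Pool.Agent.H71.TD

open Finset Classical
open Pool.Agent.H71.DN Pool.Agent.H71.DX Pool.Agent.H71.DR Pool.Agent.H71.HL Pool.Agent.H71.DC

private theorem spl_num1 {c f1 f : ℝ} {k L n : ℕ} (hf1 : 0 < f1) (hn : 0 < n)
    (hk : (k : ℝ) * c ≤ 2) (hf : f ≤ c * f1 / 128) (hL : (L : ℝ) ≤ f * n)
    {N W : ℝ} (hW : 0 < W) (h : N * (f1 * n) ≤ 16 * k * L * W) : 4 * N ≤ W := by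
  have hn' : (0 : ℝ) < n := by exact_mod_cast hn
  have h1 : (k : ℝ) * L ≤ k * (f * n) := mul_le_mul_of_nonneg_left hL (by positivity)
  have h2 : (k : ℝ) * f ≤ f1 / 64 := by
    have h3 : (k : ℝ) * f ≤ k * (c * f1 / 128) := mul_le_mul_of_nonneg_left hf (by positivity)
    have h4 : (k : ℝ) * (c * f1 / 128) = (k * c) * (f1 / 128) := by ring
    have h5 : ((k : ℝ) * c) * (f1 / 128) ≤ 2 * (f1 / 128) :=
      mul_le_mul_of_nonneg_right hk (by positivity)
    linarith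
  have h6 : 16 * (k : ℝ) * L * W ≤ 16 * (f1 / 64 * n) * W := by
    refine mul_le_mul_of_nonneg_right ?_ hW.le
    have h7 : (k : ℝ) * (f * n) = k * f * n := by ring
    have h8 : (k : ℝ) * f * n ≤ f1 / 64 * n := mul_le_mul_of_nonneg_right h2 hn'.le
    nlinarith
  have h9 : N * (f1 * n) ≤ (W / 4) * (f1 * n) := by
    have h10 : 16 * (f1 / 64 * n) * W = (W / 4) * (f1 * n) := by ring
    linarith
  have h11 := le_of_mul_le_mul_right h9 (by positivity)
  linarith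

private theorem spl_num2 {c f1 ξ : ℝ} {k n : ℕ} (hc : 0 < c) (hf1 : 0 < f1) (hn : 0 < n)
    (hk : (k : ℝ) * c ≤ 2) (hξ : ξ ≤ c ^ 2 * f1 / 6144)
    (hn2 : 12288 / (c ^ 2 * f1) ≤ n)
    {N W : ℝ} (hW : 0 < W) (h : N * (f1 * n) ≤ 24 * (ξ * n + 2) * W) :
    4 * ((8 * (k : ℝ) ^ 2) * N) ≤ W := by
  have hn' : (0 : ℝ) < n := by exact_mod_cast hn
  have hcf : 0 < c ^ 2 * f1 := by positivity
  have h1 : 12288 ≤ n * (c ^ 2 * f1) := by
    rw [div_le_iff₀ hcf] at hn2
    exact hn2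
  have h2 : 3072 * (ξ * n + 2) ≤ c ^ 2 * f1 * n := by
    have h3 : ξ * n ≤ c ^ 2 * f1 / 6144 * n := mul_le_mul_of_nonneg_right hξ hn'.le
    linarith
  have hkc : (k : ℝ) ^ 2 * c ^ 2 ≤ 4 := by
    have h4 : ((k : ℝ) * c) ^ 2 ≤ 2 ^ 2 := by
      refine pow_le_pow_left₀ (by positivity) hk 2
    nlinarith
  have h5 : (32 * (k : ℝ) ^ 2 * N) * (f1 * n) ≤ 32 * (k : ℝ) ^ 2 * (24 * (ξ * n + 2) * W) := by
    have := mul_le_mul_of_nonneg_left h (show (0 : ℝ) ≤ 32 * (k : ℝ) ^ 2 by positivity)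
    linarith
  have h6 : 32 * (k : ℝ) ^ 2 * (24 * (ξ * n + 2) * W) ≤ W * (f1 * n) := by
    have h7 : (k : ℝ) ^ 2 * (3072 * (ξ * n + 2)) ≤ (k : ℝ) ^ 2 * (c ^ 2 * f1 * n) :=
      mul_le_mul_of_nonneg_left h2 (by positivity)
    have h8 : (k : ℝ) ^ 2 * (c ^ 2 * f1 * n) = ((k : ℝ) ^ 2 * c ^ 2) * (f1 * n) := by ring
    have h9 : ((k : ℝ) ^ 2 * c ^ 2) * (f1 * n) ≤ 4 * (f1 * n) :=
      mul_le_mul_of_nonneg_right hkc (by positivity)
    have h10 : (k : ℝ) ^ 2 * (3072 * (ξ * n + 2)) ≤ 4 * (f1 * n) := by linarith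
    have h11 := mul_le_mul_of_nonneg_right h10 hW.le
    have h12 : 32 * (k : ℝ) ^ 2 * (24 * (ξ * n + 2) * W) =
      (k : ℝ) ^ 2 * (3072 * (ξ * n + 2)) * W / 4 := by ring
    rw [h12]
    linarith
  have h13 := le_of_mul_le_mul_right (h5.trans h6) (by positivity)
  linarith

theorem spl (c η f1 : ℝ) (KE KB : ℕ) (hc : 0 < c) (hc1 : c ≤ 1) (hη : 0 < η) (hf1 : 0 < f1) :
    ∃ (ξ0 f0 : ℝ) (n0 : ℕ), 0 < ξ0 ∧ 0 < f0 ∧
      ∀ (V : Type) [Fintype V] (G : SimpleGraph V) (Δ k : ℕ) (x ξ ζ f : ℝ) (ty : ℕ → Prop)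
        (nd : V → ℕ) (sf : ℕ → Finset V), n0 ≤ Fintype.card V → c * Fintype.card V ≤ Δ →
        0 ≤ ξ → ξ ≤ ξ0 → 0 ≤ f → f ≤ f0 → Str G Δ c x ξ ζ f k ty nd sf →
        ∃ qt : V → ℕ, Spl G k ty nd qt η KE KB f1 := by
  obtain ⟨n1, hn1⟩ := Pool.Agent.H65.SPL.spS c η KE KB 4 hc hη
  refine ⟨min (c / 2) (c ^ 2 * f1 / 6144), c * f1 / 128,
    n1 + ⌈12288 / (c ^ 2 * f1)⌉₊ + 1, lt_min (by positivity) (by positivity), by positivity, ?_⟩
  intro V _ G Δ k x ξ ζ f ty nd sf hn hcΔ hξ0 hξ hf0 hf H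
  have hnpos : 0 < Fintype.card V := by omega
  have hnR : (0 : ℝ) < Fintype.card V := by exact_mod_cast hnpos
  have hn2 : 12288 / (c ^ 2 * f1) ≤ Fintype.card V := by
    refine (Nat.le_ceil _).trans ?_
    have : ⌈12288 / (c ^ 2 * f1)⌉₊ ≤ Fintype.card V := by omega
    exact_mod_cast this
  have hξc : ξ ≤ c / 2 := hξ.trans (min_le_left _ _)
  have hξ2 : ξ ≤ c ^ 2 * f1 / 6144 := hξ.trans (min_le_right _ _)
  obtain ⟨τ, E, hP⟩ := Pool.Agent.H65.SPL.spPai k ty nd H.e1 H.b1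
  have hρ := Pool.Agent.H65.SPL.rp_two hP
  obtain ⟨W, hW⟩ : ∃ W : ℝ, W = (4 : ℝ) ^ Fintype.card V := ⟨_, rfl⟩
  have hWp : 0 < W := by rw [hW]; positivity
  -- sampling
  have hB1 := hn1 V G k ty nd τ E hP (by omega) H.kc (by
    intro i hi
    have h1 := H.big i hi
    have h2 : ξ * Fintype.card V ≤ c / 2 * Fintype.card V :=
      mul_le_mul_of_nonneg_right hξc hnR.le
    linarith) (fun i hi h => (H.e1 i hi h).1) H.b1
  obtain ⟨B1, hB1d⟩ : ∃ B1 : Finset (V → Fin 4), B1 =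
      (univ.filter fun f : V → Fin 4 =>
        ¬ ((∀ i < k, ty i → ∀ j < 4, SmPQ G (pt nd (2 * i)) (pt nd (2 * i))
            (qs nd (Pool.Agent.H65.SPL.qq k ty nd τ E f) i j) (1 / 4) η KE) ∧
          (∀ i < k, ¬ ty i → ∀ j, (j = 0 ∨ j = 2) → SmPQ G (pt nd (2 * i)) (pt nd (2 * i + 1))
            (qs nd (Pool.Agent.H65.SPL.qq k ty nd τ E f) i j) (1 / 2) η KB) ∧
          (∀ i < k, ¬ ty i → ∀ j, (j = 1 ∨ j = 3) → SmPQ G (pt nd (2 * i + 1)) (pt nd (2 * i))
            (qs nd (Pool.Agent.H65.SPL.qq k ty nd τ E f) i j) (1 / 2) η KB))) := ⟨_, rfl⟩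
  obtain ⟨B2, hB2d⟩ : ∃ B2 : Finset (V → Fin 4), B2 =
      (univ.filter fun f : V → Fin 4 => f1 * Fintype.card V <
        ((∑ w ∈ pt nd (2 * k), ∑ j ∈ range (2 * k),
        ((dgi G (pt nd j) w - 8 * dgi G ((pt nd j).filter fun v =>
            Pool.Agent.H65.SPL.sg (f (Pool.Agent.H65.SPL.rp τ E v)) = 1) w) +
          (dgi G (pt nd j) w - 8 * dgi G ((pt nd j).filter fun v =>
            Pool.Agent.H65.SPL.sg (f (Pool.Agent.H65.SPL.rp τ E v)) = -1) w)) : ℕ) : ℝ)) := ⟨_, rfl⟩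
  rw [← hB1d] at hB1
  -- the stars
  have hB2 := Pool.Agent.H65.SPL.spG1b G k nd (Pool.Agent.H65.SPL.rp τ E) hρ
    (f1 * Fintype.card V) (by positivity)
  rw [← hB2d] at hB2
  rw [← hW] at hB1 hB2
  have hB2' := spl_num1 hf1 hnpos H.kc hf H.lo hWp hB2
  -- the pairs of pieces
  let sσ : Bool → ℝ := fun b => if b then 1 else -1
  have hσ : ∀ b, sσ b = 1 ∨ sσ b = -1 := by
    intro b
    cases b
    · right
      simp [sσ]
    · left
      simp [sσ]
  let B3 : (ℕ × ℕ) × Bool → Finset (V → Fin 4) := fun o => univ.filter fun g : V → Fin 4 =>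
      16 * (ee (Fg G k ty nd)
        ((pt nd o.1.1).filter fun v => sσ o.2 * Pool.Agent.H65.SPL.sg
          (g (Pool.Agent.H65.SPL.rp τ E v)) = 1)
        ((pt nd o.1.2).filter fun v => sσ o.2 * Pool.Agent.H65.SPL.sg
          (g (Pool.Agent.H65.SPL.rp τ E v)) = 1) : ℝ) + f1 * Fintype.card V <
        (ee (Fg G k ty nd) (pt nd o.1.1) (pt nd o.1.2) : ℝ)
  have hB3 : ∀ o ∈ (range (2 * k) ×ˢ range (2 * k)) ×ˢ (univ : Finset Bool),
      ((B3 o).card : ℝ) * (f1 * Fintype.card V) ≤ 24 * (ξ * Fintype.card V + 2) * W := by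
    rintro ⟨⟨i, j⟩, b⟩ ho
    rw [mem_product, mem_product, mem_range, mem_range] at ho
    rw [hW]
    refine Pool.Agent.H65.SPL.spG2 (Fg G k ty nd) (Pool.Agent.H65.SPL.rp τ E) hρ (pt nd i)
      (pt nd j) (ξ * Fintype.card V) (by positivity) ?_ (sσ b) (hσ b) (f1 * Fintype.card V)
      (by positivity)
    intro v hv
    refine Pool.Agent.H65.SPL.spD G Δ c x ξ ζ f k ty nd sf H v ?_
    rw [mem_union] at hv
    rcases hv with hv | hv
    · have h1 : nd v = i := (mem_filter.mp hv).2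
      rw [h1]
      exact ho.1.1
    · have h1 : nd v = j := (mem_filter.mp hv).2
      rw [h1]
      exact ho.1.2
  have hB3' : 4 * (∑ o ∈ (range (2 * k) ×ˢ range (2 * k)) ×ˢ (univ : Finset Bool),
      ((B3 o).card : ℝ)) ≤ W := by
    obtain ⟨N, hN⟩ : ∃ N : ℝ, N = 24 * (ξ * Fintype.card V + 2) * W / (f1 * Fintype.card V) :=
      ⟨_, rfl⟩
    have h1 : ∀ o ∈ (range (2 * k) ×ˢ range (2 * k)) ×ˢ (univ : Finset Bool),
        ((B3 o).card : ℝ) ≤ N := by
      intro o ho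
      rw [hN, le_div_iff₀ (by positivity)]
      exact hB3 o ho
    have h2 := Finset.sum_le_sum h1
    rw [Finset.sum_const, card_product, card_product, card_range, Finset.card_univ,
      Fintype.card_bool, nsmul_eq_mul] at h2
    have h3 : N * (f1 * Fintype.card V) ≤ 24 * (ξ * Fintype.card V + 2) * W := by
      rw [hN, div_mul_cancel₀ _ (by positivity)]
    have h4 := spl_num2 hc hf1 hnpos H.kc hξ2 hn2 hWp h3
    have h5 : ((2 * k * (2 * k) * 2 : ℕ) : ℝ) * N = 8 * (k : ℝ) ^ 2 * N := by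
      push_cast
      ring
    rw [h5] at h2
    linarith
  -- a good function
  obtain ⟨g, hg1, hg2, hg3⟩ : ∃ g : V → Fin 4, g ∉ B1 ∧ g ∉ B2 ∧
      ∀ o ∈ (range (2 * k) ×ˢ range (2 * k)) ×ˢ (univ : Finset Bool), g ∉ B3 o := by
    by_contra hcon
    have hcov : (univ : Finset (V → Fin 4)) ⊆ (B1 ∪ B2) ∪
        ((range (2 * k) ×ˢ range (2 * k)) ×ˢ (univ : Finset Bool)).biUnion B3 := by
      intro g _
      rw [mem_union, mem_union]
      by_contra h
      rw [not_or, not_or] at h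
      refine hcon ⟨g, h.1.1, h.1.2, ?_⟩
      intro o ho h3
      exact h.2 (mem_biUnion.mpr ⟨o, ho, h3⟩)
    have hle := (card_le_card hcov).trans ((card_union_le _ _).trans
      (Nat.add_le_add (card_union_le _ _) card_biUnion_le))
    rw [card_univ, Fintype.card_fun, Fintype.card_fin] at hle
    have hle' : W ≤ (B1.card : ℝ) + B2.card +
        ∑ o ∈ (range (2 * k) ×ˢ range (2 * k)) ×ˢ (univ : Finset Bool), ((B3 o).card : ℝ) := by
      rw [hW]
      exact_mod_cast hle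
    push_cast at hB1
    linarith
  rw [hB1d, mem_filter, not_and, not_not] at hg1
  rw [hB2d, mem_filter, not_and, not_lt] at hg2
  obtain ⟨s1, s2, s3⟩ := hg1 (mem_univ _)
  have hg2' := hg2 (mem_univ _)
  obtain ⟨q1, q2, q3, q4, q5⟩ := Pool.Agent.H65.SPL.spQt hP g
  have f1' : ∀ j < 2 * k, ((pt nd j).filter fun v => Pool.Agent.H65.SPL.qq k ty nd τ E g v < 2) =
      (pt nd j).filter fun v => Pool.Agent.H65.SPL.sg (g (Pool.Agent.H65.SPL.rp τ E v)) = 1 := by
    intro j hj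
    refine filter_congr ?_
    intro v hv
    have h1 : nd v = j := (mem_filter.mp hv).2
    exact q4 v (by rw [h1]; exact hj)
  have f2' : ∀ j < 2 * k, ((pt nd j).filter fun v => 2 ≤ Pool.Agent.H65.SPL.qq k ty nd τ E g v) =
      (pt nd j).filter fun v => Pool.Agent.H65.SPL.sg (g (Pool.Agent.H65.SPL.rp τ E v)) = -1 := by
    intro j hj
    refine filter_congr ?_
    intro v hv
    have h1 : nd v = j := (mem_filter.mp hv).2
    exact q5 v (by rw [h1]; exact hj)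
  refine ⟨Pool.Agent.H65.SPL.qq k ty nd τ E g, ⟨q1, q2, q3, s1, s2, s3, ?_, ?_⟩⟩
  · refine le_trans (le_of_eq ?_) hg2'
    congr 1
    refine sum_congr rfl fun w _ => sum_congr rfl fun j hj => ?_
    rw [mem_range] at hj
    rw [f1' j hj, f2' j hj]
  · intro i hi j hj
    constructor
    · have h1 := hg3 ((i, j), true) (by
        rw [mem_product, mem_product, mem_range, mem_range]
        exact ⟨⟨hi, hj⟩, mem_univ _⟩)
      simp only [B3, mem_filter, mem_univ, true_and, not_lt, sσ, if_true, one_mul] at h1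
      rw [f1' i hi, f1' j hj]
      exact h1
    · have h1 := hg3 ((i, j), false) (by
        rw [mem_product, mem_product, mem_range, mem_range]
        exact ⟨⟨hi, hj⟩, mem_univ _⟩)
      have h2 : ∀ v, (-1 : ℝ) * Pool.Agent.H65.SPL.sg (g (Pool.Agent.H65.SPL.rp τ E v)) = 1 ↔
          Pool.Agent.H65.SPL.sg (g (Pool.Agent.H65.SPL.rp τ E v)) = -1 := by
        intro v
        constructor
        · intro h
          linarith
        · intro h
          rw [h]
          norm_num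
      simp only [B3, mem_filter, mem_univ, true_and, not_lt, sσ, Bool.false_eq_true, if_false,
        h2] at h1
      rw [f2' i hi, f2' j hj]
      exact h1

end Pool.Agent.H71.TD
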