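import Mathlib
import Pool.Agent.H71.TD.Defs

/-!
REGL: a graph with maximum degree at most `Δ` is contained in a `Δ`-regular graph with at most `20 n + 20` vertices.

Proof.  `n = card V`. `n = 0`: then `Δ ≤ 0`, impossible. Let `M := 16 n` and `V' := (V × Fin 2) ⊕ Fin M` (or `ZMod M`), `e v := inl (v, 0)`. Let `δ v := Δ - dg G v`, enumerate `V × Fin 2` as `p_0, ..., p_{2 n - 1}` (an equivalence with `Fin (2 n)`), `δ_i := δ (p_i).1 ≤ Δ ≤ n < M`, `s_i := ∑_{j < i} δ_j`,
`D := ∑_{j < 2 n} δ_j = 2 ∑_v δ v ≤ 2 n Δ`, `q := D / M ≤ Δ / 8`, `r := D % M`; `r` is even, since `D` and `M` are even. Edges of `G'`: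
 (1) `inl (a, b) - inl (a', b)` if `G.Adj a a'`;
 (2) `inl p_i - inr x` if there is `j < δ_i` with `x = (s_i + j) % M` (for fixed `i` these are `δ_i` different `x`; a given `x` gets one edge for every `y < D` with `y % M = x` (`y` is in exactly one interval `[s_i, s_i + δ_i)`, and different `y` with the same residue belong to different `i` as `δ_i < M`): `q` edges, and one more if `x < r`);
 (3) `inr x - inr x'`, `x ≠ x'`: let `K := Δ - q`. `K ≥ 2` (if `Δ < 8` then `q = 0`; otherwise `q ≤ Δ / 8`). Let `m` be the cyclic distance of `x, x'` modulo `M` (`min ((x - x') % M) ((x' - x) % M)`); they are adjacent iff (`m ≤ K / 2`, or `K` is odd and `m = M / 2`), and not (`x / 2 = x' / 2` and `x < r`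
 (equivalently `x' < r`)). `K / 2 < M / 2`, so without the last condition the degree is `2 (K / 2) + (K % 2) = K`; the pairs `{2 j, 2 j + 1}` with `2 j < r` have distance `1 ≤ K / 2`; so `x` has degree `K - 1` for `x < r` and `K` otherwise.
So all degrees are `Δ`. `card V' = 18 n`.

(The Lean proof below takes another way: `V' = V ⊕ Fin (3 n + 10)` and a graph on `V'` with maximum degree at most `Δ`
that contains the copy of `G` and has the largest number of edges; deficient vertices are adjacent, and a switch of one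
edge gives a contradiction.)
-/

set_option autoImplicit false

namespace Pool.Agent.H71.TD

open Finset Classical
open Pool.Agent.H71.DN Pool.Agent.H71.DX Pool.Agent.H71.DR Pool.Agent.H71.HL Pool.Agent.H71.DC

private theorem regl_deg {V : Type} [Fintype V] (G : SimpleGraph V) (v : V) :
    dg G v = G.degree v := by
  unfold dg
  rw [← SimpleGraph.card_neighborFinset_eq_degree]
  apply congrArg Finset.card
  ext u
  simp

private theorem regl_dgc {V : Type} [Fintype V] (G : SimpleGraph V) (v : V) (S : Finset V)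
    (h : ∀ a, a ∈ S ↔ G.Adj v a) : dg G v = S.card := by
  unfold dg
  apply congrArg Finset.card
  ext a
  rw [mem_filter, h a]
  exact ⟨fun h => h.2, fun h => ⟨mem_univ _, h⟩⟩

private theorem regl_even {V : Type} [Fintype V] (G : SimpleGraph V) :
    ∃ m, ∑ v, dg G v = 2 * m := by
  refine ⟨G.edgeFinset.card, ?_⟩
  rw [← G.sum_degrees_eq_twice_card_edges]
  exact Finset.sum_congr rfl fun v _ => regl_deg G v

private theorem regl_add {V : Type} [Fintype V] (H : SimpleGraph V) {u v : V} (h1 : u ≠ v)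
    (h2 : ¬ H.Adj u v) (w : V) :
    dg (H ⊔ SimpleGraph.edge u v) w =
      dg H w + (if w = u then 1 else 0) + (if w = v then 1 else 0) := by
  have hw : ∀ a, a ∈ (univ.filter fun a => H.Adj w a) ↔ H.Adj w a := fun a => by
    rw [mem_filter]
    exact ⟨fun h => h.2, fun h => ⟨mem_univ _, h⟩⟩
  have e0 : dg H w = (univ.filter fun a => H.Adj w a).card := rfl
  have key : ∀ a, (H ⊔ SimpleGraph.edge u v).Adj w a ↔
      (H.Adj w a ∨ (w = u ∧ a = v) ∨ (w = v ∧ a = u)) := by
    intro a
    rw [SimpleGraph.sup_adj, SimpleGraph.edge_adj]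
    constructor
    · rintro (h | ⟨h | h, _⟩)
      · exact Or.inl h
      · exact Or.inr (Or.inl ⟨h.1, h.2⟩)
      · exact Or.inr (Or.inr ⟨h.1, h.2⟩)
    · rintro (h | ⟨rfl, rfl⟩ | ⟨rfl, rfl⟩)
      · exact Or.inl h
      · exact Or.inr ⟨Or.inl ⟨rfl, rfl⟩, h1⟩
      · exact Or.inr ⟨Or.inr ⟨rfl, rfl⟩, h1.symm⟩
  by_cases hu : w = u
  · have e1 : dg (H ⊔ SimpleGraph.edge u v) w =
        (insert v (univ.filter fun a => H.Adj w a)).card := by
      apply regl_dgc
      intro a
      rw [mem_insert, hw, key]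
      constructor
      · rintro (h | h)
        · exact Or.inr (Or.inl ⟨hu, h⟩)
        · exact Or.inl h
      · rintro (h | ⟨_, h⟩ | ⟨h, _⟩)
        · exact Or.inr h
        · exact Or.inl h
        · exact absurd (hu.symm.trans h) h1
    rw [e1, card_insert_of_notMem (by rw [hw, hu]; exact h2), if_pos hu,
      if_neg (fun h => h1 (hu.symm.trans h)), e0]
  · by_cases hv : w = v
    · have e1 : dg (H ⊔ SimpleGraph.edge u v) w =
          (insert u (univ.filter fun a => H.Adj w a)).card := by
        apply regl_dgc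
        intro a
        rw [mem_insert, hw, key]
        constructor
        · rintro (h | h)
          · exact Or.inr (Or.inr ⟨hv, h⟩)
          · exact Or.inl h
        · rintro (h | ⟨h, _⟩ | ⟨_, h⟩)
          · exact Or.inr h
          · exact absurd h hu
          · exact Or.inl h
      rw [e1, card_insert_of_notMem (by rw [hw, hv]; exact fun h => h2 h.symm), if_neg hu,
        if_pos hv, e0]
    · have e1 : dg (H ⊔ SimpleGraph.edge u v) w =
          (univ.filter fun a => H.Adj w a).card := by
        apply regl_dgc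
        intro a
        rw [hw, key]
        constructor
        · exact fun h => Or.inl h
        · rintro (h | ⟨h, _⟩ | ⟨h, _⟩)
          · exact h
          · exact absurd h hu
          · exact absurd h hv
      rw [e1, if_neg hu, if_neg hv, e0, add_zero, add_zero]

private theorem regl_del {V : Type} [Fintype V] (H : SimpleGraph V) {x y : V} (h : H.Adj x y)
    (w : V) :
    dg H w = dg (H \ SimpleGraph.edge x y) w + (if w = x then 1 else 0) +
      (if w = y then 1 else 0) := by
  have h1 : ¬ (H \ SimpleGraph.edge x y).Adj x y := by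
    rw [SimpleGraph.sdiff_adj, SimpleGraph.edge_adj]
    rintro ⟨_, h2⟩
    exact h2 ⟨Or.inl ⟨rfl, rfl⟩, h.ne⟩
  have h2 : (H \ SimpleGraph.edge x y) ⊔ SimpleGraph.edge x y = H := by
    apply sdiff_sup_cancel
    intro a b hab
    rw [SimpleGraph.edge_adj] at hab
    obtain ⟨⟨rfl, rfl⟩ | ⟨rfl, rfl⟩, _⟩ := hab
    · exact h
    · exact h.symm
  have h3 := regl_add (H \ SimpleGraph.edge x y) h.ne h1 w
  rw [h2] at h3
  exact h3

/-- The switch. -/
private theorem regl_switch {V : Type} [Fintype V] (H : SimpleGraph V) {u v x y : V}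
    (hxu : x ≠ u) (hxv : x ≠ v) (hyv : y ≠ v) (hux : ¬ H.Adj u x) (hvy : ¬ H.Adj v y)
    (hxy : H.Adj x y) :
    ∃ H' : SimpleGraph V, H \ SimpleGraph.edge x y ≤ H' ∧
      ∀ w, dg H' w = dg H w + (if w = u then 1 else 0) + (if w = v then 1 else 0) := by
  set H1 := H \ SimpleGraph.edge x y with hH1
  set H2 := H1 ⊔ SimpleGraph.edge u x with hH2
  refine ⟨H2 ⊔ SimpleGraph.edge v y, le_sup_left.trans le_sup_left, ?_⟩
  intro w
  have h1 : ¬ H1.Adj u x := by
    rw [hH1, SimpleGraph.sdiff_adj]
    exact fun h => hux h.1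
  have h2 : ¬ H2.Adj v y := by
    rw [hH2, SimpleGraph.sup_adj, hH1, SimpleGraph.sdiff_adj]
    rintro (h | h)
    · exact hvy h.1
    · rw [SimpleGraph.edge_adj] at h
      rcases h.1 with ⟨_, h⟩ | ⟨h, _⟩
      · exact hxy.ne h.symm
      · exact hxv h.symm
  have e1 := regl_del H hxy w
  have e2 := regl_add H1 hxu.symm h1 w
  have e3 := regl_add H2 hyv.symm h2 w
  rw [e3, e2, e1]
  ring

/-- The extremal argument. -/
private theorem regl_core {V : Type} [Fintype V] (G₀ : SimpleGraph V) (Δ k : ℕ) (X : Finset V)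
    (hX : ∀ x ∈ X, ∀ y, ¬ G₀.Adj x y) (hG₀ : ∀ v, dg G₀ v ≤ Δ) (hc : 3 * Δ + 3 ≤ X.card)
    (hk : Fintype.card V = 2 * k) (hΔ : 0 < Δ) :
    ∃ H : SimpleGraph V, G₀ ≤ H ∧ ∀ v, dg H v = Δ := by
  obtain ⟨H, ⟨hH1, hH2⟩, hmax⟩ := Set.exists_max_image
    {H : SimpleGraph V | G₀ ≤ H ∧ ∀ v, dg H v ≤ Δ} (fun H => ∑ v, dg H v) (Set.toFinite _)
    ⟨G₀, le_rfl, hG₀⟩
  refine ⟨H, hH1, ?_⟩
  by_contra hcon
  push Not at hcon
  obtain ⟨u, hu⟩ := hcon
  have hu' : dg H u < Δ := lt_of_le_of_ne (hH2 u) hu
  -- maximality in a usable form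
  have hno : ∀ (H' : SimpleGraph V) (a b : V), G₀ ≤ H' →
      (∀ w, dg H' w = dg H w + (if w = a then 1 else 0) + (if w = b then 1 else 0)) →
      (∀ w, dg H w + (if w = a then 1 else 0) + (if w = b then 1 else 0) ≤ Δ) → False := by
    intro H' a b h1 h2 h3
    have h4 := hmax H' ⟨h1, fun w => (h2 w).trans_le (h3 w)⟩
    simp only [h2, Finset.sum_add_distrib, Finset.sum_ite_eq', Finset.mem_univ, if_true] at h4
    omega
  -- deficient vertices are adjacent to `u`
  have hdef : ∀ w, w ≠ u → dg H w < Δ → H.Adj u w := by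
    intro w hwu hw
    by_contra hadj
    refine hno (H ⊔ SimpleGraph.edge u w) u w (hH1.trans le_sup_left)
      (regl_add H hwu.symm hadj) ?_
    intro z
    have := hH2 z
    by_cases h1 : z = u
    · subst h1
      rw [if_pos rfl, if_neg (Ne.symm hwu)]
      omega
    · by_cases h2 : z = w
      · subst h2
        rw [if_pos rfl, if_neg h1]
        omega
      · rw [if_neg h1, if_neg h2]
        omega
  -- parity
  have hpar : ∃ v, ∀ w, dg H w + (if w = u then 1 else 0) + (if w = v then 1 else 0) ≤ Δ := by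
    by_cases h2 : dg H u + 2 ≤ Δ
    · refine ⟨u, fun w => ?_⟩
      have := hH2 w
      by_cases h1 : w = u
      · subst h1
        rw [if_pos rfl]
        omega
      · rw [if_neg h1]
        omega
    · by_cases h3 : ∃ v, v ≠ u ∧ dg H v < Δ
      · obtain ⟨v, hvu, hv⟩ := h3
        refine ⟨v, fun w => ?_⟩
        have := hH2 w
        by_cases h1 : w = u
        · subst h1
          rw [if_pos rfl, if_neg (Ne.symm hvu)]
          omega
        · by_cases h4 : w = v
          · subst h4
            rw [if_pos rfl, if_neg h1]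
            omega
          · rw [if_neg h1, if_neg h4]
            omega
      · exfalso
        push Not at h3
        obtain ⟨m, hm⟩ := regl_even H
        have h4 : ∀ w, dg H w + (if w = u then 1 else 0) = Δ := by
          intro w
          by_cases h1 : w = u
          · subst h1
            rw [if_pos rfl]
            omega
          · rw [if_neg h1]
            have := h3 w h1
            have := hH2 w
            omega
        have h5 : ∑ w, (dg H w + (if w = u then 1 else 0)) = Fintype.card V * Δ := by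
          rw [Finset.sum_congr rfl fun w _ => h4 w]
          simp
        rw [Finset.sum_add_distrib, hm, hk] at h5
        simp only [Finset.sum_ite_eq', Finset.mem_univ, if_true] at h5
        have h6 : 2 * k * Δ = 2 * (k * Δ) := by ring
        omega
  obtain ⟨v, hv⟩ := hpar
  -- the exceptional vertices
  set Nu := univ.filter fun a => H.Adj u a with hNu
  set Nv := univ.filter fun a => H.Adj v a with hNv
  have hcu : Nu.card ≤ Δ := hH2 u
  have hcv : Nv.card ≤ Δ := hH2 v
  set B := univ.filter fun a => dg H a = Δ ∧ ∀ b, H.Adj a b → H.Adj v b with hB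
  have hcB : B.card ≤ Δ := by
    have h1 := Finset.card_mul_le_card_mul (s := B) (t := Nv) (m := Δ) (n := Δ) H.Adj
      (fun a ha => by
        rw [hB, mem_filter] at ha
        rw [← ha.2.1]
        unfold dg
        apply Finset.card_le_card
        intro b hb
        rw [mem_filter] at hb
        rw [Finset.mem_bipartiteAbove, hNv, mem_filter]
        exact ⟨⟨mem_univ _, ha.2.2 b hb.2⟩, hb.2⟩)
      (fun b _ => by
        refine le_trans ?_ (hH2 b)
        unfold dg
        apply Finset.card_le_card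
        intro a ha
        rw [Finset.mem_bipartiteBelow] at ha
        rw [mem_filter]
        exact ⟨mem_univ _, ha.2.symm⟩)
    exact (Nat.le_of_mul_le_mul_right h1 hΔ).trans hcv
  have hex : ∃ x ∈ X, x ∉ ({u, v} : Finset V) ∪ Nu ∪ Nv ∪ B := by
    by_contra hall
    push Not at hall
    have h1 : X ⊆ ({u, v} : Finset V) ∪ Nu ∪ Nv ∪ B := fun x hx => hall x hx
    have h2 := Finset.card_le_card h1
    have h3 : (({u, v} : Finset V) ∪ Nu ∪ Nv ∪ B).card ≤ 2 + Δ + Δ + Δ := by
      refine (Finset.card_union_le _ _).trans (Nat.add_le_add ?_ hcB)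
      refine (Finset.card_union_le _ _).trans (Nat.add_le_add ?_ hcv)
      refine (Finset.card_union_le _ _).trans (Nat.add_le_add ?_ hcu)
      exact Finset.card_le_two
    omega
  obtain ⟨x, hxX, hx⟩ := hex
  simp only [mem_union, mem_insert, mem_singleton, not_or, hNu, hNv, hB, mem_filter, mem_univ,
    true_and, not_and, not_forall] at hx
  obtain ⟨⟨⟨⟨hxu, hxv⟩, hux⟩, hvx⟩, hxB⟩ := hx
  have hxd : dg H x = Δ := by
    by_contra hne
    exact hux (hdef x hxu (lt_of_le_of_ne (hH2 x) hne))
  obtain ⟨y, hxy, hvy⟩ := hxB hxd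
  have hyv : y ≠ v := by
    intro h
    rw [h] at hxy
    exact hvx hxy.symm
  obtain ⟨H', hle, hH'⟩ := regl_switch H hxu hxv hyv hux hvy hxy
  refine hno H' u v ?_ hH' hv
  refine le_trans ?_ hle
  intro a b hab
  rw [SimpleGraph.sdiff_adj, SimpleGraph.edge_adj]
  refine ⟨hH1 hab, ?_⟩
  rintro ⟨⟨rfl, rfl⟩ | ⟨rfl, rfl⟩, _⟩
  · exact hX _ hxX _ hab
  · exact hX _ hxX _ hab.symm

theorem regl {V : Type} [Fintype V] (G : SimpleGraph V) (Δ : ℕ) (h2 : 2 ≤ Δ)
    (hΔ : ∀ v, dg G v ≤ Δ) (hn : Δ ≤ Fintype.card V) :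
    ∃ (V' : Type) (_ : Fintype V') (G' : SimpleGraph V') (e : V → V'),
      Function.Injective e ∧ (∀ a b, G.Adj a b → G'.Adj (e a) (e b)) ∧ (∀ v, dg G' v = Δ) ∧
      Fintype.card V ≤ Fintype.card V' ∧ Fintype.card V' ≤ 20 * Fintype.card V + 20 := by
  set n := Fintype.card V with hn0
  let f : V ↪ V ⊕ Fin (3 * n + 10) := ⟨Sum.inl, Sum.inl_injective⟩
  have hleft : ∀ v, dg (G.map f) (Sum.inl v) = dg G v := by
    intro v
    rw [regl_dgc (G.map f) (Sum.inl v) ((univ.filter fun a => G.Adj v a).map f), card_map]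
    · rfl
    · intro a
      simp only [mem_filter, mem_univ, true_and, SimpleGraph.map_adj, mem_map]
      constructor
      · rintro ⟨q, h, hq⟩
        exact ⟨v, q, h, rfl, hq⟩
      · rintro ⟨p, q, h, hp, hq⟩
        have hp' : p = v := Sum.inl_injective hp
        subst hp'
        exact ⟨q, h, hq⟩
  have hright : ∀ (i : Fin (3 * n + 10)) a, ¬ (G.map f).Adj (Sum.inr i) a := by
    intro i a h
    rw [SimpleGraph.map_adj] at h
    obtain ⟨p, q, _, hp, _⟩ := h
    exact absurd hp (by simp [f])
  have hdeg : ∀ v, dg (G.map f) v ≤ Δ := by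
    rintro (v | i)
    · rw [hleft]
      exact hΔ v
    · rw [regl_dgc (G.map f) (Sum.inr i) ∅ (fun a => ⟨fun h => absurd h (notMem_empty a),
        fun h => absurd h (hright i a)⟩)]
      exact Nat.zero_le _
  have hcard : Fintype.card (V ⊕ Fin (3 * n + 10)) = 2 * (2 * n + 5) := by
    rw [Fintype.card_sum, Fintype.card_fin, ← hn0]
    ring
  obtain ⟨H, hH, hreg⟩ := regl_core (G.map f) Δ (2 * n + 5)
    ((univ : Finset (Fin (3 * n + 10))).map ⟨Sum.inr, Sum.inr_injective⟩)
    (by
      intro x hx
      obtain ⟨i, _, rfl⟩ := mem_map.mp hx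
      exact hright i)
    hdeg (by rw [card_map, card_univ, Fintype.card_fin]; omega) hcard (by omega)
  refine ⟨V ⊕ Fin (3 * n + 10), inferInstance, H, Sum.inl, Sum.inl_injective, ?_, hreg, ?_, ?_⟩
  · intro a b hab
    apply hH
    rw [SimpleGraph.map_adj]
    exact ⟨a, b, hab, rfl, rfl⟩
  · rw [hcard]
    omega
  · rw [hcard]
    omega

end Pool.Agent.H71.TD
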