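import Mathlib
import Pool.Agent.H71.TD.Ifc

/-!
Definitions for the cleaning step of the structure theorem.
-/

set_option autoImplicit false

namespace Pool.Agent.H71.TD

open Finset Classical
open Pool.Agent.H71.DN Pool.Agent.H71.DX Pool.Agent.H71.DR Pool.Agent.H71.HL Pool.Agent.H71.DC

/-- The partner piece of the piece `j`. -/
noncomputable def pa (ty : ℕ → Prop) (j : ℕ) : ℕ :=
  if ty (j / 2) then j else if Even j then j + 1 else j - 1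

/-- `v` has at most `s` neighbours outside the partner piece of the piece `j`. -/
def Ag {V : Type} [Fintype V] (G : SimpleGraph V) (Δ : ℕ) (ty : ℕ → Prop) (nd0 : V → ℕ)
    (s : ℝ) (v : V) (j : ℕ) : Prop :=
  (Δ : ℝ) ≤ dgi G (pt nd0 (pa ty j)) v + s

/-- The rough structure. -/
structure Cl0 {V : Type} [Fintype V] (G : SimpleGraph V) (k : ℕ) (c x ω : ℝ)
    (ty : ℕ → Prop) (nd0 : V → ℕ) : Prop where
  le : ∀ v, nd0 v ≤ 2 * k
  e1 : ∀ i < k, ty i → pt nd0 (2 * i + 1) = ∅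
  bgA : ∀ i < k, c / 8 * Fintype.card V ≤ ((pt nd0 (2 * i)).card : ℝ)
  bgB : ∀ i < k, ¬ ty i → c / 8 * Fintype.card V ≤ ((pt nd0 (2 * i + 1)).card : ℝ)
  sm : ((∑ v ∈ univ.filter fun v => nd0 v < 2 * k, dg (Fg G k ty nd0) v : ℕ) : ℝ) ≤
    ω * (Fintype.card V : ℝ) ^ 2
  lo : ((pt nd0 (2 * k)).card : ℝ) ≤ ω * Fintype.card V
  xE : ∀ i < k, ty i → XPc G (pt nd0 (2 * i)) (c / 256) (2 * x) (2 * x)
  xA : ∀ i < k, ¬ ty i →
    XPQ G (pt nd0 (2 * i)) (pt nd0 (2 * i + 1)) (c / 256) (2 * x) (2 * x)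
  xB : ∀ i < k, ¬ ty i →
    XPQ G (pt nd0 (2 * i + 1)) (pt nd0 (2 * i)) (c / 256) (2 * x) (2 * x)

/-- The pieces after the cleaning; `sf i` are the surplus vertices of the part `i`. -/
structure Cl1 {V : Type} [Fintype V] (G : SimpleGraph V) (Δ k : ℕ) (s σ : ℝ)
    (ty : ℕ → Prop) (nd0 nd : V → ℕ) (sf : ℕ → Finset V) : Prop where
  le : ∀ v, nd v ≤ 2 * k
  vl : ∀ v, nd v < 2 * k → Ag G Δ ty nd0 s v (nd v) ∧ (ty (nd v / 2) → Even (nd v))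
  ch : ((univ.filter fun v => nd v ≠ nd0 v).card : ℝ) ≤ σ * Fintype.card V
  lo : ((pt nd (2 * k)).card : ℝ) ≤ σ * Fintype.card V
  ev : ∀ i < k, ty i → Even (pt nd (2 * i)).card
  ba : ∀ i < k, ¬ ty i → (pt nd (2 * i)).card = (pt nd (2 * i + 1)).card
  s1 : ∀ i, sf i ⊆ pt nd (2 * k)
  s2 : ∀ i < k, ty i → (sf i).card ≤ 1
  sE : ∀ i < k, ty i → ∀ v ∈ sf i, Ag G Δ ty nd0 s v (2 * i)
  sB : ∀ i < k, ¬ ty i → (∀ v ∈ sf i, Ag G Δ ty nd0 s v (2 * i)) ∨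
    (∀ v ∈ sf i, Ag G Δ ty nd0 s v (2 * i + 1))
  s3 : ∀ w, nd w = 2 * k → (∃ i < k, w ∈ sf i) ∨ ∀ j < 2 * k, (ty (j / 2) → Even j) →
    (dgi G (pt nd0 (pa ty j)) w : ℝ) + s < Δ

end Pool.Agent.H71.TD
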