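import Mathlib
import Pool.Agent.H71.TD.Cl
import Pool.Agent.H71.DC.Key

/-!
CLN1: the cleaning: reassign the vertices, and balance the parts.

Proof.  `n = card V ≥ n0`, `s := ξ/4 n`, `D j v := dgi G (pt nd0 (pa ty j)) v`. Call `j < 2 k` valid if `ty (j / 2) → Even j`. `j ↦ pa ty j` is injective on the valid `j`, with values `< 2 k` in the same part, and `pa ty j` is valid (and `pa ty (pa ty j) = j`).
 (1) For every `v` there is at most one valid `j` with `Ag G Δ ty nd0 s v j`: for two of them the partner pieces are disjoint, so `D j v + D j' v ≤ Δ`, and `2 (Δ - s) ≤ Δ`, `c n ≤ Δ ≤ 2 s = ξ/2 n < c n`.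
 (2) If `nd0 v < 2 k` then `j = nd0 v` is valid (`e1`), and `dg (Fg G k ty nd0) v + D j v = dg G v = Δ` (the `Hg`-neighbours of `v` are its neighbours in the partner piece; for `ty (j / 2)` the piece `2 (j / 2) + 1` is empty).
 (3) `nd1 v :=` the valid `j` with `Ag v j` if there is one, `2 k` otherwise. `B1 := {v : nd0 v = 2 k} ∪ {v : nd1 v ≠ nd0 v}`: if `nd0 v = j < 2 k` and `nd1 v ≠ j` then `dg Fg v > s`; so `#B1 ≤ ω n + ω n² / s ≤ (5 ω / ξ) n` (`ξ ≤ 1`, `sm`, `lo`).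
 (4) For `i < k`, `¬ ty i`, `a := #(pt nd0 (2 i))`, `b := #(pt nd0 (2 i + 1))`: `∑_{v ∈ pt nd0 (2 i)} D (2 i) v = ∑_{v ∈ pt nd0 (2 i + 1)} D (2 i + 1) v` (both count the edges between the two pieces), the left side is `≥ Δ a - ω n²` (by (2), `sm`), the right side is `≤ Δ b`; so `a ≤ b + (ω / c) n`, similarly
   `b ≤ a + (ω / c) n`. For `a1, b1` (the same for `nd1`): `|a1 - a| ≤ #B1`, `|b1 - b| ≤ #B1`, so `|a1 - b1| ≤ (ω / c + 10 ω / ξ) n`.
 (5) `sf i` for `i < k`: if `ty i`: one vertex of `pt nd1 (2 i)` if the number of its elements is odd, `∅` if it is even. If `¬ ty i`: a subset of the larger one of `pt nd1 (2 i)`, `pt nd1 (2 i + 1)` with `|a1 - b1|` elements. `sf i := ∅` for `i ≥ k`. `nd v := 2 k` if `v ∈ sf i` for some `i`, `nd v := nd1 v` otherwise.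
   `pt nd (2 i) = pt nd1 (2 i) \ sf i`, `pt nd (2 i + 1) = pt nd1 (2 i + 1) \ sf i`; so `ev`, `ba`. `s1, s2, sE, sB, vl` are clear. `s3`: if `nd w = 2 k` and `w` is in no `sf i` then `nd1 w = 2 k`, so `¬ Ag w j` for all valid `j`.
 (6) `{v : nd v ≠ nd0 v} ∪ pt nd (2 k) ⊆ B1 ∪ ⋃_{i < k} sf i` has at most `(5 ω / ξ) n + k ((ω / c + 10 ω / ξ) n + 1) ≤ (5 / ξ + 2 / c² + 20 / (c ξ)) ω n + 2 / c ≤ σ n` elements if `ω ≤ ω0 := σ c² ξ / 100` (use `c, ξ ≤ 1`) and `n ≥ n0 ≥ 4 / (c σ)` (`k c ≤ 2`).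
-/

set_option autoImplicit false

namespace Pool.Agent.H71.TD

open Finset Classical
open Pool.Agent.H71.DN Pool.Agent.H71.DX Pool.Agent.H71.DR Pool.Agent.H71.HL Pool.Agent.H71.DC

/-- valid pieces -/
def Cln1_val (k : ℕ) (ty : ℕ → Prop) (j : ℕ) : Prop := j < 2 * k ∧ (ty (j / 2) → Even j)

theorem Cln1_cases {k : ℕ} {ty : ℕ → Prop} {j : ℕ} (h : Cln1_val k ty j) :
    ∃ i < k, (ty i ∧ j = 2 * i ∧ pa ty j = 2 * i) ∨
      (¬ ty i ∧ j = 2 * i ∧ pa ty j = 2 * i + 1) ∨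
      (¬ ty i ∧ j = 2 * i + 1 ∧ pa ty j = 2 * i) := by
  obtain ⟨h1, h2⟩ := h
  refine ⟨j / 2, by omega, ?_⟩
  unfold pa
  by_cases hty : ty (j / 2)
  · have hev := h2 hty
    obtain ⟨r, hr⟩ := hev
    left
    refine ⟨hty, by omega, ?_⟩
    rw [if_pos hty]
    omega
  · rw [if_neg hty]
    rcases Nat.even_or_odd j with he | ho
    · right
      left
      rw [if_pos he]
      obtain ⟨r, hr⟩ := he
      exact ⟨hty, by omega, by omega⟩
    · right
      right
      rw [if_neg (Nat.not_even_iff_odd.2 ho)]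
      obtain ⟨r, hr⟩ := ho
      exact ⟨hty, by omega, by omega⟩

theorem Cln1_inj {k : ℕ} {ty : ℕ → Prop} {j j' : ℕ} (h : Cln1_val k ty j)
    (h' : Cln1_val k ty j') (e : pa ty j = pa ty j') : j = j' := by
  obtain ⟨i, _, hi⟩ := Cln1_cases h
  obtain ⟨i', _, hi'⟩ := Cln1_cases h'
  have key : i = i' := by
    rcases hi with ⟨_, e1, e2⟩ | ⟨_, e1, e2⟩ | ⟨_, e1, e2⟩ <;>
      rcases hi' with ⟨_, e3, e4⟩ | ⟨_, e3, e4⟩ | ⟨_, e3, e4⟩ <;> omega
  subst key
  rcases hi with ⟨t1, e1, e2⟩ | ⟨t1, e1, e2⟩ | ⟨t1, e1, e2⟩ <;>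
    rcases hi' with ⟨t2, e3, e4⟩ | ⟨t2, e3, e4⟩ | ⟨t2, e3, e4⟩ <;>
    first
    | omega
    | exact absurd t1 t2
    | exact absurd t2 t1

theorem Cln1_pt {V : Type} [Fintype V] (nd : V → ℕ) (j : ℕ) (v : V) : v ∈ pt nd j ↔ nd v = j := by
  unfold pt
  simp

theorem Cln1_uniq {V : Type} [Fintype V] (G : SimpleGraph V) (Δ k : ℕ) (ty : ℕ → Prop)
    (nd0 : V → ℕ) (s : ℝ) (hs : 2 * s < Δ) (hreg : ∀ v, dg G v = Δ) (v : V) {j j' : ℕ}
    (hj : Cln1_val k ty j) (hj' : Cln1_val k ty j') (a : Ag G Δ ty nd0 s v j)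
    (a' : Ag G Δ ty nd0 s v j') : j = j' := by
  by_contra hne
  have hpa : pa ty j ≠ pa ty j' := fun h => hne (Cln1_inj hj hj' h)
  have h1 : dgi G (pt nd0 (pa ty j)) v + dgi G (pt nd0 (pa ty j')) v ≤ dg G v := by
    unfold dgi dg
    rw [← card_union_of_disjoint]
    · refine card_le_card fun u hu => ?_
      rw [mem_union, mem_filter, mem_filter] at hu
      rw [mem_filter]
      rcases hu with hu | hu
      · exact ⟨mem_univ _, hu.2⟩
      · exact ⟨mem_univ _, hu.2⟩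
    · rw [disjoint_left]
      intro u hu hu'
      rw [mem_filter, Cln1_pt] at hu hu'
      exact hpa (hu.1.symm.trans hu'.1)
  rw [hreg v] at h1
  have h2 : (dgi G (pt nd0 (pa ty j)) v : ℝ) + dgi G (pt nd0 (pa ty j')) v ≤ Δ := by
    exact_mod_cast h1
  unfold Ag at a a'
  linarith

theorem Cln1_deg {V : Type} [Fintype V] (G : SimpleGraph V) (k : ℕ) (ty : ℕ → Prop)
    (nd0 : V → ℕ) (e1 : ∀ i < k, ty i → pt nd0 (2 * i + 1) = ∅) (v : V)
    (hv : nd0 v < 2 * k) :
    Cln1_val k ty (nd0 v) ∧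
      dg (Fg G k ty nd0) v + dgi G (pt nd0 (pa ty (nd0 v))) v = dg G v := by
  have hno : ∀ u : V, ∀ i < k, ty i → nd0 u ≠ 2 * i + 1 := by
    intro u i hi hty h
    have h1 := (Cln1_pt nd0 (2 * i + 1) u).2 h
    rw [e1 i hi hty] at h1
    exact notMem_empty _ h1
  have hval : Cln1_val k ty (nd0 v) := by
    refine ⟨hv, fun hty => ?_⟩
    by_contra hod
    obtain ⟨r, hr⟩ := Nat.not_even_iff_odd.1 hod
    have h1 : nd0 v / 2 = r := by omega
    rw [h1] at hty
    exact hno v r (by omega) hty hr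
  refine ⟨hval, ?_⟩
  have hH : ∀ u, G.Adj v u → ((Hg G k ty nd0).Adj v u ↔ nd0 u = pa ty (nd0 v)) := by
    intro u huv
    obtain ⟨i, hi, hc⟩ := Cln1_cases hval
    have h2 : nd0 v / 2 = i := by
      rcases hc with ⟨_, h, _⟩ | ⟨_, h, _⟩ | ⟨_, h, _⟩ <;> omega
    constructor
    · rintro ⟨_, _, h3, h4, h5⟩
      rw [h2] at h4 h5
      rcases hc with ⟨t, h6, h7⟩ | ⟨t, h6, h7⟩ | ⟨t, h6, h7⟩
      · have h8 := hno u i hi t
        omega
      · have h9 : nd0 v ≠ nd0 u := by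
          rcases h5 with h5 | h5
          · exact absurd h5 t
          · exact h5
        omega
      · have h9 : nd0 v ≠ nd0 u := by
          rcases h5 with h5 | h5
          · exact absurd h5 t
          · exact h5
        omega
    · intro h3
      rcases hc with ⟨t, h6, h7⟩ | ⟨t, h6, h7⟩ | ⟨t, h6, h7⟩
      · refine ⟨huv, hv, by omega, by omega, Or.inl ?_⟩
        rw [h2]
        exact t
      · exact ⟨huv, hv, by omega, by omega, Or.inr (by omega)⟩
      · exact ⟨huv, hv, by omega, by omega, Or.inr (by omega)⟩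
  unfold dgi dg
  rw [← card_union_of_disjoint]
  · refine congrArg Finset.card ?_
    ext u
    rw [mem_union, mem_filter, mem_filter, mem_filter, Cln1_pt]
    constructor
    · rintro (⟨_, h3⟩ | ⟨_, h3⟩)
      · exact ⟨mem_univ _, h3.1⟩
      · exact ⟨mem_univ _, h3⟩
    · rintro ⟨_, h3⟩
      by_cases h4 : nd0 u = pa ty (nd0 v)
      · exact Or.inr ⟨h4, h3⟩
      · exact Or.inl ⟨mem_univ _, h3, fun h5 => h4 ((hH u h3).1 h5)⟩
  · rw [disjoint_left]
    intro u hu hu'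
    rw [mem_filter] at hu hu'
    rw [Cln1_pt] at hu'
    exact hu.2.2 ((hH u hu'.2).2 hu'.1)

theorem Cln1_ee {V : Type} [Fintype V] (G : SimpleGraph V) (A B : Finset V) :
    ee G A B = ∑ a ∈ A, dgi G B a := key_ee G A B

theorem Cln1_S {V : Type} (P Q : Finset V) (hPQ : Disjoint P Q) :
    ∃ S : Finset V, (S ⊆ P ∨ S ⊆ Q) ∧ (P \ S).card = (Q \ S).card ∧
      (S.card : ℝ) ≤ |(P.card : ℝ) - Q.card| := by
  rcases le_total P.card Q.card with h | h
  · obtain ⟨S, hS, hc⟩ := exists_subset_card_eq (s := Q) (n := Q.card - P.card) (by omega)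
    refine ⟨S, Or.inr hS, ?_, ?_⟩
    · rw [sdiff_eq_self_of_disjoint (hPQ.mono_right hS), card_sdiff_of_subset hS, hc]
      omega
    · rw [hc, Nat.cast_sub h, abs_sub_comm]
      exact le_abs_self _
  · obtain ⟨S, hS, hc⟩ := exists_subset_card_eq (s := P) (n := P.card - Q.card) (by omega)
    refine ⟨S, Or.inl hS, ?_, ?_⟩
    · rw [sdiff_eq_self_of_disjoint (hPQ.symm.mono_right hS), card_sdiff_of_subset hS, hc]
      omega
    · rw [hc, Nat.cast_sub h]
      exact le_abs_self _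

theorem Cln1_SE {V : Type} (P : Finset V) :
    ∃ S : Finset V, S ⊆ P ∧ S.card ≤ 1 ∧ Even (P \ S).card := by
  rcases Nat.even_or_odd P.card with h | h
  · exact ⟨∅, empty_subset _, by simp, by rw [sdiff_empty]; exact h⟩
  · have hne : P.Nonempty := by
      rw [← card_pos]
      obtain ⟨r, hr⟩ := h
      omega
    obtain ⟨v, hv⟩ := hne
    refine ⟨{v}, singleton_subset_iff.2 hv, by simp, ?_⟩
    rw [card_sdiff_of_subset (singleton_subset_iff.2 hv), card_singleton]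
    obtain ⟨r, hr⟩ := h
    rw [hr, Nat.add_sub_cancel]
    exact even_two_mul r

theorem Cln1_bal {V : Type} [Fintype V] (G : SimpleGraph V) (Δ k : ℕ) (c ω n : ℝ) (hc : 0 < c)
    (hn : 0 < n) (hω : 0 ≤ ω) (hcΔ : c * n ≤ Δ) (hreg : ∀ v, dg G v = Δ) (ty : ℕ → Prop)
    (nd0 : V → ℕ) (e1 : ∀ i < k, ty i → pt nd0 (2 * i + 1) = ∅)
    (sm : ((∑ v ∈ univ.filter fun v => nd0 v < 2 * k, dg (Fg G k ty nd0) v : ℕ) : ℝ) ≤
      ω * n ^ 2) {j : ℕ} (hj : Cln1_val k ty j) :
    ((pt nd0 j).card : ℝ) ≤ (pt nd0 (pa ty j)).card + ω / c * n := by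
  have h1 : Δ * (pt nd0 j).card ≤ ee G (pt nd0 j) (pt nd0 (pa ty j)) +
      ∑ v ∈ univ.filter fun v => nd0 v < 2 * k, dg (Fg G k ty nd0) v := by
    rw [Cln1_ee]
    have h2 : ∑ v ∈ pt nd0 j, dg (Fg G k ty nd0) v ≤
        ∑ v ∈ univ.filter fun v => nd0 v < 2 * k, dg (Fg G k ty nd0) v := by
      refine sum_le_sum_of_subset fun v hv => ?_
      rw [Cln1_pt] at hv
      rw [mem_filter, hv]
      exact ⟨mem_univ _, hj.1⟩
    have h3 : Δ * (pt nd0 j).card = ∑ v ∈ pt nd0 j, dgi G (pt nd0 (pa ty j)) v +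
        ∑ v ∈ pt nd0 j, dg (Fg G k ty nd0) v := by
      rw [← sum_add_distrib, mul_comm, ← smul_eq_mul, ← sum_const]
      refine sum_congr rfl fun v hv => ?_
      rw [Cln1_pt] at hv
      have h4 := (Cln1_deg G k ty nd0 e1 v (by rw [hv]; exact hj.1)).2
      rw [hv, hreg v] at h4
      omega
    omega
  have h2 : ee G (pt nd0 j) (pt nd0 (pa ty j)) ≤ Δ * (pt nd0 (pa ty j)).card := by
    rw [key_symm]
    exact key_deg G Δ (fun v => (hreg v).le) _ _
  have h3 : (Δ : ℝ) * (pt nd0 j).card ≤ Δ * (pt nd0 (pa ty j)).card + ω * n ^ 2 := by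
    have h4 : (Δ : ℝ) * (pt nd0 j).card ≤ Δ * (pt nd0 (pa ty j)).card +
        ((∑ v ∈ univ.filter fun v => nd0 v < 2 * k, dg (Fg G k ty nd0) v : ℕ) : ℝ) := by
      exact_mod_cast h1.trans (Nat.add_le_add_right h2 _)
    linarith
  have hΔ0 : (0 : ℝ) < Δ := lt_of_lt_of_le (by positivity) hcΔ
  have h4 : ω * n ^ 2 ≤ Δ * (ω / c * n) := by
    have h5 : c * n * (ω / c * n) ≤ Δ * (ω / c * n) :=
      mul_le_mul_of_nonneg_right hcΔ (by positivity)
    have h6 : c * n * (ω / c * n) = ω * n ^ 2 := by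
      field_simp
    linarith
  refine le_of_mul_le_mul_left ?_ hΔ0
  rw [mul_add]
  linarith

theorem cln1 (c ξ σ : ℝ) (hc : 0 < c) (hc1 : c ≤ 1) (hξ : 0 < ξ) (hξc : ξ ≤ c) (hσ : 0 < σ) :
    ∃ (ω0 : ℝ) (n0 : ℕ), 0 < ω0 ∧
      ∀ (V : Type) [Fintype V] (G : SimpleGraph V) (Δ k : ℕ) (x ω : ℝ) (ty : ℕ → Prop)
        (nd0 : V → ℕ), n0 ≤ Fintype.card V → c * Fintype.card V ≤ Δ → (∀ v, dg G v = Δ) →
        (k : ℝ) * c ≤ 2 → 0 ≤ ω → ω ≤ ω0 → Cl0 G k c x ω ty nd0 →
        ∃ (nd : V → ℕ) (sf : ℕ → Finset V),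
          Cl1 G Δ k (ξ / 4 * Fintype.card V) σ ty nd0 nd sf := by
  refine ⟨σ * c ^ 2 * ξ / 100, ⌈4 / (c * σ)⌉₊ + 1, by positivity, ?_⟩
  intro V _ G Δ k x ω ty nd0 hn0 hcΔ hreg hkc hω hωω H0
  obtain ⟨n, hn⟩ : ∃ n : ℝ, n = (Fintype.card V : ℝ) := ⟨_, rfl⟩
  obtain ⟨hle0, he1, hbgA, hbgB, hsm, hlo, _, _, _⟩ := H0
  rw [← hn] at hcΔ hsm hlo ⊢
  have hnb : 4 / (c * σ) ≤ n := by
    rw [hn]
    refine (Nat.le_ceil _).trans ?_
    exact_mod_cast (by omega : ⌈4 / (c * σ)⌉₊ ≤ Fintype.card V)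
  have hnpos : 0 < n := by
    have h1 : 0 < 4 / (c * σ) := by positivity
    linarith
  have hξ1 : ξ ≤ 1 := hξc.trans hc1
  obtain ⟨s, hs⟩ : ∃ s : ℝ, s = ξ / 4 * n := ⟨_, rfl⟩
  have hs0 : 0 < s := by rw [hs]; positivity
  rw [← hs]
  have hs2 : 2 * s < Δ := by
    have h1 : ξ * n ≤ c * n := mul_le_mul_of_nonneg_right hξc hnpos.le
    have h2 : 0 < c * n := by positivity
    rw [hs]
    linarith
  -- the new pieces
  obtain ⟨nd1, hnd1⟩ : ∃ nd1 : V → ℕ, ∀ v, (Cln1_val k ty (nd1 v) ∧ Ag G Δ ty nd0 s v (nd1 v)) ∨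
      (nd1 v = 2 * k ∧ ∀ j, Cln1_val k ty j → ¬ Ag G Δ ty nd0 s v j) := by
    refine ⟨fun v => if h : ∃ j, Cln1_val k ty j ∧ Ag G Δ ty nd0 s v j then h.choose else 2 * k,
      fun v => ?_⟩
    by_cases h : ∃ j, Cln1_val k ty j ∧ Ag G Δ ty nd0 s v j
    · left
      simp only [dif_pos h]
      exact h.choose_spec
    · right
      simp only [dif_neg h]
      exact ⟨trivial, fun j hj hj' => h ⟨j, hj, hj'⟩⟩
  have hnd1lt : ∀ v, nd1 v < 2 * k → Cln1_val k ty (nd1 v) ∧ Ag G Δ ty nd0 s v (nd1 v) := by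
    intro v hv
    rcases hnd1 v with h | h
    · exact h
    · omega
  have hnd1eq : ∀ v, nd1 v = 2 * k → ∀ j, Cln1_val k ty j → ¬ Ag G Δ ty nd0 s v j := by
    intro v hv
    rcases hnd1 v with h | h
    · have := h.1.1
      omega
    · exact h.2
  have hnd1le : ∀ v, nd1 v ≤ 2 * k := by
    intro v
    rcases hnd1 v with h | h
    · exact h.1.1.le
    · exact h.1.le
  -- the changed vertices
  obtain ⟨B1, hB1⟩ : ∃ B1 : Finset V, B1 = pt nd0 (2 * k) ∪
    (univ.filter fun v => nd0 v < 2 * k ∧ s ≤ (dg (Fg G k ty nd0) v : ℝ)) := ⟨_, rfl⟩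
  have hchg : ∀ v, nd1 v ≠ nd0 v → v ∈ B1 := by
    intro v hv
    rw [hB1, mem_union, Cln1_pt, mem_filter]
    rcases lt_or_eq_of_le (hle0 v) with h | h
    · right
      obtain ⟨h1, h2⟩ := Cln1_deg G k ty nd0 he1 v h
      have h3 : ¬ Ag G Δ ty nd0 s v (nd0 v) := by
        intro h4
        rcases hnd1 v with h5 | h5
        · exact hv (Cln1_uniq G Δ k ty nd0 s hs2 hreg v h5.1 h1 h5.2 h4)
        · exact h5.2 _ h1 h4
      unfold Ag at h3
      rw [not_le] at h3
      rw [hreg v] at h2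
      have h4 : (dg (Fg G k ty nd0) v : ℝ) + dgi G (pt nd0 (pa ty (nd0 v))) v = Δ := by
        exact_mod_cast h2
      exact ⟨mem_univ _, h, by linarith⟩
    · exact Or.inl h
  have hB1c : (B1.card : ℝ) ≤ 5 * ω / ξ * n := by
    have h1 : (B1.card : ℝ) ≤ (pt nd0 (2 * k)).card +
        ((univ.filter fun v => nd0 v < 2 * k ∧ s ≤ (dg (Fg G k ty nd0) v : ℝ)).card : ℝ) := by
      rw [hB1]
      exact_mod_cast card_union_le _ _
    have h2 : ((univ.filter fun v => nd0 v < 2 * k ∧ s ≤ (dg (Fg G k ty nd0) v : ℝ)).card : ℝ) *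
        s ≤ ω * n ^ 2 := by
      refine le_trans ?_ hsm
      push_cast
      rw [← nsmul_eq_mul]
      refine (card_nsmul_le_sum _ (fun v => (dg (Fg G k ty nd0) v : ℝ)) _ fun v hv => ?_).trans ?_
      · exact (mem_filter.1 hv).2.2
      · refine sum_le_sum_of_subset_of_nonneg (fun v hv => ?_) fun v _ _ => Nat.cast_nonneg _
        rw [mem_filter] at hv ⊢
        exact ⟨mem_univ _, hv.2.1⟩
    have h3 : ((univ.filter fun v => nd0 v < 2 * k ∧ s ≤ (dg (Fg G k ty nd0) v : ℝ)).card : ℝ) ≤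
        4 * ω / ξ * n := by
      refine le_of_mul_le_mul_right (h2.trans (le_of_eq ?_)) hs0
      rw [hs]
      field_simp
    have h4 : ω * n ≤ ω / ξ * n := by
      refine mul_le_mul_of_nonneg_right ?_ hnpos.le
      rw [le_div_iff₀ hξ]
      nlinarith
    have h5 : 5 * ω / ξ * n = ω / ξ * n + 4 * ω / ξ * n := by ring
    linarith
  have hsz : ∀ j, ((pt nd1 j).card : ℝ) ≤ (pt nd0 j).card + B1.card ∧
      ((pt nd0 j).card : ℝ) ≤ (pt nd1 j).card + B1.card := by
    intro j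
    constructor
    · have h1 : (pt nd1 j).card ≤ (pt nd0 j).card + B1.card := by
        refine (card_le_card fun v hv => ?_).trans (card_union_le _ _)
        rw [Cln1_pt] at hv
        rw [mem_union, Cln1_pt]
        by_cases h2 : nd1 v = nd0 v
        · exact Or.inl (h2 ▸ hv)
        · exact Or.inr (hchg v h2)
      exact_mod_cast h1
    · have h1 : (pt nd0 j).card ≤ (pt nd1 j).card + B1.card := by
        refine (card_le_card fun v hv => ?_).trans (card_union_le _ _)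
        rw [Cln1_pt] at hv
        rw [mem_union, Cln1_pt]
        by_cases h2 : nd1 v = nd0 v
        · exact Or.inl (h2.trans hv)
        · exact Or.inr (hchg v h2)
      exact_mod_cast h1
  have hbal : ∀ i < k, ¬ ty i → |((pt nd1 (2 * i)).card : ℝ) - (pt nd1 (2 * i + 1)).card| ≤
      ω / c * n + 10 * ω / ξ * n := by
    intro i hi hty
    have v1 : Cln1_val k ty (2 * i) := ⟨by omega, fun _ => even_two_mul i⟩
    have v2 : Cln1_val k ty (2 * i + 1) := by
      refine ⟨by omega, fun h => ?_⟩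
      have h1 : (2 * i + 1) / 2 = i := by omega
      rw [h1] at h
      exact absurd h hty
    have p1 : pa ty (2 * i) = 2 * i + 1 := by
      unfold pa
      have h1 : 2 * i / 2 = i := by omega
      rw [h1, if_neg hty, if_pos (even_two_mul i)]
    have p2 : pa ty (2 * i + 1) = 2 * i := by
      unfold pa
      have h1 : (2 * i + 1) / 2 = i := by omega
      rw [h1, if_neg hty, if_neg (Nat.not_even_iff_odd.2 ⟨i, rfl⟩)]
      omega
    have b1 := Cln1_bal G Δ k c ω n hc hnpos hω hcΔ hreg ty nd0 he1 hsm v1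
    have b2 := Cln1_bal G Δ k c ω n hc hnpos hω hcΔ hreg ty nd0 he1 hsm v2
    rw [p1] at b1
    rw [p2] at b2
    have s1 := hsz (2 * i)
    have s2 := hsz (2 * i + 1)
    have e : 10 * ω / ξ * n = 2 * (5 * ω / ξ * n) := by ring
    rw [abs_le, e]
    constructor <;> linarith [s1.1, s1.2, s2.1, s2.2]
  -- the surplus vertices
  have hsf : ∀ i, ∃ S : Finset V, (k ≤ i → S = ∅) ∧
      (i < k → ty i → S ⊆ pt nd1 (2 * i) ∧ S.card ≤ 1 ∧ Even (pt nd1 (2 * i) \ S).card) ∧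
      (i < k → ¬ ty i → (S ⊆ pt nd1 (2 * i) ∨ S ⊆ pt nd1 (2 * i + 1)) ∧
        (pt nd1 (2 * i) \ S).card = (pt nd1 (2 * i + 1) \ S).card ∧
        (S.card : ℝ) ≤ ω / c * n + 10 * ω / ξ * n) := by
    intro i
    by_cases hi : i < k
    · by_cases hty : ty i
      · obtain ⟨S, h1, h2, h3⟩ := Cln1_SE (pt nd1 (2 * i))
        exact ⟨S, fun h => absurd hi (not_lt.2 h), fun _ _ => ⟨h1, h2, h3⟩,
          fun _ h => absurd hty h⟩
      · obtain ⟨S, h1, h2, h3⟩ := Cln1_S (pt nd1 (2 * i)) (pt nd1 (2 * i + 1)) (by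
          rw [disjoint_left]
          intro v hv hv'
          rw [Cln1_pt] at hv hv'
          omega)
        exact ⟨S, fun h => absurd hi (not_lt.2 h), fun _ h => absurd h hty,
          fun _ _ => ⟨h1, h2, h3.trans (hbal i hi hty)⟩⟩
    · exact ⟨∅, fun _ => rfl, fun h => absurd h hi, fun h => absurd h hi⟩
  choose sf sf0 sfE sfB using hsf
  have hsfi : ∀ i v, v ∈ sf i → i < k ∧ nd1 v / 2 = i ∧ nd1 v < 2 * k := by
    intro i v hv
    by_cases hi : i < k
    · refine ⟨hi, ?_⟩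
      by_cases hty : ty i
      · have := (sfE i hi hty).1 hv
        rw [Cln1_pt] at this
        omega
      · rcases (sfB i hi hty).1 with h | h
        · have := h hv
          rw [Cln1_pt] at this
          omega
        · have := h hv
          rw [Cln1_pt] at this
          omega
    · rw [sf0 i (not_lt.1 hi)] at hv
      exact absurd hv (notMem_empty _)
  obtain ⟨nd, hnd⟩ : ∃ nd : V → ℕ, nd = fun v => if ∃ i, v ∈ sf i then 2 * k else nd1 v :=
    ⟨_, rfl⟩
  have hnda : ∀ v, (∃ i, v ∈ sf i) → nd v = 2 * k := by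
    intro v h
    rw [hnd]
    exact if_pos h
  have hndb : ∀ v, (¬ ∃ i, v ∈ sf i) → nd v = nd1 v := by
    intro v h
    rw [hnd]
    exact if_neg h
  have hndlt : ∀ v, nd v < 2 * k → (¬ ∃ i, v ∈ sf i) ∧ nd v = nd1 v := by
    intro v h
    by_cases h1 : ∃ i, v ∈ sf i
    · have := hnda v h1
      omega
    · exact ⟨h1, hndb v h1⟩
  have hpt : ∀ i < k, ∀ j, j / 2 = i → pt nd j = pt nd1 j \ sf i := by
    intro i hi j hj
    ext v
    rw [mem_sdiff, Cln1_pt, Cln1_pt]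
    constructor
    · intro h
      obtain ⟨h1, h2⟩ := hndlt v (by omega)
      exact ⟨by omega, fun h3 => h1 ⟨i, h3⟩⟩
    · rintro ⟨h1, h2⟩
      rw [← h1]
      refine hndb v ?_
      rintro ⟨i', hi'⟩
      have h3 := (hsfi i' v hi').2.1
      have h4 : i' = i := by omega
      rw [h4] at hi'
      exact h2 hi'
  have hU : ∀ v, (∃ i, v ∈ sf i) → v ∈ (range k).biUnion sf := by
    rintro v ⟨i, hi⟩
    rw [mem_biUnion]
    exact ⟨i, mem_range.2 (hsfi i v hi).1, hi⟩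
  have hUc : (((range k).biUnion sf).card : ℝ) ≤ k * (ω / c * n + 10 * ω / ξ * n + 1) := by
    have h1 : (((range k).biUnion sf).card : ℝ) ≤ ∑ i ∈ range k, ((sf i).card : ℝ) := by
      exact_mod_cast card_biUnion_le
    refine h1.trans ?_
    have h2 : ∑ i ∈ range k, ((sf i).card : ℝ) ≤
        (range k).card • (ω / c * n + 10 * ω / ξ * n + 1) := by
      refine sum_le_card_nsmul _ _ _ fun i hi => ?_
      rw [mem_range] at hi
      have h3 : 0 ≤ ω / c * n := by positivity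
      have h4 : 0 ≤ 10 * ω / ξ * n := by positivity
      by_cases hty : ty i
      · have h5 : ((sf i).card : ℝ) ≤ 1 := by exact_mod_cast (sfE i hi hty).2.1
        linarith
      · have h5 := (sfB i hi hty).2.2
        linarith
    rw [card_range, nsmul_eq_mul] at h2
    exact h2
  have htot : (B1.card : ℝ) + ((range k).biUnion sf).card ≤ σ * n := by
    have hk2 : (k : ℝ) ≤ 2 / c := by
      rw [le_div_iff₀ hc]
      exact hkc
    have h3 : 0 ≤ ω / c * n + 10 * ω / ξ * n + 1 := by positivity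
    have h4 : (k : ℝ) * (ω / c * n + 10 * ω / ξ * n + 1) ≤
        2 / c * (ω / c * n + 10 * ω / ξ * n + 1) := mul_le_mul_of_nonneg_right hk2 h3
    have h5 : 5 * ω / ξ ≤ 5 * σ / 100 := by
      rw [div_le_iff₀ hξ]
      have h6 : σ * c ^ 2 * ξ ≤ σ * 1 * ξ := by
        refine mul_le_mul_of_nonneg_right (mul_le_mul_of_nonneg_left ?_ hσ.le) hξ.le
        nlinarith
      linarith
    have h6 : 2 / c * (ω / c) ≤ 2 * σ / 100 := by
      have h7 : 2 / c * (ω / c) = 2 * ω / c ^ 2 := by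
        field_simp
      rw [h7, div_le_iff₀ (by positivity)]
      have h8 : σ * c ^ 2 * ξ ≤ σ * c ^ 2 * 1 :=
        mul_le_mul_of_nonneg_left hξ1 (by positivity)
      linarith
    have h7 : 2 / c * (10 * ω / ξ) ≤ 20 * σ / 100 := by
      have h8 : 2 / c * (10 * ω / ξ) = 20 * ω / (c * ξ) := by
        field_simp
        ring
      rw [h8, div_le_iff₀ (by positivity)]
      have h9 : σ * c ^ 2 * ξ ≤ σ * c * ξ := by
        refine mul_le_mul_of_nonneg_right (mul_le_mul_of_nonneg_left ?_ hσ.le) hξ.le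
        nlinarith
      linarith
    have h8 : 2 / c ≤ σ * n / 2 := by
      rw [div_le_iff₀ (by positivity)] at hnb
      rw [div_le_iff₀ hc]
      linarith
    have h9 : 2 / c * (ω / c * n + 10 * ω / ξ * n + 1) =
        2 / c * (ω / c) * n + 2 / c * (10 * ω / ξ) * n + 2 / c := by ring
    have h10 := mul_le_mul_of_nonneg_right h5 hnpos.le
    have h11 := mul_le_mul_of_nonneg_right h6 hnpos.le
    have h12 := mul_le_mul_of_nonneg_right h7 hnpos.le
    have h13 : 0 < σ * n := by positivity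
    linarith
  have hcount : ∀ A : Finset V, (∀ v ∈ A, v ∈ B1 ∨ ∃ i, v ∈ sf i) → (A.card : ℝ) ≤ σ * n := by
    intro A hA
    have h1 : A.card ≤ B1.card + ((range k).biUnion sf).card := by
      refine (card_le_card fun v hv => ?_).trans (card_union_le _ _)
      rw [mem_union]
      rcases hA v hv with h | h
      · exact Or.inl h
      · exact Or.inr (hU v h)
    have h2 : (A.card : ℝ) ≤ (B1.card : ℝ) + ((range k).biUnion sf).card := by
      exact_mod_cast h1
    exact h2.trans htot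
  refine ⟨nd, sf, ⟨?_, ?_, ?_, ?_, ?_, ?_, ?_, ?_, ?_, ?_, ?_⟩⟩
  · intro v
    by_cases h : ∃ i, v ∈ sf i
    · exact (hnda v h).le
    · rw [hndb v h]
      exact hnd1le v
  · intro v hv
    obtain ⟨h1, h2⟩ := hndlt v hv
    rw [h2] at hv ⊢
    obtain ⟨h3, h4⟩ := hnd1lt v hv
    exact ⟨h4, h3.2⟩
  · rw [← hn]
    refine hcount _ fun v hv => ?_
    have h1 := (mem_filter.1 hv).2
    by_cases h : ∃ i, v ∈ sf i
    · exact Or.inr h
    · rw [hndb v h] at h1
      exact Or.inl (hchg v h1)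
  · rw [← hn]
    refine hcount _ fun v hv => ?_
    rw [Cln1_pt] at hv
    by_cases h : ∃ i, v ∈ sf i
    · exact Or.inr h
    · rw [hndb v h] at hv
      left
      by_cases h2 : nd1 v = nd0 v
      · rw [hB1, mem_union, Cln1_pt]
        exact Or.inl (h2 ▸ hv)
      · exact hchg v h2
  · intro i hi hty
    rw [hpt i hi (2 * i) (by omega)]
    exact (sfE i hi hty).2.2
  · intro i hi hty
    rw [hpt i hi (2 * i) (by omega), hpt i hi (2 * i + 1) (by omega)]
    exact (sfB i hi hty).2.1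
  · intro i v hv
    rw [Cln1_pt]
    exact hnda v ⟨i, hv⟩
  · intro i hi hty
    exact (sfE i hi hty).2.1
  · intro i hi hty v hv
    have h1 := (sfE i hi hty).1 hv
    rw [Cln1_pt] at h1
    have h2 := (hnd1lt v (by omega)).2
    rw [h1] at h2
    exact h2
  · intro i hi hty
    rcases (sfB i hi hty).1 with h | h
    · left
      intro v hv
      have h1 := h hv
      rw [Cln1_pt] at h1
      have h2 := (hnd1lt v (by omega)).2
      rw [h1] at h2
      exact h2
    · right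
      intro v hv
      have h1 := h hv
      rw [Cln1_pt] at h1
      have h2 := (hnd1lt v (by omega)).2
      rw [h1] at h2
      exact h2
  · intro w hw
    by_cases h : ∃ i, w ∈ sf i
    · obtain ⟨i, hi⟩ := h
      exact Or.inl ⟨i, (hsfi i w hi).1, hi⟩
    · right
      intro j hj hev
      rw [hndb w h] at hw
      have h1 := hnd1eq w hw j ⟨hj, hev⟩
      unfold Ag at h1
      rw [not_le] at h1
      exact h1

end Pool.Agent.H71.TD
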