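import Mathlib
import Pool.Agent.H71.TD.Defs

/-!
XPT: expansion is stable under small changes of the sets (`xpcT`, `xpqT`), and monotone in the parameters (`xpcM`, `xpqM`).

Proof.  `xpcT`. `N0 = #C0`, `N0 - d ≤ #C ≤ N0 + d`. Let `A, Y ⊆ C`, `(c/128) #C ≤ #A ≤ (1 - c/128) #C`, `ee G A Y ≤ x #C²`. `A0 := A ∩ C0`, `Y0 := Y ∩ C0`. `#A0 ≥ #A - d ≥ (c/128) (N0 - d) - d ≥ (c/256) N0`; `#A0 ≤ #A ≤ (1 - c/128) (N0 + d) ≤ (1 - c/256) N0`; `ee G A0 Y0 ≤ ee G A Y ≤ x (N0 + d)² ≤ 2 x N0²`. So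
 `#A0 + #Y0 + 2 x N0 ≤ N0`, and `#A + #Y + x #C ≤ #A0 + #Y0 + 2 d + x N0 + x d ≤ N0 - x N0 + 3 d ≤ #C + 4 d - x N0 ≤ #C`.
`xpqT`. The same: `A0 := A ∩ P0`, `Y0 := Y ∩ Q0`, `#A0 + #Y0 + 2 x #P0 ≤ #Q0`, `#A + #Y + x #P ≤ #A0 + #Y0 + 2 d + x (#P0 + d) ≤ #Q0 - x #P0 + 3 d ≤ #Q + 4 d - x #P0 ≤ #Q`.
`xpcM`, `xpqM`: immediate.
-/

set_option autoImplicit false

namespace Pool.Agent.H71.TD

open Finset Classical
open Pool.Agent.H71.DN Pool.Agent.H71.DX Pool.Agent.H71.DR Pool.Agent.H71.HL Pool.Agent.H71.DC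

private theorem xpT_ee {V : Type} [Fintype V] (G : SimpleGraph V) {A A' Y Y' : Finset V}
    (hA : A' ⊆ A) (hY : Y' ⊆ Y) : ee G A' Y' ≤ ee G A Y := by
  unfold ee
  apply Finset.card_le_card
  intro p hp
  rw [Finset.mem_filter, Finset.mem_product] at hp ⊢
  exact ⟨⟨hA hp.1.1, hY hp.1.2⟩, hp.2⟩

private theorem xpT_c {V : Type} (A C C0 : Finset V) (d : ℕ) (hA : A ⊆ C)
    (h1 : (C \ C0).card ≤ d) : (A.card : ℝ) ≤ (A ∩ C0).card + d := by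
  have h2 : A.card = (A ∩ C0).card + (A \ C0).card := by
    have := Finset.card_inter_add_card_sdiff A C0
    omega
  have h3 : (A \ C0).card ≤ (C \ C0).card := by
    apply Finset.card_le_card
    intro v hv
    rw [Finset.mem_sdiff] at hv ⊢
    exact ⟨hA hv.1, hv.2⟩
  have h4 : A.card ≤ (A ∩ C0).card + d := by omega
  exact_mod_cast h4

private theorem xpT_n {V : Type} (C C0 : Finset V) (d : ℕ)
    (h1 : (C \ C0).card ≤ d) : (C.card : ℝ) ≤ C0.card + d := by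
  have h2 := xpT_c C C C0 d (Finset.Subset.refl _) h1
  have h3 : ((C ∩ C0).card : ℝ) ≤ C0.card := by
    exact_mod_cast Finset.card_le_card Finset.inter_subset_right
  linarith

private theorem xpT_lo (c x N N0 a a0 d : ℝ) (hc : 0 < c) (hc1 : c ≤ 1)
    (hx1 : x ≤ 1) (hd0 : 0 ≤ d) (hN0 : 0 ≤ N0) (h0 : N0 ≤ N + d)
    (hd : 2000 * d ≤ c * x * N0) (ha : a ≤ a0 + d) (h : c / 128 * N ≤ a) :
    c / 256 * N0 ≤ a0 := by
  have e1 : c * x * N0 ≤ c * N0 := by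
    have : c * N0 * x ≤ c * N0 * 1 :=
      mul_le_mul_of_nonneg_left hx1 (mul_nonneg hc.le hN0)
    linarith
  have e2 : c * N0 ≤ c * N + d := by
    have e3 : c * N0 ≤ c * (N + d) := mul_le_mul_of_nonneg_left h0 hc.le
    have e4 : c * d ≤ 1 * d := mul_le_mul_of_nonneg_right hc1 hd0
    linarith
  linarith

private theorem xpT_hi (c x N N0 a a0 d : ℝ) (hc : 0 < c) (hc1 : c ≤ 1)
    (hx1 : x ≤ 1) (hd0 : 0 ≤ d) (hN0 : 0 ≤ N0) (h1 : N ≤ N0 + d) (h0 : N0 ≤ N + d)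
    (hd : 2000 * d ≤ c * x * N0) (ha : a0 ≤ a) (h : a ≤ (1 - c / 128) * N) :
    a0 ≤ (1 - c / 256) * N0 := by
  have e1 : c * x * N0 ≤ c * N0 := by
    have : c * N0 * x ≤ c * N0 * 1 :=
      mul_le_mul_of_nonneg_left hx1 (mul_nonneg hc.le hN0)
    linarith
  have e2 : c * N0 ≤ c * N + d := by
    have e3 : c * N0 ≤ c * (N + d) := mul_le_mul_of_nonneg_left h0 hc.le
    have e4 : c * d ≤ 1 * d := mul_le_mul_of_nonneg_right hc1 hd0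
    linarith
  have e5 : (1 - c / 128) * N = N - c * N / 128 := by ring
  have e6 : (1 - c / 256) * N0 = N0 - c * N0 / 256 := by ring
  rw [e5] at h
  rw [e6]
  linarith

private theorem xpT_q (c x N N0 d e e0 : ℝ) (hc : 0 < c) (hc1 : c ≤ 1) (hx : 0 < x)
    (hx1 : x ≤ 1) (hN : 0 ≤ N) (hN0 : 0 ≤ N0) (h1 : N ≤ N0 + d)
    (hd : 2000 * d ≤ c * x * N0) (he : e0 ≤ e) (h : e ≤ x * N ^ 2) :
    e0 ≤ 2 * x * N0 ^ 2 := by
  have e1 : c * x * N0 ≤ N0 := by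
    have e2 : c * x ≤ 1 := by
      have : c * x ≤ 1 * 1 := mul_le_mul hc1 hx1 hx.le zero_le_one
      linarith
    have : c * x * N0 ≤ 1 * N0 := mul_le_mul_of_nonneg_right e2 hN0
    linarith
  have e3 : N ≤ 5 / 4 * N0 := by linarith
  have e4 : N * N ≤ 5 / 4 * N0 * (5 / 4 * N0) :=
    mul_le_mul e3 e3 hN (by linarith)
  have e5 : N ^ 2 ≤ 2 * N0 ^ 2 := by
    have e6 : 0 ≤ N0 ^ 2 := sq_nonneg N0
    have e7 : 5 / 4 * N0 * (5 / 4 * N0) = 25 / 16 * N0 ^ 2 := by ring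
    have e8 : N ^ 2 = N * N := by ring
    rw [e8]
    linarith
  have e6 : x * N ^ 2 ≤ x * (2 * N0 ^ 2) := mul_le_mul_of_nonneg_left e5 hx.le
  linarith

private theorem xpT_f (c x P P0 Q Q0 a a0 y y0 d : ℝ) (hc1 : c ≤ 1) (hx : 0 < x)
    (hx1 : x ≤ 1) (hd0 : 0 ≤ d) (hP0 : 0 ≤ P0) (h1 : P ≤ P0 + d) (h2 : Q0 ≤ Q + d)
    (hd : 2000 * d ≤ c * x * P0) (ha : a ≤ a0 + d) (hy : y ≤ y0 + d)
    (h : a0 + y0 + 2 * x * P0 ≤ Q0) : a + y + x * P ≤ Q := by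
  have e1 : c * x * P0 ≤ x * P0 := by
    have : c * (x * P0) ≤ 1 * (x * P0) :=
      mul_le_mul_of_nonneg_right hc1 (mul_nonneg hx.le hP0)
    linarith
  have e2 : x * P ≤ x * P0 + d := by
    have e3 : x * P ≤ x * (P0 + d) := mul_le_mul_of_nonneg_left h1 hx.le
    have e4 : x * d ≤ 1 * d := mul_le_mul_of_nonneg_right hx1 hd0
    linarith
  linarith

theorem xpcT {V : Type} [Fintype V] (G : SimpleGraph V) (c x : ℝ) (hc : 0 < c) (hc1 : c ≤ 1)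
    (hx : 0 < x) (hx1 : x ≤ 1) (C C0 : Finset V) (d : ℕ) (h1 : (C \ C0).card ≤ d)
    (h2 : (C0 \ C).card ≤ d) (hd : 2000 * (d : ℝ) ≤ c * x * C0.card)
    (h : XPc G C0 (c / 256) (2 * x) (2 * x)) : XPc G C (c / 128) x x := by
  intro A Y hA hY hlo hhi he
  have hN : (C.card : ℝ) ≤ C0.card + d := xpT_n C C0 d h1
  have hN' : (C0.card : ℝ) ≤ C.card + d := xpT_n C0 C d h2
  have hd0 : (0 : ℝ) ≤ d := Nat.cast_nonneg _
  have hC0 : (0 : ℝ) ≤ C0.card := Nat.cast_nonneg _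
  have hC : (0 : ℝ) ≤ C.card := Nat.cast_nonneg _
  have ha1 : (A.card : ℝ) ≤ (A ∩ C0).card + d := xpT_c A C C0 d hA h1
  have hy1 : (Y.card : ℝ) ≤ (Y ∩ C0).card + d := xpT_c Y C C0 d hY h1
  have ha2 : ((A ∩ C0).card : ℝ) ≤ A.card := by
    exact_mod_cast Finset.card_le_card Finset.inter_subset_left
  have hee : (ee G (A ∩ C0) (Y ∩ C0) : ℝ) ≤ ee G A Y := by
    exact_mod_cast xpT_ee G Finset.inter_subset_left Finset.inter_subset_left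
  have h3 := h (A ∩ C0) (Y ∩ C0) Finset.inter_subset_right Finset.inter_subset_right
    (xpT_lo c x _ _ _ _ d hc hc1 hx1 hd0 hC0 hN' hd ha1 hlo)
    (xpT_hi c x _ _ _ _ d hc hc1 hx1 hd0 hC0 hN hN' hd ha2 hhi)
    (xpT_q c x _ _ d _ _ hc hc1 hx hx1 hC hC0 hN hd hee he)
  exact xpT_f c x _ _ _ _ _ _ _ _ d hc1 hx hx1 hd0 hC0 hN hN' hd ha1 hy1 h3

theorem xpqT {V : Type} [Fintype V] (G : SimpleGraph V) (c x : ℝ) (hc : 0 < c) (hc1 : c ≤ 1)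
    (hx : 0 < x) (hx1 : x ≤ 1) (P P0 Q Q0 : Finset V) (d : ℕ) (h1 : (P \ P0).card ≤ d)
    (h2 : (P0 \ P).card ≤ d) (h3 : (Q \ Q0).card ≤ d) (h4 : (Q0 \ Q).card ≤ d)
    (hd : 2000 * (d : ℝ) ≤ c * x * P0.card)
    (h : XPQ G P0 Q0 (c / 256) (2 * x) (2 * x)) : XPQ G P Q (c / 128) x x := by
  intro A Y hA hY hlo hhi he
  have hN : (P.card : ℝ) ≤ P0.card + d := xpT_n P P0 d h1
  have hN' : (P0.card : ℝ) ≤ P.card + d := xpT_n P0 P d h2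
  have hQ' : (Q0.card : ℝ) ≤ Q.card + d := xpT_n Q0 Q d h4
  have hd0 : (0 : ℝ) ≤ d := Nat.cast_nonneg _
  have hC0 : (0 : ℝ) ≤ P0.card := Nat.cast_nonneg _
  have hC : (0 : ℝ) ≤ P.card := Nat.cast_nonneg _
  have ha1 : (A.card : ℝ) ≤ (A ∩ P0).card + d := xpT_c A P P0 d hA h1
  have hy1 : (Y.card : ℝ) ≤ (Y ∩ Q0).card + d := xpT_c Y Q Q0 d hY h3
  have ha2 : ((A ∩ P0).card : ℝ) ≤ A.card := by
    exact_mod_cast Finset.card_le_card Finset.inter_subset_left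
  have hee : (ee G (A ∩ P0) (Y ∩ Q0) : ℝ) ≤ ee G A Y := by
    exact_mod_cast xpT_ee G Finset.inter_subset_left Finset.inter_subset_left
  have h5 := h (A ∩ P0) (Y ∩ Q0) Finset.inter_subset_right Finset.inter_subset_right
    (xpT_lo c x _ _ _ _ d hc hc1 hx1 hd0 hC0 hN' hd ha1 hlo)
    (xpT_hi c x _ _ _ _ d hc hc1 hx1 hd0 hC0 hN hN' hd ha2 hhi)
    (xpT_q c x _ _ d _ _ hc hc1 hx hx1 hC hC0 hN hd hee he)
  exact xpT_f c x _ _ _ _ _ _ _ _ d hc1 hx hx1 hd0 hC0 hN hQ' hd ha1 hy1 h5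

theorem xpcM {V : Type} [Fintype V] (G : SimpleGraph V) (C : Finset V) (τ ν ν' lam lam' : ℝ)
    (hν : ν' ≤ ν) (hl : lam' ≤ lam) (h : XPc G C τ ν lam) : XPc G C τ ν' lam' := by
  intro A Y hA hY hlo hhi he
  have h1 : lam' * (C.card : ℝ) ^ 2 ≤ lam * (C.card : ℝ) ^ 2 :=
    mul_le_mul_of_nonneg_right hl (sq_nonneg _)
  have h2 := h A Y hA hY hlo hhi (he.trans h1)
  have h3 : ν' * (C.card : ℝ) ≤ ν * C.card :=
    mul_le_mul_of_nonneg_right hν (Nat.cast_nonneg _)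
  linarith

theorem xpqM {V : Type} [Fintype V] (G : SimpleGraph V) (P Q : Finset V)
    (τ ν ν' lam lam' : ℝ) (hν : ν' ≤ ν) (hl : lam' ≤ lam) (h : XPQ G P Q τ ν lam) :
    XPQ G P Q τ ν' lam' := by
  intro A Y hA hY hlo hhi he
  have h1 : lam' * (P.card : ℝ) ^ 2 ≤ lam * (P.card : ℝ) ^ 2 :=
    mul_le_mul_of_nonneg_right hl (sq_nonneg _)
  have h2 := h A Y hA hY hlo hhi (he.trans h1)
  have h3 : ν' * (P.card : ℝ) ≤ ν * P.card :=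
    mul_le_mul_of_nonneg_right hν (Nat.cast_nonneg _)
  linarith

end Pool.Agent.H71.TD
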