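import Mathlib
import Pool.Agent.H71.TD.Cl
import Pool.Agent.H71.TD.XpT

/-!
CLN2: the cleaned pieces are a structure `Str`. Use the STATEMENTS of `xpcT`, `xpqT` (`TD/XpT.lean`).

Proof.  `n = card V > 0`, `Δ ≤ n`, `Bd := {v : nd v ≠ nd0 v}`, `#Bd ≤ σ n`. For every `j`: `pt nd j \ pt nd0 j`, `pt nd0 j \ pt nd j ⊆ Bd`. So `|dgi G (pt nd j) v - dgi G (pt nd0 j) v| ≤ σ n`. Call `j < 2 k` valid if `ty (j / 2) → Even j`.
 (0) If `nd0 v = j < 2 k` then `dg (Fg G k ty nd0) v + dgi G (pt nd0 (pa ty j)) v = dg G v = Δ` (for `ty (j / 2)` the piece `2 (j / 2) + 1` of `nd0` is empty, so `j = 2 (j / 2)`). In the same way for `nd` (by `vl` the piece `2 i + 1` of `nd` is empty if `ty i`, `i < k`).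
 `reg`, `le`, `kc`, `lo` (`σ ≤ f`), `e1` (`vl`, `ev`), `b1`, `s1`, `s2`: immediate. `e2, b2, b3`: `Ag` (`vl`) and `ξ/4 + σ ≤ ξ`. `big`: choose `v` in `pt nd (pa ty (2 i))` (it has at least `(c/8 - σ) n > 0` elements) and use `e2` resp. `b3`.
 `e3, b4, b5`: `xpcT`, `xpqT` with `d := #Bd`, `2000 d ≤ 2000 σ n ≤ c x (c/8) n ≤ c x #(pt nd0 (2 i))` (resp. `2 i + 1`).
 `sm`: if `nd v = nd0 v < 2 k`: every neighbour of `v` in `Fg (nd)` is a neighbour in `Fg (nd0)` or an element of `Bd`; so `dg (Fg nd) v ≤ dg (Fg nd0) v + σ n`; for `v ∈ Bd` use `dg (Fg nd) v ≤ Δ ≤ n`. The sum is at most `(ω + 2 σ) n² ≤ f n²`.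
 `s3, s4`: (a) `#(pt nd0 j) ≥ Δ - (8 ω / c) n ≥ Δ - (ξ / 100) n` for valid `j < 2 k`: the piece `P := pt nd0 (pa ty j)` has at least `(c/8) n` elements, `∑_{v ∈ P} dg (Fg nd0) v ≤ ω n²`, so some `v ∈ P` has `dg (Fg nd0) v ≤ (8 ω / c) n`; by (0) `dgi G (pt nd0 j) v ≥ Δ - (8 ω / c) n` (`pa ty (pa ty j) = j`).
 (b) So `#{v ∈ pt nd j : ¬ G.Adj w v} ≥ #{v ∈ pt nd0 j : ¬ G.Adj w v} - σ n = #(pt nd0 j) - dgi G (pt nd0 j) w - σ n ≥ Δ - dgi G (pt nd0 j) w - (ξ / 50) n`; if `dgi G (pt nd0 j) w ≤ max (ξ/4 n) (Δ - ξ/4 n)` this is at least `(ξ / 8) n` (`ξ n ≤ c n ≤ Δ`).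
 (c) Let `w ∈ pt nd (2 k)`, `w ∉ sf i`, `j ∈ {2 i, 2 i + 1}` valid. `Cl1.s3`: either `dgi G (pt nd0 j) w < Δ - ξ/4 n` (with `pa ty j` in place of `j`, `pa ty (pa ty j) = j`), or `w ∈ sf i'`, `i' < k`, `i' ≠ i`: then `Ag G Δ ty nd0 _ w j'` with a valid `j'`, `j' / 2 = i'`; the partner piece of `j'` is disjoint from `pt nd0 j`, so
  `dgi G (pt nd0 j) w ≤ Δ - (Δ - ξ/4 n) = ξ/4 n`. (d) `s4`: if all `w ∈ sf i` have `Ag .. w (2 i)` then `dgi G (pt nd0 (2 i + 1)) w ≥ Δ - ξ/4 n`, so `dgi G (pt nd0 (2 i)) w ≤ ξ/4 n`: the first alternative; otherwise the second.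
-/

set_option autoImplicit false

namespace Pool.Agent.H71.TD

open Finset Classical
open Pool.Agent.H71.DN Pool.Agent.H71.DX Pool.Agent.H71.DR Pool.Agent.H71.HL Pool.Agent.H71.DC

private theorem c2_pa_ty (ty : ℕ → Prop) (i : ℕ) (h : ty i) : pa ty (2 * i) = 2 * i := by
  unfold pa
  have h1 : 2 * i / 2 = i := by omega
  rw [h1, if_pos h]

private theorem c2_pa_e (ty : ℕ → Prop) (i : ℕ) (h : ¬ ty i) : pa ty (2 * i) = 2 * i + 1 := by
  unfold pa
  have h1 : 2 * i / 2 = i := by omega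
  have h2 : Even (2 * i) := even_two_mul i
  rw [h1, if_neg h, if_pos h2]

private theorem c2_pa_o (ty : ℕ → Prop) (i : ℕ) (h : ¬ ty i) : pa ty (2 * i + 1) = 2 * i := by
  unfold pa
  have h1 : (2 * i + 1) / 2 = i := by omega
  have h2 : ¬ Even (2 * i + 1) := by
    rw [Nat.not_even_iff]
    omega
  rw [h1, if_neg h, if_neg h2]
  omega

/-- The edges at `v` inside the pieces. -/
private theorem c2_fg {V : Type} [Fintype V] (G : SimpleGraph V) (k : ℕ) (ty : ℕ → Prop)
    (nd : V → ℕ) (hE : ∀ u, nd u < 2 * k → ty (nd u / 2) → Even (nd u)) (v : V)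
    (hv : nd v < 2 * k) :
    dg (Fg G k ty nd) v + dgi G (pt nd (pa ty (nd v))) v = dg G v := by
  have hH : ∀ u, G.Adj v u → ((Hg G k ty nd).Adj v u ↔ nd u = pa ty (nd v)) := by
    intro u hu
    have e0 : (Hg G k ty nd).Adj v u ↔ (G.Adj v u ∧ nd v < 2 * k ∧ nd u < 2 * k ∧
      nd v / 2 = nd u / 2 ∧ (ty (nd v / 2) ∨ nd v ≠ nd u)) := Iff.rfl
    rw [e0]
    by_cases ht : ty (nd v / 2)
    · have hev := hE v hv ht
      have e1 : pa ty (nd v) = nd v := by
        unfold pa
        rw [if_pos ht]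
      rw [e1]
      constructor
      · rintro ⟨_, _, h2, h3, _⟩
        have h4 : ty (nd u / 2) := by rw [← h3]; exact ht
        have h5 := hE u h2 h4
        rw [Nat.even_iff] at h5 hev
        omega
      · intro h2
        exact ⟨hu, hv, by rw [h2]; exact hv, by rw [h2], Or.inl ht⟩
    · by_cases hev : Even (nd v)
      · have e1 : pa ty (nd v) = nd v + 1 := by
          unfold pa
          rw [if_neg ht, if_pos hev]
        rw [e1]
        rw [Nat.even_iff] at hev
        constructor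
        · rintro ⟨_, _, h2, h3, h4⟩
          rcases h4 with h4 | h4
          · exact absurd h4 ht
          · omega
        · intro h2
          exact ⟨hu, hv, by omega, by omega, Or.inr (by omega)⟩
      · have e1 : pa ty (nd v) = nd v - 1 := by
          unfold pa
          rw [if_neg ht, if_neg hev]
        rw [e1]
        rw [Nat.even_iff] at hev
        constructor
        · rintro ⟨_, _, h2, h3, h4⟩
          rcases h4 with h4 | h4
          · exact absurd h4 ht
          · omega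
        · intro h2
          exact ⟨hu, hv, by omega, by omega, Or.inr (by omega)⟩
  unfold dg dgi
  rw [← Finset.card_union_of_disjoint]
  · apply congrArg Finset.card
    ext u
    simp only [Finset.mem_union, Finset.mem_filter, Finset.mem_univ, true_and, pt]
    constructor
    · rintro (h | h)
      · exact h.1
      · exact h.2
    · intro hu
      by_cases h : nd u = pa ty (nd v)
      · exact Or.inr ⟨h, hu⟩
      · left
        exact ⟨hu, fun h2 => h ((hH u hu).1 h2)⟩
  · rw [Finset.disjoint_left]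
    intro u h1 h2
    simp only [Finset.mem_filter, Finset.mem_univ, true_and, pt] at h1 h2
    exact h1.2 ((hH u h1.1).2 h2.1)

private theorem c2_pa_pa (ty : ℕ → Prop) (j : ℕ) : pa ty (pa ty j) = j := by
  by_cases ht : ty (j / 2)
  · have e1 : pa ty j = j := by
      unfold pa
      rw [if_pos ht]
    rw [e1, e1]
  · by_cases hev : Even j
    · rw [Nat.even_iff] at hev
      have e0 : 2 * (j / 2) = j := by omega
      have e1 := c2_pa_e ty (j / 2) ht
      have e2 := c2_pa_o ty (j / 2) ht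
      rw [e0] at e1 e2
      rw [e1, e2]
    · rw [Nat.even_iff] at hev
      have e0 : 2 * (j / 2) + 1 = j := by omega
      have e1 := c2_pa_e ty (j / 2) ht
      have e2 := c2_pa_o ty (j / 2) ht
      rw [e0] at e1 e2
      rw [e2, e1]

private theorem c2_pa_div (ty : ℕ → Prop) (j : ℕ) : pa ty j / 2 = j / 2 := by
  unfold pa
  split_ifs with h1 h2
  · rfl
  · rw [Nat.even_iff] at h2
    omega
  · rw [Nat.even_iff] at h2
    omega

/-- Small changes of the set. -/
private theorem c2_dgi {V : Type} [Fintype V] (G : SimpleGraph V) (S S0 : Finset V) (d : ℕ)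
    (h : (S \ S0).card ≤ d) (v : V) : dgi G S v ≤ dgi G S0 v + d := by
  unfold dgi
  have h1 : (S.filter fun u => G.Adj v u) ⊆ (S0.filter fun u => G.Adj v u) ∪ (S \ S0) := by
    intro u hu
    rw [Finset.mem_filter] at hu
    rw [Finset.mem_union, Finset.mem_filter, Finset.mem_sdiff]
    by_cases h0 : u ∈ S0
    · exact Or.inl ⟨h0, hu.2⟩
    · exact Or.inr ⟨hu.1, h0⟩
  have h2 := (Finset.card_le_card h1).trans (Finset.card_union_le _ _)
  omega

private theorem c2_non {V : Type} [Fintype V] (G : SimpleGraph V) (S S0 : Finset V) (d : ℕ)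
    (h : (S0 \ S).card ≤ d) (w : V) :
    S0.card ≤ (S.filter fun v => ¬ G.Adj w v).card + dgi G S0 w + d := by
  unfold dgi
  have h1 : S0 ⊆ (S.filter fun v => ¬ G.Adj w v) ∪ (S0.filter fun u => G.Adj w u) ∪
      (S0 \ S) := by
    intro u hu
    rw [Finset.mem_union, Finset.mem_union, Finset.mem_filter, Finset.mem_filter,
      Finset.mem_sdiff]
    by_cases h0 : u ∈ S
    · by_cases h2 : G.Adj w u
      · exact Or.inl (Or.inr ⟨hu, h2⟩)
      · exact Or.inl (Or.inl ⟨h0, h2⟩)
    · exact Or.inr ⟨hu, h0⟩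
  have h2 := (Finset.card_le_card h1).trans (Finset.card_union_le _ _)
  have h3 := Finset.card_union_le (S.filter fun v => ¬ G.Adj w v)
    (S0.filter fun u => G.Adj w u)
  omega

private theorem c2_two {V : Type} [Fintype V] (G : SimpleGraph V) (nd : V → ℕ) (i j : ℕ)
    (hij : i ≠ j) (w : V) : dgi G (pt nd i) w + dgi G (pt nd j) w ≤ dg G w := by
  unfold dgi dg
  rw [← Finset.card_union_of_disjoint]
  · apply Finset.card_le_card
    intro u hu
    simp only [Finset.mem_union, Finset.mem_filter, Finset.mem_univ, true_and, pt] at hu ⊢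
    rcases hu with hu | hu
    · exact hu.2
    · exact hu.2
  · rw [Finset.disjoint_left]
    intro u h1 h2
    simp only [Finset.mem_filter, Finset.mem_univ, true_and, pt] at h1 h2
    exact hij (h1.1.symm.trans h2.1)

theorem cln2 {V : Type} [Fintype V] (G : SimpleGraph V) (Δ k : ℕ) (c x ξ f ω σ : ℝ)
    (hc : 0 < c) (hc1 : c ≤ 1) (hx : 0 < x) (hx1 : x ≤ 1) (hξ : 0 < ξ) (hξc : ξ ≤ c)
    (hf : 0 < f) (hV : 0 < Fintype.card V) (hcΔ : c * Fintype.card V ≤ Δ)
    (hreg : ∀ v, dg G v = Δ) (hk : (k : ℝ) * c ≤ 2) (ty : ℕ → Prop) (nd0 nd : V → ℕ)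
    (sf : ℕ → Finset V) (hω : 0 ≤ ω) (hσ : 0 ≤ σ) (hω1 : 1000 * ω ≤ c * ξ) (hω2 : 4 * ω ≤ f)
    (hσ1 : 16000 * σ ≤ c ^ 2 * x) (hσ2 : 100 * σ ≤ ξ) (hσ3 : 4 * σ ≤ f)
    (h0 : Cl0 G k c x ω ty nd0)
    (h1 : Cl1 G Δ k (ξ / 4 * Fintype.card V) σ ty nd0 nd sf) :
    Str G Δ c x ξ (ξ / 8) f k ty nd sf := by
  -- the number of vertices and the changed vertices
  obtain ⟨n, hn⟩ : ∃ n : ℝ, n = (Fintype.card V : ℝ) := ⟨_, rfl⟩
  have hn0 : 0 < n := by
    rw [hn]
    exact_mod_cast hV
  obtain ⟨b, hb⟩ : ∃ b : ℕ, b = (univ.filter fun v => nd v ≠ nd0 v).card := ⟨_, rfl⟩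
  have hbσ : (b : ℝ) ≤ σ * n := by
    rw [hb, hn]
    exact h1.ch
  have hsd1 : ∀ j, (pt nd j \ pt nd0 j).card ≤ b := by
    intro j
    rw [hb]
    apply Finset.card_le_card
    intro v hv
    rw [Finset.mem_sdiff] at hv
    simp only [Finset.mem_filter, Finset.mem_univ, true_and, pt] at hv ⊢
    intro h2
    exact hv.2 (h2.symm.trans hv.1)
  have hsd2 : ∀ j, (pt nd0 j \ pt nd j).card ≤ b := by
    intro j
    rw [hb]
    apply Finset.card_le_card
    intro v hv
    rw [Finset.mem_sdiff] at hv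
    simp only [Finset.mem_filter, Finset.mem_univ, true_and, pt] at hv ⊢
    intro h2
    exact hv.2 (h2.trans hv.1)
  have hσc : σ * n < c / 8 * n := by
    apply mul_lt_mul_of_pos_right _ hn0
    have e1 : c ^ 2 * x ≤ c := by
      have e2 : c ^ 2 ≤ c := by nlinarith
      have e3 : c ^ 2 * x ≤ c * 1 := mul_le_mul e2 hx1 hx.le hc.le
      linarith
    linarith
  have hσξ : σ * n ≤ ξ / 100 * n := mul_le_mul_of_nonneg_right (by linarith) hn0.le
  have hcn : ξ * n ≤ Δ := by
    have e1 : ξ * n ≤ c * n := mul_le_mul_of_nonneg_right hξc hn0.le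
    rw [← hn] at hcΔ
    linarith
  have hξn : 0 < ξ * n := mul_pos hξ hn0
  -- the valid pieces
  have hE : ∀ u, nd u < 2 * k → ty (nd u / 2) → Even (nd u) := fun u hu => (h1.vl u hu).2
  have hE0 : ∀ u, nd0 u < 2 * k → ty (nd0 u / 2) → Even (nd0 u) := by
    intro u hu ht
    by_contra hne
    rw [Nat.even_iff] at hne
    have e1 := h0.e1 (nd0 u / 2) (by omega) ht
    have e2 : u ∈ pt nd0 (2 * (nd0 u / 2) + 1) := by
      simp only [Finset.mem_filter, Finset.mem_univ, true_and, pt]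
      omega
    rw [e1] at e2
    exact absurd e2 (Finset.notMem_empty u)
  have he1 : ∀ i < k, ty i → pt nd (2 * i + 1) = ∅ := by
    intro i hi ht
    rw [Finset.eq_empty_iff_forall_notMem]
    intro v hv
    simp only [Finset.mem_filter, Finset.mem_univ, true_and, pt] at hv
    have e1 := hE v (by omega) (by
      have : nd v / 2 = i := by omega
      rw [this]
      exact ht)
    rw [Nat.even_iff] at e1
    omega
  have hdn : ∀ j v, (dgi G (pt nd0 j) v : ℝ) ≤ dgi G (pt nd j) v + σ * n := by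
    intro j v
    have e1 := c2_dgi G (pt nd0 j) (pt nd j) b (hsd2 j) v
    have e2 : (dgi G (pt nd0 j) v : ℝ) ≤ dgi G (pt nd j) v + b := by exact_mod_cast e1
    linarith
  have he2 : ∀ i < k, ty i → ∀ v ∈ pt nd (2 * i),
      (Δ : ℝ) ≤ dgi G (pt nd (2 * i)) v + ξ * n := by
    intro i hi ht v hv
    simp only [Finset.mem_filter, Finset.mem_univ, true_and, pt] at hv
    have e1 := (h1.vl v (by omega)).1
    unfold Ag at e1
    rw [hv, c2_pa_ty ty i ht, ← hn] at e1
    have e2 := hdn (2 * i) v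
    linarith
  have hb2 : ∀ i < k, ¬ ty i → ∀ v ∈ pt nd (2 * i),
      (Δ : ℝ) ≤ dgi G (pt nd (2 * i + 1)) v + ξ * n := by
    intro i hi ht v hv
    simp only [Finset.mem_filter, Finset.mem_univ, true_and, pt] at hv
    have e1 := (h1.vl v (by omega)).1
    unfold Ag at e1
    rw [hv, c2_pa_e ty i ht, ← hn] at e1
    have e2 := hdn (2 * i + 1) v
    linarith
  have hb3 : ∀ i < k, ¬ ty i → ∀ v ∈ pt nd (2 * i + 1),
      (Δ : ℝ) ≤ dgi G (pt nd (2 * i)) v + ξ * n := by
    intro i hi ht v hv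
    simp only [Finset.mem_filter, Finset.mem_univ, true_and, pt] at hv
    have e1 := (h1.vl v (by omega)).1
    unfold Ag at e1
    rw [hv, c2_pa_o ty i ht, ← hn] at e1
    have e2 := hdn (2 * i) v
    linarith
  have hne : ∀ j, c / 8 * n ≤ ((pt nd0 j).card : ℝ) → (pt nd j).Nonempty := by
    intro j hj
    rw [Finset.nonempty_iff_ne_empty]
    intro h2
    have e1 := hsd2 j
    rw [h2, Finset.sdiff_empty] at e1
    have e2 : ((pt nd0 j).card : ℝ) ≤ b := by exact_mod_cast e1
    linarith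
  have hdc : ∀ (S : Finset V) v, (dgi G S v : ℝ) ≤ S.card := by
    intro S v
    unfold dgi
    exact_mod_cast Finset.card_filter_le _ _
  have hbg0 : ∀ j < 2 * k, (ty (j / 2) → Even j) → c / 8 * n ≤ ((pt nd0 j).card : ℝ) := by
    intro j hj hv
    rw [hn]
    by_cases ht : ty (j / 2)
    · have e1 := hv ht
      rw [Nat.even_iff] at e1
      have e2 := h0.bgA (j / 2) (by omega)
      have e3 : 2 * (j / 2) = j := by omega
      rw [e3] at e2
      exact e2
    · by_cases hev : Even j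
      · rw [Nat.even_iff] at hev
        have e2 := h0.bgA (j / 2) (by omega)
        have e3 : 2 * (j / 2) = j := by omega
        rw [e3] at e2
        exact e2
      · rw [Nat.even_iff] at hev
        have e2 := h0.bgB (j / 2) (by omega) ht
        have e3 : 2 * (j / 2) + 1 = j := by omega
        rw [e3] at e2
        exact e2
  have hbig : ∀ i < k, (Δ : ℝ) ≤ (pt nd (2 * i)).card + ξ * n := by
    intro i hi
    by_cases ht : ty i
    · obtain ⟨v, hv⟩ := hne (2 * i) (by rw [hn]; exact h0.bgA i hi)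
      have e1 := he2 i hi ht v hv
      have e2 := hdc (pt nd (2 * i)) v
      linarith
    · obtain ⟨v, hv⟩ := hne (2 * i + 1) (by rw [hn]; exact h0.bgB i hi ht)
      have e1 := hb3 i hi ht v hv
      have e2 := hdc (pt nd (2 * i)) v
      linarith
  have hdd : ∀ j, c / 8 * n ≤ ((pt nd0 j).card : ℝ) →
      2000 * (b : ℝ) ≤ c * x * (pt nd0 j).card := by
    intro j hj
    have e1 : c * x * (c / 8 * n) ≤ c * x * (pt nd0 j).card :=
      mul_le_mul_of_nonneg_left hj (mul_nonneg hc.le hx.le)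
    have e2 : 16000 * σ * n ≤ c ^ 2 * x * n := mul_le_mul_of_nonneg_right hσ1 hn0.le
    have e3 : c * x * (c / 8 * n) = c ^ 2 * x * n / 8 := by ring
    rw [e3] at e1
    linarith
  -- the defect edges
  have hsum : (∑ v ∈ univ.filter fun v => nd v < 2 * k, dg (Fg G k ty nd) v) ≤
      (∑ v ∈ univ.filter fun v => nd0 v < 2 * k, dg (Fg G k ty nd0) v) +
        Fintype.card V * b + b * Fintype.card V := by
    have e1 : ∀ v ∈ univ.filter fun v => nd v < 2 * k, dg (Fg G k ty nd) v ≤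
        (if nd0 v < 2 * k then dg (Fg G k ty nd0) v else 0) + b +
          (if nd v ≠ nd0 v then Fintype.card V else 0) := by
      intro v hv
      simp only [Finset.mem_filter, Finset.mem_univ, true_and] at hv
      by_cases h2 : nd v = nd0 v
      · have h3 : nd0 v < 2 * k := by rw [← h2]; exact hv
        rw [if_pos h3, if_neg (fun h => h h2)]
        have f1 := c2_fg G k ty nd hE v hv
        have f2 := c2_fg G k ty nd0 hE0 v h3
        rw [← h2] at f2
        have f3 := c2_dgi G (pt nd0 (pa ty (nd v))) (pt nd (pa ty (nd v))) b (hsd2 _) v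
        omega
      · rw [if_pos h2]
        have f1 : dg (Fg G k ty nd) v ≤ Fintype.card V := by
          unfold dg
          exact (Finset.card_filter_le _ _).trans_eq Finset.card_univ
        omega
    have e2 := Finset.sum_le_sum e1
    have e3 : ∀ g : V → ℕ, (∑ v ∈ univ.filter fun v => nd v < 2 * k, g v) ≤ ∑ v, g v :=
      fun g => Finset.sum_le_sum_of_subset (Finset.filter_subset _ _)
    have e4 := e2.trans (e3 _)
    rw [Finset.sum_add_distrib, Finset.sum_add_distrib, Finset.sum_const, Finset.card_univ,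
      smul_eq_mul, ← Finset.sum_filter, ← Finset.sum_filter, Finset.sum_const, ← hb,
      smul_eq_mul] at e4
    exact e4
  have hsm : ((∑ v ∈ univ.filter fun v => nd v < 2 * k, dg (Fg G k ty nd) v : ℕ) : ℝ) ≤
      f * n ^ 2 := by
    have e1 : ((∑ v ∈ univ.filter fun v => nd v < 2 * k, dg (Fg G k ty nd) v : ℕ) : ℝ) ≤
        ((∑ v ∈ univ.filter fun v => nd0 v < 2 * k, dg (Fg G k ty nd0) v : ℕ) : ℝ) +
          n * b + b * n := by
      rw [hn]
      exact_mod_cast hsum
    have e2 := h0.sm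
    rw [← hn] at e2
    have e3 : n * b ≤ n * (σ * n) := mul_le_mul_of_nonneg_left hbσ hn0.le
    have e4 : (ω + 2 * σ) * n ^ 2 ≤ f * n ^ 2 :=
      mul_le_mul_of_nonneg_right (by linarith) (sq_nonneg n)
    have e5 : n * (σ * n) = σ * n ^ 2 := by ring
    have e6 : (ω + 2 * σ) * n ^ 2 = ω * n ^ 2 + 2 * (σ * n ^ 2) := by ring
    rw [e5] at e3
    rw [e6] at e4
    have e7 : (b : ℝ) * n = n * b := mul_comm _ _
    rw [e7] at e1
    linarith
  -- the sizes of the pieces
  have hsz : ∀ j < 2 * k, (ty (j / 2) → Even j) →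
      (Δ : ℝ) ≤ (pt nd0 j).card + ξ / 100 * n := by
    intro j hj hv
    have hj2 : pa ty j < 2 * k := by
      have := c2_pa_div ty j
      omega
    have hv2 : ty (pa ty j / 2) → Even (pa ty j) := by
      intro ht
      rw [c2_pa_div] at ht
      have e1 : pa ty j = j := by
        unfold pa
        rw [if_pos ht]
      rw [e1]
      exact hv ht
    have hP := hbg0 (pa ty j) hj2 hv2
    have hPne : (pt nd0 (pa ty j)).Nonempty := by
      rw [← Finset.card_pos]
      have e1 : (0 : ℝ) < (pt nd0 (pa ty j)).card :=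
        lt_of_lt_of_le (mul_pos (by linarith) hn0) hP
      exact_mod_cast e1
    have hex : ∃ v ∈ pt nd0 (pa ty j), (dg (Fg G k ty nd0) v : ℝ) ≤ 8 * ω / c * n := by
      by_contra hcon
      push Not at hcon
      have e1 : ((pt nd0 (pa ty j)).card : ℝ) * (8 * ω / c * n) <
          ∑ v ∈ pt nd0 (pa ty j), (dg (Fg G k ty nd0) v : ℝ) := by
        rw [← nsmul_eq_mul, ← Finset.sum_const]
        exact Finset.sum_lt_sum_of_nonempty hPne hcon
      have e2 : (∑ v ∈ pt nd0 (pa ty j), dg (Fg G k ty nd0) v) ≤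
          ∑ v ∈ univ.filter fun v => nd0 v < 2 * k, dg (Fg G k ty nd0) v := by
        apply Finset.sum_le_sum_of_subset
        intro v hv3
        simp only [Finset.mem_filter, Finset.mem_univ, true_and, pt] at hv3 ⊢
        omega
      have e3 : (∑ v ∈ pt nd0 (pa ty j), (dg (Fg G k ty nd0) v : ℝ)) ≤
          ((∑ v ∈ univ.filter fun v => nd0 v < 2 * k, dg (Fg G k ty nd0) v : ℕ) : ℝ) := by
        exact_mod_cast e2
      have e4 := h0.sm
      rw [← hn] at e4
      have e5 : 0 ≤ 8 * ω / c * n :=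
        mul_nonneg (div_nonneg (by linarith) hc.le) hn0.le
      have e6 : c / 8 * n * (8 * ω / c * n) ≤ (pt nd0 (pa ty j)).card * (8 * ω / c * n) :=
        mul_le_mul_of_nonneg_right hP e5
      have e7 : c / 8 * n * (8 * ω / c * n) = ω * n ^ 2 := by
        field_simp
      rw [e7] at e6
      linarith
    obtain ⟨v, hv3, hv4⟩ := hex
    simp only [Finset.mem_filter, Finset.mem_univ, true_and, pt] at hv3
    have e1 := c2_fg G k ty nd0 hE0 v (by rw [hv3]; exact hj2)
    rw [hv3, c2_pa_pa, hreg v] at e1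
    have e2 : (dg (Fg G k ty nd0) v : ℝ) + dgi G (pt nd0 j) v = Δ := by exact_mod_cast e1
    have e3 := hdc (pt nd0 j) v
    have e4 : 8 * ω / c * n ≤ ξ / 100 * n := by
      apply mul_le_mul_of_nonneg_right _ hn0.le
      rw [div_le_iff₀ hc]
      linarith
    linarith
  have hnon : ∀ j < 2 * k, (ty (j / 2) → Even j) → ∀ w,
      ((dgi G (pt nd0 j) w : ℝ) + ξ / 4 * n ≤ Δ ∨ (dgi G (pt nd0 j) w : ℝ) ≤ ξ / 4 * n) →
      ξ / 8 * n ≤ (((pt nd j).filter fun v => ¬ G.Adj w v).card : ℝ) := by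
    intro j hj hv w hw
    have e1 := c2_non G (pt nd j) (pt nd0 j) b (hsd2 j) w
    have e2 : ((pt nd0 j).card : ℝ) ≤ ((pt nd j).filter fun v => ¬ G.Adj w v).card +
        dgi G (pt nd0 j) w + b := by exact_mod_cast e1
    have e3 := hsz j hj hv
    rcases hw with hw | hw
    · linarith
    · linarith
  have htwo : ∀ i j w, i ≠ j → (Δ : ℝ) ≤ dgi G (pt nd0 i) w + ξ / 4 * n →
      (dgi G (pt nd0 j) w : ℝ) ≤ ξ / 4 * n := by
    intro i j w hij hi
    have e1 := c2_two G nd0 i j hij w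
    rw [hreg w] at e1
    have e2 : (dgi G (pt nd0 i) w : ℝ) + dgi G (pt nd0 j) w ≤ Δ := by exact_mod_cast e1
    linarith
  have hs3 : ∀ j < 2 * k, (ty (j / 2) → Even j) → ∀ w ∈ pt nd (2 * k), w ∉ sf (j / 2) →
      ξ / 8 * n ≤ (((pt nd j).filter fun v => ¬ G.Adj w v).card : ℝ) := by
    intro j hj hv w hw hwn
    simp only [Finset.mem_filter, Finset.mem_univ, true_and, pt] at hw
    apply hnon j hj hv w
    rcases h1.s3 w hw with ⟨i', hi', hwi⟩ | h3
    · right
      have hii : i' ≠ j / 2 := by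
        intro h4
        rw [h4] at hwi
        exact hwn hwi
      by_cases ht : ty i'
      · have e1 := h1.sE i' hi' ht w hwi
        unfold Ag at e1
        rw [c2_pa_ty ty i' ht, ← hn] at e1
        exact htwo (2 * i') j w (by omega) e1
      · rcases h1.sB i' hi' ht with h4 | h4
        · have e1 := h4 w hwi
          unfold Ag at e1
          rw [c2_pa_e ty i' ht, ← hn] at e1
          exact htwo (2 * i' + 1) j w (by omega) e1
        · have e1 := h4 w hwi
          unfold Ag at e1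
          rw [c2_pa_o ty i' ht, ← hn] at e1
          exact htwo (2 * i') j w (by omega) e1
    · left
      have e1 := h3 (pa ty j) (by
        have := c2_pa_div ty j
        omega) (by
        intro ht
        rw [c2_pa_div] at ht
        have e1 : pa ty j = j := by
          unfold pa
          rw [if_pos ht]
        rw [e1]
        exact hv ht)
      rw [c2_pa_pa, ← hn] at e1
      exact e1.le
  have hval0 : ∀ i, ty (2 * i / 2) → Even (2 * i) := fun i _ => even_two_mul i
  have hval1 : ∀ i, ¬ ty i → ty ((2 * i + 1) / 2) → Even (2 * i + 1) := by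
    intro i ht ht2
    have e1 : (2 * i + 1) / 2 = i := by omega
    rw [e1] at ht2
    exact absurd ht2 ht
  refine ⟨hreg, h1.le, hk, ?_, ?_, ?_, ?_, ?_, h1.ba, ?_, ?_, ?_, ?_, ?_, h1.s1, h1.s2,
    ?_, ?_⟩
  · intro i hi
    rw [← hn]
    exact hbig i hi
  · have e1 := h1.lo
    rw [← hn] at e1 ⊢
    have e2 : σ * n ≤ f * n := mul_le_mul_of_nonneg_right (by linarith) hn0.le
    linarith
  · intro i hi ht
    exact ⟨he1 i hi ht, h1.ev i hi ht⟩
  · intro i hi ht v hv
    rw [← hn]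
    exact he2 i hi ht v hv
  · intro i hi ht
    exact xpcT G c x hc hc1 hx hx1 (pt nd (2 * i)) (pt nd0 (2 * i)) b (hsd1 _) (hsd2 _)
      (hdd _ (by rw [hn]; exact h0.bgA i hi)) (h0.xE i hi ht)
  · intro i hi ht v hv
    rw [← hn]
    exact hb2 i hi ht v hv
  · intro i hi ht v hv
    rw [← hn]
    exact hb3 i hi ht v hv
  · intro i hi ht
    exact xpqT G c x hc hc1 hx hx1 (pt nd (2 * i)) (pt nd0 (2 * i)) (pt nd (2 * i + 1))
      (pt nd0 (2 * i + 1)) b (hsd1 _) (hsd2 _) (hsd1 _) (hsd2 _)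
      (hdd _ (by rw [hn]; exact h0.bgA i hi)) (h0.xA i hi ht)
  · intro i hi ht
    exact xpqT G c x hc hc1 hx hx1 (pt nd (2 * i + 1)) (pt nd0 (2 * i + 1)) (pt nd (2 * i))
      (pt nd0 (2 * i)) b (hsd1 _) (hsd2 _) (hsd1 _) (hsd2 _)
      (hdd _ (by rw [hn]; exact h0.bgB i hi ht)) (h0.xB i hi ht)
  · rw [← hn]
    exact hsm
  · intro i hi w hw hwn
    rw [← hn]
    have e0 : 2 * i / 2 = i := by omega
    have e1 : (2 * i + 1) / 2 = i := by omega
    constructor
    · exact hs3 (2 * i) (by omega) (hval0 i) w hw (by rw [e0]; exact hwn)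
    · intro ht
      exact hs3 (2 * i + 1) (by omega) (hval1 i ht) w hw (by rw [e1]; exact hwn)
  · intro i hi ht
    rw [← hn]
    rcases h1.sB i hi ht with h4 | h4
    · left
      intro w hw
      have e1 := h4 w hw
      unfold Ag at e1
      rw [c2_pa_e ty i ht, ← hn] at e1
      exact hnon (2 * i) (by omega) (hval0 i) w
        (Or.inr (htwo (2 * i + 1) (2 * i) w (by omega) e1))
    · right
      intro w hw
      have e1 := h4 w hw
      unfold Ag at e1
      rw [c2_pa_o ty i ht, ← hn] at e1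
      exact hnon (2 * i + 1) (by omega) (hval1 i ht) w
        (Or.inr (htwo (2 * i) (2 * i + 1) w (by omega) e1))

end Pool.Agent.H71.TD
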