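import Mathlib
import Pool.Agent.H71.TD.Cln1
import Pool.Agent.H71.TD.Cln2

/-!
CLN: assembly of `cln1` (`TD/Cln1.lean`) and `cln2` (`TD/Cln2.lean`), use only the STATEMENTS: `σ := min (c² x / 16000) (min (ξ / 100) (f / 4))`, `ω0 := min (ω1) (min (c ξ / 1000) (f / 4))`, `n0 := n1 + 1`.
-/

set_option autoImplicit false

namespace Pool.Agent.H71.TD

open Finset Classical
open Pool.Agent.H71.DN Pool.Agent.H71.DX Pool.Agent.H71.DR Pool.Agent.H71.HL Pool.Agent.H71.DC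

theorem cln (c x ξ f : ℝ) (hc : 0 < c) (hc1 : c ≤ 1) (hx : 0 < x) (hx1 : x ≤ 1) (hξ : 0 < ξ)
    (hξc : ξ ≤ c) (hf : 0 < f) :
    ∃ (ω0 : ℝ) (n0 : ℕ), 0 < ω0 ∧
      ∀ (V : Type) [Fintype V] (G : SimpleGraph V) (Δ k : ℕ) (ω : ℝ) (ty : ℕ → Prop)
        (nd0 : V → ℕ), n0 ≤ Fintype.card V → c * Fintype.card V ≤ Δ → (∀ v, dg G v = Δ) →
        (k : ℝ) * c ≤ 2 → 0 ≤ ω → ω ≤ ω0 → Cl0 G k c x ω ty nd0 →
        ∃ (nd : V → ℕ) (sf : ℕ → Finset V), Str G Δ c x ξ (ξ / 8) f k ty nd sf := by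
  obtain ⟨σ, hσ⟩ : ∃ σ : ℝ, σ = min (c ^ 2 * x / 16000) (min (ξ / 100) (f / 4)) := ⟨_, rfl⟩
  have hσ0 : 0 < σ := by
    rw [hσ]
    refine lt_min (by positivity) (lt_min (by positivity) (by positivity))
  have hσ1 : 16000 * σ ≤ c ^ 2 * x := by
    have h1 : σ ≤ c ^ 2 * x / 16000 := by
      rw [hσ]
      exact min_le_left _ _
    linarith
  have hσ2 : 100 * σ ≤ ξ := by
    have h1 : σ ≤ ξ / 100 := by
      rw [hσ]
      exact (min_le_right _ _).trans (min_le_left _ _)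
    linarith
  have hσ3 : 4 * σ ≤ f := by
    have h1 : σ ≤ f / 4 := by
      rw [hσ]
      exact (min_le_right _ _).trans (min_le_right _ _)
    linarith
  obtain ⟨ω1, n1, hω1, H⟩ := cln1 c ξ σ hc hc1 hξ hξc hσ0
  refine ⟨min ω1 (min (c * ξ / 1000) (f / 4)), n1 + 1, ?_, ?_⟩
  · refine lt_min hω1 (lt_min (by positivity) (by positivity))
  · intro V _ G Δ k ω ty nd0 hn hcΔ hreg hk hω hωle h0
    obtain ⟨nd, sf, h1⟩ := H V G Δ k x ω ty nd0 (by omega) hcΔ hreg hk hω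
      (hωle.trans (min_le_left _ _)) h0
    have hω2 : ω ≤ c * ξ / 1000 := hωle.trans ((min_le_right _ _).trans (min_le_left _ _))
    have hω3 : ω ≤ f / 4 := hωle.trans ((min_le_right _ _).trans (min_le_right _ _))
    exact ⟨nd, sf, cln2 G Δ k c x ξ f ω σ hc hc1 hx hx1 hξ hξc hf (by omega) hcΔ hreg hk ty nd0 nd
      sf hω hσ0.le (by linarith) (by linarith) hσ1 hσ2 hσ3 h0 h1⟩

end Pool.Agent.H71.TD
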