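import Mathlib
import Pool.Agent.H71.TD.Ifc
import Pool.Agent.H71.DC.Sel

/-!
UNS: the sets of a family of closed sets, for which no larger family exists, cannot be split (compare the end of the proof of `xcl`, `DC/Xcl.lean`, proved), and the rest of the vertex set is tiny. Use the STATEMENTS of `dich`, `half` (`DC/Sel.lean`).

`unsp` (`n = card V`).  Let `I ⊆ Q i`, `Δ #I ≤ ee G I I + ε n²`, and suppose that `#I > 4/c (η + ε) n` and `#(Q i \ I) > 4/c (η + ε) n`. `half`: `J := Q i \ I` satisfies `Δ #J ≤ ee G J J + (η + 2 ε) n²`. `dich` for `J` with `t := #J / n` (`η + 2 ε ≤ t (c/2)` because `t > 4/c (η + ε)`; `t > 0`): `#J ≥ (c/2) n`;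
 similarly `#I ≥ (c/2) n`. `Q' j := I` for `j = i`, `J` for `j = k`, `Q j` otherwise, is a family `Clo G Δ c η' (k + 1) Q'` (`ε ≤ η'`, `η + 2 ε ≤ η'`, `η ≤ η'`): a contradiction.
`rmdr`.  `W :=` the complement of the union of the `Q i`, `i < k`. As `G` is `Δ`-regular, `Δ #(Q i) - ee G (Q i) (Q i)` is the number of edges between `Q i` and its complement; so `ee G W (Q i) ≤ η n²`, and `Δ #W = ee G W W + ∑ i < k, ee G W (Q i) ≤ ee G W W + k η n²`. If `#W > 2 (k η) / c n` then by `dich`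
 (`t := #W / n`) `#W ≥ (c/2) n`, and `Q' j := Q j` for `j < k`, `Q' k := W` is a family with `k + 1` sets (level `η' ≥ k η, η`): a contradiction.
-/

set_option autoImplicit false

namespace Pool.Agent.H71.TD

open Finset Classical
open Pool.Agent.H71.DN Pool.Agent.H71.DX Pool.Agent.H71.DR Pool.Agent.H71.HL Pool.Agent.H71.DC

/-- Closed subsets of `C` are tiny, or their complements in `C` are tiny. -/
def Uns {V : Type} [Fintype V] (G : SimpleGraph V) (Δ : ℕ) (c ε0 εm : ℝ) (C : Finset V) : Prop :=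
  ∀ I : Finset V, I ⊆ C → ∀ ε : ℝ, 0 ≤ ε → ε ≤ εm →
    (Δ : ℝ) * I.card ≤ ee G I I + ε * (Fintype.card V : ℝ) ^ 2 →
    (I.card : ℝ) ≤ 4 / c * (ε0 + ε) * Fintype.card V ∨
      ((C \ I).card : ℝ) ≤ 4 / c * (ε0 + ε) * Fintype.card V

theorem UnS_half {V : Type} [Fintype V] (G : SimpleGraph V) (Δ : ℕ) (n η η1 : ℝ)
    (hΔ : ∀ v, dg G v ≤ Δ) (Q I : Finset V) (hI : I ⊆ Q)
    (hQ : (Δ : ℝ) * Q.card ≤ ee G Q Q + η * n ^ 2)
    (h : (Δ : ℝ) * I.card ≤ ee G I I + η1 * n ^ 2) :
    (Δ : ℝ) * (Q \ I).card ≤ ee G (Q \ I) (Q \ I) + (η + 2 * η1) * n ^ 2 :=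
  half G Δ n η η1 hΔ Q I hI hQ h

theorem UnS_dich {V : Type} [Fintype V] (G : SimpleGraph V) (Δ : ℕ) (n c η ε e : ℝ)
    (hc : 0 < c) (hη : 0 ≤ η) (hε : 0 ≤ ε) (he : e ≤ η + 2 * ε) (hn : 0 < n)
    (hcΔ : c * n ≤ Δ) (S : Finset V) (hS : 4 / c * (η + ε) * n < (S.card : ℝ))
    (h : (Δ : ℝ) * S.card ≤ ee G S S + e * n ^ 2) : c / 2 * n ≤ (S.card : ℝ) := by
  have hq0 : 0 ≤ 4 / c * (η + ε) := by positivity
  have ht : 4 / c * (η + ε) < S.card / n := by rwa [lt_div_iff₀ hn]
  refine dich G Δ n c e (S.card / n) hn (lt_of_le_of_lt hq0 ht) ?_ hcΔ S ?_ h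
  · have h6 : 4 / c * (η + ε) * (c / 2) ≤ S.card / n * (c / 2) :=
      mul_le_mul_of_nonneg_right ht.le (by linarith)
    have h7 : 4 / c * (η + ε) * (c / 2) = 2 * (η + ε) := by
      field_simp
      ring
    linarith
  · rw [div_mul_cancel₀ _ hn.ne']

theorem unsp {V : Type} [Fintype V] (G : SimpleGraph V) (Δ k : ℕ) (c η η' εm : ℝ)
    (hc : 0 < c) (hc1 : c ≤ 1) (hη : 0 ≤ η) (hV : 0 < Fintype.card V)
    (hΔ : ∀ v, dg G v ≤ Δ) (hcΔ : c * Fintype.card V ≤ Δ) (Q : ℕ → Finset V)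
    (hQ : Clo G Δ c η k Q) (hmax : ¬ ∃ Q' : ℕ → Finset V, Clo G Δ c η' (k + 1) Q')
    (hle : η + 2 * εm ≤ η') (i : ℕ) (hi : i < k) : Uns G Δ c η εm (Q i) := by
  intro I hIQ ε hε0 hεm hIc
  by_contra hcon
  rw [not_or, not_le, not_le] at hcon
  obtain ⟨hI1, hJ1⟩ := hcon
  obtain ⟨n, hn⟩ : ∃ n : ℝ, n = Fintype.card V := ⟨_, rfl⟩
  have hn0 : 0 < n := by
    rw [hn]
    exact_mod_cast hV
  have hclo := hQ.clo i hi
  rw [← hn] at hcΔ hclo hIc hI1 hJ1
  have hJc := UnS_half G Δ n η ε hΔ (Q i) I hIQ hclo hIc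
  have hIb := UnS_dich G Δ n c η ε ε hc hη hε0 (by linarith) hn0 hcΔ I hI1 hIc
  have hJb := UnS_dich G Δ n c η ε (η + 2 * ε) hc hη hε0 (by linarith) hn0 hcΔ (Q i \ I) hJ1 hJc
  apply hmax
  refine ⟨fun j => if j = i then I else if j = k then Q i \ I else Q j, ?_, ?_, ?_⟩
  · intro j hj
    rw [← hn]
    by_cases h1 : j = i
    · rw [if_pos h1]
      exact hIb
    · rw [if_neg h1]
      by_cases h2 : j = k
      · rw [if_pos h2]
        exact hJb
      · rw [if_neg h2, hn]
        exact hQ.big j (by omega)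
  · intro j hj
    rw [← hn]
    have hn2' : 0 ≤ n ^ 2 := by positivity
    by_cases h1 : j = i
    · rw [if_pos h1]
      have h3 : ε * n ^ 2 ≤ η' * n ^ 2 := mul_le_mul_of_nonneg_right (by linarith) hn2'
      linarith
    · rw [if_neg h1]
      by_cases h2 : j = k
      · rw [if_pos h2]
        have h3 : (η + 2 * ε) * n ^ 2 ≤ η' * n ^ 2 :=
          mul_le_mul_of_nonneg_right (by linarith) hn2'
        linarith
      · rw [if_neg h2]
        have h4 := hQ.clo j (by omega)
        rw [← hn] at h4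
        have h3 : η * n ^ 2 ≤ η' * n ^ 2 := mul_le_mul_of_nonneg_right (by linarith) hn2'
        linarith
  · have hIJ : Disjoint I (Q i \ I) := disjoint_sdiff
    have hQi : ∀ j, j < k → j ≠ i → Disjoint (Q i) (Q j) := fun j hj hji =>
      hQ.dis i hi j hj (Ne.symm hji)
    intro a ha b hb hab
    show Disjoint (if a = i then I else if a = k then Q i \ I else Q a)
      (if b = i then I else if b = k then Q i \ I else Q b)
    by_cases a1 : a = i
    · rw [if_pos a1]
      have b1 : b ≠ i := fun h => hab (a1.trans h.symm)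
      rw [if_neg b1]
      by_cases b2 : b = k
      · rw [if_pos b2]
        exact hIJ
      · rw [if_neg b2]
        exact (hQi b (by omega) b1).mono_left hIQ
    · rw [if_neg a1]
      by_cases a2 : a = k
      · rw [if_pos a2]
        have b2 : b ≠ k := fun h => hab (a2.trans h.symm)
        by_cases b1 : b = i
        · rw [if_pos b1]
          exact hIJ.symm
        · rw [if_neg b1, if_neg b2]
          exact (hQi b (by omega) b1).mono_left sdiff_subset
      · rw [if_neg a2]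
        by_cases b1 : b = i
        · rw [if_pos b1]
          exact ((hQi a (by omega) a1).mono_left hIQ).symm
        · rw [if_neg b1]
          by_cases b2 : b = k
          · rw [if_pos b2]
            exact ((hQi a (by omega) a1).mono_left sdiff_subset).symm
          · rw [if_neg b2]
            exact hQ.dis a (by omega) b (by omega) hab

theorem rmdr {V : Type} [Fintype V] (G : SimpleGraph V) (Δ k : ℕ) (c η η' : ℝ)
    (hc : 0 < c) (hc1 : c ≤ 1) (hη : 0 ≤ η) (hV : 0 < Fintype.card V)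
    (hreg : ∀ v, dg G v = Δ) (hcΔ : c * Fintype.card V ≤ Δ) (Q : ℕ → Finset V)
    (hQ : Clo G Δ c η k Q) (hmax : ¬ ∃ Q' : ℕ → Finset V, Clo G Δ c η' (k + 1) Q')
    (hle : k * η ≤ η') (hle2 : η ≤ η') :
    ((univ.filter fun v => ∀ i < k, v ∉ Q i).card : ℝ) ≤ 2 * (k * η) / c * Fintype.card V := by
  obtain ⟨W, hW⟩ : ∃ W : Finset V, W = univ.filter fun v => ∀ i < k, v ∉ Q i := ⟨_, rfl⟩
  obtain ⟨n, hn⟩ : ∃ n : ℝ, n = Fintype.card V := ⟨_, rfl⟩
  have hn0 : 0 < n := by
    rw [hn]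
    exact_mod_cast hV
  rw [← hW, ← hn]
  rw [← hn] at hcΔ
  have hmem : ∀ v, v ∈ W ↔ ∀ i < k, v ∉ Q i := by
    intro v
    rw [hW, mem_filter]
    exact ⟨fun h => h.2, fun h => ⟨mem_univ v, h⟩⟩
  have hdisj : ∀ i < k, Disjoint (Q i) W := by
    intro i hi
    rw [disjoint_left]
    intro v hv hvW
    exact (hmem v).1 hvW i hi hv
  have h1 : Δ * W.card ≤ ee G W W + ∑ i ∈ range k, ee G W (Q i) := by
    have h2 : ∀ v ∈ W, Δ ≤ (W.filter fun y => G.Adj v y).card +
        ∑ i ∈ range k, ((Q i).filter fun y => G.Adj v y).card := by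
      intro v _
      rw [← hreg v]
      unfold dg
      have h3 : (univ.filter fun y => G.Adj v y) ⊆ (W.filter fun y => G.Adj v y) ∪
          (range k).biUnion fun i => (Q i).filter fun y => G.Adj v y := by
        intro y hy
        rw [mem_filter] at hy
        rw [mem_union, mem_biUnion, mem_filter]
        by_cases hyW : y ∈ W
        · exact Or.inl ⟨hyW, hy.2⟩
        · right
          rw [hmem y] at hyW
          push Not at hyW
          obtain ⟨i, hi, hyi⟩ := hyW
          exact ⟨i, mem_range.2 hi, mem_filter.2 ⟨hyi, hy.2⟩⟩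
      exact (card_le_card h3).trans ((card_union_le _ _).trans
        (Nat.add_le_add_left card_biUnion_le _))
    calc Δ * W.card = ∑ _v ∈ W, Δ := by rw [sum_const, smul_eq_mul, mul_comm]
      _ ≤ ∑ v ∈ W, ((W.filter fun y => G.Adj v y).card +
          ∑ i ∈ range k, ((Q i).filter fun y => G.Adj v y).card) := sum_le_sum h2
      _ = ee G W W + ∑ i ∈ range k, ee G W (Q i) := by
        rw [sum_add_distrib, sum_comm, ← key_ee]
        exact congrArg _ (sum_congr rfl fun i _ => (key_ee G W (Q i)).symm)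
  have h2 : ∀ i ∈ range k, (ee G W (Q i) : ℝ) ≤ η * n ^ 2 := by
    intro i hi
    have hik := mem_range.1 hi
    have h3 : ee G (Q i) (Q i) + ee G W (Q i) ≤ Δ * (Q i).card := by
      rw [key_symm G W (Q i), ← key_addR G (Q i) _ _ (hdisj i hik)]
      exact key_deg G Δ (fun v => (hreg v).le) _ _
    have h3r : (ee G (Q i) (Q i) : ℝ) + ee G W (Q i) ≤ Δ * (Q i).card := by exact_mod_cast h3
    have h4 := hQ.clo i hik
    rw [← hn] at h4
    linarith
  have h3 : (Δ : ℝ) * W.card ≤ ee G W W + k * η * n ^ 2 := by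
    have h4 : (Δ : ℝ) * W.card ≤ ee G W W + ∑ i ∈ range k, (ee G W (Q i) : ℝ) := by
      exact_mod_cast h1
    have h5 : ∑ i ∈ range k, (ee G W (Q i) : ℝ) ≤ ∑ _i ∈ range k, η * n ^ 2 := sum_le_sum h2
    rw [sum_const, card_range, nsmul_eq_mul] at h5
    linarith
  by_contra hcon
  rw [not_le] at hcon
  have hkη : 0 ≤ (k : ℝ) * η := mul_nonneg (Nat.cast_nonneg _) hη
  have hq0 : 0 ≤ 2 * (k * η) / c := by positivity
  have ht : 2 * (k * η) / c < W.card / n := by rwa [lt_div_iff₀ hn0]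
  have hWb : c / 2 * n ≤ (W.card : ℝ) := by
    refine dich G Δ n c (k * η) (W.card / n) hn0 (lt_of_le_of_lt hq0 ht) ?_ hcΔ W ?_ h3
    · have h6 : 2 * (k * η) / c * (c / 2) ≤ W.card / n * (c / 2) :=
        mul_le_mul_of_nonneg_right ht.le (by linarith)
      have h7 : 2 * (k * η) / c * (c / 2) = k * η := by
        field_simp
      linarith
    · rw [div_mul_cancel₀ _ hn0.ne']
  apply hmax
  refine ⟨fun j => if j < k then Q j else W, ?_, ?_, ?_⟩
  · intro j hj
    rw [← hn]
    by_cases h4 : j < k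
    · rw [if_pos h4, hn]
      exact hQ.big j h4
    · rw [if_neg h4]
      exact hWb
  · intro j hj
    rw [← hn]
    have hn2' : 0 ≤ n ^ 2 := by positivity
    by_cases h4 : j < k
    · rw [if_pos h4]
      have h5 := hQ.clo j h4
      rw [← hn] at h5
      have h6 : η * n ^ 2 ≤ η' * n ^ 2 := mul_le_mul_of_nonneg_right hle2 hn2'
      linarith
    · rw [if_neg h4]
      have h6 : k * η * n ^ 2 ≤ η' * n ^ 2 := mul_le_mul_of_nonneg_right hle hn2'
      linarith
  · intro a ha b hb hab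
    show Disjoint (if a < k then Q a else W) (if b < k then Q b else W)
    by_cases a1 : a < k
    · rw [if_pos a1]
      by_cases b1 : b < k
      · rw [if_pos b1]
        exact hQ.dis a a1 b b1 hab
      · rw [if_neg b1]
        exact hdisj a a1
    · rw [if_neg a1]
      have b1 : b < k := by omega
      rw [if_pos b1]
      exact (hdisj b b1).symm

end Pool.Agent.H71.TD
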