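import Mathlib
import Pool.Agent.H71.TD.UnS
import Pool.Agent.H71.DC.Key

/-!
DCE and DCB: a closed set that cannot be split expands or is nearly bipartite, and in the second case its two sides expand. (Use only the definition `Uns` of `TD/UnS.lean`; compare `key` in `DC/Key.lean`.) `n = card V`. For a vertex `v` and a set `S` write `d_S(v)` for the number of neighbours in `S`; `d_S(v) ≤ Δ`.

`dcE`.  Suppose `A, Y ⊆ C`, `τ #C ≤ #A ≤ (1 - τ) #C`, `ee G A Y ≤ x #C² ≤ x n²`, `#A + #Y + x #C > #C`. `B := C \ Y`, `#B < #A + x #C ≤ #A + x n`. `∑_{v ∈ A} (Δ - d_C(v)) ≤ ε0 n²` (`hC`, all terms are non-negative on `C`), so (1) `∑_{v ∈ A} (Δ - d_B(v)) ≤ (ε0 + x) n² ≤ 2 x n²`, and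
 (2) `∑_{v ∈ B} (Δ - d_A(v)) = Δ #B - ee G A B ≤ Δ (#B - #A) + 2 x n² ≤ 3 x n²`.
 `I := A ∩ B`: `d_I(v) ≥ d_A(v) + d_B(v) - Δ`, so `Δ #I - ee G I I ≤ 5 x n²`. `J := A ∪ B`: `Δ #J - ee G J J ≤ 5 x n²`. With `hun` (`ε := 5 x`) and `T := 4/c (ε0 + 5 x) ≤ 24 x / c`, `T n < τ #C`: `#(C \ I) ≤ T n` is impossible as `#I ≤ #A ≤ (1 - τ) #C`; so `#I ≤ T n`. `#J ≥ #A ≥ τ #C > T n`, so `#(C \ J) ≤ T n`.
 Take `A1 := A \ B`, `B1 := C \ A1 = (B \ A) ∪ I ∪ (C \ J)`. `ee G A1 A1 ≤ ∑_{v ∈ A1} (Δ - d_B(v)) ≤ 2 x n²`; `ee G (B \ A) (B \ A) ≤ 3 x n²`; `ee G B1 B1 ≤ 3 x n² + 2 n (#I + #(C \ J)) ≤ 3 x n² + 4 T n²`. The sum is at most `(5 + 96/c) x n² ≤ (200/c) x n²`.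
`dcB`.  (0) `Δ #B - ee G A B = ∑_{v ∈ B} (Δ - d_A(v)) ≤ (ε0 + β) n² ≤ y n²`, and `ee G A B ≤ Δ #A`, so `#B ≤ #A + (y / c) n`; also with `A, B` exchanged; `#A + #B = #C ≥ (c/2) n`; so `#A, #B ≥ (c/8) n` (`y ≤ c²/8`).
 Suppose `A1 ⊆ A`, `Y ⊆ B`, `τ #A ≤ #A1 ≤ (1 - τ) #A`, `ee G A1 Y ≤ y #A² ≤ y n²`, `#A1 + #Y + y #A > #B`. `Z := B \ Y`, `#Z < #A1 + y n`. `∑_{v ∈ A1} (Δ - d_Z(v)) ≤ (ε0 + β + y) n² ≤ 2 y n²` (`d_Z = d_C - d_A - d_Y`), `∑_{v ∈ Z} (Δ - d_{A1}(v)) ≤ 3 y n²`. `K := A1 ∪ Z`: `Δ #K - ee G K K ≤ 5 y n²`. By `hun` one of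
 `K, C \ K` has at most `(24/c) y n` elements, but `#K ≥ #A1 ≥ τ #A ≥ τ (c/8) n` and `#(C \ K) ≥ #(A \ A1) ≥ τ #A`: a contradiction to `hy`. The same with `A` and `B` exchanged.
-/

set_option autoImplicit false

namespace Pool.Agent.H71.TD

open Finset Classical
open Pool.Agent.H71.DN Pool.Agent.H71.DX Pool.Agent.H71.DR Pool.Agent.H71.HL Pool.Agent.H71.DC

/-- the deficiency `∑ v ∈ A, (Δ - d_B(v))` -/
noncomputable def DcE_D {V : Type} [Fintype V] (G : SimpleGraph V) (Δ : ℕ) (A B : Finset V) : ℝ :=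
  (Δ : ℝ) * A.card - ee G A B

theorem DcE_nonneg {V : Type} [Fintype V] (G : SimpleGraph V) (Δ : ℕ) (hΔ : ∀ v, dg G v ≤ Δ)
    (A B : Finset V) : 0 ≤ DcE_D G Δ A B := by
  unfold DcE_D
  have h : (ee G A B : ℝ) ≤ (Δ : ℝ) * A.card := by exact_mod_cast key_deg G Δ hΔ A B
  linarith

theorem DcE_left {V : Type} [Fintype V] (G : SimpleGraph V) (Δ : ℕ) (A A' B : Finset V)
    (h : Disjoint A A') : DcE_D G Δ (A ∪ A') B = DcE_D G Δ A B + DcE_D G Δ A' B := by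
  unfold DcE_D
  have h1 : ee G (A ∪ A') B = ee G A B + ee G A' B := by
    rw [key_symm, key_addR G B A A' h, key_symm G B A, key_symm G B A']
  rw [h1, card_union_of_disjoint h]
  push_cast
  ring

theorem DcE_mono {V : Type} [Fintype V] (G : SimpleGraph V) (Δ : ℕ) (hΔ : ∀ v, dg G v ≤ Δ)
    {A' A : Finset V} (h : A' ⊆ A) (B : Finset V) : DcE_D G Δ A' B ≤ DcE_D G Δ A B := by
  have h1 := DcE_left G Δ A' (A \ A') B disjoint_sdiff
  rw [union_sdiff_of_subset h] at h1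
  have h2 := DcE_nonneg G Δ hΔ (A \ A') B
  linarith

theorem DcE_anti {V : Type} [Fintype V] (G : SimpleGraph V) (Δ : ℕ) (A : Finset V)
    {B' B : Finset V} (h : B' ⊆ B) : DcE_D G Δ A B ≤ DcE_D G Δ A B' := by
  unfold DcE_D
  have h1 : ee G A B = ee G A B' + ee G A (B \ B') := by
    rw [← key_addR G A B' (B \ B') disjoint_sdiff, union_sdiff_of_subset h]
  rw [h1]
  push_cast
  have : (0 : ℝ) ≤ (ee G A (B \ B') : ℝ) := Nat.cast_nonneg _
  linarith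

theorem DcE_sub {V : Type} [Fintype V] (G : SimpleGraph V) (Δ : ℕ) (A : Finset V)
    {Y C : Finset V} (h : Y ⊆ C) : DcE_D G Δ A (C \ Y) = DcE_D G Δ A C + ee G A Y := by
  unfold DcE_D
  have h1 : ee G A C = ee G A Y + ee G A (C \ Y) := by
    rw [← key_addR G A Y (C \ Y) disjoint_sdiff, union_sdiff_of_subset h]
  rw [h1]
  push_cast
  ring

theorem DcE_symm {V : Type} [Fintype V] (G : SimpleGraph V) (Δ : ℕ) (A B : Finset V) :
    DcE_D G Δ B A = DcE_D G Δ A B + Δ * ((B.card : ℝ) - A.card) := by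
  unfold DcE_D
  rw [key_symm G B A]
  ring

theorem DcE_inter {V : Type} [Fintype V] (G : SimpleGraph V) (Δ : ℕ) (hΔ : ∀ v, dg G v ≤ Δ)
    (A B : Finset V) : DcE_D G Δ (A ∩ B) (A ∩ B) ≤ DcE_D G Δ A B + DcE_D G Δ B A := by
  have h1 := DcE_mono G Δ hΔ (inter_subset_left (s₁ := A) (s₂ := B)) B
  have h2 := DcE_mono G Δ hΔ (inter_subset_right (s₁ := A) (s₂ := B)) A
  have h3 : ee G (A ∩ B) B = ee G (A ∩ B) (B \ A) + ee G (A ∩ B) (A ∩ B) := by
    rw [← key_addR, inter_comm A B, sdiff_union_inter]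
    rw [disjoint_left]
    intro x hx hx'
    rw [mem_sdiff] at hx
    rw [mem_inter] at hx'
    exact hx.2 hx'.1
  have h4 : ee G (A ∩ B) A + ee G (A ∩ B) (B \ A) ≤ Δ * (A ∩ B).card := by
    rw [← key_addR G _ _ _ disjoint_sdiff]
    exact key_deg G Δ hΔ _ _
  have h3' : (ee G (A ∩ B) B : ℝ) = ee G (A ∩ B) (B \ A) + ee G (A ∩ B) (A ∩ B) := by
    exact_mod_cast h3
  have h4' : (ee G (A ∩ B) A : ℝ) + ee G (A ∩ B) (B \ A) ≤ Δ * (A ∩ B).card := by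
    exact_mod_cast h4
  have h5 : DcE_D G Δ (A ∩ B) (A ∩ B) ≤ DcE_D G Δ (A ∩ B) B + DcE_D G Δ (A ∩ B) A := by
    unfold DcE_D
    linarith
  linarith

theorem DcE_union {V : Type} [Fintype V] (G : SimpleGraph V) (Δ : ℕ) (hΔ : ∀ v, dg G v ≤ Δ)
    (A B : Finset V) : DcE_D G Δ (A ∪ B) (A ∪ B) ≤ DcE_D G Δ A B + DcE_D G Δ B A := by
  have h1 := DcE_left G Δ A (B \ A) (A ∪ B) disjoint_sdiff
  rw [union_sdiff_self_eq_union] at h1
  have h2 := DcE_anti G Δ A (subset_union_right (s₁ := A) (s₂ := B))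
  have h3 := DcE_anti G Δ (B \ A) (subset_union_left (s₁ := A) (s₂ := B))
  have h4 := DcE_mono G Δ hΔ (sdiff_subset (s := B) (t := A)) A
  linarith

theorem DcE_self {V : Type} [Fintype V] (G : SimpleGraph V) (Δ : ℕ) (hΔ : ∀ v, dg G v ≤ Δ)
    {A B : Finset V} (h : Disjoint A B) : (ee G A A : ℝ) ≤ DcE_D G Δ A B := by
  have h1 : ee G A A + ee G A B ≤ Δ * A.card := by
    rw [← key_addR G A A B h]
    exact key_deg G Δ hΔ _ _
  have h2 : (ee G A A : ℝ) + ee G A B ≤ Δ * A.card := by exact_mod_cast h1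
  unfold DcE_D
  linarith

/-- `ee G B B ≤ ee G X X + 2 Δ #(B \ X)` for `X ⊆ B` -/
theorem DcE_rest {V : Type} [Fintype V] (G : SimpleGraph V) (Δ : ℕ) (hΔ : ∀ v, dg G v ≤ Δ)
    {X B : Finset V} (h : X ⊆ B) : ee G B B ≤ ee G X X + 2 * (Δ * (B \ X).card) := by
  have h1 : ee G B B = ee G B X + ee G B (B \ X) := by
    rw [← key_addR G B X (B \ X) disjoint_sdiff, union_sdiff_of_subset h]
  have h2 : ee G B X = ee G X X + ee G (B \ X) X := by
    rw [key_symm G B X, key_symm G (B \ X) X, ← key_addR G X X (B \ X) disjoint_sdiff,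
      union_sdiff_of_subset h]
  have h3 : ee G (B \ X) X ≤ Δ * (B \ X).card := key_deg G Δ hΔ _ _
  have h4 : ee G B (B \ X) ≤ Δ * (B \ X).card := by
    rw [key_symm]
    exact key_deg G Δ hΔ _ _
  omega

theorem dcE {V : Type} [Fintype V] (G : SimpleGraph V) (Δ : ℕ) (c x ε0 τ : ℝ) (hc : 0 < c)
    (hc1 : c ≤ 1) (hx : 0 < x) (hε0 : 0 ≤ ε0) (hεx : ε0 ≤ x) (hτ1 : τ ≤ 1)
    (hxτ : 48 * x < τ * c ^ 2) (hV : 0 < Fintype.card V)
    (hreg : ∀ v, dg G v = Δ) (hΔn : Δ ≤ Fintype.card V) (C : Finset V)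
    (hC : (Δ : ℝ) * C.card ≤ ee G C C + ε0 * (Fintype.card V : ℝ) ^ 2)
    (hCb : c / 2 * Fintype.card V ≤ (C.card : ℝ)) (hun : Uns G Δ c ε0 (5 * x) C)
    (hno : ¬ XPc G C τ x x) :
    ∃ A B : Finset V, Disjoint A B ∧ A ∪ B = C ∧
      ((ee G A A + ee G B B : ℕ) : ℝ) ≤ 200 / c * x * (Fintype.card V : ℝ) ^ 2 := by
  have hΔ : ∀ v, dg G v ≤ Δ := fun v => (hreg v).le
  unfold XPc at hno
  push Not at hno
  obtain ⟨A, Y, hA, hY, h1, h2, h3, h4⟩ := hno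
  unfold Uns at hun
  obtain ⟨n, hn⟩ : ∃ n : ℝ, n = (Fintype.card V : ℝ) := ⟨_, rfl⟩
  have hcCn : (C.card : ℝ) ≤ n := by
    rw [hn]
    exact_mod_cast card_le_univ C
  rw [← hn] at hC hCb hun ⊢
  have hn0 : 0 < n := by
    rw [hn]
    exact_mod_cast hV
  have hΔn' : (Δ : ℝ) ≤ n := by
    rw [hn]
    exact_mod_cast hΔn
  have hΔ0 : (0 : ℝ) ≤ Δ := Nat.cast_nonneg _
  have hC0 : (0 : ℝ) ≤ C.card := Nat.cast_nonneg _
  obtain ⟨B, hB⟩ : ∃ B : Finset V, B = C \ Y := ⟨_, rfl⟩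
  have hBC : B ⊆ C := by rw [hB]; exact sdiff_subset
  have hBc : (B.card : ℝ) + Y.card = C.card := by
    have := card_sdiff_add_card_eq_card hY
    rw [← hB] at this
    exact_mod_cast this
  have hn2 : (0 : ℝ) < n ^ 2 := by positivity
  have hxC : x * (C.card : ℝ) ≤ x * n := mul_le_mul_of_nonneg_left hcCn hx.le
  have hC2 : x * (C.card : ℝ) ^ 2 ≤ x * n ^ 2 :=
    mul_le_mul_of_nonneg_left (pow_le_pow_left₀ hC0 hcCn 2) hx.le
  have hDC : DcE_D G Δ C C ≤ ε0 * n ^ 2 := by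
    unfold DcE_D
    linarith
  have hεx' : ε0 * n ^ 2 ≤ x * n ^ 2 := mul_le_mul_of_nonneg_right hεx hn2.le
  have hAB : DcE_D G Δ A B ≤ 2 * x * n ^ 2 := by
    rw [hB, DcE_sub G Δ A hY]
    have := DcE_mono G Δ hΔ hA C
    linarith
  have hBA : DcE_D G Δ B A ≤ 3 * x * n ^ 2 := by
    rw [DcE_symm G Δ A B]
    have h5 : (B.card : ℝ) - A.card ≤ x * n := by linarith
    have h6 : (Δ : ℝ) * ((B.card : ℝ) - A.card) ≤ Δ * (x * n) :=
      mul_le_mul_of_nonneg_left h5 hΔ0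
    have h7 : (Δ : ℝ) * (x * n) ≤ n * (x * n) :=
      mul_le_mul_of_nonneg_right hΔn' (by positivity)
    nlinarith
  have hT : 4 / c * (ε0 + 5 * x) * n ≤ 24 * x / c * n := by
    refine mul_le_mul_of_nonneg_right ?_ hn0.le
    have h5 : 4 / c * (ε0 + 5 * x) ≤ 4 / c * (6 * x) :=
      mul_le_mul_of_nonneg_left (by linarith) (by positivity)
    refine h5.trans (le_of_eq ?_)
    ring
  have hτ0 : 0 < τ := by
    by_contra h5
    have h6 : τ * c ^ 2 ≤ 0 := mul_nonpos_of_nonpos_of_nonneg (not_lt.1 h5) (by positivity)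
    linarith
  have hT2 : 24 * x / c * n < τ * C.card := by
    have h5 : 24 * x / c * n < τ * (c / 2 * n) := by
      have h6 : 24 * x / c < τ * (c / 2) := by
        rw [div_lt_iff₀ hc]
        nlinarith
      have h7 := mul_lt_mul_of_pos_right h6 hn0
      linarith
    exact h5.trans_le (mul_le_mul_of_nonneg_left hCb hτ0.le)
  -- the intersection
  have hIC : A ∩ B ⊆ C := inter_subset_left.trans hA
  have hI : ((A ∩ B).card : ℝ) ≤ 24 * x / c * n := by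
    have h5 := DcE_inter G Δ hΔ A B
    have h6 : (Δ : ℝ) * (A ∩ B).card ≤ ee G (A ∩ B) (A ∩ B) + 5 * x * n ^ 2 := by
      unfold DcE_D at h5 hAB hBA
      linarith
    rcases hun (A ∩ B) hIC (5 * x) (by positivity) (le_refl _) h6 with h7 | h7
    · exact h7.trans hT
    · exfalso
      have h8 : ((C \ (A ∩ B)).card : ℝ) + (A ∩ B).card = C.card := by
        exact_mod_cast card_sdiff_add_card_eq_card hIC
      have h9 : ((A ∩ B).card : ℝ) ≤ A.card := by exact_mod_cast card_le_card inter_subset_left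
      linarith
  have hJC : A ∪ B ⊆ C := union_subset hA hBC
  have hJ : ((C \ (A ∪ B)).card : ℝ) ≤ 24 * x / c * n := by
    have h5 := DcE_union G Δ hΔ A B
    have h6 : (Δ : ℝ) * (A ∪ B).card ≤ ee G (A ∪ B) (A ∪ B) + 5 * x * n ^ 2 := by
      unfold DcE_D at h5 hAB hBA
      linarith
    rcases hun (A ∪ B) hJC (5 * x) (by positivity) (le_refl _) h6 with h7 | h7
    · exfalso
      have h9 : (A.card : ℝ) ≤ (A ∪ B).card := by exact_mod_cast card_le_card subset_union_left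
      linarith
    · exact h7.trans hT
  refine ⟨A \ B, C \ (A \ B), disjoint_sdiff, union_sdiff_of_subset (sdiff_subset.trans hA), ?_⟩
  have k1 : (ee G (A \ B) (A \ B) : ℝ) ≤ 2 * x * n ^ 2 := by
    have h5 := DcE_self G Δ hΔ (A := A \ B) (B := B) disjoint_sdiff.symm
    have h6 := DcE_mono G Δ hΔ (sdiff_subset (s := A) (t := B)) B
    linarith
  have k2 : (ee G (B \ A) (B \ A) : ℝ) ≤ 3 * x * n ^ 2 := by
    have h5 := DcE_self G Δ hΔ (A := B \ A) (B := A) disjoint_sdiff.symm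
    have h6 := DcE_mono G Δ hΔ (sdiff_subset (s := B) (t := A)) A
    linarith
  have hXB : B \ A ⊆ C \ (A \ B) := by
    intro v hv
    rw [mem_sdiff] at hv ⊢
    exact ⟨hBC hv.1, fun h5 => (mem_sdiff.1 h5).2 hv.1⟩
  have k3 := DcE_rest G Δ hΔ hXB
  have k4 : ((C \ (A \ B)) \ (B \ A)).card ≤ (A ∩ B).card + (C \ (A ∪ B)).card := by
    refine (card_le_card ?_).trans (card_union_le _ _)
    intro v hv
    simp only [mem_sdiff, mem_union, mem_inter] at hv ⊢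
    tauto
  have k3' : (ee G (C \ (A \ B)) (C \ (A \ B)) : ℝ) ≤ ee G (B \ A) (B \ A) +
      2 * (Δ * ((C \ (A \ B)) \ (B \ A)).card) := by exact_mod_cast k3
  have k4' : (((C \ (A \ B)) \ (B \ A)).card : ℝ) ≤ 2 * (24 * x / c * n) := by
    have h5 : (((C \ (A \ B)) \ (B \ A)).card : ℝ) ≤ (A ∩ B).card + (C \ (A ∪ B)).card := by
      exact_mod_cast k4
    linarith
  have k5 : (Δ : ℝ) * ((C \ (A \ B)) \ (B \ A)).card ≤ n * (2 * (24 * x / c * n)) :=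
    mul_le_mul hΔn' k4' (Nat.cast_nonneg _) hn0.le
  push_cast
  have k6 : 5 * x * n ^ 2 ≤ 5 / c * x * n ^ 2 := by
    have h5 : (5 : ℝ) ≤ 5 / c := by
      rw [le_div_iff₀ hc]
      linarith
    have h6 : 0 ≤ x * n ^ 2 := by positivity
    nlinarith
  have k7 : 2 * (n * (2 * (24 * x / c * n))) = 96 / c * x * n ^ 2 := by ring
  have k8 : 0 ≤ 1 / c * x * n ^ 2 := by positivity
  have k9 : 200 / c * x * n ^ 2 = 200 * (1 / c * x * n ^ 2) := by ring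
  have k10 : 96 / c * x * n ^ 2 = 96 * (1 / c * x * n ^ 2) := by ring
  have k11 : 5 / c * x * n ^ 2 = 5 * (1 / c * x * n ^ 2) := by ring
  linarith

theorem DcE_xpq {V : Type} [Fintype V] (G : SimpleGraph V) (Δ : ℕ) (c y ε0 τ : ℝ) (hc : 0 < c)
    (hy : 0 < y) (hε0 : 0 ≤ ε0) (hεy : ε0 ≤ y) (hyτ : 200 * y < τ * c ^ 2)
    (hV : 0 < Fintype.card V) (hΔ : ∀ v, dg G v ≤ Δ) (hΔn : Δ ≤ Fintype.card V)
    (C A B : Finset V) (hun : Uns G Δ c ε0 (5 * y) C) (hAB : Disjoint A B) (hABC : A ∪ B = C)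
    (hD : DcE_D G Δ A B ≤ y * (Fintype.card V : ℝ) ^ 2)
    (hA8 : c / 8 * Fintype.card V ≤ (A.card : ℝ)) : XPQ G A B τ y y := by
  intro A1 Y hA1 hY h1 h2 h3
  by_contra h4
  push Not at h4
  unfold Uns at hun
  obtain ⟨n, hn⟩ : ∃ n : ℝ, n = (Fintype.card V : ℝ) := ⟨_, rfl⟩
  have hcAn : (A.card : ℝ) ≤ n := by
    rw [hn]
    exact_mod_cast card_le_univ A
  rw [← hn] at hD hA8 hun
  have hn0 : 0 < n := by
    rw [hn]
    exact_mod_cast hV
  have hΔn' : (Δ : ℝ) ≤ n := by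
    rw [hn]
    exact_mod_cast hΔn
  have hΔ0 : (0 : ℝ) ≤ Δ := Nat.cast_nonneg _
  have hA0 : (0 : ℝ) ≤ A.card := Nat.cast_nonneg _
  have hn2 : (0 : ℝ) < n ^ 2 := by positivity
  obtain ⟨Z, hZ⟩ : ∃ Z : Finset V, Z = B \ Y := ⟨_, rfl⟩
  have hZB : Z ⊆ B := by rw [hZ]; exact sdiff_subset
  have hZc : (Z.card : ℝ) + Y.card = B.card := by
    have := card_sdiff_add_card_eq_card hY
    rw [← hZ] at this
    exact_mod_cast this
  have hyA : y * (A.card : ℝ) ≤ y * n := mul_le_mul_of_nonneg_left hcAn hy.le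
  have hA2 : y * (A.card : ℝ) ^ 2 ≤ y * n ^ 2 :=
    mul_le_mul_of_nonneg_left (pow_le_pow_left₀ hA0 hcAn 2) hy.le
  have hD1 : DcE_D G Δ A1 Z ≤ 2 * y * n ^ 2 := by
    rw [hZ, DcE_sub G Δ A1 hY]
    have := DcE_mono G Δ hΔ hA1 B
    linarith
  have hD2 : DcE_D G Δ Z A1 ≤ 3 * y * n ^ 2 := by
    rw [DcE_symm G Δ A1 Z]
    have h5 : (Z.card : ℝ) - A1.card ≤ y * n := by linarith
    have h6 : (Δ : ℝ) * ((Z.card : ℝ) - A1.card) ≤ Δ * (y * n) :=
      mul_le_mul_of_nonneg_left h5 hΔ0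
    have h7 : (Δ : ℝ) * (y * n) ≤ n * (y * n) :=
      mul_le_mul_of_nonneg_right hΔn' (by positivity)
    nlinarith
  have hT : 4 / c * (ε0 + 5 * y) * n ≤ 24 * y / c * n := by
    refine mul_le_mul_of_nonneg_right ?_ hn0.le
    have h5 : 4 / c * (ε0 + 5 * y) ≤ 4 / c * (6 * y) :=
      mul_le_mul_of_nonneg_left (by linarith) (by positivity)
    refine h5.trans (le_of_eq ?_)
    ring
  have hτ0 : 0 < τ := by
    by_contra h5
    have h6 : τ * c ^ 2 ≤ 0 := mul_nonpos_of_nonpos_of_nonneg (not_lt.1 h5) (by positivity)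
    linarith
  have hT2 : 24 * y / c * n < τ * A.card := by
    have h5 : 24 * y / c * n < τ * (c / 8 * n) := by
      have h6 : 24 * y / c < τ * (c / 8) := by
        rw [div_lt_iff₀ hc]
        nlinarith
      have h7 := mul_lt_mul_of_pos_right h6 hn0
      linarith
    exact h5.trans_le (mul_le_mul_of_nonneg_left hA8 hτ0.le)
  have hKC : A1 ∪ Z ⊆ C := by
    rw [← hABC]
    exact union_subset_union hA1 hZB
  have h5 := DcE_union G Δ hΔ A1 Z
  have h6 : (Δ : ℝ) * (A1 ∪ Z).card ≤ ee G (A1 ∪ Z) (A1 ∪ Z) + 5 * y * n ^ 2 := by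
    unfold DcE_D at h5 hD1 hD2
    linarith
  rcases hun (A1 ∪ Z) hKC (5 * y) (by positivity) (le_refl _) h6 with h7 | h7
  · have h9 : (A1.card : ℝ) ≤ (A1 ∪ Z).card := by exact_mod_cast card_le_card subset_union_left
    linarith
  · have h8 : A \ A1 ⊆ C \ (A1 ∪ Z) := by
      intro v hv
      rw [mem_sdiff] at hv ⊢
      refine ⟨?_, fun h10 => ?_⟩
      · rw [← hABC]
        exact mem_union_left _ hv.1
      · rcases mem_union.1 h10 with h11 | h11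
        · exact hv.2 h11
        · exact disjoint_left.1 hAB hv.1 (hZB h11)
    have h9 : ((A \ A1).card : ℝ) ≤ (C \ (A1 ∪ Z)).card := by exact_mod_cast card_le_card h8
    have h10 : ((A \ A1).card : ℝ) + A1.card = A.card := by
      exact_mod_cast card_sdiff_add_card_eq_card hA1
    linarith

theorem dcB {V : Type} [Fintype V] (G : SimpleGraph V) (Δ : ℕ) (c y β ε0 τ : ℝ) (hc : 0 < c)
    (hc1 : c ≤ 1) (hy : 0 < y) (hε0 : 0 ≤ ε0) (hβ : 0 ≤ β) (hεβ : ε0 + β ≤ y)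
    (hτ1 : τ ≤ 1) (hyτ : 200 * y < τ * c ^ 2) (hyc : 8 * y ≤ c ^ 2) (hV : 0 < Fintype.card V)
    (hreg : ∀ v, dg G v = Δ) (hcΔ : c * Fintype.card V ≤ Δ) (hΔn : Δ ≤ Fintype.card V)
    (C A B : Finset V)
    (hC : (Δ : ℝ) * C.card ≤ ee G C C + ε0 * (Fintype.card V : ℝ) ^ 2)
    (hCb : c / 2 * Fintype.card V ≤ (C.card : ℝ)) (hun : Uns G Δ c ε0 (5 * y) C)
    (hAB : Disjoint A B) (hABC : A ∪ B = C)
    (hee : ((ee G A A + ee G B B : ℕ) : ℝ) ≤ β * (Fintype.card V : ℝ) ^ 2) :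
    c / 8 * Fintype.card V ≤ (A.card : ℝ) ∧ c / 8 * Fintype.card V ≤ (B.card : ℝ) ∧
      XPQ G A B τ y y ∧ XPQ G B A τ y y := by
  have hΔ : ∀ v, dg G v ≤ Δ := fun v => (hreg v).le
  push_cast at hee
  have hn0 : (0 : ℝ) < Fintype.card V := by exact_mod_cast hV
  have hn2 : (0 : ℝ) < (Fintype.card V : ℝ) ^ 2 := by positivity
  have e1 : (0 : ℝ) ≤ ee G A A := Nat.cast_nonneg _
  have e2 : (0 : ℝ) ≤ ee G B B := Nat.cast_nonneg _
  have hDC : DcE_D G Δ C C ≤ ε0 * (Fintype.card V : ℝ) ^ 2 := by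
    unfold DcE_D
    linarith
  have hy2 : (ε0 + β) * (Fintype.card V : ℝ) ^ 2 ≤ y * (Fintype.card V : ℝ) ^ 2 :=
    mul_le_mul_of_nonneg_right hεβ hn2.le
  have hAC : A ⊆ C := by rw [← hABC]; exact subset_union_left
  have hBC : B ⊆ C := by rw [← hABC]; exact subset_union_right
  have hCA : C \ A = B := by
    rw [← hABC, union_sdiff_left]
    exact sdiff_eq_self_of_disjoint hAB.symm
  have hCB : C \ B = A := by
    rw [← hABC, union_sdiff_right]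
    exact sdiff_eq_self_of_disjoint hAB
  have hDAB : DcE_D G Δ A B ≤ y * (Fintype.card V : ℝ) ^ 2 := by
    have h1 := DcE_sub G Δ A hAC
    rw [hCA] at h1
    have h2 := DcE_mono G Δ hΔ hAC C
    linarith
  have hDBA : DcE_D G Δ B A ≤ y * (Fintype.card V : ℝ) ^ 2 := by
    have h1 := DcE_sub G Δ B hBC
    rw [hCB] at h1
    have h2 := DcE_mono G Δ hΔ hBC C
    linarith
  have hsum : (A.card : ℝ) + B.card = C.card := by
    rw [← hABC, card_union_of_disjoint hAB]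
    push_cast
    ring
  have hΔpos : (0 : ℝ) < Δ := lt_of_lt_of_le (by positivity) hcΔ
  -- comparison of the sizes
  have key8 : ∀ X Z : Finset V, (X.card : ℝ) + Z.card = C.card →
      DcE_D G Δ Z X ≤ y * (Fintype.card V : ℝ) ^ 2 → c / 8 * Fintype.card V ≤ (X.card : ℝ) := by
    intro X Z hXZ hD
    have h1 : (ee G Z X : ℝ) ≤ (Δ : ℝ) * X.card := by
      rw [key_symm]
      exact_mod_cast key_deg G Δ hΔ X Z
    unfold DcE_D at hD
    have h2 : (Δ : ℝ) * ((Z.card : ℝ) - X.card) ≤ y * (Fintype.card V : ℝ) ^ 2 := by linarith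
    have h3 : y * (Fintype.card V : ℝ) ^ 2 ≤ Δ * (c / 8 * Fintype.card V) := by
      have h4 : y * (Fintype.card V : ℝ) ^ 2 ≤ c ^ 2 / 8 * (Fintype.card V : ℝ) ^ 2 :=
        mul_le_mul_of_nonneg_right (by linarith) hn2.le
      have h5 : c * (Fintype.card V : ℝ) * (c / 8 * Fintype.card V) ≤
          Δ * (c / 8 * Fintype.card V) := mul_le_mul_of_nonneg_right hcΔ (by positivity)
      nlinarith
    have h4 := le_of_mul_le_mul_left (h2.trans h3) hΔpos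
    have h5 : 0 < c * (Fintype.card V : ℝ) := by positivity
    linarith
  have hA8 := key8 A B hsum hDBA
  have hB8 := key8 B A (by linarith) hDAB
  have hε0y : ε0 ≤ y := by linarith
  refine ⟨hA8, hB8, ?_, ?_⟩
  · exact DcE_xpq G Δ c y ε0 τ hc hy hε0 hε0y hyτ hV hΔ hΔn C A B hun hAB hABC hDAB hA8
  · exact DcE_xpq G Δ c y ε0 τ hc hy hε0 hε0y hyτ hV hΔ hΔn C B A hun hAB.symm
      (by rw [union_comm]; exact hABC) hDBA hB8

end Pool.Agent.H71.TD
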