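import Mathlib
import Pool.Agent.H71.TD.Cl
import Pool.Agent.H71.TD.XpT
import Pool.Agent.H71.TD.DcE

/-!
LV1: from a maximal family of closed sets, each expanding at the scale `x` or not expanding at the scale `x'`, to the rough structure `Cl0`. Use the STATEMENTS of `unsp`, `rmdr` (`TD/UnS.lean`), `dcE`, `dcB` (`TD/DcE.lean`), `xpqM` (`TD/XpT.lean`).

Proof.  `n = card V`, `Δ ≤ n`, `β := 400 / c * x'`. `ty i :⟺ XPc G (Q i) (c/256) (2 x) (2 x)`. Let `i < k`, `¬ ty i`: by `hdi` `¬ XPc G (Q i) (c/256) (2 x') (2 x')`. `unsp` with `εm := 5 (2 x')` (`η + 20 x' ≤ η + 10 y ≤ η'`) and `εm := 5 y`. `dcE` (with `2 x'` for its `x`, `ε0 := η`, `τ := c/256`): disjoint `A i, B i` with union `Q i` and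
 `ee G (A i) (A i) + ee G (B i) (B i) ≤ 200 / c * (2 x') n² = β n²`; `dcB` (`y`, `β`, `ε0 := η`, `τ := c/256`): `#(A i), #(B i) ≥ (c/8) n`, expansion with `y`, so with `2 x ≤ y` (`xpqM`). The numbers: `48 * (2 x') ≤ 48 y < c³/256`, `200 y < c³/256`, `8 y ≤ c²` since `102400 y ≤ c³`, `c ≤ 1`.
`nd0 v := 2 i` if `v ∈ Q i`, `i < k`, and (`ty i` or `v ∈ A i`); `2 i + 1` if `v ∈ B i`, `i < k`, `¬ ty i`; `2 k` if `v` is in no `Q i`, `i < k` (the `Q i` are disjoint). So for `i < k`: `pt nd0 (2 i) = Q i`, `pt nd0 (2 i + 1) = ∅` if `ty i`; `pt nd0 (2 i) = A i`, `pt nd0 (2 i + 1) = B i` if `¬ ty i`.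
`sm`: for `nd0 v = j < 2 k`: `dg (Fg G k ty nd0) v = Δ - (number of neighbours of v in the partner piece)`. For `ty i`: `∑_{v ∈ Q i} = Δ #(Q i) - ee G (Q i) (Q i) ≤ η n²` (`hQ.clo`); for `¬ ty i`: `∑_{v ∈ Q i} = Δ #(Q i) - 2 ee G (A i) (B i) = Δ #(Q i) - ee G (Q i) (Q i) + ee G (A i) (A i) + ee G (B i) (B i) ≤ (η + β) n²`.
The sum over `i < k` is at most `k (η + β) n² ≤ ω n²`. `lo`: `rmdr`. `bgA` for `ty i`: `hQ.big` (`c/2 ≥ c/8`).
-/

set_option autoImplicit false

namespace Pool.Agent.H71.TD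

open Finset Classical
open Pool.Agent.H71.DN Pool.Agent.H71.DX Pool.Agent.H71.DR Pool.Agent.H71.HL Pool.Agent.H71.DC

theorem Lv1_deg {V : Type} [Fintype V] (G : SimpleGraph V) (Δ k : ℕ) (ty : ℕ → Prop)
    (nd0 : V → ℕ) (hreg : ∀ v, dg G v = Δ) (T S : Finset V)
    (h : ∀ v ∈ T, ∀ u ∈ S, G.Adj v u → (Hg G k ty nd0).Adj v u) :
    (∑ v ∈ T, dg (Fg G k ty nd0) v) + ee G T S ≤ Δ * T.card := by
  rw [key_ee, ← sum_add_distrib]
  calc ∑ v ∈ T, (dg (Fg G k ty nd0) v + (S.filter fun y => G.Adj v y).card)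
      ≤ ∑ _v ∈ T, Δ := by
        refine sum_le_sum fun v hv => ?_
        rw [← hreg v]
        unfold dg
        rw [← card_union_of_disjoint]
        · refine card_le_card fun u hu => ?_
          rw [mem_filter]
          refine ⟨mem_univ u, ?_⟩
          rcases mem_union.1 hu with h1 | h1
          · exact (mem_filter.1 h1).2.1
          · exact (mem_filter.1 h1).2
        · rw [disjoint_left]
          intro u hu hu'
          have h1 := (mem_filter.1 hu).2
          have h2 := mem_filter.1 hu'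
          exact h1.2 (h v hv u h2.1 h2.2)
    _ = Δ * T.card := by rw [sum_const, smul_eq_mul, mul_comm]

theorem Lv1_split {V : Type} [Fintype V] (G : SimpleGraph V) (A B : Finset V)
    (h : Disjoint A B) :
    ee G (A ∪ B) (A ∪ B) = ee G A A + ee G B B + 2 * ee G A B := by
  rw [key_addR G (A ∪ B) A B h, key_symm G (A ∪ B) A, key_symm G (A ∪ B) B,
    key_addR G A A B h, key_addR G B A B h, key_symm G B A]
  ring

theorem Lv1_nd {V : Type} [Fintype V] (k : ℕ) (Q A B : ℕ → Finset V)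
    (hdis : ∀ i < k, ∀ j < k, i ≠ j → Disjoint (Q i) (Q j))
    (hAB : ∀ i < k, Disjoint (A i) (B i)) (hU : ∀ i < k, A i ∪ B i = Q i) :
    ∃ nd0 : V → ℕ, (∀ i < k, ∀ v ∈ A i, nd0 v = 2 * i) ∧
      (∀ i < k, ∀ v ∈ B i, nd0 v = 2 * i + 1) ∧
      (∀ v, (∀ i < k, v ∉ Q i) → nd0 v = 2 * k) := by
  have huniq : ∀ i < k, ∀ v ∈ Q i, ∀ h : ∃ j, j < k ∧ v ∈ Q j, h.choose = i := by
    intro i hi v hv h
    by_contra hne
    exact disjoint_left.1 (hdis _ h.choose_spec.1 i hi hne) h.choose_spec.2 hv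
  refine ⟨fun v => if h : ∃ i, i < k ∧ v ∈ Q i then
    (if v ∈ B h.choose then 2 * h.choose + 1 else 2 * h.choose) else 2 * k, ?_, ?_, ?_⟩
  · intro i hi v hv
    have hvQ : v ∈ Q i := by
      rw [← hU i hi]
      exact mem_union_left _ hv
    have h : ∃ i, i < k ∧ v ∈ Q i := ⟨i, hi, hvQ⟩
    have hB : v ∉ B i := disjoint_left.1 (hAB i hi) hv
    show (if h : ∃ i, i < k ∧ v ∈ Q i then
      (if v ∈ B h.choose then 2 * h.choose + 1 else 2 * h.choose) else 2 * k) = 2 * i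
    rw [dif_pos h, huniq i hi v hvQ h, if_neg hB]
  · intro i hi v hv
    have hvQ : v ∈ Q i := by
      rw [← hU i hi]
      exact mem_union_right _ hv
    have h : ∃ i, i < k ∧ v ∈ Q i := ⟨i, hi, hvQ⟩
    show (if h : ∃ i, i < k ∧ v ∈ Q i then
      (if v ∈ B h.choose then 2 * h.choose + 1 else 2 * h.choose) else 2 * k) = 2 * i + 1
    rw [dif_pos h, huniq i hi v hvQ h, if_pos hv]
  · intro v hv
    have h : ¬ ∃ i, i < k ∧ v ∈ Q i := by
      rintro ⟨i, hi, hvi⟩
      exact hv i hi hvi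
    show (if h : ∃ i, i < k ∧ v ∈ Q i then
      (if v ∈ B h.choose then 2 * h.choose + 1 else 2 * h.choose) else 2 * k) = 2 * k
    rw [dif_neg h]

theorem lv1 {V : Type} [Fintype V] (G : SimpleGraph V) (Δ k : ℕ) (c x x' y η η' ω : ℝ)
    (hc : 0 < c) (hc1 : c ≤ 1) (hx : 0 < x) (hx' : 0 < x') (hy : 0 < y) (hη : 0 ≤ η)
    (hV : 0 < Fintype.card V) (hcΔ : c * Fintype.card V ≤ Δ) (hreg : ∀ v, dg G v = Δ)
    (Q : ℕ → Finset V) (hQ : Clo G Δ c η k Q)
    (hmax : ¬ ∃ Q' : ℕ → Finset V, Clo G Δ c η' (k + 1) Q')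
    (n1 : η + 10 * y ≤ η') (n2 : k * η ≤ η') (n3 : η ≤ 2 * x') (n4 : 2 * x' ≤ y)
    (n5 : η + 400 / c * x' ≤ y) (n6 : 2 * x ≤ y) (n7 : 102400 * y ≤ c ^ 3)
    (n8 : k * (η + 400 / c * x') ≤ ω) (n9 : 2 * (k * η) / c ≤ ω)
    (hdi : ∀ i < k, XPc G (Q i) (c / 256) (2 * x) (2 * x) ∨
      ¬ XPc G (Q i) (c / 256) (2 * x') (2 * x')) :
    ∃ (ty : ℕ → Prop) (nd0 : V → ℕ), Cl0 G k c x ω ty nd0 := by
  have hΔ : ∀ v, dg G v ≤ Δ := fun v => (hreg v).le
  have hΔn : Δ ≤ Fintype.card V := by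
    obtain ⟨v⟩ := Fintype.card_pos_iff.1 hV
    rw [← hreg v]
    unfold dg
    exact card_le_univ _
  have hn0 : (0 : ℝ) < Fintype.card V := by exact_mod_cast hV
  have hn2 : (0 : ℝ) < (Fintype.card V : ℝ) ^ 2 := by positivity
  have hβ0 : 0 ≤ 400 / c * x' := by positivity
  have hc3 : c / 256 * c ^ 2 = c ^ 3 / 256 := by ring
  have hc2 : c ^ 3 ≤ c ^ 2 := by
    have : c ^ 3 = c ^ 2 * c := by ring
    rw [this]
    exact mul_le_of_le_one_right (by positivity) hc1
  have hex : ∀ i, ∃ A B : Finset V, i < k → Disjoint A B ∧ A ∪ B = Q i ∧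
      (XPc G (Q i) (c / 256) (2 * x) (2 * x) → B = ∅) ∧
      (¬ XPc G (Q i) (c / 256) (2 * x) (2 * x) →
        ((ee G A A + ee G B B : ℕ) : ℝ) ≤ 400 / c * x' * (Fintype.card V : ℝ) ^ 2 ∧
        c / 8 * Fintype.card V ≤ (A.card : ℝ) ∧ c / 8 * Fintype.card V ≤ (B.card : ℝ) ∧
        XPQ G A B (c / 256) (2 * x) (2 * x) ∧ XPQ G B A (c / 256) (2 * x) (2 * x)) := by
    intro i
    by_cases hi : i < k
    · by_cases hty : XPc G (Q i) (c / 256) (2 * x) (2 * x)
      · exact ⟨Q i, ∅, fun _ => ⟨disjoint_empty_right _, union_empty _, fun _ => rfl,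
          fun h => absurd hty h⟩⟩
      · have hno := (hdi i hi).resolve_left hty
        obtain ⟨A, B, h1, h2, h3⟩ := dcE G Δ c (2 * x') η (c / 256) hc hc1 (by linarith) hη n3
          (by linarith) (by rw [hc3]; linarith) hV hreg hΔn (Q i) (hQ.clo i hi) (hQ.big i hi)
          (unsp G Δ k c η η' (5 * (2 * x')) hc hc1 hη hV hΔ hcΔ Q hQ hmax (by linarith) i hi) hno
        have h3' : ((ee G A A + ee G B B : ℕ) : ℝ) ≤
            400 / c * x' * (Fintype.card V : ℝ) ^ 2 := by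
          have h4 : 200 / c * (2 * x') = 400 / c * x' := by ring
          rw [h4] at h3
          exact h3
        obtain ⟨k1, k2, k3, k4⟩ := dcB G Δ c y (400 / c * x') η (c / 256) hc hc1 hy hη hβ0 n5
          (by linarith) (by rw [hc3]; linarith) (by linarith) hV hreg hcΔ hΔn (Q i) A B
          (hQ.clo i hi) (hQ.big i hi)
          (unsp G Δ k c η η' (5 * y) hc hc1 hη hV hΔ hcΔ Q hQ hmax (by linarith) i hi) h1 h2 h3'
        exact ⟨A, B, fun _ => ⟨h1, h2, fun h => absurd h hty, fun _ => ⟨h3', k1, k2,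
          xpqM G A B _ _ _ _ _ n6 n6 k3, xpqM G B A _ _ _ _ _ n6 n6 k4⟩⟩⟩
    · exact ⟨∅, ∅, fun h => absurd h hi⟩
  choose A B hAB using hex
  obtain ⟨nd0, hA, hB, hN⟩ := Lv1_nd k Q A B hQ.dis (fun i hi => (hAB i hi).1)
    (fun i hi => (hAB i hi).2.1)
  have tri : ∀ v, (∃ i < k, v ∈ A i) ∨ (∃ i < k, v ∈ B i) ∨ ∀ i < k, v ∉ Q i := by
    intro v
    by_cases h : ∃ i < k, v ∈ Q i
    · obtain ⟨i, hi, hv⟩ := h
      rw [← (hAB i hi).2.1] at hv
      rcases mem_union.1 hv with h1 | h1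
      · exact Or.inl ⟨i, hi, h1⟩
      · exact Or.inr (Or.inl ⟨i, hi, h1⟩)
    · push Not at h
      exact Or.inr (Or.inr h)
  have ptA : ∀ i < k, pt nd0 (2 * i) = A i := by
    intro i hi
    ext v
    unfold pt
    rw [mem_filter]
    constructor
    · rintro ⟨_, h⟩
      rcases tri v with ⟨j, hj, hv⟩ | ⟨j, hj, hv⟩ | hv
      · rw [hA j hj v hv] at h
        have : j = i := by omega
        rw [← this]
        exact hv
      · rw [hB j hj v hv] at h
        omega
      · rw [hN v hv] at h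
        omega
    · intro h
      exact ⟨mem_univ v, hA i hi v h⟩
  have ptB : ∀ i < k, pt nd0 (2 * i + 1) = B i := by
    intro i hi
    ext v
    unfold pt
    rw [mem_filter]
    constructor
    · rintro ⟨_, h⟩
      rcases tri v with ⟨j, hj, hv⟩ | ⟨j, hj, hv⟩ | hv
      · rw [hA j hj v hv] at h
        omega
      · rw [hB j hj v hv] at h
        have : j = i := by omega
        rw [← this]
        exact hv
      · rw [hN v hv] at h
        omega
    · intro h
      exact ⟨mem_univ v, hB i hi v h⟩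
  have ptN : pt nd0 (2 * k) = univ.filter fun v => ∀ i < k, v ∉ Q i := by
    ext v
    unfold pt
    rw [mem_filter, mem_filter]
    constructor
    · rintro ⟨_, h⟩
      rcases tri v with ⟨j, hj, hv⟩ | ⟨j, hj, hv⟩ | hv
      · rw [hA j hj v hv] at h
        omega
      · rw [hB j hj v hv] at h
        omega
      · exact ⟨mem_univ v, hv⟩
    · rintro ⟨_, h⟩
      exact ⟨mem_univ v, hN v h⟩
  -- the number of defect edges at a part
  have hpart : ∀ i < k, ((∑ v ∈ Q i, dg (Fg G k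
      (fun i => XPc G (Q i) (c / 256) (2 * x) (2 * x)) nd0) v : ℕ) : ℝ) ≤
      (η + 400 / c * x') * (Fintype.card V : ℝ) ^ 2 := by
    intro i hi
    obtain ⟨g1, g2, g3, g4⟩ := hAB i hi
    have hclo := hQ.clo i hi
    by_cases hty : XPc G (Q i) (c / 256) (2 * x) (2 * x)
    · have hBe := g3 hty
      rw [hBe, union_empty] at g2
      have h1 := Lv1_deg G Δ k (fun i => XPc G (Q i) (c / 256) (2 * x) (2 * x)) nd0 hreg
        (Q i) (Q i) (by
          intro v hv u hu hadj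
          rw [← g2] at hv hu
          have e1 := hA i hi v hv
          have e2 := hA i hi u hu
          refine ⟨hadj, by omega, by omega, by rw [e1, e2], Or.inl ?_⟩
          have e3 : nd0 v / 2 = i := by omega
          show XPc G (Q (nd0 v / 2)) (c / 256) (2 * x) (2 * x)
          rw [e3]
          exact hty)
      have h2 : ((∑ v ∈ Q i, dg (Fg G k
          (fun i => XPc G (Q i) (c / 256) (2 * x) (2 * x)) nd0) v : ℕ) : ℝ) +
          ee G (Q i) (Q i) ≤ Δ * (Q i).card := by exact_mod_cast h1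
      have h3 : η * (Fintype.card V : ℝ) ^ 2 ≤
          (η + 400 / c * x') * (Fintype.card V : ℝ) ^ 2 :=
        mul_le_mul_of_nonneg_right (by linarith) hn2.le
      linarith
    · obtain ⟨g5, _⟩ := g4 hty
      have hpa : ∀ v ∈ A i, ∀ u ∈ B i, G.Adj v u →
          (Hg G k (fun i => XPc G (Q i) (c / 256) (2 * x) (2 * x)) nd0).Adj v u := by
        intro v hv u hu hadj
        have e1 := hA i hi v hv
        have e2 := hB i hi u hu
        exact ⟨hadj, by omega, by omega, by omega, Or.inr (by omega)⟩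
      have h1 := Lv1_deg G Δ k (fun i => XPc G (Q i) (c / 256) (2 * x) (2 * x)) nd0 hreg
        (A i) (B i) hpa
      have h2 := Lv1_deg G Δ k (fun i => XPc G (Q i) (c / 256) (2 * x) (2 * x)) nd0 hreg
        (B i) (A i) (fun v hv u hu hadj => (hpa u hu v hv hadj.symm).symm)
      have h3 := Lv1_split G (A i) (B i) g1
      have h4 : (Q i).card = (A i).card + (B i).card := by
        rw [← g2, card_union_of_disjoint g1]
      have h5 : (∑ v ∈ Q i, dg (Fg G k
          (fun i => XPc G (Q i) (c / 256) (2 * x) (2 * x)) nd0) v) =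
          (∑ v ∈ A i, dg (Fg G k
          (fun i => XPc G (Q i) (c / 256) (2 * x) (2 * x)) nd0) v) +
          (∑ v ∈ B i, dg (Fg G k
          (fun i => XPc G (Q i) (c / 256) (2 * x) (2 * x)) nd0) v) := by
        rw [← g2, sum_union g1]
      rw [g2] at h3
      rw [key_symm G (B i) (A i)] at h2
      have h6 : (∑ v ∈ Q i, dg (Fg G k
          (fun i => XPc G (Q i) (c / 256) (2 * x) (2 * x)) nd0) v) + ee G (Q i) (Q i) ≤
          Δ * (Q i).card + (ee G (A i) (A i) + ee G (B i) (B i)) := by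
        rw [h5, h3, h4]
        nlinarith [h1, h2]
      have h7 : ((∑ v ∈ Q i, dg (Fg G k
          (fun i => XPc G (Q i) (c / 256) (2 * x) (2 * x)) nd0) v : ℕ) : ℝ) +
          ee G (Q i) (Q i) ≤
          Δ * (Q i).card + ((ee G (A i) (A i) + ee G (B i) (B i) : ℕ) : ℝ) := by
        exact_mod_cast h6
      linarith
  have hdisj : (((range k : Finset ℕ)) : Set ℕ).PairwiseDisjoint Q := by
    intro i hi j hj hij
    exact hQ.dis i (mem_range.1 hi) j (mem_range.1 hj) hij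
  refine ⟨fun i => XPc G (Q i) (c / 256) (2 * x) (2 * x), nd0, ?_, ?_, ?_, ?_, ?_, ?_, ?_, ?_, ?_⟩
  · intro v
    rcases tri v with ⟨j, hj, hv⟩ | ⟨j, hj, hv⟩ | hv
    · rw [hA j hj v hv]
      omega
    · rw [hB j hj v hv]
      omega
    · rw [hN v hv]
  · intro i hi hty
    rw [ptB i hi]
    exact (hAB i hi).2.2.1 hty
  · intro i hi
    rw [ptA i hi]
    by_cases hty : XPc G (Q i) (c / 256) (2 * x) (2 * x)
    · have h1 := (hAB i hi).2.2.1 hty
      have h2 := (hAB i hi).2.1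
      rw [h1, union_empty] at h2
      rw [h2]
      have h3 := hQ.big i hi
      have h4 : c / 8 * (Fintype.card V : ℝ) ≤ c / 2 * Fintype.card V :=
        mul_le_mul_of_nonneg_right (by linarith) hn0.le
      linarith
    · exact ((hAB i hi).2.2.2 hty).2.1
  · intro i hi hty
    rw [ptB i hi]
    exact ((hAB i hi).2.2.2 hty).2.2.1
  · have h1 : (univ.filter fun v => nd0 v < 2 * k) ⊆ (range k).biUnion Q := by
      intro v hv
      have hv2 := (mem_filter.1 hv).2
      rw [mem_biUnion]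
      rcases tri v with ⟨j, hj, hvj⟩ | ⟨j, hj, hvj⟩ | hvj
      · refine ⟨j, mem_range.2 hj, ?_⟩
        rw [← (hAB j hj).2.1]
        exact mem_union_left _ hvj
      · refine ⟨j, mem_range.2 hj, ?_⟩
        rw [← (hAB j hj).2.1]
        exact mem_union_right _ hvj
      · rw [hN v hvj] at hv2
        omega
    have h2 : (∑ v ∈ univ.filter fun v => nd0 v < 2 * k, dg (Fg G k
        (fun i => XPc G (Q i) (c / 256) (2 * x) (2 * x)) nd0) v) ≤
        ∑ i ∈ range k, ∑ v ∈ Q i, dg (Fg G k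
        (fun i => XPc G (Q i) (c / 256) (2 * x) (2 * x)) nd0) v := by
      rw [← sum_biUnion hdisj]
      exact sum_le_sum_of_subset h1
    have h3 : ((∑ v ∈ univ.filter fun v => nd0 v < 2 * k, dg (Fg G k
        (fun i => XPc G (Q i) (c / 256) (2 * x) (2 * x)) nd0) v : ℕ) : ℝ) ≤
        ∑ i ∈ range k, ((∑ v ∈ Q i, dg (Fg G k
        (fun i => XPc G (Q i) (c / 256) (2 * x) (2 * x)) nd0) v : ℕ) : ℝ) := by
      exact_mod_cast h2
    have h4 : ∑ i ∈ range k, ((∑ v ∈ Q i, dg (Fg G k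
        (fun i => XPc G (Q i) (c / 256) (2 * x) (2 * x)) nd0) v : ℕ) : ℝ) ≤
        ∑ _i ∈ range k, (η + 400 / c * x') * (Fintype.card V : ℝ) ^ 2 :=
      sum_le_sum fun i hi => hpart i (mem_range.1 hi)
    rw [sum_const, card_range, nsmul_eq_mul, ← mul_assoc] at h4
    have h5 : (k : ℝ) * (η + 400 / c * x') * (Fintype.card V : ℝ) ^ 2 ≤
        ω * (Fintype.card V : ℝ) ^ 2 := mul_le_mul_of_nonneg_right n8 hn2.le
    exact h3.trans (h4.trans h5)
  · rw [ptN]
    have h1 := rmdr G Δ k c η η' hc hc1 hη hV hreg hcΔ Q hQ hmax n2 (by linarith)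
    exact h1.trans (mul_le_mul_of_nonneg_right n9 hn0.le)
  · intro i hi hty
    rw [ptA i hi]
    have h1 := (hAB i hi).2.2.1 hty
    have h2 := (hAB i hi).2.1
    rw [h1, union_empty] at h2
    rw [h2]
    exact hty
  · intro i hi hty
    rw [ptA i hi, ptB i hi]
    exact ((hAB i hi).2.2.2 hty).2.2.2.1
  · intro i hi hty
    rw [ptA i hi, ptB i hi]
    exact ((hAB i hi).2.2.2 hty).2.2.2.2

end Pool.Agent.H71.TD
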