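import Mathlib
import Pool.Agent.H71.TD.Lv1
import Pool.Agent.H71.TD.Cln

/-!
LVS: the structure theorem for a maximal family of closed sets; choice of the scales. Use the STATEMENTS of `lv1` (`TD/Lv1.lean`), `cln` (`TD/Cln.lean`), `xpcM` (`TD/XpT.lean`).

Proof.  For `0 < x ≤ 1` `cln c x (ξf x) (ff x)` gives `ω x > 0`, `N x` (choose; `ω x := 1`, `N x := 0` for other `x`; `ξf x ≤ c x / 1000 ≤ c`). `y := min (η' / 20) (c³ / 102400)`. `X 0 := y / 2`, `X (s + 1) := min (X s) (min (c y / 1000) (c ω (X s) / (1000 (m + 1))))`: positive, `≤ 1`, non-increasing.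
 `η :=` the minimum of `η' / (2 (m + 1))`, `y / 2`, `X (m + 1)` and the numbers `c ω (X s) / (2 (m + 1))`, `s ≤ m`. `S := {X s : s ≤ m}`, `n0 := 1 +` the maximum of the `N (X s)`, `s ≤ m`.
 Let the graph and `Q`, `k ≤ m`, be given. `P i s :⟺ XPc G (Q i) (c/256) (2 X s) (2 X s)`; `P i s → P i (s + 1)` (`xpcM`). Claim: there is `s ≤ m` such that for all `i < k`: `P i s ∨ ¬ P i (s + 1)`. Otherwise for every `s ≤ m` there is `i < k` with `¬ P i s` and `P i (s + 1)`; for a given `i` this is true for at most one `s`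
 (monotonicity), so there is an injection of `m + 1` numbers `s` into `k ≤ m` numbers `i`: a contradiction (pigeonhole, `Finset.exists_ne_map_eq_of_card_lt_of_maps_to`).
 `x := X s`, `x' := X (s + 1)`, `ω := ω x`: `lv1` gives `ty, nd0` with `Cl0 G k c x (ω x) ty nd0`: `n1`: `η ≤ η'/2`, `10 y ≤ η'/2`; `n2`: `k η ≤ m η ≤ η'`; `n3`: `η ≤ X (m + 1) ≤ X (s + 1)`; `n4`: `2 x' ≤ c y / 500 ≤ y`; `n5`: `η ≤ y/2`, `400 / c x' ≤ (400/1000) y`; `n6`: `2 X s ≤ 2 X 0 = y`;
 `n8`: `k η ≤ ω x / 2`, `k (400 / c) x' ≤ (400 / 1000) ω x`; `n9`: `2 k η / c ≤ ω x`. `k c ≤ 2`: the `Q i`, `i < k`, are disjoint with at least `(c/2) n` elements. Then `cln` gives `nd, sf`.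
-/

set_option autoImplicit false

namespace Pool.Agent.H71.TD

open Finset Classical
open Pool.Agent.H71.DN Pool.Agent.H71.DX Pool.Agent.H71.DR Pool.Agent.H71.HL Pool.Agent.H71.DC

theorem Lvs_min (f : ℕ → ℝ) (hf : ∀ s, 0 < f s) (m : ℕ) : ∃ e : ℝ, 0 < e ∧ ∀ s ≤ m, e ≤ f s := by
  induction m with
  | zero =>
    refine ⟨f 0, hf 0, fun s hs => ?_⟩
    have h : s = 0 := by omega
    rw [h]
  | succ m ih =>
    obtain ⟨e, he, h⟩ := ih
    refine ⟨min e (f (m + 1)), lt_min he (hf _), fun s hs => ?_⟩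
    rcases Nat.lt_or_ge m s with h1 | h1
    · have h2 : s = m + 1 := by omega
      rw [h2]
      exact min_le_right _ _
    · exact (min_le_left _ _).trans (h s h1)

theorem Lvs_max (f : ℕ → ℕ) (m : ℕ) : ∃ n : ℕ, 1 ≤ n ∧ ∀ s ≤ m, f s ≤ n := by
  refine ⟨1 + ∑ s ∈ range (m + 1), f s, by omega, fun s hs => ?_⟩
  have h1 : f s ≤ ∑ s ∈ range (m + 1), f s :=
    single_le_sum (f := f) (fun i _ => Nat.zero_le _) (mem_range.2 (by omega))
  omega

/-- The pigeonhole principle. -/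
theorem Lvs_php (m k : ℕ) (hk : k ≤ m) (P : ℕ → ℕ → Prop) (hP : ∀ i s, P i s → P i (s + 1)) :
    ∃ s ≤ m, ∀ i < k, P i s ∨ ¬ P i (s + 1) := by
  by_contra hcon
  have h1 : ∀ s, ∃ i, s ≤ m → i < k ∧ ¬ P i s ∧ P i (s + 1) := by
    intro s
    by_cases hs : s ≤ m
    · by_contra h2
      apply hcon
      refine ⟨s, hs, fun i hi => ?_⟩
      by_contra h3
      rw [not_or, not_not] at h3
      exact h2 ⟨i, fun _ => ⟨hi, h3.1, h3.2⟩⟩
    · exact ⟨0, fun h => absurd h hs⟩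
  choose g hg using h1
  have hmono : ∀ i s t, s ≤ t → P i s → P i t := by
    intro i s t hst h
    induction t, hst using Nat.le_induction with
    | base => exact h
    | succ t _ ih => exact hP i t ih
  have hcard : (range k).card < (range (m + 1)).card := by
    rw [card_range, card_range]
    omega
  obtain ⟨s, hs, t, ht, hst, he⟩ := exists_ne_map_eq_of_card_lt_of_maps_to hcard
    (f := g) (fun s hs => mem_range.2 (hg s (by have := mem_range.1 hs; omega)).1)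
  have hs1 : s ≤ m := by
    have := mem_range.1 hs
    omega
  have ht1 : t ≤ m := by
    have := mem_range.1 ht
    omega
  have key : ∀ s t, s ≤ m → t ≤ m → s < t → g s = g t → False := by
    intro s t hs1 ht1 h he
    have h2 := (hg s hs1).2.2
    have h3 := (hg t ht1).2.1
    rw [← he] at h3
    exact h3 (hmono _ _ _ h h2)
  rcases Nat.lt_or_ge s t with h | h
  · exact key s t hs1 ht1 h he
  · exact key t s ht1 hs1 (by omega) he.symm

theorem Lvs_k {V : Type} [Fintype V] (G : SimpleGraph V) (Δ k : ℕ) (c η : ℝ)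
    (hV : 0 < Fintype.card V) (Q : ℕ → Finset V) (hQ : Clo G Δ c η k Q) : (k : ℝ) * c ≤ 2 := by
  have hd : ∀ i ∈ (range k : Finset ℕ), ∀ j ∈ (range k : Finset ℕ), i ≠ j →
      Disjoint (Q i) (Q j) := by
    intro i hi j hj hij
    exact hQ.dis i (mem_range.mp hi) j (mem_range.mp hj) hij
  have h1 : ((range k).biUnion Q).card = ∑ i ∈ range k, (Q i).card := card_biUnion hd
  have h2 : ((range k).biUnion Q).card ≤ Fintype.card V := card_le_univ _
  have h3 : ((∑ i ∈ range k, (Q i).card : ℕ) : ℝ) ≤ (Fintype.card V : ℝ) := by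
    rw [← h1]
    exact_mod_cast h2
  have h4 : (k : ℝ) * (c / 2 * Fintype.card V) ≤ ((∑ i ∈ range k, (Q i).card : ℕ) : ℝ) := by
    rw [Nat.cast_sum]
    calc (k : ℝ) * (c / 2 * Fintype.card V) = ∑ _i ∈ range k, (c / 2 * (Fintype.card V : ℝ)) := by
          rw [sum_const, card_range, nsmul_eq_mul]
      _ ≤ ∑ i ∈ range k, ((Q i).card : ℝ) :=
        sum_le_sum fun i hi => hQ.big i (mem_range.mp hi)
  have hVr : (0 : ℝ) < Fintype.card V := by exact_mod_cast hV
  have h6 : (k : ℝ) * (c / 2 * Fintype.card V) ≤ Fintype.card V := h4.trans h3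
  by_contra hcon
  rw [not_le] at hcon
  nlinarith

theorem lvs (c η' : ℝ) (m : ℕ) (hc : 0 < c) (hc1 : c ≤ 1) (hη' : 0 < η') (ξf ff : ℝ → ℝ)
    (hξ : ∀ x, 0 < x → 0 < ξf x ∧ ξf x ≤ c * x / 1000) (hf : ∀ x, 0 < x → 0 < ff x) :
    ∃ (η : ℝ) (S : Finset ℝ) (n0 : ℕ), 0 < η ∧ (∀ x ∈ S, 0 < x ∧ x ≤ 1) ∧
      ∀ (V : Type) [Fintype V] (G : SimpleGraph V) (Δ k : ℕ) (Q : ℕ → Finset V),
        n0 ≤ Fintype.card V → c * Fintype.card V ≤ Δ → (∀ v, dg G v = Δ) → k ≤ m →
        Clo G Δ c η k Q → (¬ ∃ Q' : ℕ → Finset V, Clo G Δ c η' (k + 1) Q') →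
        ∃ x ∈ S, ∃ (ty : ℕ → Prop) (nd : V → ℕ) (sf : ℕ → Finset V),
          Str G Δ c x (ξf x) (ξf x / 8) (ff x) k ty nd sf := by
  have hex : ∀ x : ℝ, ∃ (w : ℝ) (n : ℕ), 0 < w ∧ (0 < x → x ≤ 1 →
      ∀ (V : Type) [Fintype V] (G : SimpleGraph V) (Δ k : ℕ) (ω : ℝ) (ty : ℕ → Prop)
        (nd0 : V → ℕ), n ≤ Fintype.card V → c * Fintype.card V ≤ Δ → (∀ v, dg G v = Δ) →
        (k : ℝ) * c ≤ 2 → 0 ≤ ω → ω ≤ w → Cl0 G k c x ω ty nd0 →
        ∃ (nd : V → ℕ) (sf : ℕ → Finset V), Str G Δ c x (ξf x) (ξf x / 8) (ff x) k ty nd sf) := by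
    intro x
    by_cases hx : 0 < x ∧ x ≤ 1
    · have h1 := hξ x hx.1
      obtain ⟨w, n, hw, H⟩ := cln c x (ξf x) (ff x) hc hc1 hx.1 hx.2 h1.1
        (by nlinarith [h1.2, hx.1, hx.2]) (hf x hx.1)
      exact ⟨w, n, hw, fun _ _ => H⟩
    · exact ⟨1, 0, one_pos, fun h1 h2 => absurd ⟨h1, h2⟩ hx⟩
  choose w N hw H using hex
  obtain ⟨y, hy⟩ : ∃ y : ℝ, y = min (η' / 20) (c ^ 3 / 102400) := ⟨_, rfl⟩
  have hc3 : 0 < c ^ 3 := by positivity
  have hc31 : c ^ 3 ≤ 1 := pow_le_one₀ hc.le hc1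
  have hy0 : 0 < y := by
    rw [hy]
    exact lt_min (by linarith) (by linarith)
  have hy1 : y ≤ η' / 20 := by
    rw [hy]
    exact min_le_left _ _
  have hy2 : y ≤ c ^ 3 / 102400 := by
    rw [hy]
    exact min_le_right _ _
  obtain ⟨M, hM⟩ : ∃ M : ℝ, M = (m : ℝ) + 1 := ⟨_, rfl⟩
  have hm0 : (0 : ℝ) ≤ m := Nat.cast_nonneg _
  have hM1 : 1 ≤ M := by linarith
  have hM0 : 0 < M := by linarith
  obtain ⟨X, hX0, hXs⟩ : ∃ X : ℕ → ℝ, X 0 = y / 2 ∧ ∀ s, X (s + 1) =
      min (X s) (min (c * y / 1000) (c * w (X s) / (1000 * M))) :=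
    ⟨fun s => Nat.rec (y / 2) (fun _ z => min z (min (c * y / 1000) (c * w z / (1000 * M)))) s,
      rfl, fun _ => rfl⟩
  have hXpos : ∀ s, 0 < X s := by
    intro s
    induction s with
    | zero =>
      rw [hX0]
      linarith
    | succ s ih =>
      rw [hXs]
      have h1 := hw (X s)
      exact lt_min ih (lt_min (by positivity) (by positivity))
  have hXle : ∀ s, X (s + 1) ≤ X s := by
    intro s
    rw [hXs]
    exact min_le_left _ _
  have hXanti : Antitone X := antitone_nat_of_succ_le hXle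
  have hX1 : ∀ s, X s ≤ y / 2 := by
    intro s
    rw [← hX0]
    exact hXanti (Nat.zero_le s)
  have hXy : ∀ s, X (s + 1) ≤ c * y / 1000 := by
    intro s
    rw [hXs]
    exact (min_le_right _ _).trans (min_le_left _ _)
  have hXw : ∀ s, X (s + 1) ≤ c * w (X s) / (1000 * M) := by
    intro s
    rw [hXs]
    exact (min_le_right _ _).trans (min_le_right _ _)
  obtain ⟨e, he0, he⟩ := Lvs_min (fun s => c * w (X s) / (2 * M))
    (fun s => by
      have h1 := hw (X s)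
      positivity) m
  obtain ⟨n0, hn1, hn0⟩ := Lvs_max (fun s => N (X s)) m
  obtain ⟨η, hη⟩ : ∃ η : ℝ, η = min (min (η' / (2 * M)) (y / 2)) (min (X (m + 1)) e) := ⟨_, rfl⟩
  have hη0 : 0 < η := by
    rw [hη]
    exact lt_min (lt_min (by positivity) (by linarith)) (lt_min (hXpos _) he0)
  have hη1 : η ≤ η' / (2 * M) := by
    rw [hη]
    exact (min_le_left _ _).trans (min_le_left _ _)
  have hη2 : η ≤ y / 2 := by
    rw [hη]
    exact (min_le_left _ _).trans (min_le_right _ _)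
  have hη3 : η ≤ X (m + 1) := by
    rw [hη]
    exact (min_le_right _ _).trans (min_le_left _ _)
  have hη4 : η ≤ e := by
    rw [hη]
    exact (min_le_right _ _).trans (min_le_right _ _)
  refine ⟨η, (range (m + 1)).image X, n0, hη0, ?_, ?_⟩
  · intro x hx
    obtain ⟨s, _, rfl⟩ := mem_image.1 hx
    have h1 := hX1 s
    exact ⟨hXpos s, by linarith⟩
  intro V _ G Δ k Q hV hcΔ hreg hk hQ hmax
  have hV0 : 0 < Fintype.card V := by omega
  obtain ⟨s, hs, hdi⟩ := Lvs_php m k hk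
    (fun i s => XPc G (Q i) (c / 256) (2 * X s) (2 * X s))
    (fun i s h => xpcM G (Q i) (c / 256) _ _ _ _ (by linarith [hXle s]) (by linarith [hXle s]) h)
  have hkM : (k : ℝ) ≤ M := by
    have h1 : (k : ℝ) ≤ m := by exact_mod_cast hk
    linarith
  have hk0 : (0 : ℝ) ≤ k := Nat.cast_nonneg _
  have hw0 := hw (X s)
  have hkη : (k : ℝ) * η ≤ M * (η' / (2 * M)) := mul_le_mul hkM hη1 hη0.le hM0.le
  have hkη' : M * (η' / (2 * M)) = η' / 2 := by
    field_simp
  have hkw : (k : ℝ) * η ≤ M * (c * w (X s) / (2 * M)) :=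
    mul_le_mul hkM (hη4.trans (he s hs)) hη0.le hM0.le
  have hkw' : M * (c * w (X s) / (2 * M)) = c * w (X s) / 2 := by
    field_simp
  have hcw : c * w (X s) ≤ w (X s) := by nlinarith
  have hx400 : 400 / c * X (s + 1) ≤ 400 / 1000 * y := by
    have h1 : 400 / c * X (s + 1) ≤ 400 / c * (c * y / 1000) :=
      mul_le_mul_of_nonneg_left (hXy s) (by positivity)
    have h2 : 400 / c * (c * y / 1000) = 400 / 1000 * y := by
      field_simp
    linarith
  have hx400w : (k : ℝ) * (400 / c * X (s + 1)) ≤ 400 / 1000 * w (X s) := by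
    have h1 : 400 / c * X (s + 1) ≤ 400 / c * (c * w (X s) / (1000 * M)) :=
      mul_le_mul_of_nonneg_left (hXw s) (by positivity)
    have h3 : 0 ≤ 400 / c * X (s + 1) := by
      have := hXpos (s + 1)
      positivity
    have h4 := mul_le_mul hkM h1 h3 hM0.le
    have h5 : M * (400 / c * (c * w (X s) / (1000 * M))) = 400 / 1000 * w (X s) := by
      field_simp
    linarith
  have hη'2 : η ≤ η' / 2 := by
    refine hη1.trans ?_
    exact div_le_div_of_nonneg_left hη'.le (by norm_num) (by linarith)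
  obtain ⟨ty, nd0, hcl0⟩ := lv1 G Δ k c (X s) (X (s + 1)) y η η' (w (X s)) hc hc1 (hXpos s)
    (hXpos (s + 1)) hy0 hη0.le hV0 hcΔ hreg Q hQ hmax (by linarith) (by linarith)
    (by
      have h1 : X (m + 1) ≤ X (s + 1) := hXanti (by omega)
      have h2 := hXpos (s + 1)
      linarith)
    (by
      have h1 := hXy s
      nlinarith)
    (by linarith) (by linarith [hX1 s]) (by linarith)
    (by
      have h1 : (k : ℝ) * (η + 400 / c * X (s + 1)) = k * η + k * (400 / c * X (s + 1)) := by ring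
      rw [h1]
      linarith)
    (by
      rw [div_le_iff₀ hc]
      linarith)
    hdi
  have hx1 : X s ≤ 1 := by linarith [hX1 s]
  obtain ⟨nd, sf, hst⟩ := H (X s) (hXpos s) hx1 V G Δ k (w (X s)) ty nd0
    ((hn0 s hs).trans hV) hcΔ hreg (Lvs_k G Δ k c η hV0 Q hQ) hw0.le le_rfl hcl0
  exact ⟨X s, mem_image_of_mem X (mem_range.2 (by omega)), ty, nd, sf, hst⟩

end Pool.Agent.H71.TD
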