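import Mathlib
import Pool.Agent.H71.TD.Lvs

/-!
STT: the structure theorem. Use the STATEMENTS of `lvs` (`TD/Lvs.lean`) and `sel` (`DC/Sel.lean`); compare `DC/MnD.lean` (proved, the same argument).

Proof.  `m := ⌈2 / c⌉₊ + 1`. For every `η' > 0` `lvs c η' m` gives `F η' > 0`, `S η'`, `N η'` (`choose`, with junk for `η' ≤ 0`). `η k := F^[m - k] 1`, so `η k = F (η (k + 1))` for `k < m`, all `> 0`. `S :=` the union of the `S (η (k + 1))`, `k < m` (`Finset.biUnion`), `n0 := 1 +` the maximum of the `N (η (k + 1))`, `k < m`.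
For one graph `sel` gives `k < m`, `Q` with `Clo G Δ c (η k) k Q` and no `Q'` with `Clo G Δ c (η (k + 1)) (k + 1) Q'`; then `lvs` with `η' = η (k + 1)`.
-/

set_option autoImplicit false

namespace Pool.Agent.H71.TD

open Finset Classical
open Pool.Agent.H71.DN Pool.Agent.H71.DX Pool.Agent.H71.DR Pool.Agent.H71.HL Pool.Agent.H71.DC

theorem stt (c : ℝ) (hc : 0 < c) (hc1 : c ≤ 1) (ξf ff : ℝ → ℝ)
    (hξ : ∀ x, 0 < x → 0 < ξf x ∧ ξf x ≤ c * x / 1000) (hf : ∀ x, 0 < x → 0 < ff x) :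
    ∃ (S : Finset ℝ) (n0 : ℕ), (∀ x ∈ S, 0 < x ∧ x ≤ 1) ∧
      ∀ (V : Type) [Fintype V] (G : SimpleGraph V) (Δ : ℕ), n0 ≤ Fintype.card V →
        c * Fintype.card V ≤ Δ → (∀ v, dg G v = Δ) →
        ∃ (x : ℝ) (k : ℕ) (ty : ℕ → Prop) (nd : V → ℕ) (sf : ℕ → Finset V), x ∈ S ∧
          Str G Δ c x (ξf x) (ξf x / 8) (ff x) k ty nd sf := by
  obtain ⟨m, hm⟩ : ∃ m : ℕ, m = ⌈2 / c⌉₊ + 1 := ⟨_, rfl⟩
  have hm2 : 2 / c < m := by
    have := Nat.le_ceil (2 / c)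
    rw [hm]
    push_cast
    linarith
  have H : ∀ η' : ℝ, ∃ (η : ℝ) (S : Finset ℝ) (n0 : ℕ), 0 < η ∧ (∀ x ∈ S, 0 < x ∧ x ≤ 1) ∧
      (0 < η' → ∀ (V : Type) [Fintype V] (G : SimpleGraph V) (Δ k : ℕ) (Q : ℕ → Finset V),
        n0 ≤ Fintype.card V → c * Fintype.card V ≤ Δ → (∀ v, dg G v = Δ) → k ≤ m →
        Clo G Δ c η k Q → (¬ ∃ Q' : ℕ → Finset V, Clo G Δ c η' (k + 1) Q') →
        ∃ x ∈ S, ∃ (ty : ℕ → Prop) (nd : V → ℕ) (sf : ℕ → Finset V),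
          Str G Δ c x (ξf x) (ξf x / 8) (ff x) k ty nd sf) := by
    intro η'
    by_cases h : 0 < η'
    · obtain ⟨η, S, n0, h1, h2, h3⟩ := lvs c η' m hc hc1 h ξf ff hξ hf
      exact ⟨η, S, n0, h1, h2, fun _ => h3⟩
    · exact ⟨1, ∅, 0, one_pos, fun x hx => absurd hx (Finset.notMem_empty x),
        fun h' => absurd h' h⟩
  choose F S N hF hS hprop using H
  obtain ⟨η, hη⟩ : ∃ η : ℕ → ℝ, η = fun k => F^[m - k] 1 := ⟨_, rfl⟩
  have hpos : ∀ j : ℕ, 0 < F^[j] 1 := by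
    intro j
    cases j with
    | zero => exact one_pos
    | succ j => rw [Function.iterate_succ_apply']; exact hF _
  have hηp : ∀ k, 0 < η k := fun k => by rw [hη]; exact hpos _
  have hηs : ∀ k, k < m → η k = F (η (k + 1)) := by
    intro k hk
    rw [hη]
    have : m - k = (m - (k + 1)) + 1 := by omega
    simp only
    rw [this, Function.iterate_succ_apply']
  refine ⟨(Finset.range m).biUnion (fun k => S (η (k + 1))),
    (Finset.range m).sup (fun k => N (η (k + 1))) + 1, ?_, ?_⟩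
  · intro x hx
    obtain ⟨k, _, hk⟩ := Finset.mem_biUnion.1 hx
    exact hS _ x hk
  · intro V _ G Δ hn hΔ hreg
    obtain ⟨k, Q, hk, hclo, hno⟩ := sel G Δ c hc m hm2 (by omega) η
    have hsup : N (η (k + 1)) ≤ (Finset.range m).sup (fun k => N (η (k + 1))) :=
      Finset.le_sup (f := fun k => N (η (k + 1))) (Finset.mem_range.2 hk)
    rw [hηs k hk] at hclo
    obtain ⟨x, hx, ty, nd, sf, h⟩ := hprop (η (k + 1)) (hηp _) V G Δ k Q (by omega) hΔ hreg hk.le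
      hclo hno
    exact ⟨x, k, ty, nd, sf, Finset.mem_biUnion.2 ⟨k, Finset.mem_range.2 hk, hx⟩, h⟩

end Pool.Agent.H71.TD
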