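import Mathlib
import Pool.Agent.H71.TD.Ifc
import Pool.Agent.H2.FC.Asm

/-!
FC: the colouring of the defect edges `F := Fg G k ty nd` (the parts of the proof are in `Pool/Agent/H2/FC`, the near-equitable colourings in `Pool/Agent/H2/NE`).

Notation: `n = card V`, `L = Δ + 2`, `t = Δ / (12 g)`, `Lo = pt nd (2 k)`, `X = {v : nd v < 2 k, qt v < 2}`, `Y = {v : nd v < 2 k, 2 ≤ qt v}`, `T1 = [0, t)`, `T2 = [t, 2 t)`, `R = [2 t, L)`. `dg F v ≤ ξ n` for `v ∉ Lo`, `dg F w = Δ` for `w ∈ Lo`, `#Lo ≤ f n`, `f << ξ << c`.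
At the labels of `T1` only edges inside `Y ∪ Lo` are allowed, at those of `T2` only edges inside `X ∪ Lo`. Every `w ∈ Lo` must be covered at all labels of `T1`, `T2` and at all but two labels of `R` (one of them is its colour `c0 w`; the `c0 w` are different).
Plan.  1. (GRD) For a finite set `E`, vectors `s e ∈ ℝ^K` with `|s e P| ≤ 2` and `θ ∈ [0,1]` there is `S ⊆ E` with `|∑_{e ∈ S} s e P - θ ∑_{e ∈ E} s e P| ≤ sqrt (4 K #E)` for all `P` (choose one after the other, `∑_P (..)²` grows by at most `|s e|²` in the mean; compare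
   `DR/Smp.lean`). Use it for `E =` the edges of `G` inside `Lo` (`#E ≤ f² n²`), `s e P = q w P + q w' P`, `e = w w'`, `q w P = dgi G (pt nd P) w / (Δ - dgi G Lo w)` (`P < 2 k`), `θ = t / Δ`: `E1` (for `T1`), and then `E2 ⊆ E \ E1` (for `T2`) with the same sum.
2. For `w ∈ Lo` put `g1 w =` the degree of `w` in `E1`, and choose naturals `d1 w P ≤ dgi G (pt nd P ∩ Y) w` with `∑_{P < 2 k} d1 w P = t - g1 w` and `∑_w ∑_P |d1 w P - (t - g1 w) q w P| ≤ 4 f1 n + 4 k #Lo` (rounding; if `8 dgi (P ∩ Y) w < dgi P w` the shortage is bounded by `gs1`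
   and is moved to other pieces). So `∑_w d1 w P = (t/Δ) ∑_w dgi G (pt nd P) w ± small * t`: proportional.
3. `F1 := E1 ∪` (for every `w ∈ Lo`, `P < 2 k`: `d1 w P` edges from `w` to `pt nd P ∩ Y`) `∪` (for all `P ≤ P' < 2 k`: `⌊(t/Δ) m⌋` edges of `F` between `pt nd P ∩ Y` and `pt nd P' ∩ Y`, `m =` the number of edges of `F` between `pt nd P`, `pt nd P'`, possible by `gs2` if `m` is not tiny; otherwise none). `F1` has degree
   exactly `t` at every `w ∈ Lo`, and its number of ends in each piece `P < 2 k` is `(t/Δ) *` that of `F`, up to `small * t`. The same for `F2` with `X` and `T2`. `F3 := F \ F1 \ F2`.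
4. Proper colouring of `F1` with the `t` labels of `T1`: first the edges inside `Lo` (Vizing, `t > #Lo`); then the vertices `w ∈ Lo` one after the other: the remaining `t - g1 w` edges at `w` get the `t - g1 w` labels of `T1` not used at `w` (Hall: every edge `w y` has at most `#Lo` forbidden labels, and every
   label is forbidden for at most `#Lo` of the edges; `t > 3 #Lo`); then the edges inside `Y` greedily (`2 (#Lo + ξ n) < t`). So every `w ∈ Lo` is covered at all labels of `T1`. The same for `F2`, `T2`.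
5. `F3` plus a new vertex `z` joined to all `w ∈ Lo`: all degrees are at most `#R - 1` (`dg F3 w = Δ - 2 t = #R - 2`), so Vizing gives a proper colouring with the labels of `R`; `c0 w :=` the label of `z w`.
6. (NE) Inside each of the blocks `T1, T2, R` apply the near-equitable theorem (Kempe changes; they keep the degrees, so `w ∈ Lo` stays covered as required) with the pieces `0, ..., 2 k` (and `{z}`): afterwards for all labels `ℓ, ℓ'` of the block and every piece `P` the numbers of covered vertices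
   of `P` differ by at most 2, and for `¬ ty i` the numbers `uu ℓ i` differ by at most 3. (Minimise `∑_ℓ ∑_P #(covered in P)²`, then `∑_ℓ ∑_i uu²`. For two labels the components of the union have at most two ends; group them conformally: two groups with opposite signs at a piece are united,
   the l1-norm of a group stays `≤ 2`; if some difference is `≥ 3` some group can be switched with profit; if `uu` differs by 4 then one piece has difference 2, the other -2, each caused by a single group, and switching one of them improves the second potential.)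
7. `sm`: the numbers are at most their mean plus 2. `ub`, `us`: `∑_{ℓ ∈ block} uu ℓ i` is `± small * #block` (for `F1, F2` by 3., for `R` since the sum over all labels is 0: `#A_i = #B_i` and `∑_{A_i} dg F = ∑_{B_i} dg F`), and `uu` takes values in an interval of length 3 in the block: so
   `|uu| ≤ 3` and `∑ max 0 (-uu) ≤ (3/4 + small) #block`.
-/

set_option autoImplicit false

namespace Pool.Agent.H71.TD

open Finset Classical
open Pool.Agent.H71.DN Pool.Agent.H71.DX Pool.Agent.H71.DR Pool.Agent.H71.HL Pool.Agent.H71.DC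

theorem fc (c : ℝ) (g : ℕ) (hc : 0 < c) (hc1 : c ≤ 1) (hg : 2 ≤ g) :
    ∃ f1 ξ0 : ℝ, 0 < f1 ∧ 0 < ξ0 ∧ ∀ δ : ℝ, 0 < δ → ∃ (f0 : ℝ) (n0 : ℕ), 0 < f0 ∧
      ∀ (V : Type) [Fintype V] (G : SimpleGraph V) (Δ k KE KB : ℕ) (x ξ ζ f η : ℝ)
        (ty : ℕ → Prop) (nd qt : V → ℕ) (sf : ℕ → Finset V), n0 ≤ Fintype.card V →
        c * Fintype.card V ≤ Δ → 0 ≤ ξ → ξ ≤ ξ0 → 0 ≤ f → f ≤ f0 →
        Str G Δ c x ξ ζ f k ty nd sf → Spl G k ty nd qt η KE KB f1 →
        ∃ (φ : ℕ → V → V) (c0 : V → ℕ), FcOut G Δ k ty nd qt (Δ / (12 * g)) δ φ c0 := by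
  have hg' : (2 : ℝ) ≤ g := by exact_mod_cast hg
  have hg0 : (0 : ℝ) < g := by linarith
  obtain ⟨s, hs⟩ : ∃ s : ℝ, s = c / (24 * g) := ⟨_, rfl⟩
  have hs0 : 0 < s := by rw [hs]; positivity
  have hsg : s * (24 * g) = c := by rw [hs]; field_simp
  have hs1 : 48 * s ≤ c := by nlinarith
  refine ⟨s * c / 2880, s / 2, by positivity, by positivity, fun δ hδ => ?_⟩
  obtain ⟨n1, hn1⟩ := exists_nat_ge (24 * g / c)
  obtain ⟨n2, hn2⟩ := exists_nat_ge (3360 / (c * s))
  obtain ⟨n3, hn3⟩ := exists_nat_ge (16 / (c * δ))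
  refine ⟨min (s * c / 5760) (δ * s / 2), n1 + n2 + n3 + 1, by positivity, ?_⟩
  intro V _ G Δ k KE KB x ξ ζ f η ty nd qt sf hn hcΔ hξ0 hξ hf0 hf hS hP
  have hfa : f ≤ s * c / 5760 := le_trans hf (min_le_left _ _)
  have hfb : f ≤ δ * s / 2 := le_trans hf (min_le_right _ _)
  obtain ⟨n, hnd⟩ : ∃ n : ℝ, n = Fintype.card V := ⟨_, rfl⟩
  have hnR : ((n1 + n2 + n3 + 1 : ℕ) : ℝ) ≤ n := by rw [hnd]; exact_mod_cast hn
  push_cast at hnR
  have p1 : (0 : ℝ) ≤ n1 := Nat.cast_nonneg _
  have p2 : (0 : ℝ) ≤ n2 := Nat.cast_nonneg _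
  have p3 : (0 : ℝ) ≤ n3 := Nat.cast_nonneg _
  have hnpos : 0 < n := by linarith
  rw [← hnd] at hcΔ
  have q1 : 24 * g ≤ c * n := by
    have h1 : 24 * (g : ℝ) / c ≤ n := by linarith
    rwa [div_le_iff₀' hc] at h1
  have q2 : 3360 ≤ c * s * n := by
    have h1 : 3360 / (c * s) ≤ n := by linarith
    rwa [div_le_iff₀' (by positivity)] at h1
  have q3 : 16 ≤ c * δ * n := by
    have h1 : 16 / (c * δ) ≤ n := by linarith
    rwa [div_le_iff₀' (by positivity)] at h1
  -- the number of labels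
  obtain ⟨t, ht⟩ : ∃ t : ℕ, t = Δ / (12 * g) := ⟨_, rfl⟩
  have ht1 : 12 * g * t ≤ Δ := by rw [ht]; exact Nat.mul_div_le _ _
  have ht2 : Δ < 12 * g * (t + 1) := by
    rw [ht]
    exact Nat.lt_mul_div_succ _ (by omega)
  have ht1' : (12 : ℝ) * g * t ≤ Δ := by exact_mod_cast ht1
  have ht2' : (Δ : ℝ) < 12 * g * (t + 1) := by exact_mod_cast ht2
  have hts : s * n ≤ t := by
    have h1 : s * n * (24 * g) ≤ t * (24 * g) := by
      have h2 : s * n * (24 * g) = c * n := by rw [← hsg]; ring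
      rw [h2]
      nlinarith
    exact le_of_mul_le_mul_right h1 (by positivity)
  have ht0' : (0 : ℝ) < t := lt_of_lt_of_le (by positivity) hts
  have ht0 : 0 < t := by exact_mod_cast ht0'
  have h24 : 24 * t ≤ Δ := by
    have h1 : 12 * 2 * t ≤ 12 * g * t := Nat.mul_le_mul_right t (Nat.mul_le_mul_left 12 hg)
    omega
  have h24' : (24 : ℝ) * t ≤ Δ := by exact_mod_cast h24
  have hkc : (k : ℝ) * c ≤ 2 := hS.kc
  have hk0 : (0 : ℝ) ≤ k := Nat.cast_nonneg _
  have hlo : ((pt nd (2 * k)).card : ℝ) ≤ f * n := by rw [hnd]; exact hS.lo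
  have hlo0 : (0 : ℝ) ≤ ((pt nd (2 * k)).card : ℝ) := Nat.cast_nonneg _
  obtain ⟨B, hB⟩ : ∃ B : ℕ, B = ⌈s * c / 2880 * n⌉₊ := ⟨_, rfl⟩
  have hB1 : s * c / 2880 * n ≤ B := by rw [hB]; exact Nat.le_ceil _
  have hB2 : (B : ℝ) ≤ s * c / 2880 * n + 1 := by
    rw [hB]
    exact (Nat.ceil_lt_add_one (by positivity)).le
  have hsn : 3360 ≤ s * n := by
    have h1 : c * (s * n) ≤ 1 * (s * n) := mul_le_mul_of_nonneg_right hc1 (by positivity)
    nlinarith
  have hscn : s * c * n ≤ s * n := by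
    have h1 : s * c ≤ s := by nlinarith
    exact mul_le_mul_of_nonneg_right h1 hnpos.le
  have hfn : f * n ≤ s * c / 5760 * n := mul_le_mul_of_nonneg_right hfa hnpos.le
  rw [← ht]
  refine Pool.Agent.H2.FC.asm G Δ k KE KB t B c x ξ ζ f η (s * c / 2880) δ ty nd qt
    sf hS hP ht0 h24 ?_ ?_ ?_ ?_ ?_ ?_ ?_
  · have h1 : (3 : ℝ) * ((pt nd (2 * k)).card : ℝ) ≤ t := by linarith
    exact_mod_cast h1
  · rw [← hnd]
    have h1 : ξ * n ≤ s / 2 * n := mul_le_mul_of_nonneg_right hξ hnpos.le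
    linarith
  · rw [← hnd]
    exact hB1
  · have h1 : (2 : ℝ) * B ≤ Δ := by linarith
    exact_mod_cast h1
  · -- the errors, multiplied by `c`
    push_cast
    set l := ((pt nd (2 * k)).card : ℝ) with hl
    have h1 : c * (120 * ((2 * (2 * (k : ℝ)) + 4) * l + 2 * B + 2 * k * (2 + B))) ≤ c * t := by
      have e1 : c * k * l ≤ 2 * l := by
        have : c * k ≤ 2 := by linarith [mul_comm c (k : ℝ)]
        exact mul_le_mul_of_nonneg_right this hlo0
      have e2 : c * l ≤ 1 * l := mul_le_mul_of_nonneg_right hc1 hlo0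
      have hB0 : (0 : ℝ) ≤ B := Nat.cast_nonneg _
      have e3 : c * k * B ≤ 2 * B := by
        have : c * k ≤ 2 := by linarith [mul_comm c (k : ℝ)]
        exact mul_le_mul_of_nonneg_right this hB0
      have e4 : c * B ≤ 1 * B := mul_le_mul_of_nonneg_right hc1 hB0
      have e5 : c * k ≤ 2 := by linarith [mul_comm c (k : ℝ)]
      have e6 : c * (s * n) ≤ c * t := mul_le_mul_of_nonneg_left hts hc.le
      nlinarith
    exact le_of_mul_le_mul_left h1 hc
  · rw [← hnd]
    have h1 : c * (8 * (k : ℝ)) ≤ c * (δ * n) := by nlinarith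
    exact le_of_mul_le_mul_left h1 hc
  · rw [← hnd]
    have h1 : f * n ^ 2 ≤ δ * s / 2 * n ^ 2 := mul_le_mul_of_nonneg_right hfb (by positivity)
    have h2 : δ * n * (s * n) ≤ δ * n * t := mul_le_mul_of_nonneg_left hts (by positivity)
    nlinarith

end Pool.Agent.H71.TD
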