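import Mathlib
import Pool.Agent.H71.TD.Ifc

/-!
FIN1: from the matchings of the parts and of the defect edges to a total colouring.

Proof.  For `ℓ < Δ + 2` put `U ℓ := {v : φ ℓ v ≠ v ∨ cc v = ℓ ∨ hh v = ℓ}`. Choose for every `i < k` the matchings `mm i` of `hE` resp. `hB`. `M ℓ v := φ ℓ v` if `φ ℓ v ≠ v`; otherwise `mm (nd v / 2) ℓ v` if `nd v < 2 k`, and `v` if `nd v = 2 k`.
 * `M ℓ` is an involution: a vertex `v` with `φ ℓ v = v` is mapped by `mm i ℓ` (`i = nd v / 2 < k`) to itself or to a vertex of the part `i` outside `U ℓ` (`mm i ℓ` fixes `U ℓ` and everything outside the part). If `M ℓ v ≠ v` then `G.Adj v (M ℓ v)`; it is an edge of `Fg` if `φ ℓ v ≠ v`, and an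
   edge of `Hg` otherwise. For `ℓ ≠ ℓ'` `M ℓ v ≠ v` implies `M ℓ v ≠ M ℓ' v` (`dis` for `φ` and for `mm i`; an edge of `Fg` is not an edge of `Hg`). `M (cc v) v = v` for all `v` (`fr`, `fix`, and `v ∈ U (cc v)`).
 * Every edge `a b` of `G` is in some `M ℓ`, `ℓ < Δ + 2`: for edges of `Fg` by `cov`. Let `a b` be an edge of `Hg`, `i = nd a / 2 < k`. The number of `ℓ < Δ + 2` with `φ ℓ a ≠ a` is `dg (Fg ..) a` (`dis`, `cov`), so `#{ℓ : a ∈ U ℓ} = dg (Fg ..) a + 2` (`lt`, `fr`), so `mm i ℓ a ≠ a` for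
   `Δ + 2 - dg (Fg ..) a - 2 = dg (Hg ..) a` labels (`dg G a = Δ`); the `mm i ℓ a` for these labels are different `Hg`-neighbours of `a`, so they are all of them.
 * `fV := cc`, `fE e :=` the label `ℓ < Δ + 2` with `M ℓ a = b`, `e = s(a, b)` (choose; symmetric in `a, b` as `M ℓ` is an involution; unique by `dis`). For adjacent `a, b`: `cc a ≠ cc b` (`pr`), `cc a ≠ fE s(a, b)` since `M (cc a) a = a`, and edges `a b ≠ a b'` have different labels.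
(`pt nd (2 i + 1) = ∅` for `ty i`, so the part `i` is `pt nd (2 i)` then, and `Hg` on the part is `G` on the part.)
-/

set_option autoImplicit false

namespace Pool.Agent.H71.TD

open Finset Classical
open Pool.Agent.H71.DN Pool.Agent.H71.DX Pool.Agent.H71.DR Pool.Agent.H71.HL Pool.Agent.H71.DC

/-- The set `U ℓ`. -/
private noncomputable def f1U {V : Type} [Fintype V] (φ : ℕ → V → V) (cc hh : V → ℕ) (ℓ : ℕ) :
    Finset V := univ.filter fun v => φ ℓ v ≠ v ∨ cc v = ℓ ∨ hh v = ℓ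

/-- The matchings of one part. -/
private structure F1P {V : Type} [Fintype V] (G : SimpleGraph V) (Δ k : ℕ) (ty : ℕ → Prop)
    (nd : V → ℕ) (U : ℕ → Finset V) (i : ℕ) (mm : ℕ → V → V) : Prop where
  inv : ∀ ℓ < Δ + 2, ∀ v, mm ℓ (mm ℓ v) = v
  adj : ∀ ℓ < Δ + 2, ∀ v, mm ℓ v ≠ v → (Hg G k ty nd).Adj v (mm ℓ v)
  dis : ∀ ℓ < Δ + 2, ∀ ℓ' < Δ + 2, ℓ ≠ ℓ' → ∀ v, mm ℓ v ≠ v → mm ℓ v ≠ mm ℓ' v
  fix : ∀ ℓ < Δ + 2, ∀ v ∈ U ℓ, mm ℓ v = v
  cov : ∀ ℓ < Δ + 2, ∀ v, nd v / 2 = i → v ∉ U ℓ → mm ℓ v ≠ v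

private lemma f1_bip {V : Type} [Fintype V] {G : SimpleGraph V} {Δ k : ℕ} {ty : ℕ → Prop}
    {nd : V → ℕ} {U : ℕ → Finset V} {i : ℕ} (hi : i < k) {mm : ℕ → V → V}
    (h : PM (bt G (pt nd (2 * i)) (pt nd (2 * i + 1))) (Δ + 2)
        (fun ℓ => U ℓ ∪ (univ \ (pt nd (2 * i) ∪ pt nd (2 * i + 1)))) mm)
    (h2 : ∀ ℓ < Δ + 2, ∀ v ∈ pt nd (2 * i) ∪ pt nd (2 * i + 1), v ∉ U ℓ → mm ℓ v ≠ v) :
    F1P G Δ k ty nd U i mm := by
  refine ⟨fun ℓ hℓ v => h.inv ℓ hℓ v, ?_, h.dis, ?_, ?_⟩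
  · intro ℓ hℓ v hv
    have h3 := h.adj ℓ hℓ v hv
    obtain ⟨h4, h5⟩ := h3
    refine ⟨h4, ?_⟩
    rcases h5 with ⟨h5, h6⟩ | ⟨h5, h6⟩
    · rw [pt, mem_filter] at h5 h6
      rw [h5.2, h6.2]
      refine ⟨by omega, by omega, by omega, Or.inr (by omega)⟩
    · rw [pt, mem_filter] at h5 h6
      rw [h5.2, h6.2]
      refine ⟨by omega, by omega, by omega, Or.inr (by omega)⟩
  · intro ℓ hℓ v hv
    exact h.fix ℓ hℓ v (mem_union_left _ hv)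
  · intro ℓ hℓ v hv hvU
    refine h2 ℓ hℓ v ?_ hvU
    rw [mem_union, pt, pt, mem_filter, mem_filter]
    have h3 : nd v = 2 * i ∨ nd v = 2 * i + 1 := by omega
    rcases h3 with h3 | h3
    · exact Or.inl ⟨mem_univ _, h3⟩
    · exact Or.inr ⟨mem_univ _, h3⟩

private lemma f1_exp {V : Type} [Fintype V] {G : SimpleGraph V} {Δ k : ℕ} {ty : ℕ → Prop}
    {nd : V → ℕ} {U : ℕ → Finset V} {i : ℕ} (hi : i < k) {mm : ℕ → V → V} (ht : ty i)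
    (he1 : pt nd (2 * i + 1) = ∅)
    (h : PM G (Δ + 2) (fun ℓ => U ℓ ∪ (univ \ pt nd (2 * i))) mm)
    (h2 : ∀ ℓ < Δ + 2, ∀ v ∈ pt nd (2 * i), v ∉ U ℓ → mm ℓ v ≠ v) :
    F1P G Δ k ty nd U i mm := by
  have hin : ∀ ℓ < Δ + 2, ∀ v, mm ℓ v ≠ v → nd v = 2 * i := by
    intro ℓ hℓ v hv
    by_contra hcon
    apply hv
    refine h.fix ℓ hℓ v (mem_union_right _ ?_)
    rw [mem_sdiff, pt, mem_filter]
    exact ⟨mem_univ _, fun h3 => hcon h3.2⟩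
  refine ⟨fun ℓ hℓ v => h.inv ℓ hℓ v, ?_, h.dis, ?_, ?_⟩
  · intro ℓ hℓ v hv
    have h3 := h.adj ℓ hℓ v hv
    have h4 := hin ℓ hℓ v hv
    have h5 := hin ℓ hℓ (mm ℓ v) (by
      rw [h.inv ℓ hℓ v]
      exact hv.symm)
    refine ⟨h3, ?_⟩
    rw [h4, h5]
    have h6 : 2 * i / 2 = i := by omega
    refine ⟨by omega, by omega, rfl, Or.inl ?_⟩
    rw [h6]
    exact ht
  · intro ℓ hℓ v hv
    exact h.fix ℓ hℓ v (mem_union_left _ hv)
  · intro ℓ hℓ v hv hvU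
    refine h2 ℓ hℓ v ?_ hvU
    have h3 : nd v = 2 * i ∨ nd v = 2 * i + 1 := by omega
    rcases h3 with h3 | h3
    · rw [pt, mem_filter]
      exact ⟨mem_univ _, h3⟩
    · exfalso
      have h4 : v ∈ pt nd (2 * i + 1) := by
        rw [pt, mem_filter]
        exact ⟨mem_univ _, h3⟩
      rw [he1] at h4
      exact absurd h4 (notMem_empty v)

private lemma f1_deg {V : Type} [Fintype V] (G : SimpleGraph V) (k : ℕ) (ty : ℕ → Prop)
    (nd : V → ℕ) (v : V) : dg (Hg G k ty nd) v + dg (Fg G k ty nd) v = dg G v := by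
  unfold dg
  rw [← card_union_of_disjoint]
  · congr 1
    ext u
    simp only [mem_union, mem_filter, mem_univ, true_and]
    constructor
    · rintro (h | h)
      · exact h.1
      · exact h.1
    · intro h
      by_cases h1 : (Hg G k ty nd).Adj v u
      · exact Or.inl h1
      · exact Or.inr ⟨h, h1⟩
  · rw [disjoint_left]
    intro u hu hu'
    rw [mem_filter] at hu hu'
    exact hu'.2.2 hu.2

private lemma f1_Fdeg {V : Type} [Fintype V] {G : SimpleGraph V} {Δ k t : ℕ} {ty : ℕ → Prop}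
    {nd qt : V → ℕ} {δ : ℝ} {φ : ℕ → V → V} {c0 : V → ℕ}
    (hF : FcOut G Δ k ty nd qt t δ φ c0) (a : V) :
    ((range (Δ + 2)).filter fun ℓ => φ ℓ a ≠ a).card = dg (Fg G k ty nd) a := by
  unfold dg
  refine card_bij (fun ℓ _ => φ ℓ a) ?_ ?_ ?_
  · intro ℓ hℓ
    rw [mem_filter, mem_range] at hℓ
    rw [mem_filter]
    exact ⟨mem_univ _, hF.adj ℓ hℓ.1 a hℓ.2⟩
  · intro ℓ hℓ ℓ' hℓ' h
    rw [mem_filter, mem_range] at hℓ hℓ'
    by_contra hne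
    exact hF.dis ℓ hℓ.1 ℓ' hℓ'.1 hne a hℓ.2 h
  · intro b hb
    rw [mem_filter] at hb
    obtain ⟨ℓ, hℓ, h⟩ := hF.cov a b hb.2
    refine ⟨ℓ, ?_, h⟩
    rw [mem_filter, mem_range]
    refine ⟨hℓ, ?_⟩
    rw [h]
    exact hb.2.ne'

private lemma f1_cover {V : Type} [Fintype V] {G : SimpleGraph V} {Δ k t : ℕ} {ty : ℕ → Prop}
    {nd qt : V → ℕ} {δ κ : ℝ} {φ : ℕ → V → V} {c0 cc hh : V → ℕ} (hreg : ∀ v, dg G v = Δ)
    (hF : FcOut G Δ k ty nd qt t δ φ c0) (hG : GaOut G Δ k ty nd qt t κ φ cc hh) {a b : V}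
    (hab : (Hg G k ty nd).Adj a b) {mm : ℕ → V → V}
    (hm : F1P G Δ k ty nd (f1U φ cc hh) (nd a / 2) mm) : ∃ ℓ < Δ + 2, mm ℓ a = b := by
  have h1 : ((range (Δ + 2)).filter fun ℓ => a ∈ f1U φ cc hh ℓ).card =
      dg (Fg G k ty nd) a + 2 := by
    have hp : ({cc a, hh a} : Finset ℕ).card = 2 := card_pair (hG.lt a).2.2
    have h0 : ((range (Δ + 2)).filter fun ℓ => a ∈ f1U φ cc hh ℓ) =
        ((range (Δ + 2)).filter fun ℓ => φ ℓ a ≠ a) ∪ {cc a, hh a} := by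
      ext ℓ
      simp only [f1U, mem_union, mem_filter, mem_univ, true_and, mem_range, mem_insert,
        mem_singleton]
      constructor
      · rintro ⟨h2, h3 | h3 | h3⟩
        · exact Or.inl ⟨h2, h3⟩
        · exact Or.inr (Or.inl h3.symm)
        · exact Or.inr (Or.inr h3.symm)
      · rintro (h2 | h2 | h2)
        · exact ⟨h2.1, Or.inl h2.2⟩
        · rw [h2]
          exact ⟨(hG.lt a).1, Or.inr (Or.inl rfl)⟩
        · rw [h2]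
          exact ⟨(hG.lt a).2.1, Or.inr (Or.inr rfl)⟩
    rw [h0, card_union_of_disjoint, hp, f1_Fdeg hF a]
    · rw [disjoint_left]
      intro ℓ hℓ hℓ'
      rw [mem_filter] at hℓ
      rw [mem_insert, mem_singleton] at hℓ'
      rcases hℓ' with h2 | h2
      · rw [h2] at hℓ
        exact hℓ.2 (hG.fr a).1
      · rw [h2] at hℓ
        exact hℓ.2 (hG.fr a).2
  have h2 : ((range (Δ + 2)).filter fun ℓ => a ∈ f1U φ cc hh ℓ).card +
      ((range (Δ + 2)).filter fun ℓ => ¬ a ∈ f1U φ cc hh ℓ).card = Δ + 2 := by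
    rw [card_filter_add_card_filter_not, card_range]
  have h3 := f1_deg G k ty nd a
  rw [hreg a] at h3
  have h4 : ((range (Δ + 2)).filter fun ℓ => ¬ a ∈ f1U φ cc hh ℓ).card =
      (univ.filter fun u => (Hg G k ty nd).Adj a u).card := by
    have h5 : dg (Hg G k ty nd) a = (univ.filter fun u => (Hg G k ty nd).Adj a u).card := rfl
    omega
  have h5 : ((range (Δ + 2)).filter fun ℓ => ¬ a ∈ f1U φ cc hh ℓ).image (fun ℓ => mm ℓ a) =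
      univ.filter fun u => (Hg G k ty nd).Adj a u := by
    apply eq_of_subset_of_card_le
    · intro u hu
      obtain ⟨ℓ, hℓ, rfl⟩ := mem_image.1 hu
      rw [mem_filter, mem_range] at hℓ
      rw [mem_filter]
      exact ⟨mem_univ _, hm.adj ℓ hℓ.1 a (hm.cov ℓ hℓ.1 a rfl hℓ.2)⟩
    · rw [card_image_of_injOn, h4]
      intro ℓ hℓ ℓ' hℓ' h
      rw [mem_coe, mem_filter, mem_range] at hℓ hℓ'
      by_contra hne
      exact hm.dis ℓ hℓ.1 ℓ' hℓ'.1 hne a (hm.cov ℓ hℓ.1 a rfl hℓ.2) h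
  have h6 : b ∈ univ.filter fun u => (Hg G k ty nd).Adj a u := mem_filter.2 ⟨mem_univ _, hab⟩
  rw [← h5] at h6
  obtain ⟨ℓ, hℓ, h⟩ := mem_image.1 h6
  rw [mem_filter, mem_range] at hℓ
  exact ⟨ℓ, hℓ.1, h⟩

theorem fin1 {V : Type} [Fintype V] (G : SimpleGraph V) (Δ k t : ℕ) (ty : ℕ → Prop)
    (nd qt : V → ℕ) (δ κ : ℝ) (φ : ℕ → V → V) (c0 cc hh : V → ℕ) (hreg : ∀ v, dg G v = Δ)
    (hle : ∀ v, nd v ≤ 2 * k) (he1 : ∀ i < k, ty i → pt nd (2 * i + 1) = ∅)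
    (hF : FcOut G Δ k ty nd qt t δ φ c0) (hG : GaOut G Δ k ty nd qt t κ φ cc hh)
    (hE : ∀ i < k, ty i → ∃ mm : ℕ → V → V,
      PM G (Δ + 2) (fun ℓ => (univ.filter fun v => φ ℓ v ≠ v ∨ cc v = ℓ ∨ hh v = ℓ) ∪
        (univ \ pt nd (2 * i))) mm ∧
      ∀ ℓ < Δ + 2, ∀ v ∈ pt nd (2 * i),
        v ∉ (univ.filter fun v => φ ℓ v ≠ v ∨ cc v = ℓ ∨ hh v = ℓ) → mm ℓ v ≠ v)
    (hB : ∀ i < k, ¬ ty i → ∃ mm : ℕ → V → V,
      PM (bt G (pt nd (2 * i)) (pt nd (2 * i + 1))) (Δ + 2)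
        (fun ℓ => (univ.filter fun v => φ ℓ v ≠ v ∨ cc v = ℓ ∨ hh v = ℓ) ∪
        (univ \ (pt nd (2 * i) ∪ pt nd (2 * i + 1)))) mm ∧
      ∀ ℓ < Δ + 2, ∀ v ∈ pt nd (2 * i) ∪ pt nd (2 * i + 1),
        v ∉ (univ.filter fun v => φ ℓ v ≠ v ∨ cc v = ℓ ∨ hh v = ℓ) → mm ℓ v ≠ v) :
    Tot G (Δ + 2) := by
  have hpart : ∀ i, ∃ mm : ℕ → V → V, i < k → F1P G Δ k ty nd (f1U φ cc hh) i mm := by
    intro i
    by_cases hi : i < k
    · by_cases ht : ty i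
      · obtain ⟨mm, h1, h2⟩ := hE i hi ht
        exact ⟨mm, fun _ => f1_exp hi ht (he1 i hi ht) h1 h2⟩
      · obtain ⟨mm, h1, h2⟩ := hB i hi ht
        exact ⟨mm, fun _ => f1_bip hi h1 h2⟩
    · exact ⟨fun _ v => v, fun h => absurd h hi⟩
  choose mm hmm using hpart
  have hmm' : ∀ v, nd v < 2 * k → F1P G Δ k ty nd (f1U φ cc hh) (nd v / 2) (mm (nd v / 2)) :=
    fun v hv => hmm (nd v / 2) (by omega)
  obtain ⟨M, hM⟩ : ∃ M : ℕ → V → V, M = fun ℓ v => if φ ℓ v ≠ v then φ ℓ v else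
    if nd v < 2 * k then mm (nd v / 2) ℓ v else v := ⟨_, rfl⟩
  have M1 : ∀ ℓ v, φ ℓ v ≠ v → M ℓ v = φ ℓ v := by
    intro ℓ v h
    rw [hM]
    exact if_pos h
  have M2 : ∀ ℓ v, φ ℓ v = v → nd v < 2 * k → M ℓ v = mm (nd v / 2) ℓ v := by
    intro ℓ v h h'
    rw [hM]
    dsimp only
    rw [if_neg (not_not.2 h), if_pos h']
  have M3 : ∀ ℓ v, φ ℓ v = v → ¬ nd v < 2 * k → M ℓ v = v := by
    intro ℓ v h h'
    rw [hM]
    dsimp only
    rw [if_neg (not_not.2 h), if_neg h']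
  have Minv : ∀ ℓ < Δ + 2, ∀ v, M ℓ (M ℓ v) = v := by
    intro ℓ hℓ v
    by_cases h1 : φ ℓ v = v
    · by_cases h2 : nd v < 2 * k
      · have h3 := hmm' v h2
        rw [M2 ℓ v h1 h2]
        by_cases h4 : mm (nd v / 2) ℓ v = v
        · rw [h4, M2 ℓ v h1 h2, h4]
        · have h5 := h3.adj ℓ hℓ v h4
          obtain ⟨-, -, h6, h7, -⟩ := h5
          have h8 : φ ℓ (mm (nd v / 2) ℓ v) = mm (nd v / 2) ℓ v := by
            by_contra h9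
            have h10 := h3.fix ℓ hℓ (mm (nd v / 2) ℓ v) (mem_filter.2 ⟨mem_univ _, Or.inl h9⟩)
            rw [h3.inv ℓ hℓ v] at h10
            exact h4 h10.symm
          rw [M2 ℓ _ h8 h6, ← h7, h3.inv ℓ hℓ v]
      · rw [M3 ℓ v h1 h2, M3 ℓ v h1 h2]
    · rw [M1 ℓ v h1, M1 ℓ (φ ℓ v) (by
        rw [hF.inv ℓ hℓ v]
        exact Ne.symm h1), hF.inv ℓ hℓ v]
  have Mcc : ∀ v, M (cc v) v = v := by
    intro v
    have h1 := (hG.fr v).1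
    by_cases h2 : nd v < 2 * k
    · rw [M2 _ v h1 h2]
      exact (hmm' v h2).fix _ (hG.lt v).1 v (mem_filter.2 ⟨mem_univ _, Or.inr (Or.inl rfl)⟩)
    · exact M3 _ v h1 h2
  have Mcov : ∀ a b, G.Adj a b → ∃ ℓ < Δ + 2, M ℓ a = b := by
    intro a b hab
    by_cases h1 : (Hg G k ty nd).Adj a b
    · have h2 : nd a < 2 * k := h1.2.1
      have h3 := hmm' a h2
      obtain ⟨ℓ, hℓ, h4⟩ := f1_cover hreg hF hG h1 h3
      refine ⟨ℓ, hℓ, ?_⟩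
      have h5 : φ ℓ a = a := by
        by_contra h6
        have h7 := h3.fix ℓ hℓ a (mem_filter.2 ⟨mem_univ _, Or.inl h6⟩)
        rw [h4] at h7
        exact hab.ne' h7
      rw [M2 ℓ a h5 h2, h4]
    · obtain ⟨ℓ, hℓ, h2⟩ := hF.cov a b ⟨hab, h1⟩
      refine ⟨ℓ, hℓ, ?_⟩
      rw [M1 ℓ a (by rw [h2]; exact hab.ne'), h2]
  obtain ⟨P, hP⟩ : ∃ P : Sym2 V → ℕ → Prop, P = fun e ℓ => ℓ < Δ + 2 ∧
    ∃ a b, e = s(a, b) ∧ M ℓ a = b := ⟨_, rfl⟩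
  have hP1 : ∀ a b ℓ, P s(a, b) ℓ → ℓ < Δ + 2 ∧ M ℓ a = b := by
    intro a b ℓ h
    rw [hP] at h
    obtain ⟨h1, a', b', h2, h3⟩ := h
    refine ⟨h1, ?_⟩
    rcases Sym2.eq_iff.1 h2 with ⟨h4, h5⟩ | ⟨h4, h5⟩
    · rw [h4, h5]
      exact h3
    · rw [h4, h5, ← h3]
      exact Minv ℓ h1 a'
  have hP2 : ∀ a b, G.Adj a b → ∃ ℓ, P s(a, b) ℓ := by
    intro a b hab
    obtain ⟨ℓ, hℓ, h⟩ := Mcov a b hab
    refine ⟨ℓ, ?_⟩
    rw [hP]
    exact ⟨hℓ, a, b, rfl, h⟩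
  obtain ⟨fE, hfE⟩ : ∃ fE : Sym2 V → ℕ, ∀ a b, G.Adj a b → P s(a, b) (fE s(a, b)) := by
    refine ⟨fun e => if h : ∃ ℓ, P e ℓ then h.choose else 0, ?_⟩
    intro a b hab
    have h1 := hP2 a b hab
    dsimp only
    rw [dif_pos h1]
    exact h1.choose_spec
  refine ⟨cc, fE, fun v => (hG.lt v).1, ?_, hG.pr, ?_, ?_⟩
  · intro a b hab
    exact (hP1 a b _ (hfE a b hab)).1
  · intro a b hab h
    have h1 := (hP1 a b _ (hfE a b hab)).2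
    rw [← h, Mcc a] at h1
    exact hab.ne h1
  · intro a b b' hab hab' hne h
    have h1 := (hP1 a b _ (hfE a b hab)).2
    have h2 := (hP1 a b' _ (hfE a b' hab')).2
    rw [← h, h1] at h2
    exact hne h2

end Pool.Agent.H71.TD
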