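import Mathlib
import Pool.Agent.H71.TD.Ifc
import Pool.Agent.H46.GA.Chg
import Pool.Agent.H46.GA.Grx
import Pool.Agent.H46.GA.Fct
import Pool.Agent.H46.GA.Col
import Pool.Agent.H46.GA.Hol

/-!
GA: the colours `cc` and the holes `hh` of the vertices. Assembled from the rows in `Pool/Agent/H46/GA`; here only the
constants are chosen.

Notation: `n = card V`, `L = Δ + 2`, `t = Δ / (12 g)`, `T1 = [0, t)`, `T2 = [t, 2 t)`, `R = [2 t, L)`, `Lo = pt nd (2 k)`; `X`: `qt v < 2`, `Y`: `2 ≤ qt v`. `f << ζ, ξ`, `δ, ξ << 1/g, x, c`. `cc w = c0 w` for `w ∈ Lo`, `hh w =` the other label `ℓ < L` with `φ ℓ w = w` (there are exactly two since `dg F w = Δ`).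
The parts `i < k` are treated one after the other. A label `ℓ` is bad for `v` (in the part `i`) if `φ ℓ v ≠ v`, or `cc u = ℓ` for a neighbour `u` of `v` in `Lo` or in an earlier part. Special labels: the `c0 w`, `w ∈ Lo` (at most `f n`). A label that is not special is bad for few vertices (`δ n` + (bounded number of
vertices with this colour in each earlier part) * `ξ n`), and a vertex has few bad labels (`≤ 2 ξ n`). For a special label `ℓ = c0 w`, `w ∉ sf i`, there are at least `ζ n` vertices in each piece of the part that are not adjacent to `w`; for special labels only vertices `v` with `dg F v ≤ sqrt f n` are used as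
vertices of this colour (all but `sqrt f n` vertices are such, by `sm`), so that the earlier parts forbid only few of the `ζ n` vertices.
Tools: (ASG) Let `A` be a finite set, `Λ` a set of labels, `a ℓ ≤ K` naturals with `∑_{ℓ ∈ Λ} a ℓ = #A`, every element has at most `d` bad labels, every label is bad for at most `d` elements, `Γ` a conflict graph on `A` of degree at most `d`, and `(4 K + 4) d < #A`. Then there is
`c : A → Λ` with `#c⁻¹(ℓ) = a ℓ`, no bad labels, adjacent elements get different labels (take a map with the fewest violations and swap a violating element with another one). (GRD2) greedy choice of the elements for few labels (special ones, labels of `T1`, `T2`) among many candidates.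
(E) expanding part `C = pt nd (2 i)`, `N = #C` (even), `zi :=` the label `c0 w` of the (at most one) `w ∈ sf i`: it is never used as a colour in `C`. `F_ℓ := #{v ∈ C : φ ℓ v ≠ v}`. `O := {ℓ < L : N - F_ℓ odd}` has an even number of elements.
 Groups: (i) `N ≤ L - 1`: all groups are single vertices, they get `N` different labels `≠ zi`, as many of `O` as possible: the number of labels where the parity is then odd is `≤ N` (if `#O ≤ N`: `N - #O`, or `N - #O + 2` if `zi ∈ O`; if `#O > N`: `#O - N ≤ L - N ≤ N`).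
 (ii) `L ≤ N ≤ (11/10) Δ`: `p0 = N - L + 1` disjoint non-adjacent pairs (the complement of `G[C]` has minimum degree `≥ N - 1 - Δ = p0`, so it has a matching with `p0` edges), all other groups single; `L - 1` groups for the labels `≠ zi`; the pairs get labels in `R`. (iii) `N > (11/10) Δ`: no nearly complete set of about
 `Δ` vertices in `C` (it would contradict `XPc`), so `chN` (`DC/ChN.lean`) colours `G[C]` with `(1 - η) Δ` colours; split the classes into pieces of bounded size: at most `(1 - η/2) Δ` groups; they get labels in `R` that are not special (`g0` large so that `2 t` and `f n` are small compared with `η Δ`).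
 In (i), (ii) the labels of `T1` get single vertices of `Y`, those of `T2` single vertices of `X`, special labels single vertices not adjacent to `w` (all this greedily), the rest by ASG.
 Then the holes: every label whose parity is odd gets one hole (their number is `≤ N`), the remaining (even) number of holes is distributed in pairs, at most `K` per label, over the labels of `R`. Again GRD2 for `T1` (vertices of `Y`), `T2` (vertices of `X`), then ASG; bad for the hole: `φ ℓ v ≠ v` or `cc v = ℓ`.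
(B) nearly bipartite part, `A = pt nd (2 i)`, `B = pt nd (2 i + 1)`, `#A = #B`, `u ℓ := uu nd (φ ℓ) i`, `|u ℓ| ≤ 3`, `∑_{ℓ < L} u ℓ = 0`, `∑ max 0 (-u ℓ) = ∑ max 0 (u ℓ) ≤ (4/5) Δ`. We need `#(own or hole in A) - #(own or hole in B) = - u ℓ` at every label. Let all `w ∈ sf i` be on the `A`-side (many non-neighbours in
 `A`; the other case is symmetric), `Zs := {c0 w : w ∈ sf i}`. Labels with `u ℓ < 0`: `- u ℓ` colours in `A`. Labels with `u ℓ > 0`, `ℓ ∉ Zs`: `u ℓ` colours in `B`. Labels with `u ℓ > 0`, `ℓ ∈ Zs`: `u ℓ` holes in `B`. (For special labels `c0 w`, `w ∉ sf i`, there are `ζ n` non-neighbours on both sides.)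
 Let `α0, β0, s2` be the numbers of vertices used so far: colours in `A`, colours in `B`, holes in `B`: `α0 = β0 + s2`. At no label there may be colours on both sides. Let `ΛA` consist of the labels of `R` that are not special with `u ℓ < 0` and of half of those with `u ℓ = 0`, and `ΛB` of those with `u ℓ > 0` and of the
 other half of those with `u ℓ = 0` (both have at least `(L - 2 t - f n) / 4 - 1` elements, as `|u| ≤ 3` and the sum is `0`, up to `T1, T2`, special labels). Distribute the remaining `#A - α0` colours of `A` evenly over `ΛA`, together with the same number of holes of `B` at the same labels (`#A - α0 ≤ #B - s2`), the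
 remaining `#B - β0` colours of `B` evenly over `ΛB`, together with the same number of holes of `A`; the remaining `α0 - s2 = β0` holes of `B` and `#A - (#B - β0) = β0` holes of `A` evenly over `R`, in pairs. All numbers per label are bounded by `K = O(1/c)`. Labels of `T1`: vertices of `Y`; labels of `T2`: vertices
 of `X`. GRD2 for `T1`, `T2` and the special labels, ASG for the rest (colours: conflict graph `Γ` = the defect edges inside `A`).
-/

set_option autoImplicit false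

namespace Pool.Agent.H71.TD

open Finset Classical
open Pool.Agent.H71.DN Pool.Agent.H71.DX Pool.Agent.H71.DR Pool.Agent.H71.HL Pool.Agent.H71.DC
open Pool.Agent.H46.GA

theorem ga_big (a b : ℝ) (hb : 0 < b) : ∃ N0 : ℕ, ∀ n : ℕ, N0 ≤ n → a ≤ b * (n : ℝ) := by
  refine ⟨⌈a / b⌉₊, fun n hn => ?_⟩
  have h1 : a / b ≤ n := (Nat.le_ceil _).trans (by exact_mod_cast hn)
  rw [div_le_iff₀ hb] at h1
  linarith

/-- The natural number inequalities, from bounds for the parameters. -/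
theorem ga_num (M K s A Δ n k d D r z e t : ℕ) (hM1 : 1 ≤ M) (hK : K = 16 * M + 4)
    (hA : 64 * (3 * K + 4 * M * s + 8 * M * K) + 64 * (4 * M + K + s + 4) + 80 * s + 100 ≤ A)
    (hk : k ≤ 2 * M) (hAd : A * d ≤ Δ) (ht : 1200 * t ≤ Δ)
    (hD : 10000 * M * D ≤ Δ) (hr : 10000 * M * r ≤ Δ) (he : 10000 * M * e ≤ Δ)
    (hz : 10 * z ≤ Δ) (hDz : 500 * M * D ≤ z) (hrz : 500 * M * r ≤ z) (hez : 500 * M * e ≤ z)
    (hz0 : 0 < z)
    (hB : 64 * (4 * M + K + s + 4) + 64 * (M * (K + s)) + 1000 ≤ Δ) :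
    10 * d ≤ Δ ∧ 10 * (2 * s * d + 2 * t + r) ≤ Δ ∧ 240 * e ≤ z ∧ d ≤ Δ ∧
    z + 2 * d + 2 * s * d + 2 * t + r ≤ Δ ∧ 13 * (2 * t + r) + 40 ≤ Δ ∧
    2 * (D + e + 6 * k * r + 6 * k * e) < z ∧
    8 * (3 * K * d + D + 2 * k * s * d + 4 * k * K * d + 6 * k * r) < Δ ∧
    8 * (3 * t + 6 * k * r) ≤ Δ ∧ 4 * t ≤ Δ ∧
    4 * ((4 * M + (K + s) + 4) * (d + 1) + D + 2 * k * (K + s)) < Δ := by
  have eA : (64 * (3 * K + 4 * M * s + 8 * M * K) + 64 * (4 * M + K + s + 4) + 80 * s + 100) * d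
      ≤ Δ := (Nat.mul_le_mul_right d hA).trans hAd
  have e1 : 0 ≤ K * d := Nat.zero_le _
  -- expand
  have eA2 : 192 * (K * d) + 256 * (M * s * d) + 512 * (M * K * d) + 256 * (M * d) + 64 * (K * d)
      + 64 * (s * d) + 256 * d + 80 * (s * d) + 100 * d ≤ Δ := by nlinarith [eA]
  have hMr : r ≤ M * r := Nat.le_mul_of_pos_left r hM1
  have hMe : e ≤ M * e := Nat.le_mul_of_pos_left e hM1
  have hMD : D ≤ M * D := Nat.le_mul_of_pos_left D hM1
  have hkr : k * r ≤ 2 * (M * r) := by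
    have := Nat.mul_le_mul_right r hk; nlinarith
  have hke : k * e ≤ 2 * (M * e) := by
    have := Nat.mul_le_mul_right e hk; nlinarith
  have hksd : k * s * d ≤ 2 * (M * s * d) := by
    have := Nat.mul_le_mul_right (s * d) hk; nlinarith
  have hkKd : k * K * d ≤ 2 * (M * K * d) := by
    have := Nat.mul_le_mul_right (K * d) hk; nlinarith
  have hkKs : k * (K + s) ≤ 2 * (M * (K + s)) := by
    have := Nat.mul_le_mul_right (K + s) hk; nlinarith
  have g1 : 10000 * (M * D) ≤ Δ := by nlinarith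
  have g2 : 10000 * (M * r) ≤ Δ := by nlinarith
  have g3 : 10000 * (M * e) ≤ Δ := by nlinarith
  have g4 : 500 * (M * D) ≤ z := by nlinarith
  have g5 : 500 * (M * r) ≤ z := by nlinarith
  have g6 : 500 * (M * e) ≤ z := by nlinarith
  generalize hx1 : K * d = x1 at *
  generalize hx2 : M * s * d = x2 at *
  generalize hx3 : M * K * d = x3 at *
  generalize hx4 : s * d = x4 at *
  generalize hx5 : M * d = x5 at *
  have i1 : 2 * s * d = 2 * x4 := by rw [← hx4]; ring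
  have i2 : 6 * k * r = 6 * (k * r) := by ring
  have i3 : 6 * k * e = 6 * (k * e) := by ring
  have i4 : 3 * K * d = 3 * x1 := by rw [← hx1]; ring
  have i5 : 2 * k * s * d = 2 * (k * s * d) := by ring
  have i6 : 4 * k * K * d = 4 * (k * K * d) := by ring
  have i7 : (4 * M + (K + s) + 4) * (d + 1) = 4 * x5 + x1 + x4 + 4 * d + (4 * M + K + s + 4) := by
    rw [← hx5, ← hx1, ← hx4]; ring
  have i8 : 2 * k * (K + s) = 2 * (k * (K + s)) := by ring
  rw [i1, i2, i3, i4, i5, i6, i7, i8]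
  refine ⟨by omega, by omega, by omega, by omega, by omega, by omega, by omega, by omega,
    by omega, by omega, by omega⟩

theorem ga (c x : ℝ) (hc : 0 < c) (hc1 : c ≤ 1) (hx : 0 < x) (hx1 : x ≤ 1) :
    ∃ g0 : ℕ, ∀ g : ℕ, g0 ≤ g → ∀ κ : ℝ, 0 < κ → ∃ ξ0 : ℝ, 0 < ξ0 ∧
      ∀ ξ ζ : ℝ, 0 < ξ → ξ ≤ ξ0 → 0 < ζ → ∃ (δ f0 : ℝ) (n0 : ℕ), 0 < δ ∧ 0 < f0 ∧
        ∀ (V : Type) [Fintype V] (G : SimpleGraph V) (Δ k KE KB : ℕ) (f η f1 : ℝ)
          (ty : ℕ → Prop) (nd qt : V → ℕ) (sf : ℕ → Finset V) (φ : ℕ → V → V) (c0 : V → ℕ),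
          n0 ≤ Fintype.card V → c * Fintype.card V ≤ Δ → 0 ≤ f → f ≤ f0 → 1 ≤ KE → 1 ≤ KB →
          η ≤ 1 / 100 → Str G Δ c x ξ ζ f k ty nd sf → Spl G k ty nd qt η KE KB f1 →
          FcOut G Δ k ty nd qt (Δ / (12 * g)) δ φ c0 →
          ∃ cc hh : V → ℕ, GaOut G Δ k ty nd qt (Δ / (12 * g)) κ φ cc hh := by
  obtain ⟨η1, s, n1, hη1, hη14, hs, hchg⟩ := chg c x hc hc1 hx hx1
  obtain ⟨M, hM⟩ : ∃ M : ℕ, M = ⌈1 / c⌉₊ := ⟨_, rfl⟩
  have hMc : 1 ≤ (M : ℝ) * c := by
    have h := Nat.le_ceil (1 / c)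
    rw [← hM, div_le_iff₀ hc] at h
    exact h
  have hM1 : 1 ≤ M := by
    rcases Nat.eq_zero_or_pos M with h | h
    · rw [h] at hMc; norm_num at hMc
    · exact h
  have hMR : (1 : ℝ) ≤ M := by exact_mod_cast hM1
  obtain ⟨K, hK⟩ : ∃ K : ℕ, K = 16 * M + 4 := ⟨_, rfl⟩
  obtain ⟨A, hA⟩ : ∃ A : ℕ, A = ⌈8 * (s : ℝ) / η1⌉₊ + (64 * (3 * K + 4 * M * s + 8 * M * K) +
      64 * (4 * M + K + s + 4) + 80 * s + 100) := ⟨_, rfl⟩
  have hA1 : 8 * (s : ℝ) ≤ η1 * A := by
    have h1 : 8 * (s : ℝ) / η1 ≤ A := by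
      refine (Nat.le_ceil _).trans ?_
      have : ⌈8 * (s : ℝ) / η1⌉₊ ≤ A := by rw [hA]; exact Nat.le_add_right _ _
      exact_mod_cast this
    rw [div_le_iff₀ hη1] at h1
    linarith
  have hA2 : 64 * (3 * K + 4 * M * s + 8 * M * K) + 64 * (4 * M + K + s + 4) + 80 * s + 100 ≤ A := by
    rw [hA]; exact Nat.le_add_left _ _
  have hA3 : 100 ≤ A := by omega
  have hA0 : (0 : ℝ) < A := by
    have : 0 < A := by omega
    exact_mod_cast this
  refine ⟨max 100 ⌈2 / η1⌉₊, fun g hg κ hκ => ⟨c / (2 * A), by positivity,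
    fun ξ ζ hξ hξ0 hζ => ?_⟩⟩
  have hg1 : 100 ≤ g := (le_max_left _ _).trans hg
  have hg2 : 2 ≤ η1 * g := by
    have h1 : 2 / η1 ≤ g := by
      refine (Nat.le_ceil _).trans ?_
      exact_mod_cast (le_max_right _ _).trans hg
    rw [div_le_iff₀ hη1] at h1
    linarith
  obtain ⟨ζ', hz0, hz1, hz2⟩ : ∃ ζ' : ℝ, 0 < ζ' ∧ ζ' ≤ ζ ∧ ζ' ≤ c / 10 :=
    ⟨min ζ (c / 10), lt_min hζ (by positivity), min_le_left _ _, min_le_right _ _⟩
  obtain ⟨τ, ht0, ht1, ht2, ht3⟩ : ∃ τ : ℝ, 0 < τ ∧ 1000 * M * τ ≤ ζ' ∧ τ ≤ κ / 2 ∧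
      4 * τ ≤ c * η1 := by
    refine ⟨min (ζ' / (1000 * M)) (min (κ / 2) (c * η1 / 4)), lt_min (by positivity)
      (lt_min (by positivity) (by positivity)), ?_, (min_le_right _ _).trans (min_le_left _ _), ?_⟩
    · have h1 : min (ζ' / (1000 * M)) (min (κ / 2) (c * η1 / 4)) ≤ ζ' / (1000 * M) :=
        min_le_left _ _
      rw [le_div_iff₀ (by positivity)] at h1
      linarith
    · have h1 : min (ζ' / (1000 * M)) (min (κ / 2) (c * η1 / 4)) ≤ c * η1 / 4 :=
        (min_le_right _ _).trans (min_le_right _ _)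
      linarith
  obtain ⟨N1, hN1⟩ := ga_big (2 * A) c hc
  obtain ⟨N2, hN2⟩ := ga_big 2 τ ht0
  obtain ⟨N3, hN3⟩ := ga_big 100 ζ' hz0
  obtain ⟨N4, hN4⟩ := ga_big (2 * (4 * M * (4 * M + 2 * (K + s) + 4) : ℕ)) κ hκ
  obtain ⟨N5, hN5⟩ := ga_big ((64 * (4 * M + K + s + 4) + 64 * (M * (K + s)) + 1000 : ℕ)) c hc
  refine ⟨τ / 2, min (τ / 2) ((τ / 2) ^ 2), n1 + N1 + N2 + N3 + N4 + N5, by positivity,
    lt_min (by positivity) (by positivity), ?_⟩
  intro V _ G Δ k KE KB f η f1 ty nd qt sf φ c0 hn hcn hf0 hf hKE hKB hη hS hP hφ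
  obtain ⟨n, hnn⟩ : ∃ n : ℝ, n = (Fintype.card V : ℝ) := ⟨_, rfl⟩
  have b1 : 2 * (A : ℝ) ≤ c * n := hnn ▸ hN1 _ (by omega)
  have b2 : 2 ≤ τ * n := hnn ▸ hN2 _ (by omega)
  have b3 : 100 ≤ ζ' * n := hnn ▸ hN3 _ (by omega)
  have b4 : 2 * ((4 * M * (4 * M + 2 * (K + s) + 4) : ℕ) : ℝ) ≤ κ * n := hnn ▸ hN4 _ (by omega)
  have b5 : ((64 * (4 * M + K + s + 4) + 64 * (M * (K + s)) + 1000 : ℕ) : ℝ) ≤ c * n :=
    hnn ▸ hN5 _ (by omega)
  rw [← hnn] at hcn
  have hn0 : 0 ≤ n := hnn ▸ Nat.cast_nonneg _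
  obtain ⟨t, ht⟩ : ∃ t : ℕ, t = Δ / (12 * g) := ⟨_, rfl⟩
  rw [← ht] at hφ ⊢
  have htg : 12 * g * t ≤ Δ := by rw [ht]; exact Nat.mul_div_le _ _
  have ht1200 : 1200 * t ≤ Δ := (Nat.mul_le_mul_right t (by omega)).trans htg
  -- the parameters
  obtain ⟨d, hd⟩ : ∃ d : ℕ, d = ⌈ξ * n⌉₊ := ⟨_, rfl⟩
  obtain ⟨D, hD⟩ : ∃ D : ℕ, D = ⌈τ / 2 * n⌉₊ := ⟨_, rfl⟩
  obtain ⟨r, hr⟩ : ∃ r : ℕ, r = ⌈f * n⌉₊ := ⟨_, rfl⟩
  obtain ⟨e, he⟩ : ∃ e : ℕ, e = ⌈√f * n⌉₊ := ⟨_, rfl⟩
  obtain ⟨z, hz⟩ : ∃ z : ℕ, z = ⌊ζ' * n⌋₊ := ⟨_, rfl⟩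
  have hd1 : ξ * n ≤ d := by rw [hd]; exact Nat.le_ceil _
  have hd2 : (d : ℝ) ≤ ξ * n + 1 := by rw [hd]; exact (Nat.ceil_lt_add_one (by positivity)).le
  have hD1 : τ / 2 * n ≤ D := by rw [hD]; exact Nat.le_ceil _
  have hD2 : (D : ℝ) ≤ τ * n := by
    have : (D : ℝ) ≤ τ / 2 * n + 1 := by
      rw [hD]; exact (Nat.ceil_lt_add_one (by positivity)).le
    linarith
  have hr1 : f * n ≤ r := by rw [hr]; exact Nat.le_ceil _
  have hr2 : (r : ℝ) ≤ τ * n := by
    have h1 : (r : ℝ) ≤ f * n + 1 := by rw [hr]; exact (Nat.ceil_lt_add_one (by positivity)).le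
    have h2 : f * n ≤ τ / 2 * n := mul_le_mul_of_nonneg_right (hf.trans (min_le_left _ _)) hn0
    linarith
  have he0 : √f * n ≤ e := by rw [he]; exact Nat.le_ceil _
  have he1 : f * n ^ 2 ≤ (e : ℝ) ^ 2 := by
    have h1 : (√f * n) ^ 2 ≤ (e : ℝ) ^ 2 := pow_le_pow_left₀ (by positivity) he0 2
    rw [mul_pow, Real.sq_sqrt hf0] at h1
    exact h1
  have he2 : (e : ℝ) ≤ τ * n := by
    have h1 : (e : ℝ) ≤ √f * n + 1 := by
      rw [he]; exact (Nat.ceil_lt_add_one (by positivity)).le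
    have h2 : √f ≤ τ / 2 := by
      rw [show τ / 2 = √((τ / 2) ^ 2) from (Real.sqrt_sq (by positivity)).symm]
      exact Real.sqrt_le_sqrt (hf.trans (min_le_right _ _))
    have h3 : √f * n ≤ τ / 2 * n := mul_le_mul_of_nonneg_right h2 hn0
    linarith
  have hz3 : (z : ℝ) ≤ ζ' * n := by rw [hz]; exact Nat.floor_le (by positivity)
  have hz4 : ζ' * n - 1 ≤ z := by
    rw [hz]; exact (Nat.sub_one_lt_floor _).le
  have hz5 : ζ' * n ≤ ζ * n := mul_le_mul_of_nonneg_right hz1 hn0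
  have hz6 : 10 * (ζ' * n) ≤ c * n := by
    have := mul_le_mul_of_nonneg_right hz2 hn0
    linarith
  have hτn : 1000 * M * (τ * n) ≤ ζ' * n := by
    have := mul_le_mul_of_nonneg_right ht1 hn0
    linarith
  have hAd : A * d ≤ Δ := by
    have h1 : (A : ℝ) * (ξ * n) ≤ c * n / 2 := by
      have h2 : (A : ℝ) * ξ ≤ c / 2 := by
        have h3 : ξ * (2 * A) ≤ c := by
          rw [le_div_iff₀ (by positivity)] at hξ0
          exact hξ0
        linarith
      have := mul_le_mul_of_nonneg_right h2 hn0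
      linarith
    have h4 : (A : ℝ) * d ≤ A * (ξ * n + 1) := mul_le_mul_of_nonneg_left hd2 hA0.le
    have h5 : (A : ℝ) * d ≤ Δ := by linarith
    exact_mod_cast h5
  have hsmall : ∀ y : ℕ, (y : ℝ) ≤ τ * n → 10000 * M * y ≤ Δ ∧ 500 * M * y ≤ z := by
    intro y hy
    have h1 : (M : ℝ) * y ≤ M * (τ * n) := mul_le_mul_of_nonneg_left hy (by linarith)
    have h2 : 10000 * (M : ℝ) * y ≤ Δ := by nlinarith
    have h3 : 500 * (M : ℝ) * y ≤ z := by nlinarith
    exact ⟨by exact_mod_cast h2, by exact_mod_cast h3⟩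
  have hk : k ≤ 2 * M := by
    have h1 := hS.kc
    have h2 : (k : ℝ) ≤ 2 * M := by
      rcases le_or_gt (k : ℝ) (2 * M) with h | h
      · exact h
      · nlinarith
    exact_mod_cast h2
  have hΔ : (64 * (4 * M + K + s + 4) + 64 * (M * (K + s)) + 1000 : ℕ) ≤ Δ := by
    have := b5.trans hcn
    exact_mod_cast this
  have hzz : 0 < z := by
    have : (0 : ℝ) < z := by linarith
    exact_mod_cast this
  have h10z : 10 * z ≤ Δ := by
    have : 10 * (z : ℝ) ≤ Δ := by linarith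
    exact_mod_cast this
  obtain ⟨m1, m2, m3, m4, m5, m6, m7, m8, m9, m10, m11⟩ := ga_num M K s A Δ (Fintype.card V) k d D
    r z e t hM1 hK hA2 hk hAd ht1200 (hsmall D hD2).1 (hsmall r hr2).1 (hsmall e he2).1 h10z
    (hsmall D hD2).2 (hsmall r hr2).2 (hsmall e he2).2 hzz hΔ
  have hMn : Fintype.card V ≤ M * Δ := by
    have h1 : n ≤ M * Δ := by
      have h2 : (M : ℝ) * (c * n) ≤ M * Δ := mul_le_mul_of_nonneg_left hcn (by linarith)
      nlinarith
    rw [hnn] at h1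
    exact_mod_cast h1
  have hFx : Fx G Δ k ty nd qt sf t φ c0 d D r z e :=
    fct G Δ k KE KB t c x ξ ζ f η f1 (τ / 2) ty nd qt sf φ c0 d D r z e hS hP hφ hη
      (hnn ▸ hd1) (hnn ▸ hD1) (hnn ▸ hr1) (hnn ▸ hz3.trans hz5) (hnn ▸ he1) m1
  have hch : ∀ i < k, ty i → 11 * Δ < 10 * (pt nd (2 * i)).card →
      ∃ (m : ℕ) (γ : V → ℕ), Grp G (pt nd (2 * i)) m s γ ∧ m + (2 * s * d + 2 * t + r) ≤ Δ := by
    intro i hi hty hbig
    obtain ⟨m, γ, hG, hm⟩ := hchg V G Δ (pt nd (2 * i)) (by omega) (fun v => (hS.reg v).le)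
      (hnn ▸ hcn) hbig (hS.e3 i hi hty)
    refine ⟨m, γ, hG, ?_⟩
    have h1 : 8 * (s : ℝ) * d ≤ η1 * Δ := by
      have h2 : 8 * (s : ℝ) * d ≤ η1 * A * d := mul_le_mul_of_nonneg_right hA1 (Nat.cast_nonneg _)
      have h3 : (A : ℝ) * d ≤ Δ := by exact_mod_cast hAd
      have h4 := mul_le_mul_of_nonneg_left h3 hη1.le
      linarith
    have h5 : 24 * (t : ℝ) ≤ η1 * Δ := by
      have h6 : 12 * (g : ℝ) * t ≤ Δ := by exact_mod_cast htg
      have h7 := mul_le_mul_of_nonneg_left h6 hη1.le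
      have h8 := mul_le_mul_of_nonneg_right hg2 (Nat.cast_nonneg t : (0 : ℝ) ≤ t)
      nlinarith
    have h9 : 4 * (r : ℝ) ≤ η1 * Δ := by
      have h10 := mul_le_mul_of_nonneg_right ht3 hn0
      have h11 := mul_le_mul_of_nonneg_left hcn hη1.le
      nlinarith
    have h12 : (m : ℝ) + (2 * s * d + 2 * t + r) ≤ Δ := by
      have : (0 : ℝ) ≤ η1 * Δ := by positivity
      nlinarith
    exact_mod_cast h12
  have hgr := grx G Δ k ty nd qt sf t φ c0 d D r z e hFx s (2 * s * d + 2 * t + r) hs m2 m3 m4 hch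
  obtain ⟨cc, hcc⟩ := col G Δ k ty nd qt sf t φ c0 d D r z e hFx s (2 * s * d + 2 * t + r) hs le_rfl
    m5 hgr M K hMn hK.ge m6 m7 m8 m9
  obtain ⟨hh, hhh⟩ := hol G Δ k ty nd qt sf t φ c0 d D r z e hFx (K + s) cc hcc M hMn m10 m11 κ (by
    rw [← hnn]
    have h1 : 2 * k * (4 * M + 2 * (K + s) + 4) ≤ 4 * M * (4 * M + 2 * (K + s) + 4) :=
      Nat.mul_le_mul_right _ (by omega)
    have h2 : ((2 * k * (4 * M + 2 * (K + s) + 4) : ℕ) : ℝ) ≤
        ((4 * M * (4 * M + 2 * (K + s) + 4) : ℕ) : ℝ) := by exact_mod_cast h1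
    have h3 : τ * n ≤ κ / 2 * n := mul_le_mul_of_nonneg_right ht2 hn0
    rw [Nat.cast_add]
    linarith)
  exact ⟨cc, hh, hhh⟩

end Pool.Agent.H71.TD
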