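import Mathlib
import Pool.Agent.H71.TD.MnT
import Pool.Agent.H33.TDP.MnTp
import Pool.Agent.H2.FP.FcSt
import Pool.Agent.H46.GP.GapSt

/-!
MNA: every large graph with maximum degree at least `c n` has a `(p, 1)`-total labelling with `Δ + 2 p` labels, for all `p ≤ P`.
-/

set_option autoImplicit false

namespace Pool.Agent.H71.TD

open Finset Classical
open Pool.Agent.H71.DN Pool.Agent.H71.DX Pool.Agent.H71.DR Pool.Agent.H71.HL Pool.Agent.H71.DC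
open Pool.Agent.H33.TDP Pool.Agent.H90.TDP

theorem lab_of_tot {V : Type} (G : SimpleGraph V) (Δ : ℕ) (h : Tot G (Δ + 2)) :
    Lab G 1 (Δ + 2 * 1) := by
  obtain ⟨fV, fE, h1, h2, h3, h4, h5⟩ := h
  refine ⟨fV, fE, h1, h2, h3, ?_, h5⟩
  intro a b hab h6
  apply h4 a b hab
  unfold Nr at h6
  omega

theorem mn1 (c : ℝ) (hc : 0 < c) (hc1 : c ≤ 1) (p : ℕ) :
    ∃ n0 : ℕ, 1 ≤ p → ∀ (V : Type) [Fintype V] (G : SimpleGraph V) (Δ : ℕ), n0 ≤ Fintype.card V →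
      (∀ v, dg G v ≤ Δ) → c * Fintype.card V ≤ Δ → Δ ≤ Fintype.card V →
      Lab G p (Δ + 2 * p) := by
  by_cases hp : 1 ≤ p
  · by_cases hp2 : 2 ≤ p
    · obtain ⟨n0, h0⟩ := mnTp c p hp hc hc1
        (fun g hg => Pool.Agent.H90.TDP.fcstp (c / 40) g p (by positivity) (by linarith) hg hp)
        (fun x hx hx1 => Pool.Agent.H46.GP.gaStP (c / 40) x p (by positivity) (by linarith) hx hx1 hp2)
      exact ⟨n0, fun _ => h0⟩
    · have hp3 : p = 1 := by omega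
      subst hp3
      obtain ⟨n0, h0⟩ := mnT c hc hc1
      exact ⟨n0, fun _ V _ G Δ hn h1 h2 h3 => lab_of_tot G Δ (h0 V G Δ hn h1 h2 h3)⟩
  · exact ⟨0, fun h => absurd h hp⟩

theorem mnA (c : ℝ) (hc : 0 < c) (hc1 : c ≤ 1) (P : ℕ) :
    ∃ n0 : ℕ, ∀ (V : Type) [Fintype V] (G : SimpleGraph V) (Δ p : ℕ), 1 ≤ p → p ≤ P →
      n0 ≤ Fintype.card V → (∀ v, dg G v ≤ Δ) → c * Fintype.card V ≤ Δ → Δ ≤ Fintype.card V →
      Lab G p (Δ + 2 * p) := by
  choose nf hf using mn1 c hc hc1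
  refine ⟨(range (P + 1)).sup nf, ?_⟩
  intro V _ G Δ p hp hpP hn h1 h2 h3
  have h4 : nf p ≤ (range (P + 1)).sup nf := Finset.le_sup (mem_range.2 (by omega))
  exact hf p hp V G Δ (h4.trans hn) h1 h2 h3

end Pool.Agent.H71.TD
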